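import Pool.Agent.OGP.Basic

/-!
# OGP: the group algebra of the free group and its evaluation at two unitaries

`CF` is the complex group algebra of the free group on two generators `a = of 0`, `b = of 1`;
`mst` its involution, `msq f = ∑ |f g|²` the squared 2-norm, the trace of `f` is `f.coeff 1`.
`evM U V f` is the matrix obtained by substituting `U` for `a` and `V` for `b`.
-/

open Matrix
namespace Pool.Agent.OGP

/-- The complex group algebra of the free group on two generators. -/
abbrev CF := MonoidAlgebra ℂ (FreeGroup (Fin 2))

/-- The involution of the group algebra. -/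
noncomputable def mst (f : CF) : CF := f.coeff.sum fun g z => MonoidAlgebra.single g⁻¹ (star z)

/-- The squared 2-norm of an element of the group algebra. -/
noncomputable def msq (f : CF) : ℝ := f.coeff.sum fun _ z => ‖z‖ ^ 2

/-- The second generator in the group algebra. -/
noncomputable def gb : CF := MonoidAlgebra.single (FreeGroup.of 1) 1

/-- A Laurent polynomial in the first generator. -/
noncomputable def lau (c : ℤ →₀ ℂ) : CF :=
  c.sum fun m z => MonoidAlgebra.single ((FreeGroup.of (0 : Fin 2)) ^ m) z

variable {ι : Type} [Fintype ι] [DecidableEq ι]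

/-- Evaluation of group elements at two unitaries. -/
def evF (U V : UG ι) : FreeGroup (Fin 2) →* UG ι := FreeGroup.lift ![U, V]

/-- Evaluation of the group algebra at two unitaries. -/
noncomputable def evM (U V : UG ι) : CF →ₐ[ℂ] Matrix ι ι ℂ :=
  MonoidAlgebra.lift ℂ (Matrix ι ι ℂ) (FreeGroup (Fin 2))
    ((Matrix.unitaryGroup ι ℂ).subtype.comp (evF U V))

/-- A Laurent polynomial of a unitary matrix. -/
noncomputable def lauM (c : ℤ →₀ ℂ) (U : UG ι) : Matrix ι ι ℂ :=
  c.sum fun m z => z • (((U ^ m : UG ι)) : Matrix ι ι ℂ)

end Pool.Agent.OGP
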