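import Pool.Agent.OGP.Free

/-!
# OGP BAL: the balanced word

`b_p = ∫ utr (A^p ((Q A)^p)⁻¹)` is `(conj (utr Q))^p` up to `4^p / n`.

Let `t = utr Q⁻¹ = conj (utr Q)` and `c_j = ∫ utr (A^j Q⁻¹ (A⁻¹ Q⁻¹)^j)`; `(Q A)⁻¹ = A⁻¹ Q⁻¹`, so
`b_p = c_{p-1}` (cancel `A A⁻¹` in the middle), and `c_0 = t`.  Claim: `|c_j - t^{j+1}| ≤ 4^j / n`.
Let `j ≥ 1`.  Write `A^j Q⁻¹ (A⁻¹ Q⁻¹)^j = V * X * wd V L` (`V = A`; for `j ≥ 2`: `X = 1`,
`L = replicate (j-2) (true, 1) ++ [(true, Q⁻¹)] ++ replicate j (false, Q⁻¹)`; for `j = 1`: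
`X = Q⁻¹`, `L = [(false, Q⁻¹)]`) and apply `word_identity`:
`c_j = - ∑_{a=1}^{j-1} ∫ utr (A^a) utr (A^{j-a} Q⁻¹ (A⁻¹ Q⁻¹)^j)
       + ∑_{b=1}^{j} ∫ utr (A^{j-1} Q⁻¹ (A⁻¹ Q⁻¹)^{b-1}) utr (Q⁻¹ (A⁻¹ Q⁻¹)^{j-b})`.
The term `b = j` is `c_{j-1} t`.  For `b < j` the second factor is a word of length `j - b` with all
signs negative (up to a cyclic rotation), so its `L¹` norm is `≤ 4^{j-b}/n` (`free_word_abs`,
`δ = 0`), and the first factor is `≤ 1` in modulus; `|utr (A^a)|` has `L¹` norm `≤ 4^a/n`.  So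
`|c_j - c_{j-1} t| ≤ 2 ∑_{i=1}^{j-1} 4^i / n ≤ (2/3) 4^j / n`, and since `|t| ≤ 1`,
`|c_j - t^{j+1}| ≤ |c_{j-1} - t^j| + (2/3) 4^j / n ≤ (4^{j-1} + (2/3) 4^j) / n ≤ 4^j / n`.
-/

open Matrix MeasureTheory
namespace Pool.Agent.OGP

variable {ι : Type} [Fintype ι] [DecidableEq ι]

private lemma bal_integrable {E : Type*} [NormedAddCommGroup E] {f : UG ι → E}
    (hf : Continuous f) : Integrable f (haarU ι) :=
  (integrableOn_univ).1 (hf.continuousOn.integrableOn_compact isCompact_univ)

private lemma bal_norm {f g : UG ι → ℂ} (hf : Continuous f) (hg : Continuous g)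
    (h : ∀ V, ‖f V‖ ≤ 1) {c : ℝ} (hc : ∫ V, ‖g V‖ ∂(haarU ι) ≤ c) :
    ‖∫ V, f V * g V ∂(haarU ι)‖ ≤ c := by
  refine (norm_integral_le_integral_norm _).trans (le_trans ?_ hc)
  refine integral_mono (bal_integrable (hf.mul hg).norm) (bal_integrable hg.norm) fun V => ?_
  rw [norm_mul]
  exact mul_le_of_le_one_left (norm_nonneg _) (h V)

private lemma bal_wd_rep (V : UG ι) (k : ℕ) (p : Bool × UG ι) :
    wd V (List.replicate k p) = ((if p.1 then V else V⁻¹) * p.2) ^ k := by
  simp [wd, List.map_replicate, List.prod_replicate]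

/-- The list for the word `V W (V⁻¹ W)^(k+1) V^k`. -/
private def balL (W : UG ι) (k : ℕ) : List (Bool × UG ι) :=
  List.replicate (k + 1) (false, W) ++ List.replicate k (true, 1)

private lemma balL_length (W : UG ι) (k : ℕ) : (balL W k).length = (k + 1) + k := by
  simp [balL]

/-- The integral of the word. -/
private noncomputable def cj (W : UG ι) (j : ℕ) : ℂ :=
  ∫ A, utr (A ^ j * (W * (A⁻¹ * W) ^ j)) ∂(haarU ι)

private lemma bal_wd (V W : UG ι) (k : ℕ) :
    wd V (balL W k) = (V⁻¹ * W) ^ (k + 1) * V ^ k := by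
  rw [balL, wd_append, bal_wd_rep, bal_wd_rep]
  simp

private lemma bal_lhs (V W : UG ι) (k : ℕ) :
    utr (V * W * wd V (balL W k)) = utr (V ^ (k + 1) * (W * (V⁻¹ * W) ^ (k + 1))) := by
  rw [bal_wd, ← mul_assoc, utr_mul_comm, pow_succ V k]
  simp only [mul_assoc]

/-- First kind of terms. -/
private noncomputable def G1 (W : UG ι) (k i : ℕ) : ℂ :=
  ∫ V, utr (W * (V⁻¹ * W) ^ i) * utr ((V⁻¹ * W) ^ (k + 1 - i) * V ^ (k + 1)) ∂(haarU ι)

/-- Second kind of terms. -/
private noncomputable def G2 (W : UG ι) (k l : ℕ) : ℂ :=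
  ∫ V, utr (W * ((V⁻¹ * W) ^ (k + 1) * V ^ (l + 1))) * utr (V ^ (k - l)) ∂(haarU ι)

private lemma bal_term1 (W : UG ι) (k : ℕ) (i : Fin (balL W k).length) (hi : i.1 < k + 1) :
    wsg (balL W k) i * ∫ V, utr (W * wl V (balL W k) i) * utr (wr V (balL W k) i * V) ∂(haarU ι) =
      - G1 W k i := by
  have hg : (balL W k).get i = (false, W) := by
    rw [List.get_eq_getElem]
    simp only [balL]
    rw [List.getElem_append_left (by simpa using hi), List.getElem_replicate]
  have ht : (balL W k).take i = List.replicate i (false, W) := by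
    simp only [balL]
    rw [List.take_append_of_le_length (by simpa using hi.le), List.take_replicate,
      Nat.min_eq_left hi.le]
  have hd : (balL W k).drop (i + 1) =
      List.replicate (k - i) (false, W) ++ List.replicate k (true, 1) := by
    simp only [balL]
    rw [List.drop_append_of_le_length (by simpa using hi), List.drop_replicate]
    congr 2
    omega
  unfold wsg G1
  rw [hg]
  simp only [Bool.false_eq_true, if_false]
  rw [neg_one_mul]
  congr 1
  refine integral_congr_ae (Filter.Eventually.of_forall fun V => ?_)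
  simp only
  unfold wl wr
  rw [hg, ht, hd, wd_append, bal_wd_rep, bal_wd_rep, bal_wd_rep]
  simp only [Bool.false_eq_true, if_false, if_true, mul_one]
  have e : k + 1 - i.1 = (k - i.1) + 1 := by omega
  rw [e, pow_succ' (V⁻¹ * W), pow_succ V k]
  simp only [mul_assoc]

private lemma bal_term2 (W : UG ι) (k : ℕ) (i : Fin (balL W k).length) (l : ℕ)
    (hi : i.1 = k + 1 + l) :
    wsg (balL W k) i * ∫ V, utr (W * wl V (balL W k) i) * utr (wr V (balL W k) i * V) ∂(haarU ι) =
      G2 W k l := by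
  have hlt : i.1 < k + 1 + k := by
    have h1 := i.2
    have h2 := balL_length W k
    omega
  have hg : (balL W k).get i = (true, 1) := by
    rw [List.get_eq_getElem]
    simp only [balL]
    rw [List.getElem_append_right (by simp; omega), List.getElem_replicate]
  have ht : (balL W k).take i = List.replicate (k + 1) (false, W) ++ List.replicate l (true, 1) := by
    simp only [balL]
    rw [List.take_append, List.take_replicate, List.take_replicate, List.length_replicate,
      Nat.min_eq_right (by omega), Nat.min_eq_left (by omega)]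
    congr 2
    omega
  have hd : (balL W k).drop (i + 1) = List.replicate (k - l - 1) (true, 1) := by
    simp only [balL]
    rw [List.drop_append, List.drop_replicate, List.drop_replicate, List.length_replicate]
    have e1 : k + 1 - (i.1 + 1) = 0 := by omega
    have e2 : k - (i.1 + 1 - (k + 1)) = k - l - 1 := by omega
    rw [e1, e2]
    simp
  unfold wsg G2
  rw [hg]
  simp only [if_true, one_mul]
  refine integral_congr_ae (Filter.Eventually.of_forall fun V => ?_)
  simp only
  unfold wl wr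
  rw [hg, ht, hd, wd_append, bal_wd_rep, bal_wd_rep, bal_wd_rep]
  simp only [Bool.false_eq_true, if_false, if_true, mul_one, one_mul]
  have e : V ^ (k - l) = V ^ (k - l - 1) * V := by
    rw [← pow_succ]
    congr 1
    omega
  rw [e, pow_succ V l]
  simp only [mul_assoc]

private lemma bal_identity [Nonempty ι] (W : UG ι) (k : ℕ) :
    cj W (k + 1) = ∑ i ∈ Finset.range (k + 1), G1 W k i - ∑ l ∈ Finset.range k, G2 W k l := by
  have h := word_identity W (balL W k)
  have hl : ∫ V, utr (V * W * wd V (balL W k)) ∂(haarU ι) = cj W (k + 1) := by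
    unfold cj
    exact integral_congr_ae (Filter.Eventually.of_forall fun V => bal_lhs V W k)
  rw [hl] at h
  rw [h]
  have h2 : ∀ i : Fin (balL W k).length,
      wsg (balL W k) i * ∫ V, utr (W * wl V (balL W k) i) * utr (wr V (balL W k) i * V) ∂(haarU ι) =
      (fun m : ℕ => if m < k + 1 then - G1 W k m else G2 W k (m - (k + 1))) i.1 := by
    intro i
    simp only
    split_ifs with hi
    · exact bal_term1 W k i hi
    · exact bal_term2 W k i _ (by omega)
  rw [Finset.sum_congr rfl fun i _ => h2 i,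
    Fin.sum_univ_eq_sum_range (fun m : ℕ => if m < k + 1 then - G1 W k m else G2 W k (m - (k + 1))),
    balL_length, Finset.sum_range_add]
  have h3 : ∑ x ∈ Finset.range (k + 1),
      (if x < k + 1 then - G1 W k x else G2 W k (x - (k + 1))) =
      - ∑ x ∈ Finset.range (k + 1), G1 W k x := by
    rw [← Finset.sum_neg_distrib]
    refine Finset.sum_congr rfl fun x hx => ?_
    rw [if_pos (Finset.mem_range.1 hx)]
  have h4 : ∑ x ∈ Finset.range k,
      (if k + 1 + x < k + 1 then - G1 W k (k + 1 + x) else G2 W k (k + 1 + x - (k + 1))) =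
      ∑ x ∈ Finset.range k, G2 W k x := by
    refine Finset.sum_congr rfl fun x _ => ?_
    rw [if_neg (by omega), Nat.add_sub_cancel_left]
  rw [h3, h4]
  ring

private lemma bal_G1_zero (W : UG ι) (k : ℕ) : G1 W k 0 = utr W * cj W k := by
  unfold G1 cj
  rw [← integral_const_mul]
  refine integral_congr_ae (Filter.Eventually.of_forall fun V => ?_)
  simp only [pow_zero, mul_one, Nat.sub_zero]
  congr 1
  rw [utr_mul_comm, pow_succ V k, pow_succ' (V⁻¹ * W) k]
  simp only [mul_assoc, mul_inv_cancel_left]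

private lemma bal_G1_le [Nonempty ι] (W : UG ι) (k i : ℕ) (hi : 1 ≤ i) :
    ‖G1 W k i‖ ≤ 4 ^ i / (Fintype.card ι : ℝ) := by
  unfold G1
  have hcg : ∀ V : UG ι, utr (W * (V⁻¹ * W) ^ i) * utr ((V⁻¹ * W) ^ (k + 1 - i) * V ^ (k + 1)) =
      utr ((V⁻¹ * W) ^ (k + 1 - i) * V ^ (k + 1)) * utr (W * (V⁻¹ * W) ^ i) := fun V => mul_comm _ _
  simp only [hcg]
  refine bal_norm ?_ ?_ (fun V => norm_utr_le_one _) ?_
  · exact continuous_utr.comp (by fun_prop)
  · exact continuous_utr.comp (by fun_prop)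
  have hw : ∀ V : UG ι, utr (W * (V⁻¹ * W) ^ i) =
      utr (wd V (List.replicate (i - 1) (false, W) ++ [(false, W * W)])) := by
    intro V
    rw [wd_append, bal_wd_rep, wd_cons, wd_nil]
    simp only [Bool.false_eq_true, if_false, mul_one]
    rw [utr_mul_comm]
    have e : i = (i - 1) + 1 := by omega
    rw [e, pow_succ, Nat.add_sub_cancel]
    simp only [mul_assoc]
  simp only [hw]
  have hch : (List.replicate (i - 1) (false, W) ++ [(false, W * W)]).IsChain
      (fun p q : Bool × UG ι => p.1 ≠ q.1 → ‖utr p.2‖ ≤ 0) := by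
    have hall : ∀ x ∈ (List.replicate (i - 1) (false, W) ++ [(false, W * W)]), x.1 = false := by
      intro x hx
      rw [List.mem_append] at hx
      rcases hx with hx | hx
      · rw [List.eq_of_mem_replicate hx]
      · rw [List.mem_singleton] at hx
        rw [hx]
    have gen : ∀ L : List (Bool × UG ι), (∀ x ∈ L, x.1 = false) →
        L.IsChain (fun p q : Bool × UG ι => p.1 ≠ q.1 → ‖utr p.2‖ ≤ 0) := by
      intro L hL
      induction L with
      | nil => exact List.IsChain.nil
      | cons a L ih =>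
        refine List.isChain_cons.2 ⟨?_, ih fun x hx => hL x (List.mem_cons_of_mem _ hx)⟩
        intro y hy hne
        exfalso
        apply hne
        rw [hL a List.mem_cons_self, hL y (List.mem_cons_of_mem _ (List.mem_of_mem_head? hy))]
    exact gen _ hall
  have := free_word_abs (ι := ι) le_rfl _ (by simp) hch
  refine this.trans_eq ?_
  rw [List.length_append, List.length_replicate, List.length_singleton, Nat.sub_add_cancel hi]
  ring

private lemma bal_G2_le [Nonempty ι] (W : UG ι) (k l : ℕ) (hl : l < k) :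
    ‖G2 W k l‖ ≤ 4 ^ (k - l) / (Fintype.card ι : ℝ) := by
  unfold G2
  refine bal_norm ?_ ?_ (fun V => norm_utr_le_one _) ?_
  · exact continuous_utr.comp (by fun_prop)
  · exact continuous_utr.comp (by fun_prop)
  have := pow_small (1 : UG ι) (m := k - l) (by omega)
  simpa using this

private lemma bal_step [Nonempty ι] (W : UG ι) (k : ℕ) :
    ‖cj W (k + 1) - utr W * cj W k‖ ≤ 2 / 3 * 4 ^ (k + 1) / (Fintype.card ι : ℝ) := by
  have hn : (0 : ℝ) < Fintype.card ι := by exact_mod_cast Fintype.card_pos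
  have hgeo : ∀ m : ℕ, ∑ i ∈ Finset.range m, (4 : ℝ) ^ (i + 1) ≤ 1 / 3 * 4 ^ (m + 1) := by
    intro m
    induction m with
    | zero => norm_num
    | succ m ih =>
      rw [Finset.sum_range_succ]
      have : (4 : ℝ) ^ (m + 1 + 1) = 4 * 4 ^ (m + 1) := by ring
      rw [this]
      linarith
  rw [bal_identity, Finset.sum_range_succ', bal_G1_zero]
  have e : ∑ i ∈ Finset.range k, G1 W k (i + 1) + utr W * cj W k - ∑ l ∈ Finset.range k, G2 W k l -
      utr W * cj W k = ∑ i ∈ Finset.range k, G1 W k (i + 1) - ∑ l ∈ Finset.range k, G2 W k l := by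
    ring
  rw [e]
  refine (norm_sub_le _ _).trans ?_
  have h1 : ‖∑ i ∈ Finset.range k, G1 W k (i + 1)‖ ≤
      (1 / 3 * 4 ^ (k + 1)) / (Fintype.card ι : ℝ) := by
    refine (norm_sum_le _ _).trans ?_
    refine (Finset.sum_le_sum fun i _ => bal_G1_le W k (i + 1) (by omega)).trans ?_
    rw [← Finset.sum_div]
    exact div_le_div_of_nonneg_right (hgeo k) hn.le
  have h2 : ‖∑ l ∈ Finset.range k, G2 W k l‖ ≤
      (1 / 3 * 4 ^ (k + 1)) / (Fintype.card ι : ℝ) := by
    refine (norm_sum_le _ _).trans ?_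
    refine (Finset.sum_le_sum fun l hl => bal_G2_le W k l (Finset.mem_range.1 hl)).trans ?_
    rw [← Finset.sum_div]
    refine div_le_div_of_nonneg_right ?_ hn.le
    refine le_trans (le_of_eq ?_) (hgeo k)
    rw [← Finset.sum_range_reflect]
    refine Finset.sum_congr rfl fun i hi => ?_
    have := Finset.mem_range.1 hi
    congr 1
    omega
  refine (add_le_add h1 h2).trans (le_of_eq ?_)
  ring

private lemma bal_main [Nonempty ι] (W : UG ι) (j : ℕ) :
    ‖cj W j - utr W ^ (j + 1)‖ ≤ 4 ^ j / (Fintype.card ι : ℝ) := by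
  have hn : (0 : ℝ) < Fintype.card ι := by exact_mod_cast Fintype.card_pos
  induction j with
  | zero =>
    have : cj W 0 = utr W := by
      unfold cj
      simp
    rw [this]
    simp only [zero_add, pow_one, sub_self, norm_zero]
    positivity
  | succ k ih =>
    have e : cj W (k + 1) - utr W ^ (k + 1 + 1) =
        (cj W (k + 1) - utr W * cj W k) + utr W * (cj W k - utr W ^ (k + 1)) := by
      ring
    rw [e]
    refine (norm_add_le _ _).trans ?_
    rw [norm_mul]
    have h1 := bal_step W k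
    have h2 : ‖utr W‖ * ‖cj W k - utr W ^ (k + 1)‖ ≤ 4 ^ k / (Fintype.card ι : ℝ) :=
      (mul_le_of_le_one_left (norm_nonneg _) (norm_utr_le_one _)).trans ih
    refine (add_le_add h1 h2).trans ?_
    rw [← add_div]
    refine div_le_div_of_nonneg_right ?_ hn.le
    have : (4 : ℝ) ^ (k + 1) = 4 * 4 ^ k := by ring
    rw [this]
    have : (0 : ℝ) ≤ 4 ^ k := by positivity
    linarith

theorem bal_word [Nonempty ι] {p : ℕ} (hp : 1 ≤ p) (Q : UG ι) :
    ‖(∫ A, utr (A ^ p * ((Q * A) ^ p)⁻¹) ∂(haarU ι)) - star (utr Q) ^ p‖ ≤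
      4 ^ p / (Fintype.card ι : ℝ) := by
  have hn : (0 : ℝ) < Fintype.card ι := by exact_mod_cast Fintype.card_pos
  obtain ⟨j, rfl⟩ : ∃ j, p = j + 1 := ⟨p - 1, by omega⟩
  have h := bal_main (Q⁻¹ : UG ι) j
  rw [utr_inv] at h
  have e : ∫ A, utr (A ^ (j + 1) * ((Q * A) ^ (j + 1))⁻¹) ∂(haarU ι) = cj (Q⁻¹ : UG ι) j := by
    unfold cj
    refine integral_congr_ae (Filter.Eventually.of_forall fun V => ?_)
    simp only
    congr 1
    rw [← inv_pow, _root_.mul_inv_rev, pow_succ V j, pow_succ' (V⁻¹ * Q⁻¹) j]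
    simp only [mul_assoc, mul_inv_cancel_left]
  rw [e]
  refine h.trans ?_
  refine div_le_div_of_nonneg_right ?_ hn.le
  exact pow_le_pow_right₀ (by norm_num) (by omega)

end Pool.Agent.OGP
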