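import Pool.Agent.OGP.Netx

/-!
# OGP BALL: lower bound for the volume of balls

`W = x * (eU ∘ Y)`, `opn (Y i) ≤ δ` implies `dK x W ≤ δ`: `d2 (x i) (x i * eU (Y i)) =
n2 (eU (Y i) - 1) ≤ opn (eU (Y i) - 1) ≤ opn (Y i)` (`n2_le_opn`, `opn_eU_sub` with `0`).
So by `exists_opnet` the group `KG k N` is covered by `≤ (11/δ)^{k N²}` sets `{W | dK x W ≤ δ}`,
which by left invariance (`dK_mul_left`) have the same `haarK`-measure as `{W | dK 1 W ≤ δ}`.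
-/

open Matrix MeasureTheory
namespace Pool.Agent.OGP

lemma dK_le_of_exp {k N : ℕ} {x W : KG k N} {Y : Fin k → Matrix (Fin N) (Fin N) ℂ} {δ : ℝ}
    (hδ : 0 ≤ δ) (hY : ∀ i, (Y i).IsHermitian) (hYδ : ∀ i, opn (Y i) ≤ δ)
    (hW : ∀ i, W i = x i * eU (Y i)) : dK x W ≤ δ := by
  have h1 : ∀ i, d2 (x i) (W i) ≤ δ := by
    intro i
    have h2 : d2 (x i) (W i) = d2 1 (eU (Y i)) := by
      rw [hW i]
      conv_lhs => rw [← mul_one (x i)]
      rw [mul_assoc, one_mul, d2_mul_left]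
    rw [h2]
    have h0 : (0 : Matrix (Fin N) (Fin N) ℂ).IsHermitian := Matrix.isHermitian_zero
    have h3 : ((1 : UG (Fin N)) : Matrix (Fin N) (Fin N) ℂ) =
        ((eU (0 : Matrix (Fin N) (Fin N) ℂ) : UG (Fin N)) : Matrix (Fin N) (Fin N) ℂ) := by
      rw [eU_coe h0]
      simp
    unfold d2
    rw [h3]
    calc n2 (((eU (0 : Matrix (Fin N) (Fin N) ℂ) : UG (Fin N)) : Matrix (Fin N) (Fin N) ℂ) -
          ((eU (Y i) : UG (Fin N)) : Matrix (Fin N) (Fin N) ℂ))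
        ≤ opn (((eU (0 : Matrix (Fin N) (Fin N) ℂ) : UG (Fin N)) : Matrix (Fin N) (Fin N) ℂ) -
          ((eU (Y i) : UG (Fin N)) : Matrix (Fin N) (Fin N) ℂ)) := n2_le_opn _
      _ ≤ opn (0 - Y i) := opn_eU_sub h0 (hY i)
      _ = opn (Y i) := by rw [zero_sub, opn_neg]
      _ ≤ δ := hYδ i
  unfold dK
  rw [Real.sqrt_le_left hδ]
  have h2 : ∑ i, d2 (x i) (W i) ^ 2 ≤ k * δ ^ 2 := by
    calc ∑ i, d2 (x i) (W i) ^ 2 ≤ ∑ _i : Fin k, δ ^ 2 :=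
          Finset.sum_le_sum fun i _ => pow_le_pow_left₀ (d2_nonneg _ _) (h1 i) 2
      _ = k * δ ^ 2 := by simp
  rcases Nat.eq_zero_or_pos k with h0 | h0
  · subst h0
    simp
    positivity
  · have hk0 : (0 : ℝ) < k := by exact_mod_cast h0
    calc (k : ℝ)⁻¹ * ∑ i, d2 (x i) (W i) ^ 2 ≤ (k : ℝ)⁻¹ * (k * δ ^ 2) :=
          mul_le_mul_of_nonneg_left h2 (by positivity)
      _ = δ ^ 2 := by field_simp

lemma BALLmeas {k N : ℕ} (x x' : KG k N) (δ : ℝ) :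
    (haarK k N).real {W | dK x' W ≤ δ} = (haarK k N).real {W | dK x W ≤ δ} := by
  have h1 : {W | dK x' W ≤ δ} = (fun W => (x * x'⁻¹) * W) ⁻¹' {W | dK x W ≤ δ} := by
    ext W
    simp only [Set.mem_preimage, Set.mem_ofPred_eq]
    have h2 : dK x ((x * x'⁻¹) * W) = dK x' W := by
      conv_lhs => rw [show x = (x * x'⁻¹) * x' by group]
      have h3 : (x * x'⁻¹ * x') * x'⁻¹ * W = (x * x'⁻¹) * W := by group
      rw [h3, dK_mul_left]
    rw [h2]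
  rw [h1]
  unfold Measure.real
  rw [measure_preimage_mul]

theorem ball_lower {k N : ℕ} (hk : 1 ≤ k) (hN : 1 ≤ N) {δ : ℝ} (hδ : 0 < δ) (hδ1 : δ ≤ 1)
    (x : KG k N) : (δ / 11) ^ (k * N ^ 2) ≤ (haarK k N).real {W | dK x W ≤ δ} := by
  obtain ⟨s, hs, hcov⟩ := exists_opnet (k := k) (N := N) hk hN hδ hδ1
  have h1 : (Set.univ : Set (KG k N)) ⊆ ⋃ x' ∈ s, {W | dK x' W ≤ δ} := by
    intro W _
    obtain ⟨x', hx', Y, hY1, hY2, hY3⟩ := hcov W
    simp only [Set.mem_iUnion]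
    exact ⟨x', hx', dK_le_of_exp hδ.le hY1 hY2 hY3⟩
  have h2 : (1 : ℝ) ≤ s.card * (haarK k N).real {W | dK x W ≤ δ} := by
    calc (1 : ℝ) = (haarK k N).real Set.univ := by simp
      _ ≤ (haarK k N).real (⋃ x' ∈ s, {W | dK x' W ≤ δ}) := measureReal_mono h1 (measure_ne_top _ _)
      _ ≤ ∑ x' ∈ s, (haarK k N).real {W | dK x' W ≤ δ} := measureReal_biUnion_finset_le _ _
      _ = ∑ _x' ∈ s, (haarK k N).real {W | dK x W ≤ δ} :=
          Finset.sum_congr rfl fun x' _ => BALLmeas x x' δ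
      _ = s.card * (haarK k N).real {W | dK x W ≤ δ} := by rw [Finset.sum_const, nsmul_eq_mul]
  have h3 : (0 : ℝ) ≤ (haarK k N).real {W | dK x W ≤ δ} := measureReal_nonneg
  have h4 : (1 : ℝ) ≤ (11 / δ) ^ (k * N ^ 2) * (haarK k N).real {W | dK x W ≤ δ} :=
    h2.trans (mul_le_mul_of_nonneg_right hs h3)
  have h5 : (δ / 11) ^ (k * N ^ 2) * (11 / δ) ^ (k * N ^ 2) = 1 := by
    rw [← mul_pow]
    have : δ / 11 * (11 / δ) = 1 := by field_simp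
    rw [this, one_pow]
  have h6 : 0 < (δ / 11) ^ (k * N ^ 2) := by positivity
  calc (δ / 11) ^ (k * N ^ 2) = (δ / 11) ^ (k * N ^ 2) * 1 := (mul_one _).symm
    _ ≤ (δ / 11) ^ (k * N ^ 2) * ((11 / δ) ^ (k * N ^ 2) *
        (haarK k N).real {W | dK x W ≤ δ}) := mul_le_mul_of_nonneg_left h4 h6.le
    _ = (haarK k N).real {W | dK x W ≤ δ} := by rw [← mul_assoc, h5, one_mul]

end Pool.Agent.OGP
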