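import Mathlib

/-!
# OGP, basic definitions

`UG ι` is the unitary group of matrices indexed by `ι`, with its normalised Haar measure
`haarU ι`; `ntr` is the normalised trace, `hs` the Hilbert-Schmidt norm, `n2` the normalised
Hilbert-Schmidt norm.  `eU X` is the unitary `exp (i X)` for a Hermitian matrix `X` (for a general
matrix, the exponential of `i` times its Hermitian part).
-/

open MeasureTheory Matrix
open scoped Topology

namespace Pool.Agent.OGP

/-- The unitary group of matrices indexed by `ι`. -/
abbrev UG (ι : Type) [Fintype ι] [DecidableEq ι] := Matrix.unitaryGroup ι ℂ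

section
variable (ι : Type) [Fintype ι] [DecidableEq ι]

omit [DecidableEq ι] in
theorem scMat : SecondCountableTopology (Matrix ι ι ℂ) :=
  inferInstanceAs (SecondCountableTopology (ι → ι → ℂ))

instance instSCMat : SecondCountableTopology (Matrix ι ι ℂ) := scMat ι

instance instSCUG : SecondCountableTopology (UG ι) :=
  TopologicalSpace.Subtype.secondCountableTopology _

noncomputable instance instMSUG : MeasurableSpace (UG ι) := borel _

instance instBSUG : BorelSpace (UG ι) := ⟨rfl⟩

instance instCompUG : CompactSpace (UG ι) := by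
  refine isCompact_iff_compactSpace.1 ?_
  have h1 : IsClosed (Matrix.unitaryGroup ι ℂ : Set (Matrix ι ι ℂ)) := by
    have : (Matrix.unitaryGroup ι ℂ : Set (Matrix ι ι ℂ)) =
        {A | A * star A = 1} := by
      ext A
      exact Matrix.mem_unitaryGroup_iff
    rw [this]
    exact isClosed_eq (by fun_prop) (by fun_prop)
  have h2 : IsCompact (Set.univ.pi fun _ : ι => Set.univ.pi fun _ : ι =>
      Metric.closedBall (0 : ℂ) 1 : Set (ι → ι → ℂ)) :=
    isCompact_univ_pi fun _ => isCompact_univ_pi fun _ => isCompact_closedBall _ _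
  refine IsCompact.of_isClosed_subset (h2 : IsCompact (_ : Set (Matrix ι ι ℂ))) h1 ?_
  intro A hA i _ j _
  exact mem_closedBall_zero_iff.2 (entry_norm_bound_of_unitary hA i j)

/-- The normalised Haar measure of the unitary group. -/
noncomputable def haarU : Measure (UG ι) := Measure.haarMeasure ⊤

instance instHaarHaar : (haarU ι).IsHaarMeasure := by unfold haarU; infer_instance

instance instHaarProb : IsProbabilityMeasure (haarU ι) := by
  constructor
  unfold haarU
  exact Measure.haarMeasure_self (K₀ := (⊤ : TopologicalSpace.PositiveCompacts (UG ι)))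

/-- A left invariant probability measure is the Haar measure. -/
theorem eq_haarU (ν : Measure (UG ι)) [ν.IsMulLeftInvariant] [IsProbabilityMeasure ν] :
    ν = haarU ι := by
  have h := Measure.isMulLeftInvariant_eq_smul ν (haarU ι)
  have h2 := congrArg (fun m : Measure (UG ι) => m Set.univ) h
  simp only [measure_univ, Measure.smul_apply] at h2
  have h3 : (Measure.haarScalarFactor ν (haarU ι)) = 1 := by
    have h4 : (1 : ENNReal) = ((Measure.haarScalarFactor ν (haarU ι) : NNReal) : ENNReal) := by
      rw [h2]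
      change ((Measure.haarScalarFactor ν (haarU ι) : NNReal) : ENNReal) * 1 = _
      rw [mul_one]
    exact_mod_cast h4.symm
  rw [h, h3, one_smul]

instance instHaarRight : (haarU ι).IsMulRightInvariant := by
  constructor
  intro g
  have : IsProbabilityMeasure ((haarU ι).map fun x => x * g) :=
    Measure.isProbabilityMeasure_map (measurable_mul_const g).aemeasurable
  have : ((haarU ι).map fun x => x * g).IsMulLeftInvariant := by
    constructor
    intro h
    rw [Measure.map_map (measurable_const_mul h) (measurable_mul_const g)]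
    have e : (fun x : UG ι => h * x) ∘ (fun x => x * g) = (fun x => x * g) ∘ (fun x => h * x) := by
      ext1 x
      simp [mul_assoc]
    rw [e, ← Measure.map_map (measurable_mul_const g) (measurable_const_mul h),
      map_mul_left_eq_self]
  exact eq_haarU ι _

instance instHaarInv : (haarU ι).IsInvInvariant := by
  constructor
  have : IsProbabilityMeasure (haarU ι).inv := by
    unfold Measure.inv
    exact Measure.isProbabilityMeasure_map measurable_inv.aemeasurable
  exact eq_haarU ι _

end

variable {ι : Type} [Fintype ι] [DecidableEq ι]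

/-- The normalised trace. -/
noncomputable def ntr (X : Matrix ι ι ℂ) : ℂ := (Fintype.card ι : ℂ)⁻¹ * X.trace

/-- The Hilbert-Schmidt norm. -/
noncomputable def hs (X : Matrix ι ι ℂ) : ℝ := Real.sqrt (∑ i, ∑ j, ‖X i j‖ ^ 2)

/-- The normalised Hilbert-Schmidt norm. -/
noncomputable def n2 (X : Matrix ι ι ℂ) : ℝ :=
  Real.sqrt ((Fintype.card ι : ℝ)⁻¹ * ∑ i, ∑ j, ‖X i j‖ ^ 2)

/-- The operator norm. -/
noncomputable def opn (X : Matrix ι ι ℂ) : ℝ := ‖Matrix.toEuclideanCLM (𝕜 := ℂ) X‖

/-- The normalised trace of a unitary. -/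
noncomputable def utr (V : UG ι) : ℂ := ntr (V : Matrix ι ι ℂ)

/-- The Hilbert-Schmidt distance of two unitaries. -/
noncomputable def dhs (A B : UG ι) : ℝ := hs ((A : Matrix ι ι ℂ) - (B : Matrix ι ι ℂ))

/-- The normalised Hilbert-Schmidt distance of two unitaries. -/
noncomputable def d2 (A B : UG ι) : ℝ := n2 ((A : Matrix ι ι ℂ) - (B : Matrix ι ι ℂ))

/-- The Hermitian part of a matrix. -/
noncomputable def hpart (X : Matrix ι ι ℂ) : Matrix ι ι ℂ := (1 / 2 : ℂ) • (X + Xᴴ)

omit [Fintype ι] [DecidableEq ι] in
lemma hpart_isHermitian (X : Matrix ι ι ℂ) : (hpart X).IsHermitian := by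
  unfold hpart Matrix.IsHermitian
  rw [Matrix.conjTranspose_smul, Matrix.conjTranspose_add, Matrix.conjTranspose_conjTranspose,
    add_comm Xᴴ X]
  simp

omit [Fintype ι] [DecidableEq ι] in
lemma hpart_of_isHermitian {X : Matrix ι ι ℂ} (hX : X.IsHermitian) : hpart X = X := by
  unfold hpart
  rw [hX.eq, ← two_smul ℂ X, smul_smul]
  norm_num

lemma exp_mem {X : Matrix ι ι ℂ} (hX : X.IsHermitian) :
    NormedSpace.exp (Complex.I • X) ∈ Matrix.unitaryGroup ι ℂ := by
  rw [Matrix.mem_unitaryGroup_iff, Matrix.star_eq_conjTranspose, ← Matrix.exp_conjTranspose,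
    Matrix.conjTranspose_smul, hX.eq]
  have : star Complex.I • X = -(Complex.I • X) := by
    rw [← neg_smul]; simp
  have hc : Commute (Complex.I • X) (-(Complex.I • X)) := (Commute.refl _).neg_right
  rw [this, ← Matrix.exp_add_of_commute _ _ hc]
  simp

/-- `exp (i X)` for Hermitian `X`. -/
noncomputable def eU (X : Matrix ι ι ℂ) : UG ι :=
  ⟨NormedSpace.exp (Complex.I • hpart X), exp_mem (hpart_isHermitian X)⟩

lemma eU_coe {X : Matrix ι ι ℂ} (hX : X.IsHermitian) :
    (eU X : Matrix ι ι ℂ) = NormedSpace.exp (Complex.I • X) := by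
  change NormedSpace.exp (Complex.I • hpart X) = _
  rw [hpart_of_isHermitian hX]

/-- The scalar unitary `exp (i θ)`. -/
noncomputable def phU (θ : ℝ) : UG ι := eU ((θ : ℂ) • (1 : Matrix ι ι ℂ))

lemma phU_coe (θ : ℝ) :
    ((phU θ : UG ι) : Matrix ι ι ℂ) = Complex.exp (Complex.I * θ) • (1 : Matrix ι ι ℂ) := by
  have hH : ((θ : ℂ) • (1 : Matrix ι ι ℂ)).IsHermitian := by
    unfold Matrix.IsHermitian
    rw [Matrix.conjTranspose_smul]
    simp
  unfold phU
  rw [eU_coe hH, smul_smul]
  have h1 : (Complex.I * (θ : ℂ)) • (1 : Matrix ι ι ℂ) =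
      Matrix.diagonal (fun _ => Complex.I * (θ : ℂ)) := by
    ext i j
    simp [Matrix.diagonal, Matrix.one_apply]
  rw [h1, Matrix.exp_diagonal]
  ext i j
  simp only [Matrix.diagonal, Matrix.of_apply, Matrix.smul_apply, Matrix.one_apply, smul_eq_mul]
  split_ifs
  · rw [Pi.coe_exp, ← Complex.exp_eq_exp_ℂ]
    simp
  · simp

/-- A function on the unitary group invariant under multiplication by phases. -/
def PhaseInv {E : Type*} (F : UG ι → E) : Prop := ∀ (θ : ℝ) (A : UG ι), F (phU θ * A) = F A

/-- A product of letters `V ^ (± 1) * X`. -/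
def wd (V : UG ι) (L : List (Bool × UG ι)) : UG ι :=
  (L.map fun p => (if p.1 then V else V⁻¹) * p.2).prod

/-- The expectation of `Z` in the probability measure of density proportional to `exp G`. -/
noncomputable def tE {E : Type*} [NormedAddCommGroup E] [NormedSpace ℝ E] (G : UG ι → ℝ)
    (Z : UG ι → E) : E :=
  (∫ A, Real.exp (G A) ∂(haarU ι))⁻¹ • ∫ A, Real.exp (G A) • Z A ∂(haarU ι)

/-- The moment `tr ((V W)^p)`. -/
noncomputable def Tp (p : ℕ) (V W : UG ι) : ℂ := utr ((V * W) ^ p)

end Pool.Agent.OGP
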