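import Pool.Agent.OGP.Norms

/-!
# OGP EXP: the unitaries `eU X = exp (i X)`

Elementary facts on `eU X = exp (I • hpart X)`, where `hpart X = X` for Hermitian `X`
(`hpart_of_isHermitian`, `eU_coe`).  Tools: `Matrix.exp_add_of_commute`, `Matrix.exp_neg`,
`Matrix.exp_units_conj` / `Matrix.exp_conj`, `NormedSpace.exp_continuous`,
`hasDerivAt_exp_smul_const`.
-/

open Matrix
namespace Pool.Agent.OGP

variable {ι : Type} [Fintype ι] [DecidableEq ι]

lemma eU_zero : (eU (0 : Matrix ι ι ℂ) : UG ι) = 1 := by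
  apply Subtype.ext
  rw [eU_coe Matrix.isHermitian_zero]
  simp

omit [Fintype ι] [DecidableEq ι] in
lemma isHermitian_smul {X : Matrix ι ι ℂ} (hX : X.IsHermitian) (t : ℝ) :
    ((t : ℂ) • X).IsHermitian := by
  unfold Matrix.IsHermitian
  rw [Matrix.conjTranspose_smul, hX.eq]
  congr 1
  simp

lemma isHermitian_conj (U : UG ι) {X : Matrix ι ι ℂ} (hX : X.IsHermitian) :
    ((U : Matrix ι ι ℂ) * X * (U : Matrix ι ι ℂ)ᴴ).IsHermitian :=
  Matrix.isHermitian_mul_mul_conjTranspose _ hX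

lemma eU_add_comm {X Y : Matrix ι ι ℂ} (hX : X.IsHermitian) (hY : Y.IsHermitian)
    (h : Commute X Y) : eU (X + Y) = eU X * eU Y := by
  apply Subtype.ext
  rw [UG_coe_mul, eU_coe hX, eU_coe hY, eU_coe (hX.add hY), smul_add]
  exact Matrix.exp_add_of_commute _ _ ((h.smul_left _).smul_right _)

lemma eU_add_smul {X : Matrix ι ι ℂ} (hX : X.IsHermitian) (s t : ℝ) :
    eU (((s + t : ℝ) : ℂ) • X) = eU ((s : ℂ) • X) * eU ((t : ℂ) • X) := by
  rw [← eU_add_comm (isHermitian_smul hX s) (isHermitian_smul hX t)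
    (((Commute.refl X).smul_left _).smul_right _), ← add_smul]
  push_cast
  rfl

omit [Fintype ι] [DecidableEq ι] in
lemma hpart_neg (X : Matrix ι ι ℂ) : hpart (-X) = -hpart X := by
  unfold hpart
  rw [Matrix.conjTranspose_neg, ← neg_add, smul_neg]

lemma eU_eq_hpart (X : Matrix ι ι ℂ) : eU X = eU (hpart X) := by
  apply Subtype.ext
  rw [eU_coe (hpart_isHermitian X)]
  rfl

lemma eU_neg (X : Matrix ι ι ℂ) : eU (-X) = (eU X)⁻¹ := by
  rw [eU_eq_hpart, eU_eq_hpart X, hpart_neg, eq_inv_iff_mul_eq_one,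
    ← eU_add_comm (hpart_isHermitian X).neg (hpart_isHermitian X) (Commute.refl _).neg_left]
  rw [neg_add_cancel, eU_zero]

lemma eU_conj (U : UG ι) {X : Matrix ι ι ℂ} (hX : X.IsHermitian) :
    U * eU X * U⁻¹ = eU ((U : Matrix ι ι ℂ) * X * (U : Matrix ι ι ℂ)ᴴ) := by
  apply Subtype.ext
  rw [UG_coe_mul, UG_coe_mul, eU_coe hX, eU_coe (isHermitian_conj U hX), UG_coe_inv]
  have h := Matrix.exp_units_conj
    (⟨(U : Matrix ι ι ℂ), (U : Matrix ι ι ℂ)ᴴ, UG_mul_conj U, UG_conj_mul U⟩ : (Matrix ι ι ℂ)ˣ)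
    (Complex.I • X)
  have h2 : Complex.I • ((U : Matrix ι ι ℂ) * X * (U : Matrix ι ι ℂ)ᴴ) =
      (U : Matrix ι ι ℂ) * (Complex.I • X) * (U : Matrix ι ι ℂ)ᴴ := by
    rw [Matrix.mul_smul, Matrix.smul_mul]
  rw [h2]
  exact h.symm

lemma eU_add_phase {X : Matrix ι ι ℂ} (hX : X.IsHermitian) (θ : ℝ) :
    eU (X + (θ : ℂ) • (1 : Matrix ι ι ℂ)) = phU θ * eU X := by
  rw [add_comm]
  exact eU_add_comm (isHermitian_smul Matrix.isHermitian_one θ) hX
    ((Commute.one_left X).smul_left _)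

/-- In particular `eU` of a real diagonal matrix is the diagonal matrix of the exponentials. -/
lemma eU_diagonal (θ : ι → ℝ) :
    ((eU (Matrix.diagonal fun i => (θ i : ℂ)) : UG ι) : Matrix ι ι ℂ) =
      Matrix.diagonal fun i => Complex.exp (Complex.I * θ i) := by
  have hD : (Matrix.diagonal fun i => (θ i : ℂ)).IsHermitian := by
    unfold Matrix.IsHermitian
    rw [Matrix.diagonal_conjTranspose]
    congr 1
    funext i
    simp
  rw [eU_coe hD, ← Matrix.diagonal_smul, Matrix.exp_diagonal]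
  congr 1
  funext i
  rw [Pi.coe_exp, Complex.exp_eq_exp_ℂ]
  simp

omit [Fintype ι] [DecidableEq ι] in
lemma continuous_hpart : Continuous (hpart : Matrix ι ι ℂ → Matrix ι ι ℂ) := by
  have h1 : Continuous fun X : Matrix ι ι ℂ => Xᴴ := by fun_prop
  exact Continuous.const_smul (Continuous.add continuous_id h1) (1 / 2 : ℂ)

section
open scoped Matrix.Norms.Operator

lemma continuous_exp_mat : Continuous (NormedSpace.exp : Matrix ι ι ℂ → Matrix ι ι ℂ) :=
  NormedSpace.exp_continuous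

lemma hasDerivAt_exp_aux (Y : Matrix ι ι ℂ) (t : ℝ) (i j : ι) :
    HasDerivAt (fun s : ℝ => (NormedSpace.exp ((s : ℂ) • Y)) i j)
      ((Y * NormedSpace.exp ((t : ℂ) • Y)) i j) t := by
  have h := hasDerivAt_exp_smul_const' (𝕂 := ℂ) Y (t : ℂ)
  have h2 : HasDerivAt (fun s : ℂ => (NormedSpace.exp (s • Y)) i j)
      ((Y * NormedSpace.exp ((t : ℂ) • Y)) i j) (t : ℂ) := by
    have h3 := (hasDerivAt_pi.1 (hasDerivAt_pi.1 h i) j)
    exact h3
  exact h2.comp_ofReal

end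

lemma continuous_eU : Continuous (eU : Matrix ι ι ℂ → UG ι) := by
  refine Continuous.subtype_mk ?_ _
  exact continuous_exp_mat.comp (continuous_hpart.const_smul Complex.I)

/-- Derivative of `s ↦ exp (i s X)`, entrywise. -/
lemma hasDerivAt_eU {X : Matrix ι ι ℂ} (hX : X.IsHermitian) (t : ℝ) (i j : ι) :
    HasDerivAt (fun s : ℝ => ((eU ((s : ℂ) • X) : UG ι) : Matrix ι ι ℂ) i j)
      ((Complex.I • X * ((eU ((t : ℂ) • X) : UG ι) : Matrix ι ι ℂ)) i j) t := by
  have h := hasDerivAt_exp_aux (Complex.I • X) t i j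
  have e : ∀ s : ℝ, ((eU ((s : ℂ) • X) : UG ι) : Matrix ι ι ℂ) =
      NormedSpace.exp ((s : ℂ) • Complex.I • X) := by
    intro s
    rw [eU_coe (isHermitian_smul hX s), smul_comm]
  simp only [e]
  exact h

end Pool.Agent.OGP
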