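import Pool.Agent.OGP.Norms

/-!
# OGP OPN: the operator norm

`opn X` is the norm of the operator of `X` on `EuclideanSpace ℂ ι`; `Matrix.toEuclideanCLM` is a
star algebra equivalence, so everything but the last four lemmas is the corresponding fact for
operators.  `hs_mul_le_opn`: the columns of `X Y` are `X` applied to the columns of `Y`.
`opn_le_hs`: `‖X v‖ ≤ hs X ‖v‖` (Cauchy-Schwarz).  `n2_le_opn`: `hs X ≤ opn X * hs 1`.
-/

open Matrix
namespace Pool.Agent.OGP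

variable {ι : Type} [Fintype ι] [DecidableEq ι]

section l2
open scoped Matrix.Norms.L2Operator

lemma opn_l2 (X : Matrix ι ι ℂ) : opn X = ‖X‖ := rfl

lemma opn_nonneg (X : Matrix ι ι ℂ) : 0 ≤ opn X := norm_nonneg X

lemma opn_add_le (X Y : Matrix ι ι ℂ) : opn (X + Y) ≤ opn X + opn Y := by
  simp only [opn_l2]
  exact norm_add_le X Y

lemma opn_sub_le (X Y Z : Matrix ι ι ℂ) : opn (X - Z) ≤ opn (X - Y) + opn (Y - Z) := by
  have := opn_add_le (X - Y) (Y - Z)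
  rwa [sub_add_sub_cancel] at this

lemma opn_neg (X : Matrix ι ι ℂ) : opn (-X) = opn X := by
  simp only [opn_l2]
  exact norm_neg X

lemma opn_sub_comm (X Y : Matrix ι ι ℂ) : opn (X - Y) = opn (Y - X) := by
  rw [← opn_neg, neg_sub]

lemma opn_smul (c : ℂ) (X : Matrix ι ι ℂ) : opn (c • X) = ‖c‖ * opn X := by
  simp only [opn_l2]
  exact norm_smul c X

lemma opn_zero : opn (0 : Matrix ι ι ℂ) = 0 := by
  rw [opn_l2]
  exact norm_zero

lemma opn_mul_le (X Y : Matrix ι ι ℂ) : opn (X * Y) ≤ opn X * opn Y := by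
  simp only [opn_l2]
  exact norm_mul_le X Y

lemma opn_diagonal_le (v : ι → ℂ) (c : ℝ) (hc : 0 ≤ c) (h : ∀ i, ‖v i‖ ≤ c) :
    opn (Matrix.diagonal v) ≤ c := by
  rw [opn_l2, Matrix.l2_opNorm_diagonal]
  exact (pi_norm_le_iff_of_nonneg hc).2 h

lemma opn_diagonal_ge (v : ι → ℂ) (i : ι) : ‖v i‖ ≤ opn (Matrix.diagonal v) := by
  rw [opn_l2, Matrix.l2_opNorm_diagonal]
  exact norm_le_pi_norm v i

lemma opn_one_le : opn (1 : Matrix ι ι ℂ) ≤ 1 := by
  rw [← Matrix.diagonal_one]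
  exact opn_diagonal_le _ _ zero_le_one fun i => by simp

lemma opn_conjTranspose (X : Matrix ι ι ℂ) : opn Xᴴ = opn X := by
  simp only [opn_l2]
  exact Matrix.l2_opNorm_conjTranspose X

lemma opn_unitary_le (U : UG ι) : opn (U : Matrix ι ι ℂ) ≤ 1 := by
  have h := Matrix.l2_opNorm_conjTranspose_mul_self (U : Matrix ι ι ℂ)
  rw [UG_conj_mul, ← opn_l2, ← opn_l2] at h
  have h1 := opn_one_le (ι := ι)
  have h2 := opn_nonneg (U : Matrix ι ι ℂ)
  nlinarith

lemma opn_unitary_mul (U : UG ι) (X : Matrix ι ι ℂ) :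
    opn ((U : Matrix ι ι ℂ) * X) = opn X := by
  simp only [opn_l2]
  exact CStarRing.norm_coe_unitary_mul U X

lemma opn_mul_unitary (U : UG ι) (X : Matrix ι ι ℂ) :
    opn (X * (U : Matrix ι ι ℂ)) = opn X := by
  simp only [opn_l2]
  exact CStarRing.norm_mul_coe_unitary X U

lemma opn_pow_le (X : Matrix ι ι ℂ) (n : ℕ) : opn (X ^ n) ≤ opn X ^ n := by
  induction n with
  | zero => simpa using opn_one_le
  | succ n ih =>
    rw [pow_succ, pow_succ]
    refine (opn_mul_le _ _).trans ?_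
    gcongr
    exact opn_nonneg X

lemma opn_exp_le (X : Matrix ι ι ℂ) : opn (NormedSpace.exp X) ≤ Real.exp (opn X) := by
  have hs : Summable fun n : ℕ => ‖((n.factorial : ℂ)⁻¹) • X ^ n‖ :=
    NormedSpace.norm_expSeries_summable' X
  have h1 : NormedSpace.exp X = ∑' n : ℕ, ((n.factorial : ℂ)⁻¹) • X ^ n := by
    rw [NormedSpace.exp_eq_tsum ℂ]
  have h2 : Real.exp (opn X) = ∑' n : ℕ, opn X ^ n / n.factorial := by
    rw [Real.exp_eq_exp_ℝ, NormedSpace.exp_eq_tsum_div]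
  rw [h1, h2, opn_l2]
  refine (norm_tsum_le_tsum_norm hs).trans ?_
  refine hs.tsum_le_tsum (fun n => ?_) (Real.summable_pow_div_factorial _)
  rw [norm_smul, norm_inv, Complex.norm_natCast, div_eq_inv_mul]
  exact mul_le_mul_of_nonneg_left (opn_pow_le X n) (by positivity)

lemma norm_mulVec_le (X : Matrix ι ι ℂ) (v : ι → ℂ) :
    ∑ i, ‖(X *ᵥ v) i‖ ^ 2 ≤ opn X ^ 2 * ∑ i, ‖v i‖ ^ 2 := by
  have h := X.l2_opNorm_mulVec (WithLp.toLp 2 v)
  have h2 := pow_le_pow_left₀ (norm_nonneg _) h 2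
  rw [mul_pow, EuclideanSpace.norm_sq_eq, EuclideanSpace.norm_sq_eq] at h2
  exact h2

lemma continuous_opn : Continuous (opn : Matrix ι ι ℂ → ℝ) := by
  have : (opn : Matrix ι ι ℂ → ℝ) = fun X => ‖X‖ := by
    funext X
    rfl
  rw [this]
  exact continuous_norm

end l2

lemma hs_mul_le_opn (X Y : Matrix ι ι ℂ) : hs (X * Y) ≤ opn X * hs Y := by
  refine abs_le_of_sq_le_sq' ?_ (mul_nonneg (opn_nonneg _) (hs_nonneg _)) |>.2
  rw [mul_pow, hs_sq, hs_sq, Finset.sum_comm, Finset.sum_comm (f := fun i j => ‖Y i j‖ ^ 2),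
    Finset.mul_sum]
  refine Finset.sum_le_sum fun j _ => ?_
  exact norm_mulVec_le X fun i => Y i j

lemma hs_mul_le_opn' (X Y : Matrix ι ι ℂ) : hs (X * Y) ≤ hs X * opn Y := by
  rw [← hs_conjTranspose, Matrix.conjTranspose_mul, ← hs_conjTranspose X, ← opn_conjTranspose Y,
    mul_comm]
  exact hs_mul_le_opn _ _

lemma n2_mul_le_opn (X Y : Matrix ι ι ℂ) : n2 (X * Y) ≤ opn X * n2 Y := by
  rw [n2_eq, n2_eq, ← mul_div_assoc]
  exact div_le_div_of_nonneg_right (hs_mul_le_opn X Y) (Real.sqrt_nonneg _)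

lemma n2_mul_le_opn' (X Y : Matrix ι ι ℂ) : n2 (X * Y) ≤ n2 X * opn Y := by
  rw [n2_eq, n2_eq, div_mul_eq_mul_div]
  exact div_le_div_of_nonneg_right (hs_mul_le_opn' X Y) (Real.sqrt_nonneg _)

lemma n2_le_opn (X : Matrix ι ι ℂ) : n2 X ≤ opn X := by
  rcases isEmpty_or_nonempty ι with h | h
  · have : X = 0 := by
      ext i
      exact h.elim i
    rw [this, n2_zero]
    exact opn_nonneg _
  · have := n2_mul_le_opn X 1
    rwa [Matrix.mul_one, n2_one, mul_one] at this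

lemma opn_le_hs (X : Matrix ι ι ℂ) : opn X ≤ hs X := by
  unfold opn
  refine ContinuousLinearMap.opNorm_le_bound _ (hs_nonneg _) fun v => ?_
  refine abs_le_of_sq_le_sq' ?_ (mul_nonneg (hs_nonneg _) (norm_nonneg _)) |>.2
  rw [mul_pow, EuclideanSpace.norm_sq_eq, EuclideanSpace.norm_sq_eq, hs_sq, Finset.sum_mul]
  refine Finset.sum_le_sum fun i _ => ?_
  rw [Matrix.ofLp_toEuclideanCLM, Matrix.mulVec, dotProduct]
  calc ‖∑ j, X i j * v.ofLp j‖ ^ 2 ≤ (∑ j, ‖X i j‖ * ‖v.ofLp j‖) ^ 2 := by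
        refine pow_le_pow_left₀ (norm_nonneg _) ?_ 2
        refine (norm_sum_le _ _).trans (le_of_eq ?_)
        simp only [norm_mul]
    _ ≤ _ := Finset.sum_mul_sq_le_sq_mul_sq _ _ _

lemma norm_ntr_le_opn (X : Matrix ι ι ℂ) : ‖ntr X‖ ≤ opn X := (norm_ntr_le X).trans (n2_le_opn X)

end Pool.Agent.OGP
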