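import Pool.Agent.OGP.Bern0
import Pool.Agent.OGP.Opn
import Pool.Agent.OGP.Eexp

/-!
# OGP BERN: Bernstein's inequality for the moment `Tp`

Let `f z = ntr ((V x exp (i z H))^p)`, an entire function of `z` (entries of `exp (z X)` are entire;
`NormedSpace.exp` is differentiable, use `open scoped Matrix.Norms.Operator` or diagonalise `H`), with
`f t = Tp p V (x * eU (t H))` for real `t`.  By `norm_ntr_le_opn`, `opn_mul_le`, `opn_exp_le`,
`exp (i z H) = exp (i Re z H) exp (-Im z H)` (commuting), `|f z| ≤ (e^{|Im z| opn H})^p ≤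
e^{p h |Im z|}`.  Apply `bernstein_sub` with `A = 1`, `B = p h`.  (If `p h = 0`, `H = 0` or `p = 0` and
both sides are equal; or apply it with `h + ε` and let `ε → 0`.)
-/

open Matrix
namespace Pool.Agent.OGP

variable {ι : Type} [Fintype ι] [DecidableEq ι]

private lemma opn_pow_le' (X : Matrix ι ι ℂ) (p : ℕ) : opn (X ^ p) ≤ opn X ^ p := by
  induction p with
  | zero => rw [pow_zero, pow_zero]; exact opn_one_le
  | succ p ih =>
    rw [pow_succ, pow_succ]
    exact (opn_mul_le _ _).trans (mul_le_mul_of_nonneg_right ih (opn_nonneg X))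

/-- the entire function `z ↦ exp (i z H)` -/
private noncomputable def EE (H : Matrix ι ι ℂ) (z : ℂ) : Matrix ι ι ℂ :=
  NormedSpace.exp (z • (Complex.I • H))

private noncomputable def ff (p : ℕ) (V x : UG ι) (H : Matrix ι ι ℂ) (z : ℂ) : ℂ :=
  ntr (((V : Matrix ι ι ℂ) * ((x : Matrix ι ι ℂ) * EE H z)) ^ p)

section diff
open scoped Matrix.Norms.Operator

private lemma ff_diff (p : ℕ) (V x : UG ι) (H : Matrix ι ι ℂ) :
    Differentiable ℂ (ff p V x H) := by
  have h1 : Differentiable ℂ (EE H) := by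
    intro z
    exact (hasDerivAt_exp_smul_const (𝕂 := ℂ) (Complex.I • H) z).differentiableAt
  have h2 : Differentiable ℂ
      (fun z => ((V : Matrix ι ι ℂ) * ((x : Matrix ι ι ℂ) * EE H z)) ^ p) := by
    fun_prop
  let L : Matrix ι ι ℂ →ₗ[ℂ] ℂ :=
    { toFun := ntr
      map_add' := ntr_add
      map_smul' := fun c X => by rw [ntr_smul]; rfl }
  exact (LinearMap.toContinuousLinearMap L).differentiable.comp h2

end diff

private lemma EE_real {H : Matrix ι ι ℂ} (hH : H.IsHermitian) (t : ℝ) :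
    EE H (t : ℂ) = ((eU ((t : ℂ) • H) : UG ι) : Matrix ι ι ℂ) := by
  rw [eU_coe (isHermitian_smul hH t)]
  unfold EE
  rw [smul_comm]

private lemma ff_real (p : ℕ) (V x : UG ι) {H : Matrix ι ι ℂ} (hH : H.IsHermitian) (t : ℝ) :
    ff p V x H (t : ℂ) = Tp p V (x * eU ((t : ℂ) • H)) := by
  unfold ff Tp utr
  rw [EE_real hH]
  rfl

private lemma ff_growth (p : ℕ) (V x : UG ι) {H : Matrix ι ι ℂ} (hH : H.IsHermitian) {h : ℝ}
    (hh : opn H ≤ h) (z : ℂ) : ‖ff p V x H z‖ ≤ Real.exp (p * h * |z.im|) := by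
  have h1 : EE H z = ((eU ((z.re : ℂ) • H) : UG ι) : Matrix ι ι ℂ) *
      NormedSpace.exp ((-(z.im : ℂ)) • H) := by
    rw [← EE_real hH]
    unfold EE
    rw [← Matrix.exp_add_of_commute]
    · congr 1
      rw [smul_smul, smul_smul, ← add_smul]
      congr 1
      have := Complex.re_add_im z
      conv_lhs => rw [← this]
      linear_combination (z.im : ℂ) * Complex.I_mul_I
    · rw [smul_smul]
      exact (Commute.refl H).smul_left _ |>.smul_right _
  have h2 : opn (EE H z) ≤ Real.exp (h * |z.im|) := by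
    rw [h1, opn_unitary_mul]
    refine (opn_exp_le _).trans (Real.exp_le_exp.2 ?_)
    rw [opn_smul, norm_neg, Complex.norm_real, Real.norm_eq_abs, mul_comm]
    exact mul_le_mul_of_nonneg_right hh (abs_nonneg _)
  unfold ff
  refine (norm_ntr_le_opn _).trans ((opn_pow_le' _ p).trans ?_)
  rw [opn_unitary_mul, opn_unitary_mul]
  refine (pow_le_pow_left₀ (opn_nonneg _) h2 p).trans (le_of_eq ?_)
  rw [← Real.exp_nat_mul]
  congr 1
  ring

theorem bern_T (p : ℕ) (V x : UG ι) {H : Matrix ι ι ℂ} (hH : H.IsHermitian) {h S : ℝ}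
    (hh : opn H ≤ h) (hS : ∀ t : ℝ, ‖Tp p V (x * eU ((t : ℂ) • H))‖ ≤ S) :
    ‖Tp p V (x * eU H) - Tp p V x‖ ≤ Real.exp 1 * (p * h) * S := by
  have hh0 : 0 ≤ h := (opn_nonneg H).trans hh
  have key : ∀ ε : ℝ, 0 < ε →
      ‖Tp p V (x * eU H) - Tp p V x‖ ≤ Real.exp 1 * (p * h + ε) * S := by
    intro ε hε
    have h1 := bernstein_sub (f := ff p V x H) (ff_diff p V x H) (A := 1) (B := p * h + ε) (S := S)
      zero_le_one (by positivity) (fun z => by
        rw [one_mul]
        refine (ff_growth p V x hH hh z).trans (Real.exp_le_exp.2 ?_)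
        have := abs_nonneg z.im
        nlinarith) (fun t => by rw [ff_real p V x hH]; exact hS t)
    have h2 : ff p V x H 1 = Tp p V (x * eU H) := by
      have := ff_real p V x hH 1
      simpa using this
    have h3 : ff p V x H 0 = Tp p V x := by
      have := ff_real p V x hH 0
      simpa [eU_zero] using this
    rwa [h2, h3] at h1
  have hlim : Filter.Tendsto (fun ε : ℝ => Real.exp 1 * (p * h + ε) * S)
      (nhdsWithin 0 (Set.Ioi 0)) (nhds (Real.exp 1 * (p * h) * S)) := by
    have : Filter.Tendsto (fun ε : ℝ => Real.exp 1 * (p * h + ε) * S)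
      (nhds 0) (nhds (Real.exp 1 * (p * h + 0) * S)) := by
      apply Continuous.tendsto
      fun_prop
    rw [add_zero] at this
    exact this.mono_left nhdsWithin_le_nhds
  refine ge_of_tendsto hlim ?_
  filter_upwards [self_mem_nhdsWithin] with ε hε
  exact key ε hε

end Pool.Agent.OGP
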