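import Mathlib

/-!
# OGP BERN0: Bernstein's inequality for entire functions of exponential type (constant `e`)

Let `f` be entire, `|f z| ≤ A e^{B |Im z|}` and `|f x| ≤ S` on the real line.  On the closed upper half
plane `g z = f z * exp (i B z)` is bounded by `A` and `|g| ≤ S` on the real line, so `|g| ≤ S` there by
the Phragmen-Lindelöf principle (`PhragmenLindelof.right_half_plane_of_bounded_on_real` applied to
`z ↦ g (i z)`; the growth condition holds with `c = 0`, since `g` is bounded), i.e.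
`|f z| ≤ S e^{B |Im z|}` for `Im z ≥ 0`, and likewise for `Im z ≤ 0` (apply it to `z ↦ f (-z)`).
Cauchy's estimate on the circle of radius `1/B` around `x` (`Complex.norm_deriv_le_of_forall_mem_sphere_norm_le`):
`|f' x| ≤ e S / (1/B) = e B S`.  Mean value inequality on `[0, 1]` for `t ↦ f t`.
-/

open Complex
namespace Pool.Agent.OGP

private lemma bern_half {f : ℂ → ℂ} (hf : Differentiable ℂ f) {A B S : ℝ}
    (hgr : ∀ z : ℂ, ‖f z‖ ≤ A * Real.exp (B * |z.im|))
    (hS : ∀ x : ℝ, ‖f x‖ ≤ S) (z : ℂ) (hz : 0 ≤ z.im) : ‖f z‖ ≤ S * Real.exp (B * z.im) := by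
  set G : ℂ → ℂ := fun w => f (I * w) * cexp (-(B * w)) with hG
  have hGd : Differentiable ℂ G := by
    refine (hf.comp (differentiable_id.const_mul I)).mul ?_
    exact ((differentiable_id.const_mul (B : ℂ)).neg).cexp
  have hGn : ∀ w : ℂ, ‖G w‖ = ‖f (I * w)‖ * Real.exp (-(B * w.re)) := by
    intro w
    rw [hG]
    simp only [norm_mul, norm_exp]
    congr 2
    simp
  have hG1 : ∀ w : ℂ, 0 ≤ w.re → ‖G w‖ ≤ A := by
    intro w hw
    rw [hGn w]
    have h1 := hgr (I * w)
    have h2 : (I * w).im = w.re := by simp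
    rw [h2, abs_of_nonneg hw] at h1
    calc ‖f (I * w)‖ * Real.exp (-(B * w.re)) ≤
        A * Real.exp (B * w.re) * Real.exp (-(B * w.re)) :=
          mul_le_mul_of_nonneg_right h1 (Real.exp_pos _).le
      _ = A := by rw [mul_assoc, ← Real.exp_add]; simp
  have hkey : ‖G (-I * z)‖ ≤ S := by
    refine PhragmenLindelof.right_half_plane_of_bounded_on_real (f := G) hGd.diffContOnCl ?_ ?_ ?_ ?_
    · refine ⟨0, by norm_num, 0, ?_⟩
      refine Asymptotics.IsBigO.of_bound A ?_
      rw [Filter.eventually_inf_principal]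
      refine Filter.Eventually.of_forall fun w hw => ?_
      have : (0 : ℝ) < w.re := hw
      simpa using hG1 w this.le
    · refine Filter.isBoundedUnder_of_eventually_le (a := A) ?_
      filter_upwards [Filter.eventually_ge_atTop (0 : ℝ)] with x hx
      exact hG1 x (by simpa using hx)
    · intro x
      rw [hGn]
      have h1 : I * ((x : ℂ) * I) = ((-x : ℝ) : ℂ) := by
        push_cast
        linear_combination (x : ℂ) * I_mul_I
      rw [h1]
      simpa using hS (-x)
    · simp [hz]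
  rw [hGn] at hkey
  have h3 : I * (-I * z) = z := by linear_combination (-z) * I_mul_I
  have h4 : (-I * z).re = z.im := by simp
  rw [h3, h4] at hkey
  have h5 := mul_le_mul_of_nonneg_right hkey (Real.exp_pos (B * z.im)).le
  rwa [mul_assoc, ← Real.exp_add, neg_add_cancel, Real.exp_zero, mul_one] at h5

private lemma bern_strip {f : ℂ → ℂ} (hf : Differentiable ℂ f) {A B S : ℝ}
    (hgr : ∀ z : ℂ, ‖f z‖ ≤ A * Real.exp (B * |z.im|))
    (hS : ∀ x : ℝ, ‖f x‖ ≤ S) (z : ℂ) : ‖f z‖ ≤ S * Real.exp (B * |z.im|) := by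
  rcases le_total 0 z.im with h | h
  · rw [abs_of_nonneg h]
    exact bern_half hf hgr hS z h
  · rw [abs_of_nonpos h]
    have h1 := bern_half (f := fun z => f (-z)) (hf.comp differentiable_neg) (A := A) (B := B)
      (S := S) (fun z => by simpa using hgr (-z)) (fun x => by simpa using hS (-x)) (-z)
      (by simpa using h)
    simpa using h1

theorem bernstein_deriv {f : ℂ → ℂ} (hf : Differentiable ℂ f) {A B S : ℝ} (hA : 0 ≤ A)
    (hB : 0 < B) (hgr : ∀ z : ℂ, ‖f z‖ ≤ A * Real.exp (B * |z.im|))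
    (hS : ∀ x : ℝ, ‖f x‖ ≤ S) (x : ℝ) : ‖deriv f x‖ ≤ Real.exp 1 * B * S := by
  have hS0 : 0 ≤ S := (norm_nonneg _).trans (hS 0)
  have h1 : ‖deriv f x‖ ≤ (S * Real.exp 1) / (1 / B) := by
    refine Complex.norm_deriv_le_of_forall_mem_sphere_norm_le (by positivity) hf.diffContOnCl ?_
    intro z hz
    refine (bern_strip hf hgr hS z).trans ?_
    apply mul_le_mul_of_nonneg_left _ hS0
    apply Real.exp_le_exp.2
    have h2 : |z.im| ≤ 1 / B := by
      have h3 : (z - (x : ℂ)).im = z.im := by simp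
      rw [← h3]
      refine (Complex.abs_im_le_norm _).trans ?_
      rw [mem_sphere_iff_norm] at hz
      exact hz.le
    calc B * |z.im| ≤ B * (1 / B) := mul_le_mul_of_nonneg_left h2 hB.le
      _ = 1 := by field_simp
  refine h1.trans (le_of_eq ?_)
  field_simp

theorem bernstein_sub {f : ℂ → ℂ} (hf : Differentiable ℂ f) {A B S : ℝ} (hA : 0 ≤ A)
    (hB : 0 < B) (hgr : ∀ z : ℂ, ‖f z‖ ≤ A * Real.exp (B * |z.im|))
    (hS : ∀ x : ℝ, ‖f x‖ ≤ S) : ‖f 1 - f 0‖ ≤ Real.exp 1 * B * S := by
  have h := norm_image_sub_le_of_norm_deriv_le_segment_01' (f := fun t : ℝ => f t)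
    (f' := fun t : ℝ => deriv f t) (C := Real.exp 1 * B * S)
    (fun x _ => ((hf (x : ℂ)).hasDerivAt.comp_ofReal).hasDerivWithinAt)
    (fun x _ => bernstein_deriv hf hA hB hgr hS x)
  simpa using h

end Pool.Agent.OGP
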