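import Pool.Agent.OGP.Basic

/-!
# OGP NRM: elementary facts on the trace and the two norms

Everything here is elementary.  `hs X = sqrt (∑ i, ∑ j, ‖X i j‖ ^ 2)` is the Euclidean norm of the
family of entries (it is the Frobenius norm of Mathlib, `Matrix.frobenius_norm_def`),
`n2 X = hs X / sqrt n` where `n = Fintype.card ι`, `ntr X = n⁻¹ * trace X`,
`utr U = ntr U`, `d2 A B = n2 (A - B)`, `dhs A B = hs (A - B)`.
All facts on `n2` follow from those on `hs`; `d2_sq` is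
`‖A - B‖² = tr ((A - B)ᴴ (A - B)) = 2 - 2 Re tr (Aᴴ B)`.
-/

open Matrix
namespace Pool.Agent.OGP

variable {ι : Type} [Fintype ι] [DecidableEq ι]

section frob
open scoped Matrix.Norms.Frobenius

lemma hs_frob (X : Matrix ι ι ℂ) : hs X = ‖X‖ := by
  rw [Matrix.frobenius_norm_def, hs, Real.sqrt_eq_rpow]
  simp only [Real.rpow_two]

lemma hs_nonneg (X : Matrix ι ι ℂ) : 0 ≤ hs X := Real.sqrt_nonneg _

lemma n2_nonneg (X : Matrix ι ι ℂ) : 0 ≤ n2 X := Real.sqrt_nonneg _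

lemma hs_sq (X : Matrix ι ι ℂ) : hs X ^ 2 = ∑ i, ∑ j, ‖X i j‖ ^ 2 :=
  Real.sq_sqrt (Finset.sum_nonneg fun i _ => Finset.sum_nonneg fun j _ => by positivity)

lemma n2_sq (X : Matrix ι ι ℂ) :
    n2 X ^ 2 = (Fintype.card ι : ℝ)⁻¹ * ∑ i, ∑ j, ‖X i j‖ ^ 2 :=
  Real.sq_sqrt (mul_nonneg (by positivity)
    (Finset.sum_nonneg fun i _ => Finset.sum_nonneg fun j _ => by positivity))

lemma n2_eq (X : Matrix ι ι ℂ) : n2 X = hs X / Real.sqrt (Fintype.card ι) := by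
  unfold n2 hs
  rw [Real.sqrt_mul (by positivity), Real.sqrt_inv, div_eq_inv_mul]

lemma hs_eq [Nonempty ι] (X : Matrix ι ι ℂ) :
    hs X = Real.sqrt (Fintype.card ι) * n2 X := by
  have h : Real.sqrt (Fintype.card ι) ≠ 0 := by
    have : (0 : ℝ) < Fintype.card ι := by exact_mod_cast Fintype.card_pos
    positivity
  rw [n2_eq]
  field_simp

lemma hs_add_le (X Y : Matrix ι ι ℂ) : hs (X + Y) ≤ hs X + hs Y := by
  simp only [hs_frob]
  exact norm_add_le X Y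

lemma hs_sub_le (X Y Z : Matrix ι ι ℂ) : hs (X - Z) ≤ hs (X - Y) + hs (Y - Z) := by
  have := hs_add_le (X - Y) (Y - Z)
  rwa [sub_add_sub_cancel] at this

lemma hs_neg (X : Matrix ι ι ℂ) : hs (-X) = hs X := by
  simp only [hs_frob]
  exact norm_neg X

lemma hs_sub_comm (X Y : Matrix ι ι ℂ) : hs (X - Y) = hs (Y - X) := by
  rw [← hs_neg, neg_sub]

lemma hs_smul (c : ℂ) (X : Matrix ι ι ℂ) : hs (c • X) = ‖c‖ * hs X := by
  simp only [hs_frob]
  exact norm_smul c X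

lemma hs_zero : hs (0 : Matrix ι ι ℂ) = 0 := by
  rw [hs_frob]
  exact norm_zero

lemma hs_eq_zero {X : Matrix ι ι ℂ} : hs X = 0 ↔ X = 0 := by
  rw [hs_frob]
  exact norm_eq_zero

lemma hs_sum_le {κ : Type*} (s : Finset κ) (f : κ → Matrix ι ι ℂ) :
    hs (∑ i ∈ s, f i) ≤ ∑ i ∈ s, hs (f i) := by
  simp only [hs_frob]
  exact norm_sum_le s f

lemma hs_conjTranspose (X : Matrix ι ι ℂ) : hs Xᴴ = hs X := by
  simp only [hs_frob]
  exact Matrix.frobenius_norm_conjTranspose X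

lemma hs_mul_le (X Y : Matrix ι ι ℂ) : hs (X * Y) ≤ hs X * hs Y := by
  simp only [hs_frob]
  exact Matrix.frobenius_norm_mul X Y

end frob

lemma hs_one : hs (1 : Matrix ι ι ℂ) = Real.sqrt (Fintype.card ι) := by
  unfold hs
  congr 1
  have : ∀ i : ι, ∑ j, ‖(1 : Matrix ι ι ℂ) i j‖ ^ 2 = 1 := by
    intro i
    rw [Finset.sum_eq_single i]
    · simp
    · intro j _ hj
      simp [Matrix.one_apply, hj.symm]
    · simp
  simp [this]

lemma trace_conjTranspose_mul_self_eq (X : Matrix ι ι ℂ) :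
    (Xᴴ * X).trace = ((hs X ^ 2 : ℝ) : ℂ) := by
  rw [hs_sq, Matrix.trace]
  simp only [Matrix.diag_apply, Matrix.mul_apply, Matrix.conjTranspose_apply]
  rw [Finset.sum_comm]
  push_cast
  refine Finset.sum_congr rfl fun i _ => Finset.sum_congr rfl fun j _ => ?_
  rw [Complex.star_def, ← Complex.normSq_eq_conj_mul_self, Complex.normSq_eq_norm_sq]
  push_cast
  rfl

lemma UG_coe_inv (U : UG ι) : ((U⁻¹ : UG ι) : Matrix ι ι ℂ) = (U : Matrix ι ι ℂ)ᴴ := rfl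

lemma UG_conj_mul (U : UG ι) : (U : Matrix ι ι ℂ)ᴴ * (U : Matrix ι ι ℂ) = 1 := by
  have := Matrix.mem_unitaryGroup_iff'.1 U.2
  exact this

lemma UG_mul_conj (U : UG ι) : (U : Matrix ι ι ℂ) * (U : Matrix ι ι ℂ)ᴴ = 1 := by
  have := Matrix.mem_unitaryGroup_iff.1 U.2
  exact this

lemma UG_coe_mul (U V : UG ι) : ((U * V : UG ι) : Matrix ι ι ℂ) = (U : Matrix ι ι ℂ) * V := rfl

lemma UG_coe_one : ((1 : UG ι) : Matrix ι ι ℂ) = 1 := rfl

lemma hs_unitary_mul (U : UG ι) (X : Matrix ι ι ℂ) :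
    hs ((U : Matrix ι ι ℂ) * X) = hs X := by
  have h1 := trace_conjTranspose_mul_self_eq ((U : Matrix ι ι ℂ) * X)
  have h2 := trace_conjTranspose_mul_self_eq X
  rw [Matrix.conjTranspose_mul, Matrix.mul_assoc, ← Matrix.mul_assoc _ _ X, UG_conj_mul,
    Matrix.one_mul, h2] at h1
  have h3 : hs X ^ 2 = hs ((U : Matrix ι ι ℂ) * X) ^ 2 := by exact_mod_cast h1
  exact ((sq_eq_sq₀ (hs_nonneg _) (hs_nonneg _)).1 h3).symm

lemma hs_mul_unitary (U : UG ι) (X : Matrix ι ι ℂ) :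
    hs (X * (U : Matrix ι ι ℂ)) = hs X := by
  rw [← hs_conjTranspose, Matrix.conjTranspose_mul, ← UG_coe_inv, hs_unitary_mul,
    hs_conjTranspose]

lemma norm_trace_mul_le (X Y : Matrix ι ι ℂ) : ‖(X * Y).trace‖ ≤ hs X * hs Y := by
  have h1 : (X * Y).trace = ∑ p : ι × ι, X p.1 p.2 * Y p.2 p.1 := by
    rw [Fintype.sum_prod_type]
    rfl
  have h2 : hs X = Real.sqrt (∑ p : ι × ι, ‖X p.1 p.2‖ ^ 2) := by
    rw [Fintype.sum_prod_type]
    rfl
  have h3 : hs Y = Real.sqrt (∑ p : ι × ι, ‖Y p.2 p.1‖ ^ 2) := by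
    rw [Fintype.sum_prod_type, Finset.sum_comm]
    rfl
  rw [h1, h2, h3]
  calc _ ≤ ∑ p : ι × ι, ‖X p.1 p.2 * Y p.2 p.1‖ := norm_sum_le _ _
    _ = ∑ p : ι × ι, ‖X p.1 p.2‖ * ‖Y p.2 p.1‖ := by simp only [norm_mul]
    _ ≤ _ := Real.sum_mul_le_sqrt_mul_sqrt _ _ _

lemma continuous_hs : Continuous (hs : Matrix ι ι ℂ → ℝ) := by
  unfold hs
  refine Real.continuous_sqrt.comp ?_
  refine continuous_finsetSum _ fun i _ => continuous_finsetSum _ fun j _ => ?_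
  exact ((continuous_id.matrix_elem i j).norm).pow 2

lemma n2_add_le (X Y : Matrix ι ι ℂ) : n2 (X + Y) ≤ n2 X + n2 Y := by
  simp only [n2_eq, ← add_div]
  exact div_le_div_of_nonneg_right (hs_add_le X Y) (Real.sqrt_nonneg _)
lemma n2_sub_le (X Y Z : Matrix ι ι ℂ) : n2 (X - Z) ≤ n2 (X - Y) + n2 (Y - Z) := by
  have := n2_add_le (X - Y) (Y - Z)
  rwa [sub_add_sub_cancel] at this
lemma n2_neg (X : Matrix ι ι ℂ) : n2 (-X) = n2 X := by
  rw [n2_eq, n2_eq, hs_neg]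
lemma n2_sub_comm (X Y : Matrix ι ι ℂ) : n2 (X - Y) = n2 (Y - X) := by
  rw [n2_eq, n2_eq, hs_sub_comm]
lemma n2_smul (c : ℂ) (X : Matrix ι ι ℂ) : n2 (c • X) = ‖c‖ * n2 X := by
  rw [n2_eq, n2_eq, hs_smul, mul_div_assoc]
lemma n2_zero : n2 (0 : Matrix ι ι ℂ) = 0 := by
  rw [n2_eq, hs_zero, zero_div]
lemma n2_sum_le {κ : Type*} (s : Finset κ) (f : κ → Matrix ι ι ℂ) :
    n2 (∑ i ∈ s, f i) ≤ ∑ i ∈ s, n2 (f i) := by
  simp only [n2_eq, ← Finset.sum_div]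
  exact div_le_div_of_nonneg_right (hs_sum_le s f) (Real.sqrt_nonneg _)
lemma n2_conjTranspose (X : Matrix ι ι ℂ) : n2 Xᴴ = n2 X := by
  rw [n2_eq, n2_eq, hs_conjTranspose]
lemma n2_one [Nonempty ι] : n2 (1 : Matrix ι ι ℂ) = 1 := by
  rw [n2_eq, hs_one]
  have h : Real.sqrt (Fintype.card ι) ≠ 0 := by
    have : (0 : ℝ) < Fintype.card ι := by exact_mod_cast Fintype.card_pos
    positivity
  exact div_self h
lemma n2_unitary_mul (U : UG ι) (X : Matrix ι ι ℂ) :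
    n2 ((U : Matrix ι ι ℂ) * X) = n2 X := by
  rw [n2_eq, n2_eq, hs_unitary_mul]
lemma n2_mul_unitary (U : UG ι) (X : Matrix ι ι ℂ) :
    n2 (X * (U : Matrix ι ι ℂ)) = n2 X := by
  rw [n2_eq, n2_eq, hs_mul_unitary]
lemma n2_unitary [Nonempty ι] (U : UG ι) : n2 (U : Matrix ι ι ℂ) = 1 := by
  have := n2_unitary_mul U 1
  rwa [Matrix.mul_one, n2_one] at this
lemma n2_sq_eq_ntr (X : Matrix ι ι ℂ) : ((n2 X ^ 2 : ℝ) : ℂ) = ntr (Xᴴ * X) := by
  rw [ntr, trace_conjTranspose_mul_self_eq, n2_sq, hs_sq]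
  push_cast
  rfl
lemma continuous_n2 : Continuous (n2 : Matrix ι ι ℂ → ℝ) := by
  have : (n2 : Matrix ι ι ℂ → ℝ) = fun X => hs X / Real.sqrt (Fintype.card ι) := by
    funext X
    exact n2_eq X
  rw [this]
  exact continuous_hs.div_const _

lemma ntr_add (X Y : Matrix ι ι ℂ) : ntr (X + Y) = ntr X + ntr Y := by
  unfold ntr
  rw [Matrix.trace_add, mul_add]
lemma ntr_sub (X Y : Matrix ι ι ℂ) : ntr (X - Y) = ntr X - ntr Y := by
  unfold ntr
  rw [Matrix.trace_sub, mul_sub]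
lemma ntr_smul (c : ℂ) (X : Matrix ι ι ℂ) : ntr (c • X) = c * ntr X := by
  unfold ntr
  rw [Matrix.trace_smul, smul_eq_mul]
  ring
lemma ntr_neg (X : Matrix ι ι ℂ) : ntr (-X) = -ntr X := by
  unfold ntr
  rw [Matrix.trace_neg, mul_neg]
lemma ntr_sum {κ : Type*} (s : Finset κ) (f : κ → Matrix ι ι ℂ) :
    ntr (∑ i ∈ s, f i) = ∑ i ∈ s, ntr (f i) := by
  unfold ntr
  rw [Matrix.trace_sum, Finset.mul_sum]
lemma ntr_one [Nonempty ι] : ntr (1 : Matrix ι ι ℂ) = 1 := by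
  unfold ntr
  rw [Matrix.trace_one]
  have : (Fintype.card ι : ℂ) ≠ 0 := by exact_mod_cast Fintype.card_ne_zero
  exact inv_mul_cancel₀ this
lemma ntr_mul_comm (X Y : Matrix ι ι ℂ) : ntr (X * Y) = ntr (Y * X) := by
  unfold ntr
  rw [Matrix.trace_mul_comm]
lemma ntr_conjTranspose (X : Matrix ι ι ℂ) : ntr Xᴴ = star (ntr X) := by
  unfold ntr
  rw [Matrix.trace_conjTranspose, star_mul']
  congr 1
  rw [Complex.star_def, map_inv₀, Complex.conj_natCast]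
lemma norm_ntr_mul_le (X Y : Matrix ι ι ℂ) : ‖ntr (X * Y)‖ ≤ n2 X * n2 Y := by
  unfold ntr
  rw [norm_mul, norm_inv, Complex.norm_natCast, n2_eq, n2_eq, div_mul_div_comm,
    Real.mul_self_sqrt (by positivity), div_eq_inv_mul]
  exact mul_le_mul_of_nonneg_left (norm_trace_mul_le X Y) (by positivity)
lemma norm_ntr_le (X : Matrix ι ι ℂ) : ‖ntr X‖ ≤ n2 X := by
  rcases isEmpty_or_nonempty ι with h | h
  · have : ntr X = 0 := by
      unfold ntr
      simp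
    rw [this, norm_zero]
    exact n2_nonneg X
  · have := norm_ntr_mul_le X 1
    rwa [Matrix.mul_one, n2_one, mul_one] at this
lemma continuous_ntr : Continuous (ntr : Matrix ι ι ℂ → ℂ) := by
  unfold ntr
  exact continuous_const.mul continuous_id.matrix_trace

lemma norm_utr_le_one (U : UG ι) : ‖utr U‖ ≤ 1 := by
  rcases isEmpty_or_nonempty ι with h | h
  · have : utr U = 0 := by
      unfold utr ntr
      simp
    rw [this, norm_zero]
    exact zero_le_one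
  · exact (norm_ntr_le _).trans (n2_unitary U).le
lemma utr_one [Nonempty ι] : utr (1 : UG ι) = 1 := ntr_one
lemma utr_mul_comm (U V : UG ι) : utr (U * V) = utr (V * U) := ntr_mul_comm _ _
lemma utr_conj (U V : UG ι) : utr (U * V * U⁻¹) = utr V := by
  rw [utr_mul_comm, ← mul_assoc, inv_mul_cancel, one_mul]
lemma utr_inv (U : UG ι) : utr U⁻¹ = star (utr U) := by
  unfold utr
  rw [UG_coe_inv, ntr_conjTranspose]
lemma utr_phU_mul (θ : ℝ) (A : UG ι) :
    utr (phU θ * A) = Complex.exp (Complex.I * θ) * utr A := by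
  unfold utr
  rw [UG_coe_mul, phU_coe, Matrix.smul_mul, Matrix.one_mul, ntr_smul]
lemma continuous_utr : Continuous (utr : UG ι → ℂ) :=
  continuous_ntr.comp continuous_subtype_val

lemma phU_comm (θ : ℝ) (A : UG ι) : phU θ * A = A * phU θ := by
  apply Subtype.ext
  rw [UG_coe_mul, UG_coe_mul, phU_coe, Matrix.smul_mul, Matrix.mul_smul, Matrix.one_mul,
    Matrix.mul_one]
lemma phU_add (s t : ℝ) : (phU (s + t) : UG ι) = phU s * phU t := by
  apply Subtype.ext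
  rw [UG_coe_mul, phU_coe, phU_coe, phU_coe, Matrix.smul_mul, Matrix.one_mul, smul_smul,
    ← Complex.exp_add]
  congr 2
  push_cast
  ring
lemma phU_zero : (phU 0 : UG ι) = 1 := by
  apply Subtype.ext
  rw [phU_coe, UG_coe_one]
  simp

lemma d2_nonneg (A B : UG ι) : 0 ≤ d2 A B := n2_nonneg _
lemma d2_self (A : UG ι) : d2 A A = 0 := by
  unfold d2
  rw [sub_self, n2_zero]
lemma d2_comm (A B : UG ι) : d2 A B = d2 B A := n2_sub_comm _ _
lemma d2_triangle (A B C : UG ι) : d2 A C ≤ d2 A B + d2 B C := n2_sub_le _ _ _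
lemma d2_mul_left (U A B : UG ι) : d2 (U * A) (U * B) = d2 A B := by
  unfold d2
  rw [UG_coe_mul, UG_coe_mul, ← Matrix.mul_sub, n2_unitary_mul]
lemma d2_mul_right (U A B : UG ι) : d2 (A * U) (B * U) = d2 A B := by
  unfold d2
  rw [UG_coe_mul, UG_coe_mul, ← Matrix.sub_mul, n2_mul_unitary]
lemma d2_inv (A B : UG ι) : d2 A⁻¹ B⁻¹ = d2 A B := by
  unfold d2
  rw [UG_coe_inv, UG_coe_inv, ← Matrix.conjTranspose_sub, n2_conjTranspose]
lemma d2_mul_le (A B C D : UG ι) : d2 (A * B) (C * D) ≤ d2 A C + d2 B D := by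
  have h1 := d2_triangle (A * B) (C * B) (C * D)
  rwa [d2_mul_right, d2_mul_left] at h1
lemma d2_pow_le (A B : UG ι) (p : ℕ) : d2 (A ^ p) (B ^ p) ≤ p * d2 A B := by
  induction p with
  | zero => simp [d2_self]
  | succ p ih =>
    rw [pow_succ, pow_succ]
    refine (d2_mul_le _ _ _ _).trans ?_
    push_cast
    linarith
lemma d2_sq [Nonempty ι] (A B : UG ι) : d2 A B ^ 2 = 2 - 2 * (utr (A⁻¹ * B)).re := by
  have h1 := n2_sq_eq_ntr ((A : Matrix ι ι ℂ) - (B : Matrix ι ι ℂ))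
  have h2 : ((A : Matrix ι ι ℂ) - (B : Matrix ι ι ℂ))ᴴ * ((A : Matrix ι ι ℂ) - (B : Matrix ι ι ℂ)) =
      1 - (A : Matrix ι ι ℂ)ᴴ * (B : Matrix ι ι ℂ) - (B : Matrix ι ι ℂ)ᴴ * (A : Matrix ι ι ℂ) + 1 := by
    rw [Matrix.conjTranspose_sub, Matrix.sub_mul, Matrix.mul_sub, Matrix.mul_sub, UG_conj_mul,
      UG_conj_mul]
    abel
  have h3 : ntr ((A : Matrix ι ι ℂ)ᴴ * (B : Matrix ι ι ℂ)) = utr (A⁻¹ * B) := rfl
  have h4 : ntr ((B : Matrix ι ι ℂ)ᴴ * (A : Matrix ι ι ℂ)) = star (utr (A⁻¹ * B)) := by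
    rw [← h3, ← ntr_conjTranspose, Matrix.conjTranspose_mul, Matrix.conjTranspose_conjTranspose]
  rw [h2, ntr_add, ntr_sub, ntr_sub, ntr_one, h3, h4] at h1
  have h5 := congrArg Complex.re h1
  simp only [Complex.ofReal_re, Complex.add_re, Complex.sub_re, Complex.one_re, Complex.star_def,
    Complex.conj_re] at h5
  unfold d2
  rw [h5]
  ring
lemma norm_utr_sub_le (A B : UG ι) : ‖utr A - utr B‖ ≤ d2 A B := by
  unfold utr
  rw [← ntr_sub]
  exact norm_ntr_le _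
lemma dhs_eq [Nonempty ι] (A B : UG ι) :
    dhs A B = Real.sqrt (Fintype.card ι) * d2 A B := hs_eq _
lemma continuous_d2 : Continuous (fun p : UG ι × UG ι => d2 p.1 p.2) := by
  unfold d2
  exact continuous_n2.comp ((continuous_subtype_val.comp continuous_fst).sub
    (continuous_subtype_val.comp continuous_snd))

end Pool.Agent.OGP
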