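import Pool.Agent.OGP.Kdef
import Pool.Agent.OGP.Norms
import Pool.Agent.OGP.Opn
import Pool.Agent.OGP.Eexp

/-!
# OGP KFACTS: elementary facts on the block diagonal unitaries

`dK` is the Euclidean norm of `(d2 (W i) (W' i))_i` divided by `√k`; `dK_sq` from `d2_sq`.
`utr_emb`: the trace of `emb k N r W` is `∑ Tr (W i) + r`, the cardinality of `JJ k N r` is
`N k + r`.  `d2_emb_le`: the squared Hilbert-Schmidt distance is `∑ hs(..)² = N ∑ d2²
= N k dK²` and `N k / (N k + r) ≤ 1`.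
`exists_phase`: `q ∈ ℂ`, then some `θ` has `e^{iθ} q = |q|`; grid version: with the `m` phases
`2π j / m` some `Re (e^{iθ} q) ≥ |q| cos (π/m) ≥ |q| (1 - π²/(2 m²)) ≥ |q| - 5 |q|/m²`, and
`|e^{iθ} q - |q|| ≤ |q| π/m`.
-/

open Matrix MeasureTheory
namespace Pool.Agent.OGP

variable {k N r : ℕ}

lemma card_JJ (k N r : ℕ) : Fintype.card (JJ k N r) = N * k + r := by
  simp [JJ]

lemma continuous_emb (k N r : ℕ) : Continuous (emb k N r) := by
  have h1 : Continuous fun W : KG k N =>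
      blk k N r 1 (fun i => (W i : Matrix (Fin N) (Fin N) ℂ)) := by
    unfold blk
    have h2 : Continuous fun W : KG k N => fun i => (W i : Matrix (Fin N) (Fin N) ℂ) :=
      continuous_pi fun i => continuous_subtype_val.comp (continuous_apply i)
    exact h2.matrix_blockDiagonal.matrix_fromBlocks continuous_const continuous_const
      continuous_const
  exact continuous_induced_rng.2 h1

lemma continuous_qK : Continuous (qK : KG k N → ℂ) := by
  unfold qK
  exact continuous_const.mul (continuous_finsetSum _ fun i _ =>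
    continuous_utr.comp (continuous_apply i))

lemma continuous_dK : Continuous (fun p : KG k N × KG k N => dK p.1 p.2) := by
  unfold dK
  have h1 : ∀ i : Fin k, Continuous fun p : KG k N × KG k N => d2 (p.1 i) (p.2 i) := by
    intro i
    have h2 : Continuous fun p : KG k N × KG k N => (p.1 i, p.2 i) :=
      ((continuous_apply i).comp continuous_fst).prodMk
        ((continuous_apply i).comp continuous_snd)
    have h3 := (continuous_d2 (ι := Fin N)).comp h2
    exact h3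
  have h4 : Continuous fun p : KG k N × KG k N => ∑ i, d2 (p.1 i) (p.2 i) ^ 2 :=
    continuous_finsetSum _ fun i _ => (h1 i).pow 2
  exact (h4.const_mul _).sqrt

lemma utr_emb (hk : 1 ≤ k) (hN : 1 ≤ N) (W : KG k N) :
    utr (emb k N r W) = ((N : ℂ) * k * qK W + r) / ((N : ℂ) * k + r) := by
  have hkc : (k : ℂ) ≠ 0 := by exact_mod_cast (by omega : k ≠ 0)
  have hNc : (N : ℂ) ≠ 0 := by exact_mod_cast (by omega : N ≠ 0)
  have h1 : ((emb k N r W : UG (JJ k N r)) : Matrix (JJ k N r) (JJ k N r) ℂ).trace =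
      ∑ i, (W i : Matrix (Fin N) (Fin N) ℂ).trace + r := by
    change (blk k N r 1 (fun i => (W i : Matrix (Fin N) (Fin N) ℂ))).trace = _
    unfold blk
    rw [← Matrix.trace_blockDiagonal]
    simp [Matrix.trace, Fintype.sum_sum_type]
  have h2 : (N : ℂ) * k * qK W = ∑ i, (W i : Matrix (Fin N) (Fin N) ℂ).trace := by
    unfold qK utr ntr
    rw [Fintype.card_fin, ← Finset.mul_sum]
    field_simp
  rw [h2, ← h1]
  unfold utr ntr
  rw [card_JJ]
  push_cast
  rw [inv_mul_eq_div]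

lemma utr_emb_zero (hk : 1 ≤ k) (hN : 1 ≤ N) (W : KG k N) : utr (emb k N 0 W) = qK W := by
  have hkc : (k : ℂ) ≠ 0 := by exact_mod_cast (by omega : k ≠ 0)
  have hNc : (N : ℂ) ≠ 0 := by exact_mod_cast (by omega : N ≠ 0)
  rw [utr_emb hk hN]
  push_cast
  rw [add_zero, add_zero]
  field_simp

lemma norm_utr_emb_le (hk : 1 ≤ k) (hN : 1 ≤ N) (W : KG k N) :
    ‖utr (emb k N r W)‖ ≤ ‖qK W‖ + r / ((N : ℝ) * k) := by
  have hkr : (1 : ℝ) ≤ k := by exact_mod_cast hk
  have hNr : (1 : ℝ) ≤ N := by exact_mod_cast hN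
  have hNk : (0 : ℝ) < (N : ℝ) * k := by positivity
  have hr0 : (0 : ℝ) ≤ r := Nat.cast_nonneg r
  rw [utr_emb hk hN, norm_div]
  have h1 : ‖(N : ℂ) * k + r‖ = (N : ℝ) * k + r := by
    have : (N : ℂ) * k + r = ((N * k + r : ℕ) : ℂ) := by push_cast; ring
    rw [this, Complex.norm_natCast]
    push_cast
    ring
  have h2 : ‖(N : ℂ) * k * qK W + r‖ ≤ (N : ℝ) * k * ‖qK W‖ + r := by
    refine (norm_add_le _ _).trans ?_
    rw [norm_mul, norm_mul, Complex.norm_natCast, Complex.norm_natCast, Complex.norm_natCast]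
  rw [h1, div_le_iff₀ (by positivity)]
  refine h2.trans ?_
  have h3 : (‖qK W‖ + r / ((N : ℝ) * k)) * ((N : ℝ) * k + r) =
      (N : ℝ) * k * ‖qK W‖ + r + (‖qK W‖ * r + r ^ 2 / ((N : ℝ) * k)) := by
    field_simp
  rw [h3]
  have h4 : 0 ≤ ‖qK W‖ * r + r ^ 2 / ((N : ℝ) * k) := by positivity
  linarith

lemma norm_qK_le_one (W : KG k N) : ‖qK W‖ ≤ 1 := by
  unfold qK
  rw [norm_mul, norm_inv, Complex.norm_natCast]
  have h1 : ‖∑ i, utr (W i)‖ ≤ k := by
    refine (norm_sum_le _ _).trans ?_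
    refine (Finset.sum_le_card_nsmul _ _ 1 fun i _ => norm_utr_le_one _).trans ?_
    simp
  rcases Nat.eq_zero_or_pos k with h | h
  · subst h; simp
  · have hk : (0 : ℝ) < k := by exact_mod_cast h
    rw [inv_mul_le_iff₀ hk, mul_one]
    exact h1

lemma qK_mul_comm (W W' : KG k N) : qK (W * W') = qK (W' * W) := by
  unfold qK
  congr 1
  exact Finset.sum_congr rfl fun i _ => utr_mul_comm _ _

lemma qK_inv (W : KG k N) : qK W⁻¹ = star (qK W) := by
  unfold qK
  rw [star_mul', star_inv₀, star_sum]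
  have h1 : star (k : ℂ) = k := star_natCast k
  rw [h1]
  congr 1
  exact Finset.sum_congr rfl fun i _ => utr_inv _

lemma qK_one (hk : 1 ≤ k) (hN : 1 ≤ N) : qK (1 : KG k N) = 1 := by
  have : Nonempty (Fin N) := ⟨⟨0, by omega⟩⟩
  have hkc : (k : ℂ) ≠ 0 := by exact_mod_cast (by omega : k ≠ 0)
  unfold qK
  simp only [Pi.one_apply, utr_one, Finset.sum_const, Finset.card_univ, Fintype.card_fin,
    nsmul_eq_mul, mul_one]
  exact inv_mul_cancel₀ hkc

lemma dK_nonneg (W W' : KG k N) : 0 ≤ dK W W' := Real.sqrt_nonneg _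

lemma dK_comm (W W' : KG k N) : dK W W' = dK W' W := by
  unfold dK
  congr 2
  exact Finset.sum_congr rfl fun i _ => by rw [d2_comm]

lemma dK_triangle (A B C : KG k N) : dK A C ≤ dK A B + dK B C := by
  have hk0 : 0 ≤ (k : ℝ)⁻¹ := by positivity
  have key : ∀ a b : Fin k → ℝ, (∀ i, 0 ≤ a i) → (∀ i, 0 ≤ b i) →
      Real.sqrt (∑ i, (a i + b i) ^ 2) ≤ Real.sqrt (∑ i, a i ^ 2) + Real.sqrt (∑ i, b i ^ 2) := by
    intro a b _ _
    have h1 := norm_add_le (WithLp.toLp 2 a : EuclideanSpace ℝ (Fin k)) (WithLp.toLp 2 b)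
    rw [EuclideanSpace.norm_eq, EuclideanSpace.norm_eq, EuclideanSpace.norm_eq] at h1
    simpa using h1
  have h1 := key (fun i => d2 (A i) (B i)) (fun i => d2 (B i) (C i))
    (fun i => d2_nonneg _ _) (fun i => d2_nonneg _ _)
  unfold dK
  rw [Real.sqrt_mul hk0, Real.sqrt_mul hk0, Real.sqrt_mul hk0, ← mul_add]
  refine mul_le_mul_of_nonneg_left (le_trans ?_ h1) (Real.sqrt_nonneg _)
  refine Real.sqrt_le_sqrt (Finset.sum_le_sum fun i _ => ?_)
  exact pow_le_pow_left₀ (d2_nonneg _ _) (d2_triangle _ _ _) 2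

lemma dK_self (W : KG k N) : dK W W = 0 := by
  unfold dK
  simp only [d2_self]
  simp

lemma dK_mul_left (U A B : KG k N) : dK (U * A) (U * B) = dK A B := by
  unfold dK
  congr 2
  exact Finset.sum_congr rfl fun i _ => by rw [Pi.mul_apply, Pi.mul_apply, d2_mul_left]

lemma dK_sq (hk : 1 ≤ k) (hN : 1 ≤ N) (W W' : KG k N) :
    dK W W' ^ 2 = 2 - 2 * (qK (W⁻¹ * W')).re := by
  have : Nonempty (Fin N) := ⟨⟨0, by omega⟩⟩
  have hkr : (k : ℝ) ≠ 0 := by exact_mod_cast (by omega : k ≠ 0)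
  unfold dK
  rw [Real.sq_sqrt (by positivity)]
  have h1 : (qK (W⁻¹ * W')).re = (k : ℝ)⁻¹ * ∑ i, (utr ((W i)⁻¹ * W' i)).re := by
    unfold qK
    have h2 : (k : ℂ)⁻¹ = (((k : ℝ)⁻¹ : ℝ) : ℂ) := by push_cast; rfl
    rw [h2, Complex.re_ofReal_mul, Complex.re_sum]
    rfl
  rw [h1, Finset.sum_congr rfl fun i _ => d2_sq (W i) (W' i), Finset.sum_sub_distrib,
    ← Finset.mul_sum]
  simp only [Finset.sum_const, Finset.card_univ, Fintype.card_fin, nsmul_eq_mul]
  field_simp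

lemma norm_qK_sub_le (W W' : KG k N) : ‖qK W - qK W'‖ ≤ dK W W' := by
  have h1 : qK W - qK W' = (k : ℂ)⁻¹ * ∑ i, (utr (W i) - utr (W' i)) := by
    unfold qK
    rw [Finset.sum_sub_distrib]
    ring
  rw [h1, norm_mul, norm_inv, Complex.norm_natCast]
  have h2 : ‖∑ i, (utr (W i) - utr (W' i))‖ ≤ ∑ i, d2 (W i) (W' i) :=
    (norm_sum_le _ _).trans (Finset.sum_le_sum fun i _ => norm_utr_sub_le _ _)
  have hk0 : 0 ≤ (k : ℝ)⁻¹ := by positivity
  refine (mul_le_mul_of_nonneg_left h2 hk0).trans ?_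
  unfold dK
  refine Real.le_sqrt_of_sq_le ?_
  have h3 := sq_sum_le_card_mul_sum_sq (s := (Finset.univ : Finset (Fin k)))
    (f := fun i => d2 (W i) (W' i))
  rw [Finset.card_univ, Fintype.card_fin] at h3
  rcases Nat.eq_zero_or_pos k with h | h
  · subst h; simp
  · have hk : (0 : ℝ) < k := by exact_mod_cast h
    rw [mul_pow]
    have h4 : ((k : ℝ)⁻¹) ^ 2 * (∑ i, d2 (W i) (W' i)) ^ 2 ≤
        ((k : ℝ)⁻¹) ^ 2 * (k * ∑ i, d2 (W i) (W' i) ^ 2) :=
      mul_le_mul_of_nonneg_left h3 (by positivity)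
    refine h4.trans (le_of_eq ?_)
    field_simp

private lemma d2_emb_sq (hk : 1 ≤ k) (hN : 1 ≤ N) (W W' : KG k N) :
    d2 (emb k N r W) (emb k N r W') ^ 2 =
      (N : ℝ) * k / ((N : ℝ) * k + r) * dK W W' ^ 2 := by
  have hne : Nonempty (JJ k N r) := ⟨Sum.inl (⟨0, by omega⟩, ⟨0, by omega⟩)⟩
  have hkr : (1 : ℝ) ≤ k := by exact_mod_cast hk
  have hNr : (1 : ℝ) ≤ N := by exact_mod_cast hN
  have hNk : (0 : ℝ) < (N : ℝ) * k := by positivity
  have hr0 : (0 : ℝ) ≤ r := Nat.cast_nonneg r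
  rw [d2_sq, dK_sq hk hN, ← map_inv, ← map_mul, utr_emb hk hN]
  set q := qK (W⁻¹ * W')
  have h1 : (((N : ℂ) * k * q + r) / ((N : ℂ) * k + r)).re =
      ((N : ℝ) * k * q.re + r) / ((N : ℝ) * k + r) := by
    have h2 : (N : ℂ) * k + r = (((N : ℝ) * k + r : ℝ) : ℂ) := by push_cast; ring
    have h3 : (N : ℂ) * k * q + r = (((N : ℝ) * k : ℝ) : ℂ) * q + ((r : ℝ) : ℂ) := by
      push_cast; ring
    rw [h2, h3, Complex.div_ofReal_re, Complex.add_re, Complex.re_ofReal_mul, Complex.ofReal_re]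
  rw [h1]
  have h4 : (N : ℝ) * k + r ≠ 0 := by positivity
  field_simp
  ring

lemma d2_emb_le (hk : 1 ≤ k) (hN : 1 ≤ N) (W W' : KG k N) :
    d2 (emb k N r W) (emb k N r W') ≤ dK W W' := by
  refine abs_le_of_sq_le_sq' ?_ (dK_nonneg _ _) |>.2
  rw [d2_emb_sq hk hN]
  have hkr : (1 : ℝ) ≤ k := by exact_mod_cast hk
  have hNr : (1 : ℝ) ≤ N := by exact_mod_cast hN
  have hNk : (0 : ℝ) < (N : ℝ) * k := by positivity
  have hr0 : (0 : ℝ) ≤ r := Nat.cast_nonneg r
  have h1 : (N : ℝ) * k / ((N : ℝ) * k + r) ≤ 1 := by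
    rw [div_le_one (by positivity)]
    linarith
  exact mul_le_of_le_one_left (sq_nonneg _) h1

lemma d2_emb_zero (hk : 1 ≤ k) (hN : 1 ≤ N) (W W' : KG k N) :
    d2 (emb k N 0 W) (emb k N 0 W') = dK W W' := by
  have h := d2_emb_sq (r := 0) hk hN W W'
  have hkr : (1 : ℝ) ≤ k := by exact_mod_cast hk
  have hNr : (1 : ℝ) ≤ N := by exact_mod_cast hN
  have hNk : (N : ℝ) * k ≠ 0 := by positivity
  have h1 : (N : ℝ) * k / ((N : ℝ) * k + (0 : ℕ)) = 1 := by
    push_cast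
    rw [add_zero, div_self hNk]
  rw [h1, one_mul] at h
  exact (pow_left_inj₀ (d2_nonneg _ _) (dK_nonneg _ _) two_ne_zero).1 h

/-- Phases act on the blocks when there is no leftover. -/
lemma phU_mul_emb_zero (θ : ℝ) (W : KG k N) :
    phU θ * emb k N 0 W = emb k N 0 (fun i => phU θ * W i) := by
  apply Subtype.ext
  rw [UG_coe_mul, phU_coe, Matrix.smul_mul, Matrix.one_mul]
  change Complex.exp (Complex.I * θ) • blk k N 0 1 (fun i => (W i : Matrix (Fin N) (Fin N) ℂ)) =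
    blk k N 0 1 (fun i => ((phU θ * W i : UG (Fin N)) : Matrix (Fin N) (Fin N) ℂ))
  have h1 : (fun i => ((phU θ * W i : UG (Fin N)) : Matrix (Fin N) (Fin N) ℂ)) =
      Complex.exp (Complex.I * θ) • fun i => (W i : Matrix (Fin N) (Fin N) ℂ) := by
    funext i
    rw [UG_coe_mul, phU_coe, Matrix.smul_mul, Matrix.one_mul]
    rfl
  unfold blk
  rw [h1, Matrix.blockDiagonal_smul, Matrix.fromBlocks_smul]
  congr 1
  · rw [smul_zero]
  · rw [smul_zero]
  · ext i
    exact i.elim0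

lemma qK_phase (θ : ℝ) (W : KG k N) :
    qK (fun i => phU θ * W i) = Complex.exp (Complex.I * θ) * qK W := by
  unfold qK
  simp only [utr_phU_mul]
  rw [← Finset.mul_sum]
  ring

private lemma hs_exp {κ : Type} [Fintype κ] [DecidableEq κ] (X : Matrix κ κ ℂ) :
    HasSum (fun n : ℕ => ((n.factorial : ℂ)⁻¹) • X ^ n) (NormedSpace.exp X) := by
  open scoped Matrix.Norms.Operator in
  have : CompleteSpace (Matrix κ κ ℂ) := FiniteDimensional.complete ℂ _
  exact NormedSpace.exp_series_hasSum_exp' (𝕂 := ℂ) X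

private lemma exp_blk (H : Fin k → Matrix (Fin N) (Fin N) ℂ) :
    NormedSpace.exp (blk k N r 0 H) = blk k N r 1 (fun i => NormedSpace.exp (H i)) := by
  have h1 := hs_exp (Matrix.blockDiagonal H)
  have h2 := hs_exp (0 : Matrix (Fin r) (Fin r) ℂ)
  have h3 := hs_exp (blk k N r 0 H)
  let Φ : Matrix (Fin N × Fin k) (Fin N × Fin k) ℂ × Matrix (Fin r) (Fin r) ℂ →+
      Matrix (JJ k N r) (JJ k N r) ℂ :=
    { toFun := fun p => Matrix.fromBlocks p.1 0 0 p.2
      map_zero' := Matrix.fromBlocks_zero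
      map_add' := fun p q => by
        rw [Matrix.fromBlocks_add]
        simp }
  have hΦ : Continuous Φ :=
    (continuous_fst).matrix_fromBlocks continuous_const continuous_const continuous_snd
  have h4 := (h1.prodMk h2).map Φ hΦ
  have h5 : (Φ ∘ fun n : ℕ => (((n.factorial : ℂ)⁻¹) • (Matrix.blockDiagonal H) ^ n,
      ((n.factorial : ℂ)⁻¹) • (0 : Matrix (Fin r) (Fin r) ℂ) ^ n)) =
      fun n : ℕ => ((n.factorial : ℂ)⁻¹) • (blk k N r 0 H) ^ n := by
    funext n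
    change Matrix.fromBlocks _ 0 0 _ = _
    unfold blk
    rw [zero_smul, Matrix.fromBlocks_diagonal_pow, Matrix.fromBlocks_smul, smul_zero, smul_zero]
  rw [h5] at h4
  have h6 := h3.unique h4
  rw [h6]
  change Matrix.fromBlocks (NormedSpace.exp (Matrix.blockDiagonal H)) 0 0
    (NormedSpace.exp (0 : Matrix (Fin r) (Fin r) ℂ)) = _
  have h7 : NormedSpace.exp (0 : Matrix (Fin r) (Fin r) ℂ) = 1 := NormedSpace.exp_zero
  rw [h7, Matrix.exp_blockDiagonal]
  unfold blk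
  rw [one_smul]
  congr 2
  funext i
  open scoped Matrix.Norms.Operator in
  have : CompleteSpace (Matrix (Fin N) (Fin N) ℂ) := FiniteDimensional.complete ℂ _
  exact Pi.coe_exp H i

/-- A family of block exponentials is the exponential of a block diagonal Hermitian matrix. -/
lemma emb_eU (x : KG k N) {H : Fin k → Matrix (Fin N) (Fin N) ℂ} (hH : ∀ i, (H i).IsHermitian) :
    (blk k N r 0 H).IsHermitian ∧
      ∀ t : ℝ, emb k N r (fun i => x i * eU ((t : ℂ) • H i)) =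
        emb k N r x * eU ((t : ℂ) • blk k N r 0 H) := by
  have hB : (blk k N r 0 H).IsHermitian := by
    unfold Matrix.IsHermitian
    rw [blk_conjTranspose, star_zero]
    congr 1
    funext i
    exact hH i
  refine ⟨hB, fun t => ?_⟩
  have h1 : (fun i => x i * eU ((t : ℂ) • H i)) = x * (fun i => eU ((t : ℂ) • H i) : KG k N) := rfl
  rw [h1, map_mul]
  congr 1
  apply Subtype.ext
  rw [eU_coe (isHermitian_smul hB t)]
  change blk k N r 1 (fun i => ((eU ((t : ℂ) • H i) : UG (Fin N)) : Matrix (Fin N) (Fin N) ℂ)) = _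
  have h2 : Complex.I • ((t : ℂ) • blk k N r 0 H) =
      blk k N r 0 (fun i => Complex.I • ((t : ℂ) • H i)) := by
    have h3 : (fun i => Complex.I • ((t : ℂ) • H i)) = (Complex.I * (t : ℂ)) • H := by
      funext i
      rw [smul_smul]
      rfl
    unfold blk
    rw [smul_smul, h3, Matrix.blockDiagonal_smul, Matrix.fromBlocks_smul]
    simp
  rw [h2, exp_blk]
  congr 1
  funext i
  exact eU_coe (isHermitian_smul (hH i) t)

lemma opn_blk_le {H : Fin k → Matrix (Fin N) (Fin N) ℂ} {c : ℝ} (hc : 0 ≤ c)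
    (h : ∀ i, opn (H i) ≤ c) : opn (blk k N r 0 H) ≤ c := by
  unfold opn
  refine ContinuousLinearMap.opNorm_le_bound _ hc fun v => ?_
  refine abs_le_of_sq_le_sq' ?_ (mul_nonneg hc (norm_nonneg _)) |>.2
  rw [mul_pow, EuclideanSpace.norm_sq_eq, EuclideanSpace.norm_sq_eq, Fintype.sum_sum_type,
    Fintype.sum_sum_type, Fintype.sum_prod_type, Fintype.sum_prod_type]
  have h1 : ∀ (a : Fin N) (i : Fin k),
      (Matrix.toEuclideanCLM (𝕜 := ℂ) (blk k N r 0 H) v) (Sum.inl (a, i)) =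
        (H i *ᵥ fun b => v (Sum.inl (b, i))) a := by
    intro a i
    change (blk k N r 0 H *ᵥ v.ofLp) (Sum.inl (a, i)) = _
    unfold blk
    rw [Matrix.mulVec, dotProduct, Fintype.sum_sum_type, Fintype.sum_prod_type]
    simp only [Matrix.fromBlocks_apply₁₁, Matrix.fromBlocks_apply₁₂, Matrix.blockDiagonal_apply,
      Matrix.zero_apply, zero_mul, Finset.sum_const_zero, add_zero, ite_mul]
    rw [Matrix.mulVec, dotProduct]
    refine Finset.sum_congr rfl fun b _ => ?_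
    rw [Finset.sum_ite_eq]
    simp
  have h2 : ∀ j : Fin r,
      (Matrix.toEuclideanCLM (𝕜 := ℂ) (blk k N r 0 H) v) (Sum.inr j) = 0 := by
    intro j
    change (blk k N r 0 H *ᵥ v.ofLp) (Sum.inr j) = _
    unfold blk
    rw [Matrix.mulVec, dotProduct, Fintype.sum_sum_type]
    simp
  simp only [h1, h2]
  have h3 : ∀ i : Fin k, ∑ a, ‖(H i *ᵥ fun b => v (Sum.inl (b, i))) a‖ ^ 2 ≤
      c ^ 2 * ∑ a, ‖v (Sum.inl (a, i))‖ ^ 2 := by
    intro i
    refine (norm_mulVec_le (H i) _).trans ?_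
    exact mul_le_mul_of_nonneg_right (pow_le_pow_left₀ (opn_nonneg _) (h i) 2)
      (Finset.sum_nonneg fun _ _ => sq_nonneg _)
  rw [Finset.sum_comm, Finset.sum_comm (f := fun x y => ‖v (Sum.inl (x, y))‖ ^ 2)]
  have h4 := Finset.sum_le_sum fun (i : Fin k) (_ : i ∈ Finset.univ) => h3 i
  rw [← Finset.mul_sum] at h4
  have h5 : 0 ≤ c ^ 2 * ∑ j : Fin r, ‖v (Sum.inr j)‖ ^ 2 := by positivity
  rw [mul_add]
  simp only [norm_zero]
  simp only [ne_eq, OfNat.ofNat_ne_zero, not_false_eq_true, zero_pow, Finset.sum_const_zero,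
    add_zero]
  linarith

lemma exists_phase (q : ℂ) : ∃ θ : ℝ, Complex.exp (Complex.I * θ) * q = ‖q‖ := by
  refine ⟨-q.arg, ?_⟩
  have h := Complex.norm_mul_exp_arg_mul_I q
  calc Complex.exp (Complex.I * ((-q.arg : ℝ) : ℂ)) * q =
      Complex.exp (Complex.I * ((-q.arg : ℝ) : ℂ)) *
        (‖q‖ * Complex.exp (q.arg * Complex.I)) := by rw [h]
    _ = ‖q‖ := by
      rw [mul_left_comm, ← Complex.exp_add]
      have : Complex.I * ((-q.arg : ℝ) : ℂ) + (q.arg : ℂ) * Complex.I = 0 := by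
        push_cast; ring
      rw [this, Complex.exp_zero, mul_one]

lemma exists_grid_phase (q : ℂ) {m : ℕ} (hm : 1 ≤ m) : ∃ j : ℕ, j < m ∧
    ‖q‖ * (1 - 5 / (m : ℝ) ^ 2) ≤ (Complex.exp (Complex.I * ((2 * Real.pi * j / m : ℝ) : ℂ)) * q).re ∧
    ‖Complex.exp (Complex.I * ((2 * Real.pi * j / m : ℝ) : ℂ)) * q - ‖q‖‖ ≤ 4 / m * ‖q‖ := by
  have hm0 : (0 : ℝ) < m := by exact_mod_cast hm
  have hpi := Real.pi_pos
  obtain ⟨θ, hθ⟩ := exists_phase q
  set a : ℝ := θ * m / (2 * Real.pi) with ha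
  set j0 : ℤ := round a with hj0
  have hmz : (0 : ℤ) < m := by exact_mod_cast hm
  have hjn : 0 ≤ j0 % (m : ℤ) := Int.emod_nonneg _ hmz.ne'
  have hjl : j0 % (m : ℤ) < m := Int.emod_lt_of_pos _ hmz
  refine ⟨(j0 % (m : ℤ)).toNat, by omega, ?_⟩
  set δ : ℝ := 2 * Real.pi * j0 / m - θ with hδ
  have hδ1 : |δ| ≤ Real.pi / m := by
    have h1 := abs_sub_round a
    have h2 : δ = -(a - (j0 : ℝ)) * (2 * Real.pi / m) := by
      rw [hδ, ha]
      field_simp
      ring
    rw [h2, abs_mul, abs_neg, abs_of_pos (by positivity : (0 : ℝ) < 2 * Real.pi / m)]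
    calc |a - (j0 : ℝ)| * (2 * Real.pi / m) ≤ 1 / 2 * (2 * Real.pi / m) :=
          mul_le_mul_of_nonneg_right h1 (by positivity)
      _ = Real.pi / m := by ring
  have hexp : Complex.exp (Complex.I * ((2 * Real.pi * ((j0 % (m : ℤ)).toNat : ℕ) / m : ℝ) : ℂ)) * q =
      Complex.exp (Complex.I * (δ : ℂ)) * ‖q‖ := by
    have h1 : (((j0 % (m : ℤ)).toNat : ℕ) : ℝ) = (j0 : ℝ) - m * ((j0 / (m : ℤ) : ℤ) : ℝ) := by
      have h2 : ((((j0 % (m : ℤ)).toNat : ℕ) : ℤ)) = j0 - m * (j0 / (m : ℤ)) := by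
        rw [Int.toNat_of_nonneg hjn, Int.emod_def]
      have h3 := congrArg (fun z : ℤ => (z : ℝ)) h2
      push_cast at h3
      exact h3
    rw [← hθ, ← mul_assoc, ← Complex.exp_add]
    congr 1
    rw [Complex.exp_eq_exp_iff_exists_int]
    refine ⟨-(j0 / (m : ℤ)), ?_⟩
    rw [h1, hδ]
    have hmc : (m : ℂ) ≠ 0 := by exact_mod_cast hm0.ne'
    push_cast
    field_simp
    ring
  rw [hexp]
  have hδ2 : δ ^ 2 ≤ 10 / (m : ℝ) ^ 2 := by
    have h1 : δ ^ 2 ≤ (Real.pi / m) ^ 2 := by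
      rw [← sq_abs]
      exact pow_le_pow_left₀ (abs_nonneg _) hδ1 2
    refine h1.trans ?_
    rw [div_pow]
    refine div_le_div_of_nonneg_right ?_ (by positivity)
    nlinarith [Real.pi_lt_d2, Real.pi_pos]
  constructor
  · rw [Complex.mul_re, Complex.ofReal_re, Complex.ofReal_im, mul_zero, sub_zero]
    have h1 : (Complex.exp (Complex.I * (δ : ℂ))).re = Real.cos δ := by
      rw [mul_comm, Complex.exp_ofReal_mul_I_re]
    rw [h1, mul_comm]
    refine mul_le_mul_of_nonneg_right ?_ (norm_nonneg q)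
    have h2 := Real.one_sub_sq_div_two_le_cos (x := δ)
    have h3 : (5 : ℝ) / (m : ℝ) ^ 2 = 10 / (m : ℝ) ^ 2 / 2 := by ring
    rw [h3]
    linarith
  · have h1 : Complex.exp (Complex.I * (δ : ℂ)) * (‖q‖ : ℂ) - ‖q‖ =
        (Complex.exp (Complex.I * (δ : ℂ)) - 1) * ‖q‖ := by ring
    rw [h1, norm_mul, Complex.norm_real, norm_norm]
    refine mul_le_mul_of_nonneg_right ?_ (norm_nonneg q)
    refine (Real.norm_exp_I_mul_ofReal_sub_one_le).trans ?_
    rw [Real.norm_eq_abs]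
    refine hδ1.trans ?_
    exact div_le_div_of_nonneg_right (by linarith [Real.pi_lt_d2]) hm0.le

end Pool.Agent.OGP
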