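import Pool.Agent.OGP.Kdef
import Pool.Agent.OGP.Alg

/-!
# OGP: levels, block projections, the equidistribution property (definitions)
-/

open Matrix
namespace Pool.Agent.OGP

/-- The number of the block of an index (`k` for the leftover). -/
def lvl {k N r : ℕ} : JJ k N r → ℕ
  | Sum.inl (_, i) => i
  | Sum.inr _ => k

/-- A family of angles which is increasing from block to block. -/
def BlockMono {k N r : ℕ} (θ : JJ k N r → ℝ) : Prop := ∀ x y, lvl x < lvl y → θ x ≤ θ y

/-- The projection onto the block `i`. -/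
noncomputable def pblk {k N r : ℕ} (i : Fin k) : Matrix (JJ k N r) (JJ k N r) ℂ :=
  Matrix.diagonal fun x => if lvl x = (i : ℕ) then 1 else 0

/-- The Laurent polynomials `q i` approximate the spectral projections on `k` equal blocks of
consecutive eigenvalues, up to `ε`, for all unitary matrices of large size whose first moments are
small. -/
def EquiP (k : ℕ) (q : Fin k → (ℤ →₀ ℂ)) (ε : ℝ) : Prop :=
  ∃ (ε' : ℝ) (D n₀ : ℕ), 0 < ε' ∧ ∀ N r : ℕ, r < k → n₀ ≤ N →
    ∀ (O : UG (JJ k N r)) (θ : JJ k N r → ℝ), BlockMono θ →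
      (∀ x, 0 ≤ θ x ∧ θ x ≤ 2 * Real.pi) →
      (∀ m : ℕ, 1 ≤ m → m ≤ D →
        ‖utr ((O * eU (Matrix.diagonal fun x => (θ x : ℂ)) * O⁻¹) ^ m)‖ ≤ ε') →
      ∀ i, n2 (lauM (q i) (O * eU (Matrix.diagonal fun x => (θ x : ℂ)) * O⁻¹) -
        (O : Matrix (JJ k N r) (JJ k N r) ℂ) * pblk i * ((O⁻¹ : UG (JJ k N r)) :
          Matrix (JJ k N r) (JJ k N r) ℂ)) ≤ ε

/-- The value of a trigonometric polynomial. -/
noncomputable def tpv (c : ℤ →₀ ℂ) (x : ℝ) : ℂ :=
  c.sum fun m z => z * Complex.exp (Complex.I * ((m * x : ℝ) : ℂ))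

end Pool.Agent.OGP
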