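import Pool.Agent.OGP.Polar
import Pool.Agent.OGP.Lvl
import Pool.Agent.OGP.Kfacts

/-!
# OGP BLOCKC: a unitary almost commuting with the block projections is almost block diagonal

No leftover, `P_i = pblk i`, `∑_i P_i = 1`.  Let `W` be unitary with `n2 (W P_i - P_i W) ≤ ε` for all
`i`, and `D = ∑_i P_i W P_i`.
* `n2 (W - D)² = ∑_{i ≠ j} n2 (P_i W P_j)² ≤ ∑_j n2 (W P_j - P_j W)² ≤ k ε²`: the matrices
  `P_i W P_j` are orthogonal for the trace, `P_i (W P_j - P_j W) P_j = P_i W P_j` for `i ≠ j`, and for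
  fixed `j` the sum over `i` of `n2 (P_i Y P_j)²` is `≤ n2 (Y)²`.
  (Entrywise: `(W - D)_{xy} = W_{xy}` if `x, y` are in different blocks, `0` otherwise, and
  `(W P_j - P_j W)_{xy} = ± W_{xy}` if exactly one of `x, y` is in the block `j`.)
* `opn D ≤ 1`: `‖D v‖² = ∑ ‖P_i W P_i v‖² ≤ ∑ ‖P_i v‖² = ‖v‖²`.
* `n2 (Dᴴ D - 1) = n2 (Dᴴ D - Wᴴ W) ≤ n2 (Dᴴ (D - W)) + n2 ((D - W)ᴴ W) ≤ 2 √k ε`.
* `D = blk k N 0 1 D_i` for the diagonal blocks `D_i`; `exists_polar` for every block gives unitaries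
  `W_i` with `n2 (D_i - W_i) ≤ n2 (D_iᴴ D_i - 1)`; summing squares, `n2 (D - emb W₀) ≤ n2 (Dᴴ D - 1)
  ≤ 2 √k ε`.
Total: `d2 W (emb k N 0 W₀) ≤ 3 √k ε`.
-/

open Matrix
namespace Pool.Agent.OGP

variable {k N : ℕ}

private lemma blockc_sum {M : Type*} [AddCommMonoid M] (x : JJ k N 0) (a : Fin k → M) :
    ∃ j : Fin k, lvl x = (j : ℕ) ∧ (∑ i : Fin k, (if lvl x = (i : ℕ) then a i else 0)) = a j := by
  rcases x with ⟨b, j⟩ | x
  · refine ⟨j, rfl, ?_⟩
    rw [Finset.sum_eq_single j]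
    · exact if_pos rfl
    · intro i _ hi
      refine if_neg ?_
      intro h
      exact hi (Fin.ext h.symm)
    · intro h
      exact absurd (Finset.mem_univ j) h
  · exact x.elim0

private lemma blockc_pmul (i : Fin k) (Y : Matrix (JJ k N 0) (JJ k N 0) ℂ) (x z : JJ k N 0) :
    (pblk i * Y : Matrix (JJ k N 0) (JJ k N 0) ℂ) x z = if lvl x = (i : ℕ) then Y x z else 0 := by
  unfold pblk
  rw [Matrix.diagonal_mul]
  split_ifs <;> simp

private lemma blockc_mulp (i : Fin k) (Y : Matrix (JJ k N 0) (JJ k N 0) ℂ) (x z : JJ k N 0) :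
    (Y * pblk i : Matrix (JJ k N 0) (JJ k N 0) ℂ) x z = if lvl z = (i : ℕ) then Y x z else 0 := by
  unfold pblk
  rw [Matrix.mul_diagonal]
  split_ifs <;> simp

private lemma blockc_split (Y : Matrix (JJ k N 0) (JJ k N 0) ℂ) :
    ∑ i : Fin k, hs (pblk i * Y) ^ 2 = hs Y ^ 2 := by
  simp only [hs_sq, blockc_pmul]
  rw [Finset.sum_comm]
  refine Finset.sum_congr rfl fun x _ => ?_
  rw [Finset.sum_comm]
  refine Finset.sum_congr rfl fun z _ => ?_
  obtain ⟨j, _, hj⟩ := blockc_sum x (fun _ : Fin k => ‖Y x z‖ ^ 2)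
  rw [← hj]
  refine Finset.sum_congr rfl fun i _ => ?_
  split_ifs <;> simp

private lemma blockc_glue (Z : Fin k → Matrix (JJ k N 0) (JJ k N 0) ℂ) :
    hs (∑ i, pblk i * Z i) ^ 2 ≤ ∑ i, hs (Z i) ^ 2 := by
  simp only [hs_sq]
  rw [Finset.sum_comm (s := (Finset.univ : Finset (Fin k)))]
  refine Finset.sum_le_sum fun x _ => ?_
  rw [Finset.sum_comm (s := (Finset.univ : Finset (Fin k)))]
  refine Finset.sum_le_sum fun z _ => ?_
  rw [Matrix.sum_apply]
  simp only [blockc_pmul]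
  obtain ⟨j, _, hj⟩ := blockc_sum x (fun i : Fin k => Z i x z)
  rw [hj]
  exact Finset.single_le_sum (f := fun i : Fin k => ‖Z i x z‖ ^ 2)
    (fun i _ => sq_nonneg _) (Finset.mem_univ j)

private noncomputable def blockcD (W : Matrix (JJ k N 0) (JJ k N 0) ℂ) :
    Matrix (JJ k N 0) (JJ k N 0) ℂ := ∑ i : Fin k, pblk i * (W * pblk i)

private lemma blockcD_apply (W : Matrix (JJ k N 0) (JJ k N 0) ℂ) (x y : JJ k N 0) :
    blockcD W x y = if lvl x = lvl y then W x y else 0 := by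
  unfold blockcD
  rw [Matrix.sum_apply]
  simp only [blockc_pmul, blockc_mulp]
  obtain ⟨j, h1, h2⟩ := blockc_sum x (fun i : Fin k => if lvl y = (i : ℕ) then W x y else 0)
  rw [h2, h1]
  by_cases h : lvl y = (j : ℕ)
  · rw [if_pos h, if_pos h.symm]
  · rw [if_neg h, if_neg (fun e => h e.symm)]

private lemma blockcD_conjTranspose (W : Matrix (JJ k N 0) (JJ k N 0) ℂ) :
    (blockcD W)ᴴ = blockcD Wᴴ := by
  ext x y
  rw [Matrix.conjTranspose_apply, blockcD_apply, blockcD_apply, Matrix.conjTranspose_apply]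
  by_cases h : lvl x = lvl y
  · rw [if_pos h, if_pos h.symm]
  · rw [if_neg h, if_neg (fun e => h e.symm), star_zero]

private lemma blockcD_mul (W : UG (JJ k N 0)) (Y : Matrix (JJ k N 0) (JJ k N 0) ℂ) :
    hs (blockcD (W : Matrix (JJ k N 0) (JJ k N 0) ℂ) * Y) ≤ hs Y := by
  have e : blockcD (W : Matrix (JJ k N 0) (JJ k N 0) ℂ) * Y =
      ∑ i : Fin k, pblk i * ((W : Matrix (JJ k N 0) (JJ k N 0) ℂ) * (pblk i * Y)) := by
    unfold blockcD
    rw [Finset.sum_mul]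
    refine Finset.sum_congr rfl fun i _ => ?_
    simp only [Matrix.mul_assoc]
  refine abs_le_of_sq_le_sq' ?_ (hs_nonneg _) |>.2
  rw [e]
  refine (blockc_glue _).trans (le_of_eq ?_)
  rw [← blockc_split Y]
  refine Finset.sum_congr rfl fun i _ => ?_
  rw [hs_unitary_mul]

private lemma blockcD_sub (W : Matrix (JJ k N 0) (JJ k N 0) ℂ) :
    hs (W - blockcD W) ^ 2 ≤ ∑ j : Fin k, hs (W * pblk j - pblk j * W) ^ 2 := by
  simp only [hs_sq]
  rw [Finset.sum_comm (s := (Finset.univ : Finset (Fin k)))]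
  refine Finset.sum_le_sum fun x _ => ?_
  rw [Finset.sum_comm (s := (Finset.univ : Finset (Fin k)))]
  refine Finset.sum_le_sum fun y _ => ?_
  rw [Matrix.sub_apply, blockcD_apply]
  by_cases h : lvl x = lvl y
  · rw [if_pos h, sub_self, norm_zero]
    have : (0 : ℝ) ≤ ∑ i : Fin k, ‖(W * pblk i - pblk i * W : Matrix (JJ k N 0) (JJ k N 0) ℂ) x y‖ ^ 2 :=
      Finset.sum_nonneg fun i _ => by positivity
    simpa using this
  · rw [if_neg h, sub_zero]
    obtain ⟨j, h1, _⟩ := blockc_sum x (fun _ : Fin k => (0 : ℂ))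
    refine le_trans ?_ (Finset.single_le_sum
      (f := fun i : Fin k => ‖(W * pblk i - pblk i * W : Matrix (JJ k N 0) (JJ k N 0) ℂ) x y‖ ^ 2)
      (fun i _ => sq_nonneg _)
      (Finset.mem_univ j))
    show _ ≤ ‖(W * pblk j - pblk j * W : Matrix (JJ k N 0) (JJ k N 0) ℂ) x y‖ ^ 2
    rw [Matrix.sub_apply, blockc_pmul, blockc_mulp, if_pos h1,
      if_neg (fun e => h (h1.trans e.symm)), zero_sub, norm_neg]

private lemma blockc_hs_blk (X Y : Fin k → Matrix (Fin N) (Fin N) ℂ) :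
    hs (blk k N 0 1 X - blk k N 0 1 Y) ^ 2 = ∑ i, hs (X i - Y i) ^ 2 := by
  simp only [hs_sq]
  have h1 : ∀ f : JJ k N 0 → ℝ, ∑ x, f x = ∑ i : Fin k, ∑ a : Fin N, f (Sum.inl (a, i)) := by
    intro f
    rw [Fintype.sum_sum_type, Fintype.sum_prod_type_right]
    simp
  rw [h1]
  refine Finset.sum_congr rfl fun i _ => Finset.sum_congr rfl fun a _ => ?_
  rw [h1, Finset.sum_eq_single i]
  · refine Finset.sum_congr rfl fun b _ => ?_
    simp [blk, Matrix.blockDiagonal_apply]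
  · intro j _ hj
    refine Finset.sum_eq_zero fun b _ => ?_
    have : ¬ (i = j) := fun e => hj e.symm
    simp [blk, Matrix.blockDiagonal_apply, this]
  · intro h
    exact absurd (Finset.mem_univ i) h

private lemma blockcD_blk (W : Matrix (JJ k N 0) (JJ k N 0) ℂ) :
    blockcD W = blk k N 0 1 (fun i => Matrix.of fun a b => W (Sum.inl (a, i)) (Sum.inl (b, i))) := by
  ext x y
  rcases x with ⟨a, i⟩ | x
  · rcases y with ⟨b, j⟩ | y
    · rw [blockcD_apply]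
      by_cases h : i = j
      · subst h
        simp [blk, Matrix.blockDiagonal_apply, lvl]
      · have h' : ¬ ((i : ℕ) = (j : ℕ)) := fun e => h (Fin.ext e)
        simp [blk, Matrix.blockDiagonal_apply, lvl, h, h']
    · exact y.elim0
  · exact x.elim0

theorem exists_block {k N : ℕ} (hk : 1 ≤ k) (hN : 1 ≤ N) (W : UG (JJ k N 0)) {ε : ℝ}
    (h : ∀ i : Fin k, n2 ((W : Matrix (JJ k N 0) (JJ k N 0) ℂ) * pblk i -
      pblk i * (W : Matrix (JJ k N 0) (JJ k N 0) ℂ)) ≤ ε) :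
    ∃ W₀ : KG k N, d2 W (emb k N 0 W₀) ≤ 3 * Real.sqrt k * ε := by
  have hε : 0 ≤ ε := (n2_nonneg _).trans (h ⟨0, hk⟩)
  set M : Matrix (JJ k N 0) (JJ k N 0) ℂ := (W : Matrix (JJ k N 0) (JJ k N 0) ℂ) with hM
  set D : Matrix (JJ k N 0) (JJ k N 0) ℂ := blockcD M with hD
  set c : ℝ := Real.sqrt (Fintype.card (JJ k N 0)) with hc
  have hc0 : 0 ≤ c := Real.sqrt_nonneg _
  -- step 1
  have h1 : n2 (M - D) ≤ Real.sqrt k * ε := by
    have e1 : (n2 (M - D)) ^ 2 ≤ k * ε ^ 2 := by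
      have e2 : (n2 (M - D)) ^ 2 ≤ ∑ j : Fin k, n2 (M * pblk j - pblk j * M) ^ 2 := by
        simp only [n2_eq, div_pow]
        rw [← Finset.sum_div]
        exact div_le_div_of_nonneg_right (blockcD_sub M) (by positivity)
      refine e2.trans ?_
      calc ∑ j : Fin k, n2 (M * pblk j - pblk j * M) ^ 2 ≤ ∑ _j : Fin k, ε ^ 2 :=
            Finset.sum_le_sum fun j _ => pow_le_pow_left₀ (n2_nonneg _) (h j) 2
        _ = k * ε ^ 2 := by simp
    have e3 : (Real.sqrt k * ε) ^ 2 = k * ε ^ 2 := by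
      rw [mul_pow, Real.sq_sqrt (by positivity)]
    rw [← e3] at e1
    exact (abs_le_of_sq_le_sq' e1 (by positivity)).2
  -- step 2
  have h2 : n2 (Dᴴ * D - 1) ≤ 2 * (Real.sqrt k * ε) := by
    have e1 : (1 : Matrix (JJ k N 0) (JJ k N 0) ℂ) = Mᴴ * M := (UG_conj_mul W).symm
    have e2 : n2 (Dᴴ * D - Mᴴ * M) ≤ n2 (Dᴴ * D - Dᴴ * M) + n2 (Dᴴ * M - Mᴴ * M) :=
      n2_sub_le _ _ _
    have e3 : n2 (Dᴴ * D - Dᴴ * M) ≤ n2 (M - D) := by
      rw [← Matrix.mul_sub, n2_sub_comm M D, n2_eq, n2_eq]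
      refine div_le_div_of_nonneg_right ?_ (Real.sqrt_nonneg _)
      rw [hD, blockcD_conjTranspose, ← hD, hM, ← UG_coe_inv]
      exact blockcD_mul _ _
    have e4 : n2 (Dᴴ * M - Mᴴ * M) = n2 (M - D) := by
      rw [← Matrix.sub_mul, ← Matrix.conjTranspose_sub, hM, n2_mul_unitary, n2_conjTranspose,
        ← hM, n2_sub_comm]
    rw [e1]
    linarith
  -- step 3
  set X : Fin k → Matrix (Fin N) (Fin N) ℂ :=
    fun i => Matrix.of fun a b => M (Sum.inl (a, i)) (Sum.inl (b, i)) with hX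
  have hDX : D = blk k N 0 1 X := blockcD_blk M
  choose W₀ hW₀ using fun i => exists_polar (X i)
  have h3 : n2 (D - ((emb k N 0 W₀ : UG (JJ k N 0)) : Matrix (JJ k N 0) (JJ k N 0) ℂ)) ≤
      n2 (Dᴴ * D - 1) := by
    rw [n2_eq, n2_eq]
    refine div_le_div_of_nonneg_right ?_ (Real.sqrt_nonneg _)
    refine abs_le_of_sq_le_sq' ?_ (hs_nonneg _) |>.2
    have e1 : ((emb k N 0 W₀ : UG (JJ k N 0)) : Matrix (JJ k N 0) (JJ k N 0) ℂ) =
        blk k N 0 1 (fun i => (W₀ i : Matrix (Fin N) (Fin N) ℂ)) := rfl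
    have e2 : Dᴴ * D = blk k N 0 1 (fun i => (X i)ᴴ * X i) := by
      rw [hDX, blk_conjTranspose, blk_mul]
      simp
    rw [e1, e2, ← blk_one k N 0, hDX, blockc_hs_blk, blockc_hs_blk]
    refine Finset.sum_le_sum fun i _ => pow_le_pow_left₀ (hs_nonneg _) ?_ 2
    have h4 := hW₀ i
    have hN' : Nonempty (Fin N) := ⟨⟨0, hN⟩⟩
    rw [hs_eq, hs_eq]
    exact mul_le_mul_of_nonneg_left h4 (Real.sqrt_nonneg _)
  refine ⟨W₀, ?_⟩
  have h4 : d2 W (emb k N 0 W₀) ≤ n2 (M - D) +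
      n2 (D - ((emb k N 0 W₀ : UG (JJ k N 0)) : Matrix (JJ k N 0) (JJ k N 0) ℂ)) :=
    n2_sub_le _ _ _
  linarith

end Pool.Agent.OGP
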