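import Pool.Agent.OGP.Conc

/-!
# OGP CONC2: consequences of `conc`

`conc_tail`: Chernoff, `lam = n² t / (5 L²)`.  `conc_tail_low`: apply it to `-F`.
`conc_sq`: with `Y = F - ∫ F`, `n = card ι` and `c = γ n²`, use
`exp (c y²) = ∫ exp (√(2c) x y) dN(0,1)(x)`, Fubini and `conc` (`lam = √(2c) x`):
`∫ exp (c Y²) ≤ ∫ exp (5 c x² L² / n²) dN(x) = (1 - 10 γ L²)^{-1/2} ≤ √2` when `20 γ L² ≤ 1`.
-/

open Matrix MeasureTheory Filter Topology
namespace Pool.Agent.OGP

variable {ι : Type} [Fintype ι] [DecidableEq ι]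

lemma integrable_haar {F : UG ι → ℝ} (hF : Continuous F) : Integrable F (haarU ι) :=
  hF.integrable_of_hasCompactSupport (HasCompactSupport.of_compactSpace _)

theorem conc_tail [Nonempty ι] {F : UG ι → ℝ} {L : ℝ} (hL : 0 < L)
    (hF : ∀ A B, |F A - F B| ≤ L * d2 A B) (hph : PhaseInv F) {t : ℝ} (ht : 0 ≤ t) :
    (haarU ι).real {A | (∫ B, F B ∂(haarU ι)) + t ≤ F A} ≤
      Real.exp (-((Fintype.card ι : ℝ) ^ 2 * t ^ 2 / (10 * L ^ 2))) := by
  set n : ℝ := (Fintype.card ι : ℝ) with hn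
  have hn0 : 0 < n := by
    rw [hn]; exact_mod_cast Fintype.card_pos
  set m : ℝ := ∫ B, F B ∂(haarU ι) with hm
  have hFc := continuous_of_lip hF
  set lam : ℝ := n ^ 2 * t / (5 * L ^ 2) with hlam
  have hlam0 : 0 ≤ lam := by positivity
  have h1 := conc hL.le hF hph lam
  rw [← hm, ← hn] at h1
  have hc : Continuous fun A => Real.exp (lam * (F A - m)) :=
    Real.continuous_exp.comp ((hFc.sub continuous_const).const_mul lam)
  have h2 := mul_meas_ge_le_integral_of_nonneg (μ := haarU ι)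
    (f := fun A => Real.exp (lam * (F A - m)))
    (Eventually.of_forall fun A => (Real.exp_pos _).le) (integrable_haar hc) (Real.exp (lam * t))
  have h3 : {A | m + t ≤ F A} ⊆ {A : UG ι | Real.exp (lam * t) ≤ Real.exp (lam * (F A - m))} := by
    intro A hA
    have hA' : m + t ≤ F A := hA
    refine Real.exp_le_exp.2 (mul_le_mul_of_nonneg_left ?_ hlam0)
    linarith
  have h4 : (haarU ι).real {A | m + t ≤ F A} ≤
      (haarU ι).real {A : UG ι | Real.exp (lam * t) ≤ Real.exp (lam * (F A - m))} :=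
    measureReal_mono h3
  have h5 : Real.exp (lam * t) * (haarU ι).real {A | m + t ≤ F A} ≤
      Real.exp (5 / 2 * lam ^ 2 * L ^ 2 / n ^ 2) :=
    (mul_le_mul_of_nonneg_left h4 (Real.exp_pos _).le).trans (h2.trans h1)
  have h6 : (haarU ι).real {A | m + t ≤ F A} ≤
      Real.exp (5 / 2 * lam ^ 2 * L ^ 2 / n ^ 2) / Real.exp (lam * t) := by
    rw [le_div_iff₀ (Real.exp_pos _), mul_comm]
    exact h5
  refine h6.trans (le_of_eq ?_)
  rw [← Real.exp_sub]
  congr 1
  rw [hlam]
  field_simp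
  ring

theorem conc_tail_low [Nonempty ι] {F : UG ι → ℝ} {L : ℝ} (hL : 0 < L)
    (hF : ∀ A B, |F A - F B| ≤ L * d2 A B) (hph : PhaseInv F) {t : ℝ} (ht : 0 ≤ t) :
    (haarU ι).real {A | F A ≤ (∫ B, F B ∂(haarU ι)) - t} ≤
      Real.exp (-((Fintype.card ι : ℝ) ^ 2 * t ^ 2 / (10 * L ^ 2))) := by
  have h1 := conc_tail (F := fun A => - F A) hL (fun A B => by
    have := hF A B
    rw [← abs_neg] at this
    convert this using 2
    ring) (fun θ A => congrArg Neg.neg (hph θ A)) ht
  rw [integral_neg] at h1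
  have hs : {A : UG ι | F A ≤ (∫ B, F B ∂(haarU ι)) - t} =
      {A | -(∫ B, F B ∂(haarU ι)) + t ≤ -F A} := by
    ext A
    constructor
    · intro h
      have h' : F A ≤ (∫ B, F B ∂(haarU ι)) - t := h
      show -(∫ B, F B ∂(haarU ι)) + t ≤ -F A
      linarith
    · intro h
      have h' : -(∫ B, F B ∂(haarU ι)) + t ≤ -F A := h
      show F A ≤ (∫ B, F B ∂(haarU ι)) - t
      linarith
  rw [hs]
  exact h1

lemma gauss_sq {a : ℝ} (ha : a ≤ 1 / 4) :
    ∫⁻ x, ENNReal.ofReal (Real.exp (a * x ^ 2)) ∂(ProbabilityTheory.gaussianReal 0 1) ≤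
      ENNReal.ofReal 2 := by
  have hb : 0 < 1 / 2 - a := by linarith
  have hpi := Real.pi_pos
  rw [ProbabilityTheory.gaussianReal_of_var_ne_zero 0 one_ne_zero,
    lintegral_withDensity_eq_lintegral_mul _ (ProbabilityTheory.measurable_gaussianPDF 0 1)
      (by fun_prop)]
  have h1 : ∀ x : ℝ, (ProbabilityTheory.gaussianPDF 0 1 *
      fun x => ENNReal.ofReal (Real.exp (a * x ^ 2))) x =
      ENNReal.ofReal ((Real.sqrt (2 * Real.pi))⁻¹ * Real.exp (-(1 / 2 - a) * x ^ 2)) := by
    intro x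
    rw [Pi.mul_apply, ProbabilityTheory.gaussianPDF_def, ProbabilityTheory.gaussianPDFReal_def]
    simp only
    rw [← ENNReal.ofReal_mul (by positivity), mul_assoc, ← Real.exp_add]
    congr 3
    · simp
    · simp
      ring
  simp only [h1]
  rw [← ofReal_integral_eq_lintegral_ofReal ((integrable_exp_neg_mul_sq hb).const_mul _)
    (Eventually.of_forall fun x => by positivity)]
  refine ENNReal.ofReal_le_ofReal ?_
  rw [integral_const_mul, integral_gaussian]
  have h2 : Real.sqrt (Real.pi / (1 / 2 - a)) ≤ 2 * Real.sqrt (2 * Real.pi) := by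
    rw [Real.sqrt_le_left (by positivity), mul_pow, Real.sq_sqrt (by positivity),
      div_le_iff₀ hb]
    nlinarith
  have h3 : 0 < Real.sqrt (2 * Real.pi) := Real.sqrt_pos.2 (by positivity)
  calc (Real.sqrt (2 * Real.pi))⁻¹ * Real.sqrt (Real.pi / (1 / 2 - a))
      ≤ (Real.sqrt (2 * Real.pi))⁻¹ * (2 * Real.sqrt (2 * Real.pi)) := by gcongr
    _ = 2 := by field_simp

theorem conc_sq [Nonempty ι] {F : UG ι → ℝ} {L : ℝ} (hL : 0 ≤ L)
    (hF : ∀ A B, |F A - F B| ≤ L * d2 A B) (hph : PhaseInv F) {γ : ℝ} (hγ : 0 ≤ γ)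
    (hγL : 20 * γ * L ^ 2 ≤ 1) :
    ∫ A, Real.exp (γ * (Fintype.card ι : ℝ) ^ 2 * (F A - ∫ B, F B ∂(haarU ι)) ^ 2)
      ∂(haarU ι) ≤ 2 := by
  set n : ℝ := (Fintype.card ι : ℝ) with hn
  have hn0 : 0 < n := by
    rw [hn]; exact_mod_cast Fintype.card_pos
  set m : ℝ := ∫ B, F B ∂(haarU ι) with hm
  have hFc := continuous_of_lip hF
  set s : ℝ := Real.sqrt (2 * γ) * n with hs
  have hs2 : s ^ 2 = 2 * γ * n ^ 2 := by
    rw [hs, mul_pow, Real.sq_sqrt (by positivity)]
  have hY : Continuous fun A => F A - m := hFc.sub continuous_const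
  have hc1 : Continuous fun A => Real.exp (γ * n ^ 2 * (F A - m) ^ 2) :=
    Real.continuous_exp.comp ((hY.pow 2).const_mul _)
  have h1 : ∀ A, ENNReal.ofReal (Real.exp (γ * n ^ 2 * (F A - m) ^ 2)) =
      ∫⁻ x, ENNReal.ofReal (Real.exp ((s * (F A - m)) * x))
        ∂(ProbabilityTheory.gaussianReal 0 1) := by
    intro A
    rw [← ofReal_integral_eq_lintegral_ofReal
      (ProbabilityTheory.integrable_exp_mul_gaussianReal _)
      (Eventually.of_forall fun x => (Real.exp_pos _).le)]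
    have h2 := congrFun (ProbabilityTheory.mgf_id_gaussianReal (μ := 0) (v := 1))
      (s * (F A - m))
    unfold ProbabilityTheory.mgf at h2
    simp only [id] at h2
    rw [h2]
    congr 2
    rw [mul_pow, hs2]
    simp
    ring
  have h3 : ∀ x : ℝ, ∫⁻ A, ENNReal.ofReal (Real.exp ((s * (F A - m)) * x)) ∂(haarU ι) ≤
      ENNReal.ofReal (Real.exp ((5 * γ * L ^ 2) * x ^ 2)) := by
    intro x
    have hc : Continuous fun A => Real.exp ((s * (F A - m)) * x) :=
      Real.continuous_exp.comp ((hY.const_mul s).mul_const x)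
    rw [← ofReal_integral_eq_lintegral_ofReal (integrable_haar hc)
      (Eventually.of_forall fun x => (Real.exp_pos _).le)]
    refine ENNReal.ofReal_le_ofReal ?_
    have h4 := conc hL hF hph (s * x)
    rw [← hm, ← hn] at h4
    have e1 : ∀ A, Real.exp (s * x * (F A - m)) = Real.exp ((s * (F A - m)) * x) := by
      intro A; congr 1; ring
    simp only [e1] at h4
    refine h4.trans (le_of_eq ?_)
    congr 1
    rw [mul_pow, hs2]
    field_simp
  have hmeas : Measurable (Function.uncurry fun (A : UG ι) (x : ℝ) =>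
      ENNReal.ofReal (Real.exp ((s * (F A - m)) * x))) := by
    refine ENNReal.measurable_ofReal.comp ?_
    refine Real.measurable_exp.comp ?_
    exact ((hY.measurable.comp measurable_fst).const_mul s).mul measurable_snd
  have h5 : ∫⁻ A, ENNReal.ofReal (Real.exp (γ * n ^ 2 * (F A - m) ^ 2)) ∂(haarU ι) ≤
      ENNReal.ofReal 2 := by
    simp only [h1]
    rw [lintegral_lintegral_swap hmeas.aemeasurable]
    exact (lintegral_mono h3).trans (gauss_sq (by linarith))
  rw [integral_eq_lintegral_of_nonneg_ae (Eventually.of_forall fun x => (Real.exp_pos _).le)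
    hc1.measurable.aestronglyMeasurable]
  exact ENNReal.toReal_le_of_le_ofReal (by norm_num) h5

end Pool.Agent.OGP
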