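import Pool.Agent.OGP.Wder

/-!
# OGP FREE: words with one Haar unitary are small

Statement: if in the word `∏ V^{ε_i} X_i` one has `|utr X_i| ≤ δ` whenever `ε_i ≠ ε_{i+1}` (nothing
is asked of the other `X_i`, nor of the last one), then `∫ |utr (word)|² ≤ (4^l (δ + 1/n))²`,
`l ≥ 1` the length.

Proof by strong induction on `l`.  The Haar measure is invariant under `V ↦ V⁻¹`
(`wd_inv_left`), so we may assume `L = (true, X) :: L'`; `z V = utr (V * X * wd V L')`, and put
`y = (∫ |z|²)^{1/2}`.  By `word_ineq`, `y² ≤ ∑_{j < l-1} ∫ |a_j| |z| + l / n²`, `a_j = utr (X wl_j)`.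
Claim: `(∫ |a_j|²)^{1/2} ≤ 4^{j+1} (δ + 1/n)`.
* sign of position `j` of `L'` is `true`: `a_j = utr (wd V (L'.take j) * V * X)
  = utr (wd V (L'.take j ++ [(true, X)]))`, a word of length `j + 1 ≤ l - 1` satisfying the
  condition (the relation between two consecutive letters does not involve the `X` of the second).
* sign `false`, `j = 0`: `a_0 = utr X`, `|a_0| ≤ δ` (first two letters of `L`).
* sign `false`, `j ≥ 1`: `a_j = utr (wd V (L'.take j) * X)`: the word `L'.take j` with its last
  letter `(b, Y)` replaced by `(b, Y * X)`; length `j`.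
Cauchy-Schwarz: `y² ≤ (∑_{j < l-1} 4^{j+1}) (δ + 1/n) y + l / n²`, so
`y ≤ ∑_{j<l-1} 4^{j+1} (δ + 1/n) + √l / n ≤ 4^l (δ + 1/n)` (`y² ≤ α y + β²` implies `y ≤ α + β`).

`free_word_abs`: `∫ |utr| ≤ (∫ |utr|²)^{1/2}`.  `pos_word`: powers: `utr ((Q * V)^m)`, `m ≥ 1`; by
left invariance `Q = 1`, and `V^m = wd V (replicate m (true, 1))`, `δ = 0`.
-/

open Matrix MeasureTheory
namespace Pool.Agent.OGP

variable {ι : Type} [Fintype ι] [DecidableEq ι]

private lemma integrable_of_cont {f : UG ι → ℝ} (hf : Continuous f) : Integrable f (haarU ι) :=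
  hf.integrable_of_hasCompactSupport (HasCompactSupport.of_compactSpace f)

private lemma cs_gen {Ω : Type} [MeasurableSpace Ω] {μ : Measure Ω} {f g : Ω → ℝ}
    (i1 : Integrable (fun V => f V ^ 2) μ) (i2 : Integrable (fun V => g V ^ 2) μ)
    (i3 : Integrable (fun V => f V * g V) μ) {c y : ℝ} (hc : 0 < c)
    (hy : 0 < y) (h1 : ∫ V, f V ^ 2 ∂μ ≤ c ^ 2) (h2 : ∫ V, g V ^ 2 ∂μ ≤ y ^ 2) :
    ∫ V, f V * g V ∂μ ≤ c * y := by
  have hle : ∀ V, f V * g V ≤ y / (2 * c) * f V ^ 2 + c / (2 * y) * g V ^ 2 := by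
    intro V
    have h3 : 0 ≤ (y * f V - c * g V) ^ 2 := sq_nonneg _
    have h4 : y / (2 * c) * f V ^ 2 + c / (2 * y) * g V ^ 2 - f V * g V =
        (y * f V - c * g V) ^ 2 / (2 * c * y) := by
      field_simp
      ring
    have h5 : 0 ≤ (y * f V - c * g V) ^ 2 / (2 * c * y) := by positivity
    linarith
  have e1 : ∫ V, (y / (2 * c) * f V ^ 2 + c / (2 * y) * g V ^ 2) ∂μ =
      y / (2 * c) * ∫ V, f V ^ 2 ∂μ + c / (2 * y) * ∫ V, g V ^ 2 ∂μ := by
    rw [integral_add (i1.const_mul _) (i2.const_mul _), integral_const_mul,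
      integral_const_mul]
  have e2 := integral_mono i3 ((i1.const_mul (y / (2 * c))).add (i2.const_mul (c / (2 * y)))) hle
  have e3 : y / (2 * c) * ∫ V, f V ^ 2 ∂μ ≤ y / (2 * c) * c ^ 2 :=
    mul_le_mul_of_nonneg_left h1 (by positivity)
  have e4 : c / (2 * y) * ∫ V, g V ^ 2 ∂μ ≤ c / (2 * y) * y ^ 2 :=
    mul_le_mul_of_nonneg_left h2 (by positivity)
  have e5 : y / (2 * c) * c ^ 2 + c / (2 * y) * y ^ 2 = c * y := by field_simp; ring
  have e6 : ∫ V, f V * g V ∂μ ≤ ∫ V, (y / (2 * c) * f V ^ 2 + c / (2 * y) * g V ^ 2) ∂μ := e2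
  rw [e1] at e6
  linarith

private lemma cs {f g : UG ι → ℝ} (hf : Continuous f) (hg : Continuous g) {c y : ℝ} (hc : 0 < c)
    (hy : 0 < y) (h1 : ∫ V, f V ^ 2 ∂(haarU ι) ≤ c ^ 2) (h2 : ∫ V, g V ^ 2 ∂(haarU ι) ≤ y ^ 2) :
    ∫ V, f V * g V ∂(haarU ι) ≤ c * y :=
  cs_gen (integrable_of_cont (hf.pow 2)) (integrable_of_cont (hg.pow 2))
    (integrable_of_cont (hf.mul hg)) hc hy h1 h2

private lemma cont_word (L : List (Bool × UG ι)) :
    Continuous fun V : UG ι => ‖utr (wd V L)‖ :=
  (continuous_utr.comp (continuous_wd L)).norm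

private lemma geom_le (l : ℕ) : ∑ j ∈ Finset.range l, (4 : ℝ) ^ (j + 1) ≤ 4 ^ (l + 1) - 1 := by
  induction l with
  | zero => norm_num
  | succ l ih =>
    rw [Finset.sum_range_succ]
    have h1 : (1 : ℝ) ≤ 4 ^ (l + 1) := one_le_pow₀ (by norm_num)
    have h2 : (4 : ℝ) ^ (l + 1 + 1) = 4 * 4 ^ (l + 1) := by ring
    linarith

private lemma le_four_pow (l : ℕ) : ((l : ℝ) + 1) ≤ 4 ^ (l + 1) := by
  induction l with
  | zero => norm_num
  | succ l ih =>
    have h1 : (1 : ℝ) ≤ 4 ^ (l + 1) := one_le_pow₀ (by norm_num)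
    have h2 : (4 : ℝ) ^ (l + 1 + 1) = 4 * 4 ^ (l + 1) := by ring
    push_cast
    linarith

private lemma chain_replace {δ : ℝ} {M : List (Bool × UG ι)} {q q' : Bool × UG ι}
    (hq : q.1 = q'.1)
    (h : (M ++ [q]).IsChain (fun p q => p.1 ≠ q.1 → ‖utr p.2‖ ≤ δ)) :
    (M ++ [q']).IsChain (fun p q => p.1 ≠ q.1 → ‖utr p.2‖ ≤ δ) := by
  rw [List.isChain_append] at h ⊢
  refine ⟨h.1, List.isChain_singleton _, ?_⟩
  intro x hx y hy
  have hy' : y = q' := by simpa using hy.symm
  subst hy'
  intro hne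
  exact h.2.2 x hx q (by simp) (by rw [hq]; exact hne)

private lemma free_word_true [Nonempty ι] {δ : ℝ} (hδ : 0 ≤ δ) (X : UG ι)
    (L' : List (Bool × UG ι))
    (hch : ((true, X) :: L').IsChain (fun p q => p.1 ≠ q.1 → ‖utr p.2‖ ≤ δ))
    (ih : ∀ L : List (Bool × UG ι), L.length ≤ L'.length → L ≠ [] →
      L.IsChain (fun p q => p.1 ≠ q.1 → ‖utr p.2‖ ≤ δ) →
      ∫ V, ‖utr (wd V L)‖ ^ 2 ∂(haarU ι) ≤
        (4 ^ L.length * (δ + 1 / (Fintype.card ι : ℝ))) ^ 2) :
    ∫ V, ‖utr (wd V ((true, X) :: L'))‖ ^ 2 ∂(haarU ι) ≤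
      (4 ^ (L'.length + 1) * (δ + 1 / (Fintype.card ι : ℝ))) ^ 2 := by
  have hn : (0 : ℝ) < Fintype.card ι := by exact_mod_cast Fintype.card_pos
  set c0 : ℝ := δ + 1 / (Fintype.card ι : ℝ) with hc0
  have hinv : 0 < 1 / (Fintype.card ι : ℝ) := by positivity
  have hc0pos : 0 < c0 := by positivity
  have hwd : ∀ V : UG ι, wd V ((true, X) :: L') = V * X * wd V L' := by
    intro V
    rw [wd_cons]
    simp
  simp only [hwd]
  set E : ℝ := ∫ V, ‖utr (V * X * wd V L')‖ ^ 2 ∂(haarU ι) with hE
  have hE0 : 0 ≤ E := integral_nonneg fun V => by positivity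
  have hcz : Continuous fun V : UG ι => ‖utr (V * X * wd V L')‖ := by
    have := cont_word ((true, X) :: L')
    simpa only [hwd] using this
  -- bounds for the letters
  have hA : ∀ j : Fin L'.length, ∫ V, ‖utr (X * wl V L' j)‖ ^ 2 ∂(haarU ι) ≤
      (4 ^ ((j : ℕ) + 1) * c0) ^ 2 := by
    intro j
    have hjl : (j : ℕ) < L'.length := j.2
    have htake : L'.take (j + 1) = L'.take j ++ [L'.get j] := by
      rw [List.take_succ_eq_append_getElem hjl]
      rfl
    have hchL' : L'.IsChain (fun p q => p.1 ≠ q.1 → ‖utr p.2‖ ≤ δ) := hch.tail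
    have hch1 : (L'.take j ++ [L'.get j]).IsChain (fun p q => p.1 ≠ q.1 → ‖utr p.2‖ ≤ δ) := by
      rw [← htake]
      exact hchL'.take _
    by_cases hs : (L'.get j).1 = true
    · have h1 : ∀ V : UG ι, utr (X * wl V L' j) = utr (wd V (L'.take j ++ [(true, X)])) := by
        intro V
        unfold wl
        rw [if_pos hs, wd_append, wd_cons, wd_nil, utr_mul_comm]
        simp [mul_assoc]
      simp only [h1]
      have h3 : (L'.take j ++ [(true, X)]).length = (j : ℕ) + 1 := by
        rw [List.length_append, List.length_take, List.length_singleton]; omega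
      have h2 := ih (L'.take j ++ [(true, X)]) (by rw [h3]; omega) (by simp)
        (chain_replace (q' := (true, X)) hs hch1)
      rw [h3] at h2
      exact h2
    · have hsf : (L'.get j).1 = false := by simpa using hs
      have h1 : ∀ V : UG ι, utr (X * wl V L' j) = utr (X * wd V (L'.take j)) := by
        intro V
        unfold wl
        rw [if_neg hs, mul_one]
      simp only [h1]
      rcases Nat.eq_zero_or_pos (j : ℕ) with hj0 | hj0
      · -- first letter
        rw [hj0]
        have h2 : ∀ V : UG ι, utr (X * wd V (L'.take 0)) = utr X := by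
          intro V
          rw [List.take_zero, wd_nil, mul_one]
        simp only [h2]
        have h3 : ‖utr X‖ ≤ δ := by
          have h4 := hch.rel_head? (y := L'.get j) (by
            have : L' ≠ [] := by
              rintro rfl
              simp at hjl
            rw [List.head?_eq_some_head this]
            simp only [Option.mem_def, Option.some.injEq]
            have : L'.get j = L'[0] := by
              rw [List.get_eq_getElem]
              congr 1
            rw [this]
            exact (List.getElem_zero _).symm)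
          exact h4 (by rw [hsf]; simp)
        rw [integral_const, probReal_univ, one_smul, zero_add, pow_one]
        have h5 : ‖utr X‖ ≤ 4 * c0 := by
          rw [hc0]
          linarith
        exact pow_le_pow_left₀ (norm_nonneg _) h5 2
      · have hne : L'.take j ≠ [] := by
          intro h0
          have := congrArg List.length h0
          simp at this
          omega
        obtain ⟨M, q, hM⟩ : ∃ M q, L'.take j = M ++ [q] :=
          ⟨(L'.take j).dropLast, (L'.take j).getLast hne, (List.dropLast_append_getLast hne).symm⟩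
        have hlenM : M.length + 1 = (j : ℕ) := by
          have := congrArg List.length hM
          simp at this
          omega
        have h2 : ∀ V : UG ι, utr (X * wd V (L'.take j)) = utr (wd V (M ++ [(q.1, q.2 * X)])) := by
          intro V
          rw [utr_mul_comm, hM, wd_append, wd_append, wd_cons, wd_cons, wd_nil]
          simp [mul_assoc]
        simp only [h2]
        have hchM : (M ++ [q]).IsChain (fun p q => p.1 ≠ q.1 → ‖utr p.2‖ ≤ δ) := by
          rw [← hM]
          exact hchL'.take _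
        have h4 : (M ++ [(q.1, q.2 * X)]).length = (j : ℕ) := by
          rw [List.length_append, List.length_singleton]; omega
        have h3 := ih (M ++ [(q.1, q.2 * X)]) (by rw [h4]; omega) (by simp)
          (chain_replace (q := q) (q' := (q.1, q.2 * X)) rfl hchM)
        rw [h4] at h3
        refine h3.trans ?_
        have h5 : (4 : ℝ) ^ (j : ℕ) ≤ 4 ^ ((j : ℕ) + 1) :=
          pow_le_pow_right₀ (by norm_num) (by omega)
        gcongr
  have hineq := word_ineq X L'
  rw [← hE] at hineq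
  by_contra hcon
  push Not at hcon
  set T : ℝ := 4 ^ (L'.length + 1) with hT
  have hT0 : 0 < T := by positivity
  set y : ℝ := Real.sqrt E with hy
  have hyE : y ^ 2 = E := Real.sq_sqrt hE0
  have hyT : T * c0 < y := by
    rw [hy]
    exact Real.lt_sqrt_of_sq_lt hcon
  have hy0 : 0 < y := lt_of_le_of_lt (by positivity) hyT
  have hterm : ∀ j : Fin L'.length,
      ∫ V, ‖utr (X * wl V L' j)‖ * ‖utr (V * X * wd V L')‖ ∂(haarU ι) ≤
        4 ^ ((j : ℕ) + 1) * c0 * y := by
    intro j
    refine cs ?_ hcz (by positivity) hy0 (hA j) ?_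
    · have hcw : Continuous fun V : UG ι => wl V L' j := by
        unfold wl
        refine (continuous_wd _).mul ?_
        split_ifs
        · exact continuous_id
        · exact continuous_const
      exact (continuous_utr.comp (continuous_const.mul hcw)).norm
    · rw [hyE]
  have hsum : ∑ j : Fin L'.length,
      ∫ V, ‖utr (X * wl V L' j)‖ * ‖utr (V * X * wd V L')‖ ∂(haarU ι) ≤ (T - 1) * c0 * y := by
    calc _ ≤ ∑ j : Fin L'.length, (4 : ℝ) ^ ((j : ℕ) + 1) * c0 * y :=
          Finset.sum_le_sum fun j _ => hterm j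
      _ = (∑ j ∈ Finset.range L'.length, (4 : ℝ) ^ (j + 1)) * c0 * y := by
          rw [← Finset.sum_mul, ← Finset.sum_mul,
            Fin.sum_univ_eq_sum_range (fun j => (4 : ℝ) ^ (j + 1))]
      _ ≤ _ := by
          have := geom_le L'.length
          gcongr
  have hlast : ((L'.length : ℝ) + 1) / (Fintype.card ι : ℝ) ^ 2 ≤ T * c0 ^ 2 := by
    have h1 : 1 / (Fintype.card ι : ℝ) ≤ c0 := by rw [hc0]; linarith
    have h2 : (1 / (Fintype.card ι : ℝ)) ^ 2 ≤ c0 ^ 2 := pow_le_pow_left₀ hinv.le h1 2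
    calc ((L'.length : ℝ) + 1) / (Fintype.card ι : ℝ) ^ 2
        = ((L'.length : ℝ) + 1) * (1 / (Fintype.card ι : ℝ)) ^ 2 := by
          rw [one_div, inv_pow, div_eq_mul_inv]
      _ ≤ T * c0 ^ 2 := mul_le_mul (le_four_pow _) h2 (by positivity) hT0.le
  have h1 : y ^ 2 ≤ (T - 1) * c0 * y + T * c0 ^ 2 := by
    rw [hyE]
    linarith
  have h2 : c0 * y > T * c0 ^ 2 := by nlinarith
  nlinarith

theorem free_word [Nonempty ι] {δ : ℝ} (hδ : 0 ≤ δ) (L : List (Bool × UG ι)) (hL : L ≠ [])
    (hch : L.IsChain (fun p q => p.1 ≠ q.1 → ‖utr p.2‖ ≤ δ)) :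
    ∫ V, ‖utr (wd V L)‖ ^ 2 ∂(haarU ι) ≤
      (4 ^ L.length * (δ + 1 / (Fintype.card ι : ℝ))) ^ 2 := by
  have key : ∀ l : ℕ, ∀ L : List (Bool × UG ι), L.length = l → L ≠ [] →
      L.IsChain (fun p q => p.1 ≠ q.1 → ‖utr p.2‖ ≤ δ) →
      ∫ V, ‖utr (wd V L)‖ ^ 2 ∂(haarU ι) ≤
        (4 ^ L.length * (δ + 1 / (Fintype.card ι : ℝ))) ^ 2 := by
    intro l
    induction l using Nat.strong_induction_on with
    | _ l ih =>
      intro L hl hne hc
      obtain ⟨⟨s, X⟩, L', rfl⟩ := List.exists_cons_of_ne_nil hne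
      have ih' : ∀ M : List (Bool × UG ι), M.length ≤ L'.length → M ≠ [] →
          M.IsChain (fun p q => p.1 ≠ q.1 → ‖utr p.2‖ ≤ δ) →
          ∫ V, ‖utr (wd V M)‖ ^ 2 ∂(haarU ι) ≤
            (4 ^ M.length * (δ + 1 / (Fintype.card ι : ℝ))) ^ 2 := by
        intro M hM hM1 hM2
        refine ih M.length ?_ M rfl hM1 hM2
        rw [← hl, List.length_cons]
        omega
      rw [List.length_cons]
      cases s with
      | true => exact free_word_true hδ X L' hc ih'
      | false =>
        have h1 : ∫ V, ‖utr (wd V ((false, X) :: L'))‖ ^ 2 ∂(haarU ι) =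
            ∫ V, ‖utr (wd V ((true, X) :: L'.map fun p => (!p.1, p.2)))‖ ^ 2 ∂(haarU ι) := by
          rw [← integral_inv_eq_self (fun V => ‖utr (wd V ((false, X) :: L'))‖ ^ 2) (haarU ι)]
          simp only [wd_inv_left, List.map_cons, Bool.not_false]
        rw [h1]
        have h2 := free_word_true hδ X (L'.map fun p => (!p.1, p.2)) (by
          have h3 : ((true, X) :: L'.map fun p => (!p.1, p.2)) =
              ((false, X) :: L').map fun p : Bool × UG ι => (!p.1, p.2) := by simp
          rw [h3, List.isChain_map]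
          refine hc.imp ?_
          intro a b hab hne
          exact hab (fun h => hne (by simp [h]))) (by
          intro M hM hM1 hM2
          exact ih' M (by simpa using hM) hM1 hM2)
        simpa using h2
  exact key L.length L rfl hL hch

theorem free_word_abs [Nonempty ι] {δ : ℝ} (hδ : 0 ≤ δ) (L : List (Bool × UG ι)) (hL : L ≠ [])
    (hch : L.IsChain (fun p q => p.1 ≠ q.1 → ‖utr p.2‖ ≤ δ)) :
    ∫ V, ‖utr (wd V L)‖ ∂(haarU ι) ≤ 4 ^ L.length * (δ + 1 / (Fintype.card ι : ℝ)) := by
  have hn : (0 : ℝ) < Fintype.card ι := by exact_mod_cast Fintype.card_pos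
  have h := free_word hδ L hL hch
  have hc : 0 < 4 ^ L.length * (δ + 1 / (Fintype.card ι : ℝ)) := by positivity
  have h2 := cs (cont_word L) (continuous_const (y := (1 : ℝ))) hc one_pos h (by simp)
  simpa using h2

private lemma wd_replicate (V : UG ι) (m : ℕ) :
    wd V (List.replicate m (true, (1 : UG ι))) = V ^ m := by
  induction m with
  | zero => simp [wd_nil]
  | succ m ih => rw [List.replicate_succ, wd_cons, ih]; simp [pow_succ']

private lemma chain_replicate (m : ℕ) : (List.replicate m (true, (1 : UG ι))).IsChain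
    (fun p q => p.1 ≠ q.1 → ‖utr p.2‖ ≤ 0) := by
  induction m with
  | zero => simp
  | succ m ih =>
    rw [List.replicate_succ]
    refine ih.cons ?_
    intro y hy hne
    exfalso
    apply hne
    have hm : y ∈ List.replicate m (true, (1 : UG ι)) := List.mem_of_mem_head? hy
    rw [List.eq_of_mem_replicate hm]

private lemma left_inv (Q : UG ι) (f : UG ι → ℝ) :
    ∫ V, f (Q * V) ∂(haarU ι) = ∫ V, f V ∂(haarU ι) :=
  integral_mul_left_eq_self f Q

theorem pow_small_sq [Nonempty ι] (Q : UG ι) {m : ℕ} (hm : 1 ≤ m) :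
    ∫ V, ‖utr ((Q * V) ^ m)‖ ^ 2 ∂(haarU ι) ≤ (4 ^ m / (Fintype.card ι : ℝ)) ^ 2 := by
  rw [left_inv Q (fun V => ‖utr (V ^ m)‖ ^ 2)]
  have h := free_word le_rfl (List.replicate m (true, (1 : UG ι)))
    (by intro h0; have := congrArg List.length h0; simp at this; omega) (chain_replicate m)
  simp only [wd_replicate, List.length_replicate, zero_add] at h
  rw [mul_one_div] at h
  exact h

theorem pow_small [Nonempty ι] (Q : UG ι) {m : ℕ} (hm : 1 ≤ m) :
    ∫ V, ‖utr ((Q * V) ^ m)‖ ∂(haarU ι) ≤ 4 ^ m / (Fintype.card ι : ℝ) := by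
  rw [left_inv Q (fun V => ‖utr (V ^ m)‖)]
  have h := free_word_abs le_rfl (List.replicate m (true, (1 : UG ι)))
    (by intro h0; have := congrArg List.length h0; simp at this; omega) (chain_replicate m)
  simp only [wd_replicate, List.length_replicate, zero_add] at h
  rw [mul_one_div] at h
  exact h

private lemma wd_replicateQ (V Q : UG ι) (m : ℕ) :
    wd V (List.replicate m (true, Q)) = (V * Q) ^ m := by
  induction m with
  | zero => simp [wd_nil]
  | succ m ih => rw [List.replicate_succ, wd_cons, ih]; simp [pow_succ']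

private lemma chain_true {L : List (Bool × UG ι)} (h : ∀ p ∈ L, p.1 = true) :
    L.IsChain (fun p q => p.1 ≠ q.1 → ‖utr p.2‖ ≤ 0) := by
  induction L with
  | nil => simp
  | cons a L ih =>
    refine (ih fun p hp => h p (List.mem_cons_of_mem _ hp)).cons ?_
    intro y hy hne
    exfalso
    apply hne
    rw [h a (by simp), h y (List.mem_cons_of_mem _ (List.mem_of_mem_head? hy))]

/-- `V^p (Q V)^p` is a word of length `2p` with all signs positive. -/
theorem pow_mul_pow_small [Nonempty ι] (Q : UG ι) {p : ℕ} (hp : 1 ≤ p) :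
    ∫ V, ‖utr (V ^ p * (Q * V) ^ p)‖ ∂(haarU ι) ≤ 16 ^ p / (Fintype.card ι : ℝ) := by
  have h1 : ∀ V : UG ι, utr (V ^ p * (Q * V) ^ p) =
      utr (wd V (List.replicate p (true, (1 : UG ι)) ++ List.replicate p (true, Q))) := by
    intro V
    rw [wd_append, wd_replicate, wd_replicateQ]
    have h2 : (Q * V) ^ p = V⁻¹ * (V * Q) ^ p * V := by
      have h3 : Q * V = V⁻¹ * (V * Q) * (V⁻¹)⁻¹ := by group
      rw [h3, conj_pow, inv_inv]
    rw [h2, ← mul_assoc, utr_mul_comm]
    congr 1
    have h4 : V * (V ^ p * (V⁻¹ * (V * Q) ^ p)) = V * V ^ p * V⁻¹ * (V * Q) ^ p := by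
      simp only [mul_assoc]
    rw [h4, ← pow_succ', pow_succ, mul_inv_cancel_right]
  simp only [h1]
  have h := free_word_abs le_rfl (List.replicate p (true, (1 : UG ι)) ++
    List.replicate p (true, Q))
    (by intro h0; have := congrArg List.length h0; simp at this; omega)
    (chain_true (by
      intro q hq
      rw [List.mem_append] at hq
      rcases hq with hq | hq <;> rw [List.eq_of_mem_replicate hq]))
  rw [List.length_append, List.length_replicate, List.length_replicate, zero_add,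
    mul_one_div, ← two_mul, pow_mul] at h
  norm_num at h
  exact h

end Pool.Agent.OGP
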