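import Pool.Agent.OGP.Gibbs
import Pool.Agent.OGP.Free
import Pool.Agent.OGP.Conc2

/-!
# OGP BOOT: entropy bound for the tilt by two moments, tilted means

`Gf p Q l1 l2 A = n² (l1 Re utr (A^p) + l2 Re utr ((Q A)^p))`, `s = |l1| + |l2|`, `n = card ι`.

`ent_Gf_le`: `H := ent G ≤ n² s (2·4^p/n + 10 p² s)`.
Proof.  `∫ G = 0`: `∫ utr (A^p) = 0` and `∫ utr ((Q A)^p) = 0` by invariance under
`A ↦ phU (π/p) A`.  Hence (`log_int_exp_ge`) `H ≤ tE G G ≤ n² s X` with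
`X = max (tE G |utr A^p|) (tE G |utr (QA)^p|)`.  For `β > 0`, `gibbs` with `Z = β |utr A^p|`
(phase invariant, `p`-Lipschitz for `d2`: `d2_pow_le`), `conc` and `pow_small` give
`β tE G |utr A^p| ≤ H + β 4^p/n + (5/2) β² p²/n²`, same for `|utr (QA)^p|`.  So
`X ≤ n² s X / β + 4^p/n + (5/2) β p² / n²`; if `s > 0` take `β = 2 n² s`: `X ≤ X/2 + 4^p/n + 5 s p²`,
`X ≤ 2·4^p/n + 10 p² s`.  (`s = 0`: `G = 0`, `H = 0`.)

`tilt_phase`: for `Z` phase invariant, `L`-Lipschitz, `β = n² (s + 1/n)` in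
`β (tE G Z - ∫ Z) ≤ H + (5/2) β² L²/n²` (`gibbs`, `conc`):
`tE G Z - ∫ Z ≤ s (2·4^p/n + 10 p² s)/(s + 1/n) + (5/2) L² (s + 1/n)` and
`2·4^p/n + 10p² s ≤ (2·4^p + 10 p²)(s + 1/n)`, `s ≤ s + 1/n`.

`tilt_sq`: `Y = |utr A^a|`, `m = ∫ Y ≤ 4^a/n`, `γ = 1/(40 a²)`; `Y² ≤ 2 (Y - m)² + 2 m²`, so by
`conc_sq` (with `2γ`, `L = a`) `log ∫ exp (γ n² Y²) ≤ 2 γ 16^a + log 2 ≤ 16^a + 1`; `gibbs`:
`γ n² tE G Y² ≤ H + 16^a + 1 ≤ n² (2·4^p + 10p²)(s + 1/n)² + 16^a + 1`.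
-/

open Matrix MeasureTheory
namespace Pool.Agent.OGP

variable {ι : Type} [Fintype ι] [DecidableEq ι]

/-- The exponent: a combination of the two moments `Re tr A^p`, `Re tr (QA)^p`. -/
noncomputable def Gf (p : ℕ) (Q : UG ι) (l1 l2 : ℝ) (A : UG ι) : ℝ :=
  (Fintype.card ι : ℝ) ^ 2 * (l1 * (utr (A ^ p)).re + l2 * (utr ((Q * A) ^ p)).re)

lemma continuous_Gf (p : ℕ) (Q : UG ι) (l1 l2 : ℝ) : Continuous (Gf p Q l1 l2) := by
  unfold Gf
  have h1 : Continuous fun A : UG ι => (utr (A ^ p)).re :=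
    Complex.continuous_re.comp (continuous_utr.comp (continuous_pow p))
  have h2 : Continuous fun A : UG ι => (utr ((Q * A) ^ p)).re :=
    Complex.continuous_re.comp (continuous_utr.comp
      ((continuous_const.mul continuous_id).pow p))
  exact continuous_const.mul ((continuous_const.mul h1).add (continuous_const.mul h2))

/-- `A ↦ |utr (A^a)|` is `a`-Lipschitz and phase invariant. -/
lemma abs_pow_lip (a : ℕ) (A B : UG ι) : |‖utr (A ^ a)‖ - ‖utr (B ^ a)‖| ≤ a * d2 A B :=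
  (abs_norm_sub_norm_le _ _).trans ((norm_utr_sub_le _ _).trans (d2_pow_le A B a))

lemma boot_phU_pow (θ : ℝ) (A : UG ι) (a : ℕ) :
    (phU θ * A) ^ a = phU (a * θ) * A ^ a := by
  induction a with
  | zero =>
    rw [pow_zero, pow_zero, Nat.cast_zero, zero_mul, phU_zero, mul_one]
  | succ a ih =>
    have h1 : ((a + 1 : ℕ) : ℝ) * θ = a * θ + θ := by
      push_cast
      ring
    rw [pow_succ, ih, h1, phU_add, pow_succ]
    calc phU (a * θ) * A ^ a * (phU θ * A) = phU (a * θ) * (A ^ a * phU θ) * A := by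
          simp only [mul_assoc]
      _ = phU (a * θ) * (phU θ * A ^ a) * A := by rw [← phU_comm θ (A ^ a)]
      _ = phU (a * θ) * phU θ * (A ^ a * A) := by simp only [mul_assoc]

lemma abs_pow_phase (a : ℕ) : PhaseInv (fun A : UG ι => ‖utr (A ^ a)‖) := by
  intro θ A
  change ‖utr ((phU θ * A) ^ a)‖ = ‖utr (A ^ a)‖
  rw [boot_phU_pow, utr_phU_mul, norm_mul]
  have h1 : Complex.I * ((a * θ : ℝ) : ℂ) = ((a * θ : ℝ) : ℂ) * Complex.I := mul_comm _ _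
  rw [h1, Complex.norm_exp_ofReal_mul_I, one_mul]

lemma boot_Gf_phase {p : ℕ} (hp : 1 ≤ p) (Q : UG ι) (l1 l2 : ℝ) (A : UG ι) :
    Gf p Q l1 l2 (phU (Real.pi / p) * A) = -Gf p Q l1 l2 A := by
  have hp0 : (p : ℝ) ≠ 0 := by
    have : (1 : ℝ) ≤ p := by exact_mod_cast hp
    linarith
  have key : ∀ B : UG ι, (utr ((phU (Real.pi / p) * B) ^ p)).re = -(utr (B ^ p)).re := by
    intro B
    rw [boot_phU_pow, utr_phU_mul, mul_div_cancel₀ _ hp0, mul_comm Complex.I, Complex.exp_pi_mul_I]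
    simp
  have h1 : Q * (phU (Real.pi / p) * A) = phU (Real.pi / p) * (Q * A) := by
    rw [← mul_assoc, ← phU_comm, mul_assoc]
  unfold Gf
  rw [h1, key, key]
  ring

lemma int_Gf_zero {p : ℕ} (hp : 1 ≤ p) (Q : UG ι) (l1 l2 : ℝ) :
    ∫ A, Gf p Q l1 l2 A ∂(haarU ι) = 0 := by
  have h1 := integral_mul_left_eq_self (μ := haarU ι) (Gf p Q l1 l2) (phU (Real.pi / p))
  simp only [boot_Gf_phase hp] at h1
  rw [integral_neg] at h1
  linarith

lemma boot_int {E : Type*} [NormedAddCommGroup E]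
    {f : UG ι → E} (hf : Continuous f) : Integrable f (haarU ι) :=
  hf.integrable_of_hasCompactSupport (HasCompactSupport.of_compactSpace f)

/-- the logarithmic form of the concentration inequality -/
lemma conc_log [Nonempty ι] {F : UG ι → ℝ} {L : ℝ} (hL : 0 ≤ L)
    (hF : ∀ A B, |F A - F B| ≤ L * d2 A B) (hph : PhaseInv F) (lam : ℝ) :
    Real.log (∫ A, Real.exp (lam * F A) ∂(haarU ι)) ≤
      lam * ∫ A, F A ∂(haarU ι) + 5 / 2 * lam ^ 2 * L ^ 2 / (Fintype.card ι : ℝ) ^ 2 := by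
  have hc := continuous_of_lip hF
  have h1 := conc hL hF hph lam
  set m := ∫ A, F A ∂(haarU ι) with hm
  have h2 : ∫ A, Real.exp (lam * F A) ∂(haarU ι) =
      Real.exp (lam * m) * ∫ A, Real.exp (lam * (F A - m)) ∂(haarU ι) := by
    rw [← integral_const_mul]
    refine integral_congr_ae (Filter.Eventually.of_forall fun A => ?_)
    change Real.exp (lam * F A) = Real.exp (lam * m) * Real.exp (lam * (F A - m))
    rw [← Real.exp_add, ← mul_add, add_sub_cancel]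
  have h3 : 0 < ∫ A, Real.exp (lam * F A) ∂(haarU ι) :=
    int_exp_pos (G := fun A => lam * F A) (continuous_const.mul hc)
  have h4 : ∫ A, Real.exp (lam * F A) ∂(haarU ι) ≤
      Real.exp (lam * m + 5 / 2 * lam ^ 2 * L ^ 2 / (Fintype.card ι : ℝ) ^ 2) := by
    rw [h2, Real.exp_add]
    exact mul_le_mul_of_nonneg_left h1 (Real.exp_pos _).le
  have h5 := Real.log_le_log h3 h4
  rwa [Real.log_exp] at h5

lemma boot_cont_B (p : ℕ) (Q : UG ι) : Continuous fun A : UG ι => ‖utr ((Q * A) ^ p)‖ :=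
  (continuous_utr.comp ((continuous_const.mul continuous_id).pow p)).norm

theorem ent_Gf_le [Nonempty ι] {p : ℕ} (hp : 1 ≤ p) (Q : UG ι) (l1 l2 : ℝ) :
    ent (Gf p Q l1 l2) ≤ (Fintype.card ι : ℝ) ^ 2 * (|l1| + |l2|) *
      (2 * 4 ^ p / (Fintype.card ι : ℝ) + 10 * (p : ℝ) ^ 2 * (|l1| + |l2|)) := by
  set n : ℝ := (Fintype.card ι : ℝ) with hn
  have hn0 : 0 < n := by
    rw [hn]
    exact_mod_cast Fintype.card_pos
  set s : ℝ := |l1| + |l2| with hs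
  have hs0 : 0 ≤ s := by positivity
  have hG := continuous_Gf p Q l1 l2
  let W : UG ι → ℝ := fun A => |l1| * ‖utr (A ^ p)‖ + |l2| * ‖utr ((Q * A) ^ p)‖
  have hcA : Continuous fun A : UG ι => ‖utr (A ^ p)‖ :=
    (continuous_utr.comp (continuous_pow p)).norm
  have hcB := boot_cont_B p Q
  have hWc : Continuous W := (continuous_const.mul hcA).add (continuous_const.mul hcB)
  have hWl : ∀ A B, |W A - W B| ≤ s * p * d2 A B := by
    intro A B
    have h1 := abs_pow_lip p A B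
    have h2 := abs_pow_lip p (Q * A) (Q * B)
    rw [d2_mul_left] at h2
    have h3 : W A - W B = |l1| * (‖utr (A ^ p)‖ - ‖utr (B ^ p)‖) +
        |l2| * (‖utr ((Q * A) ^ p)‖ - ‖utr ((Q * B) ^ p)‖) := by
      change |l1| * ‖utr (A ^ p)‖ + |l2| * ‖utr ((Q * A) ^ p)‖ -
        (|l1| * ‖utr (B ^ p)‖ + |l2| * ‖utr ((Q * B) ^ p)‖) = _
      ring
    rw [h3]
    refine (abs_add_le _ _).trans ?_
    rw [abs_mul, abs_mul, abs_abs, abs_abs, hs, add_mul, add_mul, mul_assoc, mul_assoc]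
    exact add_le_add (mul_le_mul_of_nonneg_left h1 (abs_nonneg _))
      (mul_le_mul_of_nonneg_left h2 (abs_nonneg _))
  have hWp : PhaseInv W := by
    intro θ A
    have h1 : Q * (phU θ * A) = phU θ * (Q * A) := by
      rw [← mul_assoc, ← phU_comm, mul_assoc]
    change |l1| * ‖utr ((phU θ * A) ^ p)‖ + |l2| * ‖utr ((Q * (phU θ * A)) ^ p)‖ =
      |l1| * ‖utr (A ^ p)‖ + |l2| * ‖utr ((Q * A) ^ p)‖
    rw [h1]
    have h2 : ‖utr ((phU θ * A) ^ p)‖ = ‖utr (A ^ p)‖ := abs_pow_phase p θ A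
    have h3 : ‖utr ((phU θ * (Q * A)) ^ p)‖ = ‖utr ((Q * A) ^ p)‖ := abs_pow_phase p θ (Q * A)
    rw [h2, h3]
  have hWm : ∫ A, W A ∂(haarU ι) ≤ s * (4 ^ p / n) := by
    change ∫ A, |l1| * ‖utr (A ^ p)‖ + |l2| * ‖utr ((Q * A) ^ p)‖ ∂(haarU ι) ≤ _
    have hc1 : Continuous fun A : UG ι => |l1| * ‖utr (A ^ p)‖ := continuous_const.mul hcA
    have hc2 : Continuous fun A : UG ι => |l2| * ‖utr ((Q * A) ^ p)‖ := continuous_const.mul hcB
    rw [integral_add (boot_int hc1) (boot_int hc2),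
      integral_const_mul, integral_const_mul, hs, add_mul]
    have h1 := pow_small (1 : UG ι) hp
    simp only [one_mul] at h1
    exact add_le_add (mul_le_mul_of_nonneg_left h1 (abs_nonneg _))
      (mul_le_mul_of_nonneg_left (pow_small Q hp) (abs_nonneg _))
  have h1 : ent (Gf p Q l1 l2) ≤ tE (Gf p Q l1 l2) (Gf p Q l1 l2) := by
    unfold ent
    have h2 := log_int_exp_ge hG
    rw [int_Gf_zero hp] at h2
    linarith
  have h2 : tE (Gf p Q l1 l2) (Gf p Q l1 l2) ≤ n ^ 2 * tE (Gf p Q l1 l2) W := by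
    rw [← tE_mul]
    refine tE_mono hG hG (continuous_const.mul hWc) fun A => ?_
    change n ^ 2 * (l1 * (utr (A ^ p)).re + l2 * (utr ((Q * A) ^ p)).re) ≤
      n ^ 2 * (|l1| * ‖utr (A ^ p)‖ + |l2| * ‖utr ((Q * A) ^ p)‖)
    refine mul_le_mul_of_nonneg_left ?_ (by positivity)
    have h3 : ∀ (l : ℝ) (z : ℂ), l * z.re ≤ |l| * ‖z‖ := by
      intro l z
      calc l * z.re ≤ |l * z.re| := le_abs_self _
        _ = |l| * |z.re| := abs_mul _ _
        _ ≤ |l| * ‖z‖ := mul_le_mul_of_nonneg_left (Complex.abs_re_le_norm z) (abs_nonneg _)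
    exact add_le_add (h3 _ _) (h3 _ _)
  have h3 := gibbs (Z := fun A => 2 * n ^ 2 * W A) hG (continuous_const.mul hWc)
  rw [tE_mul] at h3
  have h4 := conc_log (L := s * p) (by positivity) hWl hWp (2 * n ^ 2)
  have h5 : 5 / 2 * (2 * n ^ 2) ^ 2 * (s * p) ^ 2 / n ^ 2 = 10 * n ^ 2 * (s * p) ^ 2 := by
    field_simp
    ring
  rw [h5] at h4
  have h6 : 2 * n ^ 2 * ∫ A, W A ∂(haarU ι) ≤ 2 * n ^ 2 * (s * (4 ^ p / n)) :=
    mul_le_mul_of_nonneg_left hWm (by positivity)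
  have h7 : n ^ 2 * s * (2 * 4 ^ p / n + 10 * (p : ℝ) ^ 2 * s) =
      2 * n ^ 2 * (s * (4 ^ p / n)) + 10 * n ^ 2 * (s * p) ^ 2 := by
    ring
  rw [h7]
  linarith

theorem tilt_phase [Nonempty ι] {p : ℕ} (hp : 1 ≤ p) (Q : UG ι) (l1 l2 : ℝ) {Z : UG ι → ℝ}
    {L : ℝ} (hL : 0 ≤ L) (hZ : ∀ A B, |Z A - Z B| ≤ L * d2 A B) (hph : PhaseInv Z) :
    tE (Gf p Q l1 l2) Z ≤ ∫ A, Z A ∂(haarU ι) +
      (2 * 4 ^ p + 10 * (p : ℝ) ^ 2 + 5 / 2 * L ^ 2) *
        (|l1| + |l2| + 1 / (Fintype.card ι : ℝ)) := by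
  have hent := ent_Gf_le hp Q l1 l2
  set n : ℝ := (Fintype.card ι : ℝ) with hn
  have hn0 : 0 < n := by
    rw [hn]
    exact_mod_cast Fintype.card_pos
  set s : ℝ := |l1| + |l2| with hs
  have hs0 : 0 ≤ s := by positivity
  set w : ℝ := s + 1 / n with hw
  have hni : 0 < 1 / n := by positivity
  have hw0 : 0 < w := by positivity
  have hG := continuous_Gf p Q l1 l2
  have h3 := gibbs (Z := fun A => n ^ 2 * w * Z A) hG
    (continuous_const.mul (continuous_of_lip hZ))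
  rw [tE_mul] at h3
  have h4 := conc_log hL hZ hph (n ^ 2 * w)
  rw [← hn] at h4
  have h5 : 5 / 2 * (n ^ 2 * w) ^ 2 * L ^ 2 / n ^ 2 = n ^ 2 * w * (5 / 2 * L ^ 2 * w) := by
    field_simp
  rw [h5] at h4
  have h6 : n ^ 2 * s * (2 * 4 ^ p / n + 10 * (p : ℝ) ^ 2 * s) ≤
      n ^ 2 * w * ((2 * 4 ^ p + 10 * (p : ℝ) ^ 2) * w) := by
    have h7 : s ≤ w := by linarith
    have h8 : 2 * 4 ^ p / n + 10 * (p : ℝ) ^ 2 * s ≤ (2 * 4 ^ p + 10 * (p : ℝ) ^ 2) * w := by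
      have h9 : (2 : ℝ) * 4 ^ p / n = 2 * 4 ^ p * (1 / n) := by ring
      have h10 : 1 / n ≤ w := by linarith
      rw [h9, add_mul]
      exact add_le_add (mul_le_mul_of_nonneg_left h10 (by positivity))
        (mul_le_mul_of_nonneg_left h7 (by positivity))
    exact mul_le_mul (mul_le_mul_of_nonneg_left h7 (by positivity)) h8 (by positivity)
      (by positivity)
  have h7 : n ^ 2 * w * tE (Gf p Q l1 l2) Z ≤ n ^ 2 * w * (∫ A, Z A ∂(haarU ι) +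
      (2 * 4 ^ p + 10 * (p : ℝ) ^ 2 + 5 / 2 * L ^ 2) * w) := by
    linarith [h3, h4, h6, hent, show n ^ 2 * w * (∫ A, Z A ∂(haarU ι) +
      (2 * 4 ^ p + 10 * (p : ℝ) ^ 2 + 5 / 2 * L ^ 2) * w) = n ^ 2 * w * ∫ A, Z A ∂(haarU ι) +
      n ^ 2 * w * ((2 * 4 ^ p + 10 * (p : ℝ) ^ 2) * w) + n ^ 2 * w * (5 / 2 * L ^ 2 * w) by ring]
  exact le_of_mul_le_mul_left h7 (by positivity)

theorem tilt_sq [Nonempty ι] {p : ℕ} (hp : 1 ≤ p) (Q : UG ι) (l1 l2 : ℝ) {a : ℕ} (ha : 1 ≤ a) :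
    tE (Gf p Q l1 l2) (fun A => ‖utr (A ^ a)‖ ^ 2) ≤
      40 * (a : ℝ) ^ 2 * (2 * 4 ^ p + 10 * (p : ℝ) ^ 2 + 16 ^ a + 1) *
        (|l1| + |l2| + 1 / (Fintype.card ι : ℝ)) ^ 2 := by
  have hent := ent_Gf_le hp Q l1 l2
  have ha1 : (1 : ℝ) ≤ a := by exact_mod_cast ha
  have ha0 : (0 : ℝ) < a := by linarith
  set n : ℝ := (Fintype.card ι : ℝ) with hn
  have hn0 : 0 < n := by
    rw [hn]
    exact_mod_cast Fintype.card_pos
  set s : ℝ := |l1| + |l2| with hs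
  have hs0 : 0 ≤ s := by positivity
  set w : ℝ := s + 1 / n with hw
  have hni : 0 < 1 / n := by positivity
  have hw0 : 0 < w := by positivity
  have hG := continuous_Gf p Q l1 l2
  have hYc : Continuous fun A : UG ι => ‖utr (A ^ a)‖ :=
    (continuous_utr.comp (continuous_pow a)).norm
  set m : ℝ := ∫ A, ‖utr (A ^ a)‖ ∂(haarU ι) with hm
  have hm0 : 0 ≤ m := integral_nonneg fun A => norm_nonneg _
  have hm1 : m ≤ 4 ^ a / n := by
    have h1 := pow_small (1 : UG ι) ha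
    simp only [one_mul] at h1
    exact h1
  set γ : ℝ := 1 / (40 * (a : ℝ) ^ 2) with hγ
  have hγ0 : 0 < γ := by positivity
  have hγa : 20 * (2 * γ) * (a : ℝ) ^ 2 = 1 := by
    rw [hγ]
    field_simp
    norm_num
  have hγ1 : 2 * γ ≤ 1 := by
    have h1 : (1 : ℝ) ≤ (a : ℝ) ^ 2 := one_le_pow₀ ha1
    nlinarith
  have hsq := conc_sq (F := fun A : UG ι => ‖utr (A ^ a)‖) (L := a) (γ := 2 * γ) ha0.le
    (abs_pow_lip a) (abs_pow_phase a) (by positivity) hγa.le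
  rw [← hn, ← hm] at hsq
  -- exponential moment
  have hexp : ∫ A, Real.exp (γ * n ^ 2 * ‖utr (A ^ a)‖ ^ 2) ∂(haarU ι) ≤
      Real.exp (16 ^ a) * 2 := by
    have h1 : ∀ A : UG ι, Real.exp (γ * n ^ 2 * ‖utr (A ^ a)‖ ^ 2) ≤
        Real.exp (16 ^ a) * Real.exp (2 * γ * n ^ 2 * (‖utr (A ^ a)‖ - m) ^ 2) := by
      intro A
      rw [← Real.exp_add]
      refine Real.exp_le_exp.2 ?_
      have h2 : ‖utr (A ^ a)‖ ^ 2 ≤ 2 * (‖utr (A ^ a)‖ - m) ^ 2 + 2 * m ^ 2 := by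
        nlinarith [sq_nonneg (‖utr (A ^ a)‖ - 2 * m)]
      have h3 : n ^ 2 * m ^ 2 ≤ 16 ^ a := by
        have h4 : n * m ≤ 4 ^ a := by
          have := (le_div_iff₀ hn0).1 hm1
          linarith
        have h5 : (n * m) ^ 2 ≤ (4 ^ a) ^ 2 := pow_le_pow_left₀ (by positivity) h4 2
        have h6 : ((4 : ℝ) ^ a) ^ 2 = 16 ^ a := by
          rw [← pow_mul, mul_comm, pow_mul]
          norm_num
        rw [h6, mul_pow] at h5
        exact h5
      have h4 : γ * n ^ 2 * ‖utr (A ^ a)‖ ^ 2 ≤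
          γ * n ^ 2 * (2 * (‖utr (A ^ a)‖ - m) ^ 2 + 2 * m ^ 2) :=
        mul_le_mul_of_nonneg_left h2 (by positivity)
      have h5 : 2 * γ * (n ^ 2 * m ^ 2) ≤ 1 * 16 ^ a :=
        mul_le_mul hγ1 h3 (by positivity) zero_le_one
      linarith
    have hc1 : Continuous fun A : UG ι => Real.exp (γ * n ^ 2 * ‖utr (A ^ a)‖ ^ 2) :=
      Real.continuous_exp.comp (continuous_const.mul (hYc.pow 2))
    have hc2 : Continuous fun A : UG ι => Real.exp (16 ^ a) *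
        Real.exp (2 * γ * n ^ 2 * (‖utr (A ^ a)‖ - m) ^ 2) :=
      continuous_const.mul (Real.continuous_exp.comp (continuous_const.mul
        ((hYc.sub continuous_const).pow 2)))
    refine (integral_mono (boot_int hc1) (boot_int hc2) h1).trans ?_
    rw [integral_const_mul]
    exact mul_le_mul_of_nonneg_left hsq (Real.exp_pos _).le
  have hlog : Real.log (∫ A, Real.exp (γ * n ^ 2 * ‖utr (A ^ a)‖ ^ 2) ∂(haarU ι)) ≤
      16 ^ a + 1 := by
    have h1 : 0 < ∫ A, Real.exp (γ * n ^ 2 * ‖utr (A ^ a)‖ ^ 2) ∂(haarU ι) :=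
      int_exp_pos (G := fun A : UG ι => γ * n ^ 2 * ‖utr (A ^ a)‖ ^ 2)
        (continuous_const.mul (hYc.pow 2))
    refine (Real.log_le_log h1 hexp).trans ?_
    rw [Real.log_mul (Real.exp_pos _).ne' two_ne_zero, Real.log_exp]
    have := Real.log_two_lt_d9
    linarith
  have h3 := gibbs (Z := fun A => γ * n ^ 2 * ‖utr (A ^ a)‖ ^ 2) hG
    (continuous_const.mul (hYc.pow 2))
  rw [tE_mul] at h3
  have hnw : 1 ≤ n * w := by
    have : n * (1 / n) = 1 := mul_one_div_cancel hn0.ne'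
    have h4 : n * (1 / n) ≤ n * w := mul_le_mul_of_nonneg_left (by linarith) hn0.le
    linarith
  have hnw2 : 1 ≤ n ^ 2 * w ^ 2 := by
    have := one_le_pow₀ (n := 2) hnw
    rwa [mul_pow] at this
  have h6 : n ^ 2 * s * (2 * 4 ^ p / n + 10 * (p : ℝ) ^ 2 * s) ≤
      n ^ 2 * w * ((2 * 4 ^ p + 10 * (p : ℝ) ^ 2) * w) := by
    have h7 : s ≤ w := by linarith
    have h8 : 2 * 4 ^ p / n + 10 * (p : ℝ) ^ 2 * s ≤ (2 * 4 ^ p + 10 * (p : ℝ) ^ 2) * w := by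
      have h9 : (2 : ℝ) * 4 ^ p / n = 2 * 4 ^ p * (1 / n) := by ring
      have h10 : 1 / n ≤ w := by linarith
      rw [h9, add_mul]
      exact add_le_add (mul_le_mul_of_nonneg_left h10 (by positivity))
        (mul_le_mul_of_nonneg_left h7 (by positivity))
    exact mul_le_mul (mul_le_mul_of_nonneg_left h7 (by positivity)) h8 (by positivity)
      (by positivity)
  have h7 : (16 : ℝ) ^ a + 1 ≤ (16 ^ a + 1) * (n ^ 2 * w ^ 2) :=
    le_mul_of_one_le_right (by positivity) hnw2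
  have h8 : γ * n ^ 2 * tE (Gf p Q l1 l2) (fun A => ‖utr (A ^ a)‖ ^ 2) ≤
      γ * n ^ 2 * (40 * (a : ℝ) ^ 2 * (2 * 4 ^ p + 10 * (p : ℝ) ^ 2 + 16 ^ a + 1) * w ^ 2) := by
    have h9 : γ * n ^ 2 * (40 * (a : ℝ) ^ 2 * (2 * 4 ^ p + 10 * (p : ℝ) ^ 2 + 16 ^ a + 1) *
        w ^ 2) = n ^ 2 * w * ((2 * 4 ^ p + 10 * (p : ℝ) ^ 2) * w) +
        (16 ^ a + 1) * (n ^ 2 * w ^ 2) := by
      have h10 : γ * (40 * (a : ℝ) ^ 2) = 1 := by
        rw [hγ]
        field_simp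
      linear_combination (n ^ 2 * (2 * 4 ^ p + 10 * (p : ℝ) ^ 2 + 16 ^ a + 1) * w ^ 2) * h10
    rw [h9]
    linarith
  exact le_of_mul_le_mul_left h8 (by positivity)

end Pool.Agent.OGP
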