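import Pool.Agent.OGP.Norms
import Pool.Agent.Helper62.Disc.Gauss

/-!
# OGP GUE: the Gaussian Hermitian matrix

`gam (ι × ι × Bool)` is the standard Gaussian measure on `ι × ι × Bool → ℝ`
(`Pool/Agent/Helper62/Disc/Gauss.lean`).  With `Z_{ab} = (g_{ab0} + i g_{ab1}) / √2`,
`gH g = (Z + Z*) / √2`, i.e. `(gH g)_{ab} = (g_{ab0} + g_{ba0} + i (g_{ab1} - g_{ba1})) / 2`.

* `hs_gH_sq_le`: `hs (gH g) ≤ (hs Z + hs Z*) / √2 = √2 hs Z`, and `hs Z ^ 2 = (∑ g²) / 2`.
* `gH_conj`: `Z ↦ U Z U*` is a real linear isometry of the matrix space, hence the induced map `T` on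
  `ι × ι × Bool → ℝ` is a linear isometry for the Euclidean norm and preserves `gam` (`map_gam`,
  `map_gam_ofLp` and the invariance of `stdGaussian` under linear isometries; or characteristic
  functions); `gH (T g) = U gH(g) U*` because `(U Z U*)* = U Z* U*`.
* `gH_cov`: `E[H_{ab} H_{cd}] = δ_{ad} δ_{bc}`: expand, the `g`'s are independent standard Gaussians
  (`E[g_x g_y] = δ_{xy}`).  This gives `E[(H X - X H)...]` in `gH_comm`: for Hermitian `X`, `H`,
  `hs (H X - X H) ^ 2 = Tr ((H X - X H)* (H X - X H)) = Tr (X H H X) - Tr (X H X H) - Tr (H X H X)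
   + Tr (H X X H)`, with expectation `n hs X² - |Tr X|² - |Tr X|² + n hs X²` since
  `E[H X H] = Tr (X) 1`.
* `integrable_gH_pow`: all powers of `∑ g²` are `gam`-integrable (dominate by `exp (‖g‖)`, see
  `integrable_exp_lip`; or by products of one dimensional moments).
-/

open Matrix MeasureTheory
open Pool.Agent.Helper62.Disc
namespace Pool.Agent.OGP

variable {ι : Type} [Fintype ι] [DecidableEq ι]

/-- The Hermitian matrix built on a real vector. -/
noncomputable def gH (g : ι × ι × Bool → ℝ) : Matrix ι ι ℂ :=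
  Matrix.of fun a b => (((g (a, b, false) + g (b, a, false) : ℝ) : ℂ) +
    Complex.I * ((g (a, b, true) - g (b, a, true) : ℝ) : ℂ)) / 2

omit [Fintype ι] [DecidableEq ι] in
lemma gH_isHermitian (g : ι × ι × Bool → ℝ) : (gH g).IsHermitian := by
  ext a b
  simp only [gH, conjTranspose_apply, of_apply, star_div₀, star_add, star_mul', Complex.star_def,
    Complex.conj_ofReal, Complex.conj_I, map_ofNat]
  push_cast
  ring

omit [Fintype ι] [DecidableEq ι] in
lemma gH_sub (g g' : ι × ι × Bool → ℝ) : gH g - gH g' = gH (g - g') := by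
  ext a b
  simp only [gH, Matrix.sub_apply, of_apply, Pi.sub_apply]
  push_cast
  ring

omit [Fintype ι] [DecidableEq ι] in
lemma gH_add (g g' : ι × ι × Bool → ℝ) : gH g + gH g' = gH (g + g') := by
  ext a b
  simp only [gH, Matrix.add_apply, of_apply, Pi.add_apply]
  push_cast
  ring

omit [Fintype ι] [DecidableEq ι] in
lemma gH_smul (c : ℝ) (g : ι × ι × Bool → ℝ) : (c : ℂ) • gH g = gH (c • g) := by
  ext a b
  simp only [gH, Matrix.smul_apply, of_apply, Pi.smul_apply, smul_eq_mul]
  push_cast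
  ring

omit [Fintype ι] [DecidableEq ι] in
lemma continuous_gH : Continuous (gH : (ι × ι × Bool → ℝ) → Matrix ι ι ℂ) := by
  refine continuous_matrix fun a b => ?_
  simp only [gH, of_apply]
  fun_prop

lemma gue_sum (f : ι × ι × Bool → ℝ) :
    ∑ x, f x = ∑ a, ∑ b, (f (a, b, false) + f (a, b, true)) := by
  rw [Fintype.sum_prod_type]
  refine Finset.sum_congr rfl fun a _ => ?_
  rw [Fintype.sum_prod_type]
  refine Finset.sum_congr rfl fun b _ => ?_
  rw [Fintype.sum_bool, add_comm]

omit [Fintype ι] [DecidableEq ι] in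
lemma norm_gH_sq (g : ι × ι × Bool → ℝ) (a b : ι) : ‖gH g a b‖ ^ 2 =
    ((g (a, b, false) + g (b, a, false)) ^ 2 + (g (a, b, true) - g (b, a, true)) ^ 2) / 4 := by
  rw [← Complex.normSq_eq_norm_sq, Complex.normSq_apply]
  simp only [gH, of_apply, Complex.div_ofNat_re, Complex.div_ofNat_im, Complex.add_re,
    Complex.add_im, Complex.ofReal_re, Complex.ofReal_im, Complex.mul_re, Complex.mul_im,
    Complex.I_re, Complex.I_im]
  ring

lemma hs_gH_sq_le (g : ι × ι × Bool → ℝ) : hs (gH g) ^ 2 ≤ ∑ x, g x ^ 2 := by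
  rw [hs_sq, gue_sum]
  have h1 : ∑ a, ∑ b, (g (a, b, false) ^ 2 + g (a, b, true) ^ 2) =
      ∑ a, ∑ b, ((g (a, b, false) ^ 2 + g (a, b, true) ^ 2) / 2 +
        (g (b, a, false) ^ 2 + g (b, a, true) ^ 2) / 2) := by
    have h2 : ∑ a, ∑ b, (g (b, a, false) ^ 2 + g (b, a, true) ^ 2) / 2 =
        ∑ a, ∑ b, (g (a, b, false) ^ 2 + g (a, b, true) ^ 2) / 2 := Finset.sum_comm
    simp only [Finset.sum_add_distrib] at h2 ⊢
    simp only [← Finset.sum_div, ← Finset.sum_add_distrib] at h2 ⊢
    linarith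
  rw [h1]
  refine Finset.sum_le_sum fun a _ => Finset.sum_le_sum fun b _ => ?_
  rw [norm_gH_sq]
  nlinarith [sq_nonneg (g (a, b, false) - g (b, a, false)),
    sq_nonneg (g (a, b, true) + g (b, a, true))]

/-- The matrix of independent entries. -/
noncomputable def gZ (g : ι × ι × Bool → ℝ) : Matrix ι ι ℂ :=
  Matrix.of fun a b => (g (a, b, false) : ℂ) + Complex.I * (g (a, b, true) : ℂ)

omit [Fintype ι] [DecidableEq ι] in
lemma gH_eq_gZ (g : ι × ι × Bool → ℝ) : gH g = (1 / 2 : ℂ) • (gZ g + (gZ g)ᴴ) := by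
  ext a b
  simp only [gH, gZ, of_apply, Matrix.smul_apply, Matrix.add_apply, conjTranspose_apply, star_add,
    star_mul', Complex.star_def, Complex.conj_ofReal, Complex.conj_I, smul_eq_mul]
  push_cast
  ring

lemma hs_gZ_sq (g : ι × ι × Bool → ℝ) : hs (gZ g) ^ 2 = ∑ x, g x ^ 2 := by
  rw [hs_sq, gue_sum]
  refine Finset.sum_congr rfl fun a _ => Finset.sum_congr rfl fun b _ => ?_
  rw [← Complex.normSq_eq_norm_sq, Complex.normSq_apply]
  simp only [gZ, of_apply, Complex.add_re,
    Complex.add_im, Complex.ofReal_re, Complex.ofReal_im, Complex.mul_re, Complex.mul_im,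
    Complex.I_re, Complex.I_im]
  ring

/-- The real vector of a matrix. -/
def gR (M : Matrix ι ι ℂ) (x : ι × ι × Bool) : ℝ :=
  if x.2.2 then (M x.1 x.2.1).im else (M x.1 x.2.1).re

omit [Fintype ι] [DecidableEq ι] in
lemma gZ_gR (M : Matrix ι ι ℂ) : gZ (gR M) = M := by
  ext a b
  simp only [gZ, gR, of_apply, if_true, Bool.false_eq_true, if_false]
  rw [mul_comm, Complex.re_add_im]

/-- Conjugation by a unitary on the real vectors, as a linear map of the Euclidean space. -/
noncomputable def gT (U : UG ι) :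
    EuclideanSpace ℝ (ι × ι × Bool) →ₗᵢ[ℝ] EuclideanSpace ℝ (ι × ι × Bool) where
  toFun v := WithLp.toLp 2 (gR ((U : Matrix ι ι ℂ) * gZ v.ofLp * (U : Matrix ι ι ℂ)ᴴ))
  map_add' v w := by
    have h1 : gZ (v + w).ofLp = gZ v.ofLp + gZ w.ofLp := by
      ext a b
      simp only [gZ, of_apply, Matrix.add_apply, PiLp.add_apply, WithLp.ofLp_add, Pi.add_apply]
      push_cast
      ring
    rw [h1, mul_add, add_mul]
    ext x
    simp only [gR, Matrix.add_apply, Complex.add_im, Complex.add_re, PiLp.add_apply]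
    split_ifs <;> rfl
  map_smul' c v := by
    have h1 : gZ (c • v).ofLp = (c : ℂ) • gZ v.ofLp := by
      ext a b
      simp only [gZ, of_apply, Matrix.smul_apply, WithLp.ofLp_smul, Pi.smul_apply, smul_eq_mul]
      push_cast
      ring
    rw [h1, mul_smul_comm, smul_mul_assoc]
    ext x
    simp only [gR, Matrix.smul_apply, smul_eq_mul, PiLp.smul_apply, RingHom.id_apply,
      Complex.re_ofReal_mul, Complex.im_ofReal_mul]
    split_ifs <;> rfl
  norm_map' v := by
    simp only [LinearMap.coe_mk, AddHom.coe_mk]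
    have h1 : ‖(WithLp.toLp 2 (gR ((U : Matrix ι ι ℂ) * gZ v.ofLp * (U : Matrix ι ι ℂ)ᴴ)) :
        EuclideanSpace ℝ (ι × ι × Bool))‖ ^ 2 = ‖v‖ ^ 2 := by
      rw [EuclideanSpace.norm_sq_eq, EuclideanSpace.norm_sq_eq]
      simp only [Real.norm_eq_abs, sq_abs]
      rw [← hs_gZ_sq, ← hs_gZ_sq, gZ_gR]
      have h2 : (U : Matrix ι ι ℂ)ᴴ = ((U⁻¹ : UG ι) : Matrix ι ι ℂ) := rfl
      rw [h2, hs_mul_unitary, hs_unitary_mul]
    exact (sq_eq_sq₀ (norm_nonneg _) (norm_nonneg _)).1 h1

theorem gH_conj (U : UG ι) : ∃ T : (ι × ι × Bool → ℝ) → (ι × ι × Bool → ℝ),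
    Continuous T ∧ MeasurePreserving T (gam (ι × ι × Bool)) (gam (ι × ι × Bool)) ∧
      ∀ g, gH (T g) = (U : Matrix ι ι ℂ) * gH g * (U : Matrix ι ι ℂ)ᴴ := by
  set f : EuclideanSpace ℝ (ι × ι × Bool) ≃ₗᵢ[ℝ] EuclideanSpace ℝ (ι × ι × Bool) :=
    (gT U).toLinearIsometryEquiv rfl with hf
  have hfv : ∀ v, f v = gT U v := fun v => rfl
  refine ⟨fun g => (f (WithLp.toLp 2 g)).ofLp, ?_, ⟨?_, ?_⟩, fun g => ?_⟩
  · exact (PiLp.continuous_ofLp 2 _).comp (f.continuous.comp (PiLp.continuous_toLp 2 _))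
  · exact ((PiLp.continuous_ofLp 2 _).comp
      (f.continuous.comp (PiLp.continuous_toLp 2 _))).measurable
  · have h1 : (fun g : ι × ι × Bool → ℝ => (f (WithLp.toLp 2 g)).ofLp) =
        (fun v : EuclideanSpace ℝ (ι × ι × Bool) => v.ofLp) ∘ f ∘ (WithLp.toLp 2) := rfl
    rw [h1, ← Measure.map_map (by fun_prop) (f.continuous.measurable.comp (by fun_prop)),
      ← Measure.map_map f.continuous.measurable (by fun_prop), map_gam,
      ProbabilityTheory.stdGaussian_map f, map_gam_ofLp]
  · have h1 : gZ (f (WithLp.toLp 2 g)).ofLp = (U : Matrix ι ι ℂ) * gZ g * (U : Matrix ι ι ℂ)ᴴ := by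
      rw [hfv]
      exact gZ_gR _
    rw [gH_eq_gZ, h1, gH_eq_gZ]
    simp only [conjTranspose_mul, conjTranspose_conjTranspose, mul_smul_comm, smul_mul_assoc,
      mul_add, add_mul, mul_assoc]

lemma integrable_gH_pow (k : ℕ) :
    Integrable (fun g : ι × ι × Bool → ℝ => (∑ x, g x ^ 2) ^ k) (gam (ι × ι × Bool)) := by
  have hc : Continuous fun g : ι × ι × Bool → ℝ => (∑ x, g x ^ 2) ^ k := by fun_prop
  rw [← map_gam_ofLp, integrable_map_measure hc.aestronglyMeasurable (by fun_prop)]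
  have h0 := integrable_exp_norm (V := EuclideanSpace ℝ (ι × ι × Bool)) 1
  refine (h0.const_mul ((2 * k).factorial : ℝ)).mono' (by fun_prop) ?_
  refine Filter.Eventually.of_forall fun v => ?_
  simp only [Function.comp_apply]
  have h1 : ∑ x, v.ofLp x ^ 2 = ‖v‖ ^ 2 := by
    rw [EuclideanSpace.norm_sq_eq]
    simp only [Real.norm_eq_abs, sq_abs]
  rw [h1, Real.norm_eq_abs, abs_of_nonneg (by positivity), ← pow_mul, one_mul]
  have h2 := Real.pow_div_factorial_le_exp (‖v‖) (norm_nonneg v) (2 * k)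
  rw [div_le_iff₀ (by positivity)] at h2
  linarith

open Classical in
lemma gam_mul {κ : Type*} [Fintype κ] (x y : κ) :
    Integrable (fun g : κ → ℝ => g x * g y) (gam κ) ∧
      ∫ g : κ → ℝ, g x * g y ∂(gam κ) = if x = y then 1 else 0 := by
  have hm : ∀ z : κ, MeasurePreserving (Function.eval z : (κ → ℝ) → ℝ) (gam κ)
      (ProbabilityTheory.gaussianReal 0 1) := fun z => by
    unfold gam
    exact measurePreserving_eval _ z
  have h2 : MemLp (fun t : ℝ => t) 2 (ProbabilityTheory.gaussianReal 0 1) :=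
    ProbabilityTheory.memLp_id_gaussianReal 2
  have h1 : ∀ z : κ, MemLp (fun g : κ → ℝ => g z) 2 (gam κ) := fun z =>
    h2.comp_measurePreserving (hm z)
  refine ⟨(h1 x).integrable_mul (h1 y), ?_⟩
  have hint : ∀ (z : κ) (f : ℝ → ℝ), Continuous f →
      ∫ g : κ → ℝ, f (g z) ∂(gam κ) = ∫ t, f t ∂(ProbabilityTheory.gaussianReal 0 1) := by
    intro z f hf
    rw [← (hm z).map_eq, integral_map (hm z).measurable.aemeasurable
      hf.measurable.aestronglyMeasurable]
  have hmean : ∀ z : κ, ∫ g : κ → ℝ, g z ∂(gam κ) = 0 := by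
    intro z
    rw [hint z (fun t => t) continuous_id, ProbabilityTheory.integral_id_gaussianReal]
  by_cases hxy : x = y
  · subst hxy
    rw [if_pos rfl]
    have h3 := hint x (fun t => t * t) (by fun_prop)
    rw [h3]
    have h4 := ProbabilityTheory.variance_fun_id_gaussianReal (μ := 0) (v := 1)
    rw [ProbabilityTheory.variance_eq_integral (by fun_prop)] at h4
    rw [ProbabilityTheory.integral_id_gaussianReal] at h4
    simpa [sq] using h4
  · rw [if_neg hxy]
    have h4 : ProbabilityTheory.iIndepFun (fun (i : κ) (g : κ → ℝ) => g i) (gam κ) := by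
      unfold gam
      exact ProbabilityTheory.iIndepFun_pi (X := fun _ t => t) (fun i => aemeasurable_id)
    have h5 := (h4.indepFun hxy).integral_mul_eq_mul_integral
      (h1 x).aestronglyMeasurable (h1 y).aestronglyMeasurable
    rw [hmean, zero_mul] at h5
    exact h5

section comb

variable {Ω E : Type*} [MeasurableSpace Ω] {μ : Measure Ω}

/-- `f` is integrable with integral `v`. -/
def IE {𝕜 : Type*} [NormedAddCommGroup 𝕜] [NormedSpace ℝ 𝕜] (μ : Measure Ω) (f : Ω → 𝕜) (v : 𝕜) :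
    Prop := Integrable f μ ∧ ∫ x, f x ∂μ = v

variable {𝕜 : Type*} [RCLike 𝕜]

lemma IE.add {f g : Ω → 𝕜} {v w : 𝕜} (hf : IE μ f v) (hg : IE μ g w) :
    IE μ (fun x => f x + g x) (v + w) :=
  ⟨hf.1.add hg.1, by rw [integral_add hf.1 hg.1, hf.2, hg.2]⟩

lemma IE.sub {f g : Ω → 𝕜} {v w : 𝕜} (hf : IE μ f v) (hg : IE μ g w) :
    IE μ (fun x => f x - g x) (v - w) :=
  ⟨hf.1.sub hg.1, by rw [integral_sub hf.1 hg.1, hf.2, hg.2]⟩

lemma IE.const_mul {f : Ω → 𝕜} {v : 𝕜} (hf : IE μ f v) (c : 𝕜) :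
    IE μ (fun x => c * f x) (c * v) :=
  ⟨hf.1.const_mul c, by rw [integral_const_mul, hf.2]⟩

lemma IE.mul_const {f : Ω → 𝕜} {v : 𝕜} (hf : IE μ f v) (c : 𝕜) :
    IE μ (fun x => f x * c) (v * c) :=
  ⟨hf.1.mul_const c, by rw [integral_mul_const, hf.2]⟩

lemma IE.ofReal {f : Ω → ℝ} {v : ℝ} (hf : IE μ f v) :
    IE μ (fun x => (f x : ℂ)) (v : ℂ) :=
  ⟨hf.1.ofReal, (integral_ofReal (𝕜 := ℂ)).trans (by rw [hf.2]; rfl)⟩

lemma IE.sum {κ : Type*} (s : Finset κ) {f : κ → Ω → 𝕜} {v : κ → 𝕜}
    (hf : ∀ i ∈ s, IE μ (f i) (v i)) : IE μ (fun x => ∑ i ∈ s, f i x) (∑ i ∈ s, v i) :=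
  ⟨integrable_finsetSum s fun i hi => (hf i hi).1, by
    rw [integral_finsetSum s fun i hi => (hf i hi).1]
    exact Finset.sum_congr rfl fun i hi => (hf i hi).2⟩

end comb

open Classical in
lemma gam_mul4 {κ : Type*} [Fintype κ] (x y z w : κ) (s t : ℝ) :
    IE (gam κ) (fun g : κ → ℝ => (g x + s * g y) * (g z + t * g w))
        ((if x = z then 1 else 0) + t * (if x = w then 1 else 0) +
          (s * (if y = z then 1 else 0) + s * t * (if y = w then 1 else 0))) := by
  have hh : ∀ x y : κ, IE (gam κ) (fun g => g x * g y) (if x = y then 1 else 0) :=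
    fun x y => gam_mul x y
  have h := (((hh x z).add ((hh x w).const_mul t)).add
    (((hh y z).const_mul s).add ((hh y w).const_mul (s * t))))
  have e : (fun g : κ → ℝ => (g x + s * g y) * (g z + t * g w)) = fun g =>
      (g x * g z + t * (g x * g w)) + (s * (g y * g z) + s * t * (g y * g w)) := by
    funext g; ring
  rw [e]
  exact h

omit [Fintype ι] [DecidableEq ι] in
lemma gH_mul_eq (g : ι × ι × Bool → ℝ) (a b c d : ι) : gH g a b * gH g c d =
    ((((g (a, b, false) + 1 * g (b, a, false)) * (g (c, d, false) + 1 * g (d, c, false)) : ℝ) : ℂ) -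
      (((g (a, b, true) + (-1) * g (b, a, true)) * (g (c, d, true) + (-1) * g (d, c, true)) : ℝ) : ℂ) +
      (Complex.I * (((g (a, b, false) + 1 * g (b, a, false)) *
        (g (c, d, true) + (-1) * g (d, c, true)) : ℝ) : ℂ) +
      Complex.I * (((g (a, b, true) + (-1) * g (b, a, true)) *
        (g (c, d, false) + 1 * g (d, c, false)) : ℝ) : ℂ))) * (1 / 4 : ℂ) := by
  simp only [gH, of_apply]
  push_cast
  linear_combination (1 / 4 : ℂ) * (g (a, b, true) - g (b, a, true)) *
    (g (c, d, true) - g (d, c, true)) * Complex.I_sq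

lemma IE_gH_mul (a b c d : ι) : IE (gam (ι × ι × Bool)) (fun g => gH g a b * gH g c d)
    (if a = d ∧ b = c then 1 else 0) := by
  have h1 := gam_mul4 ((a, b, false) : ι × ι × Bool) (b, a, false) (c, d, false)
    (d, c, false) 1 1
  have h2 := gam_mul4 ((a, b, true) : ι × ι × Bool) (b, a, true) (c, d, true)
    (d, c, true) (-1) (-1)
  have h3 := gam_mul4 ((a, b, false) : ι × ι × Bool) (b, a, false) (c, d, true)
    (d, c, true) 1 (-1)
  have h4 := gam_mul4 ((a, b, true) : ι × ι × Bool) (b, a, true) (c, d, false)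
    (d, c, false) (-1) 1
  have h := ((h1.ofReal.sub h2.ofReal).add ((h3.ofReal.const_mul Complex.I).add
    (h4.ofReal.const_mul Complex.I))).mul_const (1 / 4 : ℂ)
  obtain ⟨hI, hE⟩ := h
  refine ⟨hI.congr (Filter.Eventually.of_forall fun g => (gH_mul_eq g a b c d).symm),
    (integral_congr_ae (Filter.Eventually.of_forall fun g => gH_mul_eq g a b c d)).trans
      (hE.trans ?_)⟩
  simp only [Prod.mk.injEq, Bool.false_eq_true, Bool.true_eq_false, and_false, if_false, and_true]
  by_cases h1 : a = d ∧ b = c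
  · obtain ⟨rfl, rfl⟩ := h1
    by_cases h2 : a = b
    · subst h2; simp; norm_num
    · have h3 : ¬ b = a := fun h => h2 h.symm
      simp [h2, h3]; norm_num
  · rw [if_neg h1]
    have h2 : ¬ (b = c ∧ a = d) := fun h => h1 ⟨h.2, h.1⟩
    by_cases h3 : a = c ∧ b = d
    · have h4 : b = d ∧ a = c := ⟨h3.2, h3.1⟩
      simp only [if_pos h3, if_neg h1, if_neg h2, if_pos h4]
      push_cast; ring
    · have h4 : ¬ (b = d ∧ a = c) := fun h => h3 ⟨h.2, h.1⟩
      simp only [if_neg h3, if_neg h1, if_neg h2, if_neg h4]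
      push_cast; ring

lemma gH_cov (a b c d : ι) :
    ∫ g, gH g a b * gH g c d ∂(gam (ι × ι × Bool)) = if a = d ∧ b = c then 1 else 0 :=
  (IE_gH_mul a b c d).2

theorem gH_comm {X : Matrix ι ι ℂ} (hX : X.IsHermitian) :
    ∫ g, hs (gH g * X - X * gH g) ^ 2 ∂(gam (ι × ι × Bool)) =
      2 * Fintype.card ι * hs X ^ 2 - 2 * ‖X.trace‖ ^ 2 := by
  have key : ∀ g : ι × ι × Bool → ℝ, ((hs (gH g * X - X * gH g) ^ 2 : ℝ) : ℂ) =
      ∑ a, ∑ b, ∑ c, (2 * (X * X) c a) * (gH g a b * gH g b c) -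
        ∑ a, ∑ b, ∑ c, ∑ d, (2 * (X b c * X d a)) * (gH g a b * gH g c d) := by
    intro g
    have hH := gH_isHermitian g
    set H := gH g with hHd
    have h1 : (H * X - X * H)ᴴ = -(H * X - X * H) := by
      rw [conjTranspose_sub, conjTranspose_mul, conjTranspose_mul, hH.eq, hX.eq, neg_sub]
    rw [← trace_conjTranspose_mul_self_eq, h1]
    have h2 : (-(H * X - X * H) * (H * X - X * H)).trace =
        2 * (H * H * (X * X)).trace - 2 * (H * X * H * X).trace := by
      have e1 : (-(H * X - X * H) * (H * X - X * H)) =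
          H * (X * X * H) + X * (H * H * X) - (H * X * H * X) - X * (H * X * H) := by
        noncomm_ring
      rw [e1, trace_sub, trace_sub, trace_add, trace_mul_comm H (X * X * H),
        trace_mul_comm X (H * H * X), trace_mul_comm X (H * X * H)]
      have e2 : (X * X * H * H).trace = (H * H * (X * X)).trace := by
        rw [mul_assoc (X * X), trace_mul_comm]
      have e3 : (H * H * X * X).trace = (H * H * (X * X)).trace := by
        rw [mul_assoc (H * H)]
      rw [e2, e3]
      ring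
    rw [h2]
    have t1 : (H * H * (X * X)).trace = ∑ a, ∑ c, (H * H) a c * (X * X) c a :=
      Finset.sum_congr rfl fun a _ => mul_apply
    have t2 : (H * X * H * X).trace = ∑ a, ∑ d, (H * X * H) a d * X d a :=
      Finset.sum_congr rfl fun a _ => mul_apply
    have t3 : ∀ a d, (H * X * H) a d = ∑ b, ∑ c, H a b * X b c * H c d := by
      intro a d
      rw [mul_apply]
      simp only [mul_apply, Finset.sum_mul]
      exact Finset.sum_comm
    rw [t1, t2, Finset.mul_sum, Finset.mul_sum]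
    congr 1
    · refine Finset.sum_congr rfl fun a _ => ?_
      rw [Finset.mul_sum, Finset.sum_comm (γ := ι)]
      refine Finset.sum_congr rfl fun c _ => ?_
      rw [mul_apply, Finset.sum_mul, Finset.mul_sum]
      refine Finset.sum_congr rfl fun b _ => ?_
      ring
    · refine Finset.sum_congr rfl fun a _ => ?_
      rw [Finset.mul_sum]
      have t4 : ∀ d, 2 * ((H * X * H) a d * X d a) =
          ∑ b, ∑ c, 2 * (X b c * X d a) * (H a b * H c d) := by
        intro d
        rw [t3, Finset.sum_mul, Finset.mul_sum]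
        refine Finset.sum_congr rfl fun b _ => ?_
        rw [Finset.sum_mul, Finset.mul_sum]
        refine Finset.sum_congr rfl fun c _ => ?_
        ring
      simp only [t4]
      rw [Finset.sum_comm]
      refine Finset.sum_congr rfl fun b _ => ?_
      rw [Finset.sum_comm]
  have hI : IE (gam (ι × ι × Bool)) (fun g => ((hs (gH g * X - X * gH g) ^ 2 : ℝ) : ℂ))
      (∑ a : ι, ∑ b : ι, ∑ c : ι, (2 * (X * X) c a) * (if a = c then 1 else 0) -
        ∑ a : ι, ∑ b : ι, ∑ c : ι, ∑ d : ι, (2 * (X b c * X d a)) * (if a = d ∧ b = c then 1 else 0)) := by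
    simp only [key]
    refine IE.sub ?_ ?_
    · refine IE.sum _ fun a _ => ?_
      refine IE.sum _ fun b _ => ?_
      refine IE.sum _ fun c _ => ?_
      have h := IE_gH_mul a b b c
      simp only [and_true] at h
      exact IE.const_mul h _
    · refine IE.sum _ fun a _ => ?_
      refine IE.sum _ fun b _ => ?_
      refine IE.sum _ fun c _ => ?_
      refine IE.sum _ fun d _ => ?_
      exact IE.const_mul (IE_gH_mul a b c d) _
  have hX1 : (X * X).trace = ((hs X ^ 2 : ℝ) : ℂ) := by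
    rw [← trace_conjTranspose_mul_self_eq, hX.eq]
  have hX2 : X.trace * X.trace = ((‖X.trace‖ ^ 2 : ℝ) : ℂ) := by
    have h1 : star X.trace = X.trace := by
      rw [← trace_conjTranspose, hX.eq]
    have h2 := Complex.mul_conj X.trace
    rw [← Complex.star_def, h1, Complex.normSq_eq_norm_sq] at h2
    exact h2
  have hv : (∑ a : ι, ∑ b : ι, ∑ c : ι, (2 * (X * X) c a) * (if a = c then 1 else 0) -
        ∑ a : ι, ∑ b : ι, ∑ c : ι, ∑ d : ι, (2 * (X b c * X d a)) * (if a = d ∧ b = c then 1 else 0)) =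
      ((2 * Fintype.card ι * hs X ^ 2 - 2 * ‖X.trace‖ ^ 2 : ℝ) : ℂ) := by
    have v1 : ∑ a : ι, ∑ _b : ι, ∑ c : ι, (2 * (X * X) c a) * (if a = c then (1 : ℂ) else 0) =
        2 * Fintype.card ι * (X * X).trace := by
      simp only [mul_ite, mul_one, mul_zero, Finset.sum_ite_eq, Finset.mem_univ, if_true,
        Finset.sum_const, Finset.card_univ, nsmul_eq_mul, trace, diag_apply, Finset.mul_sum]
      refine Finset.sum_congr rfl fun a _ => ?_
      ring
    have v2 : ∑ a : ι, ∑ b : ι, ∑ c : ι, ∑ d : ι, (2 * (X b c * X d a)) * (if a = d ∧ b = c then (1 : ℂ) else 0) =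
        2 * (X.trace * X.trace) := by
      have : ∀ a b : ι, ∑ c : ι, ∑ d : ι, (2 * (X b c * X d a)) * (if a = d ∧ b = c then (1 : ℂ) else 0) =
          2 * (X b b * X a a) := by
        intro a b
        rw [Finset.sum_eq_single b, Finset.sum_eq_single a]
        · simp
        · intro d _ hd
          rw [if_neg (fun h => hd h.1.symm), mul_zero]
        · simp
        · intro c _ hc
          refine Finset.sum_eq_zero fun d _ => ?_
          rw [if_neg (fun h => hc h.2.symm), mul_zero]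
        · simp
      simp only [this]
      simp only [← Finset.mul_sum, ← Finset.sum_mul]
      rfl
    rw [v1, v2, hX1, hX2]
    push_cast
    ring
  have h3 := (integral_ofReal (𝕜 := ℂ) (μ := gam (ι × ι × Bool))
    (f := fun g => hs (gH g * X - X * gH g) ^ 2)).symm.trans (hI.2.trans hv)
  exact Complex.ofReal_injective h3

end Pool.Agent.OGP
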