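import Pool.Agent.OGP.Flow
import Pool.Agent.OGP.Gue

/-!
# OGP COMM: the averaged contraction `X ↦ (X u + u X) / 2`, `u = exp (i ε H)`

For a Hermitian `X` and unitary `u`, `hs ((X u + u X)/2) = hs ((X + u X u*)/2)` and by the
parallelogram identity `hs ((X + X')/2)² = hs X² / 2 + hs X'² / 2 - hs (X - X')² / 4` with
`X' = u X u*`, `hs X' = hs X`: so `hs ((X u + u X)/2)² = hs X² - hs (X u - u X)² / 4`.

Write `u = 1 + i ε H + E`, `hs E ≤ ε² hs H² / 2` (`hs_eU_taylor`).  Then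
`X u - u X = i ε (X H - H X) + (X E - E X)`, `hs (X E - E X) ≤ 2 hs X hs E ≤ ε² hs H² hs X`, and
`hs (X H - H X) ≤ 2 hs X hs H`; hence
`hs (X u - u X)² ≥ (ε hs (XH - HX) - ε² hs H² hs X)_+² ≥ ε² hs (X H - H X)² - 4 ε³ hs H³ hs X²`.
Integrate: by `gH_comm` with `Tr X = 0`,
`∫ hs (X u - u X)² ≥ (2 n ε² - 4 C ε³) hs X²`, `C = ∫ hs (gH g) ^ 3 < ∞` (`hs_gH_sq_le`,
`integrable_gH_pow`, `x³ ≤ 1 + x⁴`).  So
`∫ hs ((X u + u X)/2)² ≤ (1 - n ε²/2 + C ε³) hs X²`, and Cauchy-Schwarz (Jensen) for the first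
moment.
-/

open Matrix MeasureTheory
open Pool.Agent.Helper62.Disc
namespace Pool.Agent.OGP

variable {ι : Type} [Fintype ι] [DecidableEq ι]

/-- parallelogram law -/
private lemma comm_par (A B : Matrix ι ι ℂ) :
    hs (A + B) ^ 2 + hs (A - B) ^ 2 = 2 * (hs A ^ 2 + hs B ^ 2) := by
  rw [hs_sq, hs_sq, hs_sq, hs_sq, ← Finset.sum_add_distrib, ← Finset.sum_add_distrib,
    Finset.mul_sum]
  refine Finset.sum_congr rfl fun i _ => ?_
  rw [← Finset.sum_add_distrib, ← Finset.sum_add_distrib, Finset.mul_sum]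
  refine Finset.sum_congr rfl fun j _ => ?_
  have h := parallelogram_law_with_norm ℝ (A i j) (B i j)
  rw [Matrix.add_apply, Matrix.sub_apply]
  nlinarith [h]

private lemma comm_half (X : Matrix ι ι ℂ) (u : UG ι) :
    hs ((1 / 2 : ℂ) • (X * (u : Matrix ι ι ℂ) + (u : Matrix ι ι ℂ) * X)) ^ 2 =
      hs X ^ 2 - hs (X * (u : Matrix ι ι ℂ) - (u : Matrix ι ι ℂ) * X) ^ 2 / 4 := by
  have h := comm_par (X * (u : Matrix ι ι ℂ)) ((u : Matrix ι ι ℂ) * X)
  rw [hs_mul_unitary, hs_unitary_mul] at h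
  rw [hs_smul, mul_pow]
  have h2 : ‖(1 / 2 : ℂ)‖ = 1 / 2 := by norm_num
  rw [h2]
  linarith

private lemma comm_pt {X H : Matrix ι ι ℂ} (hH : H.IsHermitian) {ε : ℝ} (hε : 0 < ε) :
    ε ^ 2 * hs (H * X - X * H) ^ 2 - 4 * ε ^ 3 * hs H ^ 3 * hs X ^ 2 ≤
      hs (X * ((eU ((ε : ℂ) • H) : UG ι) : Matrix ι ι ℂ) -
        ((eU ((ε : ℂ) • H) : UG ι) : Matrix ι ι ℂ) * X) ^ 2 := by
  set u : Matrix ι ι ℂ := ((eU ((ε : ℂ) • H) : UG ι) : Matrix ι ι ℂ) with hu
  set E : Matrix ι ι ℂ := u - 1 - Complex.I • ((ε : ℂ) • H) with hE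
  have hEb : hs E ≤ ε ^ 2 * hs H ^ 2 / 2 := by
    have h := hs_eU_taylor (isHermitian_smul hH ε)
    rw [hs_smul, Complex.norm_real, Real.norm_eq_abs, abs_of_pos hε, mul_pow] at h
    exact h
  have hx := hs_nonneg X
  have hh := hs_nonneg H
  have hk := hs_nonneg (H * X - X * H)
  have hd := hs_nonneg (X * u - u * X)
  have hkb : hs (H * X - X * H) ≤ 2 * hs X * hs H := by
    have h1 : hs (H * X - X * H) ≤ hs (H * X) + hs (X * H) := by
      have := hs_add_le (H * X) (-(X * H))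
      rw [hs_neg, ← sub_eq_add_neg] at this
      exact this
    have h2 := hs_mul_le H X
    have h3 := hs_mul_le X H
    nlinarith
  have hEX : hs (X * E - E * X) ≤ ε ^ 2 * hs H ^ 2 * hs X := by
    have h1 : hs (X * E - E * X) ≤ hs (X * E) + hs (E * X) := by
      have := hs_add_le (X * E) (-(E * X))
      rw [hs_neg, ← sub_eq_add_neg] at this
      exact this
    have h2 := hs_mul_le X E
    have h3 := hs_mul_le E X
    have h4 := mul_le_mul_of_nonneg_left hEb hx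
    nlinarith
  have hdec : (Complex.I * (ε : ℂ)) • (H * X - X * H) =
      (X * E - E * X) - (X * u - u * X) := by
    rw [hE]
    simp only [smul_smul, mul_sub, sub_mul, mul_one, one_mul, Matrix.mul_smul, Matrix.smul_mul,
      smul_sub]
    abel
  have hkd : ε * hs (H * X - X * H) ≤ hs (X * E - E * X) + hs (X * u - u * X) := by
    have h1 : hs ((Complex.I * (ε : ℂ)) • (H * X - X * H)) = ε * hs (H * X - X * H) := by
      rw [hs_smul, norm_mul, Complex.norm_I, one_mul, Complex.norm_real, Real.norm_eq_abs,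
        abs_of_pos hε]
    rw [← h1, hdec]
    have := hs_add_le (X * E - E * X) (-(X * u - u * X))
    rw [hs_neg, ← sub_eq_add_neg] at this
    exact this
  set k := hs (H * X - X * H)
  set d := hs (X * u - u * X)
  set x := hs X
  set h := hs H
  have hw : 0 ≤ ε ^ 2 * h ^ 2 * x := by positivity
  have h1 : ε * k ≤ ε ^ 2 * h ^ 2 * x + d := by linarith
  have hek : 0 ≤ ε * k := by positivity
  have h2 : (ε * k) ^ 2 - 2 * (ε * k) * (ε ^ 2 * h ^ 2 * x) ≤ d ^ 2 := by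
    rcases le_or_gt (ε * k) (ε ^ 2 * h ^ 2 * x) with h3 | h3
    · nlinarith [sq_nonneg d]
    · have h4 : (ε * k - ε ^ 2 * h ^ 2 * x) ^ 2 ≤ d ^ 2 :=
        pow_le_pow_left₀ (by linarith) (by linarith) 2
      nlinarith [sq_nonneg (ε ^ 2 * h ^ 2 * x)]
  have h5 : 2 * (ε * k) * (ε ^ 2 * h ^ 2 * x) ≤ 4 * ε ^ 3 * h ^ 3 * x ^ 2 := by
    have h6 : 2 * ε ^ 3 * h ^ 2 * x * k ≤ 2 * ε ^ 3 * h ^ 2 * x * (2 * x * h) :=
      mul_le_mul_of_nonneg_left hkb (by positivity)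
    nlinarith
  nlinarith

theorem comm_contr (ι : Type) [Fintype ι] [DecidableEq ι] : ∃ C : ℝ, 0 ≤ C ∧
    ∀ ε : ℝ, 0 < ε → ε ≤ 1 → ∀ X : Matrix ι ι ℂ, X.IsHermitian → X.trace = 0 →
      ∫ g, hs ((1 / 2 : ℂ) • (X * ((eU ((ε : ℂ) • gH g) : UG ι) : Matrix ι ι ℂ) +
        ((eU ((ε : ℂ) • gH g) : UG ι) : Matrix ι ι ℂ) * X)) ∂(gam (ι × ι × Bool)) ≤
      Real.sqrt (1 - Fintype.card ι * ε ^ 2 / 2 + C * ε ^ 3) * hs X := by
  have hi2 := integrable_gH_pow (ι := ι) 2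
  have hi1 : Integrable (fun g : ι × ι × Bool → ℝ => ∑ x, g x ^ 2) (gam (ι × ι × Bool)) := by
    have := integrable_gH_pow (ι := ι) 1
    simpa using this
  refine ⟨1 + ∫ g, (∑ x, g x ^ 2) ^ 2 ∂(gam (ι × ι × Bool)), ?_, ?_⟩
  · have : 0 ≤ ∫ g : ι × ι × Bool → ℝ, (∑ x, g x ^ 2) ^ 2 ∂(gam (ι × ι × Bool)) :=
      integral_nonneg fun g => sq_nonneg _
    linarith
  intro ε hε hε1 X hX htr
  set C₀ := ∫ g : ι × ι × Bool → ℝ, (∑ x, g x ^ 2) ^ 2 ∂(gam (ι × ι × Bool)) with hC₀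
  set u : (ι × ι × Bool → ℝ) → UG ι := fun g => eU ((ε : ℂ) • gH g) with hu
  set Y : (ι × ι × Bool → ℝ) → ℝ := fun g =>
    hs ((1 / 2 : ℂ) • (X * (u g : Matrix ι ι ℂ) + (u g : Matrix ι ι ℂ) * X)) with hY
  have hcu : Continuous fun g => ((u g : UG ι) : Matrix ι ι ℂ) := by
    have h1 : Continuous fun g : ι × ι × Bool → ℝ => (ε : ℂ) • gH g :=
      continuous_gH.const_smul (ε : ℂ)
    exact continuous_subtype_val.comp (continuous_eU.comp h1)
  have hcY : Continuous Y := by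
    apply continuous_hs.comp
    exact ((continuous_const.matrix_mul hcu).add
      (hcu.matrix_mul continuous_const)).const_smul (1 / 2 : ℂ)
  have hY0 : ∀ g, 0 ≤ Y g := fun g => hs_nonneg _
  have hYsq : ∀ g, Y g ^ 2 = hs X ^ 2 -
      hs (X * (u g : Matrix ι ι ℂ) - (u g : Matrix ι ι ℂ) * X) ^ 2 / 4 :=
    fun g => comm_half X (u g)
  have hYx : ∀ g, Y g ≤ hs X := by
    intro g
    have h1 := hYsq g
    have h2 := hs_nonneg X
    have h3 := hY0 g
    nlinarith [sq_nonneg (hs (X * (u g : Matrix ι ι ℂ) - (u g : Matrix ι ι ℂ) * X))]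
  have hiY : Integrable Y (gam (ι × ι × Bool)) := by
    refine (integrable_const (hs X)).mono' hcY.aestronglyMeasurable ?_
    exact Filter.Eventually.of_forall fun g => by
      rw [Real.norm_eq_abs, abs_of_nonneg (hY0 g)]
      exact hYx g
  have hiY2 : Integrable (fun g => Y g ^ 2) (gam (ι × ι × Bool)) := by
    refine (integrable_const (hs X ^ 2)).mono' (hcY.pow 2).aestronglyMeasurable ?_
    exact Filter.Eventually.of_forall fun g => by
      rw [Real.norm_eq_abs, abs_of_nonneg (sq_nonneg _)]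
      exact pow_le_pow_left₀ (hY0 g) (hYx g) 2
  -- the commutator
  set k : (ι × ι × Bool → ℝ) → ℝ := fun g => hs (gH g * X - X * gH g) with hk
  have hck : Continuous k := by
    apply continuous_hs.comp
    exact (continuous_gH.matrix_mul continuous_const).sub
      (continuous_const.matrix_mul continuous_gH)
  have hkb : ∀ g, k g ^ 2 ≤ 4 * hs X ^ 2 * ∑ x, g x ^ 2 := by
    intro g
    have h1 : hs (gH g * X - X * gH g) ≤ hs (gH g * X) + hs (X * gH g) := by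
      have := hs_add_le (gH g * X) (-(X * gH g))
      rw [hs_neg, ← sub_eq_add_neg] at this
      exact this
    have h2 := hs_mul_le (gH g) X
    have h3 := hs_mul_le X (gH g)
    have h4 := hs_gH_sq_le g
    have h5 := hs_nonneg X
    have h6 := hs_nonneg (gH g)
    have h7 : k g ≤ 2 * (hs X * hs (gH g)) := by
      show hs (gH g * X - X * gH g) ≤ _
      nlinarith
    have h8 : k g ^ 2 ≤ (2 * (hs X * hs (gH g))) ^ 2 :=
      pow_le_pow_left₀ (hs_nonneg _) h7 2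
    have h9 : 4 * hs X ^ 2 * hs (gH g) ^ 2 ≤ 4 * hs X ^ 2 * ∑ x, g x ^ 2 :=
      mul_le_mul_of_nonneg_left h4 (by positivity)
    nlinarith
  have hik : Integrable (fun g => k g ^ 2) (gam (ι × ι × Bool)) := by
    refine (hi1.const_mul (4 * hs X ^ 2)).mono' (hck.pow 2).aestronglyMeasurable ?_
    exact Filter.Eventually.of_forall fun g => by
      rw [Real.norm_eq_abs, abs_of_nonneg (sq_nonneg _)]
      exact hkb g
  have hkint : ∫ g, k g ^ 2 ∂(gam (ι × ι × Bool)) = 2 * Fintype.card ι * hs X ^ 2 := by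
    have := gH_comm hX
    rw [htr, norm_zero] at this
    rw [show (2 * (Fintype.card ι : ℝ) * hs X ^ 2) =
      2 * Fintype.card ι * hs X ^ 2 - 2 * (0 : ℝ) ^ 2 by ring]
    exact this
  -- the pointwise bound
  have hpt : ∀ g, Y g ^ 2 ≤ hs X ^ 2 - (ε ^ 2 * k g ^ 2 / 4 -
      ε ^ 3 * hs X ^ 2 * (1 + (∑ x, g x ^ 2) ^ 2)) := by
    intro g
    have h1 := comm_pt (X := X) (gH_isHermitian g) hε
    have h2 := hYsq g
    have h3 := hs_gH_sq_le g
    have h4 := hs_nonneg (gH g)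
    have h5 : hs (gH g) ^ 3 ≤ 1 + (∑ x, g x ^ 2) ^ 2 := by
      have h6 : (hs (gH g) ^ 2) ^ 2 ≤ (∑ x, g x ^ 2) ^ 2 :=
        pow_le_pow_left₀ (sq_nonneg _) h3 2
      nlinarith [sq_nonneg (hs (gH g) ^ 2 - hs (gH g)), sq_nonneg (hs (gH g) - 1),
        sq_nonneg (hs (gH g) ^ 2 - 1)]
    have h7 : ε ^ 3 * hs X ^ 2 * hs (gH g) ^ 3 ≤
        ε ^ 3 * hs X ^ 2 * (1 + (∑ x, g x ^ 2) ^ 2) :=
      mul_le_mul_of_nonneg_left h5 (by positivity)
    rw [h2]
    have h8 : ε ^ 2 * k g ^ 2 - 4 * ε ^ 3 * hs (gH g) ^ 3 * hs X ^ 2 ≤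
      hs (X * (u g : Matrix ι ι ℂ) - (u g : Matrix ι ι ℂ) * X) ^ 2 := h1
    nlinarith
  have hrint : Integrable (fun g => hs X ^ 2 - (ε ^ 2 * k g ^ 2 / 4 -
      ε ^ 3 * hs X ^ 2 * (1 + (∑ x, g x ^ 2) ^ 2))) (gam (ι × ι × Bool)) := by
    apply Integrable.sub (integrable_const _)
    apply Integrable.sub
    · exact (hik.const_mul (ε ^ 2)).div_const 4
    · exact ((integrable_const (1 : ℝ)).add hi2).const_mul _
  have hint2 : ∫ g, Y g ^ 2 ∂(gam (ι × ι × Bool)) ≤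
      hs X ^ 2 * (1 - Fintype.card ι * ε ^ 2 / 2 + (1 + C₀) * ε ^ 3) := by
    calc ∫ g, Y g ^ 2 ∂(gam (ι × ι × Bool))
        ≤ ∫ g, (hs X ^ 2 - (ε ^ 2 * k g ^ 2 / 4 -
          ε ^ 3 * hs X ^ 2 * (1 + (∑ x, g x ^ 2) ^ 2))) ∂(gam (ι × ι × Bool)) :=
          integral_mono hiY2 hrint hpt
      _ = hs X ^ 2 - (ε ^ 2 * (∫ g, k g ^ 2 ∂(gam (ι × ι × Bool))) / 4 -
          ε ^ 3 * hs X ^ 2 * (1 + C₀)) := by
          rw [integral_sub (integrable_const _), integral_sub, integral_div, integral_const_mul,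
            integral_const_mul, integral_add (integrable_const _) hi2]
          · simp [hC₀]
          · exact (hik.const_mul (ε ^ 2)).div_const 4
          · exact ((integrable_const (1 : ℝ)).add hi2).const_mul _
          · apply Integrable.sub
            · exact (hik.const_mul (ε ^ 2)).div_const 4
            · exact ((integrable_const (1 : ℝ)).add hi2).const_mul _
      _ = _ := by
          rw [hkint]
          ring
  -- Jensen
  have hjen : (∫ g, Y g ∂(gam (ι × ι × Bool))) ^ 2 ≤ ∫ g, Y g ^ 2 ∂(gam (ι × ι × Bool)) := by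
    set m := ∫ g, Y g ∂(gam (ι × ι × Bool)) with hm
    have h1 : 0 ≤ ∫ g, (Y g - m) ^ 2 ∂(gam (ι × ι × Bool)) :=
      integral_nonneg fun g => sq_nonneg _
    have h2 : ∫ g, (Y g - m) ^ 2 ∂(gam (ι × ι × Bool)) =
        (∫ g, Y g ^ 2 ∂(gam (ι × ι × Bool))) - m ^ 2 := by
      have e : ∀ g, (Y g - m) ^ 2 = Y g ^ 2 - (2 * m * Y g - m ^ 2) := fun g => by ring
      simp only [e]
      rw [integral_sub hiY2, integral_sub (hiY.const_mul (2 * m)) (integrable_const _),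
        integral_const_mul, ← hm]
      · simp
        ring
      · exact (hiY.const_mul (2 * m)).sub (integrable_const _)
    linarith
  have hfin : ∫ g, Y g ∂(gam (ι × ι × Bool)) ≤
      Real.sqrt (hs X ^ 2 * (1 - Fintype.card ι * ε ^ 2 / 2 + (1 + C₀) * ε ^ 3)) :=
    Real.le_sqrt_of_sq_le (hjen.trans hint2)
  rw [Real.sqrt_mul (sq_nonneg _), Real.sqrt_sq (hs_nonneg X), mul_comm] at hfin
  exact hfin

end Pool.Agent.OGP
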