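import Pool.Agent.OGP.Contr
import Pool.Agent.OGP.Comm

/-!
# OGP CONC: concentration of measure on the unitary group

Let `F` be phase invariant and `L`-Lipschitz for `d2`; so `L₁ = L / √n`-Lipschitz for `dhs`
(`dhs_eq`).  Fix `ε ∈ (0, 1]` small enough that `r² := 1 - n ε²/2 + C ε³ < 1` (`C` of `comm_contr`),
`r = √(max 0 (..))`.  By `PG_locLip`, `F_j := (PG ε)^[j] F` is phase invariant with
`LocLip (r^j L₁) F_j`.  By `PG_exp`, `PG_mono`, `PG_const_mul` and induction on `k`,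
`(PG ε)^[k] (exp (lam F)) ≤ exp (lam F_k + 5/4 lam² ε² L₁² ∑_{j<k} r^{2j})`
(induction: `(PG ε)^[k+1] (e^{lam F}) = (PG ε)^[k] (PG ε (e^{lam F})) ≤
(PG ε)^[k] (e^{lam PG ε F + 5/4 lam² ε² L₁²})`, apply the induction hypothesis to `PG ε F` with
constant `r L₁`).  Integrate over the Haar measure (`PG_integral`):
`∫ e^{lam F} ≤ e^{5/4 lam² ε² L₁² / (1 - r²)} ∫ e^{lam F_k}`.
`F_k` is `r^k L₁ π √n · const`-close to a constant (`LocLip.diam`, `unitary_log_global`:
`hs X ≤ √n opn X`), and has the same integral as `F`: so `∫ e^{lam F_k} → e^{lam ∫ F}` as `k → ∞`.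
Finally `ε → 0`: `ε² / (1 - r²) = 1 / (n/2 - C ε) → 2 / n`, giving
`∫ e^{lam (F - ∫ F)} ≤ e^{5/2 lam² L₁² / n} = e^{5/2 lam² L² / n²}`.
(For `n = 1`, `F` is constant by phase invariance; this is also covered by the argument.)
-/

open Matrix MeasureTheory Filter Topology
open Pool.Agent.Helper62.Disc
namespace Pool.Agent.OGP

variable {ι : Type} [Fintype ι] [DecidableEq ι]

lemma continuous_pair_left (A0 : UG ι) :
    Continuous (fun A : UG ι => ((A, A0) : UG ι × UG ι)) :=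
  Continuous.prodMk continuous_id continuous_const

lemma continuous_d2_left (A0 : UG ι) : Continuous ((fun p : UG ι × UG ι => d2 p.1 p.2) ∘
    (fun A : UG ι => ((A, A0) : UG ι × UG ι))) :=
  continuous_d2.comp (continuous_pair_left A0)

lemma continuous_mul_d2_left (A0 : UG ι) (L : ℝ) : Continuous (fun A : UG ι => L * d2 A A0) :=
  (continuous_d2_left A0).const_mul L

lemma continuous_of_lip {F : UG ι → ℝ} {L : ℝ} (hF : ∀ A B, |F A - F B| ≤ L * d2 A B) :
    Continuous F := by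
  rw [continuous_iff_continuousAt]
  intro A0
  rw [ContinuousAt, tendsto_iff_norm_sub_tendsto_zero]
  have h1 : Tendsto (fun A : UG ι => L * d2 A A0) (𝓝 A0) (𝓝 (L * d2 A0 A0)) :=
    (continuous_mul_d2_left A0 L).tendsto A0
  rw [d2_self, mul_zero] at h1
  exact squeeze_zero (fun A => norm_nonneg _) (fun A => hF A A0) h1

lemma PG_iter_continuous (ε : ℝ) {F : UG ι → ℝ} (hF : Continuous F) (k : ℕ) :
    Continuous ((PG ε)^[k] F) := by
  induction k with
  | zero => exact hF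
  | succ k ih => rw [Function.iterate_succ_apply']; exact PG_continuous ε ih

lemma PG_iter_phase (ε : ℝ) {F : UG ι → ℝ} (hF : PhaseInv F) (k : ℕ) :
    PhaseInv ((PG ε)^[k] F) := by
  induction k with
  | zero => exact hF
  | succ k ih => rw [Function.iterate_succ_apply']; exact PG_phase ε ih

lemma PG_iter_integral (ε : ℝ) {F : UG ι → ℝ} (hF : Continuous F) (k : ℕ) :
    ∫ A, (PG ε)^[k] F A ∂(haarU ι) = ∫ A, F A ∂(haarU ι) := by
  induction k with
  | zero => rfl
  | succ k ih =>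
      rw [Function.iterate_succ_apply', PG_integral ε (PG_iter_continuous ε hF k), ih]

lemma PG_iter_mono (ε : ℝ) {F G : UG ι → ℝ} (hF : Continuous F) (hG : Continuous G)
    (h : ∀ A, F A ≤ G A) (k : ℕ) (A : UG ι) : (PG ε)^[k] F A ≤ (PG ε)^[k] G A := by
  induction k generalizing A with
  | zero => exact h A
  | succ k ih =>
      rw [Function.iterate_succ_apply', Function.iterate_succ_apply']
      exact PG_mono ε (PG_iter_continuous ε hF k) (PG_iter_continuous ε hG k) ih A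

lemma PG_iter_const_mul (ε c : ℝ) (F : UG ι → ℝ) (k : ℕ) :
    (PG ε)^[k] (fun B => c * F B) = fun B => c * (PG ε)^[k] F B := by
  induction k with
  | zero => rfl
  | succ k ih =>
      rw [Function.iterate_succ_apply', ih, Function.iterate_succ_apply']
      funext A
      exact PG_const_mul ε c _ A

lemma PG_iter_locLip {ε : ℝ} (hε : 0 ≤ ε) {L : ℝ} (hL : 0 ≤ L) {F : UG ι → ℝ} (hF : LocLip L F)
    (hph : PhaseInv F) {r : ℝ} (hr0 : 0 ≤ r)
    (hr : ∀ X : Matrix ι ι ℂ, X.IsHermitian → X.trace = 0 →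
      ∫ g, hs ((1 / 2 : ℂ) • (X * ((eU ((ε : ℂ) • gH g) : UG ι) : Matrix ι ι ℂ) +
        ((eU ((ε : ℂ) • gH g) : UG ι) : Matrix ι ι ℂ) * X)) ∂(gam (ι × ι × Bool)) ≤ r * hs X)
    (k : ℕ) : LocLip (r ^ k * L) ((PG ε)^[k] F) := by
  induction k with
  | zero => simpa using hF
  | succ k ih =>
      rw [Function.iterate_succ_apply', pow_succ', mul_assoc]
      exact PG_locLip hε (by positivity) ih (PG_iter_phase ε hph k) hr0 hr

lemma PG_iter_exp {ε : ℝ} (hε : 0 ≤ ε) {r : ℝ} (hr0 : 0 ≤ r)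
    (hr : ∀ X : Matrix ι ι ℂ, X.IsHermitian → X.trace = 0 →
      ∫ g, hs ((1 / 2 : ℂ) • (X * ((eU ((ε : ℂ) • gH g) : UG ι) : Matrix ι ι ℂ) +
        ((eU ((ε : ℂ) • gH g) : UG ι) : Matrix ι ι ℂ) * X)) ∂(gam (ι × ι × Bool)) ≤ r * hs X)
    (lam : ℝ) (k : ℕ) {L : ℝ} (hL : 0 ≤ L) {F : UG ι → ℝ} (hF : LocLip L F)
    (hph : PhaseInv F) (A : UG ι) :
    (PG ε)^[k] (fun B => Real.exp (lam * F B)) A ≤
      Real.exp (lam * (PG ε)^[k] F A +
        5 / 4 * lam ^ 2 * (ε ^ 2 * L ^ 2) * ∑ j ∈ Finset.range k, (r ^ 2) ^ j) := by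
  induction k generalizing L F A with
  | zero => simp
  | succ k ih =>
      have hFc := hF.continuous hL
      have hF1 := PG_locLip hε hL hF hph hr0 hr
      have hF1c := PG_continuous ε hFc
      have hph1 := PG_phase ε hph
      set c : ℝ := Real.exp (5 / 4 * lam ^ 2 * (ε ^ 2 * L ^ 2)) with hc
      rw [Function.iterate_succ_apply, Function.iterate_succ_apply]
      have h1 : ∀ B, PG ε (fun B => Real.exp (lam * F B)) B ≤
          c * Real.exp (lam * PG ε F B) := by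
        intro B
        refine (PG_exp hε hL hF lam B).trans (le_of_eq ?_)
        rw [hc, ← Real.exp_add]
        congr 1
        ring
      have hE : Continuous fun B => Real.exp (lam * F B) :=
        Real.continuous_exp.comp (hFc.const_mul lam)
      have hE1 : Continuous fun B => Real.exp (lam * PG ε F B) :=
        Real.continuous_exp.comp (hF1c.const_mul lam)
      refine (PG_iter_mono ε (PG_continuous ε hE) (hE1.const_mul c) h1 k A).trans ?_
      rw [PG_iter_const_mul]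
      have h2 := ih (mul_nonneg hr0 hL) hF1 hph1 A
      have hc0 : 0 ≤ c := (Real.exp_pos _).le
      refine (mul_le_mul_of_nonneg_left h2 hc0).trans (le_of_eq ?_)
      rw [hc, ← Real.exp_add, Finset.sum_range_succ' _ k]
      congr 1
      simp only [pow_succ, ← Finset.sum_mul, pow_zero]
      ring

lemma PG_step_bound [Nonempty ι] {ε : ℝ} (hε : 0 ≤ ε) {r : ℝ} (hr0 : 0 ≤ r) (hr1 : r < 1)
    (hr : ∀ X : Matrix ι ι ℂ, X.IsHermitian → X.trace = 0 →
      ∫ g, hs ((1 / 2 : ℂ) • (X * ((eU ((ε : ℂ) • gH g) : UG ι) : Matrix ι ι ℂ) +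
        ((eU ((ε : ℂ) • gH g) : UG ι) : Matrix ι ι ℂ) * X)) ∂(gam (ι × ι × Bool)) ≤ r * hs X)
    (lam : ℝ) {L : ℝ} (hL : 0 ≤ L) {F : UG ι → ℝ} (hF : LocLip L F) (hph : PhaseInv F) :
    ∫ A, Real.exp (lam * F A) ∂(haarU ι) ≤
      Real.exp (lam * (∫ B, F B ∂(haarU ι)) + 5 / 4 * lam ^ 2 * (ε ^ 2 * L ^ 2) / (1 - r ^ 2)) := by
  have hFc := hF.continuous hL
  set m : ℝ := ∫ B, F B ∂(haarU ι) with hm
  set N : ℝ := Real.sqrt (Fintype.card ι) * Real.pi with hN
  have hN0 : 0 ≤ N := by positivity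
  have hr2 : 0 < 1 - r ^ 2 := by nlinarith
  have hint : ∀ {G : UG ι → ℝ}, Continuous G → Integrable G (haarU ι) := fun hG =>
    hG.integrable_of_hasCompactSupport (HasCompactSupport.of_compactSpace _)
  have hk : ∀ k : ℕ, ∫ A, Real.exp (lam * F A) ∂(haarU ι) ≤
      Real.exp (lam * m + |lam| * (r ^ k * (L * N)) +
        5 / 4 * lam ^ 2 * (ε ^ 2 * L ^ 2) / (1 - r ^ 2)) := by
    intro k
    have hlk := PG_iter_locLip hε hL hF hph hr0 hr k
    have hck := PG_iter_continuous ε hFc k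
    have hmk : ∫ A, (PG ε)^[k] F A ∂(haarU ι) = m := PG_iter_integral ε hFc k
    set Fk : UG ι → ℝ := (PG ε)^[k] F with hFk
    have hdiam : ∀ A B : UG ι, |Fk B - Fk A| ≤ r ^ k * (L * N) := by
      intro A B
      obtain ⟨X, hX, hU, hop⟩ := unitary_log_global (A⁻¹ * B)
      have h1 := hlk.diam (by positivity) A B hX (by rw [← hU, mul_inv_cancel_left])
      refine h1.trans ?_
      rw [mul_assoc]
      refine mul_le_mul_of_nonneg_left (mul_le_mul_of_nonneg_left ?_ hL) (by positivity)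
      rw [hs_eq, hN]
      exact mul_le_mul_of_nonneg_left ((n2_le_opn X).trans hop) (Real.sqrt_nonneg _)
    have hclose : ∀ B, |Fk B - m| ≤ r ^ k * (L * N) := by
      intro B
      have h1 : Fk B - m = ∫ A, (Fk B - Fk A) ∂(haarU ι) := by
        rw [integral_sub (integrable_const _) (hint hck), hmk]
        simp
      rw [h1]
      refine (abs_integral_le_integral_abs).trans ?_
      calc ∫ A, |Fk B - Fk A| ∂(haarU ι) ≤ ∫ _A, r ^ k * (L * N) ∂(haarU ι) :=
            integral_mono (hint (by fun_prop)) (integrable_const _) fun A => hdiam A B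
        _ = r ^ k * (L * N) := by simp
    have hsum : ∑ j ∈ Finset.range k, (r ^ 2) ^ j ≤ 1 / (1 - r ^ 2) := by
      rw [le_div_iff₀ hr2, geom_sum_mul_neg]
      have : 0 ≤ (r ^ 2) ^ k := by positivity
      linarith
    have hpt : ∀ A, (PG ε)^[k] (fun B => Real.exp (lam * F B)) A ≤
        Real.exp (lam * m + |lam| * (r ^ k * (L * N)) +
        5 / 4 * lam ^ 2 * (ε ^ 2 * L ^ 2) / (1 - r ^ 2)) := by
      intro A
      refine (PG_iter_exp hε hr0 hr lam k hL hF hph A).trans (Real.exp_le_exp.2 ?_)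
      have h1 : lam * (PG ε)^[k] F A ≤ lam * m + |lam| * (r ^ k * (L * N)) := by
        have h2 : lam * (Fk A - m) ≤ |lam| * (r ^ k * (L * N)) := by
          refine (le_abs_self _).trans ?_
          rw [abs_mul]
          exact mul_le_mul_of_nonneg_left (hclose A) (abs_nonneg _)
        have h3 : lam * Fk A = lam * m + lam * (Fk A - m) := by ring
        rw [← hFk, h3]
        linarith
      have h4 : 5 / 4 * lam ^ 2 * (ε ^ 2 * L ^ 2) * ∑ j ∈ Finset.range k, (r ^ 2) ^ j ≤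
          5 / 4 * lam ^ 2 * (ε ^ 2 * L ^ 2) / (1 - r ^ 2) := by
        rw [div_eq_mul_one_div (5 / 4 * lam ^ 2 * (ε ^ 2 * L ^ 2))]
        exact mul_le_mul_of_nonneg_left hsum (by positivity)
      linarith
    have hEc : Continuous fun B => Real.exp (lam * F B) :=
      Real.continuous_exp.comp (hFc.const_mul lam)
    rw [← PG_iter_integral ε hEc k]
    calc ∫ A, (PG ε)^[k] (fun B => Real.exp (lam * F B)) A ∂(haarU ι)
        ≤ ∫ _A, Real.exp (lam * m + |lam| * (r ^ k * (L * N)) +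
          5 / 4 * lam ^ 2 * (ε ^ 2 * L ^ 2) / (1 - r ^ 2)) ∂(haarU ι) :=
          integral_mono (hint (PG_iter_continuous ε hEc k)) (integrable_const _) hpt
      _ = _ := by simp
  have hlim : Tendsto (fun k : ℕ => Real.exp (lam * m + |lam| * (r ^ k * (L * N)) +
        5 / 4 * lam ^ 2 * (ε ^ 2 * L ^ 2) / (1 - r ^ 2))) atTop
      (𝓝 (Real.exp (lam * m + |lam| * (0 * (L * N)) +
        5 / 4 * lam ^ 2 * (ε ^ 2 * L ^ 2) / (1 - r ^ 2)))) := by
    refine (Real.continuous_exp.tendsto _).comp ?_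
    exact (((tendsto_pow_atTop_nhds_zero_of_lt_one hr0 hr1).mul_const _).const_mul _).const_add _
      |>.add_const _
  have := ge_of_tendsto' hlim hk
  simpa using this

theorem conc [Nonempty ι] {F : UG ι → ℝ} {L : ℝ} (hL : 0 ≤ L)
    (hF : ∀ A B, |F A - F B| ≤ L * d2 A B) (hph : PhaseInv F) (lam : ℝ) :
    ∫ A, Real.exp (lam * (F A - ∫ B, F B ∂(haarU ι))) ∂(haarU ι) ≤
      Real.exp (5 / 2 * lam ^ 2 * L ^ 2 / (Fintype.card ι : ℝ) ^ 2) := by
  obtain ⟨C, hC, hcon⟩ := comm_contr ι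
  set n : ℝ := (Fintype.card ι : ℝ) with hn
  have hn0 : 0 < n := by
    rw [hn]; exact_mod_cast Fintype.card_pos
  set L1 : ℝ := L / Real.sqrt n with hL1
  have hsn : 0 < Real.sqrt n := Real.sqrt_pos.2 hn0
  have hL10 : 0 ≤ L1 := div_nonneg hL hsn.le
  have hF1 : LocLip L1 F := by
    refine LocLip.of_lip hL10 fun A B => (hF A B).trans (le_of_eq ?_)
    rw [dhs_eq, ← hn, hL1]
    field_simp
  set m : ℝ := ∫ B, F B ∂(haarU ι) with hm
  have hev : ∀ᶠ ε : ℝ in 𝓝[>] 0, ∫ A, Real.exp (lam * F A) ∂(haarU ι) ≤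
      Real.exp (lam * m + 5 / 4 * lam ^ 2 * L1 ^ 2 / (n / 2 - C * ε)) := by
    have e1 : ∀ᶠ ε : ℝ in 𝓝[>] 0, ε ≤ 1 :=
      (eventually_nhdsWithin_of_eventually_nhds (eventually_le_nhds one_pos))
    have e2 : ∀ᶠ ε : ℝ in 𝓝[>] 0, 0 < n / 2 - C * ε := by
      have h1 : Tendsto (fun ε : ℝ => n / 2 - C * ε) (𝓝[>] 0) (𝓝 (n / 2 - C * 0)) :=
        ((by fun_prop : Continuous fun ε : ℝ => n / 2 - C * ε).tendsto 0).mono_left
          nhdsWithin_le_nhds
      exact h1.eventually_const_lt (by rw [mul_zero, sub_zero]; positivity)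
    have e3 : ∀ᶠ ε : ℝ in 𝓝[>] 0, 0 ≤ 1 - n * ε ^ 2 / 2 + C * ε ^ 3 := by
      have h1 : Tendsto (fun ε : ℝ => 1 - n * ε ^ 2 / 2 + C * ε ^ 3) (𝓝[>] 0)
          (𝓝 (1 - n * 0 ^ 2 / 2 + C * 0 ^ 3)) :=
        ((by fun_prop : Continuous fun ε : ℝ => 1 - n * ε ^ 2 / 2 + C * ε ^ 3).tendsto 0).mono_left
          nhdsWithin_le_nhds
      exact (h1.eventually_const_lt (u := 0) (by norm_num)).mono fun _ h => h.le
    filter_upwards [e1, e2, e3, self_mem_nhdsWithin] with ε h1 h2 h3 h0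
    have hε0 : 0 < ε := h0
    set r : ℝ := Real.sqrt (1 - n * ε ^ 2 / 2 + C * ε ^ 3) with hr
    have hrsq : r ^ 2 = 1 - n * ε ^ 2 / 2 + C * ε ^ 3 := Real.sq_sqrt h3
    have hr0 : 0 ≤ r := Real.sqrt_nonneg _
    have h4 : 1 - r ^ 2 = ε ^ 2 * (n / 2 - C * ε) := by rw [hrsq]; ring
    have hr1 : r < 1 := by
      have : 0 < 1 - r ^ 2 := by rw [h4]; positivity
      nlinarith
    have h5 := PG_step_bound hε0.le hr0 hr1 (fun X hX hX0 => hcon ε hε0 h1 X hX hX0) lam hL10 hF1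
      hph
    refine h5.trans (Real.exp_le_exp.2 ?_)
    rw [h4, ← hm]
    refine add_le_add le_rfl (le_of_eq ?_)
    field_simp
  have hlim : Tendsto (fun ε : ℝ => Real.exp (lam * m + 5 / 4 * lam ^ 2 * L1 ^ 2 /
      (n / 2 - C * ε))) (𝓝[>] 0) (𝓝 (Real.exp (lam * m + 5 / 4 * lam ^ 2 * L1 ^ 2 /
      (n / 2 - C * 0)))) := by
    refine (Real.continuous_exp.tendsto _).comp ?_
    refine Tendsto.const_add _ ?_
    refine Tendsto.div tendsto_const_nhds ?_ (by rw [mul_zero, sub_zero]; positivity)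
    exact ((by fun_prop : Continuous fun ε : ℝ => n / 2 - C * ε).tendsto 0).mono_left
          nhdsWithin_le_nhds
  have h1 := ge_of_tendsto hlim hev
  have h2 : ∀ A, Real.exp (lam * (F A - m)) = Real.exp (-(lam * m)) * Real.exp (lam * F A) := by
    intro A
    rw [← Real.exp_add]; congr 1; ring
  simp only [h2]
  rw [integral_const_mul]
  calc Real.exp (-(lam * m)) * ∫ A, Real.exp (lam * F A) ∂(haarU ι)
      ≤ Real.exp (-(lam * m)) * Real.exp (lam * m + 5 / 4 * lam ^ 2 * L1 ^ 2 /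
      (n / 2 - C * 0)) := mul_le_mul_of_nonneg_left h1 (Real.exp_pos _).le
    _ = Real.exp (5 / 2 * lam ^ 2 * L ^ 2 / n ^ 2) := by
      rw [← Real.exp_add]
      congr 1
      rw [hL1, div_pow, Real.sq_sqrt hn0.le, mul_zero, sub_zero]
      field_simp
      ring

end Pool.Agent.OGP
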