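import Pool.Agent.OGP.Flow
import Pool.Agent.OGP.Opn

/-!
# OGP LOG: spectral theorem and logarithms for unitary matrices

`unitary_diag`.  The spectrum of `U` is finite, so `arg` is continuous on it and
`X = arg U` (continuous functional calculus) is Hermitian with `U = exp (i X)`.  Diagonalise `X`
(`Matrix.IsHermitian.spectral_theorem`) and reduce the angles modulo `2π`.

`unitary_diag_pos` is the same with angles in `[0, 2π)`.

The logarithm of `U = O diag(e^{iθ}) O*`, `θ_j ∈ [-π, π]`, is `X = O diag(θ) O*`.  Then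
`hs X ^ 2 = ∑ θ_j²`, `hs (U - 1) ^ 2 = ∑ |e^{iθ_j} - 1|²`, `opn X = max |θ_j|`,
`opn (U - 1) = max |e^{iθ_j} - 1|` and `|e^{iθ} - 1| = 2 |sin (θ/2)| ≥ (2/π) |θ|` on `[-π, π]`
(`Real.mul_abs_le_abs_sin`): this gives `unitary_log_op` and `unitary_log_global`.
For `unitary_log_local`: if `hs (U - 1) ≤ δ` then every `|θ_j| ≤ (π/2) δ` is small, and
`|e^{iθ} - 1| ≥ |θ| (1 - θ²/16) ≥ |θ| / (1 + η)` for `|θ| ≤ (π/2) δ`, `δ = δ(η)` small.
-/

open Matrix
namespace Pool.Agent.OGP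

variable {ι : Type} [Fintype ι] [DecidableEq ι]

section cstar
open scoped Matrix.Norms.L2Operator
open Complex

set_option backward.isDefEq.respectTransparency false in
theorem exists_exp (U : UG ι) : ∃ X : Matrix ι ι ℂ, X.IsHermitian ∧
    (U : Matrix ι ι ℂ) = NormedSpace.exp (Complex.I • X) := by
  classical
  have hfin : (spectrum ℂ (U : Matrix ι ι ℂ)).Finite := Matrix.finite_spectrum _
  have hc : ContinuousOn arg (spectrum ℂ (U : Matrix ι ι ℂ)) := hfin.continuousOn _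
  refine ⟨cfc (fun z : ℂ => (arg z : ℂ)) (U : Matrix ι ι ℂ), ?_, ?_⟩
  · exact IsSelfAdjoint.cfc_arg (U : Matrix ι ι ℂ)
  · have hU : (U : Matrix ι ι ℂ) ∈ unitary (Matrix ι ι ℂ) := U.2
    have hn : IsStarNormal (U : Matrix ι ι ℂ) := inferInstance
    rw [← CFC.exp_eq_normedSpace_exp (𝕜 := ℂ),
      ← cfc_comp_smul .., ← cfc_comp' ..]
    conv_lhs => rw [← cfc_id' ℂ (U : Matrix ι ι ℂ)]
    refine cfc_congr fun y hy ↦ ?_
    have hy₁ : ‖y‖ = 1 := spectrum.norm_eq_one_of_unitary U.2 hy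
    have : I * y.arg = log y :=
      Complex.ext (by simp [log_re, spectrum.norm_eq_one_of_unitary U.2 hy]) (by simp [log_im])
    simpa [← exp_eq_exp_ℂ, this] using (exp_log (by aesop)).symm

end cstar

omit [Fintype ι] in
lemma isHermitian_diag (θ : ι → ℝ) : (Matrix.diagonal fun i => (θ i : ℂ)).IsHermitian := by
  unfold Matrix.IsHermitian
  rw [Matrix.diagonal_conjTranspose]
  congr 1
  funext i
  simp

theorem diag_aux (U : UG ι) : ∃ (O : UG ι) (y : ι → ℝ),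
    U = O * eU (Matrix.diagonal fun i => (y i : ℂ)) * O⁻¹ := by
  obtain ⟨X, hX, h⟩ := exists_exp U
  refine ⟨hX.eigenvectorUnitary, hX.eigenvalues, ?_⟩
  rw [eU_conj _ (isHermitian_diag _)]
  have h1 : X = (hX.eigenvectorUnitary : Matrix ι ι ℂ) *
      (Matrix.diagonal fun i => (hX.eigenvalues i : ℂ)) *
      (hX.eigenvectorUnitary : Matrix ι ι ℂ)ᴴ := by
    conv_lhs => rw [hX.spectral_theorem]
    rfl
  rw [← h1]
  apply Subtype.ext
  rw [eU_coe hX, ← h]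

lemma eU_diagonal_congr {y z : ι → ℝ}
    (h : ∀ i, Complex.exp (Complex.I * y i) = Complex.exp (Complex.I * z i)) :
    eU (Matrix.diagonal fun i => (y i : ℂ)) = eU (Matrix.diagonal fun i => (z i : ℂ)) := by
  apply Subtype.ext
  rw [eU_diagonal, eU_diagonal]
  simp only [h]

lemma exp_shift (y : ℝ) (n : ℤ) :
    Complex.exp (Complex.I * y) = Complex.exp (Complex.I * ((y - n • (2 * Real.pi) : ℝ) : ℂ)) := by
  rw [Complex.exp_eq_exp_iff_exists_int]
  refine ⟨n, ?_⟩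
  simp only [zsmul_eq_mul]
  push_cast
  ring

theorem unitary_diag (U : UG ι) : ∃ (O : UG ι) (θ : ι → ℝ),
    (∀ i, -Real.pi ≤ θ i ∧ θ i ≤ Real.pi) ∧
      U = O * eU (Matrix.diagonal fun i => (θ i : ℂ)) * O⁻¹ := by
  obtain ⟨O, y, h⟩ := diag_aux U
  refine ⟨O, fun i => toIocMod Real.two_pi_pos (-Real.pi) (y i), fun i => ?_, ?_⟩
  · have := toIocMod_mem_Ioc Real.two_pi_pos (-Real.pi) (y i)
    exact ⟨this.1.le, by linarith [this.2]⟩
  · rw [h]
    congr 2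
    refine eU_diagonal_congr fun i => ?_
    exact exp_shift _ _

theorem unitary_diag_pos (U : UG ι) : ∃ (O : UG ι) (θ : ι → ℝ),
    (∀ i, 0 ≤ θ i ∧ θ i < 2 * Real.pi) ∧
      U = O * eU (Matrix.diagonal fun i => (θ i : ℂ)) * O⁻¹ := by
  obtain ⟨O, y, h⟩ := diag_aux U
  refine ⟨O, fun i => toIcoMod Real.two_pi_pos 0 (y i), fun i => ?_, ?_⟩
  · have := toIcoMod_mem_Ico Real.two_pi_pos 0 (y i)
    exact ⟨this.1, by linarith [this.2]⟩
  · rw [h]
    congr 2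
    refine eU_diagonal_congr fun i => ?_
    exact exp_shift _ _

lemma hs_sq_diagonal (v : ι → ℂ) : hs (Matrix.diagonal v) ^ 2 = ∑ i, ‖v i‖ ^ 2 := by
  rw [hs_sq]
  refine Finset.sum_congr rfl fun i _ => ?_
  rw [Finset.sum_eq_single i]
  · simp
  · intro j _ hj
    simp [hj.symm]
  · simp

/-- The data of the logarithm. -/
theorem unitary_log_data (U : UG ι) : ∃ (X : Matrix ι ι ℂ) (θ : ι → ℝ), X.IsHermitian ∧
    U = eU X ∧ (∀ i, |θ i| ≤ Real.pi) ∧
    hs X = hs (Matrix.diagonal fun i => (θ i : ℂ)) ∧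
    opn X = opn (Matrix.diagonal fun i => (θ i : ℂ)) ∧
    hs ((U : Matrix ι ι ℂ) - 1) =
      hs (Matrix.diagonal fun i => Complex.exp (Complex.I * θ i) - 1) ∧
    opn ((U : Matrix ι ι ℂ) - 1) =
      opn (Matrix.diagonal fun i => Complex.exp (Complex.I * θ i) - 1) := by
  obtain ⟨O, θ, hθ, h⟩ := unitary_diag U
  have hD := isHermitian_diag θ
  have key : (U : Matrix ι ι ℂ) - 1 = (O : Matrix ι ι ℂ) *
      (Matrix.diagonal fun i => Complex.exp (Complex.I * θ i) - 1) * ((O⁻¹ : UG ι) : Matrix ι ι ℂ) := by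
    have h1 : (Matrix.diagonal fun i => Complex.exp (Complex.I * θ i) - 1) =
        ((eU (Matrix.diagonal fun i => (θ i : ℂ)) : UG ι) : Matrix ι ι ℂ) - 1 := by
      rw [eU_diagonal, ← Matrix.diagonal_one, Matrix.diagonal_sub]
    rw [h1, mul_sub, sub_mul, mul_one, UG_coe_inv, UG_mul_conj]
    conv_lhs => rw [h]
    rfl
  refine ⟨(O : Matrix ι ι ℂ) * (Matrix.diagonal fun i => (θ i : ℂ)) * (O : Matrix ι ι ℂ)ᴴ, θ,
    isHermitian_conj O hD, ?_, fun i => abs_le.2 (hθ i), ?_, ?_, ?_, ?_⟩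
  · rw [h, eU_conj _ hD]
  · rw [← UG_coe_inv, hs_mul_unitary, hs_unitary_mul]
  · rw [← UG_coe_inv, opn_mul_unitary, opn_unitary_mul]
  · rw [key, hs_mul_unitary, hs_unitary_mul]
  · rw [key, opn_mul_unitary, opn_unitary_mul]

lemma norm_exp_sub_one (θ : ℝ) :
    ‖Complex.exp (Complex.I * θ) - 1‖ = 2 * |Real.sin (θ / 2)| := by
  rw [Complex.norm_exp_I_mul_ofReal_sub_one, norm_mul, Real.norm_eq_abs, Real.norm_eq_abs,
    abs_of_nonneg (by norm_num : (0:ℝ) ≤ 2)]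

lemma abs_le_norm_exp_sub_one {θ : ℝ} (h : |θ| ≤ Real.pi) :
    |θ| ≤ Real.pi / 2 * ‖Complex.exp (Complex.I * θ) - 1‖ := by
  rw [norm_exp_sub_one]
  have h2 : |θ / 2| ≤ Real.pi / 2 := by
    rw [abs_div, abs_of_nonneg (by norm_num : (0:ℝ) ≤ 2)]
    linarith
  have := Real.mul_abs_le_abs_sin h2
  rw [abs_div, abs_of_nonneg (by norm_num : (0:ℝ) ≤ 2)] at this
  have hpi := Real.pi_pos
  calc |θ| = Real.pi * (2 / Real.pi * (|θ| / 2)) := by field_simp
    _ ≤ Real.pi * |Real.sin (θ / 2)| := by gcongr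
    _ = _ := by ring

lemma norm_exp_sub_one_ge {θ : ℝ} (h : |θ| ≤ 1) :
    |θ| * (1 - |θ| / 16) ≤ ‖Complex.exp (Complex.I * θ) - 1‖ := by
  rw [norm_exp_sub_one]
  have h0 : 0 ≤ |θ| := abs_nonneg _
  rcases h0.eq_or_lt with h0 | h0
  · rw [← h0]; simp
  have h1 : |Real.sin (θ / 2)| ≥ Real.sin (|θ| / 2) := by
    rcases abs_cases θ with ⟨h2, _⟩ | ⟨h2, _⟩
    · rw [h2]; exact le_abs_self _
    · rw [h2, neg_div, Real.sin_neg]; exact neg_le_abs _
  have h2 := Real.sin_gt_sub_cube (x := |θ| / 2) (by positivity)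
  have h3 : |θ| ^ 3 ≤ |θ| ^ 2 := by
    nlinarith [sq_nonneg |θ|]
  nlinarith

theorem unitary_log_global (U : UG ι) : ∃ X : Matrix ι ι ℂ, X.IsHermitian ∧ U = eU X ∧
    opn X ≤ Real.pi := by
  obtain ⟨X, θ, hX, h, hθ, _, h2, _, _⟩ := unitary_log_data U
  refine ⟨X, hX, h, ?_⟩
  rw [h2]
  refine opn_diagonal_le _ _ Real.pi_pos.le fun i => ?_
  simpa using hθ i

theorem unitary_log_op (U : UG ι) : ∃ X : Matrix ι ι ℂ, X.IsHermitian ∧ U = eU X ∧
    opn X ≤ Real.pi / 2 * opn ((U : Matrix ι ι ℂ) - 1) := by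
  obtain ⟨X, θ, hX, h, hθ, _, h2, _, h4⟩ := unitary_log_data U
  refine ⟨X, hX, h, ?_⟩
  rw [h2, h4]
  have hpi := Real.pi_pos
  refine opn_diagonal_le _ _ (mul_nonneg (by positivity) (opn_nonneg _)) fun i => ?_
  have h5 := opn_diagonal_ge (fun i => Complex.exp (Complex.I * θ i) - 1) i
  have h6 := abs_le_norm_exp_sub_one (hθ i)
  simp only [Complex.norm_real, Real.norm_eq_abs]
  refine h6.trans ?_
  gcongr

theorem unitary_log_local {η : ℝ} (hη : 0 < η) : ∃ δ : ℝ, 0 < δ ∧ ∀ U : UG ι,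
    hs ((U : Matrix ι ι ℂ) - 1) ≤ δ → ∃ X : Matrix ι ι ℂ, X.IsHermitian ∧ U = eU X ∧
      hs X ≤ (1 + η) * hs ((U : Matrix ι ι ℂ) - 1) := by
  refine ⟨min (1 / 2) (η / (1 + η)), by positivity, fun U hU => ?_⟩
  obtain ⟨X, θ, hX, h, hθ, h1, h2, h3, h4⟩ := unitary_log_data U
  refine ⟨X, hX, h, ?_⟩
  have hpi := Real.pi_pos
  have hpi4 := Real.pi_le_four
  set δ : ℝ := min (1 / 2) (η / (1 + η)) with hδ
  have hδ1 : δ ≤ 1 / 2 := min_le_left _ _
  have hδ2 : δ * (1 + η) ≤ η := by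
    have : δ ≤ η / (1 + η) := min_le_right _ _
    rwa [le_div_iff₀ (by positivity)] at this
  have hs2 : hs (Matrix.diagonal fun i => Complex.exp (Complex.I * θ i) - 1) ^ 2 =
      ∑ i, ‖Complex.exp (Complex.I * θ i) - 1‖ ^ 2 := hs_sq_diagonal _
  have hsmall : ∀ i, ‖Complex.exp (Complex.I * θ i) - 1‖ ≤ δ := by
    intro i
    have h5 : ‖Complex.exp (Complex.I * θ i) - 1‖ ^ 2 ≤
        hs (Matrix.diagonal fun i => Complex.exp (Complex.I * θ i) - 1) ^ 2 := by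
      rw [hs2]
      exact Finset.single_le_sum (f := fun i => ‖Complex.exp (Complex.I * θ i) - 1‖ ^ 2)
        (fun i _ => by positivity) (Finset.mem_univ i)
    rw [← h3] at h5
    have h6 := abs_le_of_sq_le_sq h5 (hs_nonneg _)
    exact (le_abs_self _).trans (h6.trans hU)
  have hkey : ∀ i, |θ i| ≤ (1 + η) * ‖Complex.exp (Complex.I * θ i) - 1‖ := by
    intro i
    have h5 := abs_le_norm_exp_sub_one (hθ i)
    have h6 := hsmall i
    have h7 : |θ i| ≤ Real.pi / 2 * δ := h5.trans (by gcongr)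
    have h7' : |θ i| ≤ 2 * δ := by
      have : 0 ≤ δ := (norm_nonneg _).trans h6
      nlinarith
    have h8 : |θ i| ≤ 1 := by linarith
    have h9 := norm_exp_sub_one_ge h8
    have h10 : 0 ≤ |θ i| := abs_nonneg _
    have h11 : 1 ≤ (1 + η) * (1 - |θ i| / 16) := by
      nlinarith
    calc |θ i| = |θ i| * 1 := by ring
      _ ≤ |θ i| * ((1 + η) * (1 - |θ i| / 16)) := by gcongr
      _ = (1 + η) * (|θ i| * (1 - |θ i| / 16)) := by ring
      _ ≤ _ := by gcongr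
  rw [h1, h3]
  refine abs_le_of_sq_le_sq' ?_ (mul_nonneg (by positivity) (hs_nonneg _)) |>.2
  rw [mul_pow, hs2, hs_sq_diagonal, Finset.mul_sum]
  refine Finset.sum_le_sum fun i _ => ?_
  rw [← mul_pow]
  simp only [Complex.norm_real, Real.norm_eq_abs]
  exact pow_le_pow_left₀ (abs_nonneg _) (hkey i) 2

lemma opn_pow_sub_le (A B : UG ι) (m : ℕ) :
    opn (((A ^ m : UG ι) : Matrix ι ι ℂ) - ((B ^ m : UG ι) : Matrix ι ι ℂ)) ≤
      m * opn ((A : Matrix ι ι ℂ) - (B : Matrix ι ι ℂ)) := by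
  induction m with
  | zero => simp [opn_zero]
  | succ m ih =>
    have h : (((A ^ (m + 1) : UG ι) : Matrix ι ι ℂ) - ((B ^ (m + 1) : UG ι) : Matrix ι ι ℂ)) =
        ((A ^ m : UG ι) : Matrix ι ι ℂ) * ((A : Matrix ι ι ℂ) - (B : Matrix ι ι ℂ)) +
        (((A ^ m : UG ι) : Matrix ι ι ℂ) - ((B ^ m : UG ι) : Matrix ι ι ℂ)) *
          (B : Matrix ι ι ℂ) := by
      rw [pow_succ, pow_succ, UG_coe_mul, UG_coe_mul, mul_sub, sub_mul]
      abel
    rw [h]
    refine (opn_add_le _ _).trans ?_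
    rw [opn_unitary_mul, opn_mul_unitary, Nat.cast_succ]
    linarith

lemma eU_nsmul {X : Matrix ι ι ℂ} (hX : X.IsHermitian) (t : ℝ) (m : ℕ) :
    eU (((m * t : ℝ) : ℂ) • X) = eU ((t : ℂ) • X) ^ m := by
  induction m with
  | zero => simp [eU_zero]
  | succ m ih =>
    rw [pow_succ, ← ih, ← eU_add_smul hX]
    congr 3
    push_cast
    ring

open Filter Topology in
/-- Operator norm version of `hs_eU_sub`, by the same telescoping argument. -/
theorem opn_eU_sub {X Y : Matrix ι ι ℂ} (hX : X.IsHermitian) (hY : Y.IsHermitian) :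
    opn ((eU X : Matrix ι ι ℂ) - (eU Y : Matrix ι ι ℂ)) ≤ opn (X - Y) := by
  set f : ℝ → Matrix ι ι ℂ := fun s =>
    ((eU ((s : ℂ) • X) : UG ι) : Matrix ι ι ℂ) - ((eU ((s : ℂ) • Y) : UG ι) : Matrix ι ι ℂ) with hf
  have hf0 : f 0 = 0 := by simp [hf]
  have hpow : ∀ m : ℕ, opn (f 1) ≤ (m + 1 : ℝ) * opn (f ((m + 1 : ℝ)⁻¹)) := by
    intro m
    have hm : (m + 1 : ℝ) ≠ 0 := by positivity
    have h1 : ∀ {Z : Matrix ι ι ℂ}, Z.IsHermitian →
        eU (((1 : ℝ) : ℂ) • Z) = eU ((((m + 1 : ℝ)⁻¹ : ℝ) : ℂ) • Z) ^ (m + 1) := by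
      intro Z hZ
      rw [← eU_nsmul hZ]
      congr 3
      push_cast
      field_simp
    have h2 := opn_pow_sub_le (eU ((((m + 1 : ℝ)⁻¹ : ℝ) : ℂ) • X))
      (eU ((((m + 1 : ℝ)⁻¹ : ℝ) : ℂ) • Y)) (m + 1)
    rw [← h1 hX, ← h1 hY] at h2
    calc opn (f 1) ≤ ((m + 1 : ℕ) : ℝ) * opn (f ((m + 1 : ℝ)⁻¹)) := h2
      _ = _ := by rw [Nat.cast_succ]
  have hlim : Tendsto (fun m : ℕ => ((m + 1 : ℝ) : ℂ) • f ((m + 1 : ℝ)⁻¹)) atTop
      (𝓝 (Complex.I • (X - Y))) := by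
    refine tendsto_pi_nhds.2 fun i => ?_
    refine tendsto_pi_nhds.2 fun j => ?_
    have hd : HasDerivAt (fun s : ℝ => f s i j) ((Complex.I • (X - Y)) i j) 0 := by
      have h1 := (hasDerivAt_eU hX 0 i j).sub (hasDerivAt_eU hY 0 i j)
      have h2 : (Complex.I • X * ((eU (((0 : ℝ) : ℂ) • X) : UG ι) : Matrix ι ι ℂ)) i j -
          (Complex.I • Y * ((eU (((0 : ℝ) : ℂ) • Y) : UG ι) : Matrix ι ι ℂ)) i j =
          (Complex.I • (X - Y)) i j := by
        simp [eU_zero, mul_sub]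
      rw [h2] at h1
      exact h1
    have h3 := hd.tendsto_slope_zero
    have h4 : Tendsto (fun m : ℕ => ((m : ℝ) + 1)⁻¹) atTop (𝓝[≠] 0) := by
      rw [tendsto_nhdsWithin_iff]
      refine ⟨?_, Filter.Eventually.of_forall fun m => ?_⟩
      · simpa using tendsto_one_div_add_atTop_nhds_zero_nat (𝕜 := ℝ)
      · have : (0 : ℝ) < ((m : ℝ) + 1)⁻¹ := by positivity
        exact this.ne'
    have h5 := h3.comp h4
    refine h5.congr fun m => ?_
    simp [hf0]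
  have hlim2 := (continuous_opn.tendsto _).comp hlim
  have hfin : opn (Complex.I • (X - Y)) = opn (X - Y) := by
    rw [opn_smul]; simp
  rw [hfin] at hlim2
  have h1 : opn (f 1) = opn ((eU X : Matrix ι ι ℂ) - (eU Y : Matrix ι ι ℂ)) := by
    simp [hf]
  rw [← h1]
  refine ge_of_tendsto' hlim2 fun m => ?_
  refine (hpow m).trans ?_
  simp only [Function.comp]
  rw [opn_smul, Complex.norm_real, Real.norm_eq_abs, abs_of_nonneg (by positivity)]

end Pool.Agent.OGP
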