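import Pool.Agent.OGP.Step
import Pool.Agent.OGP.Log

/-!
# OGP CONTR: the random walk step contracts the local Lipschitz constant

Let `F` be phase invariant, `LocLip L F`, and suppose the averaged contraction `hr` (with factor
`r`) for traceless Hermitian matrices.  Given `η > 0` let `δ` be as in `unitary_log_local`.  If
`dhs A B ≤ δ`, then `C = A⁻¹ * B` satisfies `hs (C - 1) = dhs A B` so `C = eU X` with
`hs X ≤ (1 + η) dhs A B`.  Put `X₀ = X - (Tr X / n) 1` (Hermitian, `Tr X` is real; `hs X₀ ≤ hs X`);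
`eU X = phU θ * eU X₀`, `θ = Re Tr X / n`, so by phase invariance `PG ε F B = PG ε F (A * eU X₀)`
and with `Y = X₀ / 2`, `eU X₀ = eU Y * eU Y`, by `PG_symm`
`PG ε F B - PG ε F A = ∫ [F (A * (eU Y * u * eU Y)) - F (A * u)]`, in absolute value at most
`∫ L hs (Y u + u Y) = L ∫ hs ((X₀ u + u X₀)/2) ≤ L r hs X₀ ≤ L r (1 + η) dhs A B`
(`LocLip.step`).  (If `ι` is empty everything is trivial.)
-/

open Matrix MeasureTheory
open Pool.Agent.Helper62.Disc
namespace Pool.Agent.OGP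

variable {ι : Type} [Fintype ι] [DecidableEq ι]

private lemma contr_hs_sub {X : Matrix ι ι ℂ} (hX : X.IsHermitian) (θ : ℝ)
    (ht : (X - (θ : ℂ) • (1 : Matrix ι ι ℂ)).trace = 0) :
    hs (X - (θ : ℂ) • (1 : Matrix ι ι ℂ)) ≤ hs X := by
  set Y := X - (θ : ℂ) • (1 : Matrix ι ι ℂ) with hY
  have hYH : Yᴴ = Y := by
    rw [hY, Matrix.conjTranspose_sub, Matrix.conjTranspose_smul, Matrix.conjTranspose_one, hX.eq]
    congr 2
    simp
  have hXY : X = Y + (θ : ℂ) • (1 : Matrix ι ι ℂ) := by rw [hY]; abel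
  have h1 := trace_conjTranspose_mul_self_eq X
  have h2 := trace_conjTranspose_mul_self_eq Y
  rw [hX.eq] at h1
  rw [hYH] at h2
  have h3 : X * X = Y * Y + ((2 * θ : ℝ) : ℂ) • Y + ((θ ^ 2 : ℝ) : ℂ) • (1 : Matrix ι ι ℂ) := by
    conv_lhs => rw [hXY]
    rw [Matrix.add_mul, Matrix.mul_add, Matrix.mul_add, Matrix.smul_mul, Matrix.mul_smul,
      Matrix.smul_mul, Matrix.one_mul, Matrix.mul_one, Matrix.one_mul, smul_smul]
    have e1 : ((2 * θ : ℝ) : ℂ) • Y = (θ : ℂ) • Y + (θ : ℂ) • Y := by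
      rw [← add_smul]
      congr 1
      push_cast
      ring
    have e2 : ((θ ^ 2 : ℝ) : ℂ) = (θ : ℂ) * θ := by
      push_cast
      ring
    rw [e1, e2]
    abel
  rw [h3, Matrix.trace_add, Matrix.trace_add, Matrix.trace_smul, Matrix.trace_smul, ht,
    Matrix.trace_one, h2] at h1
  have h4 : hs Y ^ 2 + θ ^ 2 * (Fintype.card ι : ℝ) = hs X ^ 2 := by
    have h5 := congrArg Complex.re h1
    simp only [smul_eq_mul, mul_zero, add_zero, Complex.add_re, Complex.ofReal_re] at h5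
    rw [← h5, Complex.re_ofReal_mul, Complex.natCast_re]
  have h6 : 0 ≤ θ ^ 2 * (Fintype.card ι : ℝ) := by positivity
  exact (abs_le_of_sq_le_sq' (by linarith) (hs_nonneg X)).2

private lemma contr_trace {X : Matrix ι ι ℂ} (hX : X.IsHermitian) :
    (X - ((X.trace.re / Fintype.card ι : ℝ) : ℂ) • (1 : Matrix ι ι ℂ)).trace = 0 := by
  have h1 : X.trace = ((X.trace.re : ℝ) : ℂ) := by
    have h2 : star X.trace = X.trace := by
      rw [← Matrix.trace_conjTranspose, hX.eq]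
    exact (Complex.conj_eq_iff_re.1 h2).symm
  rcases isEmpty_or_nonempty ι with h | h
  · rw [Matrix.trace]
    simp
  · rw [Matrix.trace_sub, Matrix.trace_smul, Matrix.trace_one, smul_eq_mul]
    have h3 : (Fintype.card ι : ℝ) ≠ 0 := by exact_mod_cast Fintype.card_ne_zero
    have h4 : ((X.trace.re / Fintype.card ι : ℝ) : ℂ) * (Fintype.card ι : ℂ) =
        ((X.trace.re : ℝ) : ℂ) := by
      rw [← Complex.ofReal_natCast, ← Complex.ofReal_mul, div_mul_cancel₀ _ h3]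
    rw [h4, ← h1, sub_self]

private lemma contr_cont_u (ε : ℝ) :
    Continuous fun g : ι × ι × Bool → ℝ => (eU ((ε : ℂ) • gH g) : UG ι) :=
  continuous_eU.comp (continuous_gH.const_smul (ε : ℂ))

theorem PG_locLip {ε : ℝ} (hε : 0 ≤ ε) {L : ℝ} (hL : 0 ≤ L) {F : UG ι → ℝ} (hF : LocLip L F)
    (hph : PhaseInv F) {r : ℝ} (hr0 : 0 ≤ r)
    (hr : ∀ X : Matrix ι ι ℂ, X.IsHermitian → X.trace = 0 →
      ∫ g, hs ((1 / 2 : ℂ) • (X * ((eU ((ε : ℂ) • gH g) : UG ι) : Matrix ι ι ℂ) +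
        ((eU ((ε : ℂ) • gH g) : UG ι) : Matrix ι ι ℂ) * X)) ∂(gam (ι × ι × Bool)) ≤ r * hs X) :
    LocLip (r * L) (PG ε F) := by
  intro η hη
  obtain ⟨δ, hδ, hlog⟩ := unitary_log_local (ι := ι) hη
  have hFc : Continuous F := hF.continuous hL
  refine ⟨δ, hδ, fun A B hAB => ?_⟩
  have hd : hs (((A⁻¹ * B : UG ι) : Matrix ι ι ℂ) - 1) = dhs A B := by
    have h1 : ((A⁻¹ * B : UG ι) : Matrix ι ι ℂ) - 1 =
        ((A⁻¹ : UG ι) : Matrix ι ι ℂ) * ((B : Matrix ι ι ℂ) - (A : Matrix ι ι ℂ)) := by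
      rw [Matrix.mul_sub, ← UG_coe_mul, ← UG_coe_mul, inv_mul_cancel]
      rfl
    rw [h1, hs_unitary_mul]
    exact hs_sub_comm _ _
  obtain ⟨X, hX, hXe, hXs⟩ := hlog (A⁻¹ * B) (by rw [hd]; exact hAB)
  rw [hd] at hXs
  set θ : ℝ := X.trace.re / Fintype.card ι with hθ
  set X₀ : Matrix ι ι ℂ := X - (θ : ℂ) • (1 : Matrix ι ι ℂ) with hX₀
  have htr : X₀.trace = 0 := contr_trace hX
  have hH₀ : X₀.IsHermitian := by
    rw [hX₀]
    refine hX.sub ?_
    have h1 := isHermitian_smul (X := (1 : Matrix ι ι ℂ)) Matrix.isHermitian_one θ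
    exact h1
  have hle : hs X₀ ≤ hs X := contr_hs_sub hX θ htr
  have hXX : X = X₀ + (θ : ℂ) • (1 : Matrix ι ι ℂ) := by rw [hX₀]; abel
  set Y : Matrix ι ι ℂ := ((1 / 2 : ℝ) : ℂ) • X₀ with hY
  have hYH : Y.IsHermitian := isHermitian_smul hH₀ (1 / 2)
  have hYY : eU X₀ = eU Y * eU Y := by
    rw [hY, ← eU_add_smul hH₀]
    congr 1
    norm_num
  have hB : B = phU θ * (A * (eU Y * eU Y)) := by
    have h1 : B = A * eU X := by rw [← hXe, mul_inv_cancel_left]
    rw [h1, hXX, eU_add_phase hH₀, ← hYY, ← mul_assoc, ← mul_assoc, phU_comm]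
  have hPB : PG ε F B =
      ∫ g, F (A * (eU Y * eU ((ε : ℂ) • gH g) * eU Y)) ∂(gam (ι × ι × Bool)) := by
    rw [hB, PG_phase ε hph, ← PG_symm ε hFc A hYH]
    unfold PG
    refine integral_congr_ae (Filter.Eventually.of_forall fun g => ?_)
    simp only [mul_assoc]
  obtain ⟨M, hM⟩ := isCompact_univ.exists_bound_of_continuousOn (f := F) hFc.continuousOn
  have hc1 : Continuous fun g : ι × ι × Bool → ℝ =>
      F (A * (eU Y * eU ((ε : ℂ) • gH g) * eU Y)) :=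
    hFc.comp (continuous_const.mul ((continuous_const.mul (contr_cont_u ε)).mul continuous_const))
  have hi1 : Integrable (fun g => F (A * (eU Y * eU ((ε : ℂ) • gH g) * eU Y)))
      (gam (ι × ι × Bool)) :=
    Integrable.of_bound hc1.aestronglyMeasurable M
      (Filter.Eventually.of_forall fun g => hM _ (Set.mem_univ _))
  have hi2 := PG_integrable ε hFc A
  -- the bound
  have hbd : ∀ g : ι × ι × Bool → ℝ,
      hs (Y * ((eU ((ε : ℂ) • gH g) : UG ι) : Matrix ι ι ℂ) +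
        ((eU ((ε : ℂ) • gH g) : UG ι) : Matrix ι ι ℂ) * Y) ≤ hs Y + hs Y := by
    intro g
    refine (hs_add_le _ _).trans ?_
    rw [hs_mul_unitary, hs_unitary_mul]
  have hc3 : Continuous fun g : ι × ι × Bool → ℝ =>
      hs (Y * ((eU ((ε : ℂ) • gH g) : UG ι) : Matrix ι ι ℂ) +
        ((eU ((ε : ℂ) • gH g) : UG ι) : Matrix ι ι ℂ) * Y) := by
    have h1 : Continuous fun g : ι × ι × Bool → ℝ =>
        ((eU ((ε : ℂ) • gH g) : UG ι) : Matrix ι ι ℂ) :=
      continuous_subtype_val.comp (contr_cont_u ε)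
    exact continuous_hs.comp ((continuous_const.mul h1).add (h1.mul continuous_const))
  have hi3 : Integrable (fun g : ι × ι × Bool → ℝ =>
      L * hs (Y * ((eU ((ε : ℂ) • gH g) : UG ι) : Matrix ι ι ℂ) +
        ((eU ((ε : ℂ) • gH g) : UG ι) : Matrix ι ι ℂ) * Y)) (gam (ι × ι × Bool)) := by
    refine Integrable.const_mul ?_ L
    refine Integrable.of_bound hc3.aestronglyMeasurable (hs Y + hs Y)
      (Filter.Eventually.of_forall fun g => ?_)
    rw [Real.norm_of_nonneg (hs_nonneg _)]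
    exact hbd g
  have h1 : |PG ε F B - PG ε F A| ≤ ∫ g : ι × ι × Bool → ℝ,
      L * hs (Y * ((eU ((ε : ℂ) • gH g) : UG ι) : Matrix ι ι ℂ) +
        ((eU ((ε : ℂ) • gH g) : UG ι) : Matrix ι ι ℂ) * Y) ∂(gam (ι × ι × Bool)) := by
    rw [hPB]
    unfold PG
    rw [← integral_sub hi1 hi2, ← Real.norm_eq_abs]
    refine norm_integral_le_of_norm_le hi3 (Filter.Eventually.of_forall fun g => ?_)
    rw [Real.norm_eq_abs]
    exact hF.step hL A _ hYH
  have h2 : ∀ g : ι × ι × Bool → ℝ,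
      hs (Y * ((eU ((ε : ℂ) • gH g) : UG ι) : Matrix ι ι ℂ) +
        ((eU ((ε : ℂ) • gH g) : UG ι) : Matrix ι ι ℂ) * Y) =
      hs ((1 / 2 : ℂ) • (X₀ * ((eU ((ε : ℂ) • gH g) : UG ι) : Matrix ι ι ℂ) +
        ((eU ((ε : ℂ) • gH g) : UG ι) : Matrix ι ι ℂ) * X₀)) := by
    intro g
    congr 1
    rw [hY, smul_add, Matrix.smul_mul, Matrix.mul_smul]
    norm_num
  rw [integral_const_mul] at h1
  simp only [h2] at h1
  have h3 := hr X₀ hH₀ htr
  rw [abs_sub_comm]
  have hs0 := hs_nonneg X₀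
  calc |PG ε F B - PG ε F A| ≤ L * (r * hs X₀) := h1.trans (mul_le_mul_of_nonneg_left h3 hL)
    _ ≤ L * (r * ((1 + η) * dhs A B)) := by
        have : hs X₀ ≤ (1 + η) * dhs A B := hle.trans hXs
        gcongr
    _ = (1 + η) * (r * L) * dhs A B := by ring

end Pool.Agent.OGP
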