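import Pool.Agent.OGP.Trig
import Pool.Agent.OGP.Norms
import Pool.Agent.OGP.Eexp
import Pool.Agent.OGP.Kfacts

/-!
# OGP EQUI: Laurent polynomials approximating the spectral projections on equal blocks

`n = N k + r`, `U = O diag(e^{iθ}) O⁻¹`.  For a Laurent polynomial `c`, `lauM c U =
O diag(tpv c (θ x)) O⁻¹`, so `(1/n) ∑_x tpv c (θ x) = ∑_m c_m utr (U^m) = c_0 + error`,
`|error| ≤ ε' ∑ |c_m|` if `|utr U^m| ≤ ε'` for `1 ≤ m ≤ D` and `D ≥` all `|m|` in the support of `c`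
(`utr U^{-m} = conj (utr U^m)`).

Let `χ_i`, `i < k`, be the indicator function on `[0, 2π]` of `[2πi/k, 2π(i+1)/k)` (closed at the right
end if `i = k-1`), and `cp i, cm i` from `trig_sandwich` for `s = 2πi/k`, `t = 2π(i+1)/k` and `ε₁`.
Then `Re tpv (cm i) ≤ χ_i ≤ Re tpv (cp i)` on `[0, 2π]` and `0 ≤ tpv (cp i) - χ_i ≤ 2`.  Take
`q i = cp i`.  If all relevant moments are small (`ε' ∑ |c_m| ≤ ε₁` for all `c = cp i, cm i`):
* `|#{x : χ_i (θ x) = 1}/n - 1/k| ≤ 2 ε₁`;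
* `(1/n) ∑_x |tpv (cp i) (θ x) - χ_i (θ x)|² ≤ 2 (1/n) ∑_x (tpv (cp i) - tpv (cm i)) (θ x) ≤ 8 ε₁`.
For `0 ≤ i ≤ k` let `A_i = {x : χ_{i'} (θ x) = 1 for some i' < i}` (for `i < k` this is
`{θ x < 2πi/k}`, `A_k` is everything), `L_i = {x : lvl x < i}` for `i ≤ k` — for `i = k` the leftover
is missing.  `|A_i| = n i/k + O(2 k ε₁ n)`, `|L_i| = N i`, `|n i/k - N i| ≤ k`.  For `i < k` one of
`A_i \ L_i`, `L_i \ A_i` is empty: if `x ∈ A_i \ L_i`, `y ∈ L_i \ A_i` then `lvl y < i ≤ lvl x`, so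
`θ y ≤ θ x < 2πi/k` by `BlockMono`, contradiction.  So `|A_i Δ L_i| ≤ 2kε₁ n + k`, also for
`i = k` (`|A_k \ L_k| = r ≤ k`).  Hence `#{x : χ_i (θ x) ≠ 1[lvl x = i]} ≤ |A_i Δ L_i| +
|A_{i+1} Δ L_{i+1}| ≤ 4 k ε₁ n + 2k`, and
`n2 (lauM (q i) U - O pblk_i O⁻¹)² = (1/n) ∑_x |tpv (cp i) (θ x) - 1[lvl x = i]|²
 ≤ 2 · 8 ε₁ + 2 (4 k ε₁ + 2k/n) ≤ ε²` for `ε₁` small and `n ≥ N` large.
-/

open Matrix
namespace Pool.Agent.OGP

section aux
variable {k N r : ℕ}

private lemma eq_zpow (θ : JJ k N r → ℝ) (m : ℤ) :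
    (((eU (Matrix.diagonal fun x => (θ x : ℂ)) : UG (JJ k N r)) ^ m : UG (JJ k N r)) :
      Matrix (JJ k N r) (JJ k N r) ℂ) =
      Matrix.diagonal fun x => Complex.exp (Complex.I * ((m * θ x : ℝ) : ℂ)) := by
  have hH : (Matrix.diagonal fun x : JJ k N r => (θ x : ℂ)).IsHermitian := by
    unfold Matrix.IsHermitian
    rw [Matrix.diagonal_conjTranspose]
    congr 1
    funext x
    simp
  let f : Multiplicative ℝ →* UG (JJ k N r) :=
    { toFun := fun t =>
        eU (((Multiplicative.toAdd t : ℝ) : ℂ) • Matrix.diagonal fun x => (θ x : ℂ))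
      map_one' := by simp [eU_zero]
      map_mul' := fun s t => eU_add_smul hH _ _ }
  have h1 : (eU (Matrix.diagonal fun x => (θ x : ℂ)) : UG (JJ k N r)) =
      f (Multiplicative.ofAdd 1) := by
    show _ = eU (((1 : ℝ) : ℂ) • Matrix.diagonal fun x => (θ x : ℂ))
    simp
  rw [h1, ← map_zpow]
  have h2 : f (Multiplicative.ofAdd 1 ^ m) =
      eU (Matrix.diagonal fun x => ((m * θ x : ℝ) : ℂ)) := by
    show eU (((Multiplicative.toAdd (Multiplicative.ofAdd (1 : ℝ) ^ m) : ℝ) : ℂ) •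
      Matrix.diagonal fun x => (θ x : ℂ)) = _
    congr 1
    ext i j
    by_cases hij : i = j
    · subst hij
      simp [Matrix.diagonal_apply_eq]
    · simp [Matrix.diagonal_apply_ne _ hij]
  rw [h2, eU_diagonal]

private lemma eq_conj_zpow (O : UG (JJ k N r)) (θ : JJ k N r → ℝ) (m : ℤ) :
    (((O * eU (Matrix.diagonal fun x => (θ x : ℂ)) * O⁻¹) ^ m : UG (JJ k N r)) :
      Matrix (JJ k N r) (JJ k N r) ℂ) =
      (O : Matrix (JJ k N r) (JJ k N r) ℂ) *
        (Matrix.diagonal fun x => Complex.exp (Complex.I * ((m * θ x : ℝ) : ℂ))) *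
        ((O⁻¹ : UG (JJ k N r)) : Matrix (JJ k N r) (JJ k N r) ℂ) := by
  rw [conj_zpow, UG_coe_mul, UG_coe_mul, eq_zpow]

private lemma eq_utr (O : UG (JJ k N r)) (θ : JJ k N r → ℝ) (m : ℕ) :
    utr ((O * eU (Matrix.diagonal fun x => (θ x : ℂ)) * O⁻¹) ^ m) =
      (Fintype.card (JJ k N r) : ℂ)⁻¹ * ∑ x, Complex.exp (Complex.I * ((m * θ x : ℝ) : ℂ)) := by
  rw [conj_pow, utr_conj, ← zpow_natCast]
  unfold utr ntr
  rw [eq_zpow, Matrix.trace_diagonal]
  push_cast
  rfl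

/-- the mean of a trigonometric polynomial -/
private lemma eq_mean {ι : Type} [Fintype ι] [Nonempty ι] (c : ℤ →₀ ℂ) (θ : ι → ℝ) {ε' : ℝ}
    (hε' : 0 ≤ ε') {D : ℕ} (hsupp : ∀ m ∈ c.support, m.natAbs ≤ D)
    (hmom : ∀ m : ℕ, 1 ≤ m → m ≤ D →
      ‖(Fintype.card ι : ℂ)⁻¹ * ∑ x, Complex.exp (Complex.I * ((m * θ x : ℝ) : ℂ))‖ ≤ ε') :
    |(Fintype.card ι : ℝ)⁻¹ * ∑ x, (tpv c (θ x)).re - (c 0).re| ≤
      ε' * ∑ m ∈ c.support, ‖c m‖ := by
  classical
  set n : ℂ := (Fintype.card ι : ℂ) with hn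
  have hn0 : n ≠ 0 := by
    rw [hn]
    exact_mod_cast Fintype.card_ne_zero
  set M : ℤ → ℂ := fun m => n⁻¹ * ∑ x, Complex.exp (Complex.I * ((m * θ x : ℝ) : ℂ)) with hM
  have hM0 : M 0 = 1 := by
    rw [hM]
    simp only [Int.cast_zero, zero_mul, Complex.ofReal_zero, mul_zero, Complex.exp_zero,
      Finset.sum_const, Finset.card_univ, nsmul_eq_mul, mul_one]
    exact inv_mul_cancel₀ hn0
  have hMneg : ∀ m : ℤ, M (-m) = star (M m) := by
    intro m
    rw [hM]
    simp only [star_mul']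
    congr 1
    · rw [hn]
      simp
    · rw [star_sum]
      refine Finset.sum_congr rfl fun x _ => ?_
      rw [Complex.star_def, ← Complex.exp_conj, map_mul, Complex.conj_I, Complex.conj_ofReal]
      congr 1
      push_cast
      ring
  have hMb : ∀ m ∈ c.support, ‖M m - if m = 0 then 1 else 0‖ ≤ ε' := by
    intro m hm
    by_cases h0 : m = 0
    · rw [if_pos h0, h0, hM0, sub_self, norm_zero]
      exact hε'
    · rw [if_neg h0, sub_zero]
      have h1 := hmom m.natAbs (by omega) (hsupp m hm)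
      have h2 : M (m.natAbs : ℤ) = n⁻¹ * ∑ x,
          Complex.exp (Complex.I * (((m.natAbs : ℝ) * θ x : ℝ) : ℂ)) := by
        rw [hM]
        simp only [Int.cast_natCast]
      rw [← h2] at h1
      rcases Int.natAbs_eq m with h3 | h3
      · rw [← h3] at h1
        exact h1
      · have h4 : M m = star (M (m.natAbs : ℤ)) := by
          rw [← hMneg, ← h3]
        rw [h4, norm_star]
        exact h1
  have h1 : n⁻¹ * ∑ x, tpv c (θ x) = ∑ m ∈ c.support, c m * M m := by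
    unfold tpv Finsupp.sum
    rw [Finset.sum_comm, Finset.mul_sum]
    refine Finset.sum_congr rfl fun m _ => ?_
    rw [hM]
    simp only [Finset.mul_sum]
    refine Finset.sum_congr rfl fun x _ => ?_
    ring
  have h2 : c 0 = ∑ m ∈ c.support, c m * if m = 0 then 1 else 0 := by
    simp only [mul_ite, mul_one, mul_zero]
    rw [Finset.sum_ite_eq' c.support 0]
    by_cases h0 : (0 : ℤ) ∈ c.support
    · rw [if_pos h0]
    · rw [if_neg h0]
      exact Finsupp.notMem_support_iff.1 h0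
  have h3 : (Fintype.card ι : ℝ)⁻¹ * ∑ x, (tpv c (θ x)).re - (c 0).re =
      (n⁻¹ * ∑ x, tpv c (θ x) - c 0).re := by
    rw [Complex.sub_re]
    congr 1
    have e : n⁻¹ = (((Fintype.card ι : ℝ)⁻¹ : ℝ) : ℂ) := by
      rw [hn]
      push_cast
      rfl
    rw [e, Complex.re_ofReal_mul, Complex.re_sum]
  rw [h3]
  refine (Complex.abs_re_le_norm _).trans ?_
  rw [h1]
  conv_lhs => rw [h2]
  rw [← Finset.sum_sub_distrib, Finset.mul_sum]
  refine (norm_sum_le _ _).trans (Finset.sum_le_sum fun m hm => ?_)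
  rw [← mul_sub, norm_mul, mul_comm]
  exact mul_le_mul_of_nonneg_right (hMb m hm) (norm_nonneg _)

private lemma eq_card_lvl (i : ℕ) (hi : i ≤ k) :
    ∑ x : JJ k N r, (if lvl x < i then (1 : ℝ) else 0) = (N : ℝ) * i := by
  rw [Fintype.sum_sum_type]
  have h1 : ∑ b : Fin r, (if lvl (Sum.inr b : JJ k N r) < i then (1 : ℝ) else 0) = 0 := by
    refine Finset.sum_eq_zero fun b _ => ?_
    have : ¬ lvl (Sum.inr b : JJ k N r) < i := by
      show ¬ k < i
      omega
    rw [if_neg this]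
  rw [h1, add_zero, Fintype.sum_prod_type]
  have h2 : ∀ a : Fin N, ∑ j : Fin k, (if lvl (Sum.inl (a, j) : JJ k N r) < i then (1 : ℝ) else 0) =
      i := by
    intro a
    have e1 : ∀ j : Fin k, (if lvl (Sum.inl (a, j) : JJ k N r) < i then (1 : ℝ) else 0) =
        (fun j : ℕ => if j < i then (1 : ℝ) else 0) j := fun j => rfl
    rw [Finset.sum_congr rfl fun j _ => e1 j,
      Fin.sum_univ_eq_sum_range (fun j : ℕ => if j < i then (1 : ℝ) else 0) k,
      ← Finset.sum_filter]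
    have e2 : (Finset.range k).filter (fun j => j < i) = Finset.range i := by
      ext j
      simp only [Finset.mem_filter, Finset.mem_range]
      omega
    rw [e2]
    simp
  rw [Finset.sum_congr rfl fun a _ => h2 a]
  simp

/-- the combinatorial part -/
private lemma eq_comb (hk : 1 ≤ k) (hr : r < k) (J : JJ k N r → ℕ) (hJk : ∀ x, J x < k)
    (hmono : ∀ x y, lvl x < lvl y → J x ≤ J y) (gp gm : Fin k → JJ k N r → ℝ) {ε₁ : ℝ}
    (hε₁ : 0 ≤ ε₁) (n : ℝ) (hn : n = (N : ℝ) * k + r)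
    (ha : ∀ i x, 0 ≤ gp i x ∧ gp i x ≤ 2 ∧ gm i x ≤ 1)
    (hb : ∀ (i : Fin k) x, J x = i → 1 ≤ gp i x)
    (hc : ∀ (i : Fin k) x, J x ≠ i → gm i x ≤ 0)
    (hd : ∀ i, |∑ x, gp i x - n / k| ≤ 2 * ε₁ * n ∧ |∑ x, gm i x - n / k| ≤ 2 * ε₁ * n)
    (i : Fin k) : ∑ x, (gp i x - if lvl x = (i : ℕ) then 1 else 0) ^ 2 ≤
      16 * ε₁ * n + 8 * k * ε₁ * n + 4 * k := by
  have hn0 : 0 ≤ n := by rw [hn]; positivity
  have hkr : (1 : ℝ) ≤ k := by exact_mod_cast hk
  -- the classes of `J`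
  set χ : ℕ → JJ k N r → ℝ := fun i x => if J x = i then 1 else 0 with hχ
  have hχp : ∀ (i : Fin k) x, χ i x ≤ gp i x := by
    intro i x
    by_cases h : J x = i
    · rw [hχ]; simp only [if_pos h]; exact hb i x h
    · rw [hχ]; simp only [if_neg h]; exact (ha i x).1
  have hχm : ∀ (i : Fin k) x, gm i x ≤ χ i x := by
    intro i x
    by_cases h : J x = i
    · rw [hχ]; simp only [if_pos h]; exact (ha i x).2.2
    · rw [hχ]; simp only [if_neg h]; exact hc i x h
  have hχs : ∀ i : ℕ, i < k → |∑ x, χ i x - n / k| ≤ 2 * ε₁ * n := by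
    intro i hi
    have h1 : ∑ x, χ i x ≤ ∑ x, gp ⟨i, hi⟩ x := Finset.sum_le_sum fun x _ => hχp ⟨i, hi⟩ x
    have h2 : ∑ x, gm ⟨i, hi⟩ x ≤ ∑ x, χ i x := Finset.sum_le_sum fun x _ => hχm ⟨i, hi⟩ x
    have h3 := (abs_le.1 (hd ⟨i, hi⟩).1).2
    have h4 := (abs_le.1 (hd ⟨i, hi⟩).2).1
    rw [abs_le]
    constructor <;> linarith
  set A : ℕ → JJ k N r → ℝ := fun i x => if J x < i then 1 else 0 with hA
  set L : ℕ → JJ k N r → ℝ := fun i x => if lvl x < i then 1 else 0 with hL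
  have hAs : ∀ i x, A (i + 1) x = A i x + χ i x := by
    intro i x
    simp only [hA, hχ]
    rcases lt_trichotomy (J x) i with h | h | h
    · rw [if_pos (by omega), if_pos h, if_neg (by omega)]; norm_num
    · rw [if_pos (by omega), if_neg (by omega), if_pos h]; norm_num
    · rw [if_neg (by omega), if_neg (by omega), if_neg (by omega)]; norm_num
  have hLs : ∀ i x, L (i + 1) x = L i x + if lvl x = i then 1 else 0 := by
    intro i x
    simp only [hL]
    rcases lt_trichotomy (lvl x) i with h | h | h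
    · rw [if_pos (by omega), if_pos h, if_neg (by omega)]; norm_num
    · rw [if_pos (by omega), if_neg (by omega), if_pos h]; norm_num
    · rw [if_neg (by omega), if_neg (by omega), if_neg (by omega)]; norm_num
  have hAsum : ∀ i : ℕ, i ≤ k → |∑ x, A i x - i * (n / k)| ≤ i * (2 * ε₁ * n) := by
    intro i
    induction i with
    | zero =>
      intro _
      simp [hA]
    | succ i ih =>
      intro hi
      have h1 := ih (by omega)
      have h2 := hχs i (by omega)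
      rw [Finset.sum_congr rfl fun x _ => hAs i x, Finset.sum_add_distrib]
      rw [abs_le] at h1 h2 ⊢
      push_cast
      constructor <;> linarith [h1.1, h1.2, h2.1, h2.2]
  have hLsum : ∀ i : ℕ, i ≤ k → ∑ x, L i x = (N : ℝ) * i := fun i hi => eq_card_lvl i hi
  have hdiff : ∀ i : ℕ, i ≤ k → ∑ x, |A i x - L i x| ≤ 2 * k * ε₁ * n + k := by
    intro i hi
    have hir : (i : ℝ) ≤ k := by exact_mod_cast hi
    have h1 : |∑ x, (A i x - L i x)| ≤ 2 * k * ε₁ * n + k := by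
      rw [Finset.sum_sub_distrib, hLsum i hi]
      have h2 := hAsum i hi
      have h3 : (i : ℝ) * (n / k) - N * i = r * (i / k) := by
        rw [hn]
        field_simp
        ring
      have h4 : (i : ℝ) / k ≤ 1 := by rw [div_le_one (by linarith)]; exact hir
      have h5 : 0 ≤ (r : ℝ) * (i / k) := by positivity
      have h6 : (r : ℝ) * (i / k) ≤ k := by
        have : (r : ℝ) ≤ k := by exact_mod_cast hr.le
        calc (r : ℝ) * (i / k) ≤ k * 1 := mul_le_mul this h4 (by positivity) (by positivity)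
          _ = k := mul_one _
      have h7 : (i : ℝ) * (2 * ε₁ * n) ≤ 2 * k * ε₁ * n := by
        have : (i : ℝ) * (2 * ε₁ * n) ≤ k * (2 * ε₁ * n) :=
          mul_le_mul_of_nonneg_right hir (by positivity)
        linarith
      rw [abs_le] at h2 ⊢
      constructor <;> linarith [h2.1, h2.2]
    refine le_trans (le_of_eq ?_) h1
    by_cases hcase : ∃ x, J x < i ∧ ¬ lvl x < i
    · obtain ⟨x, hx1, hx2⟩ := hcase
      have hpos : ∀ y, 0 ≤ A i y - L i y := by
        intro y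
        simp only [hA, hL]
        by_cases h3 : lvl y < i
        · have h4 : J y ≤ J x := hmono y x (by omega)
          rw [if_pos h3, if_pos (by omega)]
          norm_num
        · rw [if_neg h3]
          split_ifs <;> norm_num
      rw [abs_of_nonneg (Finset.sum_nonneg fun y _ => hpos y)]
      exact Finset.sum_congr rfl fun y _ => abs_of_nonneg (hpos y)
    · push Not at hcase
      have hneg : ∀ y, A i y - L i y ≤ 0 := by
        intro y
        simp only [hA, hL]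
        by_cases h3 : J y < i
        · rw [if_pos h3, if_pos (hcase y h3)]
          norm_num
        · rw [if_neg h3]
          split_ifs <;> norm_num
      rw [abs_of_nonpos (Finset.sum_nonpos fun y _ => hneg y), ← Finset.sum_neg_distrib]
      exact Finset.sum_congr rfl fun y _ => abs_of_nonpos (hneg y)
  -- assembly
  have hi1 := hdiff i i.2.le
  have hi2 := hdiff (i + 1) i.2
  have hpt : ∀ x, (gp i x - if lvl x = (i : ℕ) then 1 else 0) ^ 2 ≤
      4 * (gp i x - gm i x) + 2 * (|A i x - L i x| + |A (i + 1) x - L (i + 1) x|) := by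
    intro x
    set δ : ℝ := if lvl x = (i : ℕ) then 1 else 0 with hδ
    have h1 : χ i x - δ = (A (i + 1) x - L (i + 1) x) - (A i x - L i x) := by
      rw [hAs, hLs]
      ring
    have h2 : (χ i x - δ) ^ 2 = |χ i x - δ| := by
      simp only [hχ, hδ]
      split_ifs <;> norm_num
    have h3 : |χ i x - δ| ≤ |A i x - L i x| + |A (i + 1) x - L (i + 1) x| := by
      rw [h1]
      refine (norm_sub_le (A (i + 1) x - L (i + 1) x) (A i x - L i x)).trans (le_of_eq ?_)
      rw [Real.norm_eq_abs, Real.norm_eq_abs]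
      ring
    have h4 : (gp i x - χ i x) ^ 2 ≤ 2 * (gp i x - gm i x) := by
      have e1 : 0 ≤ gp i x - χ i x := sub_nonneg.2 (hχp i x)
      have e2 : gp i x - χ i x ≤ 2 := by
        have : 0 ≤ χ i x := by simp only [hχ]; split_ifs <;> norm_num
        linarith [(ha i x).2.1]
      have e3 : gp i x - χ i x ≤ gp i x - gm i x := by linarith [hχm i x]
      nlinarith
    have h5 : (gp i x - δ) ^ 2 ≤ 2 * (gp i x - χ i x) ^ 2 + 2 * (χ i x - δ) ^ 2 := by
      nlinarith [sq_nonneg ((gp i x - χ i x) - (χ i x - δ))]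
    rw [h2] at h5
    linarith
  refine (Finset.sum_le_sum fun x _ => hpt x).trans ?_
  rw [Finset.sum_add_distrib, ← Finset.mul_sum, ← Finset.mul_sum, Finset.sum_add_distrib,
    Finset.sum_sub_distrib]
  have h3 := (abs_le.1 (hd i).1).2
  have h4 := (abs_le.1 (hd i).2).1
  linarith

end aux

lemma lauM_conj {k N r : ℕ} (c : ℤ →₀ ℂ) (O : UG (JJ k N r)) (θ : JJ k N r → ℝ) :
    lauM c (O * eU (Matrix.diagonal fun x => (θ x : ℂ)) * O⁻¹) =
      (O : Matrix (JJ k N r) (JJ k N r) ℂ) * Matrix.diagonal (fun x => tpv c (θ x)) *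
        ((O⁻¹ : UG (JJ k N r)) : Matrix (JJ k N r) (JJ k N r) ℂ) := by
  have h1 : Matrix.diagonal (fun x => tpv c (θ x)) = ∑ m ∈ c.support,
      c m • (Matrix.diagonal fun x => Complex.exp (Complex.I * ((m * θ x : ℝ) : ℂ)) :
        Matrix (JJ k N r) (JJ k N r) ℂ) := by
    ext i j
    rw [Matrix.sum_apply]
    by_cases hij : i = j
    · subst hij
      simp only [Matrix.diagonal_apply_eq, Matrix.smul_apply, smul_eq_mul]
      rfl
    · rw [Matrix.diagonal_apply_ne _ hij]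
      symm
      refine Finset.sum_eq_zero fun m _ => ?_
      rw [Matrix.smul_apply, Matrix.diagonal_apply_ne _ hij, smul_zero]
  rw [h1, Matrix.mul_sum, Matrix.sum_mul]
  unfold lauM Finsupp.sum
  refine Finset.sum_congr rfl fun m _ => ?_
  dsimp only
  rw [eq_conj_zpow, Matrix.mul_smul, Matrix.smul_mul]

theorem equi {k : ℕ} (hk : 1 ≤ k) {ε : ℝ} (hε : 0 < ε) :
    ∃ q : Fin k → (ℤ →₀ ℂ), EquiP k q ε := by
  have hkr : (1 : ℝ) ≤ k := by exact_mod_cast hk
  have hpi : 0 < 2 * Real.pi := Real.two_pi_pos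
  set ε₁ : ℝ := ε ^ 2 / (2 * (16 + 8 * k)) with hε₁
  have hε₁0 : 0 < ε₁ := by positivity
  have hts : ∀ i : Fin k, ∃ cp cm : ℤ →₀ ℂ,
      (∀ x : ℝ, (tpv cp x).im = 0 ∧ (tpv cm x).im = 0) ∧
      (∀ x : ℝ, 0 ≤ (tpv cp x).re ∧ (tpv cp x).re ≤ 2 ∧ (tpv cm x).re ≤ 1) ∧
      (∀ (x : ℝ) (m : ℤ), 2 * Real.pi * i / k ≤ x + 2 * Real.pi * m →
        x + 2 * Real.pi * m ≤ 2 * Real.pi * (i + 1) / k → 1 ≤ (tpv cp x).re) ∧
      (∀ x : ℝ, (¬ ∃ m : ℤ, 2 * Real.pi * i / k < x + 2 * Real.pi * m ∧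
        x + 2 * Real.pi * m < 2 * Real.pi * (i + 1) / k) → (tpv cm x).re ≤ 0) ∧
      |(cp 0).re - 1 / k| ≤ ε₁ ∧ |(cm 0).re - 1 / k| ≤ ε₁ := by
    intro i
    have hik : ((i : ℕ) : ℝ) + 1 ≤ k := by exact_mod_cast i.2
    obtain ⟨cp, cm, h1, h2, h3, h4, h5, h6⟩ := trig_sandwich
      (s := 2 * Real.pi * i / k) (t := 2 * Real.pi * (i + 1) / k) (by positivity)
      (by
        apply div_lt_div_of_pos_right _ (by linarith)
        apply mul_lt_mul_of_pos_left _ hpi
        linarith)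
      (by
        rw [div_le_iff₀ (by linarith)]
        exact mul_le_mul_of_nonneg_left hik hpi.le) hε₁0
    have e : (2 * Real.pi * (i + 1) / k - 2 * Real.pi * i / k) / (2 * Real.pi) = 1 / k := by
      field_simp
      ring
    rw [e] at h5 h6
    exact ⟨cp, cm, h1, h2, h3, h4, h5, h6⟩
  choose cp cm h1 h2 h3 h4 h5 h6 using hts
  refine ⟨cp, ?_⟩
  set Cm : ℝ := (∑ i, ∑ m ∈ (cp i).support, ‖cp i m‖) + (∑ i, ∑ m ∈ (cm i).support, ‖cm i m‖) + 1
    with hCm
  have hs1 : ∀ i, 0 ≤ ∑ m ∈ (cp i).support, ‖cp i m‖ := fun i =>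
    Finset.sum_nonneg fun m _ => norm_nonneg _
  have hs2 : ∀ i, 0 ≤ ∑ m ∈ (cm i).support, ‖cm i m‖ := fun i =>
    Finset.sum_nonneg fun m _ => norm_nonneg _
  have hs1' := Finset.sum_nonneg (s := (Finset.univ : Finset (Fin k))) fun i _ => hs1 i
  have hs2' := Finset.sum_nonneg (s := (Finset.univ : Finset (Fin k))) fun i _ => hs2 i
  have hCm0 : 0 < Cm := by linarith
  have hCp : ∀ i, ∑ m ∈ (cp i).support, ‖cp i m‖ ≤ Cm := by
    intro i
    have := Finset.single_le_sum (f := fun i => ∑ m ∈ (cp i).support, ‖cp i m‖)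
      (fun i _ => hs1 i) (Finset.mem_univ i)
    linarith
  have hCmm : ∀ i, ∑ m ∈ (cm i).support, ‖cm i m‖ ≤ Cm := by
    intro i
    have := Finset.single_le_sum (f := fun i => ∑ m ∈ (cm i).support, ‖cm i m‖)
      (fun i _ => hs2 i) (Finset.mem_univ i)
    linarith
  set D : ℕ := (∑ i, ∑ m ∈ (cp i).support, m.natAbs) + (∑ i, ∑ m ∈ (cm i).support, m.natAbs)
    with hD
  have hDp : ∀ i, ∀ m ∈ (cp i).support, m.natAbs ≤ D := by
    intro i m hm
    have e1 : m.natAbs ≤ ∑ m ∈ (cp i).support, m.natAbs :=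
      Finset.single_le_sum (f := fun m : ℤ => m.natAbs) (fun _ _ => Nat.zero_le _) hm
    have e2 : ∑ m ∈ (cp i).support, m.natAbs ≤ ∑ i, ∑ m ∈ (cp i).support, m.natAbs :=
      Finset.single_le_sum (f := fun i => ∑ m ∈ (cp i).support, m.natAbs)
        (fun _ _ => Nat.zero_le _) (Finset.mem_univ i)
    omega
  have hDm : ∀ i, ∀ m ∈ (cm i).support, m.natAbs ≤ D := by
    intro i m hm
    have e1 : m.natAbs ≤ ∑ m ∈ (cm i).support, m.natAbs :=
      Finset.single_le_sum (f := fun m : ℤ => m.natAbs) (fun _ _ => Nat.zero_le _) hm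
    have e2 : ∑ m ∈ (cm i).support, m.natAbs ≤ ∑ i, ∑ m ∈ (cm i).support, m.natAbs :=
      Finset.single_le_sum (f := fun i => ∑ m ∈ (cm i).support, m.natAbs)
        (fun _ _ => Nat.zero_le _) (Finset.mem_univ i)
    omega
  refine ⟨ε₁ / Cm, D, ⌈8 * k / ε ^ 2⌉₊ + 1, by positivity, ?_⟩
  intro N r hrk hN O θ hθ hθ2 hmom i
  have hN1 : 1 ≤ N := by omega
  set n : ℝ := (Fintype.card (JJ k N r) : ℝ) with hn
  have hcard : n = (N : ℝ) * k + r := by
    rw [hn, card_JJ]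
    push_cast
    ring
  have hNr : (1 : ℝ) ≤ N := by exact_mod_cast hN1
  have hnN : (N : ℝ) ≤ n := by
    rw [hcard]
    have : (N : ℝ) * 1 ≤ N * k := mul_le_mul_of_nonneg_left hkr (by positivity)
    have h0 : (0 : ℝ) ≤ r := by positivity
    linarith
  have hn0 : 0 < n := by linarith
  have hne : Nonempty (JJ k N r) := by
    rw [← Fintype.card_pos_iff]
    have : (0 : ℝ) < (Fintype.card (JJ k N r) : ℝ) := hn0
    exact_mod_cast this
  have hmom' : ∀ m : ℕ, 1 ≤ m → m ≤ D →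
      ‖(Fintype.card (JJ k N r) : ℂ)⁻¹ * ∑ x, Complex.exp (Complex.I * ((m * θ x : ℝ) : ℂ))‖ ≤
        ε₁ / Cm := by
    intro m hm1 hm2
    rw [← eq_utr O θ m]
    exact hmom m hm1 hm2
  -- the means
  have hmean : ∀ c : ℤ →₀ ℂ, (∀ m ∈ c.support, m.natAbs ≤ D) → ∑ m ∈ c.support, ‖c m‖ ≤ Cm →
      |(c 0).re - 1 / k| ≤ ε₁ → |∑ x, (tpv c (θ x)).re - n / k| ≤ 2 * ε₁ * n := by
    intro c hc1 hc2 hc3
    have e1 := eq_mean c θ (by positivity : 0 ≤ ε₁ / Cm) hc1 hmom'
    have e2 : ε₁ / Cm * ∑ m ∈ c.support, ‖c m‖ ≤ ε₁ := by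
      calc ε₁ / Cm * ∑ m ∈ c.support, ‖c m‖ ≤ ε₁ / Cm * Cm :=
            mul_le_mul_of_nonneg_left hc2 (by positivity)
        _ = ε₁ := by field_simp
    have e3 := e1.trans e2
    rw [← hn] at e3
    have e4 : |n⁻¹ * ∑ x, (tpv c (θ x)).re - 1 / k| ≤ 2 * ε₁ := by
      rw [abs_le] at *
      constructor <;> linarith [e3.1, e3.2, hc3.1, hc3.2]
    have e5 : ∑ x, (tpv c (θ x)).re - n / k = n * (n⁻¹ * ∑ x, (tpv c (θ x)).re - 1 / k) := by
      field_simp
    rw [e5, abs_mul, abs_of_pos hn0]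
    calc n * |n⁻¹ * ∑ x, (tpv c (θ x)).re - 1 / k| ≤ n * (2 * ε₁) :=
          mul_le_mul_of_nonneg_left e4 hn0.le
      _ = 2 * ε₁ * n := by ring
  -- the classes
  set J : JJ k N r → ℕ := fun x => min ⌊(k : ℝ) * θ x / (2 * Real.pi)⌋₊ (k - 1) with hJ
  have hJk : ∀ x, J x < k := by
    intro x
    have : J x ≤ k - 1 := min_le_right _ _
    omega
  have hJmono : ∀ x y, lvl x < lvl y → J x ≤ J y := by
    intro x y hxy
    apply min_le_min_right
    apply Nat.floor_mono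
    apply div_le_div_of_nonneg_right _ hpi.le
    exact mul_le_mul_of_nonneg_left (hθ x y hxy) (by positivity)
  have hb : ∀ (i : Fin k) x, J x = i → 1 ≤ (tpv (cp i) (θ x)).re := by
    intro i x hx
    have hik : ((i : ℕ) : ℝ) + 1 ≤ k := by exact_mod_cast i.2
    refine h3 i (θ x) 0 ?_ ?_
    · rw [Int.cast_zero, mul_zero, add_zero, div_le_iff₀ (by linarith)]
      have e1 : (i : ℕ) ≤ ⌊(k : ℝ) * θ x / (2 * Real.pi)⌋₊ := by
        rw [← hx]
        exact min_le_left _ _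
      have e2 : ((i : ℕ) : ℝ) ≤ (k : ℝ) * θ x / (2 * Real.pi) :=
        (Nat.le_floor_iff (div_nonneg (mul_nonneg (by positivity) (hθ2 x).1) hpi.le)).1 e1
      rw [le_div_iff₀ hpi] at e2
      linarith
    · rw [Int.cast_zero, mul_zero, add_zero, le_div_iff₀ (by linarith)]
      rcases lt_or_ge ⌊(k : ℝ) * θ x / (2 * Real.pi)⌋₊ (k - 1) with h | h
      · have e1 : J x = ⌊(k : ℝ) * θ x / (2 * Real.pi)⌋₊ := min_eq_left h.le
        have e2 := Nat.lt_floor_add_one ((k : ℝ) * θ x / (2 * Real.pi))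
        rw [← e1, hx, div_lt_iff₀ hpi] at e2
        linarith
      · have e1 : J x = k - 1 := min_eq_right h
        have e2 : (i : ℕ) + 1 = k := by omega
        have e3 : ((i : ℕ) : ℝ) + 1 = k := by exact_mod_cast e2
        rw [e3]
        exact mul_le_mul_of_nonneg_right (hθ2 x).2 (by positivity)
  have hc : ∀ (i : Fin k) x, J x ≠ i → (tpv (cm i) (θ x)).re ≤ 0 := by
    intro i x hx
    have hik : ((i : ℕ) : ℝ) + 1 ≤ k := by exact_mod_cast i.2
    refine h4 i (θ x) ?_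
    rintro ⟨m, hm1, hm2⟩
    have hθx := hθ2 x
    have hs0 : 0 ≤ 2 * Real.pi * ((i : ℕ) : ℝ) / k := by positivity
    have ht0 : 2 * Real.pi * (((i : ℕ) : ℝ) + 1) / k ≤ 2 * Real.pi := by
      rw [div_le_iff₀ (by linarith)]
      exact mul_le_mul_of_nonneg_left hik hpi.le
    have hm0 : m = 0 := by
      by_contra hne
      rcases lt_or_gt_of_ne hne with h | h
      · have : (m : ℝ) ≤ -1 := by exact_mod_cast (by omega : m ≤ -1)
        nlinarith
      · have : (1 : ℝ) ≤ m := by exact_mod_cast (by omega : 1 ≤ m)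
        nlinarith
    rw [hm0, Int.cast_zero, mul_zero, add_zero] at hm1 hm2
    apply hx
    rw [div_lt_iff₀ (by linarith)] at hm1
    rw [lt_div_iff₀ (by linarith)] at hm2
    have e1 : ⌊(k : ℝ) * θ x / (2 * Real.pi)⌋₊ = (i : ℕ) := by
      rw [Nat.floor_eq_iff (div_nonneg (mul_nonneg (by positivity) hθx.1) hpi.le)]
      constructor
      · rw [le_div_iff₀ hpi]
        linarith
      · rw [div_lt_iff₀ hpi]
        linarith
    show min ⌊(k : ℝ) * θ x / (2 * Real.pi)⌋₊ (k - 1) = i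
    rw [e1]
    have := i.2
    omega
  have hcomb := eq_comb hk hrk J hJk hJmono (fun i x => (tpv (cp i) (θ x)).re)
    (fun i x => (tpv (cm i) (θ x)).re) hε₁0.le n hcard (fun i x => h2 i (θ x)) hb hc
    (fun i => ⟨hmean _ (hDp i) (hCp i) (h5 i), hmean _ (hDm i) (hCmm i) (h6 i)⟩) i
  -- the norm
  rw [lauM_conj, ← Matrix.sub_mul, ← Matrix.mul_sub, n2_mul_unitary, n2_unitary_mul]
  have hsq : n2 (Matrix.diagonal (fun x => tpv (cp i) (θ x)) - pblk i) ^ 2 =
      n⁻¹ * ∑ x, ((tpv (cp i) (θ x)).re - if lvl x = (i : ℕ) then 1 else 0) ^ 2 := by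
    rw [n2_sq, ← hn]
    congr 1
    refine Finset.sum_congr rfl fun x _ => ?_
    rw [Finset.sum_eq_single x]
    · unfold pblk
      rw [Matrix.sub_apply, Matrix.diagonal_apply_eq, Matrix.diagonal_apply_eq]
      have e1 : tpv (cp i) (θ x) = (((tpv (cp i) (θ x)).re : ℝ) : ℂ) := by
        apply Complex.ext
        · simp
        · simp [(h1 i (θ x)).1]
      have e2 : tpv (cp i) (θ x) - (if lvl x = (i : ℕ) then (1 : ℂ) else 0) =
          (((tpv (cp i) (θ x)).re - (if lvl x = (i : ℕ) then (1 : ℝ) else 0) : ℝ) : ℂ) := by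
        conv_lhs => rw [e1]
        split_ifs <;> push_cast <;> rfl
      rw [e2, Complex.norm_real, Real.norm_eq_abs, sq_abs]
    · intro y _ hy
      unfold pblk
      rw [Matrix.sub_apply, Matrix.diagonal_apply_ne _ (Ne.symm hy),
        Matrix.diagonal_apply_ne _ (Ne.symm hy), sub_zero, norm_zero]
      norm_num
    · intro h
      exact absurd (Finset.mem_univ x) h
  have hle : n2 (Matrix.diagonal (fun x => tpv (cp i) (θ x)) - pblk i) ^ 2 ≤ ε ^ 2 := by
    rw [hsq]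
    have e1 : n⁻¹ * ∑ x, ((tpv (cp i) (θ x)).re - if lvl x = (i : ℕ) then 1 else 0) ^ 2 ≤
        n⁻¹ * (16 * ε₁ * n + 8 * k * ε₁ * n + 4 * k) :=
      mul_le_mul_of_nonneg_left hcomb (by positivity)
    have e2 : n⁻¹ * (16 * ε₁ * n + 8 * k * ε₁ * n + 4 * k) = (16 + 8 * k) * ε₁ + 4 * k / n := by
      field_simp
    have e3 : (16 + 8 * (k : ℝ)) * ε₁ = ε ^ 2 / 2 := by
      rw [hε₁]
      field_simp
    have e4 : 4 * (k : ℝ) / n ≤ ε ^ 2 / 2 := by
      have f1 : 8 * (k : ℝ) / ε ^ 2 ≤ n := by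
        have f2 : 8 * (k : ℝ) / ε ^ 2 ≤ (⌈8 * (k : ℝ) / ε ^ 2⌉₊ : ℝ) := Nat.le_ceil _
        have f3 : ((⌈8 * (k : ℝ) / ε ^ 2⌉₊ : ℕ) : ℝ) ≤ N := by
          exact_mod_cast (by omega : ⌈8 * (k : ℝ) / ε ^ 2⌉₊ ≤ N)
        linarith
      rw [div_le_iff₀ (by positivity)] at f1
      rw [div_le_iff₀ hn0]
      linarith
    linarith
  exact (sq_le_sq₀ (n2_nonneg _) hε.le).1 hle

end Pool.Agent.OGP
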