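import Mathlib

/-!
# OGP: elementary estimates shared by the union bounds FSUP, FINC, FPAIR
-/

namespace Pool.Agent.OGP

/-- The error terms of the tail bounds are small for large `k`. -/
lemma err_small (C c : ℝ) (hC : 0 ≤ C) (hc : 0 ≤ c) : ∃ k₀ : ℕ, 1 ≤ k₀ ∧ ∀ k : ℕ, k₀ ≤ k →
    ∀ N : ℕ, 1 ≤ N → ((N : ℝ) * k) ^ 2 * (C * (c / Real.sqrt k *
      (c / Real.sqrt k + 1 / ((N : ℝ) * k)) ^ 2)) ≤ (k : ℝ) * (N : ℝ) ^ 2 := by
  refine ⟨max 1 ⌈(C * c * (c + 1) ^ 2) ^ 2⌉₊, le_max_left _ _, fun k hk N hN => ?_⟩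
  have hk1 : (1 : ℝ) ≤ k := by exact_mod_cast (le_max_left _ _).trans hk
  have hN1 : (1 : ℝ) ≤ N := by exact_mod_cast hN
  have hk2 : (C * c * (c + 1) ^ 2) ^ 2 ≤ k :=
    (Nat.le_ceil _).trans (by exact_mod_cast (le_max_right _ _).trans hk)
  set s : ℝ := Real.sqrt k with hs
  have hs2 : s ^ 2 = k := Real.sq_sqrt (by positivity)
  have hs1 : 1 ≤ s := by
    rw [hs]
    exact Real.one_le_sqrt.2 hk1
  have hs3 : C * c * (c + 1) ^ 2 ≤ s := by
    rw [hs]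
    exact Real.le_sqrt_of_sq_le hk2
  have hs0 : 0 < s := by linarith
  have h1 : 1 / ((N : ℝ) * k) ≤ 1 / s := by
    apply one_div_le_one_div_of_le hs0
    rw [← hs2]
    nlinarith
  have h2 : (c / s + 1 / ((N : ℝ) * k)) ^ 2 ≤ ((c + 1) / s) ^ 2 := by
    apply pow_le_pow_left₀ (by positivity)
    rw [add_div]
    linarith
  calc ((N : ℝ) * k) ^ 2 * (C * (c / s * (c / s + 1 / ((N : ℝ) * k)) ^ 2))
      ≤ ((N : ℝ) * k) ^ 2 * (C * (c / s * ((c + 1) / s) ^ 2)) := by gcongr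
    _ = (N : ℝ) ^ 2 * k * ((C * c * (c + 1) ^ 2) / s) := by
        rw [← hs2]
        field_simp
    _ ≤ (N : ℝ) ^ 2 * k * 1 := by
        gcongr
        rw [div_le_one hs0]
        exact hs3
    _ = _ := by ring

/-- The main exponent. -/
lemma sqrt_div_eq (p k : ℕ) (hp : 1 ≤ p) :
    Real.sqrt (p * Real.log p / k) = Real.sqrt (p * Real.log p) / Real.sqrt k := by
  rw [Real.sqrt_div]
  have : 0 ≤ Real.log p := Real.log_natCast_nonneg p
  positivity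

end Pool.Agent.OGP
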