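import Pool.Agent.OGP.Free
import Pool.Agent.OGP.Alg

/-!
# OGP EVF: moments of two independent Haar unitaries (asymptotic freeness with rate)

`∫∫ |utr (g(U, V))|² ≤ C_g / n²` for every `g ≠ 1` in the free group.

Proof.  Let `g` have reduced word of length `ℓ ≥ 1` (`FreeGroup.toWord`, reduced).
* No letter `b`: `g = a^m`, `m ≠ 0`, `|utr (U^m)| = |utr (U^{|m|})|`, `pow_small_sq` with `Q = 1`.
* Otherwise group the letters: `g = a^{m_0} b^{ε_1} a^{m_1} ... b^{ε_l} a^{m_l}`, `l ≥ 1`, where
  `m_i ≠ 0` whenever `1 ≤ i < l` and `ε_i ≠ ε_{i+1}` (the word is reduced), `|m_i| ≤ ℓ`.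
  `utr (g(U,V)) = utr (wd V [(ε_1, U^{m_1}), ..., (ε_{l-1}, U^{m_{l-1}}), (ε_l, U^{m_l + m_0})])`.
  For fixed `U`, `free_word` applies with `δ(U) = ∑_{1 ≤ m ≤ ℓ} |utr (U^m)|`; integrate over `U`:
  `∫ (4^l (δ(U) + 1/n))² ≤ 2·16^l (ℓ ∑_m ∫ |utr U^m|² + 1/n²) ≤ C/n²` by `pow_small_sq`.
(Alternatively, induct on lists of letters instead of reduced words.)
Continuity of `(U, V) ↦ utr (evF U V g)`: `evF U V g` is a product of letters.
-/

open Matrix MeasureTheory
namespace Pool.Agent.OGP

lemma continuous_evF {ι : Type} [Fintype ι] [DecidableEq ι] (g : FreeGroup (Fin 2)) :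
    Continuous (fun x : UG ι × UG ι => evF x.1 x.2 g) := by
  induction g using FreeGroup.induction_on with
  | C1 => simp only [map_one]; exact continuous_const
  | of i =>
    simp only [evF, FreeGroup.lift_apply_of]
    fin_cases i
    · exact continuous_fst
    · exact continuous_snd
  | inv_of i h => simp only [map_inv]; exact h.inv
  | mul x y hx hy => simp only [map_mul]; exact hx.mul hy

/-- From a list of letters to a prefix power and a list of pairs (sign, exponent). -/
private def conv : List (Fin 2 × Bool) → ℤ × List (Bool × ℤ)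
  | [] => (0, [])
  | (i, s) :: w =>
    if i = 0 then ((if s then 1 else -1) + (conv w).1, (conv w).2)
    else (0, (s, (conv w).1) :: (conv w).2)

variable {ι : Type} [Fintype ι] [DecidableEq ι]

/-- The pairs (sign, power of `U`). -/
private def pw (U : UG ι) (T : List (Bool × ℤ)) : List (Bool × UG ι) :=
  T.map fun p => (p.1, U ^ p.2)

private lemma conv_val (U V : UG ι) (w : List (Fin 2 × Bool)) :
    evF U V (FreeGroup.mk w) = U ^ (conv w).1 * wd V (pw U (conv w).2) := by
  induction w with
  | nil =>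
    have : (FreeGroup.mk ([] : List (Fin 2 × Bool))) = 1 := rfl
    rw [this, map_one]
    simp [conv, pw, wd]
  | cons x w ih =>
    obtain ⟨i, s⟩ := x
    have hc : evF U V (FreeGroup.mk ((i, s) :: w)) =
        (cond s (![U, V] i) (![U, V] i)⁻¹) * evF U V (FreeGroup.mk w) := by
      simp only [evF, FreeGroup.lift_mk, List.map_cons, List.prod_cons]
    rw [hc, ih]
    fin_cases i
    · simp only [conv]
      cases s
      · simp [_root_.zpow_add, mul_assoc]
      · simp [_root_.zpow_add, mul_assoc]
    · simp only [conv]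
      cases s
      · simp [pw, wd, mul_assoc]
      · simp [pw, wd, mul_assoc]

/-- The chain relation on exponents. -/
private def RR (N : ℕ) (p q : Bool × ℤ) : Prop := p.1 ≠ q.1 → p.2 ≠ 0 ∧ p.2.natAbs ≤ N

private lemma RR_mono {N N' : ℕ} (h : N ≤ N') {p q : Bool × ℤ} (hp : RR N p q) : RR N' p q :=
  fun hne => ⟨(hp hne).1, (hp hne).2.trans h⟩

private lemma conv_natAbs (w : List (Fin 2 × Bool)) : (conv w).1.natAbs ≤ w.length := by
  induction w with
  | nil => simp [conv]
  | cons x w ih =>
    obtain ⟨i, s⟩ := x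
    simp only [conv, List.length_cons]
    split_ifs <;> simp <;> omega

private lemma conv_head (w : List (Fin 2 × Bool)) (hw : FreeGroup.IsReduced w) :
    (∀ s w', w = ((0 : Fin 2), s) :: w' → (s = true → 0 < (conv w).1) ∧
      (s = false → (conv w).1 < 0)) ∧
    (∀ s w', w = ((1 : Fin 2), s) :: w' → (conv w).1 = 0 ∧ ∃ m T, (conv w).2 = (s, m) :: T) ∧
    (w = [] → conv w = (0, [])) := by
  induction w with
  | nil => simp [conv]
  | cons x w ih =>
    have hw' : FreeGroup.IsReduced w := (List.isChain_cons.1 hw).2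
    obtain ⟨i1, i2, i3⟩ := ih hw'
    refine ⟨?_, ?_, by simp⟩
    · intro s w' h
      obtain ⟨rfl, rfl⟩ := List.cons.inj h
      simp only [conv, if_true]
      match w, hw, i1, i2, i3 with
      | [], _, _, _, i3 =>
        rw [i3 rfl]
        cases s <;> simp
      | (j, s') :: w'', hw, i1, i2, _ =>
        have hr := (FreeGroup.isReduced_cons_cons.1 hw).1
        fin_cases j
        · have : s = s' := hr rfl
          subst this
          have h1 := i1 s w'' rfl
          cases s
          · have := h1.2 rfl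
            simp at this ⊢
            omega
          · have := h1.1 rfl
            simp at this ⊢
            omega
        · have h1 := (i2 s' w'' rfl).1
          cases s
          · simp at h1 ⊢
            omega
          · simp at h1 ⊢
            omega
    · intro s w' h
      obtain ⟨rfl, rfl⟩ := List.cons.inj h
      simp [conv]

private lemma conv_chain (w : List (Fin 2 × Bool)) (hw : FreeGroup.IsReduced w) :
    (conv w).2.IsChain (RR w.length) := by
  induction w with
  | nil => simp [conv]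
  | cons x w ih =>
    have hw' : FreeGroup.IsReduced w := (List.isChain_cons.1 hw).2
    have ih' : (conv w).2.IsChain (RR (w.length + 1)) :=
      (ih hw').imp fun _ _ h => RR_mono (Nat.le_succ _) h
    obtain ⟨i, s⟩ := x
    simp only [conv, List.length_cons]
    by_cases hi : i = 0
    · rw [if_pos hi]
      exact ih'
    · rw [if_neg hi]
      refine List.isChain_cons.2 ⟨?_, ih'⟩
      intro y hy hne
      refine ⟨?_, (conv_natAbs w).trans (Nat.le_succ _)⟩
      intro h0
      simp only at h0 hne
      have hi1 : i = 1 := by omega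
      subst hi1
      obtain ⟨i1, i2, i3⟩ := conv_head w hw'
      match w, hw, i1, i2, i3, hy, h0 with
      | [], _, _, _, i3, hy, _ =>
        rw [i3 rfl] at hy
        simp at hy
      | (j, s') :: w'', hw, i1, i2, _, hy, h0 =>
        fin_cases j
        · have h1 := i1 s' w'' rfl
          cases s'
          · have := h1.2 rfl
            simp at this h0
            omega
          · have := h1.1 rfl
            simp at this h0
            omega
        · obtain ⟨_, m, T, hT⟩ := i2 s' w'' rfl
          simp only [Fin.mk_one, Fin.isValue] at hy hT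
          rw [hT] at hy
          simp only [List.head?_cons, Option.mem_def, Option.some.injEq] at hy
          have hr := (FreeGroup.isReduced_cons_cons.1 hw).1 rfl
          apply hne
          rw [← hy]
          exact hr

/-- The sum of the moments of `U`. -/
private noncomputable def del (N : ℕ) (U : UG ι) : ℝ := ∑ k ∈ Finset.range N, ‖utr (U ^ (k + 1))‖

private lemma del_nonneg (N : ℕ) (U : UG ι) : 0 ≤ del N U :=
  Finset.sum_nonneg fun _ _ => norm_nonneg _

private lemma norm_utr_zpow (U : UG ι) (m : ℤ) : ‖utr (U ^ m)‖ = ‖utr (U ^ m.natAbs)‖ := by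
  rcases Int.natAbs_eq m with h | h
  · conv_lhs => rw [h]
    rw [zpow_natCast]
  · conv_lhs => rw [h]
    rw [_root_.zpow_neg, zpow_natCast, utr_inv, norm_star]

private lemma le_del {N : ℕ} (U : UG ι) {m : ℤ} (h0 : m ≠ 0) (h : m.natAbs ≤ N) :
    ‖utr (U ^ m)‖ ≤ del N U := by
  rw [norm_utr_zpow]
  have h1 : m.natAbs - 1 ∈ Finset.range N := Finset.mem_range.2 (by omega)
  have h2 := Finset.single_le_sum (f := fun k => ‖utr (U ^ (k + 1))‖)
    (fun _ _ => norm_nonneg _) h1
  have e : m.natAbs - 1 + 1 = m.natAbs := by omega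
  simp only [e] at h2
  exact h2

private lemma word_fix [Nonempty ι] {N : ℕ} (m0 : ℤ) (T : List (Bool × ℤ)) (hT : T ≠ [])
    (hc : T.IsChain (RR N)) (U : UG ι) :
    ∫ V, ‖utr (U ^ m0 * wd V (pw U T))‖ ^ 2 ∂(haarU ι) ≤
      (4 ^ T.length * (del N U + 1 / (Fintype.card ι : ℝ))) ^ 2 := by
  obtain ⟨T1, p, rfl⟩ : ∃ T1 p, T = T1 ++ [p] := by
    refine ⟨T.dropLast, T.getLast hT, ?_⟩
    exact (List.dropLast_append_getLast hT).symm
  have hw : ∀ V : UG ι, utr (U ^ m0 * wd V (pw U (T1 ++ [p]))) =
      utr (wd V (pw U (T1 ++ [(p.1, p.2 + m0)]))) := by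
    intro V
    rw [utr_mul_comm]
    unfold pw
    simp only [List.map_append, List.map_cons, List.map_nil]
    rw [wd_append, wd_append, wd_cons, wd_cons, wd_nil]
    simp only [_root_.zpow_add, mul_one, mul_assoc]
  simp only [hw]
  have hc2 : (T1 ++ [(p.1, p.2 + m0)]).IsChain (RR N) := by
    rw [List.isChain_append] at hc ⊢
    refine ⟨hc.1, List.isChain_singleton _, ?_⟩
    intro x hx y hy
    simp only [List.head?_cons, Option.mem_def, Option.some.injEq] at hy
    subst hy
    exact hc.2.2 x hx p (by simp)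
  have hc3 : (pw U (T1 ++ [(p.1, p.2 + m0)])).IsChain
      (fun p q => p.1 ≠ q.1 → ‖utr p.2‖ ≤ del N U) := by
    unfold pw
    refine List.isChain_map_of_isChain _ ?_ hc2
    intro a b hab hne
    exact le_del U (hab hne).1 (hab hne).2
  have h := free_word (del_nonneg N U) (pw U (T1 ++ [(p.1, p.2 + m0)]))
    (by simp [pw]) hc3
  refine h.trans_eq ?_
  simp [pw]

private lemma evf_integrable {f : UG ι → ℝ} (hf : Continuous f) : Integrable f (haarU ι) :=
  (integrableOn_univ).1 (hf.continuousOn.integrableOn_compact isCompact_univ)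

private lemma evf_integrable2 {f : UG ι × UG ι → ℝ} (hf : Continuous f) :
    Integrable f ((haarU ι).prod (haarU ι)) :=
  (integrableOn_univ).1 (hf.continuousOn.integrableOn_compact isCompact_univ)

private lemma int_del [Nonempty ι] (N l : ℕ) :
    ∫ U, (4 ^ l * (del N U + 1 / (Fintype.card ι : ℝ))) ^ 2 ∂(haarU ι) ≤
      (2 * 16 ^ l * (N * ∑ k ∈ Finset.range N, (16 : ℝ) ^ (k + 1) + 1)) /
        (Fintype.card ι : ℝ) ^ 2 := by
  have hn : (0 : ℝ) < Fintype.card ι := by exact_mod_cast Fintype.card_pos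
  set n : ℝ := (Fintype.card ι : ℝ) with hnd
  have hpt : ∀ U : UG ι, (4 ^ l * (del N U + 1 / n)) ^ 2 ≤
      2 * 16 ^ l * (N * (∑ k ∈ Finset.range N, ‖utr (((1 : UG ι) * U) ^ (k + 1))‖ ^ 2) +
        1 / n ^ 2) := by
    intro U
    have h1 : (del N U) ^ 2 ≤ N * ∑ k ∈ Finset.range N, ‖utr (U ^ (k + 1))‖ ^ 2 := by
      have := sq_sum_le_card_mul_sum_sq (s := Finset.range N) (f := fun k => ‖utr (U ^ (k + 1))‖)
      simpa [del] using this
    have h2 : (4 ^ l * (del N U + 1 / n)) ^ 2 = 16 ^ l * (del N U + 1 / n) ^ 2 := by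
      rw [mul_pow, ← pow_mul, mul_comm l 2, pow_mul]
      norm_num
    have h3 : (del N U + 1 / n) ^ 2 ≤ 2 * (del N U ^ 2 + 1 / n ^ 2) := by
      have := add_sq_le (a := del N U) (b := 1 / n)
      have e : (1 / n) ^ 2 = 1 / n ^ 2 := by rw [div_pow, one_pow]
      rw [e] at this
      exact this
    rw [h2]
    simp only [one_mul]
    have h16 : (0 : ℝ) ≤ 16 ^ l := by positivity
    calc (16 : ℝ) ^ l * (del N U + 1 / n) ^ 2 ≤ 16 ^ l * (2 * (del N U ^ 2 + 1 / n ^ 2)) :=
          mul_le_mul_of_nonneg_left h3 h16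
      _ ≤ 16 ^ l * (2 * (N * ∑ k ∈ Finset.range N, ‖utr (U ^ (k + 1))‖ ^ 2 + 1 / n ^ 2)) := by
          gcongr
      _ = _ := by ring
  have hcs : ∀ k : ℕ, Continuous fun U : UG ι => ‖utr (((1 : UG ι) * U) ^ (k + 1))‖ ^ 2 :=
    fun k => ((continuous_utr.comp (by fun_prop)).norm).pow 2
  have hcd : Continuous fun U : UG ι => (4 ^ l * (del N U + 1 / n)) ^ 2 := by
    unfold del
    refine (continuous_const.mul ((continuous_finsetSum _ fun k _ => ?_).add
      continuous_const)).pow 2
    exact (continuous_utr.comp (by fun_prop)).norm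
  refine (integral_mono (evf_integrable hcd) (evf_integrable ?_) hpt).trans ?_
  · exact continuous_const.mul ((continuous_const.mul
      (continuous_finsetSum _ fun k _ => hcs k)).add continuous_const)
  rw [integral_const_mul, integral_add, integral_const_mul, integral_finsetSum]
  · have h4 : ∑ k ∈ Finset.range N, ∫ U, ‖utr (((1 : UG ι) * U) ^ (k + 1))‖ ^ 2 ∂(haarU ι) ≤
        (∑ k ∈ Finset.range N, (16 : ℝ) ^ (k + 1)) / n ^ 2 := by
      rw [Finset.sum_div]
      refine Finset.sum_le_sum fun k _ => ?_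
      refine (pow_small_sq (1 : UG ι) (m := k + 1) (by omega)).trans_eq ?_
      rw [div_pow, ← pow_mul, mul_comm (k + 1) 2, pow_mul, ← hnd]
      norm_num
    have h5 : ∫ _U : UG ι, (1 / n ^ 2 : ℝ) ∂(haarU ι) = 1 / n ^ 2 := by simp
    rw [h5]
    calc _ ≤ 2 * 16 ^ l * (N * ((∑ k ∈ Finset.range N, (16 : ℝ) ^ (k + 1)) / n ^ 2) +
          1 / n ^ 2) := by gcongr
      _ = _ := by field_simp
  · exact fun k _ => evf_integrable (hcs k)
  · exact evf_integrable (continuous_const.mul (continuous_finsetSum _ fun k _ => hcs k))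
  · exact evf_integrable continuous_const

theorem ev_small (g : FreeGroup (Fin 2)) (hg : g ≠ 1) : ∃ C : ℝ, 0 ≤ C ∧
    ∀ (ι : Type) [Fintype ι] [DecidableEq ι] [Nonempty ι],
      ∫ x : UG ι × UG ι, ‖utr (evF x.1 x.2 g)‖ ^ 2 ∂((haarU ι).prod (haarU ι)) ≤
        C / (Fintype.card ι : ℝ) ^ 2 := by
  set w := g.toWord with hwdef
  have hgw : g = FreeGroup.mk w := FreeGroup.mk_toWord.symm
  have hred : FreeGroup.IsReduced w := FreeGroup.isReduced_toWord
  have hne : w ≠ [] := fun h => hg (FreeGroup.toWord_eq_nil_iff.1 h)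
  set N := w.length with hN
  by_cases hT : (conv w).2 = []
  · have hm : (conv w).1 ≠ 0 := by
      obtain ⟨i1, i2, _⟩ := conv_head w hred
      obtain ⟨⟨i, s⟩, w', hw'⟩ := List.exists_cons_of_ne_nil hne
      by_cases hi : i = 0
      · subst hi
        have h1 := i1 s w' hw'
        cases s
        · exact (h1.2 rfl).ne
        · exact (h1.1 rfl).ne'
      · have hi1 : i = 1 := by omega
        subst hi1
        obtain ⟨_, m, T, h2⟩ := i2 s w' hw'
        rw [hT] at h2
        simp at h2
    refine ⟨16 ^ (conv w).1.natAbs, by positivity, ?_⟩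
    intro ι _ _ _
    have h1 : ∀ x : UG ι × UG ι, ‖utr (evF x.1 x.2 g)‖ ^ 2 =
        ‖utr (((1 : UG ι) * x.1) ^ (conv w).1.natAbs)‖ ^ 2 := by
      intro x
      rw [hgw, conv_val, hT]
      simp only [pw, List.map_nil, wd_nil, mul_one, one_mul]
      rw [norm_utr_zpow]
    have h1' : (fun x : UG ι × UG ι => ‖utr (evF x.1 x.2 g)‖ ^ 2) =
        fun x => ‖utr (((1 : UG ι) * x.1) ^ (conv w).1.natAbs)‖ ^ 2 := funext h1
    rw [h1']
    rw [integral_prod (fun x : UG ι × UG ι =>
      ‖utr (((1 : UG ι) * x.1) ^ (conv w).1.natAbs)‖ ^ 2) (evf_integrable2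
        (((continuous_utr.comp (by fun_prop)).norm).pow 2))]
    simp only [integral_const, probReal_univ, one_smul]
    refine (pow_small_sq (1 : UG ι) (m := (conv w).1.natAbs) (by omega)).trans_eq ?_
    rw [div_pow, ← pow_mul, mul_comm _ 2, pow_mul]
    norm_num
  · have h0 : (0 : ℝ) ≤ ∑ k ∈ Finset.range N, (16 : ℝ) ^ (k + 1) :=
      Finset.sum_nonneg fun _ _ => by positivity
    refine ⟨2 * 16 ^ (conv w).2.length * (N * ∑ k ∈ Finset.range N, (16 : ℝ) ^ (k + 1) + 1),
      mul_nonneg (mul_nonneg (by norm_num) (pow_nonneg (by norm_num) _))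
        (add_nonneg (mul_nonneg (Nat.cast_nonneg _) h0) zero_le_one), ?_⟩
    intro ι _ _ _
    rw [integral_prod (fun x : UG ι × UG ι => ‖utr (evF x.1 x.2 g)‖ ^ 2) (evf_integrable2
        (((continuous_utr.comp (continuous_evF g)).norm).pow 2))]
    refine le_trans ?_ (int_del (ι := ι) N (conv w).2.length)
    refine integral_mono ?_ ?_ ?_
    · exact (evf_integrable2
        (((continuous_utr.comp (continuous_evF g)).norm).pow 2)).integral_prod_left
    · refine evf_integrable ?_
      unfold del
      refine (continuous_const.mul ((continuous_finsetSum _ fun k _ => ?_).add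
        continuous_const)).pow 2
      exact (continuous_utr.comp (by fun_prop)).norm
    · intro U
      have h := word_fix (ι := ι) (conv w).1 (conv w).2 hT (conv_chain w hred) U
      simp only
      refine le_trans (le_of_eq ?_) h
      refine integral_congr_ae (Filter.Eventually.of_forall fun V => ?_)
      simp only
      rw [hgw, conv_val]

end Pool.Agent.OGP
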