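import Pool.Agent.OGP.Mom
import Pool.Agent.OGP.Lvl

/-!
# OGP REIDX: change of the index set

`reU e V` is the matrix `V` reindexed along `e : ι ≃ κ`.  Everything is immediate from
`Matrix.reindex` being an algebra and star isomorphism (`Matrix.reindexAlgEquiv`), and
`haar_reU` from the uniqueness of the Haar measure (`eq_haarU`): `reU e` is a bijective continuous
group homomorphism.
-/

open Matrix MeasureTheory
namespace Pool.Agent.OGP

variable {ι κ : Type} [Fintype ι] [DecidableEq ι] [Fintype κ] [DecidableEq κ]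

/-- Reindexing of a unitary matrix. -/
noncomputable def reU (e : ι ≃ κ) (V : UG ι) : UG κ :=
  ⟨Matrix.reindex e e (V : Matrix ι ι ℂ), by
    rw [Matrix.mem_unitaryGroup_iff, Matrix.star_eq_conjTranspose, Matrix.reindex_apply,
      Matrix.conjTranspose_submatrix, Matrix.submatrix_mul_equiv]
    have h : (V : Matrix ι ι ℂ) * (V : Matrix ι ι ℂ)ᴴ = 1 := Matrix.mem_unitaryGroup_iff.1 V.2
    rw [h]
    exact Matrix.submatrix_one_equiv _⟩

lemma reU_coe (e : ι ≃ κ) (V : UG ι) :
    ((reU e V : UG κ) : Matrix κ κ ℂ) = Matrix.reindex e e (V : Matrix ι ι ℂ) := rfl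

lemma reU_mul (e : ι ≃ κ) (V W : UG ι) : reU e (V * W) = reU e V * reU e W := by
  apply Subtype.ext
  rw [reU_coe, UG_coe_mul, UG_coe_mul, reU_coe, reU_coe, Matrix.reindex_apply,
    Matrix.reindex_apply, Matrix.reindex_apply, Matrix.submatrix_mul_equiv]

lemma reU_one (e : ι ≃ κ) : reU e (1 : UG ι) = 1 := by
  apply Subtype.ext
  rw [reU_coe, UG_coe_one, UG_coe_one, Matrix.reindex_apply, Matrix.submatrix_one_equiv]

/-- Reindexing as a homomorphism. -/
noncomputable def reH (e : ι ≃ κ) : UG ι →* UG κ where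
  toFun := reU e
  map_one' := reU_one e
  map_mul' := reU_mul e

lemma reU_inv (e : ι ≃ κ) (V : UG ι) : reU e V⁻¹ = (reU e V)⁻¹ := map_inv (reH e) V
lemma reU_pow (e : ι ≃ κ) (V : UG ι) (m : ℕ) : reU e (V ^ m) = reU e V ^ m := map_pow (reH e) V m
lemma reU_zpow (e : ι ≃ κ) (V : UG ι) (m : ℤ) : reU e (V ^ m) = reU e V ^ m :=
  map_zpow (reH e) V m

lemma reU_symm (e : ι ≃ κ) (V : UG κ) : reU e (reU e.symm V) = V := by
  apply Subtype.ext
  rw [reU_coe, reU_coe, Matrix.reindex_apply, Matrix.reindex_apply]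
  ext i j
  simp

lemma continuous_reU (e : ι ≃ κ) : Continuous (reU e : UG ι → UG κ) := by
  refine Continuous.subtype_mk ?_ _
  refine continuous_matrix fun i j => ?_
  simp only [Matrix.reindex_apply, Matrix.submatrix_apply]
  exact (continuous_subtype_val.matrix_elem _ _)

omit [DecidableEq ι] [DecidableEq κ] in
lemma ntr_reindex (e : ι ≃ κ) (X : Matrix ι ι ℂ) : ntr (Matrix.reindex e e X) = ntr X := by
  unfold ntr
  rw [Fintype.card_congr e]
  congr 1
  rw [Matrix.trace, Matrix.trace]
  simp only [Matrix.diag_apply, Matrix.reindex_apply, Matrix.submatrix_apply]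
  exact e.symm.sum_comp fun i => X i i

omit [DecidableEq ι] [DecidableEq κ] in
lemma n2_reindex (e : ι ≃ κ) (X : Matrix ι ι ℂ) : n2 (Matrix.reindex e e X) = n2 X := by
  unfold n2
  rw [Fintype.card_congr e]
  congr 2
  simp only [Matrix.reindex_apply, Matrix.submatrix_apply]
  rw [e.symm.sum_comp fun i => ∑ j, ‖X i (e.symm j)‖ ^ 2]
  refine Finset.sum_congr rfl fun i _ => ?_
  exact e.symm.sum_comp fun j => ‖X i j‖ ^ 2

lemma utr_reU (e : ι ≃ κ) (V : UG ι) : utr (reU e V) = utr V := ntr_reindex e _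

lemma Tp_reU (e : ι ≃ κ) (p : ℕ) (V W : UG ι) : Tp p (reU e V) (reU e W) = Tp p V W := by
  unfold Tp
  rw [← reU_mul, ← reU_pow, utr_reU]

lemma lauM_reU (e : ι ≃ κ) (c : ℤ →₀ ℂ) (U : UG ι) :
    lauM c (reU e U) = Matrix.reindex e e (lauM c U) := by
  unfold lauM Finsupp.sum
  ext i j
  simp only [Matrix.reindex_apply, Matrix.submatrix_apply, Matrix.sum_apply, Matrix.smul_apply,
    ← reU_zpow, reU_coe]

/-- Commutators with Laurent polynomials have the same norm after reindexing. -/
lemma comm_reU (e : ι ≃ κ) (c : ℤ →₀ ℂ) (U W : UG ι) :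
    n2 ((reU e W : Matrix κ κ ℂ) * lauM c (reU e U) - lauM c (reU e U) * (reU e W : Matrix κ κ ℂ)) =
      n2 ((W : Matrix ι ι ℂ) * lauM c U - lauM c U * (W : Matrix ι ι ℂ)) := by
  rw [← n2_reindex e, lauM_reU, reU_coe]
  congr 1
  rw [Matrix.reindex_apply, Matrix.reindex_apply, Matrix.reindex_apply, Matrix.submatrix_mul_equiv,
    Matrix.submatrix_mul_equiv]
  rfl

lemma reU_surj (e : ι ≃ κ) : Function.Surjective (reU e : UG ι → UG κ) := fun V =>
  ⟨reU e.symm V, reU_symm e V⟩

theorem haar_reU (e : ι ≃ κ) : (haarU ι).map (reU e) = haarU κ := by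
  have hm : Measurable (reU e : UG ι → UG κ) := (continuous_reU e).measurable
  have : IsProbabilityMeasure ((haarU ι).map (reU e)) :=
    Measure.isProbabilityMeasure_map hm.aemeasurable
  have : ((haarU ι).map (reU e)).IsMulLeftInvariant := by
    constructor
    intro g
    obtain ⟨h, rfl⟩ := reU_surj e g
    rw [Measure.map_map (measurable_const_mul _) hm]
    have e1 : (fun x => reU e h * x) ∘ (reU e : UG ι → UG κ) = reU e ∘ (fun x => h * x) := by
      ext1 x
      simp [reU_mul]
    rw [e1, ← Measure.map_map hm (measurable_const_mul _), map_mul_left_eq_self]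
  exact eq_haarU κ _

theorem haar_reU_prod (e : ι ≃ κ) :
    ((haarU ι).prod (haarU ι)).map (fun x => (reU e x.1, reU e x.2)) =
      (haarU κ).prod (haarU κ) := by
  have hm : Measurable (reU e : UG ι → UG κ) := (continuous_reU e).measurable
  have h := Measure.map_prod_map (haarU ι) (haarU ι) hm hm
  rw [haar_reU] at h
  exact h.symm

end Pool.Agent.OGP
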