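import Pool.Agent.OGP.Gset
import Pool.Agent.OGP.Reidx

/-!
# OGP EXSIDE: the existence side, almost surely

`(U_n, V_n)` has law `haar × haar` on `UG (Fin (n+1))`.  Fix `p, k ≥ 1` as in `gmain`.
For every `n` let `N = (n+1)/k`, `r = (n+1) % k`, and `e_n : Fin (n+1) ≃ JJ k N r` any equivalence
(`card_JJ`).  By `haar_reU_prod`, `GoodG_prob`, `gmain` (for `n` large, so that `N ≥ N₀`),
`P ((reU e_n U_n, reU e_n V_n) ∉ GoodG) ≤ exp (-(n+1)²/(kp))`, summable: Borel-Cantelli
(`MeasureTheory.measure_limsup_atTop_eq_zero`).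
`moments_ae`: `∫ |utr (U_n^m)|² ≤ 16^m/(n+1)²` is summable, so `∑_n |utr (U_n^m)|² < ∞` almost surely
(Tonelli), hence `utr (U_n^m) → 0`; countable intersection over `m ≥ 1`.
Take `W_n = reU e_n⁻¹ W` with `W` of `GoodG_comm` (and `W_n = 1` for the finitely many bad `n`).
For `q, ε` with `EquiP k q ε` (constants `ε', D, n₀`) and `n` large, all `|utr (U_n^m)| ≤ ε'`,
`1 ≤ m ≤ D`, and `N ≥ n₀`: so the distance in `EquiP` is `≤ ε` and `GoodG_comm` (`δ = ε`), `comm_reU`
give the commutator bound `2 ε`.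
-/

open Matrix MeasureTheory Filter
namespace Pool.Agent.OGP

private lemma ae_tendsto_zero {Ω : Type*} [MeasurableSpace Ω] (P : Measure Ω)
    (X : ℕ → Ω → ℂ) (hX : ∀ n, Measurable (X n)) (C : ℝ)
    (h1 : ∀ n, ∫⁻ ω, ENNReal.ofReal (‖X n ω‖ ^ 2) ∂P ≤ ENNReal.ofReal (C / ((n : ℝ) + 1) ^ 2)) :
    ∀ᵐ ω ∂P, Tendsto (fun n => X n ω) atTop (nhds 0) := by
  have hmeas : ∀ n, Measurable fun ω => ENNReal.ofReal (‖X n ω‖ ^ 2) := fun n =>
    ENNReal.measurable_ofReal.comp ((hX n).norm.pow_const 2)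
  have h2 : ∫⁻ ω, ∑' n : ℕ, ENNReal.ofReal (‖X n ω‖ ^ 2) ∂P ≠ ⊤ := by
    rw [lintegral_tsum fun n => (hmeas n).aemeasurable]
    have hs : Summable fun n : ℕ => C / ((n : ℝ) + 1) ^ 2 := by
      have h3 : Summable fun n : ℕ => 1 / ((n : ℝ) + 1) ^ 2 := by
        have h4 := (summable_nat_add_iff (f := fun n : ℕ => 1 / (n : ℝ) ^ 2) 1).2
          (Real.summable_one_div_nat_pow.2 (by norm_num))
        refine h4.congr fun n => ?_
        push_cast
        rfl
      refine (h3.mul_left C).congr fun n => ?_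
      rw [mul_one_div]
    refine ne_top_of_le_ne_top ?_ (ENNReal.tsum_le_tsum h1)
    exact hs.tsum_ofReal_ne_top
  have hmeas2 : Measurable fun ω => ∑' n : ℕ, ENNReal.ofReal (‖X n ω‖ ^ 2) :=
    Measurable.tsum hmeas
  have h3 := ae_lt_top hmeas2 h2
  filter_upwards [h3] with ω hω
  have h4 := ENNReal.tendsto_atTop_zero_of_tsum_ne_top hω.ne
  have h5 : Tendsto (fun n => ‖X n ω‖ ^ 2) atTop (nhds 0) := by
    have h6 := (ENNReal.tendsto_toReal (by simp : (0 : ENNReal) ≠ ⊤)).comp h4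
    refine h6.congr fun n => ?_
    exact ENNReal.toReal_ofReal (by positivity)
  have h6 := (Real.continuous_sqrt.tendsto 0).comp h5
  rw [Real.sqrt_zero] at h6
  refine tendsto_zero_iff_norm_tendsto_zero.2 (h6.congr fun n => ?_)
  exact Real.sqrt_sq (norm_nonneg _)

/-- The moment of a group element. -/
private noncomputable def mo (g : FreeGroup (Fin 2)) {ι : Type} [Fintype ι] [DecidableEq ι]
    (x : UG ι × UG ι) : ℂ := utr (evF x.1 x.2 g)

private lemma continuous_mo (g : FreeGroup (Fin 2)) {ι : Type} [Fintype ι] [DecidableEq ι] :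
    Continuous (mo g : UG ι × UG ι → ℂ) := by
  have h1 := (continuous_evF (ι := ι) g)
  have h2 := continuous_utr.comp h1
  exact h2

private lemma free_ae_one {Ω : Type*} [MeasurableSpace Ω] (P : Measure Ω) [IsProbabilityMeasure P]
    (U V : ∀ n : ℕ, Ω → UG (Fin (n + 1))) (hU : ∀ n, Measurable (U n))
    (hV : ∀ n, Measurable (V n))
    (hlaw : ∀ n, P.map (fun ω => (U n ω, V n ω)) =
      (haarU (Fin (n + 1))).prod (haarU (Fin (n + 1)))) (g : FreeGroup (Fin 2)) (hg : g ≠ 1) :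
    ∀ᵐ ω ∂P, Tendsto (fun n => mo g (U n ω, V n ω)) atTop (nhds 0) := by
  obtain ⟨C, hC, h⟩ := ev_small g hg
  have hm : ∀ n, Measurable fun ω => (U n ω, V n ω) := fun n => (hU n).prodMk (hV n)
  refine ae_tendsto_zero P (fun n ω => mo g (U n ω, V n ω))
    (fun n => (continuous_mo g).measurable.comp (hm n)) C fun n => ?_
  have hc : Continuous fun x : UG (Fin (n + 1)) × UG (Fin (n + 1)) => ‖mo g x‖ ^ 2 :=
    (continuous_mo g).norm.pow 2
  have hmeas : Measurable fun x : UG (Fin (n + 1)) × UG (Fin (n + 1)) =>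
      ENNReal.ofReal (‖mo g x‖ ^ 2) := ENNReal.measurable_ofReal.comp hc.measurable
  have h2 : ∫⁻ ω, ENNReal.ofReal (‖mo g (U n ω, V n ω)‖ ^ 2) ∂P =
      ∫⁻ x, ENNReal.ofReal (‖mo g x‖ ^ 2)
        ∂((haarU (Fin (n + 1))).prod (haarU (Fin (n + 1)))) := by
    rw [← hlaw n, lintegral_map hmeas (hm n)]
  rw [h2, ← ofReal_integral_eq_lintegral_ofReal]
  · refine ENNReal.ofReal_le_ofReal ?_
    have h3 := h (Fin (n + 1))
    rw [Fintype.card_fin] at h3
    push_cast at h3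
    exact h3
  · exact hc.integrable_of_hasCompactSupport (HasCompactSupport.of_compactSpace _)
  · exact Filter.Eventually.of_forall fun x => by positivity

/-- Asymptotic freeness almost surely (Voiculescu). -/
theorem free_ae {Ω : Type*} [MeasurableSpace Ω] (P : Measure Ω) [IsProbabilityMeasure P]
    (U V : ∀ n : ℕ, Ω → UG (Fin (n + 1))) (hU : ∀ n, Measurable (U n))
    (hV : ∀ n, Measurable (V n))
    (hlaw : ∀ n, P.map (fun ω => (U n ω, V n ω)) =
      (haarU (Fin (n + 1))).prod (haarU (Fin (n + 1)))) :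
    ∀ᵐ ω ∂P, ∀ g : FreeGroup (Fin 2), g ≠ 1 →
      Tendsto (fun n => utr (evF (U n ω) (V n ω) g)) atTop (nhds 0) := by
  have : Countable (FreeGroup (Fin 2)) :=
    Function.Surjective.countable (f := (FreeGroup.mk : List (Fin 2 × Bool) → FreeGroup (Fin 2)))
      (fun g => Quot.exists_rep g)
  rw [ae_all_iff]
  intro g
  by_cases hg : g = 1
  · exact Filter.Eventually.of_forall fun ω h => absurd hg h
  · filter_upwards [free_ae_one P U V hU hV hlaw g hg] with ω hω _
    exact hω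

theorem moments_ae {Ω : Type*} [MeasurableSpace Ω] (P : Measure Ω) [IsProbabilityMeasure P]
    (U V : ∀ n : ℕ, Ω → UG (Fin (n + 1))) (hU : ∀ n, Measurable (U n))
    (hV : ∀ n, Measurable (V n))
    (hlaw : ∀ n, P.map (fun ω => (U n ω, V n ω)) =
      (haarU (Fin (n + 1))).prod (haarU (Fin (n + 1)))) :
    ∀ᵐ ω ∂P, ∀ m : ℕ, 1 ≤ m → Tendsto (fun n => utr ((U n ω) ^ m)) atTop (nhds 0) := by
  filter_upwards [free_ae P U V hU hV hlaw] with ω hω m hm
  have h1 : ((FreeGroup.of (0 : Fin 2)) ^ m : FreeGroup (Fin 2)) ≠ 1 := by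
    intro h
    have h2 : (FreeGroup.of (0 : Fin 2)) = 1 := by
      have h3 : (FreeGroup.of (0 : Fin 2)) ^ m = 1 ^ m := by rw [h, one_pow]
      exact pow_left_injective (by omega : m ≠ 0) h3
    exact FreeGroup.of_ne_one _ h2
  refine (hω _ h1).congr fun n => ?_
  rw [map_pow, evF_of_zero]

private noncomputable def en (k n : ℕ) : Fin (n + 1) ≃ JJ k ((n + 1) / k) ((n + 1) % k) :=
  Fintype.equivOfCardEq (by
    rw [card_JJ, Fintype.card_fin]
    exact (Nat.div_add_mod' (n + 1) k).symm)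

theorem ex_side : ∃ p₀ : ℕ, ∀ p : ℕ, p₀ ≤ p → ∃ k₀ : ℕ, ∀ k : ℕ, k₀ ≤ k →
    ∀ {Ω : Type*} [MeasurableSpace Ω] (P : Measure Ω) [IsProbabilityMeasure P]
    (U V : ∀ n : ℕ, Ω → UG (Fin (n + 1))), (∀ n, Measurable (U n)) → (∀ n, Measurable (V n)) →
    (∀ n, P.map (fun ω => (U n ω, V n ω)) =
      (haarU (Fin (n + 1))).prod (haarU (Fin (n + 1)))) →
    ∀ᵐ ω ∂P, ∃ W : ∀ n : ℕ, UG (Fin (n + 1)),
      (∀ᶠ n in atTop, Real.sqrt (39 / 100 * (p * Real.log p / k)) ≤
        (Tp p (V n ω) (W n)).re) ∧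
      ∀ (q : Fin k → (ℤ →₀ ℂ)) (ε : ℝ), EquiP k q ε → ∀ i, ∀ᶠ n in atTop,
        n2 ((W n : Matrix (Fin (n + 1)) (Fin (n + 1)) ℂ) * lauM (q i) (U n ω) -
          lauM (q i) (U n ω) * (W n : Matrix (Fin (n + 1)) (Fin (n + 1)) ℂ)) ≤ 2 * ε := by
  obtain ⟨p₀, hp₀⟩ := gmain
  refine ⟨max p₀ 1, fun p hp => ?_⟩
  obtain ⟨k₀, hk₀⟩ := hp₀ p ((le_max_left _ _).trans hp)
  have hp1 : 1 ≤ p := (le_max_right _ _).trans hp
  refine ⟨max k₀ 1, fun k hk => ?_⟩
  obtain ⟨N₀, hN₀⟩ := hk₀ k ((le_max_left _ _).trans hk)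
  have hk1 : 1 ≤ k := (le_max_right _ _).trans hk
  intro Ω _ P _ U V hU hV hlaw
  set E : ℝ := Real.sqrt (39 / 100 * (p * Real.log p / k)) with hE
  have hdiv : Tendsto (fun n : ℕ => (n + 1) / k) atTop atTop := by
    rw [tendsto_atTop]
    intro b
    filter_upwards [eventually_ge_atTop (b * k)] with n hn
    rw [Nat.le_div_iff_mul_le (by omega)]
    omega
  obtain ⟨n₁, hn₁⟩ := eventually_atTop.1 (hdiv.eventually_ge_atTop N₀)
  -- the bad events
  set Z : ∀ n : ℕ, Ω → UG (JJ k ((n + 1) / k) ((n + 1) % k)) × UG (JJ k ((n + 1) / k) ((n + 1) % k)) :=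
    fun n ω => (reU (en k n) (U n ω), reU (en k n) (V n ω)) with hZ
  have hZm : ∀ n, Measurable (Z n) := fun n =>
    ((continuous_reU (en k n)).measurable.comp (hU n)).prodMk
      ((continuous_reU (en k n)).measurable.comp (hV n))
  have hZlaw : ∀ n, P.map (Z n) = (haarU (JJ k ((n + 1) / k) ((n + 1) % k))).prod
      (haarU (JJ k ((n + 1) / k) ((n + 1) % k))) := by
    intro n
    have h1 : Measurable fun x : UG (Fin (n + 1)) × UG (Fin (n + 1)) =>
        (reU (en k n) x.1, reU (en k n) x.2) :=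
      ((continuous_reU (en k n)).measurable.comp measurable_fst).prodMk
        ((continuous_reU (en k n)).measurable.comp measurable_snd)
    rw [← haar_reU_prod (en k n), ← hlaw n, Measure.map_map h1 ((hU n).prodMk (hV n))]
    rfl
  have hbad : ∀ n, n₁ ≤ n → P (Z n ⁻¹' (GoodG p k ((n + 1) / k) ((n + 1) % k) E)ᶜ) ≤
      ENNReal.ofReal (Real.exp (-(1 / (k * p : ℝ))) ^ (n + 1)) := by
    intro n hn
    rw [← Measure.map_apply (hZm n) (GoodG_closed _ _ _ _ _).measurableSet.compl, hZlaw n]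
    have h1 := GoodG_prob p k ((n + 1) / k) ((n + 1) % k) E
    have h2 := hN₀ ((n + 1) / k) (hn₁ n hn) ((n + 1) % k) (Nat.mod_lt _ (by omega))
    have h3 := h1.trans h2
    rw [Nat.div_add_mod' (n + 1) k] at h3
    have h4 : Real.exp (-(((n + 1 : ℕ) : ℝ) ^ 2 / (k * p))) ≤
        Real.exp (-(1 / (k * p : ℝ))) ^ (n + 1) := by
      rw [← Real.exp_nat_mul]
      refine Real.exp_le_exp.2 ?_
      have hkp : (0 : ℝ) < k * p := by
        have : (0 : ℝ) < k := by exact_mod_cast hk1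
        have : (0 : ℝ) < p := by exact_mod_cast hp1
        positivity
      have hn1 : (1 : ℝ) ≤ ((n + 1 : ℕ) : ℝ) := by
        exact_mod_cast Nat.succ_le_succ (Nat.zero_le n)
      rw [mul_neg, neg_le_neg_iff, mul_one_div]
      exact div_le_div_of_nonneg_right (by nlinarith) hkp.le
    rw [← ENNReal.ofReal_toReal (measure_ne_top _ _)]
    exact ENNReal.ofReal_le_ofReal (h3.trans h4)
  have hae : ∀ᵐ ω ∂P, ∀ᶠ n in atTop, Z n ω ∈ GoodG p k ((n + 1) / k) ((n + 1) % k) E := by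
    set S : ℕ → Set Ω := fun n =>
      if n₁ ≤ n then Z n ⁻¹' (GoodG p k ((n + 1) / k) ((n + 1) % k) E)ᶜ else ∅ with hS
    have h1 : ∑' n, P (S n) ≠ ⊤ := by
      have hs : Summable fun n : ℕ => Real.exp (-(1 / (k * p : ℝ))) ^ (n + 1) := by
        have hlt : Real.exp (-(1 / (k * p : ℝ))) < 1 := by
          rw [Real.exp_lt_one_iff]
          have : (0 : ℝ) < k := by exact_mod_cast hk1
          have : (0 : ℝ) < p := by exact_mod_cast hp1
          have : (0 : ℝ) < 1 / (k * p) := by positivity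
          linarith
        exact (summable_nat_add_iff 1).2
          (summable_geometric_of_lt_one (Real.exp_pos _).le hlt)
      refine ne_top_of_le_ne_top hs.tsum_ofReal_ne_top (ENNReal.tsum_le_tsum fun n => ?_)
      by_cases hn : n₁ ≤ n
      · rw [hS]
        simp only [if_pos hn]
        exact hbad n hn
      · rw [hS]
        simp only [if_neg hn, measure_empty]
        exact zero_le
    filter_upwards [ae_eventually_notMem h1] with ω hω
    filter_upwards [hω, eventually_ge_atTop n₁] with n hn hn2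
    rw [hS] at hn
    simp only [if_pos hn2] at hn
    by_contra h2
    exact hn h2
  filter_upwards [hae, moments_ae P U V hU hV hlaw] with ω hgood hmom
  classical
  set W : ∀ n : ℕ, UG (Fin (n + 1)) := fun n =>
    if h : Z n ω ∈ GoodG p k ((n + 1) / k) ((n + 1) % k) E then
      reU (en k n).symm (GoodG_comm h).choose else 1 with hW
  have hWn : ∀ n (h : Z n ω ∈ GoodG p k ((n + 1) / k) ((n + 1) % k) E),
      reU (en k n) (W n) = (GoodG_comm h).choose := by
    intro n h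
    rw [hW]
    simp only [dif_pos h]
    exact reU_symm _ _
  refine ⟨W, ?_, ?_⟩
  · filter_upwards [hgood] with n hn
    have h1 := (GoodG_comm hn).choose_spec.1
    rw [← hWn n hn] at h1
    have h2 := Tp_reU (en k n) p (V n ω) (W n)
    rw [← h2]
    exact h1
  · intro q ε hq i
    obtain ⟨ε', D, n₀, hε', hEq⟩ := hq
    have hm : ∀ᶠ n in atTop, ∀ m ∈ Finset.Icc 1 D, ‖utr ((U n ω) ^ m)‖ ≤ ε' := by
      rw [Filter.eventually_all_finset]
      intro m hm
      have h1 := (hmom m (Finset.mem_Icc.1 hm).1).norm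
      rw [norm_zero] at h1
      exact h1.eventually_le_const hε'
    filter_upwards [hgood, hm, hdiv.eventually_ge_atTop n₀] with n hn hm hn0
    obtain ⟨O, θ, hθ, hθ2, hz, hδ⟩ := (GoodG_comm hn).choose_spec.2
    rw [← hWn n hn] at hδ
    have hz1 : (Z n ω).1 = reU (en k n) (U n ω) := rfl
    have h1 := hEq ((n + 1) / k) ((n + 1) % k) (Nat.mod_lt _ (by omega)) hn0 O θ hθ hθ2 (by
      intro m hm1 hm2
      rw [← hz, hz1, ← reU_pow, utr_reU]
      exact hm m (Finset.mem_Icc.2 ⟨hm1, hm2⟩)) i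
    rw [← hz] at h1
    have h2 := hδ ε i (q i) h1
    rw [hz1, comm_reU] at h2
    exact h2

end Pool.Agent.OGP
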