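import Pool.Agent.OGP.Vol
import Pool.Agent.OGP.Ball

/-!
# OGP PACK: coarse nets with few close pairs, and packings

`coarse_net`.  Let `M = k N²`, and `s` a maximal (finite) `δ`-separated subset of `KG k N` for `dK`
(`dK x y > δ` for `x ≠ y` in `s`).  It exists: the balls `{dK x · ≤ δ/2}` around the points are
disjoint and have measure `≥ (δ/22)^M` (`ball_lower`), so `card s ≤ (22/δ)^M` for every separated
set; take one of maximal cardinality; by maximality every `W` has `x ∈ s` with `dK x W ≤ δ`.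
Close pairs: fix any `x : KG k N`, `b > 0`, and `x' ∈ s` with `|qK (x⁻¹ x')| ≥ 1 - b`.  By
`exists_phase` and `dK_sq` some phase `θ` has `dK x (θ x') ² = 2 - 2 |qK (x⁻¹ x')| ≤ 2b`; if
`dK x' W ≤ δ/2` then `dK x (θ W) ≤ √(2b) + δ/2` so
`|qK (x⁻¹ W)| ≥ Re (e^{iθ} qK (x⁻¹ W)) = 1 - dK x (θ W)²/2 ≥ 1 - b''`, with
`b'' = (√(2b) + δ/2)²/2 ≤ (√b + δ)²`.  The disjoint balls `{dK x' · ≤ δ/2}` are contained in
`{W : |qK (x⁻¹ W)| ≥ 1 - b''}`, of measure (left invariance, `vol_upper`)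
`≤ (3/√b'' + 1)(2 e b'')^{M/2}`; divide by `(δ/22)^M`:
`#{..} ≤ (3/√b + 1) (22 √(2e) (√b + δ) / δ)^M ≤ (3/√b + 1) (60 (√b + δ)/δ)^M` (use `b ≤ b''`; for the
factor `3/√b'' + 1 ≤ 3/√b + 1`; replace `b''` by `(√b + δ)²` in `(2 e b'')^{M/2}`).

`packing`.  Let `s` be a set of maximal cardinality with `|qK (x⁻¹ y)| < 1 - b` for `x ≠ y` in `s`
(cardinalities are bounded: such points are `dK`-separated: `dK² = 2 - 2 Re qK > 2b`).  By maximality
(and symmetry `|qK (x⁻¹ y)| = |qK (y⁻¹ x)|`) every `W` has `x ∈ s` with `|qK (x⁻¹ W)| ≥ 1 - b`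
(`x = W` is possible, `qK 1 = 1`), so `1 ≤ card s * haarK {|qK W| ≥ 1 - b}` by left invariance.
-/

open Matrix MeasureTheory
namespace Pool.Agent.OGP

private lemma exists_max_card {α : Type*} (P : Finset α → Prop) (h0 : P ∅) (B : ℕ)
    (hB : ∀ s, P s → s.card ≤ B) : ∃ s, P s ∧ ∀ t, P t → t.card ≤ s.card := by
  have hne : {n | ∃ s, P s ∧ s.card = n}.Nonempty := ⟨_, ∅, h0, rfl⟩
  have hb : BddAbove {n | ∃ s, P s ∧ s.card = n} := by
    refine ⟨B, ?_⟩
    rintro n ⟨s, hs, rfl⟩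
    exact hB s hs
  obtain ⟨s, hs, hc⟩ := Nat.sSup_mem hne hb
  refine ⟨s, hs, fun t ht => ?_⟩
  rw [hc]
  exact le_csSup hb ⟨t, ht, rfl⟩

/-- Balls around separated points inside a set. -/
private lemma ball_count {k N : ℕ} (hk : 1 ≤ k) (hN : 1 ≤ N) {δ : ℝ} (hδ : 0 < δ) (hδ1 : δ ≤ 1)
    (s : Finset (KG k N)) (hs : ∀ x ∈ s, ∀ y ∈ s, x ≠ y → δ < dK x y) (A : Set (KG k N))
    (hA : ∀ x ∈ s, {W | dK x W ≤ δ / 2} ⊆ A) :
    (s.card : ℝ) * (δ / 22) ^ (k * N ^ 2) ≤ (haarK k N).real A := by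
  have h1 : ∀ x ∈ s, (δ / 22) ^ (k * N ^ 2) ≤ (haarK k N).real {W | dK x W ≤ δ / 2} := by
    intro x _
    have := ball_lower hk hN (half_pos hδ) (by linarith) x
    rwa [show δ / 2 / 11 = δ / 22 by ring] at this
  have hd : (↑s : Set (KG k N)).PairwiseDisjoint (fun x => {W | dK x W ≤ δ / 2}) := by
    intro x hx y hy hxy
    rw [Function.onFun, Set.disjoint_left]
    intro W hW1 hW2
    rw [Set.mem_ofPred_eq] at hW1 hW2
    have h3 := hs x hx y hy hxy
    have h4 := dK_triangle x W y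
    rw [dK_comm W y] at h4
    linarith
  have hm : ∀ x ∈ s, MeasurableSet {W : KG k N | dK x W ≤ δ / 2} := by
    intro x _
    have hp : Continuous (fun W : KG k N => ((x, W) : KG k N × KG k N)) :=
      Continuous.prodMk continuous_const continuous_id
    have hc : Continuous (fun W : KG k N => dK x W) := by
      have h2 := Continuous.comp continuous_dK hp
      exact h2
    have hcl : IsClosed {W : KG k N | dK x W ≤ δ / 2} := isClosed_le hc continuous_const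
    exact hcl.measurableSet
  calc (s.card : ℝ) * (δ / 22) ^ (k * N ^ 2) = ∑ _x ∈ s, (δ / 22) ^ (k * N ^ 2) := by
        rw [Finset.sum_const, nsmul_eq_mul]
    _ ≤ ∑ x ∈ s, (haarK k N).real {W | dK x W ≤ δ / 2} := Finset.sum_le_sum h1
    _ = (haarK k N).real (⋃ x ∈ s, {W | dK x W ≤ δ / 2}) :=
        (measureReal_biUnion_finset hd hm).symm
    _ ≤ (haarK k N).real A := measureReal_mono (Set.iUnion₂_subset hA) (measure_ne_top _ _)

private lemma sep_card {k N : ℕ} (hk : 1 ≤ k) (hN : 1 ≤ N) {δ : ℝ} (hδ : 0 < δ) (hδ1 : δ ≤ 1)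
    (s : Finset (KG k N)) (hs : ∀ x ∈ s, ∀ y ∈ s, x ≠ y → δ < dK x y) :
    (s.card : ℝ) ≤ (22 / δ) ^ (k * N ^ 2) := by
  have h1 := ball_count hk hN hδ hδ1 s hs Set.univ (fun _ _ => Set.subset_univ _)
  rw [probReal_univ] at h1
  have h2 : (0 : ℝ) < (22 / δ) ^ (k * N ^ 2) := by positivity
  calc (s.card : ℝ) = (s.card : ℝ) * (δ / 22) ^ (k * N ^ 2) * (22 / δ) ^ (k * N ^ 2) := by
        rw [mul_assoc, ← mul_pow, show δ / 22 * (22 / δ) = 1 by field_simp, one_pow, mul_one]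
    _ ≤ 1 * (22 / δ) ^ (k * N ^ 2) := mul_le_mul_of_nonneg_right h1 h2.le
    _ = _ := one_mul _

private lemma meas_left {k N : ℕ} (x : KG k N) (c : ℝ) :
    (haarK k N).real {W | c ≤ ‖qK (x⁻¹ * W)‖} = (haarK k N).real {W | c ≤ ‖qK W‖} := by
  have h1 : {W | c ≤ ‖qK (x⁻¹ * W)‖} = (fun W => x⁻¹ * W) ⁻¹' {W : KG k N | c ≤ ‖qK W‖} := rfl
  rw [h1]
  unfold Measure.real
  rw [measure_preimage_mul]

private lemma qK_phase_mul {k N : ℕ} (θ : ℝ) (x W : KG k N) :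
    qK (x⁻¹ * fun i => phU θ * W i) = Complex.exp (Complex.I * θ) * qK (x⁻¹ * W) := by
  rw [qK_mul_comm]
  have h : ((fun i => phU θ * W i) * x⁻¹ : KG k N) = fun i => phU θ * (W * x⁻¹) i := by
    funext i
    simp only [Pi.mul_apply, mul_assoc]
  rw [h, qK_phase, qK_mul_comm]

/-- the neighbourhood of a close point -/
private lemma close_ball {k N : ℕ} (hk : 1 ≤ k) (hN : 1 ≤ N) {δ b : ℝ}
    (x x' : KG k N) (hx : 1 - b ≤ ‖qK (x⁻¹ * x')‖) (W : KG k N) (hW : dK x' W ≤ δ / 2) :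
    1 - (Real.sqrt (2 * b) + δ / 2) ^ 2 / 2 ≤ ‖qK (x⁻¹ * W)‖ := by
  obtain ⟨θ, hθ⟩ := exists_phase (qK (x⁻¹ * x'))
  have h1 : dK x (fun i => phU θ * x' i) ≤ Real.sqrt (2 * b) := by
    apply Real.le_sqrt_of_sq_le
    rw [dK_sq hk hN, qK_phase_mul, hθ, Complex.ofReal_re]
    linarith
  have h2 : dK (fun i => phU θ * x' i) (fun i => phU θ * W i) = dK x' W :=
    dK_mul_left (fun _ => phU θ) x' W
  have h3 : dK x (fun i => phU θ * W i) ≤ Real.sqrt (2 * b) + δ / 2 := by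
    have := dK_triangle x (fun i => phU θ * x' i) (fun i => phU θ * W i)
    rw [h2] at this
    linarith
  have h4 : dK x (fun i => phU θ * W i) ^ 2 ≤ (Real.sqrt (2 * b) + δ / 2) ^ 2 :=
    pow_le_pow_left₀ (dK_nonneg _ _) h3 2
  rw [dK_sq hk hN, qK_phase_mul] at h4
  have h5 : (Complex.exp (Complex.I * θ) * qK (x⁻¹ * W)).re ≤ ‖qK (x⁻¹ * W)‖ := by
    refine (Complex.re_le_norm _).trans ?_
    rw [norm_mul, mul_comm Complex.I, Complex.norm_exp_ofReal_mul_I, one_mul]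
  linarith

theorem coarse_net {k N : ℕ} (hk : 1 ≤ k) (hN : 1 ≤ N) {δ : ℝ} (hδ : 0 < δ) (hδ1 : δ ≤ 1) :
    ∃ s : Finset (KG k N), (∀ W : KG k N, ∃ x ∈ s, dK x W ≤ δ) ∧
      (s.card : ℝ) ≤ (22 / δ) ^ (k * N ^ 2) ∧
      ∀ (x : KG k N) (b : ℝ), 0 < b →
        ({x' ∈ s | 1 - b ≤ ‖qK (x⁻¹ * x')‖}.card : ℝ) ≤
          (3 / Real.sqrt b + 1) * (60 * (Real.sqrt b + δ) / δ) ^ (k * N ^ 2) := by
  classical
  obtain ⟨s, hs, hmax⟩ := exists_max_card
    (fun s : Finset (KG k N) => ∀ x ∈ s, ∀ y ∈ s, x ≠ y → δ < dK x y) (by simp)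
    ⌊(22 / δ) ^ (k * N ^ 2)⌋₊ (fun s hs => Nat.le_floor (sep_card hk hN hδ hδ1 s hs))
  refine ⟨s, fun W => ?_, sep_card hk hN hδ hδ1 s hs, fun x b hb => ?_⟩
  · by_contra hcon
    push Not at hcon
    have hW : W ∉ s := by
      intro h
      have := hcon W h
      rw [dK_self] at this
      linarith
    have h1 := hmax (insert W s) (by
      intro x hx y hy hxy
      rcases Finset.mem_insert.1 hx with hx' | hx'
      · rcases Finset.mem_insert.1 hy with hy' | hy'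
        · exact absurd (hx'.trans hy'.symm) hxy
        · rw [dK_comm, hx']
          exact hcon y hy'
      · rcases Finset.mem_insert.1 hy with hy' | hy'
        · rw [hy']
          exact hcon x hx'
        · exact hs x hx' y hy' hxy)
    rw [Finset.card_insert_of_notMem hW] at h1
    omega
  · set b2 := (Real.sqrt (2 * b) + δ / 2) ^ 2 / 2 with hb2
    have hsb : 0 < Real.sqrt b := Real.sqrt_pos.2 hb
    have hsb2 : Real.sqrt b ^ 2 = b := Real.sq_sqrt hb.le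
    have hs2b : 0 < Real.sqrt (2 * b) := Real.sqrt_pos.2 (by positivity)
    have hs2b2 : Real.sqrt (2 * b) ^ 2 = 2 * b := Real.sq_sqrt (by positivity)
    have hb2b : b ≤ b2 := by
      rw [hb2]
      nlinarith
    have hb2pos : 0 < b2 := hb.trans_le hb2b
    have hs2le : Real.sqrt (2 * b) ≤ 3 / 2 * Real.sqrt b := by
      apply Real.sqrt_le_iff.2
      constructor
      · positivity
      · rw [mul_pow, hsb2]
        linarith
    have hb2le : b2 ≤ (Real.sqrt b + δ) ^ 2 * (9 / 8) := by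
      rw [hb2]
      have h1 : Real.sqrt (2 * b) + δ / 2 ≤ 3 / 2 * (Real.sqrt b + δ) := by linarith
      have h2 := pow_le_pow_left₀ (by positivity) h1 2
      linarith
    have h1 := ball_count hk hN hδ hδ1 {x' ∈ s | 1 - b ≤ ‖qK (x⁻¹ * x')‖}
      (fun y hy z hz => hs y (Finset.mem_filter.1 hy).1 z (Finset.mem_filter.1 hz).1)
      {W | 1 - b2 ≤ ‖qK (x⁻¹ * W)‖}
      (fun x' hx' W hW => close_ball hk hN x x' (Finset.mem_filter.1 hx').2 W hW)
    rw [meas_left] at h1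
    have h2 := h1.trans (vol_upper hk hN hb2pos)
    have hc : 0 < Real.sqrt b + δ := by positivity
    have he := Real.exp_one_lt_d9
    have h3 : Real.exp ((k : ℝ) * (N : ℝ) ^ 2 / 2 * Real.log (2 * Real.exp 1 * b2)) ≤
        (60 / 22 * (Real.sqrt b + δ)) ^ (k * N ^ 2) := by
      have h4 : Real.log (2 * Real.exp 1 * b2) ≤ 2 * Real.log (60 / 22 * (Real.sqrt b + δ)) := by
        have h5 : 2 * Real.log (60 / 22 * (Real.sqrt b + δ)) =
            Real.log ((60 / 22 * (Real.sqrt b + δ)) ^ 2) := by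
          rw [Real.log_pow]
          norm_num
        rw [h5]
        apply Real.log_le_log (by positivity)
        have h6 : 2 * Real.exp 1 ≤ 5.4365636572 := by linarith
        have h7 : (0 : ℝ) ≤ (Real.sqrt b + δ) ^ 2 * (9 / 8) := by positivity
        calc 2 * Real.exp 1 * b2 ≤ 5.4365636572 * ((Real.sqrt b + δ) ^ 2 * (9 / 8)) :=
              mul_le_mul h6 hb2le hb2pos.le (by norm_num)
          _ ≤ (60 / 22 * (Real.sqrt b + δ)) ^ 2 := by
              rw [mul_pow]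
              nlinarith [sq_nonneg (Real.sqrt b + δ)]
      have h8 : (k : ℝ) * (N : ℝ) ^ 2 / 2 * Real.log (2 * Real.exp 1 * b2) ≤
          ((k * N ^ 2 : ℕ) : ℝ) * Real.log (60 / 22 * (Real.sqrt b + δ)) := by
        have h9 : (0 : ℝ) ≤ (k : ℝ) * (N : ℝ) ^ 2 / 2 := by positivity
        have h10 := mul_le_mul_of_nonneg_left h4 h9
        push_cast
        linarith
      refine (Real.exp_le_exp.2 h8).trans (le_of_eq ?_)
      rw [Real.exp_nat_mul, Real.exp_log (by positivity)]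
    have h4 : 3 / Real.sqrt b2 + 1 ≤ 3 / Real.sqrt b + 1 := by
      have := Real.sqrt_le_sqrt hb2b
      have h5 : 3 / Real.sqrt b2 ≤ 3 / Real.sqrt b :=
        div_le_div_of_nonneg_left (by norm_num) hsb this
      linarith
    have h5 : (0 : ℝ) < (22 / δ) ^ (k * N ^ 2) := by positivity
    have h6 : ({x' ∈ s | 1 - b ≤ ‖qK (x⁻¹ * x')‖}.card : ℝ) * (δ / 22) ^ (k * N ^ 2) ≤
        (3 / Real.sqrt b + 1) * (60 / 22 * (Real.sqrt b + δ)) ^ (k * N ^ 2) :=
      h2.trans (mul_le_mul h4 h3 (Real.exp_pos _).le (by positivity))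
    calc ({x' ∈ s | 1 - b ≤ ‖qK (x⁻¹ * x')‖}.card : ℝ)
        = ({x' ∈ s | 1 - b ≤ ‖qK (x⁻¹ * x')‖}.card : ℝ) * (δ / 22) ^ (k * N ^ 2) *
            (22 / δ) ^ (k * N ^ 2) := by
          rw [mul_assoc, ← mul_pow, show δ / 22 * (22 / δ) = 1 by field_simp, one_pow, mul_one]
      _ ≤ (3 / Real.sqrt b + 1) * (60 / 22 * (Real.sqrt b + δ)) ^ (k * N ^ 2) *
            (22 / δ) ^ (k * N ^ 2) := mul_le_mul_of_nonneg_right h6 h5.le
      _ = (3 / Real.sqrt b + 1) * (60 * (Real.sqrt b + δ) / δ) ^ (k * N ^ 2) := by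
          rw [mul_assoc, ← mul_pow]
          congr 2
          field_simp

theorem packing {k N : ℕ} (hk : 1 ≤ k) (hN : 1 ≤ N) {b : ℝ} (hb : 0 < b) (hb1 : b < 1) :
    ∃ s : Finset (KG k N), (∀ x ∈ s, ∀ y ∈ s, x ≠ y → ‖qK (x⁻¹ * y)‖ < 1 - b) ∧
      1 ≤ (s.card : ℝ) * ((3 / Real.sqrt b + 1) *
        Real.exp ((k : ℝ) * (N : ℝ) ^ 2 / 2 * Real.log (2 * Real.exp 1 * b))) := by
  classical
  have hsep : ∀ s : Finset (KG k N), (∀ x ∈ s, ∀ y ∈ s, x ≠ y → ‖qK (x⁻¹ * y)‖ < 1 - b) →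
      ∀ x ∈ s, ∀ y ∈ s, x ≠ y → b < dK x y := by
    intro s hs x hx y hy hxy
    have h1 := hs x hx y hy hxy
    have h2 := dK_sq hk hN x y
    have h3 := Complex.re_le_norm (qK (x⁻¹ * y))
    have h4 : b ^ 2 < dK x y ^ 2 := by
      rw [h2]
      nlinarith
    exact lt_of_pow_lt_pow_left₀ 2 (dK_nonneg _ _) h4
  obtain ⟨s, hs, hmax⟩ := exists_max_card
    (fun s : Finset (KG k N) => ∀ x ∈ s, ∀ y ∈ s, x ≠ y → ‖qK (x⁻¹ * y)‖ < 1 - b) (by simp)
    ⌊(22 / b) ^ (k * N ^ 2)⌋₊ (fun s hs => Nat.le_floor (sep_card hk hN hb hb1.le s (hsep s hs)))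
  refine ⟨s, hs, ?_⟩
  have hcov : ∀ W : KG k N, ∃ x ∈ s, 1 - b ≤ ‖qK (x⁻¹ * W)‖ := by
    intro W
    by_contra hcon
    push Not at hcon
    have hW : W ∉ s := by
      intro h
      have := hcon W h
      rw [inv_mul_cancel, qK_one hk hN, norm_one] at this
      linarith
    have hinv : ∀ y ∈ s, ‖qK (W⁻¹ * y)‖ < 1 - b := by
      intro y hy
      have h1 : W⁻¹ * y = (y⁻¹ * W)⁻¹ := by group
      rw [h1, qK_inv, norm_star]
      exact hcon y hy
    have h1 := hmax (insert W s) (by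
      intro x hx y hy hxy
      rcases Finset.mem_insert.1 hx with hx' | hx'
      · rcases Finset.mem_insert.1 hy with hy' | hy'
        · exact absurd (hx'.trans hy'.symm) hxy
        · rw [hx']
          exact hinv y hy'
      · rcases Finset.mem_insert.1 hy with hy' | hy'
        · rw [hy']
          exact hcon x hx'
        · exact hs x hx' y hy' hxy)
    rw [Finset.card_insert_of_notMem hW] at h1
    omega
  have h1 : (Set.univ : Set (KG k N)) ⊆ ⋃ x ∈ s, {W | 1 - b ≤ ‖qK (x⁻¹ * W)‖} := by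
    intro W _
    obtain ⟨x, hx, h⟩ := hcov W
    simp only [Set.mem_iUnion]
    exact ⟨x, hx, h⟩
  calc (1 : ℝ) = (haarK k N).real Set.univ := by simp
    _ ≤ (haarK k N).real (⋃ x ∈ s, {W | 1 - b ≤ ‖qK (x⁻¹ * W)‖}) :=
        measureReal_mono h1 (measure_ne_top _ _)
    _ ≤ ∑ x ∈ s, (haarK k N).real {W | 1 - b ≤ ‖qK (x⁻¹ * W)‖} :=
        measureReal_biUnion_finset_le _ _
    _ = ∑ _x ∈ s, (haarK k N).real {W | 1 - b ≤ ‖qK W‖} :=
        Finset.sum_congr rfl fun x _ => meas_left x _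
    _ = (s.card : ℝ) * (haarK k N).real {W | 1 - b ≤ ‖qK W‖} := by
        rw [Finset.sum_const, nsmul_eq_mul]
    _ ≤ _ := mul_le_mul_of_nonneg_left (vol_upper hk hN hb) (Nat.cast_nonneg _)

end Pool.Agent.OGP
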