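import Pool.Agent.OGP.Fsup
import Pool.Agent.OGP.Pack

/-!
# OGP FDET: from an arbitrary block diagonal unitary to the coarse net (deterministic)

`η = 1/1000`, no leftover.  Let `s₁` be an operator norm net at scale `η/p`, `s₀` a `dK`-net at scale
`η/√p`, and `m` with `4/m ≤ η²/p`.  Suppose `ST p k N 0 V ≤ 4 √(p log p/k)` and that `V` is not in
the event of `finc`.  Then for every `W` there are `x ∈ s₁`, `y ∈ s₀`, `j < m` with `dK x W ≤ η/p`,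
`|utr ((phU θ_j * emb y)⁻¹ * emb x) - 1| ≤ 2η²/p` and
`|Tp p V (emb W) - Tp p V (phU θ_j * emb y)| ≤ 15 η √(p log p/k)`.

Proof.  Take `x ∈ s₁` with `W i = x i * eU (Y i)`, `opn (Y i) ≤ η/p`: `dK x W ≤ η/p`
(`dK_le_of_exp`) and `|Tp (emb W) - Tp (emb x)| ≤ e p (η/p) ST ≤ 4 e η √(p log p/k) ≤ 10.9 η √(..)`
(`bern_net`).  Take `y ∈ s₀` with `dK y x ≤ η/√p`, `q = qK (y⁻¹ x)`, `Re q = 1 - dK²/2 ≥ 1 - η²/(2p)`,
so `1 ≥ |q| ≥ 1 - η²/(2p)`.  By `exists_grid_phase` applied to `q`, there is `j < m` with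
`|e^{iθ} q - |q|| ≤ (4/m)|q| ≤ η²/p` for `θ = 2π j/m`; replace it by the grid point `-θ` modulo `2π`
(`j' = m - j` or `0`): `utr ((phU θ_{j'} * emb y)⁻¹ * emb x) = e^{-iθ_{j'}} q = e^{iθ} q`, so it
differs from `1` by at most `η²/(2p) + η²/p ≤ 2η²/p`.  As `V` is not in the event,
`|Tp (phU θ * emb y) - Tp (emb x)| < 4η √(p log p/k)`.
-/

open Matrix MeasureTheory
namespace Pool.Agent.OGP

/-- The grid phases are closed under inversion. -/
lemma fdet_phase {ι : Type} [Fintype ι] [DecidableEq ι] {m : ℕ} (hm : 1 ≤ m) {j : ℕ}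
    (hj : j < m) : ∃ j' : ℕ, j' < m ∧
      (phU (2 * Real.pi * j' / m) : UG ι)⁻¹ = phU (2 * Real.pi * j / m) := by
  have m0 : (m : ℝ) ≠ 0 := by
    have : (0 : ℝ) < m := by exact_mod_cast hm
    exact this.ne'
  rcases Nat.eq_zero_or_pos j with h0 | h0
  · refine ⟨0, hm, ?_⟩
    rw [h0]
    simp only [Nat.cast_zero, mul_zero, zero_div, phU_zero, inv_one]
  · refine ⟨m - j, by omega, ?_⟩
    rw [inv_eq_iff_mul_eq_one, ← phU_add]
    have e : 2 * Real.pi * ((m - j : ℕ) : ℝ) / m + 2 * Real.pi * j / m = 2 * Real.pi := by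
      rw [Nat.cast_sub hj.le]
      field_simp
      ring
    rw [e]
    apply Subtype.ext
    rw [phU_coe]
    have : Complex.exp (Complex.I * ((2 * Real.pi : ℝ) : ℂ)) = 1 := by
      rw [mul_comm]
      push_cast
      exact Complex.exp_two_pi_mul_I
    rw [this, one_smul]
    rfl

theorem fdet {p k N m : ℕ} (hp : 1 ≤ p) (hk : 1 ≤ k) (hN : 1 ≤ N)
    (hm : 4 / (m : ℝ) ≤ 1 / 1000000 / p) (hm1 : 1 ≤ m) {s₁ s₀ : Finset (KG k N)}
    (hs₁ : ∀ W : KG k N, ∃ x ∈ s₁, ∃ Y : Fin k → Matrix (Fin N) (Fin N) ℂ,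
      (∀ i, (Y i).IsHermitian) ∧ (∀ i, opn (Y i) ≤ 1 / 1000 / p) ∧ (∀ i, W i = x i * eU (Y i)))
    (hs₀ : ∀ W : KG k N, ∃ y ∈ s₀, dK y W ≤ 1 / 1000 / Real.sqrt p) (V : UG (JJ k N 0))
    (hV : ST p k N 0 V < 4 * Real.sqrt (p * Real.log p / k))
    (hV2 : ¬ ∃ x ∈ s₁, ∃ y ∈ s₀, ∃ j : ℕ, j < m ∧
        ‖utr ((phU (2 * Real.pi * j / m) * emb k N 0 y)⁻¹ * emb k N 0 x) - 1‖ ≤
          2 / 1000000 / p ∧
        4 / 1000 * Real.sqrt (p * Real.log p / k) ≤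
          ‖Tp p V (phU (2 * Real.pi * j / m) * emb k N 0 y) - Tp p V (emb k N 0 x)‖)
    (W : KG k N) :
    ∃ x ∈ s₁, ∃ y ∈ s₀, ∃ j : ℕ, j < m ∧ dK x W ≤ 1 / 1000 / p ∧
      ‖utr ((phU (2 * Real.pi * j / m) * emb k N 0 y)⁻¹ * emb k N 0 x) - 1‖ ≤
        2 / 1000000 / p ∧
      ‖Tp p V (emb k N 0 W) - Tp p V (phU (2 * Real.pi * j / m) * emb k N 0 y)‖ ≤
        15 / 1000 * Real.sqrt (p * Real.log p / k) := by
  have p1 : (1 : ℝ) ≤ p := by exact_mod_cast hp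
  have p0 : (0 : ℝ) < p := by linarith
  obtain ⟨x, hx, Y, hY1, hY2, hY3⟩ := hs₁ W
  obtain ⟨y, hy, hyx⟩ := hs₀ x
  have d1 : dK x W ≤ 1 / 1000 / p := dK_le_of_exp (by positivity) hY1 hY2 hY3
  have b1 := bern_net (p := p) hk hN V (by positivity) hY1 hY2 hY3
  have b2 : Real.exp 1 * (p * (1 / 1000 / p)) = Real.exp 1 / 1000 := by
    field_simp
  rw [b2] at b1
  set σ : ℝ := Real.sqrt (p * Real.log p / k) with hσ
  have σ0 : 0 ≤ σ := Real.sqrt_nonneg _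
  have b3 : ‖Tp p V (emb k N 0 W) - Tp p V (emb k N 0 x)‖ ≤ 10.9 / 1000 * σ := by
    refine b1.trans ?_
    have he := Real.exp_one_lt_d9
    have h1 : Real.exp 1 / 1000 * ST p k N 0 V ≤ Real.exp 1 / 1000 * (4 * σ) :=
      mul_le_mul_of_nonneg_left hV.le (by positivity)
    refine h1.trans ?_
    nlinarith
  set q : ℂ := qK (y⁻¹ * x) with hq
  have q1 : ‖q‖ ≤ 1 := norm_qK_le_one _
  have q2 : 1 - 1 / 2000000 / p ≤ ‖q‖ := by
    have h1 := dK_sq hk hN y x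
    have h2 : dK y x ^ 2 ≤ (1 / 1000 / Real.sqrt p) ^ 2 :=
      pow_le_pow_left₀ (dK_nonneg _ _) hyx 2
    have h3 : (1 / 1000 / Real.sqrt p) ^ 2 = 1 / 1000000 / p := by
      rw [div_pow, Real.sq_sqrt p0.le]
      norm_num
    have h4 : q.re ≤ ‖q‖ := Complex.re_le_norm _
    have h5 : 1 / 2000000 / (p : ℝ) = 1 / 1000000 / p / 2 := by ring
    rw [h5]
    rw [h3, h1] at h2
    linarith
  obtain ⟨j, hj, hj1, hj2⟩ := exists_grid_phase q hm1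
  obtain ⟨j', hj', hj3⟩ := fdet_phase (ι := JJ k N 0) hm1 hj
  have u1 : utr ((phU (2 * Real.pi * j' / m) * emb k N 0 y)⁻¹ * emb k N 0 x) =
      Complex.exp (Complex.I * ((2 * Real.pi * j / m : ℝ) : ℂ)) * q := by
    rw [_root_.mul_inv_rev, hj3, ← phU_comm, mul_assoc, utr_phU_mul, ← map_inv, ← map_mul,
      utr_emb_zero hk hN]
  have u2 : ‖utr ((phU (2 * Real.pi * j' / m) * emb k N 0 y)⁻¹ * emb k N 0 x) - 1‖ ≤
      2 / 1000000 / p := by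
    rw [u1]
    have h1 : Complex.exp (Complex.I * ((2 * Real.pi * j / m : ℝ) : ℂ)) * q - 1 =
        (Complex.exp (Complex.I * ((2 * Real.pi * j / m : ℝ) : ℂ)) * q - ‖q‖) +
          ((‖q‖ - 1 : ℝ) : ℂ) := by
      push_cast
      ring
    rw [h1]
    refine (norm_add_le _ _).trans ?_
    have h2 : ‖((‖q‖ - 1 : ℝ) : ℂ)‖ ≤ 1 / 2000000 / p := by
      rw [Complex.norm_real, Real.norm_eq_abs, abs_le]
      have : 0 ≤ 1 / 2000000 / (p : ℝ) := by positivity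
      constructor <;> linarith
    have h3 : 4 / (m : ℝ) * ‖q‖ ≤ 1 / 1000000 / p :=
      (mul_le_of_le_one_right (by positivity) q1).trans hm
    have h4 : 1 / 1000000 / (p : ℝ) + 1 / 2000000 / p ≤ 2 / 1000000 / p := by
      rw [← add_div]
      exact div_le_div_of_nonneg_right (by norm_num) p0.le
    linarith
  refine ⟨x, hx, y, hy, j', hj', d1, u2, ?_⟩
  have v1 : ‖Tp p V (phU (2 * Real.pi * j' / m) * emb k N 0 y) - Tp p V (emb k N 0 x)‖ <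
      4 / 1000 * σ := by
    by_contra hcon
    exact hV2 ⟨x, hx, y, hy, j', hj', u2, not_lt.1 hcon⟩
  have v2 : ‖Tp p V (emb k N 0 W) - Tp p V (phU (2 * Real.pi * j' / m) * emb k N 0 y)‖ ≤
      ‖Tp p V (emb k N 0 W) - Tp p V (emb k N 0 x)‖ +
      ‖Tp p V (phU (2 * Real.pi * j' / m) * emb k N 0 y) - Tp p V (emb k N 0 x)‖ := by
    rw [norm_sub_rev (Tp p V (phU (2 * Real.pi * j' / m) * emb k N 0 y))]
    exact norm_sub_le_norm_sub_add_norm_sub _ _ _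
  nlinarith

end Pool.Agent.OGP
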