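import Pool.Agent.OGP.Tails
import Pool.Agent.OGP.Kfacts
import Pool.Agent.OGP.Errs

/-!
# OGP FINC: increments between a fine net and a coarse net (no leftover)

`η = 1/1000`, `n = N k`, `M = k N²`, `n² = k M`.  `s₁` (fine) has at most `(11000 p)^M` points, `s₀`
(coarse) at most `(22000 √p)^M` points, phases `θ_j = 2π j/m`, `j < m`.

For fixed `x ∈ s₁`, `y ∈ s₀`, `j < m` with `|utr ((phU θ_j * emb y)⁻¹ * emb x) - 1| ≤ β`,
`β = 2 η²/p = 2·10⁻⁶/p`, and `t = 4 η √(p log p/k)`, `tail_diff` gives, since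
`n² t² / (4 p² β) = M · 16 η² p log p / (8 p η²) = 2 M log p` and (as `1/n ≤ 1/√k`)
`n² C (t/β)(t/β + 1/n)² ≤ M C c(p)/√k ≤ M` for `k ≥ k₀(p)`, a probability `≤ 4 e^{-M (2 log p - 1)}`.
Union bound: `4 m (11000 p)^M (22000 √p)^M e^{-M(2 log p - 1)} = 4 m e^{-M ((1/2) log p - c)}`,
`c = log (11000 · 22000) + 1`, which is `≤ 4 m e^{-M}` when `log p ≥ 2 c + 2`.
-/

open Matrix MeasureTheory
namespace Pool.Agent.OGP

theorem finc : ∃ p₀ : ℕ, ∀ p : ℕ, p₀ ≤ p → ∃ k₀ : ℕ, ∀ k : ℕ, k₀ ≤ k → ∀ N : ℕ, 1 ≤ N →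
    ∀ (s₁ s₀ : Finset (KG k N)) (m : ℕ), (s₁.card : ℝ) ≤ (11000 * (p : ℝ)) ^ (k * N ^ 2) →
      (s₀.card : ℝ) ≤ (22000 * Real.sqrt p) ^ (k * N ^ 2) →
      (haarU (JJ k N 0)).real {V | ∃ x ∈ s₁, ∃ y ∈ s₀, ∃ j : ℕ, j < m ∧
        ‖utr ((phU (2 * Real.pi * j / m) * emb k N 0 y)⁻¹ * emb k N 0 x) - 1‖ ≤
          2 / 1000000 / p ∧
        4 / 1000 * Real.sqrt (p * Real.log p / k) ≤
          ‖Tp p V (phU (2 * Real.pi * j / m) * emb k N 0 y) - Tp p V (emb k N 0 x)‖} ≤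
      4 * m * Real.exp (-((k : ℝ) * (N : ℝ) ^ 2)) := by
  set c : ℝ := Real.log (11000 * 22000) + 1 with hc
  have hc0 : 0 ≤ c := by
    have : 0 ≤ Real.log (11000 * 22000) := Real.log_nonneg (by norm_num)
    positivity
  refine ⟨max 1 ⌈Real.exp (2 * c + 2)⌉₊, fun p hp => ?_⟩
  have hp1 : 1 ≤ p := (le_max_left _ _).trans hp
  have hpR : (1 : ℝ) ≤ p := by exact_mod_cast hp1
  have hlog : 2 * c + 2 ≤ Real.log p := by
    rw [Real.le_log_iff_exp_le (by positivity)]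
    exact (Nat.le_ceil _).trans (by exact_mod_cast (le_max_right _ _).trans hp)
  have hlog0 : 0 ≤ Real.log p := Real.log_natCast_nonneg p
  obtain ⟨C, hC, htail⟩ := tail_diff p hp1
  set β : ℝ := 2 / 1000000 / p with hβ
  have hβ0 : 0 < β := by positivity
  have hβ1 : β ≤ 1 := by
    rw [hβ, div_le_one (by positivity)]
    linarith
  set τ : ℝ := 4 / 1000 * Real.sqrt (p * Real.log p) / β with hτ
  have hτ0 : 0 ≤ τ := by positivity
  obtain ⟨k₀, hk₀, herr⟩ := err_small C τ hC hτ0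
  refine ⟨k₀, fun k hk N hN s₁ s₀ m hs₁ hs₀ => ?_⟩
  have hk1 : 1 ≤ k := hk₀.trans hk
  have hkR : (1 : ℝ) ≤ k := by exact_mod_cast hk1
  have hNR : (1 : ℝ) ≤ N := by exact_mod_cast hN
  have : Nonempty (JJ k N 0) := ⟨Sum.inl (⟨0, hN⟩, ⟨0, hk1⟩)⟩
  have hcard : (Fintype.card (JJ k N 0) : ℝ) = (N : ℝ) * k := by
    rw [card_JJ]
    push_cast
    ring
  set t : ℝ := 4 / 1000 * Real.sqrt (p * Real.log p / k) with ht
  have hts : t / β = τ / Real.sqrt k := by
    rw [ht, hτ, sqrt_div_eq p k hp1]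
    ring
  have ht0 : 0 ≤ t := by positivity
  set M : ℕ := k * N ^ 2 with hM
  have hMR : (M : ℝ) = (k : ℝ) * (N : ℝ) ^ 2 := by
    rw [hM]
    push_cast
    ring
  have hM1 : (1 : ℝ) ≤ M := by
    rw [hMR]
    nlinarith [sq_nonneg (N : ℝ)]
  set A : KG k N × KG k N × ℕ → Set (UG (JJ k N 0)) := fun q =>
    {V | ‖utr ((phU (2 * Real.pi * q.2.2 / m) * emb k N 0 q.2.1)⁻¹ * emb k N 0 q.1) - 1‖ ≤ β ∧
      t ≤ ‖Tp p V (phU (2 * Real.pi * q.2.2 / m) * emb k N 0 q.2.1) -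
        Tp p V (emb k N 0 q.1)‖} with hA
  set F : Finset (KG k N × KG k N × ℕ) := s₁ ×ˢ s₀ ×ˢ Finset.range m with hF
  have hsub : {V : UG (JJ k N 0) | ∃ x ∈ s₁, ∃ y ∈ s₀, ∃ j : ℕ, j < m ∧
        ‖utr ((phU (2 * Real.pi * j / m) * emb k N 0 y)⁻¹ * emb k N 0 x) - 1‖ ≤ β ∧
        t ≤ ‖Tp p V (phU (2 * Real.pi * j / m) * emb k N 0 y) - Tp p V (emb k N 0 x)‖} ⊆
      ⋃ q ∈ F, A q := by
    rintro V ⟨x, hx, y, hy, j, hj, h1, h2⟩
    simp only [Set.mem_iUnion]
    refine ⟨(x, y, j), ?_, h1, h2⟩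
    simp only [hF, Finset.mem_product, Finset.mem_range]
    exact ⟨hx, hy, hj⟩
  have hexp : ∀ q ∈ F, (haarU (JJ k N 0)).real (A q) ≤
      4 * Real.exp (-(M * (2 * Real.log p - 1))) := by
    intro q _
    by_cases hq : ‖utr ((phU (2 * Real.pi * q.2.2 / m) * emb k N 0 q.2.1)⁻¹ *
        emb k N 0 q.1) - 1‖ ≤ β
    · have hle : (haarU (JJ k N 0)).real (A q) ≤ (haarU (JJ k N 0)).real
          {V | t ≤ ‖Tp p V (phU (2 * Real.pi * q.2.2 / m) * emb k N 0 q.2.1) -
            Tp p V (emb k N 0 q.1)‖} :=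
        measureReal_mono (fun V hV => hV.2) (measure_ne_top _ _)
      refine hle.trans ((htail (JJ k N 0) _ (emb k N 0 q.1) β t hβ0 hβ1 hq ht0).trans ?_)
      refine mul_le_mul_of_nonneg_left (Real.exp_le_exp.2 (neg_le_neg ?_)) (by norm_num)
      rw [hcard]
      have h1 := herr k hk N hN
      rw [← hts, ← hMR] at h1
      have h2 : ((N : ℝ) * k) ^ 2 * (t ^ 2 / (4 * p ^ 2 * β)) = M * (2 * Real.log p) := by
        have h3 : t ^ 2 = 16 / 1000000 * (p * Real.log p / k) := by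
          rw [ht, mul_pow, Real.sq_sqrt (by positivity)]
          norm_num
        rw [h3, hMR, hβ]
        field_simp
        ring
      rw [mul_sub ((((N : ℝ) * k)) ^ 2), h2]
      linarith
    · have : A q = ∅ := by
        rw [Set.eq_empty_iff_forall_notMem]
        exact fun V hV => hq hV.1
      rw [this]
      simp only [measureReal_empty]
      positivity
  have hFc : (F.card : ℝ) = s₁.card * (s₀.card * m) := by
    rw [hF, Finset.card_product, Finset.card_product, Finset.card_range]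
    push_cast
    ring
  have hsq : Real.exp (1 / 2 * Real.log p) = Real.sqrt p := by
    rw [Real.sqrt_eq_rpow, Real.rpow_def_of_pos (by positivity), mul_comm]
  calc _ ≤ (haarU (JJ k N 0)).real (⋃ q ∈ F, A q) :=
        measureReal_mono hsub (measure_ne_top _ _)
    _ ≤ ∑ q ∈ F, (haarU (JJ k N 0)).real (A q) := measureReal_biUnion_finset_le _ _
    _ ≤ ∑ q ∈ F, 4 * Real.exp (-(M * (2 * Real.log p - 1))) := Finset.sum_le_sum hexp
    _ = (s₁.card * (s₀.card * m)) * (4 * Real.exp (-(M * (2 * Real.log p - 1)))) := by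
        rw [Finset.sum_const, nsmul_eq_mul, hFc]
    _ ≤ ((11000 * p : ℝ) ^ M * ((22000 * Real.sqrt p) ^ M * m)) *
          (4 * Real.exp (-(M * (2 * Real.log p - 1)))) := by
        gcongr
    _ = 4 * m * (Real.exp (M * (Real.log (11000 * 22000) + 3 / 2 * Real.log p)) *
          Real.exp (-(M * (2 * Real.log p - 1)))) := by
        have : Real.exp (M * (Real.log (11000 * 22000) + 3 / 2 * Real.log p)) =
            (11000 * p : ℝ) ^ M * (22000 * Real.sqrt p) ^ M := by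
          rw [← mul_pow, ← Real.rpow_natCast, mul_comm (M : ℝ), Real.exp_mul]
          congr 1
          have h5 : Real.log (11000 * 22000) + 3 / 2 * Real.log p =
              Real.log (11000 * 22000) + (Real.log p + 1 / 2 * Real.log p) := by ring
          rw [h5, Real.exp_add, Real.exp_add, Real.exp_log (by norm_num),
            Real.exp_log (by positivity), hsq]
          ring
        rw [this]
        ring
    _ = 4 * m * Real.exp (M * (Real.log (11000 * 22000) + 3 / 2 * Real.log p) +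
          -(M * (2 * Real.log p - 1))) := by
        rw [Real.exp_add]
    _ ≤ 4 * m * Real.exp (-((k : ℝ) * (N : ℝ) ^ 2)) := by
        rw [← hMR]
        refine mul_le_mul_of_nonneg_left (Real.exp_le_exp.2 ?_) (by positivity)
        have h6 : Real.log (11000 * 22000) = c - 1 := by rw [hc]; ring
        rw [h6]
        nlinarith

end Pool.Agent.OGP
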