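import Pool.Agent.OGP.Pair
import Pool.Agent.OGP.Kfacts
import Pool.Agent.OGP.Errs

/-!
# OGP FPAIR: first moment of pairs of points of the coarse net (no leftover)

`n = N k`, `M = k N²`, `n² = k M`.  `s₀` has at most `(22000 √p)^M` points, and for every `x` at most
`(3/√b + 1)(60 (√b + δ)/δ)^M` of its points `x'` have `|qK (x⁻¹ x')| ≥ 1 - b`, where
`δ = 10⁻³/√p`; for `b = 6/p`: `(√b + δ)/δ = 1000 √6 + 1 ≤ 2451`, so at most
`(3 √p + 1)(150000)^M` points.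

For fixed `y, y' ∈ s₀`, `j, j' < m`, with `W = phU θ_j * emb y`, `W' = phU θ_{j'} * emb y'`,
`|utr (W⁻¹ W')| = |qK (y⁻¹ y')|`, `κ = (|cos β| |qK|)^p ≤ (1 - 3/p)^p ≤ e^{-3} ≤ 1/20` in the first
case, `κ = 0` if `cos β = 0`.  `pair_tail` with `t = 0.6 √(p log p/k)` (`≤ 1/2` for `k ≥ k₀(p)`):
`n² 2 t²/(p (1 + κ)) ≥ M · 0.72 log p / 1.05 ≥ 0.68 M log p`, and
`n² C (t³ + t/n) ≤ M C c(p)/√k ≤ M` for `k ≥ k₀(p)` (`n² t³ = M k t³ = M (0.6)³ (p log p)^{3/2}/√k`,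
`n t = N k t = √k N 0.6 √(p log p) ≤ M 0.6 √(p log p)/√k`).
Union bound: `m² (22000 √p)^M (3√p + 1)(150000)^M e^{-M (0.68 log p - 1)}
= m² (3 √p + 1) e^{-M (0.18 log p - c)}`, `c = log (22000 · 150000) + 1`; it is
`≤ m² e^{-M}` if `k ≥ k₀(p)` (so that `3√p + 1 ≤ e^M`) and `0.18 log p ≥ c + 2`.
-/

open Matrix MeasureTheory
namespace Pool.Agent.OGP

private lemma err_small2 (C c B : ℝ) (hC : 0 ≤ C) (hc : 0 ≤ c) : ∃ k₀ : ℕ, 1 ≤ k₀ ∧
    ∀ k : ℕ, k₀ ≤ k → c / Real.sqrt k ≤ 1 / 2 ∧ B ≤ k ∧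
    ∀ N : ℕ, 1 ≤ N → ((N : ℝ) * k) ^ 2 * (C * ((c / Real.sqrt k) ^ 3 +
      (c / Real.sqrt k) / ((N : ℝ) * k))) ≤ (k : ℝ) * (N : ℝ) ^ 2 := by
  refine ⟨max (max 1 ⌈(C * (c ^ 3 + c)) ^ 2⌉₊) (max ⌈(2 * c) ^ 2⌉₊ ⌈B⌉₊),
    (le_max_left _ _).trans (le_max_left _ _), fun k hk => ?_⟩
  have hk1 : (1 : ℝ) ≤ k := by
    exact_mod_cast ((le_max_left _ _).trans (le_max_left _ _)).trans hk
  have hk2 : (C * (c ^ 3 + c)) ^ 2 ≤ k := (Nat.le_ceil _).trans
    (by exact_mod_cast ((le_max_right _ _).trans (le_max_left _ _)).trans hk)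
  have hk3 : (2 * c) ^ 2 ≤ k := (Nat.le_ceil _).trans
    (by exact_mod_cast ((le_max_left _ _).trans (le_max_right _ _)).trans hk)
  have hk4 : B ≤ k := (Nat.le_ceil _).trans
    (by exact_mod_cast ((le_max_right _ _).trans (le_max_right _ _)).trans hk)
  set s : ℝ := Real.sqrt k with hs
  have hs2 : s ^ 2 = k := Real.sq_sqrt (by positivity)
  have hs1 : 1 ≤ s := by
    rw [hs]
    exact Real.one_le_sqrt.2 hk1
  have hs3 : C * (c ^ 3 + c) ≤ s := by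
    rw [hs]
    exact Real.le_sqrt_of_sq_le hk2
  have hs4 : 2 * c ≤ s := by
    rw [hs]
    exact Real.le_sqrt_of_sq_le hk3
  have hs0 : 0 < s := by linarith
  refine ⟨?_, hk4, fun N hN => ?_⟩
  · rw [div_le_iff₀ hs0]
    linarith
  have hN1 : (1 : ℝ) ≤ N := by exact_mod_cast hN
  have h1 : (c / s) / ((N : ℝ) * k) ≤ (c / s) / k := by
    gcongr
    nlinarith
  calc ((N : ℝ) * k) ^ 2 * (C * ((c / s) ^ 3 + (c / s) / ((N : ℝ) * k)))
      ≤ ((N : ℝ) * k) ^ 2 * (C * ((c / s) ^ 3 + (c / s) / k)) := by gcongr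
    _ = (N : ℝ) ^ 2 * k * ((C * (c ^ 3 + c)) / s) := by
        rw [← hs2]
        field_simp
    _ ≤ (N : ℝ) ^ 2 * k * 1 := by
        gcongr
        rw [div_le_one hs0]
        exact hs3
    _ = _ := by ring

private lemma utr_pair {k N : ℕ} (hk : 1 ≤ k) (hN : 1 ≤ N) (y y' : KG k N) (a b : ℝ) :
    ‖utr ((phU a * emb k N 0 y)⁻¹ * (phU b * emb k N 0 y'))‖ = ‖qK (y⁻¹ * y')‖ := by
  have h1 : (phU a * emb k N 0 y)⁻¹ * (phU b * emb k N 0 y') =
      phU (b - a) * emb k N 0 (y⁻¹ * y') := by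
    rw [map_mul, map_inv, sub_eq_neg_add, phU_add, _root_.mul_inv_rev]
    have h2 : (phU (-a) : UG (JJ k N 0)) = (phU a)⁻¹ := by
      rw [eq_inv_iff_mul_eq_one, ← phU_add, neg_add_cancel, phU_zero]
    rw [h2]
    have h3 := phU_comm b ((emb k N 0 y)⁻¹)
    have h4 : (phU a)⁻¹ * (emb k N 0 y)⁻¹ = (emb k N 0 y)⁻¹ * (phU a)⁻¹ := by
      rw [← _root_.mul_inv_rev, ← _root_.mul_inv_rev, phU_comm]
    calc (emb k N 0 y)⁻¹ * (phU a)⁻¹ * (phU b * emb k N 0 y')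
        = ((phU a)⁻¹ * (emb k N 0 y)⁻¹) * (phU b * emb k N 0 y') := by rw [h4]
      _ = (phU a)⁻¹ * ((emb k N 0 y)⁻¹ * phU b) * emb k N 0 y' := by group
      _ = (phU a)⁻¹ * (phU b * (emb k N 0 y)⁻¹) * emb k N 0 y' := by rw [h3]
      _ = _ := by group
  rw [h1, utr_phU_mul, norm_mul, Complex.norm_exp_I_mul_ofReal, one_mul,
    utr_emb_zero hk hN]

theorem fpair : ∃ p₀ : ℕ, ∀ p : ℕ, p₀ ≤ p → ∃ k₀ : ℕ, ∀ k : ℕ, k₀ ≤ k → ∀ N : ℕ, 1 ≤ N →
    ∀ (s₀ : Finset (KG k N)) (m : ℕ),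
      (s₀.card : ℝ) ≤ (22000 * Real.sqrt p) ^ (k * N ^ 2) →
      (∀ x : KG k N, ({x' ∈ s₀ | 1 - 6 / (p : ℝ) ≤ ‖qK (x⁻¹ * x')‖}.card : ℝ) ≤
        (3 * Real.sqrt p + 1) * 150000 ^ (k * N ^ 2)) →
      ∀ S : Matrix (JJ k N 0) (JJ k N 0) ℂ, TrSymm S → ∀ β : ℝ,
      ((haarU (JJ k N 0)).prod (haarU (JJ k N 0))).real {z | ∃ y ∈ s₀, ∃ y' ∈ s₀,
        ∃ j : ℕ, j < m ∧ ∃ j' : ℕ, j' < m ∧
        1 - 6 / (p : ℝ) ≤ ‖qK (y⁻¹ * y')‖ ∧
        (‖qK (y⁻¹ * y')‖ ≤ 1 - 3 / (p : ℝ) ∨ Real.cos β = 0) ∧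
        6 / 10 * Real.sqrt (p * Real.log p / k) ≤
          (Tp p z.1 (phU (2 * Real.pi * j / m) * emb k N 0 y)).re ∧
        6 / 10 * Real.sqrt (p * Real.log p / k) ≤
          (Tp p (Crot β S z.2 * z.1) (phU (2 * Real.pi * j' / m) * emb k N 0 y')).re} ≤
      (m : ℝ) ^ 2 * Real.exp (-((k : ℝ) * (N : ℝ) ^ 2)) := by
  classical
  set c : ℝ := Real.log (22000 * 150000) + 1 with hc
  have hc0 : 0 ≤ c := by
    have : 0 ≤ Real.log (22000 * 150000) := Real.log_nonneg (by norm_num)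
    positivity
  refine ⟨max 3 ⌈Real.exp ((c + 2) * (100 / 18))⌉₊, fun p hp => ?_⟩
  have hp3 : 3 ≤ p := (le_max_left _ _).trans hp
  have hp1 : 1 ≤ p := by omega
  have hpR3 : (3 : ℝ) ≤ p := by exact_mod_cast hp3
  have hpR : (1 : ℝ) ≤ p := by exact_mod_cast hp1
  have hlog : (c + 2) * (100 / 18) ≤ Real.log p := by
    rw [Real.le_log_iff_exp_le (by positivity)]
    exact (Nat.le_ceil _).trans (by exact_mod_cast (le_max_right _ _).trans hp)
  have hlog0 : 0 ≤ Real.log p := Real.log_natCast_nonneg p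
  obtain ⟨C, hC, htail⟩ := pair_tail p hp1
  set τ : ℝ := 6 / 10 * Real.sqrt (p * Real.log p) with hτ
  have hτ0 : 0 ≤ τ := by positivity
  obtain ⟨k₀, hk₀, herr⟩ := err_small2 C τ (3 * Real.sqrt p + 1) hC hτ0
  refine ⟨k₀, fun k hk N hN s₀ m hs₀ hpairs S hS β => ?_⟩
  obtain ⟨hthalf, hkB, herr⟩ := herr k hk
  have hk1 : 1 ≤ k := hk₀.trans hk
  have hkR : (1 : ℝ) ≤ k := by exact_mod_cast hk1
  have hNR : (1 : ℝ) ≤ N := by exact_mod_cast hN
  have : Nonempty (JJ k N 0) := ⟨Sum.inl (⟨0, hN⟩, ⟨0, hk1⟩)⟩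
  have hcard : (Fintype.card (JJ k N 0) : ℝ) = (N : ℝ) * k := by
    rw [card_JJ]
    push_cast
    ring
  set t : ℝ := 6 / 10 * Real.sqrt (p * Real.log p / k) with ht
  have hts : t = τ / Real.sqrt k := by
    rw [ht, hτ, sqrt_div_eq p k hp1]
    ring
  have ht0 : 0 ≤ t := by positivity
  have ht1 : t ≤ 1 / 2 := by rw [hts]; exact hthalf
  set M : ℕ := k * N ^ 2 with hM
  have hMR : (M : ℝ) = (k : ℝ) * (N : ℝ) ^ 2 := by
    rw [hM]
    push_cast
    ring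
  have hMk : (k : ℝ) ≤ M := by
    rw [hMR]
    nlinarith
  have hM1 : (1 : ℝ) ≤ M := hkR.trans hMk
  set A : ((_ : KG k N) × KG k N) × ℕ × ℕ → Set (UG (JJ k N 0) × UG (JJ k N 0)) := fun q =>
    {z | (‖qK (q.1.1⁻¹ * q.1.2)‖ ≤ 1 - 3 / (p : ℝ) ∨ Real.cos β = 0) ∧
      t ≤ (Tp p z.1 (phU (2 * Real.pi * q.2.1 / m) * emb k N 0 q.1.1)).re ∧
      t ≤ (Tp p (Crot β S z.2 * z.1) (phU (2 * Real.pi * q.2.2 / m) * emb k N 0 q.1.2)).re}
    with hA
  set F : Finset (((_ : KG k N) × KG k N) × ℕ × ℕ) :=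
    (s₀.sigma fun y => {x' ∈ s₀ | 1 - 6 / (p : ℝ) ≤ ‖qK (y⁻¹ * x')‖}) ×ˢ
      (Finset.range m ×ˢ Finset.range m) with hF
  have hsub : {z : UG (JJ k N 0) × UG (JJ k N 0) | ∃ y ∈ s₀, ∃ y' ∈ s₀,
        ∃ j : ℕ, j < m ∧ ∃ j' : ℕ, j' < m ∧
        1 - 6 / (p : ℝ) ≤ ‖qK (y⁻¹ * y')‖ ∧
        (‖qK (y⁻¹ * y')‖ ≤ 1 - 3 / (p : ℝ) ∨ Real.cos β = 0) ∧
        t ≤ (Tp p z.1 (phU (2 * Real.pi * j / m) * emb k N 0 y)).re ∧
        t ≤ (Tp p (Crot β S z.2 * z.1) (phU (2 * Real.pi * j' / m) * emb k N 0 y')).re} ⊆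
      ⋃ q ∈ F, A q := by
    rintro z ⟨y, hy, y', hy', j, hj, j', hj', h1, h2, h3, h4⟩
    simp only [Set.mem_iUnion]
    refine ⟨(⟨y, y'⟩, j, j'), ?_, h2, h3, h4⟩
    simp only [hF, Finset.mem_product, Finset.mem_range, Finset.mem_sigma, Finset.mem_filter]
    exact ⟨⟨hy, hy', h1⟩, hj, hj'⟩
  have he3 : (1 - 3 / (p : ℝ)) ^ p ≤ 1 / 20 := by
    have h1 := Real.one_sub_div_pow_le_exp_neg (n := p) (t := 3) hpR3
    refine h1.trans ?_
    rw [Real.exp_neg, one_div]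
    apply inv_anti₀ (by norm_num)
    have h2 := Real.exp_one_gt_d9
    have h3 : Real.exp 3 = Real.exp 1 ^ 3 := by
      rw [← Real.exp_nat_mul]
      norm_num
    rw [h3]
    calc (20 : ℝ) ≤ 2.7182818283 ^ 3 := by norm_num
      _ ≤ _ := by gcongr
  have hp30 : 0 ≤ 1 - 3 / (p : ℝ) := by
    rw [sub_nonneg, div_le_one (by positivity)]
    exact hpR3
  have hexp : ∀ q ∈ F, ((haarU (JJ k N 0)).prod (haarU (JJ k N 0))).real (A q) ≤
      Real.exp (-(M * (68 / 100 * Real.log p - 1))) := by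
    intro q _
    by_cases hq : ‖qK (q.1.1⁻¹ * q.1.2)‖ ≤ 1 - 3 / (p : ℝ) ∨ Real.cos β = 0
    · set W : UG (JJ k N 0) := phU (2 * Real.pi * q.2.1 / m) * emb k N 0 q.1.1 with hW
      set W' : UG (JJ k N 0) := phU (2 * Real.pi * q.2.2 / m) * emb k N 0 q.1.2 with hW'
      have hle : ((haarU (JJ k N 0)).prod (haarU (JJ k N 0))).real (A q) ≤
          ((haarU (JJ k N 0)).prod (haarU (JJ k N 0))).real
            {z | t ≤ (Tp p z.1 W).re ∧ t ≤ (Tp p (Crot β S z.2 * z.1) W').re} :=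
        measureReal_mono (fun V hV => hV.2) (measure_ne_top _ _)
      refine hle.trans ((htail (JJ k N 0) S hS β W W' t ht0 ht1).trans ?_)
      refine Real.exp_le_exp.2 (neg_le_neg ?_)
      set κ : ℝ := (|Real.cos β| * ‖utr (W⁻¹ * W')‖) ^ p with hκ
      have hκ0 : 0 ≤ κ := by positivity
      have hκ1 : κ ≤ 1 / 20 := by
        rw [hκ, hW, hW', utr_pair hk1 hN]
        rcases hq with hq | hq
        · refine le_trans (pow_le_pow_left₀ (by positivity) ?_ p) he3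
          calc |Real.cos β| * ‖qK (q.1.1⁻¹ * q.1.2)‖ ≤ 1 * (1 - 3 / (p : ℝ)) := by
                gcongr
                exact Real.abs_cos_le_one β
            _ = _ := one_mul _
        · rw [hq, abs_zero, zero_mul, zero_pow (by omega)]
          norm_num
      rw [hcard]
      have h1 := herr N hN
      rw [← hts, ← hMR] at h1
      have h2 : M * (68 / 100 * Real.log p) ≤
          ((N : ℝ) * k) ^ 2 * (2 * t ^ 2 / (p * (1 + κ))) := by
        have h3 : t ^ 2 = 36 / 100 * (p * Real.log p / k) := by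
          rw [ht, mul_pow, Real.sq_sqrt (by positivity)]
          norm_num
        have h4 : ((N : ℝ) * k) ^ 2 * (2 * t ^ 2 / (p * (1 + κ))) =
            M * Real.log p * (72 / 100 / (1 + κ)) := by
          rw [h3, hMR]
          field_simp
          ring
        rw [h4]
        have h5 : 68 / 100 ≤ 72 / 100 / (1 + κ) := by
          rw [le_div_iff₀ (by positivity)]
          linarith
        calc M * (68 / 100 * Real.log p) = M * Real.log p * (68 / 100) := by ring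
          _ ≤ _ := by gcongr
      rw [mul_sub ((((N : ℝ) * k)) ^ 2)]
      linarith
    · have : A q = ∅ := by
        rw [Set.eq_empty_iff_forall_notMem]
        exact fun V hV => hq hV.1
      rw [this]
      simp only [measureReal_empty]
      positivity
  have hFc : (F.card : ℝ) ≤ (22000 * Real.sqrt p) ^ M *
      ((3 * Real.sqrt p + 1) * 150000 ^ M) * (m : ℝ) ^ 2 := by
    have h1 : F.card = (∑ y ∈ s₀, {x' ∈ s₀ | 1 - 6 / (p : ℝ) ≤ ‖qK (y⁻¹ * x')‖}.card) *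
        (m * m) := by
      rw [hF, Finset.card_product, Finset.card_product, Finset.card_range, Finset.card_sigma]
    rw [h1]
    push_cast
    rw [sq (m : ℝ)]
    refine mul_le_mul_of_nonneg_right ?_ (by positivity)
    calc _ ≤ ∑ y ∈ s₀, ((3 * Real.sqrt p + 1) * 150000 ^ M) :=
          Finset.sum_le_sum fun y _ => hpairs y
      _ = s₀.card * ((3 * Real.sqrt p + 1) * 150000 ^ M) := by
          rw [Finset.sum_const, nsmul_eq_mul]
      _ ≤ _ := by gcongr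
  have hsq : Real.exp (1 / 2 * Real.log p) = Real.sqrt p := by
    rw [Real.sqrt_eq_rpow, Real.rpow_def_of_pos (by positivity), mul_comm]
  calc _ ≤ ((haarU (JJ k N 0)).prod (haarU (JJ k N 0))).real (⋃ q ∈ F, A q) :=
        measureReal_mono hsub (measure_ne_top _ _)
    _ ≤ ∑ q ∈ F, ((haarU (JJ k N 0)).prod (haarU (JJ k N 0))).real (A q) :=
        measureReal_biUnion_finset_le _ _
    _ ≤ ∑ q ∈ F, Real.exp (-(M * (68 / 100 * Real.log p - 1))) := Finset.sum_le_sum hexp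
    _ = F.card * Real.exp (-(M * (68 / 100 * Real.log p - 1))) := by
        rw [Finset.sum_const, nsmul_eq_mul]
    _ ≤ ((22000 * Real.sqrt p) ^ M * (Real.exp M * 150000 ^ M) * (m : ℝ) ^ 2) *
          Real.exp (-(M * (68 / 100 * Real.log p - 1))) := by
        gcongr
        refine hFc.trans ?_
        gcongr
        have := Real.add_one_le_exp (M : ℝ)
        linarith
    _ = (m : ℝ) ^ 2 * (Real.exp (M * (Real.log (22000 * 150000) + 1 / 2 * Real.log p)) *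
          Real.exp M * Real.exp (-(M * (68 / 100 * Real.log p - 1)))) := by
        have : Real.exp (M * (Real.log (22000 * 150000) + 1 / 2 * Real.log p)) =
            (22000 * Real.sqrt p) ^ M * 150000 ^ M := by
          rw [← mul_pow, ← Real.rpow_natCast, mul_comm (M : ℝ), Real.exp_mul]
          congr 1
          rw [Real.exp_add, Real.exp_log (by norm_num), hsq]
          ring
        rw [this]
        ring
    _ = (m : ℝ) ^ 2 * Real.exp (M * (Real.log (22000 * 150000) + 1 / 2 * Real.log p) + M +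
          -(M * (68 / 100 * Real.log p - 1))) := by
        rw [Real.exp_add, Real.exp_add]
    _ ≤ (m : ℝ) ^ 2 * Real.exp (-((k : ℝ) * (N : ℝ) ^ 2)) := by
        rw [← hMR]
        refine mul_le_mul_of_nonneg_left (Real.exp_le_exp.2 ?_) (by positivity)
        have h6 : Real.log (22000 * 150000) = c - 1 := by rw [hc]; ring
        rw [h6]
        nlinarith

end Pool.Agent.OGP
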