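import Pool.Agent.OGP.Norms

/-!
# OGP OVER: stability of overlaps (pure linear algebra)

`p ≥ 10`, `η = 1/1000`.  `x, x'` are within `η/p` of `W, W'`; `|utr (y⁻¹ x) - 1| ≤ 2η²/p`, same for
`y', x'`; `|utr (W⁻¹ W')| ≥ 1 - 5/p`.  Then `||utr (y⁻¹ y')| - |utr (W⁻¹ W')|| ≤ 1/p`.

Proof.  `|utr (W⁻¹ W') - utr (x⁻¹ x')| ≤ d2 (W⁻¹ W') (x⁻¹ x') ≤ 2η/p` (`d2_mul_le`, `d2_inv`,
`norm_utr_sub_le`), so `c := utr (x⁻¹ x')` has `|c| ≥ 1 - 6/p`.  Let `e = y - x`, `e' = y' - x'` as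
matrices: `n2 e² = 2 - 2 Re utr (y⁻¹ x) ≤ 4 η²/p`, same for `e'`.
`utr (y⁻¹ y') - utr (x⁻¹ x') = ntr (eᴴ x') + ntr (xᴴ e') + ntr (eᴴ e')`.
Let `Z = x' - c x`: `n2 Z² = 1 - |c|² ≤ 12/p`; `|ntr (eᴴ x')| ≤ |c| |ntr (eᴴ x)| + n2 e n2 Z ≤
2η²/p + (2η/√p)(√12/√p)`, because `ntr (eᴴ x) = utr (y⁻¹ x) - 1`.  Similarly
`|ntr (xᴴ e')| ≤ 2η²/p + 2 √12 η/p` (with `Z' = x - conj c x'`; `ntr (x'ᴴ e') = conj (utr (y'⁻¹ x')) - 1`),
and `|ntr (eᴴ e')| ≤ 4 η²/p`.  Sum: `(8 η² + 4√12 η + 2η)/p ≤ 1/p`.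
-/

open Matrix
namespace Pool.Agent.OGP

variable {ι : Type} [Fintype ι] [DecidableEq ι]

lemma ov_ug_inv_coe (x : UG ι) : ((x⁻¹ : UG ι) : Matrix ι ι ℂ) = (x : Matrix ι ι ℂ)ᴴ := rfl

lemma ov_ug_star_mul (x : UG ι) : (x : Matrix ι ι ℂ)ᴴ * (x : Matrix ι ι ℂ) = 1 :=
  Matrix.mem_unitaryGroup_iff'.1 x.2

lemma ov_ntr_star_mul (x y : UG ι) :
    ntr ((x : Matrix ι ι ℂ)ᴴ * (y : Matrix ι ι ℂ)) = utr (x⁻¹ * y) := rfl

lemma ov_d2_sq_le_norm [Nonempty ι] (x y : UG ι) : d2 y x ^ 2 ≤ 2 * ‖utr (y⁻¹ * x) - 1‖ := by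
  rw [d2_sq]
  have h : |(utr (y⁻¹ * x) - 1).re| ≤ ‖utr (y⁻¹ * x) - 1‖ := Complex.abs_re_le_norm _
  have h2 := (abs_le.1 h).1
  rw [Complex.sub_re, Complex.one_re] at h2
  linarith

lemma over_aux [Nonempty ι] {p : ℝ} (hp : 10 ≤ p) (x x' y : UG ι)
    (hc : 1 - 6 / p ≤ ‖utr (x⁻¹ * x')‖) (h2 : ‖utr (y⁻¹ * x) - 1‖ ≤ 2 / 1000000 / p) :
    ‖ntr (((y : Matrix ι ι ℂ) - (x : Matrix ι ι ℂ))ᴴ * (x' : Matrix ι ι ℂ))‖ ≤ 8 / 1000 / p := by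
  have p0 : 0 < p := by linarith
  set c : ℂ := utr (x⁻¹ * x') with hcdef
  set e : Matrix ι ι ℂ := (y : Matrix ι ι ℂ) - (x : Matrix ι ι ℂ) with he
  set Z : Matrix ι ι ℂ := (x' : Matrix ι ι ℂ) - c • (x : Matrix ι ι ℂ) with hZ
  have hc1 : ‖c‖ ≤ 1 := norm_utr_le_one _
  have e1 : ntr (eᴴ * (x' : Matrix ι ι ℂ)) = c * (utr (y⁻¹ * x) - 1) + ntr (eᴴ * Z) := by
    have : eᴴ * (x' : Matrix ι ι ℂ) = c • (eᴴ * (x : Matrix ι ι ℂ)) + eᴴ * Z := by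
      rw [hZ, Matrix.mul_sub, Matrix.mul_smul]
      abel
    rw [this, ntr_add, ntr_smul]
    congr 2
    rw [he, Matrix.conjTranspose_sub, Matrix.sub_mul, ov_ug_star_mul, ntr_sub, ntr_one,
      ov_ntr_star_mul]
  have e2 : n2 Z ^ 2 = 1 - ‖c‖ ^ 2 := by
    have h3 : ((n2 Z ^ 2 : ℝ) : ℂ) = ((1 - ‖c‖ ^ 2 : ℝ) : ℂ) := by
      rw [n2_sq_eq_ntr, hZ, Matrix.conjTranspose_sub, Matrix.conjTranspose_smul]
      have h4 : ((x' : Matrix ι ι ℂ)ᴴ - star c • (x : Matrix ι ι ℂ)ᴴ) *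
          ((x' : Matrix ι ι ℂ) - c • (x : Matrix ι ι ℂ)) = 1 - c • ((x' : Matrix ι ι ℂ)ᴴ *
            (x : Matrix ι ι ℂ)) - star c • ((x : Matrix ι ι ℂ)ᴴ * (x' : Matrix ι ι ℂ)) +
            (star c * c) • (1 : Matrix ι ι ℂ) := by
        simp only [Matrix.sub_mul, Matrix.mul_sub, Matrix.smul_mul, Matrix.mul_smul,
          ov_ug_star_mul]
        module
      have h5 : ntr ((x' : Matrix ι ι ℂ)ᴴ * (x : Matrix ι ι ℂ)) = star c := by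
        rw [ov_ntr_star_mul, hcdef, ← utr_inv]
        congr 1
        group
      rw [h4, ntr_add, ntr_sub, ntr_sub, ntr_smul, ntr_smul, ntr_smul, ntr_one, h5, ov_ntr_star_mul,
        ← hcdef]
      have h6 : c * star c = ((‖c‖ ^ 2 : ℝ) : ℂ) := by
        change c * (starRingEnd ℂ) c = _
        rw [Complex.mul_conj, Complex.normSq_eq_norm_sq]
      push_cast at h6 ⊢
      linear_combination -h6
    exact_mod_cast h3
  have e3 : n2 e ^ 2 ≤ 4 / 1000000 / p := by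
    have h3 : n2 e ^ 2 = d2 y x ^ 2 := rfl
    rw [h3]
    refine (ov_d2_sq_le_norm x y).trans ?_
    have : 4 / 1000000 / p = 2 * (2 / 1000000 / p) := by ring
    rw [this]
    linarith
  have e4 : n2 Z ^ 2 ≤ 12 / p := by
    rw [e2]
    have h7 : 0 ≤ 1 - 6 / p := by
      rw [sub_nonneg, div_le_one p0]; linarith
    have h8 : (1 - 6 / p) ^ 2 ≤ ‖c‖ ^ 2 := pow_le_pow_left₀ h7 hc 2
    have h9 : (1 - 6 / p) ^ 2 = 1 - 12 / p + (6 / p) ^ 2 := by ring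
    nlinarith [sq_nonneg (6 / p)]
  have e5 : n2 e * n2 Z ≤ 7 / 1000 / p := by
    refine abs_le_of_sq_le_sq' ?_ (by positivity) |>.2
    rw [mul_pow]
    have h10 : n2 e ^ 2 * n2 Z ^ 2 ≤ 4 / 1000000 / p * (12 / p) :=
      mul_le_mul e3 e4 (sq_nonneg _) (by positivity)
    refine h10.trans ?_
    have : 4 / 1000000 / p * (12 / p) = 48 / 1000000 * (1 / p) ^ 2 := by ring
    rw [this]
    have h11 : (7 / 1000 / p) ^ 2 = 49 / 1000000 * (1 / p) ^ 2 := by ring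
    rw [h11]
    exact mul_le_mul_of_nonneg_right (by norm_num) (sq_nonneg _)
  rw [e1]
  refine (norm_add_le _ _).trans ?_
  have h12 : ‖ntr (eᴴ * Z)‖ ≤ 7 / 1000 / p := by
    refine (norm_ntr_mul_le _ _).trans ?_
    rw [n2_conjTranspose]
    exact e5
  have h13 : ‖c * (utr (y⁻¹ * x) - 1)‖ ≤ 2 / 1000000 / p := by
    rw [norm_mul]
    exact (mul_le_of_le_one_left (norm_nonneg _) hc1).trans h2
  have h14 : 2 / 1000000 / p + 7 / 1000 / p ≤ 8 / 1000 / p := by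
    rw [← add_div]
    exact div_le_div_of_nonneg_right (by norm_num) p0.le
  linarith

theorem overlap_stable [Nonempty ι] {p : ℝ} (hp : 10 ≤ p) (W W' x x' y y' : UG ι)
    (h1 : d2 x W ≤ 1 / 1000 / p) (h1' : d2 x' W' ≤ 1 / 1000 / p)
    (h2 : ‖utr (y⁻¹ * x) - 1‖ ≤ 2 / 1000000 / p)
    (h2' : ‖utr (y'⁻¹ * x') - 1‖ ≤ 2 / 1000000 / p)
    (h3 : 1 - 5 / p ≤ ‖utr (W⁻¹ * W')‖) :
    |‖utr (y⁻¹ * y')‖ - ‖utr (W⁻¹ * W')‖| ≤ 1 / p := by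
  have p0 : 0 < p := by linarith
  have a1 : ‖utr (x⁻¹ * x') - utr (W⁻¹ * W')‖ ≤ 2 / 1000 / p := by
    refine (norm_utr_sub_le _ _).trans ((d2_mul_le _ _ _ _).trans ?_)
    rw [d2_inv]
    have : 2 / 1000 / p = 1 / 1000 / p + 1 / 1000 / p := by ring
    linarith
  have a2 : |‖utr (x⁻¹ * x')‖ - ‖utr (W⁻¹ * W')‖| ≤ 2 / 1000 / p :=
    (abs_norm_sub_norm_le _ _).trans a1
  have a3 : 1 - 6 / p ≤ ‖utr (x⁻¹ * x')‖ := by
    have h := (abs_le.1 a2).1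
    have h4 : 5 / p + 2 / 1000 / p ≤ 6 / p := by
      rw [← add_div]
      exact div_le_div_of_nonneg_right (by norm_num) p0.le
    linarith
  have a4 : 1 - 6 / p ≤ ‖utr (x'⁻¹ * x)‖ := by
    have : utr (x'⁻¹ * x) = star (utr (x⁻¹ * x')) := by
      rw [← utr_inv]
      congr 1
      group
    rw [this, norm_star]
    exact a3
  have b1 := over_aux hp x x' y a3 h2
  have b2 := over_aux hp x' x y' a4 h2'
  set e : Matrix ι ι ℂ := (y : Matrix ι ι ℂ) - (x : Matrix ι ι ℂ) with he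
  set e' : Matrix ι ι ℂ := (y' : Matrix ι ι ℂ) - (x' : Matrix ι ι ℂ) with he'
  have b3 : ‖ntr ((x : Matrix ι ι ℂ)ᴴ * e')‖ ≤ 8 / 1000 / p := by
    have : ntr ((x : Matrix ι ι ℂ)ᴴ * e') = star (ntr (e'ᴴ * (x : Matrix ι ι ℂ))) := by
      rw [← ntr_conjTranspose, Matrix.conjTranspose_mul, Matrix.conjTranspose_conjTranspose]
    rw [this, norm_star]
    exact b2
  have b4 : ‖ntr (eᴴ * e')‖ ≤ 4 / 1000000 / p := by
    refine (norm_ntr_mul_le _ _).trans ?_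
    rw [n2_conjTranspose]
    have c1 : n2 e ^ 2 ≤ 4 / 1000000 / p := by
      refine (ov_d2_sq_le_norm x y).trans ?_
      have : 4 / 1000000 / p = 2 * (2 / 1000000 / p) := by ring
      rw [this]
      linarith
    have c2 : n2 e' ^ 2 ≤ 4 / 1000000 / p := by
      refine (ov_d2_sq_le_norm x' y').trans ?_
      have : 4 / 1000000 / p = 2 * (2 / 1000000 / p) := by ring
      rw [this]
      linarith
    nlinarith [sq_nonneg (n2 e - n2 e')]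
  have b5 : utr (y⁻¹ * y') - utr (x⁻¹ * x') = ntr (eᴴ * (x' : Matrix ι ι ℂ)) +
      ntr ((x : Matrix ι ι ℂ)ᴴ * e') + ntr (eᴴ * e') := by
    rw [← ov_ntr_star_mul, ← ov_ntr_star_mul, ← ntr_sub, ← ntr_add, ← ntr_add]
    congr 1
    rw [he, he', Matrix.conjTranspose_sub]
    noncomm_ring
  have b6 : ‖utr (y⁻¹ * y') - utr (x⁻¹ * x')‖ ≤ 8 / 1000 / p + 8 / 1000 / p +
      4 / 1000000 / p := by
    rw [b5]
    refine (norm_add_le _ _).trans (add_le_add ((norm_add_le _ _).trans (add_le_add b1 b3)) b4)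
  have b7 : |‖utr (y⁻¹ * y')‖ - ‖utr (W⁻¹ * W')‖| ≤ 8 / 1000 / p + 8 / 1000 / p +
      4 / 1000000 / p + 2 / 1000 / p := by
    refine (abs_norm_sub_norm_le _ _).trans ?_
    have : utr (y⁻¹ * y') - utr (W⁻¹ * W') = (utr (y⁻¹ * y') - utr (x⁻¹ * x')) +
      (utr (x⁻¹ * x') - utr (W⁻¹ * W')) := by ring
    rw [this]
    exact (norm_add_le _ _).trans (add_le_add b6 a1)
  refine b7.trans ?_
  rw [← add_div, ← add_div, ← add_div]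
  exact div_le_div_of_nonneg_right (by norm_num) p0.le

end Pool.Agent.OGP
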