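import Pool.Agent.OGP.Fdet
import Pool.Agent.OGP.Finc
import Pool.Agent.OGP.Fpair
import Pool.Agent.OGP.Over

/-!
# OGP FMAIN: the overlap gap

`M = k N²`, `η = 1/1000`, no leftover, `E = √(0.38) √(p log p/k)` (written `√(38/100 * (p log p/k))`).
Nets: `s₁` from `exists_opnet` with `δ = η/p` (`card ≤ (11 p/η)^M = (11000 p)^M`), `s₀` from
`coarse_net` with `δ = η/√p` (`card ≤ (22000 √p)^M`; close pairs for `b = 6/p`:
`3/√b + 1 = 3 √p/√6 + 1 ≤ 3 √p + 1`, `60 (√b + δ)/δ = 60 (1000 √6 + 1) ≤ 150000`),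
`m = 4000000 p`, so `4/m = 10⁻⁶/p`.
Bad events: `B₁ V`: `ST V ≥ 4√(p log p/k)` (`fsup`); `B₂ V`: the event of `finc`; the same for
`C V` in place of `V`, `C = Crot β S R` (for fixed `R`, `C V` is Haar distributed, so
`(haar × haar) {(V, R) : C V ∈ B} = haar B`; `B₁`, `B₂` are closed sets, hence measurable); and `B₃`,
the event of `fpair`.  Total probability `≤ (2 + 8 m + m²) e^{-M} ≤ e^{-M/2}` for `k ≥ k₀(p)`
(`M ≥ k`).
Outside of them, suppose `W, W'` are as in the set.  `fdet` for `(V, W)` and `(C V, W')` gives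
`x, y, j` and `x', y', j'`.  `Re Tp V (phU θ_j * emb y) ≥ E - 15 η √(p log p/k) ≥
0.6 √(p log p/k)` (`√0.38 = 0.6164..`), same for `C V`.  By `overlap_stable` in `UG (JJ k N 0)`
(with `phU θ_j * emb y` for `y`; `d2 (emb x) (emb W) = dK x W`, `utr (emb _) = qK _`, the phases
do not change the modulus), `| |qK (y⁻¹ y')| - |qK (W⁻¹ W')| | ≤ 1/p`, hence
`|qK (y⁻¹y')| ≥ 1 - 6/p`, and `≤ 1 - 3/p` or `cos β = 0`: so `(V, R) ∈ B₃`, a contradiction.
-/

open Matrix MeasureTheory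
namespace Pool.Agent.OGP

section gen
variable {ι : Type} [Fintype ι] [DecidableEq ι]

lemma fm_fst (B : Set (UG ι)) :
    ((haarU ι).prod (haarU ι)) {z | z.1 ∈ B} = (haarU ι) B := by
  have : {z : UG ι × UG ι | z.1 ∈ B} = B ×ˢ Set.univ := by
    ext z
    simp
  rw [this, Measure.prod_prod, measure_univ, mul_one]

lemma fm_rot (β : ℝ) (S : Matrix ι ι ℂ) {B : Set (UG ι)} (hB : MeasurableSet B) :
    ((haarU ι).prod (haarU ι)) {z | Crot β S z.2 * z.1 ∈ B} = (haarU ι) B := by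
  have hc : Continuous fun z : UG ι × UG ι => Crot β S z.2 * z.1 := by
    unfold Crot
    exact ((continuous_snd.mul continuous_const).mul continuous_snd.inv).mul continuous_fst
  have hm : MeasurableSet {z : UG ι × UG ι | Crot β S z.2 * z.1 ∈ B} := hc.measurable hB
  rw [Measure.prod_apply_symm hm]
  have h : ∀ R : UG ι, (haarU ι) ((fun V => (V, R)) ⁻¹' {z : UG ι × UG ι |
      Crot β S z.2 * z.1 ∈ B}) = (haarU ι) B := by
    intro R
    have : (fun V => (V, R)) ⁻¹' {z : UG ι × UG ι | Crot β S z.2 * z.1 ∈ B} =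
        (fun V => Crot β S R * V) ⁻¹' B := rfl
    rw [this, measure_preimage_mul]
  simp_rw [h]
  rw [lintegral_const, measure_univ, mul_one]

end gen

/-- The bad set of the first moments. -/
def fmB (p k N m : ℕ) (s₁ s₀ : Finset (KG k N)) : Set (UG (JJ k N 0)) :=
  {V | 4 * Real.sqrt (p * Real.log p / k) ≤ ST p k N 0 V} ∪
  {V | ∃ x ∈ s₁, ∃ y ∈ s₀, ∃ j : ℕ, j < m ∧
        ‖utr ((phU (2 * Real.pi * j / m) * emb k N 0 y)⁻¹ * emb k N 0 x) - 1‖ ≤
          2 / 1000000 / p ∧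
        4 / 1000 * Real.sqrt (p * Real.log p / k) ≤
          ‖Tp p V (phU (2 * Real.pi * j / m) * emb k N 0 y) - Tp p V (emb k N 0 x)‖}

lemma fm_Tp_cont {ι : Type} [Fintype ι] [DecidableEq ι] (p : ℕ) (W : UG ι) :
    Continuous fun V : UG ι => Tp p V W := by
  unfold Tp
  exact continuous_utr.comp ((continuous_id'.mul continuous_const).pow p)

lemma fm_ST_cont (p k N : ℕ) : Continuous (ST p k N 0) := by
  refine continuous_iff_continuousAt.2 fun V => ?_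
  rw [ContinuousAt, tendsto_iff_norm_sub_tendsto_zero]
  have h1 : Continuous fun V' : UG (JJ k N 0) => (p : ℝ) * d2 V' V := by
    have h2 : Continuous fun V' : UG (JJ k N 0) => d2 V' V :=
      continuous_n2.comp (continuous_subtype_val.sub continuous_const)
    exact continuous_const.mul h2
  have h3 := h1.tendsto V
  simp only [d2_self, mul_zero] at h3
  refine squeeze_zero (fun _ => norm_nonneg _) (fun V' => ?_) h3
  rw [Real.norm_eq_abs]
  exact ST_lip V' V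

lemma fmB_meas (p k N m : ℕ) (s₁ s₀ : Finset (KG k N)) : MeasurableSet (fmB p k N m s₁ s₀) := by
  refine MeasurableSet.union ?_ ?_
  · exact (isClosed_le continuous_const (fm_ST_cont p k N)).measurableSet
  · have e : {V : UG (JJ k N 0) | ∃ x ∈ s₁, ∃ y ∈ s₀, ∃ j : ℕ, j < m ∧
        ‖utr ((phU (2 * Real.pi * j / m) * emb k N 0 y)⁻¹ * emb k N 0 x) - 1‖ ≤
          2 / 1000000 / p ∧
        4 / 1000 * Real.sqrt (p * Real.log p / k) ≤
          ‖Tp p V (phU (2 * Real.pi * j / m) * emb k N 0 y) - Tp p V (emb k N 0 x)‖} =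
        ⋃ x ∈ s₁, ⋃ y ∈ s₀, ⋃ j ∈ Finset.range m, {V : UG (JJ k N 0) |
        ‖utr ((phU (2 * Real.pi * j / m) * emb k N 0 y)⁻¹ * emb k N 0 x) - 1‖ ≤
          2 / 1000000 / p ∧
        4 / 1000 * Real.sqrt (p * Real.log p / k) ≤
          ‖Tp p V (phU (2 * Real.pi * j / m) * emb k N 0 y) - Tp p V (emb k N 0 x)‖} := by
      ext V
      simp only [Set.mem_ofPred_eq, Set.mem_iUnion, exists_prop, Finset.mem_range]
    rw [e]
    refine Finset.measurableSet_biUnion _ fun x _ => Finset.measurableSet_biUnion _ fun y _ =>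
      Finset.measurableSet_biUnion _ fun j _ => ?_
    have h1 : IsClosed {V : UG (JJ k N 0) | 4 / 1000 * Real.sqrt (p * Real.log p / k) ≤
        ‖Tp p V (phU (2 * Real.pi * j / m) * emb k N 0 y) - Tp p V (emb k N 0 x)‖} :=
      isClosed_le continuous_const ((fm_Tp_cont p _).sub (fm_Tp_cont p _)).norm
    exact (MeasurableSet.const _).inter h1.measurableSet

lemma fm_utr_phase {k N : ℕ} (hk : 1 ≤ k) (hN : 1 ≤ N) (s t : ℝ) (y y' : KG k N) :
    ‖utr ((phU s * emb k N 0 y)⁻¹ * (phU t * emb k N 0 y'))‖ = ‖qK (y⁻¹ * y')‖ := by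
  have h1 : (phU s * emb k N 0 y)⁻¹ * (phU t * emb k N 0 y') =
      phU (-s) * (phU t * emb k N 0 (y⁻¹ * y')) := by
    have h2 : (phU s : UG (JJ k N 0))⁻¹ = phU (-s) := by
      rw [inv_eq_iff_mul_eq_one, ← phU_add, add_neg_cancel, phU_zero]
    rw [_root_.mul_inv_rev, h2, map_mul, map_inv, ← phU_comm, mul_assoc, ← mul_assoc _ (phU t),
      ← phU_comm t, mul_assoc (phU t)]
  rw [h1, utr_phU_mul, utr_phU_mul, utr_emb_zero hk hN, norm_mul, norm_mul, mul_comm Complex.I,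
    Complex.norm_exp_ofReal_mul_I, mul_comm Complex.I, Complex.norm_exp_ofReal_mul_I, one_mul,
    one_mul]

lemma fm_re_lower {a b : ℂ} {s : ℝ} (hs : 0 ≤ s) (h1 : Real.sqrt (38 / 100 * s) ≤ a.re)
    (h2 : ‖a - b‖ ≤ 15 / 1000 * Real.sqrt s) : 6 / 10 * Real.sqrt s ≤ b.re := by
  have h3 : |(a - b).re| ≤ ‖a - b‖ := Complex.abs_re_le_norm _
  have h4 := (abs_le.1 h3).2
  rw [Complex.sub_re] at h4
  have h5 : 615 / 1000 * Real.sqrt s ≤ Real.sqrt (38 / 100 * s) := by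
    refine Real.le_sqrt_of_sq_le ?_
    rw [mul_pow, Real.sq_sqrt hs]
    nlinarith
  linarith [Real.sqrt_nonneg s]

theorem fmain : ∃ p₀ : ℕ, ∀ p : ℕ, p₀ ≤ p → ∃ k₀ : ℕ, ∀ k : ℕ, k₀ ≤ k → ∀ N : ℕ, 1 ≤ N →
    ∀ S : Matrix (JJ k N 0) (JJ k N 0) ℂ, TrSymm S → ∀ β : ℝ,
      ((haarU (JJ k N 0)).prod (haarU (JJ k N 0))) {z | ∃ W W' : KG k N,
        Real.sqrt (38 / 100 * (p * Real.log p / k)) ≤ (Tp p z.1 (emb k N 0 W)).re ∧
        Real.sqrt (38 / 100 * (p * Real.log p / k)) ≤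
          (Tp p (Crot β S z.2 * z.1) (emb k N 0 W')).re ∧
        1 - 5 / (p : ℝ) ≤ ‖qK (W⁻¹ * W')‖ ∧
        (‖qK (W⁻¹ * W')‖ ≤ 1 - 4 / (p : ℝ) ∨ Real.cos β = 0)} ≤
      ENNReal.ofReal (Real.exp (-((k : ℝ) * (N : ℝ) ^ 2 / 2))) := by
  obtain ⟨pa, ha⟩ := fsup
  obtain ⟨pb, hb⟩ := finc
  obtain ⟨pc, hc⟩ := fpair
  refine ⟨max (max pa pb) (max pc 10), fun p hp => ?_⟩
  have hpa : pa ≤ p := ((le_max_left _ _).trans (le_max_left _ _)).trans hp
  have hpb : pb ≤ p := ((le_max_right _ _).trans (le_max_left _ _)).trans hp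
  have hpc : pc ≤ p := ((le_max_left _ _).trans (le_max_right _ _)).trans hp
  have hp10 : 10 ≤ p := ((le_max_right _ _).trans (le_max_right _ _)).trans hp
  have p10 : (10 : ℝ) ≤ p := by exact_mod_cast hp10
  have hp1 : 1 ≤ p := by omega
  have p0 : (0 : ℝ) < p := by linarith
  have hlog0 : 0 ≤ Real.log p := Real.log_natCast_nonneg p
  obtain ⟨ka, hka⟩ := ha p hpa
  obtain ⟨kb, hkb⟩ := hb p hpb
  obtain ⟨kc, hkc⟩ := hc p hpc
  set m : ℕ := 4000000 * p with hm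
  have hm1 : 1 ≤ m := by omega
  refine ⟨max (max ka kb) (max kc (max 1 (2 * (2 + 8 * m + m ^ 2)))), fun k hk N hN S hS β => ?_⟩
  have hk1 : ka ≤ k := ((le_max_left _ _).trans (le_max_left _ _)).trans hk
  have hk2 : kb ≤ k := ((le_max_right _ _).trans (le_max_left _ _)).trans hk
  have hk3 : kc ≤ k := ((le_max_left _ _).trans (le_max_right _ _)).trans hk
  have hk4 : max 1 (2 * (2 + 8 * m + m ^ 2)) ≤ k :=
    ((le_max_right _ _).trans (le_max_right _ _)).trans hk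
  have hk5 : 1 ≤ k := (le_max_left _ _).trans hk4
  have hk6 : 2 * (2 + 8 * m + m ^ 2) ≤ k := (le_max_right _ _).trans hk4
  have kR : (1 : ℝ) ≤ k := by exact_mod_cast hk5
  have NR : (1 : ℝ) ≤ N := by exact_mod_cast hN
  have : Nonempty (JJ k N 0) := ⟨Sum.inl (⟨0, hN⟩, ⟨0, hk5⟩)⟩
  -- the nets
  have hδ1 : 1 / 1000 / (p : ℝ) ≤ 1 := by
    rw [div_le_one p0]
    linarith
  obtain ⟨s₁, hs₁c, hs₁⟩ := exists_opnet (k := k) (N := N) hk5 hN
    (δ := 1 / 1000 / p) (by positivity) hδ1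
  have sp1 : 1 ≤ Real.sqrt p := Real.one_le_sqrt.2 (by linarith)
  have sp0 : 0 < Real.sqrt p := by linarith
  have hδ2 : 1 / 1000 / Real.sqrt p ≤ 1 := by
    rw [div_le_one sp0]
    linarith
  obtain ⟨s₀, hs₀, hs₀c, hs₀n⟩ := coarse_net (k := k) (N := N) hk5 hN
    (δ := 1 / 1000 / Real.sqrt p) (by positivity) hδ2
  have c1 : (s₁.card : ℝ) ≤ (11000 * (p : ℝ)) ^ (k * N ^ 2) := by
    refine hs₁c.trans (le_of_eq ?_)
    congr 1
    field_simp
    norm_num
  have c2 : (s₀.card : ℝ) ≤ (22000 * Real.sqrt p) ^ (k * N ^ 2) := by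
    refine hs₀c.trans (le_of_eq ?_)
    congr 1
    field_simp
    norm_num
  have c3 : ∀ x : KG k N, ({x' ∈ s₀ | 1 - 6 / (p : ℝ) ≤ ‖qK (x⁻¹ * x')‖}.card : ℝ) ≤
        (3 * Real.sqrt p + 1) * 150000 ^ (k * N ^ 2) := by
    intro x
    refine (hs₀n x (6 / p) (by positivity)).trans ?_
    have e6 : (24 / 10 : ℝ) ≤ Real.sqrt 6 := Real.le_sqrt_of_sq_le (by norm_num)
    have e6' : Real.sqrt 6 ≤ 245 / 100 := by
      rw [Real.sqrt_le_left (by norm_num)]
      norm_num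
    have e7 : Real.sqrt (6 / p) = Real.sqrt 6 / Real.sqrt p := Real.sqrt_div (by norm_num) _
    refine mul_le_mul ?_ ?_ (by positivity) (by positivity)
    · rw [e7, div_div_eq_mul_div]
      have : 3 * Real.sqrt p / Real.sqrt 6 ≤ 3 * Real.sqrt p :=
        div_le_self (by positivity) (by linarith)
      linarith
    · refine pow_le_pow_left₀ (by positivity) ?_ _
      rw [e7]
      have e8 : 60 * (Real.sqrt 6 / Real.sqrt p + 1 / 1000 / Real.sqrt p) /
          (1 / 1000 / Real.sqrt p) = 60 * (1000 * Real.sqrt 6 + 1) := by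
        field_simp
      rw [e8]
      linarith
  have hm4 : 4 / (m : ℝ) ≤ 1 / 1000000 / p := by
    rw [hm]
    push_cast
    refine le_of_eq ?_
    field_simp
    norm_num
  -- the measures of the bad sets
  set M : ℝ := (k : ℝ) * (N : ℝ) ^ 2 with hM
  have hB : (haarU (JJ k N 0)) (fmB p k N m s₁ s₀) ≤
      ENNReal.ofReal ((1 + 4 * m) * Real.exp (-M)) := by
    have h1 := hka k hk1 N hN
    have h2 := hkb k hk2 N hN s₁ s₀ m c1 c2
    rw [← ofReal_measureReal]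
    refine ENNReal.ofReal_le_ofReal ?_
    refine (measureReal_union_le _ _).trans ?_
    rw [add_mul, one_mul]
    exact add_le_add h1 h2
  set B₃ : Set (UG (JJ k N 0) × UG (JJ k N 0)) := {z | ∃ y ∈ s₀, ∃ y' ∈ s₀,
        ∃ j : ℕ, j < m ∧ ∃ j' : ℕ, j' < m ∧
        1 - 6 / (p : ℝ) ≤ ‖qK (y⁻¹ * y')‖ ∧
        (‖qK (y⁻¹ * y')‖ ≤ 1 - 3 / (p : ℝ) ∨ Real.cos β = 0) ∧
        6 / 10 * Real.sqrt (p * Real.log p / k) ≤
          (Tp p z.1 (phU (2 * Real.pi * j / m) * emb k N 0 y)).re ∧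
        6 / 10 * Real.sqrt (p * Real.log p / k) ≤
          (Tp p (Crot β S z.2 * z.1) (phU (2 * Real.pi * j' / m) * emb k N 0 y')).re} with hB₃
  have hB3 : ((haarU (JJ k N 0)).prod (haarU (JJ k N 0))) B₃ ≤
      ENNReal.ofReal ((m : ℝ) ^ 2 * Real.exp (-M)) := by
    rw [← ofReal_measureReal]
    exact ENNReal.ofReal_le_ofReal (hkc k hk3 N hN s₀ m c2 c3 S hS β)
  -- the deterministic part
  have hsub : {z : UG (JJ k N 0) × UG (JJ k N 0) | ∃ W W' : KG k N,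
        Real.sqrt (38 / 100 * (p * Real.log p / k)) ≤ (Tp p z.1 (emb k N 0 W)).re ∧
        Real.sqrt (38 / 100 * (p * Real.log p / k)) ≤
          (Tp p (Crot β S z.2 * z.1) (emb k N 0 W')).re ∧
        1 - 5 / (p : ℝ) ≤ ‖qK (W⁻¹ * W')‖ ∧
        (‖qK (W⁻¹ * W')‖ ≤ 1 - 4 / (p : ℝ) ∨ Real.cos β = 0)} ⊆
      ({z | z.1 ∈ fmB p k N m s₁ s₀} ∪ {z | Crot β S z.2 * z.1 ∈ fmB p k N m s₁ s₀}) ∪ B₃ := by
    intro z hz
    obtain ⟨W, W', hW, hW', hq1, hq2⟩ := hz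
    by_cases hz1 : z.1 ∈ fmB p k N m s₁ s₀
    · exact Or.inl (Or.inl hz1)
    by_cases hz2 : Crot β S z.2 * z.1 ∈ fmB p k N m s₁ s₀
    · exact Or.inl (Or.inr hz2)
    right
    have t1 := not_or.1 hz1
    have t2 := not_or.1 hz2
    obtain ⟨x, hx, y, hy, j, hj, dx, ux, vx⟩ := fdet hp1 hk5 hN hm4 hm1 hs₁ hs₀ z.1
      (not_le.1 t1.1) t1.2 W
    obtain ⟨x', hx', y', hy', j', hj', dx', ux', vx'⟩ := fdet hp1 hk5 hN hm4 hm1 hs₁ hs₀
      (Crot β S z.2 * z.1) (not_le.1 t2.1) t2.2 W'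
    have s0 : 0 ≤ (p : ℝ) * Real.log p / k := by positivity
    have r1 := fm_re_lower s0 hW vx
    have r2 := fm_re_lower s0 hW' vx'
    have eW : utr ((emb k N 0 W)⁻¹ * emb k N 0 W') = qK (W⁻¹ * W') := by
      rw [← map_inv, ← map_mul, utr_emb_zero hk5 hN]
    have ov := overlap_stable p10 (emb k N 0 W) (emb k N 0 W') (emb k N 0 x) (emb k N 0 x')
      (phU (2 * Real.pi * j / m) * emb k N 0 y) (phU (2 * Real.pi * j' / m) * emb k N 0 y')
      (by rw [d2_emb_zero hk5 hN]; exact dx) (by rw [d2_emb_zero hk5 hN]; exact dx') ux ux'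
      (by rw [eW]; exact hq1)
    rw [eW, fm_utr_phase hk5 hN] at ov
    obtain ⟨ov1, ov2⟩ := abs_le.1 ov
    have f1 : 6 / (p : ℝ) = 5 / p + 1 / p := by ring
    have f2 : 4 / (p : ℝ) = 3 / p + 1 / p := by ring
    refine ⟨y, hy, y', hy', j, hj, j', hj', ?_, ?_, r1, r2⟩
    · rw [f1]
      linarith
    · rcases hq2 with h | h
      · left
        rw [f2] at h
        linarith
      · exact Or.inr h
  refine (measure_mono hsub).trans ((measure_union_le _ _).trans ?_)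
  refine (add_le_add (measure_union_le _ _) hB3).trans ?_
  rw [fm_fst, fm_rot β S (fmB_meas p k N m s₁ s₀)]
  refine (add_le_add (add_le_add hB hB) le_rfl).trans ?_
  rw [← ENNReal.ofReal_add (by positivity) (by positivity),
    ← ENNReal.ofReal_add (by positivity) (by positivity)]
  refine ENNReal.ofReal_le_ofReal ?_
  have g1 : (2 + 8 * (m : ℝ) + (m : ℝ) ^ 2) ≤ Real.exp (M / 2) := by
    have g2 : M / 2 ≤ Real.exp (M / 2) := by
      have := Real.add_one_le_exp (M / 2)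
      linarith
    have g3 : 2 * (2 + 8 * (m : ℝ) + (m : ℝ) ^ 2) ≤ k := by exact_mod_cast hk6
    have g4 : (k : ℝ) ≤ M := by
      rw [hM]
      nlinarith [mul_nonneg (by linarith : (0 : ℝ) ≤ k) (by nlinarith : (0 : ℝ) ≤ (N : ℝ) ^ 2 - 1)]
    linarith
  calc (1 + 4 * (m : ℝ)) * Real.exp (-M) + (1 + 4 * m) * Real.exp (-M) +
        (m : ℝ) ^ 2 * Real.exp (-M) = (2 + 8 * (m : ℝ) + (m : ℝ) ^ 2) * Real.exp (-M) := by ring
    _ ≤ Real.exp (M / 2) * Real.exp (-M) :=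
        mul_le_mul_of_nonneg_right g1 (Real.exp_pos _).le
    _ = Real.exp (-(M / 2)) := by
        rw [← Real.exp_add]
        congr 1
        ring

end Pool.Agent.OGP
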