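import Pool.Agent.OGP.Eexp

/-!
# OGP FLOW: Lipschitz estimates for the exponential

Proof of `hs_flow`.  With `A = e^{iX/m}`, `B = e^{iY/m}` one has
`A^m u B^m - u = ∑_{j < m} A^j (A u B - u) B^j`, so that `hs (e^{iX} u e^{iY} - u) ≤ m * hs (A u B - u)`
by unitary invariance of `hs`.  As `m → ∞`, the right side
tends to `hs (i (X u + u Y)) = hs (X u + u Y)`.  `hs_eU_sub`: apply `hs_flow` with `u = 1`,
`Y := -Y`; `eU X (eU Y)⁻¹ - 1` has the same `hs` as `eU X - eU Y`.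

Proof of `hs_eU_taylor`: with `t = 1/m`, `A = e^{itX}`,
`A^{k+1} - 1 - (k+1) i t X = (A^k - 1)(A - 1) + (A^k - 1 - k i t X) + (A - 1 - i t X)` gives
`hs (A^k - 1 - k i t X) ≤ (k²/2) t² hs X ^ 2 + k hs (A - 1 - i t X)` by induction; take `k = m`.
-/

open Matrix Filter Topology
namespace Pool.Agent.OGP

variable {ι : Type} [Fintype ι] [DecidableEq ι]

lemma flow_pow (A B : UG ι) (u : Matrix ι ι ℂ) (m : ℕ) :
    hs (((A ^ m : UG ι) : Matrix ι ι ℂ) * u * ((B ^ m : UG ι) : Matrix ι ι ℂ) - u) ≤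
      m * hs ((A : Matrix ι ι ℂ) * u * (B : Matrix ι ι ℂ) - u) := by
  induction m with
  | zero => simp [hs_zero]
  | succ m ih =>
    have h : ((A ^ (m + 1) : UG ι) : Matrix ι ι ℂ) * u * ((B ^ (m + 1) : UG ι) : Matrix ι ι ℂ) - u =
        ((A ^ m : UG ι) : Matrix ι ι ℂ) * ((A : Matrix ι ι ℂ) * u * (B : Matrix ι ι ℂ) - u) *
          ((B ^ m : UG ι) : Matrix ι ι ℂ) +
        (((A ^ m : UG ι) : Matrix ι ι ℂ) * u * ((B ^ m : UG ι) : Matrix ι ι ℂ) - u) := by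
      rw [pow_succ, pow_succ', UG_coe_mul, UG_coe_mul, mul_sub, sub_mul]
      simp only [Matrix.mul_assoc]
      abel
    rw [h]
    refine (hs_add_le _ _).trans ?_
    rw [hs_mul_unitary, hs_unitary_mul, Nat.cast_succ]
    linarith

lemma eU_nsmul' {X : Matrix ι ι ℂ} (hX : X.IsHermitian) (t : ℝ) (m : ℕ) :
    eU (((m * t : ℝ) : ℂ) • X) = eU ((t : ℂ) • X) ^ m := by
  induction m with
  | zero => simp [eU_zero]
  | succ m ih =>
    rw [pow_succ, ← ih, ← eU_add_smul hX]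
    congr 3
    push_cast
    ring

lemma eU_root {X : Matrix ι ι ℂ} (hX : X.IsHermitian) (m : ℕ) :
    eU X = eU ((((m + 1 : ℝ)⁻¹ : ℝ) : ℂ) • X) ^ (m + 1) := by
  rw [← eU_nsmul' hX]
  have : (((m + 1 : ℕ) : ℝ) * (m + 1 : ℝ)⁻¹) = 1 := by
    push_cast
    field_simp
  rw [this, Complex.ofReal_one, one_smul]

lemma lim_inv : Tendsto (fun m : ℕ => ((m : ℝ) + 1)⁻¹) atTop (𝓝[≠] 0) := by
  rw [tendsto_nhdsWithin_iff]
  refine ⟨?_, Filter.Eventually.of_forall fun m => ?_⟩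
  · simpa using tendsto_one_div_add_atTop_nhds_zero_nat (𝕜 := ℝ)
  · have : (0 : ℝ) < ((m : ℝ) + 1)⁻¹ := by positivity
    exact this.ne'

lemma lim_eU {X : Matrix ι ι ℂ} (hX : X.IsHermitian) :
    Tendsto (fun m : ℕ => ((m + 1 : ℝ) : ℂ) •
      (((eU ((((m + 1 : ℝ)⁻¹ : ℝ) : ℂ) • X) : UG ι) : Matrix ι ι ℂ) - 1)) atTop
      (𝓝 (Complex.I • X)) := by
  refine tendsto_pi_nhds.2 fun i => ?_
  refine tendsto_pi_nhds.2 fun j => ?_
  have hd := hasDerivAt_eU hX 0 i j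
  have h2 : (Complex.I • X * ((eU (((0 : ℝ) : ℂ) • X) : UG ι) : Matrix ι ι ℂ)) i j =
      (Complex.I • X) i j := by
    simp [eU_zero]
  rw [h2] at hd
  have h3 := hd.tendsto_slope_zero.comp lim_inv
  refine h3.congr fun m => ?_
  have e0 : ((eU (((0 : ℝ) : ℂ) • X) : UG ι) : Matrix ι ι ℂ) = 1 := by simp [eU_zero]
  simp only [Function.comp, zero_add, inv_inv, e0]
  rw [Complex.real_smul]
  rfl

lemma lim_eU_one (X : Matrix ι ι ℂ) :
    Tendsto (fun m : ℕ => ((eU ((((m + 1 : ℝ)⁻¹ : ℝ) : ℂ) • X) : UG ι) : Matrix ι ι ℂ)) atTop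
      (𝓝 1) := by
  have hc : Continuous fun s : ℝ => ((eU ((s : ℂ) • X) : UG ι) : Matrix ι ι ℂ) :=
    continuous_subtype_val.comp (continuous_eU.comp
      ((Complex.continuous_ofReal).smul continuous_const))
  have h := (hc.tendsto 0).comp (lim_inv.mono_right nhdsWithin_le_nhds)
  have e : ((eU (((0 : ℝ) : ℂ) • X) : UG ι) : Matrix ι ι ℂ) = 1 := by
    simp [eU_zero]
  rw [e] at h
  exact h

theorem hs_flow {X Y : Matrix ι ι ℂ} (hX : X.IsHermitian) (hY : Y.IsHermitian)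
    (u : Matrix ι ι ℂ) :
    hs ((eU X : Matrix ι ι ℂ) * u * (eU Y : Matrix ι ι ℂ) - u) ≤ hs (X * u + u * Y) := by
  have hlim : Tendsto (fun m : ℕ => ((m + 1 : ℝ) : ℂ) •
      (((eU ((((m + 1 : ℝ)⁻¹ : ℝ) : ℂ) • X) : UG ι) : Matrix ι ι ℂ) * u *
        ((eU ((((m + 1 : ℝ)⁻¹ : ℝ) : ℂ) • Y) : UG ι) : Matrix ι ι ℂ) - u)) atTop
      (𝓝 (Complex.I • (X * u + u * Y))) := by
    have h1 := (((lim_eU hX).mul (tendsto_const_nhds (x := u))).mul (lim_eU_one Y)).add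
      ((tendsto_const_nhds (x := u)).mul (lim_eU hY))
    have e : Complex.I • X * u * 1 + u * (Complex.I • Y) = Complex.I • (X * u + u * Y) := by
      rw [mul_one, Matrix.smul_mul, Matrix.mul_smul, smul_add]
    rw [e] at h1
    refine h1.congr fun m => ?_
    rw [Matrix.smul_mul, Matrix.smul_mul, Matrix.mul_smul, ← smul_add]
    congr 1
    rw [sub_mul, sub_mul, mul_sub, one_mul, mul_one]
    abel
  have hlim2 := (continuous_hs.tendsto _).comp hlim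
  have hfin : hs (Complex.I • (X * u + u * Y)) = hs (X * u + u * Y) := by
    rw [hs_smul]; simp
  rw [hfin] at hlim2
  refine ge_of_tendsto' hlim2 fun m => ?_
  simp only [Function.comp]
  rw [hs_smul, Complex.norm_real, Real.norm_eq_abs, abs_of_nonneg (by positivity)]
  have h := flow_pow (eU ((((m + 1 : ℝ)⁻¹ : ℝ) : ℂ) • X)) (eU ((((m + 1 : ℝ)⁻¹ : ℝ) : ℂ) • Y)) u
    (m + 1)
  rw [← eU_root hX, ← eU_root hY, Nat.cast_succ] at h
  exact h

theorem hs_eU_sub {X Y : Matrix ι ι ℂ} (hX : X.IsHermitian) (hY : Y.IsHermitian) :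
    hs ((eU X : Matrix ι ι ℂ) - (eU Y : Matrix ι ι ℂ)) ≤ hs (X - Y) := by
  have h := hs_flow hX hY.neg 1
  rw [mul_one, mul_one, one_mul, ← sub_eq_add_neg] at h
  refine le_trans (le_of_eq ?_) h
  have e : (eU X : Matrix ι ι ℂ) * (eU (-Y) : Matrix ι ι ℂ) - 1 =
      ((eU X : Matrix ι ι ℂ) - (eU Y : Matrix ι ι ℂ)) * (eU (-Y) : Matrix ι ι ℂ) := by
    rw [sub_mul, eU_neg Y, ← UG_coe_mul (eU Y), mul_inv_cancel, UG_coe_one]
  rw [e, hs_mul_unitary]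

lemma taylor_aux {X : Matrix ι ι ℂ} (hX : X.IsHermitian) {t : ℝ} (ht : 0 ≤ t) (k : ℕ) :
    hs (((eU ((t : ℂ) • X) ^ k : UG ι) : Matrix ι ι ℂ) - 1 - (k * t : ℂ) • (Complex.I • X)) ≤
      (k : ℝ) ^ 2 / 2 * (t ^ 2 * hs X ^ 2) +
        k * hs (((eU ((t : ℂ) • X) : UG ι) : Matrix ι ι ℂ) - 1 - (t : ℂ) • (Complex.I • X)) := by
  induction k with
  | zero => simp [hs_zero]
  | succ k ih =>
    set A : UG ι := eU ((t : ℂ) • X) with hA
    have h : ((A ^ (k + 1) : UG ι) : Matrix ι ι ℂ) - 1 -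
        (((k + 1 : ℕ) : ℂ) * t : ℂ) • (Complex.I • X) =
        (((A ^ k : UG ι) : Matrix ι ι ℂ) - 1) * ((A : Matrix ι ι ℂ) - 1) +
        ((((A ^ k : UG ι) : Matrix ι ι ℂ) - 1 - (k * t : ℂ) • (Complex.I • X)) +
        ((A : Matrix ι ι ℂ) - 1 - (t : ℂ) • (Complex.I • X))) := by
      rw [pow_succ, UG_coe_mul, sub_mul, mul_sub, one_mul, mul_one, Nat.cast_succ, add_mul,
        one_mul, add_smul]
      abel
    have h1 : hs ((A : Matrix ι ι ℂ) - 1) ≤ t * hs X := by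
      have := hs_eU_sub (isHermitian_smul hX t) (Matrix.isHermitian_zero (n := ι) (α := ℂ))
      rw [eU_zero, sub_zero, hs_smul, Complex.norm_real, Real.norm_eq_abs, abs_of_nonneg ht] at this
      exact this
    have h2 : hs (((A ^ k : UG ι) : Matrix ι ι ℂ) - 1) ≤ k * t * hs X := by
      have := hs_eU_sub (isHermitian_smul hX (k * t)) (Matrix.isHermitian_zero (n := ι) (α := ℂ))
      rw [eU_zero, sub_zero, hs_smul, Complex.norm_real, Real.norm_eq_abs,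
        abs_of_nonneg (by positivity), eU_nsmul' hX] at this
      exact this
    have h3 : hs ((((A ^ k : UG ι) : Matrix ι ι ℂ) - 1) * ((A : Matrix ι ι ℂ) - 1)) ≤
        k * (t ^ 2 * hs X ^ 2) := by
      refine (hs_mul_le _ _).trans ?_
      calc _ ≤ (k * t * hs X) * (t * hs X) := by
            gcongr
            · exact hs_nonneg _
            · have := hs_nonneg X
              positivity
        _ = _ := by ring
    rw [h]
    refine (hs_add_le _ _).trans ?_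
    have h4 := hs_add_le (((A ^ k : UG ι) : Matrix ι ι ℂ) - 1 - (k * t : ℂ) • (Complex.I • X))
      ((A : Matrix ι ι ℂ) - 1 - (t : ℂ) • (Complex.I • X))
    have h5 : 0 ≤ t ^ 2 * hs X ^ 2 := by positivity
    rw [Nat.cast_succ]
    nlinarith

theorem hs_eU_taylor {X : Matrix ι ι ℂ} (hX : X.IsHermitian) :
    hs ((eU X : Matrix ι ι ℂ) - 1 - Complex.I • X) ≤ hs X ^ 2 / 2 := by
  have hlim : Tendsto (fun m : ℕ => hs (((m + 1 : ℝ) : ℂ) •
      (((eU ((((m + 1 : ℝ)⁻¹ : ℝ) : ℂ) • X) : UG ι) : Matrix ι ι ℂ) - 1) - Complex.I • X)) atTop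
      (𝓝 (hs (Complex.I • X - Complex.I • X))) :=
    (continuous_hs.tendsto _).comp ((lim_eU hX).sub_const _)
  rw [sub_self, hs_zero] at hlim
  have hlim2 := hlim.const_add (hs X ^ 2 / 2)
  rw [add_zero] at hlim2
  refine ge_of_tendsto' hlim2 fun m => ?_
  have hm : (0 : ℝ) < (m + 1 : ℝ) := by positivity
  have h := taylor_aux hX (t := (m + 1 : ℝ)⁻¹) (by positivity) (m + 1)
  rw [← eU_root hX] at h
  have e1 : (((m + 1 : ℕ) : ℂ) * (((m + 1 : ℝ)⁻¹ : ℝ) : ℂ)) = 1 := by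
    have : (m + 1 : ℂ) ≠ 0 := by exact_mod_cast Nat.succ_ne_zero m
    push_cast
    field_simp
  rw [e1, one_smul, Nat.cast_succ] at h
  have e2 : (m + 1 : ℝ) ^ 2 / 2 * (((m + 1 : ℝ)⁻¹) ^ 2 * hs X ^ 2) = hs X ^ 2 / 2 := by
    field_simp
  rw [e2] at h
  refine h.trans (le_of_eq ?_)
  congr 1
  have e3 : ((m + 1 : ℝ) : ℂ) •
      (((eU ((((m + 1 : ℝ)⁻¹ : ℝ) : ℂ) • X) : UG ι) : Matrix ι ι ℂ) - 1) - Complex.I • X =
      ((m + 1 : ℝ) : ℂ) • ((((eU ((((m + 1 : ℝ)⁻¹ : ℝ) : ℂ) • X) : UG ι) : Matrix ι ι ℂ) - 1) -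
        (((m + 1 : ℝ)⁻¹ : ℝ) : ℂ) • (Complex.I • X)) := by
    rw [smul_sub (((m + 1 : ℝ) : ℂ)) (_ - 1) ((((m + 1 : ℝ)⁻¹ : ℝ) : ℂ) • (Complex.I • X)),
      smul_smul, ← Complex.ofReal_mul, mul_inv_cancel₀ hm.ne', Complex.ofReal_one, one_smul]
  rw [e3, hs_smul, Complex.norm_real, Real.norm_eq_abs, abs_of_pos hm]

end Pool.Agent.OGP
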