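import Pool.Agent.OGP.Basic

/-!
# OGP: block diagonal unitaries (definitions)
-/

open Matrix MeasureTheory
namespace Pool.Agent.OGP

/-- `k` unitary matrices of size `N`. -/
abbrev KG (k N : ℕ) := Fin k → UG (Fin N)

/-- The index set: `k` blocks of size `N` and `r` further indices. -/
abbrev JJ (k N r : ℕ) := (Fin N × Fin k) ⊕ Fin r

/-- The product Haar measure on `k` unitary matrices. -/
noncomputable def haarK (k N : ℕ) : Measure (KG k N) := Measure.pi fun _ => haarU (Fin N)

instance instProbK (k N : ℕ) : IsProbabilityMeasure (haarK k N) := by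
  unfold haarK; infer_instance

instance instInvK (k N : ℕ) : (haarK k N).IsMulLeftInvariant := by
  unfold haarK; infer_instance

/-- The block diagonal matrix with given blocks, and `c` times the identity on the leftover. -/
def blk (k N r : ℕ) (c : ℂ) (X : Fin k → Matrix (Fin N) (Fin N) ℂ) :
    Matrix (JJ k N r) (JJ k N r) ℂ :=
  Matrix.fromBlocks (Matrix.blockDiagonal X) 0 0 (c • 1)

lemma blk_mul (k N r : ℕ) (c d : ℂ) (X Y : Fin k → Matrix (Fin N) (Fin N) ℂ) :
    blk k N r c X * blk k N r d Y = blk k N r (c * d) (fun i => X i * Y i) := by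
  unfold blk
  rw [Matrix.fromBlocks_multiply, Matrix.blockDiagonal_mul]
  simp [smul_smul, mul_comm]

lemma blk_one (k N r : ℕ) : blk k N r 1 (fun _ => 1) = 1 := by
  unfold blk
  have : (fun _ : Fin k => (1 : Matrix (Fin N) (Fin N) ℂ)) = 1 := rfl
  rw [this, Matrix.blockDiagonal_one]
  simp

lemma blk_conjTranspose (k N r : ℕ) (c : ℂ) (X : Fin k → Matrix (Fin N) (Fin N) ℂ) :
    (blk k N r c X)ᴴ = blk k N r (star c) (fun i => (X i)ᴴ) := by
  unfold blk
  rw [Matrix.fromBlocks_conjTranspose, Matrix.blockDiagonal_conjTranspose]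
  simp

/-- The block diagonal unitary with given blocks (identity on the leftover). -/
def emb (k N r : ℕ) : KG k N →* UG (JJ k N r) where
  toFun W := ⟨blk k N r 1 (fun i => (W i : Matrix (Fin N) (Fin N) ℂ)), by
    rw [Matrix.mem_unitaryGroup_iff, Matrix.star_eq_conjTranspose, blk_conjTranspose, blk_mul]
    have : (fun i : Fin k => (W i : Matrix (Fin N) (Fin N) ℂ) *
        ((W i : Matrix (Fin N) (Fin N) ℂ))ᴴ) = fun _ => 1 := by
      funext i
      exact Matrix.mem_unitaryGroup_iff.1 (W i).2
    rw [this]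
    simp [blk_one]⟩
  map_one' := by
    apply Subtype.ext
    change blk k N r 1 (fun _ => 1) = 1
    exact blk_one k N r
  map_mul' W W' := by
    apply Subtype.ext
    change blk k N r 1 _ = blk k N r 1 _ * blk k N r 1 _
    rw [blk_mul]
    simp

/-- The normalised trace of the block part. -/
noncomputable def qK {k N : ℕ} (W : KG k N) : ℂ := (k : ℂ)⁻¹ * ∑ i, utr (W i)

/-- The normalised Hilbert-Schmidt distance of the block parts. -/
noncomputable def dK {k N : ℕ} (W W' : KG k N) : ℝ :=
  Real.sqrt ((k : ℝ)⁻¹ * ∑ i, d2 (W i) (W' i) ^ 2)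

end Pool.Agent.OGP
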