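import Pool.Agent.OGP.Rot
import Pool.Agent.OGP.Kdef
import Pool.Agent.OGP.Norms
import Pool.Agent.OGP.Flow

/-!
# OGP S0EX: symmetries of trace zero, Haar invariance of the rotated pair

`exists_trSymm`: `N = 2 N'`; the diagonal matrix with entries `1` at `(a, i)`, `a < N'` and `-1` at
`a ≥ N'` (`a : Fin N`).
`crot_conj`: `O⁻¹ (R D R⁻¹) O = (O⁻¹ R) D (O⁻¹ R)⁻¹`.
`conj_pair_preserving`: `(V, R) ↦ (O⁻¹ V O, O⁻¹ R)` preserves `haar × haar` (invariances of the Haar
measure, product of measure preserving maps).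
`crot_preserving`: for fixed `R`, `V ↦ Crot β S R * V` preserves `haar`; so does
`(U, V) ↦ (U, Crot β S R * V)` for `haar × haar`.
-/

open Matrix MeasureTheory
namespace Pool.Agent.OGP

variable {ι : Type} [Fintype ι] [DecidableEq ι]

theorem exists_trSymm (k N : ℕ) (hN : Even N) :
    ∃ S : Matrix (JJ k N 0) (JJ k N 0) ℂ, TrSymm S := by
  obtain ⟨m, rfl⟩ := hN
  let f : JJ k (m + m) 0 → ℂ := fun j => Sum.elim (fun p : Fin (m + m) × Fin k =>
    if (p.1 : ℕ) < m then (1 : ℂ) else -1) (fun _ => 1) j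
  have hf : ∀ j, f j = 1 ∨ f j = -1 := by
    rintro (p | q)
    · simp only [f, Sum.elim_inl]
      split_ifs
      · exact Or.inl rfl
      · exact Or.inr rfl
    · exact Or.inl rfl
  refine ⟨Matrix.diagonal f, ⟨?_, ?_, ?_⟩⟩
  · rw [Matrix.IsHermitian, Matrix.diagonal_conjTranspose]
    congr 1
    funext j
    rcases hf j with h | h
    · simp [h]
    · simp [h]
  · rw [Matrix.diagonal_mul_diagonal, ← Matrix.diagonal_one]
    congr 1
    funext j
    rcases hf j with h | h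
    · simp [h]
    · simp [h]
  · rw [Matrix.trace_diagonal, Fintype.sum_sum_type, Fintype.sum_prod_type]
    simp only [f, Sum.elim_inl, Sum.elim_inr]
    rw [Finset.univ_eq_empty (α := Fin 0), Finset.sum_empty, add_zero, Fin.sum_univ_add]
    simp

lemma crot_conj (β : ℝ) (S : Matrix ι ι ℂ) (O R : UG ι) :
    O⁻¹ * Crot β S R * O = Crot β S (O⁻¹ * R) := by
  unfold Crot
  group

lemma crot_zero (S : Matrix ι ι ℂ) (R : UG ι) : Crot 0 S R = 1 := by
  unfold Crot
  rw [Complex.ofReal_zero, zero_smul, eU_zero]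
  group

lemma TrSymm.hs {S : Matrix ι ι ℂ} (hS : TrSymm S) : n2 S = n2 (1 : Matrix ι ι ℂ) := by
  have h1 := n2_sq_eq_ntr S
  have h2 := n2_sq_eq_ntr (1 : Matrix ι ι ℂ)
  rw [hS.herm.eq, hS.sq] at h1
  rw [Matrix.conjTranspose_one, Matrix.one_mul, ← h1] at h2
  have h3 : n2 (1 : Matrix ι ι ℂ) ^ 2 = n2 S ^ 2 := by exact_mod_cast h2
  exact ((sq_eq_sq₀ (n2_nonneg _) (n2_nonneg _)).1 h3).symm

/-- `β ↦ Crot β S R` is `1`-Lipschitz for `d2`: `hs_eU_sub`-type bound, `S` is unitary. -/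
lemma crot_lip [Nonempty ι] {S : Matrix ι ι ℂ} (hS : TrSymm S) (β β' : ℝ) (R : UG ι) :
    d2 (Crot β S R) (Crot β' S R) ≤ |β - β'| := by
  unfold Crot
  rw [d2_mul_right, d2_mul_left]
  have hH : ∀ b : ℝ, ((b : ℂ) • S).IsHermitian := by
    intro b
    rw [Matrix.IsHermitian, Matrix.conjTranspose_smul, hS.herm.eq]
    simp
  have h := hs_eU_sub (hH β) (hH β')
  have h2 : n2 (((eU ((β : ℂ) • S) : UG ι) : Matrix ι ι ℂ) -
      ((eU ((β' : ℂ) • S) : UG ι) : Matrix ι ι ℂ)) ≤ n2 ((β : ℂ) • S - (β' : ℂ) • S) := by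
    rw [n2_eq, n2_eq]
    exact div_le_div_of_nonneg_right h (Real.sqrt_nonneg _)
  refine h2.trans (le_of_eq ?_)
  rw [← sub_smul, n2_smul, hS.hs, n2_one, mul_one, ← Complex.ofReal_sub, Complex.norm_real,
    Real.norm_eq_abs]

lemma continuous_crot (β : ℝ) (S : Matrix ι ι ℂ) : Continuous (Crot β S) := by
  unfold Crot
  exact (continuous_id.mul continuous_const).mul continuous_inv

theorem conj_pair_preserving (O : UG ι) :
    MeasurePreserving (fun x : UG ι × UG ι => (O⁻¹ * x.1 * O, O⁻¹ * x.2))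
      ((haarU ι).prod (haarU ι)) ((haarU ι).prod (haarU ι)) := by
  have h1 : MeasurePreserving (fun x : UG ι => O⁻¹ * x) (haarU ι) (haarU ι) :=
    measurePreserving_mul_left (haarU ι) O⁻¹
  have h2 : MeasurePreserving (fun x : UG ι => x * O) (haarU ι) (haarU ι) :=
    measurePreserving_mul_right (haarU ι) O
  have h3 : MeasurePreserving (fun x : UG ι => O⁻¹ * x * O) (haarU ι) (haarU ι) := h2.comp h1
  exact h3.prod h1

theorem crot_preserving (β : ℝ) (S : Matrix ι ι ℂ) (R : UG ι) :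
    MeasurePreserving (fun x : UG ι × UG ι => (x.1, Crot β S R * x.2))
      ((haarU ι).prod (haarU ι)) ((haarU ι).prod (haarU ι)) :=
  (MeasurePreserving.id (haarU ι)).prod (measurePreserving_mul_left (haarU ι) (Crot β S R))

end Pool.Agent.OGP
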