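import Pool.Agent.OGP.Lvl
import Pool.Agent.OGP.Log

/-!
# OGP SORT: diagonalisation with angles increasing from block to block

`sorted_diag`: `unitary_diag_pos` gives `U = O diag(e^{iθ}) O⁻¹`, `θ x ∈ [0, 2π)`.  Let
`e : JJ k N r ≃ Fin n` be an equivalence which is monotone in `lvl` (`lvl x < lvl y → e x < e y`;
e.g. sort `Fin n` by `lvl ∘ e₀⁻¹` for any `e₀`), and `σ` a permutation of `Fin n` sorting
`θ ∘ e⁻¹` (`Tuple.sort`).  Then with the permutation `π = e⁻¹ σ e` of the index set, `θ ∘ π` is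
`BlockMono`, and conjugating by the permutation matrix of `π` gives the statement.
-/

open Matrix
namespace Pool.Agent.OGP

private lemma exists_sorting {J : Type} [Fintype J] (l : J → ℕ) (θ : J → ℝ) :
    ∃ π : J ≃ J, ∀ x y, l x < l y → θ (π x) ≤ θ (π y) := by
  classical
  set e₀ := Fintype.equivFin J
  set a := Tuple.sort (l ∘ e₀.symm) with ha
  have hma : Monotone ((l ∘ e₀.symm) ∘ a) := Tuple.monotone_sort _
  set e : J ≃ Fin (Fintype.card J) := e₀.trans a.symm with he
  set b := Tuple.sort (θ ∘ e.symm) with hb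
  have hmb : Monotone ((θ ∘ e.symm) ∘ b) := Tuple.monotone_sort _
  refine ⟨e.trans (b.trans e.symm), fun x y hxy => ?_⟩
  have h1 : e x ≤ e y := by
    by_contra h
    have h2 : e y ≤ e x := (not_le.1 h).le
    have h3 := hma h2
    simp only [Function.comp_apply, he, Equiv.trans_apply, Equiv.apply_symm_apply,
      Equiv.symm_apply_apply] at h3
    omega
  exact hmb h1

private lemma perm_conj {J : Type} [Fintype J] [DecidableEq J] (π : J ≃ J) (d : J → ℂ) :
    (Matrix.of fun x y => if x = π y then (1 : ℂ) else 0) * Matrix.diagonal (fun y => d (π y)) *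
      (Matrix.of fun x y => if x = π y then (1 : ℂ) else 0)ᴴ = Matrix.diagonal d := by
  ext x z
  rw [Matrix.mul_apply]
  simp only [Matrix.mul_diagonal, Matrix.of_apply, Matrix.conjTranspose_apply]
  rw [Equiv.sum_comp π (fun w => (if x = w then (1 : ℂ) else 0) * d w *
    star (if z = w then (1 : ℂ) else 0))]
  rw [Finset.sum_eq_single x]
  · by_cases h : x = z
    · subst h; simp
    · rw [Matrix.diagonal_apply_ne _ h]
      simp [Ne.symm h]
  · intro w _ hw
    simp [Ne.symm hw]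
  · intro h
    exact absurd (Finset.mem_univ _) h

private lemma perm_unitary {J : Type} [Fintype J] [DecidableEq J] (π : J ≃ J) :
    (Matrix.of fun x y => if x = π y then (1 : ℂ) else 0) ∈ Matrix.unitaryGroup J ℂ := by
  rw [Matrix.mem_unitaryGroup_iff, Matrix.star_eq_conjTranspose]
  have h := perm_conj π (fun _ => (1 : ℂ))
  simpa using h

theorem sorted_diag {k N r : ℕ} (U : UG (JJ k N r)) : ∃ (O : UG (JJ k N r))
    (θ : JJ k N r → ℝ), BlockMono θ ∧ (∀ x, 0 ≤ θ x ∧ θ x ≤ 2 * Real.pi) ∧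
      U = O * eU (Matrix.diagonal fun x => (θ x : ℂ)) * O⁻¹ := by
  obtain ⟨O, θ, hθ, hU⟩ := unitary_diag_pos U
  obtain ⟨π, hπ⟩ := exists_sorting (lvl (k := k) (N := N) (r := r)) θ
  set P : UG (JJ k N r) := ⟨_, perm_unitary π⟩ with hP
  have hE : eU (Matrix.diagonal fun x => (θ x : ℂ)) =
      P * eU (Matrix.diagonal fun x => (θ (π x) : ℂ)) * P⁻¹ := by
    apply Subtype.ext
    have h := perm_conj π (fun x => Complex.exp (Complex.I * θ x))
    rw [eU_diagonal, ← h]
    change _ = ((P : Matrix (JJ k N r) (JJ k N r) ℂ) *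
      ((eU (Matrix.diagonal fun x => (θ (π x) : ℂ)) : UG (JJ k N r)) : Matrix _ _ ℂ)) *
      (P : Matrix (JJ k N r) (JJ k N r) ℂ)ᴴ
    rw [eU_diagonal (fun x => θ (π x))]
  refine ⟨O * P, fun x => θ (π x), hπ, fun x => ⟨(hθ _).1, (hθ _).2.le⟩, ?_⟩
  rw [hU, hE]
  group

end Pool.Agent.OGP
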