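import Pool.Agent.OGP.Kfacts

/-!
# OGP SUP: the supremum of the moment over the block diagonal unitaries

`ST p k N r V = sup_W |Tp p V (emb W)|`; the supremum is over a compact set, of a continuous function,
so it is attained.  `ST_lip`: `|Tp p V W - Tp p V' W| ≤ d2 ((V W)^p) ((V' W)^p) ≤ p d2 V V'`
(`norm_utr_sub_le`, `d2_pow_le`, `d2_mul_right`).  `ST_phase`:
`Tp p (phU θ * V) W = e^{i p θ} Tp p V W`.
-/

open Matrix
namespace Pool.Agent.OGP

variable {ι : Type} [Fintype ι] [DecidableEq ι]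

/-- The supremum of the modulus of the moment over the block diagonal unitaries. -/
noncomputable def ST (p k N r : ℕ) (V : UG (JJ k N r)) : ℝ :=
  ⨆ W : KG k N, ‖Tp p V (emb k N r W)‖

lemma continuous_Tp (p : ℕ) : Continuous (fun x : UG ι × UG ι => Tp p x.1 x.2) := by
  unfold Tp
  exact continuous_utr.comp ((continuous_fst.mul continuous_snd).pow p)

lemma norm_Tp_le_one (p : ℕ) (V W : UG ι) : ‖Tp p V W‖ ≤ 1 := norm_utr_le_one _

lemma Tp_lip_left (p : ℕ) (V V' W : UG ι) : ‖Tp p V W - Tp p V' W‖ ≤ p * d2 V V' := by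
  unfold Tp
  refine (norm_utr_sub_le _ _).trans ((d2_pow_le _ _ _).trans ?_)
  rw [d2_mul_right]

lemma Tp_lip_right (p : ℕ) (V W W' : UG ι) : ‖Tp p V W - Tp p V W'‖ ≤ p * d2 W W' := by
  unfold Tp
  refine (norm_utr_sub_le _ _).trans ((d2_pow_le _ _ _).trans ?_)
  rw [d2_mul_left]

private lemma phU_pow (θ : ℝ) (p : ℕ) : (phU θ : UG ι) ^ p = phU (p * θ) := by
  induction p with
  | zero => simp [phU_zero]
  | succ p ih =>
    rw [pow_succ, ih, ← phU_add]
    congr 1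
    push_cast
    ring

private lemma utr_phU_pow (p : ℕ) (θ : ℝ) (A : UG ι) :
    utr ((phU θ * A) ^ p) = Complex.exp (Complex.I * ((p * θ : ℝ) : ℂ)) * utr (A ^ p) := by
  have h : Commute (phU θ) A := phU_comm θ A
  rw [h.mul_pow, phU_pow, utr_phU_mul]

lemma Tp_phase_left (p : ℕ) (θ : ℝ) (V W : UG ι) :
    Tp p (phU θ * V) W = Complex.exp (Complex.I * ((p * θ : ℝ) : ℂ)) * Tp p V W := by
  unfold Tp
  rw [mul_assoc, utr_phU_pow]

lemma Tp_phase_right (p : ℕ) (θ : ℝ) (V W : UG ι) :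
    Tp p V (phU θ * W) = Complex.exp (Complex.I * ((p * θ : ℝ) : ℂ)) * Tp p V W := by
  unfold Tp
  rw [← mul_assoc, ← phU_comm θ V, mul_assoc, utr_phU_pow]

/-- Simultaneous conjugation. -/
lemma Tp_conj (p : ℕ) (O V W : UG ι) :
    Tp p (O * V * O⁻¹) (O * W * O⁻¹) = Tp p V W := by
  unfold Tp
  have : O * V * O⁻¹ * (O * W * O⁻¹) = O * (V * W) * O⁻¹ := by group
  rw [this, conj_pow, utr_conj]

private lemma bdd_ST {p k N r : ℕ} (V : UG (JJ k N r)) :
    BddAbove (Set.range fun W : KG k N => ‖Tp p V (emb k N r W)‖) := by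
  refine ⟨1, ?_⟩
  rintro _ ⟨W, rfl⟩
  exact norm_Tp_le_one _ _ _

lemma le_ST {p k N r : ℕ} (V : UG (JJ k N r)) (W : KG k N) :
    ‖Tp p V (emb k N r W)‖ ≤ ST p k N r V := le_ciSup (bdd_ST V) W

lemma exists_ST {p k N r : ℕ} (V : UG (JJ k N r)) :
    ∃ W : KG k N, ‖Tp p V (emb k N r W)‖ = ST p k N r V := by
  have hc : Continuous fun W : KG k N => ‖Tp p V (emb k N r W)‖ :=
    ((continuous_Tp p).comp (continuous_const.prodMk (continuous_emb k N r))).norm
  obtain ⟨W, -, hW⟩ := isCompact_univ.exists_isMaxOn (Set.univ_nonempty (α := KG k N))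
    hc.continuousOn
  refine ⟨W, le_antisymm (le_ST V W) ?_⟩
  exact ciSup_le fun W' => hW (Set.mem_univ W')

lemma ST_nonneg {p k N r : ℕ} (V : UG (JJ k N r)) : 0 ≤ ST p k N r V :=
  (norm_nonneg _).trans (le_ST V 1)

private lemma ST_lip_aux {p k N r : ℕ} (V V' : UG (JJ k N r)) :
    ST p k N r V ≤ ST p k N r V' + p * d2 V V' := by
  refine ciSup_le fun W => ?_
  have h1 := Tp_lip_left p V V' (emb k N r W)
  have h2 := le_ST (p := p) V' W
  have h3 := norm_le_norm_add_norm_sub' (Tp p V (emb k N r W)) (Tp p V' (emb k N r W))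
  linarith

lemma ST_lip {p k N r : ℕ} (V V' : UG (JJ k N r)) :
    |ST p k N r V - ST p k N r V'| ≤ p * d2 V V' := by
  rw [abs_le]
  have h1 := ST_lip_aux (p := p) V V'
  have h2 := ST_lip_aux (p := p) V' V
  rw [d2_comm] at h2
  constructor <;> linarith

lemma ST_phase (p k N r : ℕ) : PhaseInv (ST p k N r) := by
  intro θ A
  unfold ST
  congr 1
  funext W
  rw [Tp_phase_left, norm_mul, Complex.norm_exp_I_mul_ofReal, one_mul]

/-- A phase makes the moment real and equal to the supremum. -/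
lemma exists_ST_phase {p k N r : ℕ} (hp : 1 ≤ p) (V : UG (JJ k N r)) :
    ∃ (W : KG k N) (θ : ℝ), (Tp p V (phU θ * emb k N r W)).re = ST p k N r V := by
  obtain ⟨W, hW⟩ := exists_ST (p := p) V
  obtain ⟨θ, hθ⟩ := exists_phase (Tp p V (emb k N r W))
  refine ⟨W, θ / p, ?_⟩
  have hp' : (p : ℝ) ≠ 0 := by positivity
  rw [Tp_phase_right, mul_div_cancel₀ _ hp', hθ, hW, Complex.ofReal_re]

end Pool.Agent.OGP
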