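import Pool.Agent.OGP.Mom
import Pool.Agent.OGP.S0ex
import Pool.Agent.OGP.Sort
import Pool.Agent.OGP.Sup

/-!
# OGP SAMPLE: existence of a good sample

Let `Bad N S β` be subsets of `UG J × UG J`, `J = JJ k N 0`, with `haar × haar`-measure
`≤ exp(-k N²/2)`.  Given finitely many group elements `Γ ∌ 1`, angles `B`, and `δ > 0`: for all large
even `N` there are `U`, `V`, `R`, and `O`, `θ`, `S` such that `U = O diag(e^{iθ}) O⁻¹`, `θ` increasing
from block to block, `|utr (evF U (C_β V) g)| ≤ δ` for `β ∈ B`, `g ∈ Γ`, and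
`(O⁻¹ V O, O⁻¹ R) ∉ Bad N S β` for `β ∈ B`; `C_β = Crot β S R`.

Proof.  Let `n = k N`.  For fixed `R` and `β`, `(U, V) ↦ (U, C_β V)` preserves `haar × haar`
(`crot_preserving`), so by `ev_small` and Chebyshev the closed condition `|utr (evF U (C_β V) g)| ≥ δ`
has `haar ⊗ haar ⊗ haar` probability `≤ C_g/(n² δ²)`; the sum over `B × Γ` is `< 1/4` for `N` large.
By Fubini there is `U` such that the conditional probability (over `(V, R)`) is `< 1/2` (these sets are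
measurable: closed conditions on continuous functions).  Fix it, and `O`, `θ` from `sorted_diag`, `S`
from `exists_trSymm` (`S` is chosen before `U`).  `(V, R) ↦ (O⁻¹ V O, O⁻¹ R)` preserves
`haar × haar` (`conj_pair_preserving`), so the probability of
`⋃_β {(V, R) : (O⁻¹ V O, O⁻¹ R) ∈ Bad N S β}` is at most `|B| exp(-k N²/2) < 1/2` for `N` large (outer
measure; `MeasurePreserving` maps: use `measure_preimage_le`-type bounds through a measurable superset
of the same measure, `toMeasurable`).  So there is `(V, R)` outside both.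
-/

open Matrix MeasureTheory
namespace Pool.Agent.OGP

private lemma sample_int {ι : Type} [Fintype ι] [DecidableEq ι] (β : ℝ) (S : Matrix ι ι ℂ)
    (g : FreeGroup (Fin 2)) (U : UG ι) :
    ∫ x : UG ι × UG ι, ‖utr (evF U (Crot β S x.2 * x.1) g)‖ ^ 2 ∂((haarU ι).prod (haarU ι)) =
      ∫ V, ‖utr (evF U V g)‖ ^ 2 ∂(haarU ι) := by
  have hc : Continuous fun x : UG ι × UG ι => ‖utr (evF U (Crot β S x.2 * x.1) g)‖ ^ 2 := by
    refine ((continuous_utr.comp ((continuous_evF g).comp (continuous_const.prodMk ?_))).norm).pow 2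
    exact ((continuous_crot β S).comp continuous_snd).mul continuous_fst
  have hi : Integrable (fun x : UG ι × UG ι => ‖utr (evF U (Crot β S x.2 * x.1) g)‖ ^ 2)
      ((haarU ι).prod (haarU ι)) :=
    hc.integrable_of_hasCompactSupport (HasCompactSupport.of_compactSpace _)
  rw [integral_prod_symm _ hi]
  have e : ∀ R : UG ι, ∫ V, ‖utr (evF U (Crot β S R * V) g)‖ ^ 2 ∂(haarU ι) =
      ∫ V, ‖utr (evF U V g)‖ ^ 2 ∂(haarU ι) := by
    intro R
    exact integral_mul_left_eq_self (μ := haarU ι) (fun V => ‖utr (evF U V g)‖ ^ 2) (Crot β S R)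
  simp only [e]
  simp

private lemma sample_pre {X : Type*} [MeasurableSpace X] {μ : Measure X} {f : X → X}
    (hf : MeasurePreserving f μ μ) (s : Set X) : μ (f ⁻¹' s) ≤ μ s := by
  calc μ (f ⁻¹' s) ≤ μ (f ⁻¹' (toMeasurable μ s)) :=
        measure_mono (Set.preimage_mono (subset_toMeasurable μ s))
    _ = μ (toMeasurable μ s) :=
        hf.measure_preimage (measurableSet_toMeasurable μ s).nullMeasurableSet
    _ = μ s := measure_toMeasurable s

theorem exists_sample {k : ℕ} (hk : 1 ≤ k)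
    (Bad : ∀ N : ℕ, Matrix (JJ k N 0) (JJ k N 0) ℂ → ℝ → Set (UG (JJ k N 0) × UG (JJ k N 0)))
    (hBad : ∀ N : ℕ, 1 ≤ N → ∀ S, TrSymm S → ∀ β,
      ((haarU (JJ k N 0)).prod (haarU (JJ k N 0))) (Bad N S β) ≤
        ENNReal.ofReal (Real.exp (-((k : ℝ) * (N : ℝ) ^ 2 / 2))))
    (Γ : Finset (FreeGroup (Fin 2))) (hΓ : ∀ g ∈ Γ, g ≠ 1) (B : Finset ℝ) {δ : ℝ} (hδ : 0 < δ) :
    ∃ N₀ : ℕ, ∀ N : ℕ, N₀ ≤ N → Even N → ∃ (S : Matrix (JJ k N 0) (JJ k N 0) ℂ)
      (U V R O : UG (JJ k N 0)) (θ : JJ k N 0 → ℝ), TrSymm S ∧ BlockMono θ ∧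
        (∀ x, 0 ≤ θ x ∧ θ x ≤ 2 * Real.pi) ∧
        U = O * eU (Matrix.diagonal fun x => (θ x : ℂ)) * O⁻¹ ∧
        (∀ β ∈ B, ∀ g ∈ Γ, ‖utr (evF U (Crot β S R * V) g)‖ ≤ δ) ∧
        ∀ β ∈ B, (O⁻¹ * V * O, O⁻¹ * R) ∉ Bad N S β := by
  classical
  choose! C hC0 hC using fun (g : FreeGroup (Fin 2)) (hg : g ≠ 1) => ev_small g hg
  set b : ℝ := (B.card : ℝ) with hb
  have hb0 : 0 ≤ b := Nat.cast_nonneg _
  set c : ℝ := ∑ g ∈ Γ, C g with hc
  have hc0 : 0 ≤ c := Finset.sum_nonneg fun g hg => hC0 g (hΓ g hg)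
  refine ⟨⌈2 * (b * c) / δ ^ 2 + 4 * b + 1⌉₊, fun N hN hEv => ?_⟩
  have hNr : 2 * (b * c) / δ ^ 2 + 4 * b + 1 ≤ (N : ℝ) :=
    (Nat.le_ceil _).trans (by exact_mod_cast hN)
  have hq0 : 0 ≤ 2 * (b * c) / δ ^ 2 := by positivity
  have hN1r : (1 : ℝ) ≤ N := by linarith
  have hN1 : 1 ≤ N := by exact_mod_cast hN1r
  have hk1r : (1 : ℝ) ≤ k := by exact_mod_cast hk
  have hne : Nonempty (JJ k N 0) := ⟨Sum.inl (⟨0, hN1⟩, ⟨0, hk⟩)⟩
  have hcard : (Fintype.card (JJ k N 0) : ℝ) = N * k := by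
    rw [card_JJ]
    push_cast
    ring
  set J := JJ k N 0 with hJ
  set μ := haarU J with hμ
  obtain ⟨S, hS⟩ := exists_trSymm k N hEv
  have hcard1 : (N : ℝ) ≤ (Fintype.card J : ℝ) ^ 2 := by
    rw [hcard]
    have : (1 : ℝ) ≤ (N : ℝ) * k := by nlinarith
    nlinarith
  have hnpos : (0 : ℝ) < (Fintype.card J : ℝ) ^ 2 := by linarith
  -- the choice of `U`
  have hch : ∀ g, Continuous fun x : UG J × UG J => ‖utr (evF x.1 x.2 g)‖ ^ 2 := fun g =>
    ((continuous_utr.comp (continuous_evF g)).norm).pow 2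
  have hih : ∀ g, Integrable (fun x : UG J × UG J => ‖utr (evF x.1 x.2 g)‖ ^ 2) (μ.prod μ) :=
    fun g => (hch g).integrable_of_hasCompactSupport (HasCompactSupport.of_compactSpace _)
  obtain ⟨U, hU⟩ : ∃ U : UG J, ∑ g ∈ Γ, ∫ V, ‖utr (evF U V g)‖ ^ 2 ∂μ ≤
      c / (Fintype.card J : ℝ) ^ 2 := by
    have hint : Integrable (fun U : UG J => ∑ g ∈ Γ, ∫ V, ‖utr (evF U V g)‖ ^ 2 ∂μ) μ :=
      integrable_finsetSum _ fun g _ => (hih g).integral_prod_left
    obtain ⟨U, hU⟩ := exists_le_integral hint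
    refine ⟨U, hU.trans ?_⟩
    rw [integral_finsetSum _ fun g _ => (hih g).integral_prod_left, hc, Finset.sum_div]
    refine Finset.sum_le_sum fun g hg => ?_
    rw [← integral_prod _ (hih g)]
    exact hC g (hΓ g hg) J
  obtain ⟨O, θ, hθ, hθ2, hUO⟩ := sorted_diag U
  -- the first event
  set f : UG J × UG J → ℝ := fun x => ∑ β ∈ B, ∑ g ∈ Γ, ‖utr (evF U (Crot β S x.2 * x.1) g)‖ ^ 2
    with hf
  have hcf : ∀ β g, Continuous fun x : UG J × UG J =>
      ‖utr (evF U (Crot β S x.2 * x.1) g)‖ ^ 2 := by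
    intro β g
    refine ((continuous_utr.comp ((continuous_evF g).comp (continuous_const.prodMk ?_))).norm).pow 2
    exact ((continuous_crot β S).comp continuous_snd).mul continuous_fst
  have hif : ∀ β g, Integrable (fun x : UG J × UG J =>
      ‖utr (evF U (Crot β S x.2 * x.1) g)‖ ^ 2) (μ.prod μ) := fun β g =>
    (hcf β g).integrable_of_hasCompactSupport (HasCompactSupport.of_compactSpace _)
  have hfint : Integrable f (μ.prod μ) :=
    integrable_finsetSum _ fun β _ => integrable_finsetSum _ fun g _ => hif β g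
  have hf0 : ∀ x, 0 ≤ f x := fun x =>
    Finset.sum_nonneg fun β _ => Finset.sum_nonneg fun g _ => sq_nonneg _
  have hfI : ∫ x, f x ∂(μ.prod μ) ≤ b * c / (Fintype.card J : ℝ) ^ 2 := by
    have e1 : ∫ x, f x ∂(μ.prod μ) = ∑ β ∈ B, ∑ g ∈ Γ, ∫ V, ‖utr (evF U V g)‖ ^ 2 ∂μ := by
      rw [hf, integral_finsetSum _ fun β _ => integrable_finsetSum _ fun g _ => hif β g]
      refine Finset.sum_congr rfl fun β _ => ?_
      rw [integral_finsetSum _ fun g _ => hif β g]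
      exact Finset.sum_congr rfl fun g _ => sample_int β S g U
    rw [e1, Finset.sum_const, nsmul_eq_mul, mul_div_assoc]
    exact mul_le_mul_of_nonneg_left hU hb0
  have hA : (μ.prod μ).real {x | δ ^ 2 ≤ f x} < 1 / 2 := by
    have e1 := mul_meas_ge_le_integral_of_nonneg (Filter.Eventually.of_forall hf0) hfint (δ ^ 2)
    have hδ2 : 0 < δ ^ 2 := by positivity
    have e2 : δ ^ 2 * (μ.prod μ).real {x | δ ^ 2 ≤ f x} ≤ b * c / N := by
      refine e1.trans (hfI.trans ?_)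
      exact div_le_div_of_nonneg_left (by positivity) (by linarith) hcard1
    have e3 : b * c / N < δ ^ 2 / 2 := by
      rw [div_lt_iff₀ (by linarith)]
      have e4 : 2 * (b * c) / δ ^ 2 < N := by linarith
      rw [div_lt_iff₀ hδ2] at e4
      linarith
    by_contra h
    push Not at h
    nlinarith
  -- the second event
  set Bd : Set (UG J × UG J) := ⋃ β ∈ B, (fun x : UG J × UG J => (O⁻¹ * x.1 * O, O⁻¹ * x.2)) ⁻¹'
    (Bad N S β) with hBd
  have hBdm : (μ.prod μ).real Bd < 1 / 2 := by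
    have e1 : (μ.prod μ) Bd ≤ ∑ _β ∈ B, ENNReal.ofReal (Real.exp (-((k : ℝ) * (N : ℝ) ^ 2 / 2))) := by
      refine (measure_biUnion_finset_le B _).trans ?_
      refine Finset.sum_le_sum fun β _ => ?_
      exact (sample_pre (conj_pair_preserving O) _).trans (hBad N hN1 S hS β)
    have e2 : (μ.prod μ).real Bd ≤ b * Real.exp (-((k : ℝ) * (N : ℝ) ^ 2 / 2)) := by
      rw [Measure.real]
      have e3 : ∑ _β ∈ B, ENNReal.ofReal (Real.exp (-((k : ℝ) * (N : ℝ) ^ 2 / 2))) =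
          ENNReal.ofReal (b * Real.exp (-((k : ℝ) * (N : ℝ) ^ 2 / 2))) := by
        rw [Finset.sum_const, nsmul_eq_mul, ENNReal.ofReal_mul hb0, hb, ENNReal.ofReal_natCast]
      rw [e3] at e1
      exact ENNReal.toReal_le_of_le_ofReal (by positivity) e1
    refine e2.trans_lt ?_
    have e4 : Real.exp (-((k : ℝ) * (N : ℝ) ^ 2 / 2)) ≤ (1 + (N : ℝ) / 2)⁻¹ := by
      rw [Real.exp_neg]
      refine inv_anti₀ (by positivity) ?_
      have e5 := Real.add_one_le_exp ((k : ℝ) * (N : ℝ) ^ 2 / 2)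
      have e6 : (N : ℝ) ≤ (k : ℝ) * (N : ℝ) ^ 2 := by nlinarith
      linarith
    have e7 : b * Real.exp (-((k : ℝ) * (N : ℝ) ^ 2 / 2)) ≤ b * (1 + (N : ℝ) / 2)⁻¹ :=
      mul_le_mul_of_nonneg_left e4 hb0
    refine e7.trans_lt ?_
    rw [← div_eq_mul_inv, div_lt_iff₀ (by positivity)]
    linarith
  -- conclusion
  obtain ⟨x, hx1, hx2⟩ : ∃ x : UG J × UG J, x ∉ {x | δ ^ 2 ≤ f x} ∧ x ∉ Bd := by
    by_contra hcon
    push Not at hcon
    have e1 : ({x | δ ^ 2 ≤ f x} ∪ Bd) = Set.univ := by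
      ext x
      simp only [Set.mem_univ, iff_true]
      by_cases h : x ∈ {x | δ ^ 2 ≤ f x}
      · exact Or.inl h
      · exact Or.inr (hcon x h)
    have e2 : (μ.prod μ).real ({x | δ ^ 2 ≤ f x} ∪ Bd) ≤ _ := measureReal_union_le _ _
    rw [e1, probReal_univ] at e2
    linarith
  refine ⟨S, U, x.1, x.2, O, θ, hS, hθ, hθ2, hUO, ?_, ?_⟩
  · intro β hβ g hg
    have e1 : f x < δ ^ 2 := not_le.1 hx1
    have e2 : ‖utr (evF U (Crot β S x.2 * x.1) g)‖ ^ 2 ≤ f x := by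
      refine le_trans ?_ (Finset.single_le_sum
        (f := fun β => ∑ g ∈ Γ, ‖utr (evF U (Crot β S x.2 * x.1) g)‖ ^ 2)
        (fun β _ => Finset.sum_nonneg fun g _ => sq_nonneg _) hβ)
      exact Finset.single_le_sum
        (f := fun g => ‖utr (evF U (Crot β S x.2 * x.1) g)‖ ^ 2) (fun g _ => sq_nonneg _) hg
    exact (abs_le_of_sq_le_sq' (e2.trans e1.le) hδ.le).2
  · intro β hβ h
    apply hx2
    rw [hBd]
    simp only [Set.mem_iUnion]
    exact ⟨β, hβ, h⟩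

end Pool.Agent.OGP
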