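import Pool.Agent.OGP.Near
import Pool.Agent.OGP.Sample
import Pool.Agent.OGP.Fmain

/-!
# OGP NOPOLY: the group algebra contains no approximate optimiser above the overlap gap

Let `p₀` and, for `p`, `k₀` be those of `fmain`, enlarged so that `p ≥ 10`, `k ≥ 1` and
`E₁ = √(0.39 p log p/k) > E_F = √(0.38 p log p/k)` (`log p > 0`).  Fix `R ≥ 1`, `Δ = E₁ - E_F > 0`,
`B = 2 R^p`.  Choose `δ > 0` with `23 √k δ p B ≤ Δ/4` and `46 √k δ ≤ 1/(8 p)`.  Let `q` be given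
with `EquiP k q δ` (constants `ε', D, n₀`).  Choose `ε > 0` with `2 ε (4 (1 + ‖q_i‖₁)) ≤ δ`,
`ε ≤ Δ/8`, `ε ≤ δ`.  Claim: there is no `f : CF` with
(1) `msq ((gb f)^j) ≤ R^{2j}`, `j ≤ p`; (2) `msq (mst f * f - 1) ≤ ε²`;
(3) `msq (f * lau (q i) - lau (q i) * f) ≤ (4 δ)²`; (4) `E₁ - ε ≤ Re ((gb f)^p).coeff 1`.

Proof.  Suppose `f` exists.  Let `L` be the constant of `evM_lip f`, `J ≥ 1` an integer with
`L (π/2)/J ≤ 1/(8p)`, `β_j = (π/2) j/J`, `B' = {β_0, ..., β_J}`.  Apply `moments_close` (with small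
`ε₀`) to the finitely many elements `mst f * f - 1`, `f * lau (q i) - lau (q i) * f`, `(gb f)^j`
(`j ≤ p`), and let `Γ` be the union of the finite sets obtained and of `{a^m : 1 ≤ m ≤ D}`, `δ'` the
minimum of the `δ`'s and of `ε'`.  Let `Bad N S β` be the set of `fmain`.  Take a sample
(`exists_sample`) with `N ≥ n₀`, `N` even.  For `β ∈ B'` put `V_β = Crot β S R * V`,
`F_β = evM U V_β f`.  Since `evM U V_β` is a `*`-homomorphism (`evM_mst`, `evM_gb`, `evM_lau`) and the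
moments are close, for `ε₀` small:
`n2 (F_βᴴ F_β - 1) ≤ 2ε`, `n2 ([F_β, lauM (q i) U]) ≤ 5 δ`, `n2 ((V_β F_β)^j) ≤ 2 R^j ≤ B`,
`Re ntr ((V_β F_β)^p) ≥ E₁ - 2ε`.  By `EquiP` (`utr (U^m) = utr (evF U V_0 (a^m))`),
`n2 (lauM (q i) U - O P_i O⁻¹) ≤ δ`.  `near_block` (with `2ε` for `ε`) gives `W_β : KG k N` with
`n2 (O⁻¹ F_β O - emb W_β) ≤ 23 √k δ` and
`Re Tp p (O⁻¹ V_β O) (emb W_β) ≥ E₁ - 2ε - 23 √k δ p B ≥ E₁ - Δ/4 - Δ/4 > E_F`.
`O⁻¹ V_β O = Crot β S (O⁻¹ R) * (O⁻¹ V O)` (`crot_conj`), `V_0 = V` (`crot_zero`).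
Let `u_j = ‖qK (W_{β_0}⁻¹ * W_{β_j})‖`.  `u_0 = 1`.  `|u_{j+1} - u_j| ≤ dK W_{β_j} W_{β_{j+1}}
= d2 (emb ..) (emb ..) ≤ n2 (F_{β_j} - F_{β_{j+1}}) + 46 √k δ ≤ L (π/2)/J + 46 √k δ ≤ 1/(4p)`
(`evM_lip`, `crot_lip`, `d2_mul_right`).  As the sample is not in `Bad` at `β_J = π/2`
(`cos β_J = 0`) with `W = W_{β_0}`, `W' = W_{β_J}`: `u_J < 1 - 5/p`.  Let `j` be the first index with
`u_j ≤ 1 - 4/p`; `j ≥ 1`, and `u_j ≥ u_{j-1} - 1/(4p) > 1 - 5/p`.  So the sample is in `Bad` at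
`β_j`: contradiction.
-/

open Matrix MeasureTheory
namespace Pool.Agent.OGP

private lemma moments_fin {X : Type*} (s : Finset X) (F : X → CF) (ε : X → ℝ)
    (hε : ∀ x, 0 < ε x) : ∃ (Γ : Finset (FreeGroup (Fin 2))) (δ : ℝ),
    0 < δ ∧ (∀ g ∈ Γ, g ≠ 1) ∧ ∀ (ι : Type) [Fintype ι] [DecidableEq ι] [Nonempty ι] (U V : UG ι),
      (∀ g ∈ Γ, ‖utr (evF U V g)‖ ≤ δ) → ∀ x ∈ s,
        ‖ntr (evM U V (F x)) - (F x).coeff 1‖ ≤ ε x ∧
          |n2 (evM U V (F x)) ^ 2 - msq (F x)| ≤ ε x := by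
  classical
  induction s using Finset.induction_on with
  | empty => exact ⟨∅, 1, one_pos, by simp, fun ι _ _ _ U V _ x hx => by simp at hx⟩
  | insert a s ha ih =>
    obtain ⟨Γ, δ, hδ, hΓ, h⟩ := ih
    obtain ⟨Γ', δ', hδ', hΓ', h'⟩ := moments_close (F a) (hε a)
    refine ⟨Γ ∪ Γ', min δ δ', lt_min hδ hδ', ?_, ?_⟩
    · intro g hg
      rcases Finset.mem_union.1 hg with h1 | h1
      · exact hΓ g h1
      · exact hΓ' g h1
    · intro ι _ _ _ U V hUV x hx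
      rcases Finset.mem_insert.1 hx with h1 | h1
      · subst h1
        exact h' ι U V fun g hg => (hUV g (Finset.mem_union_right _ hg)).trans (min_le_right _ _)
      · exact h ι U V (fun g hg => (hUV g (Finset.mem_union_left _ hg)).trans (min_le_left _ _))
          x h1

private lemma walk {u : ℕ → ℝ} {J p : ℕ} (hp : 1 ≤ p) (h0 : u 0 = 1)
    (hstep : ∀ j < J, |u (j + 1) - u j| ≤ 1 / (4 * (p : ℝ))) (hJ : u J < 1 - 5 / (p : ℝ)) :
    ∃ j ≤ J, 1 - 5 / (p : ℝ) ≤ u j ∧ u j ≤ 1 - 4 / (p : ℝ) := by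
  classical
  have hp0 : (0 : ℝ) < p := by exact_mod_cast hp
  have h54 : 4 / (p : ℝ) ≤ 5 / (p : ℝ) := div_le_div_of_nonneg_right (by norm_num) hp0.le
  have h4 : 0 < 4 / (p : ℝ) := by positivity
  have hJ' : u J ≤ 1 - 4 / (p : ℝ) := by linarith
  have hex : ∃ j, u j ≤ 1 - 4 / (p : ℝ) := ⟨J, hJ'⟩
  have hj : u (Nat.find hex) ≤ 1 - 4 / (p : ℝ) := Nat.find_spec hex
  have hjJ : Nat.find hex ≤ J := Nat.find_min' hex hJ'
  have hj0 : Nat.find hex ≠ 0 := by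
    intro h
    rw [h, h0] at hj
    linarith
  obtain ⟨i, hi⟩ := Nat.exists_eq_succ_of_ne_zero hj0
  have hlt : ¬ (u i ≤ 1 - 4 / (p : ℝ)) := Nat.find_min hex (by omega)
  have hst := hstep i (by omega)
  rw [show i + 1 = Nat.find hex from hi.symm] at hst
  refine ⟨Nat.find hex, hjJ, ?_, hj⟩
  have h1 := (abs_le.1 hst).1
  have h2 : 1 / (4 * (p : ℝ)) ≤ 1 / (p : ℝ) :=
    one_div_le_one_div_of_le hp0 (by linarith)
  have h3 : 5 / (p : ℝ) = 4 / (p : ℝ) + 1 / (p : ℝ) := by rw [← add_div]; norm_num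
  linarith

private lemma sq_close {x m e c : ℝ} (hx : 0 ≤ x) (hc : 0 ≤ c) (h : |x ^ 2 - m| ≤ e)
    (h2 : m + e ≤ c ^ 2) : x ≤ c := by
  have h1 := (abs_le.1 h).2
  exact (sq_le_sq₀ hx hc).1 (by linarith)

private lemma local_block {p k N : ℕ} (hk : 1 ≤ k) (hN : 1 ≤ N) {q : Fin k → (ℤ →₀ ℂ)}
    {δ ε R E : ℝ} (hδ : 0 < δ) (hε0 : 0 < ε) (hR : 1 ≤ R)
    (hε : ∀ i, 2 * ε * (4 * (1 + (q i).sum fun _ z => ‖z‖)) ≤ δ) (f : CF)
    (hf1 : ∀ j ≤ p, msq ((gb * f) ^ j) ≤ R ^ (2 * j)) (hf2 : msq (mst f * f - 1) ≤ ε ^ 2)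
    (hf3 : ∀ i, msq (f * lau (q i) - lau (q i) * f) ≤ (4 * δ) ^ 2)
    (hf4 : E - ε ≤ (((gb * f) ^ p).coeff 1).re)
    (U V O : UG (JJ k N 0))
    (hU : ∀ i, n2 (lauM (q i) U - (O : Matrix (JJ k N 0) (JJ k N 0) ℂ) * pblk i *
      ((O⁻¹ : UG (JJ k N 0)) : Matrix (JJ k N 0) (JJ k N 0) ℂ)) ≤ δ)
    (m1 : |n2 (evM U V (mst f * f - 1)) ^ 2 - msq (mst f * f - 1)| ≤ 3 * ε ^ 2)
    (m2 : ∀ i, |n2 (evM U V (f * lau (q i) - lau (q i) * f)) ^ 2 -
      msq (f * lau (q i) - lau (q i) * f)| ≤ 9 * δ ^ 2)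
    (m3 : ∀ j ≤ p, |n2 (evM U V ((gb * f) ^ j)) ^ 2 - msq ((gb * f) ^ j)| ≤ 3)
    (m4 : ‖ntr (evM U V ((gb * f) ^ p)) - ((gb * f) ^ p).coeff 1‖ ≤ ε) :
    ∃ W₀ : KG k N,
      n2 (((O⁻¹ : UG (JJ k N 0)) : Matrix (JJ k N 0) (JJ k N 0) ℂ) * evM U V f *
        (O : Matrix (JJ k N 0) (JJ k N 0) ℂ) - (emb k N 0 W₀ : Matrix (JJ k N 0) (JJ k N 0) ℂ)) ≤
          23 * Real.sqrt k * δ ∧
      E - 2 * ε - 23 * Real.sqrt k * δ * (p * (2 * R ^ p)) ≤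
        (Tp p (O⁻¹ * V * O) (emb k N 0 W₀)).re := by
  have hpow : ∀ j, evM U V ((gb * f) ^ j) =
      ((V : Matrix (JJ k N 0) (JJ k N 0) ℂ) * evM U V f) ^ j := by
    intro j
    rw [map_pow, map_mul, evM_gb]
  obtain ⟨W₀, h1, h2⟩ := near_block (p := p) (k := k) (N := N) hk hN (q := q) (δ := δ)
    (ε := 2 * ε) (B := 2 * R ^ p) hδ (by positivity) hε U V O (evM U V f)
    (by
      have e : (evM U V f)ᴴ * evM U V f - 1 = evM U V (mst f * f - 1) := by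
        rw [map_sub, map_mul, evM_mst, map_one]
      rw [e]
      refine sq_close (n2_nonneg _) (by positivity) m1 ?_
      nlinarith)
    (fun i => by
      have e : evM U V f * lauM (q i) U - lauM (q i) U * evM U V f =
          evM U V (f * lau (q i) - lau (q i) * f) := by
        rw [map_sub, map_mul, map_mul, evM_lau]
      rw [e]
      refine sq_close (n2_nonneg _) (by positivity) (m2 i) ?_
      have := hf3 i
      nlinarith)
    hU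
    (fun j hj => by
      rw [← hpow]
      have hRj : 1 ≤ R ^ j := one_le_pow₀ hR
      have h3 : n2 (evM U V ((gb * f) ^ j)) ≤ 2 * R ^ j := by
        refine sq_close (n2_nonneg _) (by positivity) (m3 j hj.le) ?_
        have h4 := hf1 j hj.le
        have h5 : R ^ (2 * j) = (R ^ j) ^ 2 := by rw [mul_comm, pow_mul]
        rw [h5] at h4
        nlinarith
      refine h3.trans ?_
      have h4 : R ^ j ≤ R ^ p := pow_le_pow_right₀ hR hj.le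
      linarith)
  refine ⟨W₀, h1, ?_⟩
  rw [← hpow] at h2
  have h3 := (Complex.abs_re_le_norm _).trans m4
  have h4 := (Complex.abs_re_le_norm _).trans h2
  rw [Complex.sub_re] at h3 h4
  have h5 := (abs_le.1 h3).1
  have h6 := (abs_le.1 h4).2
  linarith

theorem no_poly : ∃ p₀ : ℕ, ∀ p : ℕ, p₀ ≤ p → ∃ k₀ : ℕ, ∀ k : ℕ, k₀ ≤ k → ∀ R : ℝ, 1 ≤ R →
    ∃ δ : ℝ, 0 < δ ∧ ∀ q : Fin k → (ℤ →₀ ℂ), EquiP k q δ → ∃ ε : ℝ, 0 < ε ∧
      ¬ ∃ f : CF, (∀ j ≤ p, msq ((gb * f) ^ j) ≤ R ^ (2 * j)) ∧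
        msq (mst f * f - 1) ≤ ε ^ 2 ∧
        (∀ i, msq (f * lau (q i) - lau (q i) * f) ≤ (4 * δ) ^ 2) ∧
        Real.sqrt (39 / 100 * (p * Real.log p / k)) - ε ≤ (((gb * f) ^ p).coeff 1).re := by
  obtain ⟨p₁, hp₁⟩ := fmain
  refine ⟨max p₁ 10, fun p hp => ?_⟩
  obtain ⟨k₁, hk₁⟩ := hp₁ p ((le_max_left _ _).trans hp)
  have hp10 : 10 ≤ p := (le_max_right _ _).trans hp
  refine ⟨max k₁ 1, fun k hk R hR => ?_⟩
  have hmain := hk₁ k ((le_max_left _ _).trans hk)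
  have hk1 : 1 ≤ k := (le_max_right _ _).trans hk
  have hk0 : (0 : ℝ) < k := by exact_mod_cast hk1
  have hp0 : (0 : ℝ) < p := by
    have : (10 : ℝ) ≤ p := by exact_mod_cast hp10
    linarith
  have hlog : 0 < Real.log p := Real.log_pos (by
    have : (10 : ℝ) ≤ p := by exact_mod_cast hp10
    linarith)
  set E₁ : ℝ := Real.sqrt (39 / 100 * (p * Real.log p / k)) with hE₁
  set EF : ℝ := Real.sqrt (38 / 100 * (p * Real.log p / k)) with hEF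
  have hx : 0 < p * Real.log p / k := by positivity
  have hΔ : 0 < E₁ - EF := by
    rw [sub_pos]
    refine Real.sqrt_lt_sqrt (by positivity) ?_
    linarith
  set Δ := E₁ - EF with hΔ'
  set s : ℝ := Real.sqrt k with hs
  have hs0 : 0 < s := Real.sqrt_pos.2 hk0
  set B : ℝ := 2 * R ^ p with hB
  have hB0 : 0 < B := by positivity
  have hδ₁ : 0 < Δ / (92 * s * (p * B)) := by positivity
  have hδ₂ : 0 < 1 / (368 * s * p) := by positivity
  set δ : ℝ := min (Δ / (92 * s * (p * B))) (1 / (368 * s * p)) with hδdef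
  have hδ : 0 < δ := lt_min hδ₁ hδ₂
  have hδΔ : 23 * s * δ * (p * B) ≤ Δ / 4 := by
    have h1 : δ ≤ Δ / (92 * s * (p * B)) := min_le_left _ _
    calc 23 * s * δ * (p * B) = δ * (23 * s * (p * B)) := by ring
      _ ≤ Δ / (92 * s * (p * B)) * (23 * s * (p * B)) :=
          mul_le_mul_of_nonneg_right h1 (by positivity)
      _ = Δ / 4 := by field_simp; norm_num
  have hδp : 46 * s * δ ≤ 1 / (8 * p) := by
    have h1 : δ ≤ 1 / (368 * s * p) := min_le_right _ _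
    calc 46 * s * δ = δ * (46 * s) := by ring
      _ ≤ 1 / (368 * s * p) * (46 * s) := mul_le_mul_of_nonneg_right h1 (by positivity)
      _ = 1 / (8 * p) := by field_simp; norm_num
  refine ⟨δ, hδ, fun q hq => ?_⟩
  obtain ⟨ε', D, n₀, hε', hEqui⟩ := hq
  set Q : ℝ := ∑ i, (q i).sum fun _ z => ‖z‖ with hQ
  have hqi0 : ∀ i, 0 ≤ (q i).sum fun _ z => ‖z‖ := fun i =>
    Finset.sum_nonneg fun _ _ => norm_nonneg _
  have hQi : ∀ i, ((q i).sum fun _ z => ‖z‖) ≤ Q := fun i =>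
    Finset.single_le_sum (f := fun i => (q i).sum fun _ z => ‖z‖)
      (fun i _ => hqi0 i) (Finset.mem_univ i)
  have hQ0 : 0 ≤ Q := Finset.sum_nonneg fun i _ => hqi0 i
  set ε : ℝ := min (Δ / 8) (δ / (8 * (1 + Q))) with hεdef
  have hε0 : 0 < ε := lt_min (by positivity) (by positivity)
  have hε1 : 2 * ε ≤ Δ / 4 := by
    have : ε ≤ Δ / 8 := min_le_left _ _
    linarith
  have hε2 : ∀ i, 2 * ε * (4 * (1 + (q i).sum fun _ z => ‖z‖)) ≤ δ := by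
    intro i
    have h1 : ε ≤ δ / (8 * (1 + Q)) := min_le_right _ _
    calc 2 * ε * (4 * (1 + (q i).sum fun _ z => ‖z‖)) ≤ 2 * ε * (4 * (1 + Q)) := by
          refine mul_le_mul_of_nonneg_left ?_ (by positivity)
          have := hQi i
          linarith
      _ = ε * (8 * (1 + Q)) := by ring
      _ ≤ δ / (8 * (1 + Q)) * (8 * (1 + Q)) := mul_le_mul_of_nonneg_right h1 (by positivity)
      _ = δ := by field_simp
  refine ⟨ε, hε0, ?_⟩
  rintro ⟨f, hf1, hf2, hf3, hf4⟩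
  obtain ⟨L, hL0, hL⟩ := evM_lip f
  -- the grid
  obtain ⟨J, hJ⟩ := exists_nat_gt (8 * p * (L * (Real.pi / 2)))
  have hJ0 : 0 < (J : ℝ) := lt_of_le_of_lt (by positivity) hJ
  have hJ1 : L * (Real.pi / 2 / J) ≤ 1 / (8 * p) := by
    rw [← mul_div_assoc, div_le_div_iff₀ hJ0 (by positivity)]
    linarith
  set β : ℕ → ℝ := fun j => Real.pi / 2 * j / J with hβ
  have hβ0 : β 0 = 0 := by simp [hβ]
  have hβJ : β J = Real.pi / 2 := by
    rw [hβ]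
    field_simp
  have hβs : ∀ j, |β (j + 1) - β j| = Real.pi / 2 / J := by
    intro j
    have : β (j + 1) - β j = Real.pi / 2 / J := by
      rw [hβ]
      push_cast
      ring
    rw [this, abs_of_nonneg (by positivity)]
  -- the moments
  obtain ⟨Γ₁, d₁, hd₁, hΓ₁, hm₁⟩ := moments_close (mst f * f - 1) (ε := 3 * ε ^ 2) (by positivity)
  obtain ⟨Γ₂, d₂, hd₂, hΓ₂, hm₂⟩ := moments_fin (Finset.univ : Finset (Fin k))
    (fun i => f * lau (q i) - lau (q i) * f) (fun _ => 9 * δ ^ 2) (fun _ => by positivity)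
  obtain ⟨Γ₃, d₃, hd₃, hΓ₃, hm₃⟩ := moments_fin (Finset.range (p + 1))
    (fun j => (gb * f) ^ j) (fun _ => 3) (fun _ => by norm_num)
  obtain ⟨Γ₄, d₄, hd₄, hΓ₄, hm₄⟩ := moments_close ((gb * f) ^ p) hε0
  classical
  set Γ₅ : Finset (FreeGroup (Fin 2)) :=
    (Finset.Icc 1 D).image fun m => (FreeGroup.of (0 : Fin 2)) ^ m with hΓ₅def
  have hΓ₅ : ∀ g ∈ Γ₅, g ≠ 1 := by
    intro g hg
    obtain ⟨m, hm, rfl⟩ := Finset.mem_image.1 hg
    intro h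
    have h2 : (FreeGroup.of (0 : Fin 2)) = 1 := by
      have h3 : (FreeGroup.of (0 : Fin 2)) ^ m = 1 ^ m := by rw [h, one_pow]
      exact pow_left_injective (by have := (Finset.mem_Icc.1 hm).1; omega : m ≠ 0) h3
    exact FreeGroup.of_ne_one _ h2
  set Γ : Finset (FreeGroup (Fin 2)) := ((Γ₁ ∪ Γ₂) ∪ (Γ₃ ∪ Γ₄)) ∪ Γ₅ with hΓdef
  have hΓ : ∀ g ∈ Γ, g ≠ 1 := by
    intro g hg
    simp only [hΓdef, Finset.mem_union] at hg
    rcases hg with ((h | h) | (h | h)) | h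
    · exact hΓ₁ g h
    · exact hΓ₂ g h
    · exact hΓ₃ g h
    · exact hΓ₄ g h
    · exact hΓ₅ g h
  set d : ℝ := min (min (min d₁ d₂) (min d₃ d₄)) ε' with hddef
  have hd : 0 < d := lt_min (lt_min (lt_min hd₁ hd₂) (lt_min hd₃ hd₄)) hε'
  -- the sample
  obtain ⟨N₀, hN₀⟩ := exists_sample hk1 (fun N S β => {z | ∃ W W' : KG k N,
      EF ≤ (Tp p z.1 (emb k N 0 W)).re ∧ EF ≤ (Tp p (Crot β S z.2 * z.1) (emb k N 0 W')).re ∧
        1 - 5 / (p : ℝ) ≤ ‖qK (W⁻¹ * W')‖ ∧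
        (‖qK (W⁻¹ * W')‖ ≤ 1 - 4 / (p : ℝ) ∨ Real.cos β = 0)})
    (fun N hN S hS β => hmain N hN S hS β) Γ hΓ ((Finset.range (J + 1)).image β) hd
  set N : ℕ := 2 * (N₀ + n₀ + 1) with hN
  obtain ⟨S, U, V, R', O, θ, hS, hθ, hθ2, hUO, hmom, hbad⟩ := hN₀ N (by omega)
    ⟨N₀ + n₀ + 1, by omega⟩
  have hN1 : 1 ≤ N := by omega
  have hne : Nonempty (JJ k N 0) := ⟨Sum.inl (⟨0, by omega⟩, ⟨0, by omega⟩)⟩
  set C : ℕ → UG (JJ k N 0) := fun j => Crot (β j) S R' * V with hC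
  have hmemβ : ∀ j, j ≤ J → β j ∈ (Finset.range (J + 1)).image β := fun j hj =>
    Finset.mem_image_of_mem β (Finset.mem_range.2 (by omega))
  have hmomj : ∀ j, j ≤ J → ∀ g ∈ Γ, ‖utr (evF U (C j) g)‖ ≤ d := fun j hj g hg =>
    hmom (β j) (hmemβ j hj) g hg
  have hU : ∀ i, n2 (lauM (q i) U - (O : Matrix (JJ k N 0) (JJ k N 0) ℂ) * pblk i *
      ((O⁻¹ : UG (JJ k N 0)) : Matrix (JJ k N 0) (JJ k N 0) ℂ)) ≤ δ := by
    have h1 := hEqui N 0 (by omega) (by omega) O θ hθ hθ2 (by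
      intro m hm1 hm2
      rw [← hUO]
      have h2 := hmomj 0 (by omega) ((FreeGroup.of (0 : Fin 2)) ^ m)
        (Finset.mem_union_right _ (Finset.mem_image_of_mem _ (Finset.mem_Icc.2 ⟨hm1, hm2⟩)))
      rw [map_pow, evF_of_zero] at h2
      exact h2.trans (min_le_right _ _))
    rw [← hUO] at h1
    exact h1
  have hW : ∀ j, j ≤ J → ∃ W₀ : KG k N,
      n2 (((O⁻¹ : UG (JJ k N 0)) : Matrix (JJ k N 0) (JJ k N 0) ℂ) * evM U (C j) f *
        (O : Matrix (JJ k N 0) (JJ k N 0) ℂ) - (emb k N 0 W₀ : Matrix (JJ k N 0) (JJ k N 0) ℂ)) ≤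
          23 * s * δ ∧
      EF ≤ (Tp p (O⁻¹ * C j * O) (emb k N 0 W₀)).re := by
    intro j hj
    have hg := hmomj j hj
    have g1 : ∀ g ∈ Γ₁, ‖utr (evF U (C j) g)‖ ≤ d₁ := fun g h =>
      (hg g (Finset.mem_union_left _ (Finset.mem_union_left _ (Finset.mem_union_left _ h)))).trans
        ((min_le_left _ _).trans ((min_le_left _ _).trans (min_le_left _ _)))
    have g2 : ∀ g ∈ Γ₂, ‖utr (evF U (C j) g)‖ ≤ d₂ := fun g h =>
      (hg g (Finset.mem_union_left _ (Finset.mem_union_left _ (Finset.mem_union_right _ h)))).trans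
        ((min_le_left _ _).trans ((min_le_left _ _).trans (min_le_right _ _)))
    have g3 : ∀ g ∈ Γ₃, ‖utr (evF U (C j) g)‖ ≤ d₃ := fun g h =>
      (hg g (Finset.mem_union_left _ (Finset.mem_union_right _ (Finset.mem_union_left _ h)))).trans
        ((min_le_left _ _).trans ((min_le_right _ _).trans (min_le_left _ _)))
    have g4 : ∀ g ∈ Γ₄, ‖utr (evF U (C j) g)‖ ≤ d₄ := fun g h =>
      (hg g (Finset.mem_union_left _ (Finset.mem_union_right _ (Finset.mem_union_right _ h)))).trans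
        ((min_le_left _ _).trans ((min_le_right _ _).trans (min_le_right _ _)))
    obtain ⟨W₀, h1, h2⟩ := local_block (p := p) hk1 hN1 hδ hε0 hR hε2 f hf1 hf2 hf3 hf4 U (C j) O hU
      (hm₁ _ U (C j) g1).2 (fun i => (hm₂ _ U (C j) g2 i (Finset.mem_univ i)).2)
      (fun i hi => (hm₃ _ U (C j) g3 i (Finset.mem_range.2 (by omega))).2)
      (hm₄ _ U (C j) g4).1
    refine ⟨W₀, h1, le_trans ?_ h2⟩
    change EF ≤ E₁ - 2 * ε - 23 * s * δ * (p * B)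
    linarith
  choose! W hW1 hW2 using hW
  have hC0 : C 0 = V := by
    rw [hC]
    simp only [hβ0, crot_zero, one_mul]
  have hCj : ∀ j, O⁻¹ * C j * O = Crot (β j) S (O⁻¹ * R') * (O⁻¹ * V * O) := by
    intro j
    rw [← crot_conj, hC]
    group
  have hnb : ∀ j, j ≤ J → 1 - 5 / (p : ℝ) ≤ ‖qK ((W 0)⁻¹ * W j)‖ →
      ¬ (‖qK ((W 0)⁻¹ * W j)‖ ≤ 1 - 4 / (p : ℝ) ∨ Real.cos (β j) = 0) := by
    intro j hj h1 h2
    refine hbad (β j) (hmemβ j hj) ⟨W 0, W j, ?_, ?_, h1, h2⟩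
    · have h3 := hW2 0 (by omega)
      rw [hC0] at h3
      exact h3
    · have h3 := hW2 j hj
      rw [hCj] at h3
      exact h3
  obtain ⟨j, hjJ, hj1, hj2⟩ := walk (u := fun j => ‖qK ((W 0)⁻¹ * W j)‖) (J := J) (p := p)
    (by omega) (by
      simp only [inv_mul_cancel, qK_one hk1 hN1, norm_one]) (by
      intro j hj
      have h1 : |‖qK ((W 0)⁻¹ * W (j + 1))‖ - ‖qK ((W 0)⁻¹ * W j)‖| ≤ dK (W (j + 1)) (W j) := by
        refine (abs_norm_sub_norm_le _ _).trans ((norm_qK_sub_le _ _).trans ?_)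
        rw [dK_mul_left]
      refine h1.trans ?_
      rw [← d2_emb_zero hk1 hN1]
      unfold d2
      set X₁ := ((O⁻¹ : UG (JJ k N 0)) : Matrix (JJ k N 0) (JJ k N 0) ℂ) * evM U (C (j + 1)) f *
        (O : Matrix (JJ k N 0) (JJ k N 0) ℂ) with hX₁
      set X₀ := ((O⁻¹ : UG (JJ k N 0)) : Matrix (JJ k N 0) (JJ k N 0) ℂ) * evM U (C j) f *
        (O : Matrix (JJ k N 0) (JJ k N 0) ℂ) with hX₀
      have h2 : n2 (X₁ - X₀) ≤ L * (Real.pi / 2 / J) := by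
        have h3 : X₁ - X₀ = ((O⁻¹ : UG (JJ k N 0)) : Matrix (JJ k N 0) (JJ k N 0) ℂ) *
            (evM U (C (j + 1)) f - evM U (C j) f) * (O : Matrix (JJ k N 0) (JJ k N 0) ℂ) := by
          rw [hX₁, hX₀, Matrix.mul_sub, Matrix.sub_mul]
        rw [h3, n2_mul_unitary, n2_unitary_mul]
        refine (hL _ U (C (j + 1)) (C j)).trans (mul_le_mul_of_nonneg_left ?_ hL0)
        rw [hC]
        simp only [d2_mul_right]
        exact (crot_lip hS _ _ R').trans (le_of_eq (hβs j))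
      have h3 := hW1 (j + 1) (by omega)
      have h4 := hW1 j (by omega)
      have h5 := n2_sub_le ((emb k N 0 (W (j + 1)) : UG (JJ k N 0)) : Matrix (JJ k N 0) (JJ k N 0) ℂ)
        X₁ ((emb k N 0 (W j) : UG (JJ k N 0)) : Matrix (JJ k N 0) (JJ k N 0) ℂ)
      have h6 := n2_sub_le X₁ X₀
        ((emb k N 0 (W j) : UG (JJ k N 0)) : Matrix (JJ k N 0) (JJ k N 0) ℂ)
      rw [n2_sub_comm _ X₁] at h5
      have h7 : 1 / (4 * (p : ℝ)) = 1 / (8 * p) + 1 / (8 * p) := by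
        field_simp
        norm_num
      rw [h7]
      linarith) (by
      by_contra hcon
      rw [not_lt] at hcon
      refine hnb J le_rfl hcon (Or.inr ?_)
      rw [hβJ, Real.cos_pi_div_two])
  exact hnb j hjJ hj1 (Or.inl hj2)

end Pool.Agent.OGP
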