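import Pool.Agent.OGP.Sep
import Pool.Agent.OGP.Log
import Pool.Agent.OGP.Kfacts

/-!
# OGP NETX: a net of the block diagonal unitaries in operator norm

Let `E` be the real vector space of families `H : Fin k → (Hermitian N × N matrices)` with the norm
`max_i opn (H i)`; its dimension is `k N²` (only `finrank ≤ k N²` is needed: `(a, b) ↦ a + i b` is
injective from pairs of Hermitian matrices to all matrices, of real dimension `2 N²`).

Let `δ' = 2 δ / π` and let `s` be a `δ'`-net of the ball of radius `π` of `E` (`exists_net`), of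
cardinality `≤ (1 + π²/δ)^{k N²} ≤ (11/δ)^{k N²}` (`δ ≤ 1`).  Put `𝒩 = {eU ∘ H : H ∈ s}`.  Given
`W : KG k N`, `W i = eU (H i)`, `opn (H i) ≤ π` (`unitary_log_global`); take `H' ∈ s` with
`opn (H i - H' i) ≤ δ'` and `x i = eU (H' i)`.  By `opn_eU_sub`, `opn (W i - x i) ≤ δ'`, so
`opn ((x i)⁻¹ * W i - 1) ≤ δ'` and by `unitary_log_op`, `(x i)⁻¹ * W i = eU (Y i)` with
`opn (Y i) ≤ (π/2) δ' = δ`.
-/

open Matrix Module
namespace Pool.Agent.OGP

open scoped Matrix.Norms.L2Operator

private lemma finrank_sa (N : ℕ) :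
    finrank ℝ (selfAdjoint.submodule ℝ (Matrix (Fin N) (Fin N) ℂ)) ≤ N ^ 2 := by
  set S := selfAdjoint.submodule ℝ (Matrix (Fin N) (Fin N) ℂ) with hS
  have hfd : FiniteDimensional ℝ (Matrix (Fin N) (Fin N) ℂ) := by
    have : FiniteDimensional ℝ (Fin N → Fin N → ℂ) := inferInstance
    exact this
  let f : S × S →ₗ[ℝ] Matrix (Fin N) (Fin N) ℂ :=
    { toFun := fun p => (p.1 : Matrix (Fin N) (Fin N) ℂ) + Complex.I • (p.2 : Matrix (Fin N) (Fin N) ℂ)
      map_add' := by
        intro p q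
        simp only [Prod.fst_add, Prod.snd_add, Submodule.coe_add, smul_add]
        abel
      map_smul' := by
        intro c p
        simp only [Prod.smul_fst, Prod.smul_snd, Submodule.coe_smul, smul_add, RingHom.id_apply]
        rw [smul_comm c Complex.I] }
  have hf : Function.Injective f := by
    rw [injective_iff_map_eq_zero]
    intro p hp
    have h1 : (p.1 : Matrix (Fin N) (Fin N) ℂ) + Complex.I • (p.2 : Matrix (Fin N) (Fin N) ℂ) = 0 := hp
    have ha : star (p.1 : Matrix (Fin N) (Fin N) ℂ) = p.1 := p.1.2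
    have hb : star (p.2 : Matrix (Fin N) (Fin N) ℂ) = p.2 := p.2.2
    have h2 : (p.1 : Matrix (Fin N) (Fin N) ℂ) - Complex.I • (p.2 : Matrix (Fin N) (Fin N) ℂ) = 0 := by
      have h3 := congrArg star h1
      rw [star_add, star_smul, ha, hb, star_zero] at h3
      have h4 : star Complex.I = -Complex.I := Complex.conj_I
      rw [h4, neg_smul, ← sub_eq_add_neg] at h3
      exact h3
    have h5 : (2 : ℂ) • (p.1 : Matrix (Fin N) (Fin N) ℂ) = 0 := by
      have : (2 : ℂ) • (p.1 : Matrix (Fin N) (Fin N) ℂ) =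
          ((p.1 : Matrix (Fin N) (Fin N) ℂ) + Complex.I • (p.2 : Matrix (Fin N) (Fin N) ℂ)) +
          ((p.1 : Matrix (Fin N) (Fin N) ℂ) - Complex.I • (p.2 : Matrix (Fin N) (Fin N) ℂ)) := by
        rw [two_smul]; abel
      rw [this, h1, h2, add_zero]
    have h6 : (p.1 : Matrix (Fin N) (Fin N) ℂ) = 0 := by
      rcases smul_eq_zero.1 h5 with h | h
      · norm_num at h
      · exact h
    have h7 : (p.2 : Matrix (Fin N) (Fin N) ℂ) = 0 := by
      rw [h6, zero_add] at h1
      rcases smul_eq_zero.1 h1 with h | h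
      · exact absurd h Complex.I_ne_zero
      · exact h
    exact Prod.ext (Subtype.ext h6) (Subtype.ext h7)
  have h8 := LinearMap.finrank_le_finrank_of_injective hf
  rw [Module.finrank_prod] at h8
  have h9 : finrank ℝ (Matrix (Fin N) (Fin N) ℂ) = 2 * N ^ 2 := by
    rw [Module.finrank_matrix]
    simp [Complex.finrank_real_complex]
    ring
  omega

theorem exists_opnet {k N : ℕ} (hk : 1 ≤ k) (hN : 1 ≤ N) {δ : ℝ} (hδ : 0 < δ) (hδ1 : δ ≤ 1) :
    ∃ s : Finset (KG k N), (s.card : ℝ) ≤ (11 / δ) ^ (k * N ^ 2) ∧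
      ∀ W : KG k N, ∃ x ∈ s, ∃ Y : Fin k → Matrix (Fin N) (Fin N) ℂ,
        (∀ i, (Y i).IsHermitian) ∧ (∀ i, opn (Y i) ≤ δ) ∧ (∀ i, W i = x i * eU (Y i)) := by
  classical
  set S := selfAdjoint.submodule ℝ (Matrix (Fin N) (Fin N) ℂ) with hS
  have hfd : FiniteDimensional ℝ (Matrix (Fin N) (Fin N) ℂ) := by
    have : FiniteDimensional ℝ (Fin N → Fin N → ℂ) := inferInstance
    exact this
  have hpi := Real.pi_pos
  have hδ' : 0 < 2 * δ / Real.pi := by positivity
  obtain ⟨s, hs1, hs2, hs3⟩ := exists_net (E := Fin k → S) hpi.le hδ'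
  refine ⟨s.image fun H i => eU ((H i : S) : Matrix (Fin N) (Fin N) ℂ), ?_, ?_⟩
  · have h1 : finrank ℝ (Fin k → S) ≤ k * N ^ 2 := by
      rw [Module.finrank_pi_fintype]
      simp only [Finset.sum_const, Finset.card_univ, Fintype.card_fin, smul_eq_mul]
      exact Nat.mul_le_mul_left _ (finrank_sa N)
    have h2 : 1 + 2 * Real.pi / (2 * δ / Real.pi) ≤ 11 / δ := by
      have : 2 * Real.pi / (2 * δ / Real.pi) = Real.pi ^ 2 / δ := by
        field_simp
      rw [this]
      have h3 : Real.pi ^ 2 ≤ 10 := by nlinarith [Real.pi_lt_d2, Real.pi_pos]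
      rw [show (1 : ℝ) = δ / δ from (div_self hδ.ne').symm, ← add_div]
      gcongr
      linarith
    have h3 : (1 : ℝ) ≤ 1 + 2 * Real.pi / (2 * δ / Real.pi) := by
      have : 0 ≤ 2 * Real.pi / (2 * δ / Real.pi) := by positivity
      linarith
    calc (((s.image _).card : ℕ) : ℝ) ≤ (s.card : ℝ) := by exact_mod_cast Finset.card_image_le
      _ ≤ _ := hs3
      _ ≤ (1 + 2 * Real.pi / (2 * δ / Real.pi)) ^ (k * N ^ 2) := pow_le_pow_right₀ h3 h1
      _ ≤ _ := pow_le_pow_left₀ (by linarith) h2 _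
  · intro W
    have hW := fun i => unitary_log_global (W i)
    choose H hH1 hH2 hH3 using hW
    let H0 : Fin k → S := fun i => ⟨H i, (hH1 i : (H i)ᴴ = H i)⟩
    have hn : ‖H0‖ ≤ Real.pi := by
      rw [pi_norm_le_iff_of_nonneg hpi.le]
      intro i
      exact hH3 i
    obtain ⟨G, hG, hG2⟩ := hs2 H0 hn
    have hGh : ∀ i, ((G i : S) : Matrix (Fin N) (Fin N) ℂ).IsHermitian := fun i => (G i).2
    have hd : ∀ i, opn (H i - (G i : Matrix (Fin N) (Fin N) ℂ)) ≤ 2 * δ / Real.pi := by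
      intro i
      have := (norm_le_pi_norm (H0 - G) i).trans hG2.le
      exact this
    have hlog := fun i => unitary_log_op ((eU ((G i : S) : Matrix (Fin N) (Fin N) ℂ))⁻¹ * W i)
    choose Y hY1 hY2 hY3 using hlog
    refine ⟨_, Finset.mem_image_of_mem _ hG, Y, hY1, ?_, ?_⟩
    · intro i
      refine (hY3 i).trans ?_
      have e1 : (((eU ((G i : S) : Matrix (Fin N) (Fin N) ℂ))⁻¹ * W i : UG (Fin N)) :
          Matrix (Fin N) (Fin N) ℂ) - 1 =
          (((eU ((G i : S) : Matrix (Fin N) (Fin N) ℂ))⁻¹ : UG (Fin N)) : Matrix (Fin N) (Fin N) ℂ) *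
            ((W i : Matrix (Fin N) (Fin N) ℂ) -
              ((eU ((G i : S) : Matrix (Fin N) (Fin N) ℂ) : UG (Fin N)) : Matrix (Fin N) (Fin N) ℂ)) := by
        rw [UG_coe_mul, mul_sub, ← UG_coe_mul _ (eU _), inv_mul_cancel, UG_coe_one]
      rw [e1, opn_unitary_mul]
      have h4 : opn ((W i : Matrix (Fin N) (Fin N) ℂ) -
          ((eU ((G i : S) : Matrix (Fin N) (Fin N) ℂ) : UG (Fin N)) : Matrix (Fin N) (Fin N) ℂ)) ≤
            2 * δ / Real.pi := by
        rw [hH2 i]
        exact (opn_eU_sub (hH1 i) (hGh i)).trans (hd i)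
      calc _ ≤ Real.pi / 2 * (2 * δ / Real.pi) := by gcongr
        _ = δ := by field_simp
    · intro i
      rw [← hY2 i]
      simp

end Pool.Agent.OGP
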