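import Pool.Agent.OGP.Tails
import Pool.Agent.OGP.Sup
import Pool.Agent.OGP.Netx
import Pool.Agent.OGP.Bern
import Pool.Agent.OGP.Errs

/-!
# OGP FSUP: upper bound for the supremum over block diagonal unitaries (no leftover, `r = 0`)

`n = N k`, `M = k N²`, so `n² = k M`; `S = ST p k N 0 V`.

`bern_net`: if `W i = x i * eU (Y i)`, `opn (Y i) ≤ δ`, then
`|Tp p V (emb W) - Tp p V (emb x)| ≤ e p δ S`: by `emb_eU`, `emb (x_i eU (t Y_i)) =
emb x * eU (t H)` with `H = blk 0 Y` Hermitian, `opn H ≤ δ` (`opn_blk_le`), each of modulus `≤ S`;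
`bern_T`.

`fsup`.  Let `δ = 1/(2 e p)` and `s` the net of `exists_opnet`, `card s ≤ (22 e p)^M ≤ (60 p)^M`.
Then `S ≤ max_{x ∈ s} |Tp p V (emb x)| + S/2`, so `S ≥ 2t` implies `|Tp p V (emb x)| ≥ t` for some
`x ∈ s` (the supremum is attained).  Let `t = 2 √(p log p / k)`.  By `tail_one` and
`1/n ≤ 1/k ≤ 1/√k`, with `τ = 2 √(p log p)`, `t = τ/√k`:
`n² t² / (2p) = 2 M log p`, `n² C t (t + 1/n)² ≤ M C τ (τ + 1)² / √k ≤ M` for `k ≥ k₀(p)`, so
`P (S ≥ 2t) ≤ 4 (60 p)^M e^{-M (2 log p - 1)} = 4 e^{-M (log p - log 60 - 1)} ≤ e^{-M}` when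
`log p ≥ log 60 + 2 + log 4` (`M ≥ 1`).
-/

open Matrix MeasureTheory
namespace Pool.Agent.OGP

theorem bern_net {p k N : ℕ} (hk : 1 ≤ k) (hN : 1 ≤ N) (V : UG (JJ k N 0)) {W x : KG k N}
    {Y : Fin k → Matrix (Fin N) (Fin N) ℂ} {δ : ℝ} (hδ : 0 ≤ δ) (hY : ∀ i, (Y i).IsHermitian)
    (hYδ : ∀ i, opn (Y i) ≤ δ) (hW : ∀ i, W i = x i * eU (Y i)) :
    ‖Tp p V (emb k N 0 W) - Tp p V (emb k N 0 x)‖ ≤ Real.exp 1 * (p * δ) * ST p k N 0 V := by
  have _ := hk
  have _ := hN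
  obtain ⟨hH, hE⟩ := emb_eU (r := 0) x hY
  have h1 : emb k N 0 W = emb k N 0 x * eU (blk k N 0 0 Y) := by
    have h2 := hE 1
    simp only [Complex.ofReal_one, one_smul] at h2
    rw [← h2]
    congr 1
    funext i
    exact hW i
  rw [h1]
  refine bern_T p V (emb k N 0 x) hH (opn_blk_le hδ hYδ) fun t => ?_
  rw [← hE t]
  exact le_ST V _

theorem fsup : ∃ p₀ : ℕ, ∀ p : ℕ, p₀ ≤ p → ∃ k₀ : ℕ, ∀ k : ℕ, k₀ ≤ k → ∀ N : ℕ, 1 ≤ N →
    (haarU (JJ k N 0)).real {V | 4 * Real.sqrt (p * Real.log p / k) ≤ ST p k N 0 V} ≤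
      Real.exp (-((k : ℝ) * (N : ℝ) ^ 2)) := by
  refine ⟨max 1 ⌈Real.exp (Real.log 60 + 2 + Real.log 4)⌉₊, fun p hp => ?_⟩
  have hp1 : 1 ≤ p := (le_max_left _ _).trans hp
  have hpR : (1 : ℝ) ≤ p := by exact_mod_cast hp1
  have hlog : Real.log 60 + 2 + Real.log 4 ≤ Real.log p := by
    rw [Real.le_log_iff_exp_le (by positivity)]
    exact (Nat.le_ceil _).trans (by exact_mod_cast (le_max_right _ _).trans hp)
  have hlog0 : 0 ≤ Real.log p := Real.log_natCast_nonneg p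
  obtain ⟨C, hC, htail⟩ := tail_one p hp1
  set τ : ℝ := 2 * Real.sqrt (p * Real.log p) with hτ
  have hτ0 : 0 ≤ τ := by positivity
  obtain ⟨k₀, hk₀, herr⟩ := err_small C τ hC hτ0
  refine ⟨k₀, fun k hk N hN => ?_⟩
  have hk1 : 1 ≤ k := hk₀.trans hk
  have hkR : (1 : ℝ) ≤ k := by exact_mod_cast hk1
  have hNR : (1 : ℝ) ≤ N := by exact_mod_cast hN
  have he1 := Real.exp_one_lt_d9
  have he0 : 1 ≤ Real.exp 1 := Real.one_le_exp (by norm_num)
  set δ : ℝ := 1 / (2 * Real.exp 1 * p) with hδ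
  have hδ0 : 0 < δ := by positivity
  have hδ1 : δ ≤ 1 := by
    rw [hδ, div_le_one (by positivity)]
    nlinarith
  have hep : Real.exp 1 * (p * δ) = 1 / 2 := by
    rw [hδ]
    field_simp
  obtain ⟨s, hs, hnet⟩ := exists_opnet (k := k) (N := N) hk1 hN hδ0 hδ1
  have : Nonempty (JJ k N 0) := ⟨Sum.inl (⟨0, hN⟩, ⟨0, hk1⟩)⟩
  have hcard : (Fintype.card (JJ k N 0) : ℝ) = (N : ℝ) * k := by
    rw [card_JJ]
    push_cast
    ring
  set t : ℝ := 2 * Real.sqrt (p * Real.log p / k) with ht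
  have hts : t = τ / Real.sqrt k := by
    rw [ht, hτ, sqrt_div_eq p k hp1]
    ring
  have ht0 : 0 ≤ t := by positivity
  have hsub : {V : UG (JJ k N 0) | 4 * Real.sqrt (p * Real.log p / k) ≤ ST p k N 0 V} ⊆
      ⋃ x ∈ s, {V : UG (JJ k N 0) | t ≤ ‖Tp p V (emb k N 0 x)‖} := by
    intro V hV
    simp only [Set.mem_ofPred_eq] at hV
    obtain ⟨W, hW⟩ := exists_ST (p := p) V
    obtain ⟨x, hx, Y, hY1, hY2, hY3⟩ := hnet W
    have h1 := bern_net (p := p) hk1 hN V hδ0.le hY1 hY2 hY3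
    rw [hep] at h1
    have h2 := norm_sub_norm_le (Tp p V (emb k N 0 W)) (Tp p V (emb k N 0 x))
    simp only [Set.mem_iUnion, Set.mem_ofPred_eq]
    refine ⟨x, hx, ?_⟩
    rw [ht]
    linarith
  set M : ℕ := k * N ^ 2 with hM
  have hMR : (M : ℝ) = (k : ℝ) * (N : ℝ) ^ 2 := by
    rw [hM]
    push_cast
    ring
  have hM1 : (1 : ℝ) ≤ M := by
    rw [hMR]
    nlinarith [sq_nonneg (N : ℝ)]
  have hexp : ∀ x ∈ s, (haarU (JJ k N 0)).real {V | t ≤ ‖Tp p V (emb k N 0 x)‖} ≤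
      4 * Real.exp (-(M * (2 * Real.log p - 1))) := by
    intro x _
    refine (htail (JJ k N 0) (emb k N 0 x) t ht0).trans ?_
    refine mul_le_mul_of_nonneg_left (Real.exp_le_exp.2 (neg_le_neg ?_)) (by norm_num)
    rw [hcard]
    have h1 := herr k hk N hN
    rw [← hts, ← hMR] at h1
    have h2 : ((N : ℝ) * k) ^ 2 * (t ^ 2 / (2 * p)) = M * (2 * Real.log p) := by
      have h3 : t ^ 2 = 4 * (p * Real.log p / k) := by
        rw [ht, mul_pow, Real.sq_sqrt (by positivity)]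
        norm_num
      rw [h3, hMR]
      field_simp
      ring
    rw [mul_sub ((((N : ℝ) * k)) ^ 2), h2]
    linarith
  calc (haarU (JJ k N 0)).real {V | 4 * Real.sqrt (p * Real.log p / k) ≤ ST p k N 0 V}
      ≤ (haarU (JJ k N 0)).real (⋃ x ∈ s, {V : UG (JJ k N 0) | t ≤ ‖Tp p V (emb k N 0 x)‖}) :=
        measureReal_mono hsub (measure_ne_top _ _)
    _ ≤ ∑ x ∈ s, (haarU (JJ k N 0)).real {V : UG (JJ k N 0) | t ≤ ‖Tp p V (emb k N 0 x)‖} :=
        measureReal_biUnion_finset_le _ _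
    _ ≤ ∑ x ∈ s, 4 * Real.exp (-(M * (2 * Real.log p - 1))) := Finset.sum_le_sum hexp
    _ = s.card * (4 * Real.exp (-(M * (2 * Real.log p - 1)))) := by
        rw [Finset.sum_const, nsmul_eq_mul]
    _ ≤ (60 * p : ℝ) ^ M * (4 * Real.exp (-(M * (2 * Real.log p - 1)))) := by
        gcongr
        refine hs.trans ?_
        rw [hM]
        gcongr
        rw [hδ]
        rw [div_div_eq_mul_div, div_one]
        nlinarith
    _ = Real.exp (M * (Real.log 60 + Real.log p)) *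
          (Real.exp (Real.log 4) * Real.exp (-(M * (2 * Real.log p - 1)))) := by
        rw [Real.exp_log (by norm_num : (0:ℝ) < 4), ← Real.log_mul (by norm_num) (by positivity),
          mul_comm (M : ℝ) (Real.log _), Real.exp_mul, Real.exp_log (by positivity),
          Real.rpow_natCast]
    _ = Real.exp (M * (Real.log 60 + Real.log p) +
          (Real.log 4 + -(M * (2 * Real.log p - 1)))) := by
        rw [Real.exp_add, Real.exp_add (Real.log 4)]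
    _ ≤ Real.exp (-((k : ℝ) * (N : ℝ) ^ 2)) := by
        rw [← hMR]
        apply Real.exp_le_exp.2
        have h4 : 0 ≤ Real.log 4 := Real.log_nonneg (by norm_num)
        nlinarith

end Pool.Agent.OGP
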