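import Pool.Agent.OGP.Norms

/-!
# OGP GIB: tilted expectations and the Gibbs variational inequality

`tE G Z = ∫ e^G Z / ∫ e^G`.  All functions are continuous on the compact space `UG ι`, hence
integrable.  `ent G = tE G G - log ∫ e^G` is the relative entropy of the tilted measure.

`gibbs`: Jensen for the tilted probability measure `ν`:
`log ∫ e^Z dμ = log ∫ e^G dμ + log ∫ e^{Z - G} dν ≥ log ∫ e^G dμ + ν(Z) - ν(G)`.
`ent_nonneg`: `gibbs` with `Z = 0`.
`log_int_exp_ge`: Jensen, `log ∫ e^G ≥ ∫ G`.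
-/

open Matrix MeasureTheory
namespace Pool.Agent.OGP

variable {ι : Type} [Fintype ι] [DecidableEq ι]

/-- Relative entropy of the tilted measure. -/
noncomputable def ent (G : UG ι → ℝ) : ℝ :=
  tE G G - Real.log (∫ A, Real.exp (G A) ∂(haarU ι))

private lemma cint {E : Type*} [NormedAddCommGroup E] {Z : UG ι → E} (hZ : Continuous Z) :
    Integrable Z (haarU ι) :=
  hZ.integrable_of_hasCompactSupport (HasCompactSupport.of_compactSpace Z)

private lemma cexp_cont {G : UG ι → ℝ} (hG : Continuous G) :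
    Continuous fun A => Real.exp (G A) := Real.continuous_exp.comp hG

private lemma cints {E : Type*} [NormedAddCommGroup E] [NormedSpace ℝ E] {G : UG ι → ℝ}
    (hG : Continuous G) {Z : UG ι → E} (hZ : Continuous Z) :
    Integrable (fun A => Real.exp (G A) • Z A) (haarU ι) :=
  cint ((cexp_cont hG).smul hZ)

lemma int_exp_pos {G : UG ι → ℝ} (hG : Continuous G) :
    0 < ∫ A, Real.exp (G A) ∂(haarU ι) := integral_exp_pos (cint (cexp_cont hG))

lemma tE_const {G : UG ι → ℝ} (hG : Continuous G) (c : ℝ) :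
    tE G (fun _ => c) = c := by
  unfold tE
  rw [integral_smul_const, smul_smul, inv_mul_cancel₀ (int_exp_pos hG).ne', one_smul]

lemma tE_constC {G : UG ι → ℝ} (hG : Continuous G) (c : ℂ) :
    tE G (fun _ => c) = c := by
  unfold tE
  rw [integral_smul_const, smul_smul, inv_mul_cancel₀ (int_exp_pos hG).ne', one_smul]

lemma tE_add {G : UG ι → ℝ} (hG : Continuous G) {Z Z' : UG ι → ℝ} (hZ : Continuous Z)
    (hZ' : Continuous Z') : tE G (fun A => Z A + Z' A) = tE G Z + tE G Z' := by
  unfold tE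
  rw [← smul_add, ← integral_add (cints hG hZ) (cints hG hZ')]
  simp only [smul_add]

lemma tE_addC {G : UG ι → ℝ} (hG : Continuous G) {Z Z' : UG ι → ℂ} (hZ : Continuous Z)
    (hZ' : Continuous Z') : tE G (fun A => Z A + Z' A) = tE G Z + tE G Z' := by
  unfold tE
  rw [← smul_add, ← integral_add (cints hG hZ) (cints hG hZ')]
  simp only [smul_add]

lemma tE_sub {G : UG ι → ℝ} (hG : Continuous G) {Z Z' : UG ι → ℝ} (hZ : Continuous Z)
    (hZ' : Continuous Z') : tE G (fun A => Z A - Z' A) = tE G Z - tE G Z' := by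
  unfold tE
  rw [← smul_sub, ← integral_sub (cints hG hZ) (cints hG hZ')]
  simp only [smul_sub]

lemma tE_subC {G : UG ι → ℝ} (hG : Continuous G) {Z Z' : UG ι → ℂ} (hZ : Continuous Z)
    (hZ' : Continuous Z') : tE G (fun A => Z A - Z' A) = tE G Z - tE G Z' := by
  unfold tE
  rw [← smul_sub, ← integral_sub (cints hG hZ) (cints hG hZ')]
  simp only [smul_sub]

lemma tE_mul {G : UG ι → ℝ} (c : ℝ) (Z : UG ι → ℝ) :
    tE G (fun A => c * Z A) = c * tE G Z := by
  unfold tE
  have e : ∀ A, Real.exp (G A) • (c * Z A) = c * (Real.exp (G A) • Z A) := fun A =>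
    (mul_smul_comm _ _ _).symm
  simp only [e, integral_const_mul]
  exact (mul_smul_comm _ _ _).symm

lemma tE_mulC {G : UG ι → ℝ} (c : ℂ) (Z : UG ι → ℂ) :
    tE G (fun A => c * Z A) = c * tE G Z := by
  unfold tE
  have e : ∀ A, Real.exp (G A) • (c * Z A) = c * (Real.exp (G A) • Z A) := fun A =>
    (mul_smul_comm _ _ _).symm
  simp only [e, integral_const_mul]
  exact (mul_smul_comm _ _ _).symm

lemma tE_sumC {G : UG ι → ℝ} (hG : Continuous G) {κ : Type*} (s : Finset κ)
    {Z : κ → UG ι → ℂ} (hZ : ∀ i, Continuous (Z i)) :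
    tE G (fun A => ∑ i ∈ s, Z i A) = ∑ i ∈ s, tE G (Z i) := by
  unfold tE
  rw [← Finset.smul_sum, ← integral_finsetSum _ fun i _ => cints hG (hZ i)]
  simp only [Finset.smul_sum]

lemma tE_mono {G : UG ι → ℝ} (hG : Continuous G) {Z Z' : UG ι → ℝ} (hZ : Continuous Z)
    (hZ' : Continuous Z') (h : ∀ A, Z A ≤ Z' A) : tE G Z ≤ tE G Z' := by
  unfold tE
  refine mul_le_mul_of_nonneg_left ?_ (inv_nonneg.2 (int_exp_pos hG).le)
  exact integral_mono (cints hG hZ) (cints hG hZ') fun A =>
    mul_le_mul_of_nonneg_left (h A) (Real.exp_pos _).le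

lemma norm_tE_le {G : UG ι → ℝ} (hG : Continuous G) {Z : UG ι → ℂ} (hZ : Continuous Z) :
    ‖tE G Z‖ ≤ tE G (fun A => ‖Z A‖) := by
  have _ := hZ
  unfold tE
  have h0 := (int_exp_pos hG).le
  rw [norm_smul, norm_inv, Real.norm_of_nonneg h0, smul_eq_mul]
  refine mul_le_mul_of_nonneg_left ?_ (inv_nonneg.2 h0)
  refine (norm_integral_le_integral_norm _).trans (le_of_eq ?_)
  refine integral_congr_ae (Filter.Eventually.of_forall fun A => ?_)
  simp only [norm_smul, Real.norm_of_nonneg (Real.exp_pos (G A)).le, smul_eq_mul]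

lemma re_tE {G : UG ι → ℝ} (hG : Continuous G) {Z : UG ι → ℂ} (hZ : Continuous Z) :
    (tE G Z).re = tE G (fun A => (Z A).re) := by
  unfold tE
  rw [Complex.smul_re]
  congr 1
  have h := Complex.reCLM.integral_comp_comm (cints hG hZ)
  simp only [Complex.reCLM_apply] at h
  rw [← h]
  simp only [Complex.smul_re]

/-- Cauchy-Schwarz. -/
lemma tE_mul_le {G : UG ι → ℝ} (hG : Continuous G) {Z Z' : UG ι → ℝ} (hZ : Continuous Z)
    (hZ' : Continuous Z') :
    tE G (fun A => Z A * Z' A) ≤
      Real.sqrt (tE G fun A => Z A ^ 2) * Real.sqrt (tE G fun A => Z' A ^ 2) := by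
  set a := tE G fun A => Z A ^ 2 with ha
  set b := tE G fun A => Z A * Z' A with hb
  set c := tE G fun A => Z' A ^ 2 with hc
  have hpos : ∀ {W : UG ι → ℝ}, Continuous W → 0 ≤ tE G fun A => W A ^ 2 := by
    intro W hW
    have h1 := tE_mono hG (continuous_const (y := (0 : ℝ))) (hW.pow 2) fun A => sq_nonneg (W A)
    rwa [tE_const hG] at h1
  have ha0 : 0 ≤ a := hpos hZ
  have hc0 : 0 ≤ c := hpos hZ'
  have hq : ∀ t : ℝ, 0 ≤ a * (t * t) + (-2 * b) * t + c := by
    intro t
    have h1 := hpos (W := fun A => t * Z A - Z' A) ((continuous_const.mul hZ).sub hZ')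
    have h2 : (tE G fun A => (t * Z A - Z' A) ^ 2) = a * (t * t) + (-2 * b) * t + c := by
      have e : (fun A => (t * Z A - Z' A) ^ 2) =
          fun A => ((t * t) * Z A ^ 2 + (-2 * t) * (Z A * Z' A)) + Z' A ^ 2 := by
        funext A
        ring
      have e1 := tE_add hG (Z := fun A => (t * t) * Z A ^ 2 + (-2 * t) * (Z A * Z' A))
        (Z' := fun A => Z' A ^ 2) (by fun_prop) (by fun_prop)
      have e2 := tE_add hG (Z := fun A => (t * t) * Z A ^ 2)
        (Z' := fun A => (-2 * t) * (Z A * Z' A)) (by fun_prop) (by fun_prop)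
      have e3 := tE_mul (G := G) (t * t) (fun A => Z A ^ 2)
      have e4 := tE_mul (G := G) (-2 * t) (fun A => Z A * Z' A)
      rw [e, e1, e2, e3, e4]
      rw [← ha, ← hb, ← hc]
      ring
    rwa [h2] at h1
  have hd := discrim_le_zero hq
  unfold discrim at hd
  rw [← Real.sqrt_mul ha0]
  apply Real.le_sqrt_of_sq_le
  nlinarith

/-- Translation invariance. -/
lemma tE_translate (Q : UG ι) (G : UG ι → ℝ) {E : Type*} [NormedAddCommGroup E]
    [NormedSpace ℝ E] (Z : UG ι → E) :
    tE (fun A => G (Q * A)) (fun A => Z (Q * A)) = tE G Z := by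
  unfold tE
  rw [integral_mul_left_eq_self (μ := haarU ι) (fun A => Real.exp (G A)) Q,
    integral_mul_left_eq_self (μ := haarU ι) (fun A => Real.exp (G A) • Z A) Q]

private lemma jensen {G W : UG ι → ℝ} (hG : Continuous G) (hW : Continuous W) :
    Real.exp (tE G W) ≤ tE G fun A => Real.exp (W A) := by
  set m := tE G W with hm
  have h1 := tE_mono hG (Z := fun A => Real.exp m * (W A + (1 - m)))
    (continuous_const.mul (hW.add continuous_const)) (cexp_cont hW) fun A => by
      have h2 := Real.add_one_le_exp (W A - m)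
      have h3 : Real.exp (W A) = Real.exp m * Real.exp (W A - m) := by
        rw [← Real.exp_add]
        congr 1
        ring
      rw [h3]
      exact mul_le_mul_of_nonneg_left (by linarith) (Real.exp_pos m).le
  rw [tE_mul, tE_add hG hW continuous_const, tE_const hG, ← hm] at h1
  have h4 : m + (1 - m) = 1 := by ring
  rwa [h4, mul_one] at h1

theorem gibbs {G Z : UG ι → ℝ} (hG : Continuous G) (hZ : Continuous Z) :
    tE G Z ≤ ent G + Real.log (∫ A, Real.exp (Z A) ∂(haarU ι)) := by
  have h0 := int_exp_pos hG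
  have hW : Continuous fun A => Z A - G A := hZ.sub hG
  have h1 := jensen hG hW
  have h2 : (tE G fun A => Real.exp (Z A - G A)) =
      (∫ A, Real.exp (G A) ∂(haarU ι))⁻¹ * ∫ A, Real.exp (Z A) ∂(haarU ι) := by
    unfold tE
    rw [smul_eq_mul]
    congr 1
    refine integral_congr_ae (Filter.Eventually.of_forall fun A => ?_)
    simp only [smul_eq_mul]
    rw [← Real.exp_add]
    congr 1
    ring
  rw [h2] at h1
  have h3 := Real.log_le_log (Real.exp_pos _) h1
  rw [Real.log_exp, Real.log_mul (inv_pos.2 h0).ne' (int_exp_pos hZ).ne', Real.log_inv,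
    tE_sub hG hZ hG] at h3
  unfold ent
  linarith

theorem ent_nonneg {G : UG ι → ℝ} (hG : Continuous G) : 0 ≤ ent G := by
  have h := gibbs hG (continuous_const (y := (0 : ℝ)))
  rw [tE_const hG] at h
  simpa using h

theorem log_int_exp_ge {G : UG ι → ℝ} (hG : Continuous G) :
    ∫ A, G A ∂(haarU ι) ≤ Real.log (∫ A, Real.exp (G A) ∂(haarU ι)) := by
  have h0 : Continuous fun _ : UG ι => (0 : ℝ) := continuous_const
  have h := gibbs h0 hG
  have h1 : tE (fun _ : UG ι => (0 : ℝ)) G = ∫ A, G A ∂(haarU ι) := by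
    unfold tE
    simp
  have h2 : ent (fun _ : UG ι => (0 : ℝ)) = 0 := by
    unfold ent
    rw [tE_const h0]
    simp
  rwa [h1, h2, zero_add] at h

end Pool.Agent.OGP
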