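import Pool.Agent.OGP.Gsm
import Pool.Agent.OGP.Conc2

/-!
# OGP GMAIN: existence of good block diagonal unitaries, with overwhelming probability

`n = N k + r`, `M = k N² ≤ n²/k`, `F = ST p k N r` (`p`-Lipschitz, phase invariant), `m = ∫ F`,
`E₀ = √(0.45 p log p/k)`.  If `E₀ > m`, `conc_tail` and `gsm`:
`e^{-M/p} ≤ P (F ≥ E₀) ≤ e^{-n² (E₀ - m)²/(10 p²)}`, so `(E₀ - m)² ≤ 10 p M/n² ≤ 10 p/k`; in all cases
`m ≥ E₀ - √(10 p/k)`.  `conc_tail_low` with `t = √(10 p/k)`: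
`P (F ≤ E₀ - 2 √(10 p/k)) ≤ P (F ≤ m - t) ≤ e^{-n²/(k p)}`.  For `p` large
`√0.45 √(log p) - 2 √10 > √0.39 √(log p)`, so `E₀ - 2√(10 p/k) > E₁ := √(0.39 p log p/k)`.
If `F V > E₁`, `exists_ST_phase` gives `W`, `θ` with `Re Tp p V (phU θ * emb W) = F V`.
-/

open Matrix MeasureTheory
namespace Pool.Agent.OGP

private lemma gm_card (k N r : ℕ) : (Fintype.card (JJ k N r) : ℝ) = ((N * k + r : ℕ) : ℝ) := by
  simp [Fintype.card_sum, Fintype.card_prod, Fintype.card_fin]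

private lemma gm_num : ∃ P : ℕ, 1 ≤ P ∧ ∀ p : ℕ, P ≤ p → ∀ k : ℕ, 1 ≤ k →
    Real.sqrt (39 / 100 * (p * Real.log p / k)) + 2 * Real.sqrt (10 * p / k) ≤
      Real.sqrt (45 / 100 * (p * Real.log p / k)) := by
  have hd : 0 < Real.sqrt (45 / 100) - Real.sqrt (39 / 100) := by
    have : Real.sqrt (39 / 100) < Real.sqrt (45 / 100) :=
      Real.sqrt_lt_sqrt (by norm_num) (by norm_num)
    linarith
  have hlim : Filter.Tendsto (fun p : ℕ => Real.sqrt (Real.log p)) Filter.atTop Filter.atTop :=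
    Real.tendsto_sqrt_atTop.comp (Real.tendsto_log_atTop.comp tendsto_natCast_atTop_atTop)
  obtain ⟨P, hP⟩ := Filter.eventually_atTop.1
    (hlim.eventually_ge_atTop (2 * Real.sqrt 10 / (Real.sqrt (45 / 100) - Real.sqrt (39 / 100))))
  refine ⟨max P 1, le_max_right _ _, fun p hp k hk => ?_⟩
  have h1 := hP p ((le_max_left _ _).trans hp)
  have hp1 : 1 ≤ p := (le_max_right _ _).trans hp
  have hpr : (1 : ℝ) ≤ p := by exact_mod_cast hp1
  have hkr : (1 : ℝ) ≤ k := by exact_mod_cast hk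
  have hlog : 0 ≤ Real.log p := Real.log_nonneg hpr
  rw [div_le_iff₀ hd] at h1
  have e1 : ∀ c : ℝ, 0 ≤ c → Real.sqrt (c * (p * Real.log p / k)) =
      Real.sqrt c * (Real.sqrt (Real.log p) * Real.sqrt (p / k)) := by
    intro c hc
    rw [← Real.sqrt_mul hlog, ← Real.sqrt_mul hc]
    congr 1
    ring
  have e2 : Real.sqrt (10 * p / k) = Real.sqrt 10 * Real.sqrt (p / k) := by
    rw [← Real.sqrt_mul (by norm_num)]
    congr 1
    ring
  rw [e1 _ (by norm_num), e1 _ (by norm_num), e2]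
  have h2 : 0 ≤ Real.sqrt ((p : ℝ) / k) := Real.sqrt_nonneg _
  nlinarith [mul_le_mul_of_nonneg_right h1 h2]

theorem gmain : ∃ p₀ : ℕ, ∀ p : ℕ, p₀ ≤ p → ∃ k₀ : ℕ, ∀ k : ℕ, k₀ ≤ k → ∃ N₀ : ℕ, ∀ N : ℕ, N₀ ≤ N →
    ∀ r : ℕ, r < k →
      (haarU (JJ k N r)).real {V | ¬ ∃ (W : KG k N) (θ : ℝ),
        Real.sqrt (39 / 100 * (p * Real.log p / k)) ≤ (Tp p V (phU θ * emb k N r W)).re} ≤
      Real.exp (-(((N * k + r : ℕ) : ℝ) ^ 2 / (k * p))) := by
  obtain ⟨p₁, h1⟩ := gsm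
  obtain ⟨P, hP1, hP⟩ := gm_num
  refine ⟨max p₁ P, fun p hp => ?_⟩
  obtain ⟨k₁, h2⟩ := h1 p ((le_max_left _ _).trans hp)
  have hpP : P ≤ p := (le_max_right _ _).trans hp
  have hp1 : 1 ≤ p := hP1.trans hpP
  have hp0 : (0 : ℝ) < p := by exact_mod_cast hp1
  refine ⟨max k₁ 1, fun k hk => ?_⟩
  obtain ⟨N₁, h3⟩ := h2 k ((le_max_left _ _).trans hk)
  have hk1 : 1 ≤ k := (le_max_right _ _).trans hk
  have hk0 : (0 : ℝ) < k := by exact_mod_cast hk1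
  refine ⟨max N₁ 1, fun N hN r hr => ?_⟩
  have h4 := h3 N ((le_max_left _ _).trans hN) r hr
  have hN1 : 1 ≤ N := (le_max_right _ _).trans hN
  have hN0 : (0 : ℝ) < N := by exact_mod_cast hN1
  have hne : Nonempty (JJ k N r) := ⟨Sum.inl (⟨0, hN1⟩, ⟨0, hk1⟩)⟩
  have hnum := hP p hpP k hk1
  set n : ℝ := ((N * k + r : ℕ) : ℝ) with hn
  have hcard : (Fintype.card (JJ k N r) : ℝ) = n := gm_card k N r
  have hnk : N * k ≤ n := by
    rw [hn]; push_cast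
    have : (0 : ℝ) ≤ r := Nat.cast_nonneg r
    linarith
  have hn0 : 0 < n := lt_of_lt_of_le (by positivity) hnk
  set E0 : ℝ := Real.sqrt (45 / 100 * (p * Real.log p / k)) with hE0
  set E1 : ℝ := Real.sqrt (39 / 100 * (p * Real.log p / k)) with hE1
  set s : ℝ := Real.sqrt (10 * p / k) with hs
  have hs0 : 0 ≤ s := Real.sqrt_nonneg _
  have hs2 : s ^ 2 = 10 * p / k := Real.sq_sqrt (by positivity)
  have hlip : ∀ A B : UG (JJ k N r), |ST p k N r A - ST p k N r B| ≤ (p : ℝ) * d2 A B :=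
    fun A B => ST_lip A B
  have hph := ST_phase p k N r
  set m : ℝ := ∫ B, ST p k N r B ∂(haarU (JJ k N r)) with hm
  -- the mean is large
  have hmean : E0 ≤ m + s := by
    by_contra hcon
    push Not at hcon
    have ht : 0 ≤ E0 - m := by linarith
    have h5 := conc_tail (L := p) hp0 hlip hph ht
    rw [← hm, hcard, add_sub_cancel] at h5
    have h6 := Real.exp_le_exp.1 (h4.trans h5)
    have h7 : n ^ 2 * (E0 - m) ^ 2 / (10 * (p : ℝ) ^ 2) ≤ k * (N : ℝ) ^ 2 / p := by linarith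
    rw [div_le_div_iff₀ (by positivity) hp0] at h7
    have h8 : n ^ 2 * (E0 - m) ^ 2 ≤ 10 * p * k * (N : ℝ) ^ 2 := by
      have h9 : n ^ 2 * (E0 - m) ^ 2 * p ≤ (10 * p * k * (N : ℝ) ^ 2) * p := by nlinarith
      exact le_of_mul_le_mul_right h9 hp0
    have h10 : (N * k : ℝ) ^ 2 * (E0 - m) ^ 2 ≤ n ^ 2 * (E0 - m) ^ 2 := by gcongr
    have h11 : (E0 - m) ^ 2 ≤ 10 * p / k := by
      rw [le_div_iff₀ hk0]
      have h12 : ((E0 - m) ^ 2 * k) * (k * (N : ℝ) ^ 2) ≤ (10 * p) * (k * (N : ℝ) ^ 2) := by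
        nlinarith
      exact le_of_mul_le_mul_right h12 (by positivity)
    have h13 : E0 - m ≤ s := Real.le_sqrt_of_sq_le h11
    linarith
  have h14 := conc_tail_low (L := p) hp0 hlip hph hs0
  rw [← hm, hcard, hs2] at h14
  have h15 : n ^ 2 * (10 * (p : ℝ) / k) / (10 * (p : ℝ) ^ 2) = n ^ 2 / (k * p) := by
    field_simp
  rw [h15] at h14
  refine le_trans (measureReal_mono ?_) h14
  intro V hV
  have hV' : ¬ ∃ (W : KG k N) (θ : ℝ), E1 ≤ (Tp p V (phU θ * emb k N r W)).re := hV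
  show ST p k N r V ≤ m - s
  by_contra hcon
  push Not at hcon
  obtain ⟨W, θ, hW⟩ := exists_ST_phase hp1 V
  exact hV' ⟨W, θ, by rw [hW]; linarith⟩

end Pool.Agent.OGP
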