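import Pool.Agent.OGP.Gmain
import Pool.Agent.OGP.Sort

/-!
# OGP GSET: the set of good pairs

`GoodG p k N r E` is the set of pairs `(U, V)` such that `U = O diag(e^{iθ}) O⁻¹` with angles in
`[0, 2π]` increasing from block to block, and `Re Tp p V (O (phU φ * emb W) O⁻¹) ≥ E` for some block
diagonal `W`.

`GoodG_closed`: it is the image of the compact set of `(O, θ, W, φ, V)` with `θ ∈ [0, 2π]^J`
`BlockMono`, `φ ∈ [0, 2π]` (the phase may be reduced modulo `2π`) and the closed condition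
`Re Tp p V (..) ≥ E`, under the continuous map `(O, θ, W, φ, V) ↦ (O diag(e^{iθ}) O⁻¹, V)`.

`GoodG_prob`: for fixed `U`, take `O, θ` from `sorted_diag`; `(U, V)` is good as soon as
`∃ W φ, E ≤ Re Tp p (O⁻¹ V O) (phU φ * emb W)` (`Tp_conj`), and `O⁻¹ V O` is Haar distributed.
So every section of the complement has measure at most that of the set in `gmain`; Fubini
(`Measure.prod_apply`, the complement is open).
-/

open Matrix MeasureTheory
namespace Pool.Agent.OGP

/-- The good pairs. -/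
def GoodG (p k N r : ℕ) (E : ℝ) : Set (UG (JJ k N r) × UG (JJ k N r)) :=
  {z | ∃ (O : UG (JJ k N r)) (θ : JJ k N r → ℝ) (W : KG k N) (φ : ℝ), BlockMono θ ∧
    (∀ x, 0 ≤ θ x ∧ θ x ≤ 2 * Real.pi) ∧
    z.1 = O * eU (Matrix.diagonal fun x => (θ x : ℂ)) * O⁻¹ ∧
    E ≤ (Tp p z.2 (O * (phU φ * emb k N r W) * O⁻¹)).re}

private lemma phU_mod {ι : Type} [Fintype ι] [DecidableEq ι] (φ : ℝ) :
    ∃ φ' : ℝ, φ' ∈ Set.Icc 0 (2 * Real.pi) ∧ (phU φ : UG ι) = phU φ' := by
  refine ⟨toIcoMod Real.two_pi_pos 0 φ, ?_, ?_⟩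
  · have h := toIcoMod_mem_Ico Real.two_pi_pos 0 φ
    rw [zero_add] at h
    exact ⟨h.1, h.2.le⟩
  · apply Subtype.ext
    rw [phU_coe, phU_coe, exp_shift φ (toIcoDiv Real.two_pi_pos 0 φ)]
    rfl

private lemma continuous_phU' {ι : Type} [Fintype ι] [DecidableEq ι] :
    Continuous (phU : ℝ → UG ι) := by
  unfold phU
  exact continuous_eU.comp (Complex.continuous_ofReal.smul continuous_const)

private lemma continuous_Tp1 {X : Type*} [TopologicalSpace X] {ι : Type} [Fintype ι]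
    [DecidableEq ι] (p : ℕ) {f g : X → UG ι} (hf : Continuous f) (hg : Continuous g) :
    Continuous fun x => (Tp p (f x) (g x)) := by
  have h := (continuous_Tp (ι := ι) p)
  have h1 := hf.prodMk hg
  have h2 := h.comp h1
  exact h2

private lemma continuous_Tp' {X : Type*} [TopologicalSpace X] {ι : Type} [Fintype ι]
    [DecidableEq ι] (p : ℕ) {f g : X → UG ι} (hf : Continuous f) (hg : Continuous g) :
    Continuous fun x => (Tp p (f x) (g x)).re := by
  have h1 := continuous_Tp1 p hf hg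
  have h2 := Complex.continuous_re.comp h1
  exact h2

/-- The parameter space. -/
private abbrev Par (k N r : ℕ) :=
  UG (JJ k N r) × (JJ k N r → ℝ) × KG k N × ℝ × UG (JJ k N r)

private noncomputable def gU {k N r : ℕ} (x : Par k N r) : UG (JJ k N r) :=
  x.1 * eU (Matrix.diagonal fun j => (x.2.1 j : ℂ)) * x.1⁻¹

private noncomputable def gW {k N r : ℕ} (x : Par k N r) : UG (JJ k N r) :=
  x.1 * (phU x.2.2.2.1 * emb k N r x.2.2.1) * x.1⁻¹

private lemma continuous_gU {k N r : ℕ} : Continuous (gU : Par k N r → UG (JJ k N r)) := by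
  have h1 : Continuous fun x : Par k N r =>
      (eU (Matrix.diagonal fun j => (x.2.1 j : ℂ)) : UG (JJ k N r)) := by
    refine continuous_eU.comp ?_
    refine Continuous.matrix_diagonal ?_
    fun_prop
  have h2 : Continuous fun x : Par k N r => x.1 := continuous_fst
  exact (h2.mul h1).mul h2.inv

private lemma continuous_gW {k N r : ℕ} : Continuous (gW : Par k N r → UG (JJ k N r)) := by
  have h2 : Continuous fun x : Par k N r => x.1 := continuous_fst
  have h4 : Continuous fun x : Par k N r => (phU x.2.2.2.1 : UG (JJ k N r)) :=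
    continuous_phU'.comp (continuous_fst.comp (continuous_snd.comp
      (continuous_snd.comp continuous_snd)))
  have h5 : Continuous fun x : Par k N r => emb k N r x.2.2.1 :=
    (continuous_emb k N r).comp (continuous_fst.comp (continuous_snd.comp continuous_snd))
  exact (h2.mul (h4.mul h5)).mul h2.inv

private lemma continuous_gV {k N r : ℕ} :
    Continuous (fun x : Par k N r => x.2.2.2.2) :=
  continuous_snd.comp (continuous_snd.comp (continuous_snd.comp continuous_snd))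

private def SB (k N r : ℕ) : Set (Par k N r) :=
    Set.univ ×ˢ (Set.pi Set.univ fun _ => Set.Icc 0 (2 * Real.pi)) ×ˢ Set.univ ×ˢ
      Set.Icc 0 (2 * Real.pi) ×ˢ Set.univ

private lemma SB_compact (k N r : ℕ) : IsCompact (SB k N r) :=
  isCompact_univ.prod ((isCompact_univ_pi fun _ => isCompact_Icc).prod
    (isCompact_univ.prod (isCompact_Icc.prod isCompact_univ)))

private def SM (k N r : ℕ) : Set (Par k N r) := {x | BlockMono x.2.1}

private lemma SM_closed (k N r : ℕ) : IsClosed (SM k N r) := by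
  have : SM k N r = ⋂ a, ⋂ b, ⋂ (_ : lvl a < lvl b), {x | x.2.1 a ≤ x.2.1 b} := by
    ext x
    simp only [Set.mem_iInter]
    rfl
  rw [this]
  refine isClosed_iInter fun a => isClosed_iInter fun b => isClosed_iInter fun _ => ?_
  exact isClosed_le (by fun_prop) (by fun_prop)

private def SE (p k N r : ℕ) (E : ℝ) : Set (Par k N r) :=
  {x | E ≤ (Tp p x.2.2.2.2 (gW x)).re}

private lemma SE_closed (p k N r : ℕ) (E : ℝ) : IsClosed (SE p k N r E) :=
  isClosed_le continuous_const (continuous_Tp' p continuous_gV continuous_gW)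

theorem GoodG_closed (p k N r : ℕ) (E : ℝ) : IsClosed (GoodG p k N r E) := by
  have himg := ((SB_compact k N r).inter_right
    ((SM_closed k N r).inter (SE_closed p k N r E))).image (continuous_gU.prodMk continuous_gV)
  have e : GoodG p k N r E = (fun x : Par k N r => (gU x, x.2.2.2.2)) ''
      (SB k N r ∩ (SM k N r ∩ SE p k N r E)) := by
    ext z
    constructor
    · rintro ⟨O, θ, W, φ, h1, h2, h3, h4⟩
      obtain ⟨φ', h5, h6⟩ := phU_mod (ι := JJ k N r) φ
      refine ⟨(O, θ, W, φ', z.2), ⟨?_, h1, ?_⟩, ?_⟩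
      · exact ⟨Set.mem_univ _, fun x _ => h2 x, Set.mem_univ _, h5, Set.mem_univ _⟩
      · change E ≤ (Tp p z.2 (O * (phU φ' * emb k N r W) * O⁻¹)).re
        rw [← h6]
        exact h4
      · exact Prod.ext h3.symm rfl
    · rintro ⟨⟨O, θ, W, φ, V⟩, ⟨h1, h2, h3⟩, rfl⟩
      exact ⟨O, θ, W, φ, h2, fun x => h1.2.1 x (Set.mem_univ _), rfl, h3⟩
  rw [e]
  exact himg.isClosed

theorem GoodG_prob (p k N r : ℕ) (E : ℝ) :
    ((haarU (JJ k N r)).prod (haarU (JJ k N r))).real (GoodG p k N r E)ᶜ ≤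
      (haarU (JJ k N r)).real {V | ¬ ∃ (W : KG k N) (φ : ℝ),
        E ≤ (Tp p V (phU φ * emb k N r W)).re} := by
  set S : Set (UG (JJ k N r)) := {V | ¬ ∃ (W : KG k N) (φ : ℝ),
        E ≤ (Tp p V (phU φ * emb k N r W)).re} with hS
  have hm : MeasurableSet (GoodG p k N r E)ᶜ := (GoodG_closed p k N r E).measurableSet.compl
  have h1 : ∀ U : UG (JJ k N r), (haarU (JJ k N r)) (Prod.mk U ⁻¹' (GoodG p k N r E)ᶜ) ≤
      (haarU (JJ k N r)) S := by
    intro U
    obtain ⟨O, θ, hθ, hθ2, hU⟩ := sorted_diag U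
    have h2 : Prod.mk U ⁻¹' (GoodG p k N r E)ᶜ ⊆
        (fun V => O⁻¹ * V) ⁻¹' ((fun V => V * O) ⁻¹' S) := by
      intro V hV
      simp only [Set.mem_preimage, Set.mem_compl_iff] at hV
      change ¬ _
      rintro ⟨W, φ, h3⟩
      refine hV ⟨O, θ, W, φ, hθ, hθ2, hU, ?_⟩
      have h4 := Tp_conj p O (O⁻¹ * V * O) (phU φ * emb k N r W)
      have h5 : O * (O⁻¹ * V * O) * O⁻¹ = V := by group
      rw [h5] at h4
      rw [h4]
      exact h3
    refine (measure_mono h2).trans (le_of_eq ?_)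
    rw [measure_preimage_mul, measure_preimage_mul_right]
  have h3 : ((haarU (JJ k N r)).prod (haarU (JJ k N r))) (GoodG p k N r E)ᶜ ≤
      (haarU (JJ k N r)) S := by
    rw [Measure.prod_apply hm]
    refine (lintegral_mono h1).trans (le_of_eq ?_)
    rw [lintegral_const, measure_univ, mul_one]
  exact ENNReal.toReal_mono (measure_ne_top _ _) h3

private lemma emb_pblk {k N r : ℕ} (W : KG k N) (i : Fin k) :
    (emb k N r W : Matrix (JJ k N r) (JJ k N r) ℂ) * pblk i =
      pblk i * (emb k N r W : Matrix (JJ k N r) (JJ k N r) ℂ) := by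
  have hc : (emb k N r W : Matrix (JJ k N r) (JJ k N r) ℂ) =
      blk k N r 1 (fun i => (W i : Matrix (Fin N) (Fin N) ℂ)) := rfl
  rw [hc]
  unfold pblk blk
  ext x y
  rw [Matrix.mul_diagonal, Matrix.diagonal_mul]
  rcases x with ⟨a, j⟩ | a <;> rcases y with ⟨b, j'⟩ | b
  · rw [Matrix.fromBlocks_apply₁₁, Matrix.blockDiagonal_apply]
    by_cases h : j = j'
    · subst h
      rw [mul_comm]
      rfl
    · rw [if_neg h, zero_mul, mul_zero]
  · rw [Matrix.fromBlocks_apply₁₂]
    simp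
  · rw [Matrix.fromBlocks_apply₂₁]
    simp
  · rw [mul_comm]
    rfl

/-- A good pair gives a unitary almost commuting with the spectral projections of `U`. -/
theorem GoodG_comm {p k N r : ℕ} {E : ℝ} {z : UG (JJ k N r) × UG (JJ k N r)}
    (hz : z ∈ GoodG p k N r E) :
    ∃ W : UG (JJ k N r), E ≤ (Tp p z.2 W).re ∧
      ∃ (O : UG (JJ k N r)) (θ : JJ k N r → ℝ), BlockMono θ ∧
        (∀ x, 0 ≤ θ x ∧ θ x ≤ 2 * Real.pi) ∧
        z.1 = O * eU (Matrix.diagonal fun x => (θ x : ℂ)) * O⁻¹ ∧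
        ∀ (δ : ℝ) (i : Fin k) (c : ℤ →₀ ℂ),
          n2 (lauM c z.1 - (O : Matrix (JJ k N r) (JJ k N r) ℂ) * pblk i *
            ((O⁻¹ : UG (JJ k N r)) : Matrix (JJ k N r) (JJ k N r) ℂ)) ≤ δ →
          n2 ((W : Matrix (JJ k N r) (JJ k N r) ℂ) * lauM c z.1 -
            lauM c z.1 * (W : Matrix (JJ k N r) (JJ k N r) ℂ)) ≤ 2 * δ := by
  obtain ⟨O, θ, W, φ, hθ, hθ2, hU, hE⟩ := hz
  refine ⟨O * (phU φ * emb k N r W) * O⁻¹, hE, O, θ, hθ, hθ2, hU, ?_⟩
  intro δ i c hδ
  set L := lauM c z.1 with hL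
  set Q : Matrix (JJ k N r) (JJ k N r) ℂ := (O : Matrix (JJ k N r) (JJ k N r) ℂ) * pblk i *
            ((O⁻¹ : UG (JJ k N r)) : Matrix (JJ k N r) (JJ k N r) ℂ) with hQ
  set T : UG (JJ k N r) := O * (phU φ * emb k N r W) * O⁻¹ with hT
  have hcomm : (T : Matrix (JJ k N r) (JJ k N r) ℂ) * Q = Q * (T : Matrix (JJ k N r) (JJ k N r) ℂ) := by
    rw [hT, hQ, UG_coe_mul, UG_coe_mul, UG_coe_mul, phU_coe]
    have hOO : ((O⁻¹ : UG (JJ k N r)) : Matrix (JJ k N r) (JJ k N r) ℂ) *
        (O : Matrix (JJ k N r) (JJ k N r) ℂ) = 1 := by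
      rw [← UG_coe_mul, inv_mul_cancel, UG_coe_one]
    simp only [Matrix.smul_mul, Matrix.mul_smul, Matrix.one_mul]
    congr 1
    have e1 : ∀ A B C D : Matrix (JJ k N r) (JJ k N r) ℂ,
        (A : Matrix (JJ k N r) (JJ k N r) ℂ) * B * C * (A * D * C) = A * B * (C * A) * D * C := by
      intro A B C D
      simp only [Matrix.mul_assoc]
    rw [e1, e1, hOO, Matrix.mul_one, Matrix.mul_one]
    simp only [Matrix.mul_assoc]
    rw [← Matrix.mul_assoc (pblk i), ← emb_pblk, Matrix.mul_assoc]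
  have h1 : (T : Matrix (JJ k N r) (JJ k N r) ℂ) * L - L * (T : Matrix (JJ k N r) (JJ k N r) ℂ) =
      (T : Matrix (JJ k N r) (JJ k N r) ℂ) * (L - Q) -
        (L - Q) * (T : Matrix (JJ k N r) (JJ k N r) ℂ) := by
    rw [Matrix.mul_sub, Matrix.sub_mul, hcomm]
    abel
  rw [h1, sub_eq_add_neg]
  refine (n2_add_le _ _).trans ?_
  rw [n2_neg, n2_unitary_mul, n2_mul_unitary]
  linarith

end Pool.Agent.OGP
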