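import Pool.Agent.OGP.Two

/-!
# OGP TAILS: tail bounds from the two point function

`n = card ι`, `C'` the constant of `two_point`; `A = V y` is Haar distributed, for all `y`.

`Tp p V x = utr ((V x)^p) = utr ((A y⁻¹ x)^p) = utr ((Q A)^p)` with `Q = y⁻¹ x` (cyclicity of the
trace: `utr ((X Y)^p) = utr ((Y X)^p)`), `Tp p V y = utr (A^p)`.

`tail_one`.  For `u ≥ 0`, Chernoff with `l1 = 2u/p`, `l2 = 0`:
`P (Re utr A^p ≥ u) ≤ exp (-n² l1 u + n² (p/4) l1² + C' n² l1 (l1 + 1/n)²)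
 ≤ exp (-n² (u²/p - 8 C' u (u + 1/n)²))` as `l1 ≤ 2u`.  If `|z| ≥ t` then one of `± Re z`, `± Im z` is
`≥ t/√2`, and `e^{iφ} Tp p V W = Tp p (phU (φ/p) * V) W`, so by phase invariance all four events have
the probability `P (Re ≥ t/√2)`.

`tail_diff`.  Same with `l1 = λ`, `l2 = -λ`, `λ = u / (p² β)`, `u = t/√2`: `|Q' - 1| ≤ β` for
`Q' = utr (y⁻¹ x)` gives `Re (Q'^p) ≥ 1 - p β` (`|z^p - 1| ≤ p |z - 1|` for `|z| ≤ 1`), so
`(p/4)(2λ² - 2λ² Re Q'^p) ≤ (p² β / 2) λ²`, and `λ u - (p² β/2) λ² = u² / (2 p² β) = t²/(4 p² β)`;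
the error is `C' (2λ)(2λ + 1/n)² ≤ 8 C' (t/β)(t/β + 1/n)²`.

`tail_pair`.  `l1 = l2 = λ = 2t/(p(1+κ))`, `κ = ‖utr (W⁻¹ W')‖^p ≥ Re (utr (W⁻¹ W'))^p`:
`2 λ t - (p/4)(2λ² + 2λ² κ) = 2 t²/(p (1+κ))`.
-/

open Matrix MeasureTheory
namespace Pool.Agent.OGP

section aux

variable {ι : Type} [Fintype ι] [DecidableEq ι]

private lemma tl_pow_comm (X Y : UG ι) (p : ℕ) : utr ((X * Y) ^ p) = utr ((Y * X) ^ p) := by
  have h : (X * Y) ^ p = X * (Y * X) ^ p * X⁻¹ := by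
    rw [← conj_pow]
    congr 1
    group
  rw [h, utr_conj]

private lemma tl_phase_pow (θ : ℝ) (A : UG ι) (p : ℕ) :
    utr ((phU θ * A) ^ p) = Complex.exp (Complex.I * ((p * θ : ℝ) : ℂ)) * utr (A ^ p) := by
  have h : ∀ p : ℕ, (phU θ * A) ^ p = phU (p * θ) * A ^ p := by
    intro p
    induction p with
    | zero => simp [phU_zero]
    | succ p ih =>
      rw [pow_succ, ih, pow_succ]
      have e : ((p + 1 : ℕ) : ℝ) * θ = p * θ + θ := by push_cast; ring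
      rw [e, phU_add]
      have hc := phU_comm θ (A ^ p)
      calc phU (p * θ) * A ^ p * (phU θ * A) = phU (p * θ) * (A ^ p * phU θ) * A := by
            simp only [mul_assoc]
        _ = phU (p * θ) * (phU θ * A ^ p) * A := by rw [hc]
        _ = _ := by simp only [mul_assoc]
  rw [h, utr_phU_mul]

/-- Chernoff for the exponent of the two point function. -/
private lemma tl_chern {p : ℕ} {C : ℝ} [Nonempty ι]
    (h : ∀ (Q : UG ι) (l1 l2 : ℝ),
      |Real.log (∫ A, Real.exp (Gf p Q l1 l2 A) ∂(haarU ι)) -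
        (Fintype.card ι : ℝ) ^ 2 * (p / 4 * (l1 ^ 2 + l2 ^ 2 + 2 * l1 * l2 * (utr Q ^ p).re))| ≤
      C * ((Fintype.card ι : ℝ) ^ 2 * (|l1| + |l2|) *
        (|l1| + |l2| + 1 / (Fintype.card ι : ℝ)) ^ 2))
    (L y x : UG ι) (l1 l2 v : ℝ) :
    (haarU ι).real {V | v ≤ l1 * (utr ((L * V * y) ^ p)).re + l2 * (utr ((L * V * x) ^ p)).re} ≤
      Real.exp (-((Fintype.card ι : ℝ) ^ 2 * (v -
        p / 4 * (l1 ^ 2 + l2 ^ 2 + 2 * l1 * l2 * (utr (y⁻¹ * x) ^ p).re) -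
        C * ((|l1| + |l2|) * (|l1| + |l2| + 1 / (Fintype.card ι : ℝ)) ^ 2)))) := by
  set n : ℝ := (Fintype.card ι : ℝ) with hn
  have hn0 : 0 < n := by
    rw [hn]
    exact_mod_cast Fintype.card_pos
  set Q : UG ι := y⁻¹ * x with hQ
  have hcont : Continuous (Gf p Q l1 l2) := continuous_Gf p Q l1 l2
  have hset : {V : UG ι | v ≤ l1 * (utr ((L * V * y) ^ p)).re + l2 * (utr ((L * V * x) ^ p)).re} =
      (fun V => L * V * y) ⁻¹' {A | n ^ 2 * v ≤ Gf p Q l1 l2 A} := by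
    ext V
    have e1 : L * V * x = (L * V * y) * Q := by rw [hQ]; group
    have e2 : utr ((L * V * x) ^ p) = utr ((Q * (L * V * y)) ^ p) := by rw [e1, tl_pow_comm]
    rw [Set.mem_ofPred_eq, Set.mem_preimage, Set.mem_ofPred_eq, e2]
    unfold Gf
    rw [← hn]
    constructor
    · intro h1
      exact mul_le_mul_of_nonneg_left h1 (by positivity)
    · intro h1
      exact le_of_mul_le_mul_left h1 (by positivity)
  have hmp : MeasurePreserving (fun V : UG ι => L * V * y) (haarU ι) (haarU ι) :=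
    (measurePreserving_mul_right (haarU ι) y).comp (measurePreserving_mul_left (haarU ι) L)
  have hmeas : MeasurableSet {A : UG ι | n ^ 2 * v ≤ Gf p Q l1 l2 A} :=
    (isClosed_le continuous_const hcont).measurableSet
  have hint : Integrable (fun A => Real.exp (1 * Gf p Q l1 l2 A)) (haarU ι) :=
    two_int (Real.continuous_exp.comp (continuous_const.mul hcont))
  have hch := ProbabilityTheory.measure_ge_le_exp_mul_mgf (μ := haarU ι) (X := Gf p Q l1 l2)
    (t := 1) (n ^ 2 * v) zero_le_one hint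
  have hpos : 0 < ∫ A, Real.exp (Gf p Q l1 l2 A) ∂(haarU ι) := by
    apply integral_exp_pos
    simpa using hint
  have hmgf : ProbabilityTheory.mgf (Gf p Q l1 l2) (haarU ι) 1 =
      ∫ A, Real.exp (Gf p Q l1 l2 A) ∂(haarU ι) := by
    unfold ProbabilityTheory.mgf
    simp
  have h2 := (abs_le.1 (h Q l1 l2)).2
  rw [hset]
  have h3 : (haarU ι).real ((fun V => L * V * y) ⁻¹' {A | n ^ 2 * v ≤ Gf p Q l1 l2 A}) =
      (haarU ι).real {A | n ^ 2 * v ≤ Gf p Q l1 l2 A} := by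
    unfold Measure.real
    rw [hmp.measure_preimage hmeas.nullMeasurableSet]
  rw [h3]
  refine hch.trans ?_
  rw [hmgf, ← Real.exp_log hpos, ← Real.exp_add]
  apply Real.exp_le_exp.2
  have h4 : C * (n ^ 2 * (|l1| + |l2|) * (|l1| + |l2| + 1 / n) ^ 2) =
      n ^ 2 * (C * ((|l1| + |l2|) * (|l1| + |l2| + 1 / n) ^ 2)) := by ring
  rw [h4] at h2
  have h5 : -(n ^ 2 * (v - p / 4 * (l1 ^ 2 + l2 ^ 2 + 2 * l1 * l2 * (utr Q ^ p).re) -
      C * ((|l1| + |l2|) * (|l1| + |l2| + 1 / n) ^ 2))) =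
      -1 * (n ^ 2 * v) + (n ^ 2 * (p / 4 * (l1 ^ 2 + l2 ^ 2 + 2 * l1 * l2 * (utr Q ^ p).re)) +
        n ^ 2 * (C * ((|l1| + |l2|) * (|l1| + |l2| + 1 / n) ^ 2))) := by ring
  rw [h5]
  linarith

/-- One of the four quadrants. -/
private lemma tl_quad (z : ℂ) (t : ℝ) (ht : 0 ≤ t) (h : t ≤ ‖z‖) :
    ∃ j ∈ Finset.range 4, t / Real.sqrt 2 ≤ (Complex.I ^ j * z).re := by
  have h2 : 0 < Real.sqrt 2 := by positivity
  have hsq : Real.sqrt 2 ^ 2 = 2 := Real.sq_sqrt (by norm_num)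
  have hu : 0 ≤ t / Real.sqrt 2 := by positivity
  have hu2 : (t / Real.sqrt 2) ^ 2 = t ^ 2 / 2 := by rw [div_pow, hsq]
  have hz : t ^ 2 ≤ z.re ^ 2 + z.im ^ 2 := by
    have h3 : ‖z‖ ^ 2 = z.re ^ 2 + z.im ^ 2 := by
      rw [Complex.sq_norm, Complex.normSq_apply]
      ring
    rw [← h3]
    exact pow_le_pow_left₀ ht h 2
  by_contra hcon
  push Not at hcon
  have c0 := hcon 0 (by simp)
  have c1 := hcon 1 (by simp)
  have c2 := hcon 2 (by simp)
  have c3 := hcon 3 (by simp)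
  have e3 : (Complex.I ^ 3 * z).re = z.im := by
    rw [show Complex.I ^ 3 = -Complex.I by rw [pow_succ, Complex.I_sq]; ring]
    simp
  rw [e3] at c3
  simp [Complex.I_sq] at c0 c1 c2
  set u := t / Real.sqrt 2
  have f1 : z.re ^ 2 < u ^ 2 := by
    apply sq_lt_sq'
    · linarith
    · exact c0
  have f2 : z.im ^ 2 < u ^ 2 := by
    apply sq_lt_sq'
    · linarith
    · exact c3
  rw [hu2] at f1 f2
  linarith

private lemma tl_phase_j (p : ℕ) (hp : 1 ≤ p) (j : ℕ) :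
    Complex.exp (Complex.I * ((p * (j * Real.pi / (2 * p)) : ℝ) : ℂ)) = Complex.I ^ j := by
  have hp0 : (p : ℝ) ≠ 0 := by
    have : 0 < p := hp
    positivity
  have e : (p * (j * Real.pi / (2 * p)) : ℝ) = j * (Real.pi / 2) := by
    field_simp
  rw [e]
  have h1 : Complex.I * (((j * (Real.pi / 2) : ℝ)) : ℂ) = (j : ℂ) * (Real.pi / 2 * Complex.I) := by
    push_cast
    ring
  rw [h1, Complex.exp_nat_mul, Complex.exp_pi_div_two_mul_I]

end aux

theorem tail_one (p : ℕ) (hp : 1 ≤ p) : ∃ C : ℝ, 0 ≤ C ∧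
    ∀ (ι : Type) [Fintype ι] [DecidableEq ι] [Nonempty ι] (W : UG ι) (t : ℝ), 0 ≤ t →
      (haarU ι).real {V | t ≤ ‖Tp p V W‖} ≤
        4 * Real.exp (-((Fintype.card ι : ℝ) ^ 2 * (t ^ 2 / (2 * p) -
          C * (t * (t + 1 / (Fintype.card ι : ℝ)) ^ 2)))) := by
  obtain ⟨C, hC, h⟩ := two_point p hp
  refine ⟨8 * C, by positivity, ?_⟩
  intro ι _ _ _ W t ht
  set n : ℝ := (Fintype.card ι : ℝ) with hn
  have hn0 : 0 < n := by
    rw [hn]
    exact_mod_cast Fintype.card_pos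
  have hp1 : (1 : ℝ) ≤ p := by exact_mod_cast hp
  have hp0 : (0 : ℝ) < p := by linarith
  have h2 : 0 < Real.sqrt 2 := by positivity
  have hsq : Real.sqrt 2 ^ 2 = 2 := Real.sq_sqrt (by norm_num)
  have hs1 : 1 ≤ Real.sqrt 2 := by
    rw [show (1 : ℝ) = Real.sqrt 1 by simp]
    exact Real.sqrt_le_sqrt (by norm_num)
  set u := t / Real.sqrt 2 with hu
  have hu0 : 0 ≤ u := by positivity
  have hut : u ≤ t := div_le_self ht hs1
  have hu2 : u ^ 2 = t ^ 2 / 2 := by rw [hu, div_pow, hsq]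
  set l : ℝ := 2 * u / p with hl
  have hl0 : 0 ≤ l := by positivity
  have hlu : l ≤ 2 * u := by
    rw [hl]
    exact div_le_self (by positivity) hp1
  have hsub : {V : UG ι | t ≤ ‖Tp p V W‖} ⊆ ⋃ j ∈ Finset.range 4,
      {V : UG ι | l * u ≤ l * (utr ((phU (j * Real.pi / (2 * p)) * V * W) ^ p)).re +
        0 * (utr ((phU (j * Real.pi / (2 * p)) * V * W) ^ p)).re} := by
    intro V hV
    obtain ⟨j, hj, hj2⟩ := tl_quad (Tp p V W) t ht hV
    rw [Set.mem_iUnion₂]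
    refine ⟨j, hj, ?_⟩
    rw [Set.mem_ofPred_eq, zero_mul, add_zero]
    apply mul_le_mul_of_nonneg_left _ hl0
    rw [mul_assoc, tl_phase_pow, tl_phase_j p hp]
    exact hj2
  have hb : ∀ j ∈ Finset.range 4, (haarU ι).real
      {V : UG ι | l * u ≤ l * (utr ((phU (j * Real.pi / (2 * p)) * V * W) ^ p)).re +
        0 * (utr ((phU (j * Real.pi / (2 * p)) * V * W) ^ p)).re} ≤
      Real.exp (-(n ^ 2 * (t ^ 2 / (2 * p) - 8 * C * (t * (t + 1 / n) ^ 2)))) := by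
    intro j _
    refine (tl_chern (h ι) (phU (j * Real.pi / (2 * p))) W W l 0 (l * u)).trans ?_
    apply Real.exp_le_exp.2
    apply neg_le_neg
    apply mul_le_mul_of_nonneg_left _ (by positivity)
    rw [abs_zero, add_zero, abs_of_nonneg hl0]
    have e1 : l * u - p / 4 * (l ^ 2 + 0 ^ 2 + 2 * l * 0 * (utr (W⁻¹ * W) ^ p).re) =
        t ^ 2 / (2 * p) := by
      have : l * u - p / 4 * (l ^ 2 + 0 ^ 2 + 2 * l * 0 * (utr (W⁻¹ * W) ^ p).re) = u ^ 2 / p := by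
        rw [hl]
        field_simp
        ring
      rw [this, hu2]
      field_simp
    rw [← hn, e1]
    have e2 : l * (l + 1 / n) ^ 2 ≤ 8 * (t * (t + 1 / n) ^ 2) := by
      have h1n : 0 ≤ 1 / n := by positivity
      calc l * (l + 1 / n) ^ 2 ≤ (2 * t) * (2 * (t + 1 / n)) ^ 2 := by
            apply mul_le_mul (by linarith) _ (by positivity) (by positivity)
            exact pow_le_pow_left₀ (by positivity) (by linarith) 2
        _ = _ := by ring
    have e3 := mul_le_mul_of_nonneg_left e2 hC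
    linarith
  calc (haarU ι).real {V | t ≤ ‖Tp p V W‖} ≤ _ := measureReal_mono hsub (measure_ne_top _ _)
    _ ≤ _ := measureReal_biUnion_finset_le _ _
    _ ≤ ∑ _j ∈ Finset.range 4,
        Real.exp (-(n ^ 2 * (t ^ 2 / (2 * p) - 8 * C * (t * (t + 1 / n) ^ 2)))) :=
      Finset.sum_le_sum hb
    _ = _ := by simp

private lemma tl_pow_sub_one (z : ℂ) (hz : ‖z‖ ≤ 1) (p : ℕ) : ‖z ^ p - 1‖ ≤ p * ‖z - 1‖ := by
  induction p with
  | zero => simp
  | succ p ih =>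
    have e : z ^ (p + 1) - 1 = z ^ p * (z - 1) + (z ^ p - 1) := by ring
    rw [e]
    refine (norm_add_le _ _).trans ?_
    rw [norm_mul, norm_pow]
    have h1 : ‖z‖ ^ p ≤ 1 := pow_le_one₀ (norm_nonneg _) hz
    have h2 := mul_le_mul_of_nonneg_right h1 (norm_nonneg (z - 1))
    push_cast
    linarith

theorem tail_diff (p : ℕ) (hp : 1 ≤ p) : ∃ C : ℝ, 0 ≤ C ∧
    ∀ (ι : Type) [Fintype ι] [DecidableEq ι] [Nonempty ι] (y x : UG ι) (β t : ℝ), 0 < β → β ≤ 1 →
      ‖utr (y⁻¹ * x) - 1‖ ≤ β → 0 ≤ t →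
      (haarU ι).real {V | t ≤ ‖Tp p V y - Tp p V x‖} ≤
        4 * Real.exp (-((Fintype.card ι : ℝ) ^ 2 * (t ^ 2 / (4 * p ^ 2 * β) -
          C * (t / β * (t / β + 1 / (Fintype.card ι : ℝ)) ^ 2)))) := by
  obtain ⟨C, hC, h⟩ := two_point p hp
  refine ⟨8 * C, by positivity, ?_⟩
  intro ι _ _ _ y x β t hβ hβ1 hq ht
  set n : ℝ := (Fintype.card ι : ℝ) with hn
  have hn0 : 0 < n := by
    rw [hn]
    exact_mod_cast Fintype.card_pos
  have hp1 : (1 : ℝ) ≤ p := by exact_mod_cast hp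
  have hp0 : (0 : ℝ) < p := by linarith
  have h2 : 0 < Real.sqrt 2 := by positivity
  have hsq : Real.sqrt 2 ^ 2 = 2 := Real.sq_sqrt (by norm_num)
  have hs1 : 1 ≤ Real.sqrt 2 := by
    rw [show (1 : ℝ) = Real.sqrt 1 by simp]
    exact Real.sqrt_le_sqrt (by norm_num)
  set u := t / Real.sqrt 2 with hu
  have hu0 : 0 ≤ u := by positivity
  have hut : u ≤ t := div_le_self ht hs1
  have hu2 : u ^ 2 = t ^ 2 / 2 := by rw [hu, div_pow, hsq]
  set l : ℝ := u / (p ^ 2 * β) with hl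
  have hl0 : 0 ≤ l := by positivity
  have hlu : l ≤ t / β := by
    rw [hl]
    apply div_le_div₀ ht hut hβ
    have : (1 : ℝ) ≤ (p : ℝ) ^ 2 := one_le_pow₀ hp1
    nlinarith
  have hsub : {V : UG ι | t ≤ ‖Tp p V y - Tp p V x‖} ⊆ ⋃ j ∈ Finset.range 4,
      {V : UG ι | l * u ≤ l * (utr ((phU (j * Real.pi / (2 * p)) * V * y) ^ p)).re +
        (-l) * (utr ((phU (j * Real.pi / (2 * p)) * V * x) ^ p)).re} := by
    intro V hV
    obtain ⟨j, hj, hj2⟩ := tl_quad (Tp p V y - Tp p V x) t ht hV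
    rw [Set.mem_iUnion₂]
    refine ⟨j, hj, ?_⟩
    rw [Set.mem_ofPred_eq]
    rw [mul_assoc, mul_assoc, tl_phase_pow, tl_phase_pow, tl_phase_j p hp]
    have e1 : l * (Complex.I ^ j * utr ((V * y) ^ p)).re +
        (-l) * (Complex.I ^ j * utr ((V * x) ^ p)).re =
        l * (Complex.I ^ j * (Tp p V y - Tp p V x)).re := by
      unfold Tp
      rw [mul_sub, Complex.sub_re]
      ring
    rw [e1]
    exact mul_le_mul_of_nonneg_left hj2 hl0
  have hr : 1 - p * β ≤ (utr (y⁻¹ * x) ^ p).re := by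
    have h3 := tl_pow_sub_one (utr (y⁻¹ * x)) (norm_utr_le_one _) p
    have h4 := (Complex.abs_re_le_norm (utr (y⁻¹ * x) ^ p - 1)).trans h3
    rw [Complex.sub_re, Complex.one_re] at h4
    have h5 := (abs_le.1 h4).1
    have h6 := mul_le_mul_of_nonneg_left hq hp0.le
    linarith
  have hb : ∀ j ∈ Finset.range 4, (haarU ι).real
      {V : UG ι | l * u ≤ l * (utr ((phU (j * Real.pi / (2 * p)) * V * y) ^ p)).re +
        (-l) * (utr ((phU (j * Real.pi / (2 * p)) * V * x) ^ p)).re} ≤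
      Real.exp (-(n ^ 2 * (t ^ 2 / (4 * p ^ 2 * β) -
        8 * C * (t / β * (t / β + 1 / n) ^ 2)))) := by
    intro j _
    refine (tl_chern (h ι) (phU (j * Real.pi / (2 * p))) y x l (-l) (l * u)).trans ?_
    apply Real.exp_le_exp.2
    apply neg_le_neg
    apply mul_le_mul_of_nonneg_left _ (by positivity)
    rw [abs_neg, abs_of_nonneg hl0]
    have e1 : t ^ 2 / (4 * p ^ 2 * β) ≤
        l * u - p / 4 * (l ^ 2 + (-l) ^ 2 + 2 * l * (-l) * (utr (y⁻¹ * x) ^ p).re) := by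
      have e2 : p / 4 * (l ^ 2 + (-l) ^ 2 + 2 * l * (-l) * (utr (y⁻¹ * x) ^ p).re) =
          p / 2 * l ^ 2 * (1 - (utr (y⁻¹ * x) ^ p).re) := by ring
      have e3 : p / 2 * l ^ 2 * (1 - (utr (y⁻¹ * x) ^ p).re) ≤ p / 2 * l ^ 2 * (p * β) := by
        apply mul_le_mul_of_nonneg_left (by linarith) (by positivity)
      have e4 : l * u - p / 2 * l ^ 2 * (p * β) = t ^ 2 / (4 * p ^ 2 * β) := by
        have : l * u - p / 2 * l ^ 2 * (p * β) = u ^ 2 / (2 * p ^ 2 * β) := by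
          rw [hl]
          field_simp
          ring
        rw [this, hu2]
        field_simp
        ring
      rw [e2]
      linarith
    rw [← hn]
    have e2 : (l + l) * (l + l + 1 / n) ^ 2 ≤ 8 * (t / β * (t / β + 1 / n) ^ 2) := by
      have h1n : 0 ≤ 1 / n := by positivity
      have htb : 0 ≤ t / β := by positivity
      calc (l + l) * (l + l + 1 / n) ^ 2 ≤ (2 * (t / β)) * (2 * (t / β + 1 / n)) ^ 2 := by
            apply mul_le_mul (by linarith) _ (by positivity) (by positivity)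
            exact pow_le_pow_left₀ (by positivity) (by linarith) 2
        _ = _ := by ring
    have e3 := mul_le_mul_of_nonneg_left e2 hC
    linarith
  calc (haarU ι).real {V | t ≤ ‖Tp p V y - Tp p V x‖} ≤ _ := measureReal_mono hsub (measure_ne_top _ _)
    _ ≤ _ := measureReal_biUnion_finset_le _ _
    _ ≤ ∑ _j ∈ Finset.range 4,
        Real.exp (-(n ^ 2 * (t ^ 2 / (4 * p ^ 2 * β) -
          8 * C * (t / β * (t / β + 1 / n) ^ 2)))) :=
      Finset.sum_le_sum hb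
    _ = _ := by simp

theorem tail_pair (p : ℕ) (hp : 1 ≤ p) : ∃ C : ℝ, 0 ≤ C ∧
    ∀ (ι : Type) [Fintype ι] [DecidableEq ι] [Nonempty ι] (W W' : UG ι) (t : ℝ), 0 ≤ t →
      (haarU ι).real {V | t ≤ (Tp p V W).re ∧ t ≤ (Tp p V W').re} ≤
        Real.exp (-((Fintype.card ι : ℝ) ^ 2 *
          (2 * t ^ 2 / (p * (1 + ‖utr (W⁻¹ * W')‖ ^ p)) -
          C * (t * (t + 1 / (Fintype.card ι : ℝ)) ^ 2)))) := by
  obtain ⟨C, hC, h⟩ := two_point p hp
  refine ⟨64 * C, by positivity, ?_⟩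
  intro ι _ _ _ W W' t ht
  set n : ℝ := (Fintype.card ι : ℝ) with hn
  have hn0 : 0 < n := by
    rw [hn]
    exact_mod_cast Fintype.card_pos
  have hp1 : (1 : ℝ) ≤ p := by exact_mod_cast hp
  have hp0 : (0 : ℝ) < p := by linarith
  set κ : ℝ := ‖utr (W⁻¹ * W')‖ ^ p with hκ
  have hκ0 : 0 ≤ κ := by positivity
  have hr : (utr (W⁻¹ * W') ^ p).re ≤ κ := by
    rw [hκ, ← norm_pow]
    exact Complex.re_le_norm _
  set l : ℝ := 2 * t / (p * (1 + κ)) with hl
  have hl0 : 0 ≤ l := by positivity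
  have hlu : l ≤ 2 * t := by
    rw [hl]
    apply div_le_self (by positivity)
    nlinarith
  have hsub : {V : UG ι | t ≤ (Tp p V W).re ∧ t ≤ (Tp p V W').re} ⊆
      {V : UG ι | 2 * l * t ≤ l * (utr ((1 * V * W) ^ p)).re +
        l * (utr ((1 * V * W') ^ p)).re} := by
    rintro V ⟨h1, h2⟩
    rw [Set.mem_ofPred_eq, one_mul]
    have h3 := mul_le_mul_of_nonneg_left h1 hl0
    have h4 := mul_le_mul_of_nonneg_left h2 hl0
    unfold Tp at h3 h4
    linarith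
  refine (measureReal_mono hsub (measure_ne_top _ _)).trans ((tl_chern (h ι) 1 W W' l l (2 * l * t)).trans ?_)
  apply Real.exp_le_exp.2
  apply neg_le_neg
  apply mul_le_mul_of_nonneg_left _ (by positivity)
  rw [abs_of_nonneg hl0]
  have e1 : 2 * t ^ 2 / (p * (1 + κ)) ≤
      2 * l * t - p / 4 * (l ^ 2 + l ^ 2 + 2 * l * l * (utr (W⁻¹ * W') ^ p).re) := by
    have e2 : p / 4 * (l ^ 2 + l ^ 2 + 2 * l * l * (utr (W⁻¹ * W') ^ p).re) =
        p / 2 * l ^ 2 * (1 + (utr (W⁻¹ * W') ^ p).re) := by ring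
    have e3 : p / 2 * l ^ 2 * (1 + (utr (W⁻¹ * W') ^ p).re) ≤ p / 2 * l ^ 2 * (1 + κ) := by
      apply mul_le_mul_of_nonneg_left (by linarith) (by positivity)
    have e4 : 2 * l * t - p / 2 * l ^ 2 * (1 + κ) = 2 * t ^ 2 / (p * (1 + κ)) := by
      rw [hl]
      have : (1 + κ) ≠ 0 := by positivity
      field_simp
      ring
    rw [e2]
    linarith
  rw [← hn]
  have e2 : (l + l) * (l + l + 1 / n) ^ 2 ≤ 64 * (t * (t + 1 / n) ^ 2) := by
    have h1n : 0 ≤ 1 / n := by positivity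
    calc (l + l) * (l + l + 1 / n) ^ 2 ≤ (4 * t) * (4 * (t + 1 / n)) ^ 2 := by
          apply mul_le_mul (by linarith) _ (by positivity) (by positivity)
          exact pow_le_pow_left₀ (by positivity) (by linarith) 2
      _ = _ := by ring
  have e3 := mul_le_mul_of_nonneg_left e2 hC
  linarith

end Pool.Agent.OGP
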