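import Pool.Agent.OGP.Lower
import Pool.Agent.OGP.Tails
import Pool.Agent.OGP.Pack
import Pool.Agent.OGP.Sup

/-!
# OGP GSM: second moment over a packing

`n = N k + r`, `r < k`, `M = k N²`: `k M ≤ n² ≤ k M (1 + 1/N)²`.  `t = √(0.45) √(p log p/k)`.
Let `b = 4 log p / p` (`< 1` for large `p`) and `s` the set of `packing`:
`log card s ≥ (M/2) log (1/(2 e b)) - log (3/√b + 1)
 = M ((1/2) log p - (1/2) log (8 e log p)) - log (3/√b + 1)`, `3/√b + 1 ≤ 3√p + 1`.
Let `X = #{x ∈ s : Re Tp p V (emb x) ≥ t}`.  The law of `Tp p V (emb x)` does not depend on `x`;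
`P₁ = P (Re Tp p V 1 ≥ t)`; for `x ≠ y` in `s`, `P₂(x,y) ≤ P₂` with `tail_pair`:
`|utr (emb (x⁻¹ y))| ≤ |qK (x⁻¹y)| + r/(N k) ≤ 1 - b + 1/N ≤ 1 - b/2` for `N ≥ N₀(p)`
(`norm_utr_emb_le`), `κ ≤ (1 - b/2)^p ≤ e^{-bp/2} = p⁻²`.
Cauchy-Schwarz: `P (ST ≥ t) ≥ P (X > 0) ≥ (E X)²/E X² ≥ 1/(1/(card s P₁) + P₂/P₁²)`.
Errors: `n² C t (t + 1/n)² ≤ M (1 + 1/N)² C τ (τ+1)²/√k`, `τ = √(0.45 p log p)` (`1/n ≤ 1/√k`): at
most `ε M` for `k ≥ k₀(p, ε)`.  With `ζ = 1/p²`, `lower_tail` applies (`n² ζ² t²/p ≥ M 0.45 log p/p⁴`,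
errors at most half of it for `k ≥ k₀(p)`, and `M ≥ k` is large), and gives
`P₁ ≥ (1/2) exp (-(n² t²/p)(1 + 7/p²) - ε M)`, `n² t²/p ≤ 0.45 (1+1/N)² M log p`.  So
* `1/(card s P₁) ≤ 2 (3√p + 1) exp (M (0.45 (1+1/N)² (1 + 7/p²) log p + ε - (1/2) log p
   + (1/2) log (8 e log p))) ≤ 1` for `p` large, `N ≥ N₀(p)`, `k ≥ k₀(p)`;
* `P₂/P₁² ≤ 4 exp (n² (2t²/p)(1 + 7/p² - 1/(1 + p⁻²)) + 3 ε M) ≤ 4 exp (M (2 log p · 8/p² + 3ε))
  ≤ 4 exp (M/(2p))` for `p` large (`16 log p/p² ≤ 1/(4p)`) and `3 ε ≤ 1/(4p)`.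
Hence `P (ST ≥ t) ≥ 1/(1 + 4 e^{M/(2p)}) ≥ e^{-M/(2p)}/5 ≥ e^{-M/p}` for `M ≥ k ≥ k₀(p)`.
-/

open Matrix MeasureTheory
namespace Pool.Agent.OGP

private lemma second_moment {Ω : Type*} [MeasurableSpace Ω] (μ : Measure Ω)
    [IsProbabilityMeasure μ] {κ : Type*} (s : Finset κ) (A : κ → Set Ω)
    (hA : ∀ x, MeasurableSet (A x)) (T : Set Ω) (hT : ∀ x ∈ s, A x ⊆ T) {P₁ P₂ : ℝ}
    (h1 : ∀ x ∈ s, μ.real (A x) = P₁)
    (h2 : ∀ x ∈ s, ∀ y ∈ s, x ≠ y → μ.real (A x ∩ A y) ≤ P₂) (hP₁ : 0 < P₁) (hP₂ : 0 ≤ P₂)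
    (hs : 0 < (s.card : ℝ)) :
    1 / (1 / (s.card * P₁) + P₂ / P₁ ^ 2) ≤ μ.real T := by
  classical
  set m : ℝ := (s.card : ℝ) with hm
  set X : Ω → ℝ := fun ω => ∑ x ∈ s, (A x).indicator (fun _ => (1 : ℝ)) ω with hX
  set B : Set Ω := ⋃ x ∈ s, A x with hB
  have hBm : MeasurableSet B := Finset.measurableSet_biUnion s fun x _ => hA x
  have hint : ∀ C : Set Ω, MeasurableSet C → Integrable (C.indicator fun _ => (1 : ℝ)) μ :=
    fun C hC => (integrable_const 1).indicator hC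
  have hIi : ∀ C : Set Ω, MeasurableSet C → ∫ ω, C.indicator (fun _ => (1 : ℝ)) ω ∂μ = μ.real C :=
    fun C hC => by
      rw [integral_indicator hC, setIntegral_const, smul_eq_mul, mul_one]
  have hEX : ∫ ω, X ω ∂μ = m * P₁ := by
    rw [hX, integral_finsetSum s fun x _ => hint (A x) (hA x)]
    rw [Finset.sum_congr rfl fun x hx => (hIi (A x) (hA x)).trans (h1 x hx), Finset.sum_const,
      nsmul_eq_mul]
  have hX2 : ∀ ω, X ω ^ 2 = ∑ x ∈ s, ∑ y ∈ s, (A x ∩ A y).indicator (fun _ => (1 : ℝ)) ω := by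
    intro ω
    rw [hX, sq, Finset.sum_mul_sum]
    refine Finset.sum_congr rfl fun x _ => Finset.sum_congr rfl fun y _ => ?_
    by_cases hx : ω ∈ A x <;> by_cases hy : ω ∈ A y <;> simp [hx, hy]
  have hEX2 : ∫ ω, X ω ^ 2 ∂μ ≤ m * P₁ + m ^ 2 * P₂ := by
    simp only [hX2]
    rw [integral_finsetSum s fun x _ => integrable_finsetSum s fun y _ =>
      hint _ ((hA x).inter (hA y))]
    have h3 : ∀ x ∈ s, ∫ ω, ∑ y ∈ s, (A x ∩ A y).indicator (fun _ => (1 : ℝ)) ω ∂μ ≤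
        P₁ + m * P₂ := by
      intro x hx
      rw [integral_finsetSum s fun y _ => hint _ ((hA x).inter (hA y))]
      have h4 : ∀ y ∈ s, ∫ ω, (A x ∩ A y).indicator (fun _ => (1 : ℝ)) ω ∂μ ≤
          (if y = x then P₁ else 0) + P₂ := by
        intro y hy
        rw [hIi _ ((hA x).inter (hA y))]
        split_ifs with h
        · rw [h, Set.inter_self, h1 x hx]
          linarith
        · rw [zero_add]
          exact h2 x hx y hy (fun e => h e.symm)
      refine (Finset.sum_le_sum h4).trans (le_of_eq ?_)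
      rw [Finset.sum_add_distrib, Finset.sum_ite_eq', if_pos hx, Finset.sum_const, nsmul_eq_mul]
    refine (Finset.sum_le_sum h3).trans (le_of_eq ?_)
    rw [Finset.sum_const, nsmul_eq_mul]
    ring
  have hpt : ∀ c : ℝ, ∀ ω, 2 * c * X ω - c ^ 2 * X ω ^ 2 ≤ B.indicator (fun _ => (1 : ℝ)) ω := by
    intro c ω
    by_cases hω : ω ∈ B
    · rw [Set.indicator_of_mem hω]
      nlinarith [sq_nonneg (1 - c * X ω)]
    · rw [Set.indicator_of_notMem hω]
      have : X ω = 0 := by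
        rw [hX]
        refine Finset.sum_eq_zero fun x hx => ?_
        rw [Set.indicator_of_notMem]
        intro h
        exact hω (Set.mem_biUnion hx h)
      rw [this]
      norm_num
  have hXi : Integrable X μ := integrable_finsetSum s fun x _ => hint (A x) (hA x)
  have hX2i : Integrable (fun ω => X ω ^ 2) μ := by
    simp only [hX2]
    exact integrable_finsetSum s fun x _ => integrable_finsetSum s fun y _ =>
      hint _ ((hA x).inter (hA y))
  have hmain : ∀ c : ℝ, 2 * c * (m * P₁) - c ^ 2 * (m * P₁ + m ^ 2 * P₂) ≤ μ.real B := by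
    intro c
    have h3 : ∫ ω, (2 * c * X ω - c ^ 2 * X ω ^ 2) ∂μ ≤ ∫ ω, B.indicator (fun _ => (1 : ℝ)) ω ∂μ :=
      integral_mono ((hXi.const_mul _).sub (hX2i.const_mul _)) (hint B hBm) (hpt c)
    rw [hIi B hBm, integral_sub (hXi.const_mul _) (hX2i.const_mul _), integral_const_mul,
      integral_const_mul, hEX] at h3
    nlinarith [sq_nonneg c]
  have hBT : μ.real B ≤ μ.real T := measureReal_mono (Set.iUnion₂_subset hT)
  have hD : 0 < P₁ + m * P₂ := by positivity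
  refine le_trans (le_of_eq ?_) ((hmain (P₁ / (P₁ + m * P₂))).trans hBT)
  have e1 : 1 / (m * P₁) + P₂ / P₁ ^ 2 = (P₁ + m * P₂) / (m * P₁ ^ 2) := by
    field_simp
  rw [e1, one_div_div]
  have e2 : m * P₁ + m ^ 2 * P₂ = m * (P₁ + m * P₂) := by ring
  rw [e2]
  field_simp
  ring

private lemma measurable_Tp_re {ι : Type} [Fintype ι] [DecidableEq ι] (p : ℕ) (W : UG ι) (t : ℝ) :
    MeasurableSet {V : UG ι | t ≤ (Tp p V W).re} := by
  have h1 : Continuous fun V : UG ι => Tp p V W := by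
    have h := continuous_Tp (ι := ι) p
    have h2 : Continuous fun V : UG ι => (V, W) := continuous_id.prodMk continuous_const
    have h3 := h.comp h2
    exact h3
  have h2 : Continuous fun V : UG ι => (Tp p V W).re := Complex.continuous_re.comp h1
  exact (isClosed_le continuous_const h2).measurableSet

private lemma law_Tp {ι : Type} [Fintype ι] [DecidableEq ι] (p : ℕ) (W : UG ι) (t : ℝ) :
    (haarU ι).real {V : UG ι | t ≤ (Tp p V W).re} =
      (haarU ι).real {A : UG ι | t ≤ (utr (A ^ p)).re} := by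
  unfold Measure.real
  congr 1
  exact measure_preimage_mul_right (haarU ι) W {A : UG ι | t ≤ (utr (A ^ p)).re}

private lemma gsm_core {p k N r : ℕ} (hk : 1 ≤ k) (hN : 1 ≤ N) (hr : r < k)
    {b t l P2 : ℝ} (hb : 0 < b) (hb1 : b < 1) (hl : 0 < l) (hP2 : 0 ≤ P2)
    (hlow : ∀ W : UG (JJ k N r), l ≤ (haarU (JJ k N r)).real {V | t ≤ (Tp p V W).re})
    (hpair : ∀ W W' : UG (JJ k N r), ‖utr (W⁻¹ * W')‖ ≤ 1 - b + 1 / (N : ℝ) →
      (haarU (JJ k N r)).real {V | t ≤ (Tp p V W).re ∧ t ≤ (Tp p V W').re} ≤ P2) :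
    1 / ((3 / Real.sqrt b + 1) *
        Real.exp ((k : ℝ) * (N : ℝ) ^ 2 / 2 * Real.log (2 * Real.exp 1 * b)) / l + P2 / l ^ 2) ≤
      (haarU (JJ k N r)).real {V | t ≤ ST p k N r V} := by
  obtain ⟨s, hs, hcard⟩ := packing (k := k) (N := N) hk hN hb hb1
  set S : ℝ := (3 / Real.sqrt b + 1) *
        Real.exp ((k : ℝ) * (N : ℝ) ^ 2 / 2 * Real.log (2 * Real.exp 1 * b)) with hS
  have hS0 : 0 < S := by positivity
  have hc : 0 < (s.card : ℝ) := by
    rcases Nat.eq_zero_or_pos s.card with h | h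
    · rw [h, Nat.cast_zero, zero_mul] at hcard
      linarith
    · exact_mod_cast h
  set P₁ : ℝ := (haarU (JJ k N r)).real {A : UG (JJ k N r) | t ≤ (utr (A ^ p)).re} with hP₁
  have hlP : l ≤ P₁ := by
    rw [hP₁, ← law_Tp p 1 t]
    exact hlow 1
  have hP₁0 : 0 < P₁ := hl.trans_le hlP
  have h := second_moment (haarU (JJ k N r)) s
    (fun x => {V : UG (JJ k N r) | t ≤ (Tp p V (emb k N r x)).re})
    (fun x => measurable_Tp_re p _ t) {V | t ≤ ST p k N r V}
    (fun x _ V hV => le_trans hV ((Complex.re_le_norm _).trans (le_ST V x)))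
    (P₁ := P₁) (P₂ := P2) (fun x _ => law_Tp p _ t) (fun x hx y hy hxy => by
      refine hpair _ _ ?_
      rw [← map_inv, ← map_mul]
      refine (norm_utr_emb_le hk hN _).trans ?_
      refine add_le_add (hs x hx y hy hxy).le ?_
      have hN0 : (0 : ℝ) < N := by exact_mod_cast hN
      have hk0 : (0 : ℝ) < k := by exact_mod_cast hk
      have hrk : (r : ℝ) ≤ k := by exact_mod_cast hr.le
      rw [div_le_div_iff₀ (by positivity) hN0]
      nlinarith) hP₁0 hP2 hc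
  refine le_trans ?_ h
  have h1 : 1 / ((s.card : ℝ) * P₁) ≤ S / l := by
    rw [div_le_div_iff₀ (by positivity) hl]
    calc 1 * l ≤ ((s.card : ℝ) * S) * P₁ := mul_le_mul hcard hlP hl.le (by positivity)
      _ = S * ((s.card : ℝ) * P₁) := by ring
  have h2 : P2 / P₁ ^ 2 ≤ P2 / l ^ 2 :=
    div_le_div_of_nonneg_left hP2 (by positivity) (pow_le_pow_left₀ hl.le hlP 2)
  have h3 : 0 < 1 / ((s.card : ℝ) * P₁) + P2 / P₁ ^ 2 := by positivity
  exact one_div_le_one_div_of_le h3 (add_le_add h1 h2)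

/-- Facts about large `p`. -/
private lemma large_p : ∃ p₀ : ℕ, ∀ p : ℕ, p₀ ≤ p → 64 ≤ (p : ℝ) ∧ 1 ≤ Real.log p ∧
    64 * Real.log p ≤ p ∧ Real.log (8 * Real.exp 1 * Real.log p) ≤ Real.log p / 50 := by
  have h1 : ∀ᶠ x : ℝ in Filter.atTop, 64 ≤ x := Filter.eventually_ge_atTop _
  have h2 : ∀ᶠ x : ℝ in Filter.atTop, 700 ≤ Real.log x :=
    Real.tendsto_log_atTop.eventually_ge_atTop 700
  have h3 : ∀ᶠ x : ℝ in Filter.atTop, ‖Real.log x‖ ≤ 1 / 64 * ‖x‖ :=
    Real.isLittleO_log_id_atTop.def (by norm_num)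
  have h4 := tendsto_natCast_atTop_atTop (R := ℝ) |>.eventually (h1.and (h2.and h3))
  obtain ⟨p₀, hp₀⟩ := Filter.eventually_atTop.1 h4
  refine ⟨p₀, fun p hp => ?_⟩
  obtain ⟨a1, a2, a3⟩ := hp₀ p hp
  refine ⟨a1, by linarith, ?_, ?_⟩
  · rw [Real.norm_eq_abs, Real.norm_eq_abs, abs_of_nonneg (by linarith : (0:ℝ) ≤ Real.log p),
      abs_of_nonneg (by linarith : (0:ℝ) ≤ (p:ℝ))] at a3
    linarith
  · set L := Real.log (p : ℝ) with hL
    have hL0 : 0 < L := by linarith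
    have e1 : 8 * Real.exp 1 * L = (L / 100) * (800 * Real.exp 1) := by ring
    rw [e1, Real.log_mul (by positivity) (by positivity),
      Real.log_mul (by norm_num) (Real.exp_pos 1).ne', Real.log_exp]
    have h5 : Real.log (L / 100) ≤ L / 100 - 1 := Real.log_le_sub_one_of_pos (by positivity)
    have h6 : Real.log 800 ≤ 7 := by
      rw [Real.log_le_iff_le_exp (by norm_num)]
      have h7 : (2.7 : ℝ) ≤ Real.exp 1 := by
        have := Real.exp_one_gt_d9
        linarith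
      have h8 : Real.exp 7 = Real.exp 1 ^ 7 := by
        rw [← Real.exp_nat_mul]
        norm_num
      rw [h8]
      have h9 : (2.7 : ℝ) ^ 7 ≤ Real.exp 1 ^ 7 := pow_le_pow_left₀ (by norm_num) h7 7
      norm_num at h9 ⊢
      linarith
    linarith

/-- The error term. -/
private lemma err_le {C K NN R n M p L ε : ℝ} (hC : 0 ≤ C) (hK : 1 ≤ K) (hNN : 1 ≤ NN)
    (hR : 0 ≤ R) (hRK : R ≤ K) (hn : n = NN * K + R) (hM : M = K * NN ^ 2) (hp : 1 ≤ p)
    (hL : 0 ≤ L)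
    (hk1 : 4 * C * (Real.sqrt (45 / 100 * (p * L)) *
      (Real.sqrt (45 / 100 * (p * L)) + 1) ^ 2) ≤ ε * Real.sqrt K) :
    n ^ 2 * (C * (Real.sqrt (45 / 100 * (p * L / K)) *
      (Real.sqrt (45 / 100 * (p * L / K)) + 1 / n) ^ 2)) ≤ ε * M := by
  set τ := Real.sqrt (45 / 100 * (p * L)) with hτ
  have hτ0 : 0 ≤ τ := Real.sqrt_nonneg _
  have hK0 : 0 < K := by linarith
  set q := Real.sqrt K with hq
  have hq0 : 0 < q := Real.sqrt_pos.2 hK0
  have hqq : q ^ 2 = K := Real.sq_sqrt hK0.le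
  have hq1 : 1 ≤ q := by
    rw [hq]
    exact Real.one_le_sqrt.2 hK
  have ht : Real.sqrt (45 / 100 * (p * L / K)) = τ / q := by
    rw [hτ, hq, ← Real.sqrt_div (by positivity)]
    congr 1
    ring
  rw [ht]
  have hn0 : K ≤ n := by
    rw [hn]
    nlinarith
  have hn1 : 0 < n := by linarith
  have h1n : 1 / n ≤ 1 / q := by
    refine one_div_le_one_div_of_le hq0 ?_
    nlinarith
  have hsum : τ / q + 1 / n ≤ (τ + 1) / q := by
    rw [add_div]
    linarith
  have hn2 : n ^ 2 ≤ 4 * K * M := by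
    have h1 : n ≤ (NN + 1) * K := by
      rw [hn]
      nlinarith
    have h2 : n ≤ 2 * NN * K := by nlinarith
    calc n ^ 2 ≤ (2 * NN * K) ^ 2 := pow_le_pow_left₀ hn1.le h2 2
      _ = 4 * K * M := by rw [hM]; ring
  have h3 : (τ / q + 1 / n) ^ 2 ≤ ((τ + 1) / q) ^ 2 := by
    refine pow_le_pow_left₀ ?_ hsum 2
    positivity
  have h4 : τ / q * (τ / q + 1 / n) ^ 2 ≤ τ / q * ((τ + 1) / q) ^ 2 :=
    mul_le_mul_of_nonneg_left h3 (by positivity)
  have hM0 : 0 ≤ M := by rw [hM]; positivity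
  calc n ^ 2 * (C * (τ / q * (τ / q + 1 / n) ^ 2))
      ≤ (4 * K * M) * (C * (τ / q * ((τ + 1) / q) ^ 2)) := by
        refine mul_le_mul hn2 (mul_le_mul_of_nonneg_left h4 hC) ?_ (by positivity)
        positivity
    _ = M * (4 * C * (τ * (τ + 1) ^ 2)) / q := by
        rw [← hqq]
        field_simp
    _ ≤ M * (ε * q) / q := by
        refine div_le_div_of_nonneg_right (mul_le_mul_of_nonneg_left hk1 hM0) hq0.le
    _ = ε * M := by
        field_simp

private lemma num_a {K NN R n M P L t a : ℝ} (hK1 : 1 ≤ K) (hN : 200 ≤ NN) (hR0 : 0 ≤ R)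
    (hRK : R ≤ K) (hn : n = NN * K + R) (hM : M = K * NN ^ 2) (hP : 0 < P) (hL : 0 ≤ L)
    (ht2 : t ^ 2 = 45 / 100 * (P * L / K)) (ha : a = n ^ 2 * (t ^ 2 / P)) :
    45 / 100 * L * M ≤ a ∧ a ≤ 4546 / 10000 * L * M := by
  have hK0 : 0 < K := by linarith
  have hNK : 0 < NN * K := by positivity
  have hn0 : 0 < n := by rw [hn]; linarith
  have h2 : a = n ^ 2 * (45 / 100 * L / K) := by
    rw [ha, ht2]
    field_simp
  have hM0 : 0 ≤ M := by rw [hM]; positivity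
  constructor
  · have h1 : K * M ≤ n ^ 2 := by
      have : K * M = (NN * K) ^ 2 := by rw [hM]; ring
      rw [this]
      exact pow_le_pow_left₀ hNK.le (by linarith) 2
    rw [h2]
    calc 45 / 100 * L * M = (K * M) * (45 / 100 * L / K) := by field_simp
      _ ≤ _ := mul_le_mul_of_nonneg_right h1 (by positivity)
  · have h3 : n ≤ (NN * K) * (201 / 200) := by
      rw [hn]
      have : K ≤ NN * K * (1 / 200) := by nlinarith
      linarith
    have h1 : n ^ 2 ≤ (K * M) * (201 / 200) ^ 2 := by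
      calc n ^ 2 ≤ ((NN * K) * (201 / 200)) ^ 2 := pow_le_pow_left₀ hn0.le h3 2
        _ = _ := by rw [hM]; ring
    rw [h2]
    have h6 : 0 ≤ L * M := mul_nonneg hL hM0
    calc n ^ 2 * (45 / 100 * L / K) ≤ ((K * M) * (201 / 200) ^ 2) * (45 / 100 * L / K) :=
          mul_le_mul_of_nonneg_right h1 (by positivity)
      _ = (201 / 200) ^ 2 * (45 / 100) * (L * M) := by field_simp
      _ ≤ 4546 / 10000 * (L * M) := by
          refine mul_le_mul_of_nonneg_right ?_ h6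
          norm_num
      _ = 4546 / 10000 * L * M := by ring

private lemma num_S {P L b M K a ε ζ l : ℝ} (hP : 0 < P) (hL1 : 1 ≤ L) (hM : K ≤ M) (hK : 1 ≤ K)
    (hb : b = 4 * L / P) (hLP : L = Real.log P)
    (hLL : Real.log (8 * Real.exp 1 * L) ≤ L / 50)
    (hk4 : 2 * (3 / Real.sqrt b + 1) ≤ Real.exp (1 / 50 * K))
    (ha0 : 0 ≤ a) (ha2 : a ≤ 4546 / 10000 * L * M) (hζ0 : 0 < ζ) (hζ1 : ζ ≤ 1 / 4096)
    (hε2 : ε ≤ 1 / 1000 * L)
    (hl : l = 1 / 2 * Real.exp (-(a * (1 + 7 * ζ) + ε * M))) :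
    (3 / Real.sqrt b + 1) * Real.exp (M / 2 * Real.log (2 * Real.exp 1 * b)) / l ≤ 1 := by
  have hM0 : 0 < M := by linarith
  have hl0 : 0 < l := by rw [hl]; positivity
  have hb0 : 0 < b := by rw [hb]; positivity
  have hLM : 0 ≤ L * M := by positivity
  have hlogb : Real.log (2 * Real.exp 1 * b) ≤ -(49 / 50 * L) := by
    have h1 : 2 * Real.exp 1 * b = 8 * Real.exp 1 * L / P := by
      rw [hb]
      ring
    rw [h1, Real.log_div (by positivity) (by positivity), ← hLP]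
    linarith
  have h2 : Real.exp (M / 2 * Real.log (2 * Real.exp 1 * b)) ≤
      Real.exp (-(49 / 100 * (L * M))) := by
    refine Real.exp_le_exp.2 ?_
    have h3 : M / 2 * Real.log (2 * Real.exp 1 * b) ≤ M / 2 * (-(49 / 50 * L)) :=
      mul_le_mul_of_nonneg_left hlogb (by positivity)
    refine h3.trans (le_of_eq ?_)
    ring
  have h4 : (3 / Real.sqrt b + 1) * Real.exp (M / 2 * Real.log (2 * Real.exp 1 * b)) ≤
      (3 / Real.sqrt b + 1) * Real.exp (-(49 / 100 * (L * M))) :=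
    mul_le_mul_of_nonneg_left h2 (by positivity)
  rw [div_le_one hl0]
  refine h4.trans ?_
  have h5 : a * (1 + 7 * ζ) + ε * M ≤ 46 / 100 * (L * M) := by
    have h6 : a * (1 + 7 * ζ) ≤ (4546 / 10000 * L * M) * (1 + 7 * (1 / 4096)) :=
      mul_le_mul ha2 (by linarith) (by positivity) (by positivity)
    have h7 : ε * M ≤ 1 / 1000 * L * M := mul_le_mul_of_nonneg_right hε2 hM0.le
    have h8 : (4546 / 10000 * L * M) * (1 + 7 * (1 / 4096)) =
      4546 / 10000 * (1 + 7 * (1 / 4096)) * (L * M) := by ring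
    have h9 : 1 / 1000 * L * M = 1 / 1000 * (L * M) := by ring
    have h10 : 4546 / 10000 * (1 + 7 * (1 / 4096)) * (L * M) ≤ 459 / 1000 * (L * M) := by
      refine mul_le_mul_of_nonneg_right ?_ hLM
      norm_num
    linarith
  have h6 : (3 / Real.sqrt b + 1) ≤ 1 / 2 * Real.exp (1 / 50 * K) := by linarith
  calc (3 / Real.sqrt b + 1) * Real.exp (-(49 / 100 * (L * M)))
      ≤ (1 / 2 * Real.exp (1 / 50 * K)) * Real.exp (-(49 / 100 * (L * M))) :=
        mul_le_mul_of_nonneg_right h6 (Real.exp_pos _).le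
    _ = 1 / 2 * Real.exp (1 / 50 * K + -(49 / 100 * (L * M))) := by
        rw [Real.exp_add, mul_assoc]
    _ ≤ l := by
        rw [hl]
        refine mul_le_mul_of_nonneg_left (Real.exp_le_exp.2 ?_) (by norm_num)
        have h9 : K ≤ L * M := by
          have : M ≤ L * M := by nlinarith
          linarith
        linarith

private lemma num_T {P L M a ε ζ l P2 : ℝ} (hP : 0 < P) (hL1 : 1 ≤ L) (hM0 : 0 < M)
    (ha2 : a ≤ 4546 / 10000 * L * M) (hζ0 : 0 < ζ)
    (hζL : ζ * L ≤ 1 / (64 * P)) (hε1 : ε ≤ 1 / (320 * P))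
    (hl : l = 1 / 2 * Real.exp (-(a * (1 + 7 * ζ) + ε * M)))
    (hP2 : P2 = Real.exp (-(2 * a * (1 - ζ) - ε * M))) :
    P2 / l ^ 2 ≤ 4 * Real.exp (M / (2 * P)) := by
  have h1 : l ^ 2 = 1 / 4 * Real.exp (-(2 * (a * (1 + 7 * ζ) + ε * M))) := by
    rw [hl, mul_pow, ← Real.exp_nat_mul]
    congr 1
    · norm_num
    · congr 1
      push_cast
      ring
  rw [h1, div_le_iff₀ (by positivity)]
  have h2 : 4 * Real.exp (M / (2 * P)) * (1 / 4 * Real.exp (-(2 * (a * (1 + 7 * ζ) + ε * M)))) =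
      Real.exp (M / (2 * P) + -(2 * (a * (1 + 7 * ζ) + ε * M))) := by
    rw [Real.exp_add]
    ring
  rw [h2, hP2]
  refine Real.exp_le_exp.2 ?_
  have h4 : a * ζ ≤ M * (1 / (64 * P)) := by
    have hLM : 0 ≤ L * M := by positivity
    have h5 : a ≤ L * M := by
      have : 4546 / 10000 * L * M = 4546 / 10000 * (L * M) := by ring
      linarith
    calc a * ζ ≤ (L * M) * ζ := mul_le_mul_of_nonneg_right h5 hζ0.le
      _ = M * (ζ * L) := by ring
      _ ≤ _ := mul_le_mul_of_nonneg_left hζL hM0.le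
  have h6 : ε * M ≤ M * (1 / (320 * P)) := by
    rw [mul_comm]
    exact mul_le_mul_of_nonneg_left hε1 hM0.le
  have h7 : 16 * (M * (1 / (64 * P))) + 3 * (M * (1 / (320 * P))) ≤ M / (2 * P) := by
    have h8 : 0 < M / P := by positivity
    have e1 : M * (1 / (64 * P)) = 1 / 64 * (M / P) := by field_simp
    have e2 : M * (1 / (320 * P)) = 1 / 320 * (M / P) := by field_simp
    have e3 : M / (2 * P) = 1 / 2 * (M / P) := by field_simp
    rw [e1, e2, e3]
    linarith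
  have e4 : -(2 * a * (1 - ζ) - ε * M) = -(2 * a) + 2 * (a * ζ) + ε * M := by ring
  have e5 : M / (2 * P) + -(2 * (a * (1 + 7 * ζ) + ε * M)) =
      M / (2 * P) - 2 * a - 14 * (a * ζ) - 2 * (ε * M) := by ring
  rw [e4, e5]
  linarith

private lemma num_fin {P M K S T : ℝ} (hP : 0 < P) (hM : K ≤ M)
    (hS : S ≤ 1) (hT : T ≤ 4 * Real.exp (M / (2 * P)))
    (hk3 : Real.log 5 ≤ 1 / (2 * P) * K) : S + T ≤ Real.exp (M / P) := by
  have h5 : (5 : ℝ) ≤ Real.exp (M / (2 * P)) := by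
    rw [← Real.log_le_iff_le_exp (by norm_num)]
    have h7 : 1 / (2 * P) * K ≤ 1 / (2 * P) * M :=
      mul_le_mul_of_nonneg_left hM (by positivity)
    have h8 : 1 / (2 * P) * M = M / (2 * P) := by ring
    linarith
  have h6 : Real.exp (M / P) = Real.exp (M / (2 * P)) * Real.exp (M / (2 * P)) := by
    rw [← Real.exp_add]
    congr 1
    field_simp
    ring
  rw [h6]
  nlinarith

theorem gsm : ∃ p₀ : ℕ, ∀ p : ℕ, p₀ ≤ p → ∃ k₀ : ℕ, ∀ k : ℕ, k₀ ≤ k → ∃ N₀ : ℕ, ∀ N : ℕ, N₀ ≤ N →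
    ∀ r : ℕ, r < k →
      Real.exp (-((k : ℝ) * (N : ℝ) ^ 2 / p)) ≤
        (haarU (JJ k N r)).real {V | Real.sqrt (45 / 100 * (p * Real.log p / k)) ≤ ST p k N r V} := by
  obtain ⟨p₀, hp₀⟩ := large_p
  refine ⟨p₀, fun p hp => ?_⟩
  obtain ⟨hp64, hL1, hL64, hLL⟩ := hp₀ p hp
  have hp1 : 1 ≤ p := by
    have : (1 : ℝ) ≤ (p : ℝ) := by linarith
    exact_mod_cast this
  obtain ⟨C₁, hC₁, hlow⟩ := lower_tail p hp1
  obtain ⟨C₂, hC₂, hpair⟩ := tail_pair p hp1
  set L := Real.log (p : ℝ) with hL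
  set P : ℝ := (p : ℝ) with hP
  set C := max C₁ C₂ with hC
  have hC0 : 0 ≤ C := hC₁.trans (le_max_left _ _)
  have hP0 : 0 < P := by linarith
  set ε : ℝ := 1 / (5 * P ^ 4) with hε
  have hε0 : 0 < ε := by positivity
  set b : ℝ := 4 * L / P with hb
  have hb0 : 0 < b := by positivity
  have hb1 : b < 1 := by
    rw [hb, div_lt_one hP0]
    linarith
  -- large k
  have hsqrt : Filter.Tendsto (fun k : ℕ => Real.sqrt (k : ℝ)) Filter.atTop Filter.atTop :=
    Real.tendsto_sqrt_atTop.comp tendsto_natCast_atTop_atTop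
  have hk1 := (hsqrt.const_mul_atTop hε0).eventually_ge_atTop
    (4 * C * (Real.sqrt (45 / 100 * (P * L)) * (Real.sqrt (45 / 100 * (P * L)) + 1) ^ 2))
  have hnat : Filter.Tendsto (fun k : ℕ => (k : ℝ)) Filter.atTop Filter.atTop :=
    tendsto_natCast_atTop_atTop
  have hk2 := (hnat.const_mul_atTop hε0).eventually_ge_atTop (Real.log 4)
  have hk3 := (hnat.const_mul_atTop (by positivity : (0:ℝ) < 1 / (2 * P))).eventually_ge_atTop
    (Real.log 5)
  have hk4 := (Real.tendsto_exp_atTop.comp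
    (hnat.const_mul_atTop (by norm_num : (0:ℝ) < 1 / 50))).eventually_ge_atTop
    (2 * (3 / Real.sqrt b + 1))
  obtain ⟨k₀, hk₀⟩ := Filter.eventually_atTop.1
    (hk1.and (hk2.and (hk3.and (hk4.and (Filter.eventually_ge_atTop 1)))))
  clear hk1 hk2 hk3 hk4
  refine ⟨k₀, fun k hk => ?_⟩
  obtain ⟨hk1, hk2, hk3, hk4, hk5⟩ := hk₀ k hk
  clear hk₀
  obtain ⟨N₁, hN₁⟩ := exists_nat_ge (2 / b)
  refine ⟨max N₁ 200, fun N hN r hr => ?_⟩
  have hN1 : 1 ≤ N := by
    have := (le_max_right N₁ 200).trans hN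
    omega
  have hN200 : (200 : ℝ) ≤ N := by exact_mod_cast (le_max_right N₁ 200).trans hN
  have hNb : 2 / b ≤ N := hN₁.trans (by exact_mod_cast (le_max_left N₁ 200).trans hN)
  set K : ℝ := (k : ℝ) with hK
  set NN : ℝ := (N : ℝ) with hNN
  set M : ℝ := K * NN ^ 2 with hM
  have hK1 : 1 ≤ K := by rw [hK]; exact_mod_cast hk5
  have hrK : (r : ℝ) ≤ K := by rw [hK]; exact_mod_cast hr.le
  have hr0 : (0 : ℝ) ≤ r := Nat.cast_nonneg _
  have hK0 : 0 < K := by linarith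
  have hMK : K ≤ M := by
    rw [hM]
    refine le_mul_of_one_le_right hK0.le ?_
    nlinarith
  have hM0 : 0 < M := by linarith
  have hne : Nonempty (JJ k N r) := ⟨Sum.inl (⟨0, by omega⟩, ⟨0, by omega⟩)⟩
  set n : ℝ := (Fintype.card (JJ k N r) : ℝ) with hn
  have hnn : n = NN * K + r := by
    rw [hn, card_JJ]
    push_cast
    rfl
  set t := Real.sqrt (45 / 100 * (P * L / K)) with ht
  have ht0 : 0 ≤ t := Real.sqrt_nonneg _
  have ht2 : t ^ 2 = 45 / 100 * (P * L / K) := Real.sq_sqrt (by positivity)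
  set a : ℝ := n ^ 2 * (t ^ 2 / P) with ha
  have hn0 : 0 < n := by
    rw [hnn]
    have : 0 < NN * K := by positivity
    linarith
  obtain ⟨ha1, ha2⟩ := num_a hK1 hN200 hr0 hrK hnn hM hP0 (by linarith) ht2 ha
  have ha0 : 0 ≤ a := by rw [ha]; positivity
  have herr : ∀ C' : ℝ, 0 ≤ C' → C' ≤ C →
      n ^ 2 * (C' * (t * (t + 1 / n) ^ 2)) ≤ ε * M := by
    intro C' h1 h2
    refine err_le h1 hK1 (by linarith) hr0 hrK hnn hM (by linarith) (by linarith) ?_
    refine le_trans ?_ hk1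
    have h3 : 0 ≤ Real.sqrt (45 / 100 * (P * L)) * (Real.sqrt (45 / 100 * (P * L)) + 1) ^ 2 := by
      positivity
    exact mul_le_mul_of_nonneg_right (by linarith) h3
  set ζ : ℝ := 1 / P ^ 2 with hζ
  have hζ0 : 0 < ζ := by positivity
  have hP2 : 4096 ≤ P ^ 2 := by nlinarith
  have hζ1 : ζ ≤ 1 / 4096 := one_div_le_one_div_of_le (by norm_num) hP2
  -- lower bound of the one point probability
  set l : ℝ := 1 / 2 * Real.exp (-(a * (1 + 7 * ζ) + ε * M)) with hl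
  have hl0 : 0 < l := by positivity
  have hlowW : ∀ W : UG (JJ k N r), l ≤ (haarU (JJ k N r)).real {V | t ≤ (Tp p V W).re} := by
    intro W
    have h2 := herr C₁ hC₁ (le_max_left _ _)
    have h1 := hlow (JJ k N r) W ζ t hζ0 (by linarith) ht0 (by
      have h3 : n ^ 2 * (ζ ^ 2 * t ^ 2 / P - C₁ * (t * (t + 1 / n) ^ 2)) =
          ζ ^ 2 * a - n ^ 2 * (C₁ * (t * (t + 1 / n) ^ 2)) := by
        rw [ha]
        ring
      have h4 : 2 * (ε * M) ≤ ζ ^ 2 * a := by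
        have h5 : ζ ^ 2 = 5 * ε := by
          rw [hζ, hε]
          field_simp
        rw [h5]
        have h6 : 45 / 100 * M ≤ a := by
          refine le_trans ?_ ha1
          have : M ≤ L * M := by nlinarith
          linarith
        have h7 : 5 * ε * (45 / 100 * M) ≤ 5 * ε * a :=
          mul_le_mul_of_nonneg_left h6 (by positivity)
        have h8 : 0 < ε * M := by positivity
        linarith
      have h6 : Real.log 4 ≤ ε * M := by
        have : ε * K ≤ ε * M := mul_le_mul_of_nonneg_left hMK hε0.le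
        linarith
      change Real.log 4 ≤ n ^ 2 * (ζ ^ 2 * t ^ 2 / P - C₁ * (t * (t + 1 / n) ^ 2))
      rw [h3]
      linarith)
    refine le_trans ?_ h1
    rw [hl]
    refine mul_le_mul_of_nonneg_left (Real.exp_le_exp.2 ?_) (by norm_num)
    rw [neg_le_neg_iff]
    change n ^ 2 * (t ^ 2 / P * (1 + 4 * ζ + 3 * ζ ^ 2) + C₁ * (t * (t + 1 / n) ^ 2)) ≤ _
    have h3 : n ^ 2 * (t ^ 2 / P * (1 + 4 * ζ + 3 * ζ ^ 2) + C₁ * (t * (t + 1 / n) ^ 2)) =
        a * (1 + 4 * ζ + 3 * ζ ^ 2) + n ^ 2 * (C₁ * (t * (t + 1 / n) ^ 2)) := by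
      rw [ha]
      ring
    rw [h3]
    have h4 : ζ ^ 2 ≤ ζ := by nlinarith
    have h5 : a * (1 + 4 * ζ + 3 * ζ ^ 2) ≤ a * (1 + 7 * ζ) :=
      mul_le_mul_of_nonneg_left (by linarith) ha0
    linarith
  -- upper bound of the two point probability
  set P2 : ℝ := Real.exp (-(2 * a * (1 - ζ) - ε * M)) with hP2'
  have hpairW : ∀ W W' : UG (JJ k N r), ‖utr (W⁻¹ * W')‖ ≤ 1 - b + 1 / NN →
      (haarU (JJ k N r)).real {V | t ≤ (Tp p V W).re ∧ t ≤ (Tp p V W').re} ≤ P2 := by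
    intro W W' hWW
    refine (hpair (JJ k N r) W W' t ht0).trans ?_
    rw [hP2']
    refine Real.exp_le_exp.2 ?_
    rw [neg_le_neg_iff]
    change _ ≤ n ^ 2 * (2 * t ^ 2 / (P * (1 + ‖utr (W⁻¹ * W')‖ ^ p)) - C₂ * (t * (t + 1 / n) ^ 2))
    have h2 := herr C₂ hC₂ (le_max_right _ _)
    have hu : ‖utr (W⁻¹ * W')‖ ≤ 1 - b / 2 := by
      have h3 : 1 / NN ≤ b / 2 := by
        rw [div_le_div_iff₀ (by linarith) (by norm_num)]
        have h4 := (div_le_iff₀ hb0).1 hNb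
        linarith
      linarith
    have hup : ‖utr (W⁻¹ * W')‖ ^ p ≤ ζ := by
      calc ‖utr (W⁻¹ * W')‖ ^ p ≤ (1 - b / 2) ^ p := pow_le_pow_left₀ (norm_nonneg _) hu p
        _ ≤ Real.exp (-(b / 2)) ^ p := by
            refine pow_le_pow_left₀ (by linarith) ?_ p
            have := Real.add_one_le_exp (-(b / 2))
            linarith
        _ = Real.exp (-(2 * L)) := by
            rw [← Real.exp_nat_mul]
            congr 1
            change P * (-(b / 2)) = _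
            rw [hb]
            field_simp
            ring
        _ = ζ := by
            rw [Real.exp_neg, hζ, one_div]
            congr 1
            rw [mul_comm, Real.exp_mul, hL, Real.exp_log hP0]
            norm_num
    set u := ‖utr (W⁻¹ * W')‖ ^ p with hu'
    have hu0 : 0 ≤ u := by positivity
    have h3 : n ^ 2 * (2 * t ^ 2 / (P * (1 + u)) - C₂ * (t * (t + 1 / n) ^ 2)) =
        2 * a / (1 + u) - n ^ 2 * (C₂ * (t * (t + 1 / n) ^ 2)) := by
      rw [ha]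
      field_simp
    rw [h3]
    have h4 : 2 * a * (1 - ζ) ≤ 2 * a / (1 + u) := by
      rw [le_div_iff₀ (by linarith), mul_assoc]
      have h5 : (1 - ζ) * (1 + u) ≤ 1 := by nlinarith
      have h6 : 2 * a * ((1 - ζ) * (1 + u)) ≤ 2 * a * 1 :=
        mul_le_mul_of_nonneg_left h5 (by linarith)
      linarith
    linarith
  have hcore := gsm_core (p := p) (k := k) (N := N) (r := r) hk5 hN1 hr hb0 hb1 hl0
    (Real.exp_pos _).le hlowW hpairW
  refine le_trans ?_ hcore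
  -- numerical estimates
  have hζL : ζ * L ≤ 1 / (64 * P) := by
    rw [hζ, div_mul_eq_mul_div, one_mul, div_le_div_iff₀ (by positivity) (by positivity)]
    nlinarith
  have hε1 : ε ≤ 1 / (320 * P) := by
    rw [hε]
    refine one_div_le_one_div_of_le (by positivity) ?_
    have h1 : P ^ 4 = P ^ 2 * (P * P) := by ring
    rw [h1]
    have h2 : 64 * P ≤ P * P := mul_le_mul_of_nonneg_right hp64 hP0.le
    have h3 : 4096 * (64 * P) ≤ P ^ 2 * (P * P) := mul_le_mul hP2 h2 (by positivity) (by positivity)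
    linarith
  have hε2 : ε ≤ 1 / 1000 * L := by
    have h1 : 1 / (320 * P) ≤ 1 / 1000 :=
      one_div_le_one_div_of_le (by norm_num) (by linarith)
    linarith
  have hS := num_S hP0 hL1 hMK hK1 hb hL hLL hk4 ha0 ha2 hζ0 hζ1 hε2 hl
  have hT := num_T hP0 hL1 hM0 ha2 hζ0 hζL hε1 hl hP2'
  have hfin := num_fin hP0 hMK hS hT hk3
  have hpos : 0 < (3 / Real.sqrt b + 1) *
      Real.exp (M / 2 * Real.log (2 * Real.exp 1 * b)) / l + P2 / l ^ 2 := by positivity
  have hgoal := one_div_le_one_div_of_le hpos hfin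
  refine le_trans (le_of_eq ?_) hgoal
  rw [Real.exp_neg, one_div]

end Pool.Agent.OGP
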