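import Pool.Agent.OGP.Eexp

/-!
# OGP IBP: integration by parts on the unitary group

Let `φ : UG ι → ℂ` be continuous with directional derivative
`d/dt φ (A exp(i t K)) |_{t=0} = D A K` for every Hermitian `K`, where `D A` is complex linear and
`A ↦ D A Z` is continuous.  Then `∫ D A Z = 0` for every matrix `Z`.

Proof.  Hermitian `K` first.  By `eU_add_smul`, `d/ds φ (A e^{isK}) |_{s=t} = D (A e^{itK}) K`, a
continuous function of `t`, so `φ (A e^{iK}) - φ (A) = ∫_0^1 D (A e^{isK}) K ds`.  Integrate in `A`,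
Fubini (everything is continuous on a compact space) and right invariance of the Haar measure:
`0 = ∫_0^1 ∫ D A K dA ds = ∫ D A K dA`.  General `Z`: `Z = K₁ + i K₂` with `K₁ = (Z + Z*)/2`,
`K₂ = (Z - Z*)/(2i)` Hermitian, and `D A` is complex linear.

`sum_single_contr`, `sum_single_ntr` are the contraction identities used afterwards:
`∑_{a,b} (P E_{ab} Q)_{ab} = Tr P Tr Q`, `∑_{a,b} Φ_{ab} ntr (P E_{ab} Q) = ntr (Φ Q P)`.
-/

open Matrix MeasureTheory
namespace Pool.Agent.OGP

variable {ι : Type} [Fintype ι] [DecidableEq ι]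

theorem ibp_herm (φ : UG ι → ℂ) (D : UG ι → (Matrix ι ι ℂ →ₗ[ℂ] ℂ)) (hφ : Continuous φ)
    (hD : ∀ Z, Continuous fun A => D A Z)
    (h : ∀ (A : UG ι) (K : Matrix ι ι ℂ), K.IsHermitian →
      HasDerivAt (fun t : ℝ => φ (A * eU ((t : ℂ) • K))) (D A K) 0) (K : Matrix ι ι ℂ)
    (hK : K.IsHermitian) :
    ∫ A, D A K ∂(haarU ι) = 0 := by
  have hc : Continuous fun s : ℝ => (eU ((s : ℂ) • K) : UG ι) := by
    refine continuous_eU.comp ?_
    exact (Complex.continuous_ofReal.smul continuous_const)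
  have h1 : ∀ (A : UG ι) (t : ℝ), HasDerivAt (fun s : ℝ => φ (A * eU ((s : ℂ) • K)))
      (D (A * eU ((t : ℂ) • K)) K) t := by
    intro A t
    have h2 := h (A * eU ((t : ℂ) • K)) K hK
    have h3 : HasDerivAt (fun s : ℝ => s - t) 1 t := (hasDerivAt_id t).sub_const t
    have h4 : HasDerivAt (fun s : ℝ => φ (A * eU ((t : ℂ) • K) * eU ((s : ℂ) • K)))
      (D (A * eU ((t : ℂ) • K)) K) (t - t) := by rw [sub_self]; exact h2
    have h5 := HasDerivAt.scomp (h := fun s : ℝ => s - t) t h4 h3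
    rw [one_smul] at h5
    refine h5.congr_of_eventuallyEq (Filter.Eventually.of_forall fun s => ?_)
    change _ = φ (A * eU ((t : ℂ) • K) * eU (((s - t : ℝ) : ℂ) • K))
    rw [mul_assoc, ← eU_add_smul hK, add_sub_cancel]
  have hF : Continuous fun p : UG ι × ℝ => D (p.1 * eU ((p.2 : ℂ) • K)) K :=
    (hD K).comp (continuous_fst.mul (hc.comp continuous_snd))
  have h6 : ∀ A : UG ι, ∫ s in (0 : ℝ)..1, D (A * eU ((s : ℂ) • K)) K =
      φ (A * eU K) - φ A := by
    intro A
    rw [intervalIntegral.integral_eq_sub_of_hasDerivAt (fun s _ => h1 A s)]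
    · have e0 : (eU (((0 : ℝ) : ℂ) • K) : UG ι) = 1 := by
        rw [Complex.ofReal_zero, zero_smul, eU_zero]
      have e1 : (eU (((1 : ℝ) : ℂ) • K) : UG ι) = eU K := by
        rw [Complex.ofReal_one, one_smul]
      rw [e0, e1, mul_one]
    · refine Continuous.intervalIntegrable ?_ _ _
      exact hF.comp (Continuous.prodMk_right A)
  have h7 : ∫ A, (∫ s in (0 : ℝ)..1, D (A * eU ((s : ℂ) • K)) K) ∂(haarU ι) = 0 := by
    rw [integral_congr_ae (Filter.Eventually.of_forall h6)]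
    have i1 : Integrable (fun A => φ (A * eU K)) (haarU ι) :=
      (hφ.comp (continuous_mul_const _)).integrable_of_hasCompactSupport
        (HasCompactSupport.of_compactSpace _)
    have i2 : Integrable φ (haarU ι) :=
      hφ.integrable_of_hasCompactSupport (HasCompactSupport.of_compactSpace _)
    rw [integral_sub i1 i2, integral_mul_right_eq_self φ (eU K), sub_self]
  have h8 : ∫ A, (∫ s in (0 : ℝ)..1, D (A * eU ((s : ℂ) • K)) K) ∂(haarU ι) =
      ∫ s in (0 : ℝ)..1, ∫ A, D (A * eU ((s : ℂ) • K)) K ∂(haarU ι) := by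
    simp_rw [intervalIntegral.integral_of_le (zero_le_one' ℝ)]
    refine integral_integral_swap ?_
    have : Integrable (fun p : UG ι × ℝ => D (p.1 * eU ((p.2 : ℂ) • K)) K)
        ((haarU ι).prod (volume.restrict (Set.Ioc 0 1))) := by
      have hcomp : IsCompact (Set.univ ×ˢ Set.Icc (0 : ℝ) 1 : Set (UG ι × ℝ)) :=
        isCompact_univ.prod isCompact_Icc
      have i3 : IntegrableOn (fun p : UG ι × ℝ => D (p.1 * eU ((p.2 : ℂ) • K)) K)
          (Set.univ ×ˢ Set.Icc (0 : ℝ) 1) ((haarU ι).prod volume) :=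
        hF.continuousOn.integrableOn_compact hcomp
      rw [IntegrableOn, ← Measure.prod_restrict, Measure.restrict_univ] at i3
      refine i3.mono_measure ?_
      exact Measure.prod_mono le_rfl (Measure.restrict_mono Set.Ioc_subset_Icc_self le_rfl)
    exact this
  rw [h8] at h7
  have h9 : ∀ s : ℝ, ∫ A, D (A * eU ((s : ℂ) • K)) K ∂(haarU ι) = ∫ A, D A K ∂(haarU ι) :=
    fun s => integral_mul_right_eq_self (fun A => D A K) (eU ((s : ℂ) • K))
  simp_rw [h9] at h7
  simpa using h7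

theorem ibp (φ : UG ι → ℂ) (D : UG ι → (Matrix ι ι ℂ →ₗ[ℂ] ℂ)) (hφ : Continuous φ)
    (hD : ∀ Z, Continuous fun A => D A Z)
    (h : ∀ (A : UG ι) (K : Matrix ι ι ℂ), K.IsHermitian →
      HasDerivAt (fun t : ℝ => φ (A * eU ((t : ℂ) • K))) (D A K) 0) (Z : Matrix ι ι ℂ) :
    ∫ A, D A Z ∂(haarU ι) = 0 := by
  obtain ⟨K₁, K₂, h1, h2, hZ⟩ : ∃ K₁ K₂ : Matrix ι ι ℂ, K₁.IsHermitian ∧ K₂.IsHermitian ∧
      Z = K₁ + Complex.I • K₂ := by
    refine ⟨hpart Z, hpart (-Complex.I • Z), hpart_isHermitian _, hpart_isHermitian _, ?_⟩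
    unfold hpart
    ext i j
    simp only [Matrix.add_apply, Matrix.smul_apply, Matrix.conjTranspose_apply, smul_eq_mul,
      star_mul', star_neg, Complex.star_def, Complex.conj_I]
    have : Complex.I * Complex.I = -1 := Complex.I_mul_I
    linear_combination (-(1/2 : ℂ) * (starRingEnd ℂ) (Z j i) + (1/2 : ℂ) * Z i j) * this
  subst hZ
  have e : ∀ A, D A (K₁ + Complex.I • K₂) = D A K₁ + Complex.I * D A K₂ := by
    intro A
    rw [map_add, map_smul, smul_eq_mul]
  have hi : ∀ K, Integrable (fun A => D A K) (haarU ι) := fun K =>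
    (hD K).integrable_of_hasCompactSupport (HasCompactSupport.of_compactSpace _)
  have i4 : Integrable (fun A => Complex.I * D A K₂) (haarU ι) :=
    (hi _).const_mul _
  have e1 := ibp_herm φ D hφ hD h _ h1
  have e2 := ibp_herm φ D hφ hD h _ h2
  calc ∫ A, D A (K₁ + Complex.I • K₂) ∂(haarU ι)
      = ∫ A, (D A K₁ + Complex.I * D A K₂) ∂(haarU ι) := integral_congr_ae
        (Filter.Eventually.of_forall e)
    _ = ∫ A, D A K₁ ∂(haarU ι) + ∫ A, Complex.I * D A K₂ ∂(haarU ι) := integral_add (hi _) i4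
    _ = 0 := by rw [integral_const_mul, e1, e2, mul_zero, add_zero]

theorem sum_single_contr (P Q : Matrix ι ι ℂ) :
    ∑ a, ∑ b, (P * Matrix.single a b (1 : ℂ) * Q : Matrix ι ι ℂ) a b = P.trace * Q.trace := by
  have h : ∀ a b, (P * Matrix.single a b (1 : ℂ) * Q : Matrix ι ι ℂ) a b = P a a * Q b b := by
    intro a b
    rw [Matrix.mul_assoc, Matrix.mul_apply, Finset.sum_eq_single a]
    · simp [Matrix.mul_apply, Matrix.single_apply]
    · intro c _ hc
      simp [Matrix.mul_apply, hc.symm]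
    · simp
  simp_rw [h, ← Finset.mul_sum]
  rw [← Finset.sum_mul]
  rfl

theorem sum_single_ntr (Φ P Q : Matrix ι ι ℂ) :
    ∑ a, ∑ b, Φ a b * ntr (P * Matrix.single a b (1 : ℂ) * Q) = ntr (Φ * Q * P) := by
  have h : ∀ a b, (P * Matrix.single a b (1 : ℂ) * Q : Matrix ι ι ℂ).trace = (Q * P) b a := by
    intro a b
    rw [Matrix.trace_mul_comm, ← Matrix.mul_assoc, Matrix.trace_mul_comm]
    rw [Matrix.trace, Finset.sum_eq_single a]
    · simp [Matrix.mul_apply, Matrix.single_apply]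
    · intro c _ hc
      simp [Matrix.mul_apply, hc.symm]
    · simp
  unfold ntr
  simp_rw [h]
  rw [Matrix.mul_assoc, Matrix.trace]
  simp_rw [Matrix.diag_apply, Matrix.mul_apply (M := Φ), Finset.mul_sum]
  refine Finset.sum_congr rfl fun a _ => Finset.sum_congr rfl fun b _ => ?_
  ring

end Pool.Agent.OGP
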