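import Pool.Agent.OGP.Tibp

/-!
# OGP LAM: exponential moments of `Re tr X`

`∫ exp (λ n² (Re utr X - 1)) ≤ (1 + 2 λ)^{-n²/2}`, `λ ≥ 0`, `n = card ι`.

Let `G_λ = Gf 1 1 λ 0`, i.e. `G_λ X = n² λ Re utr X`, and `φ λ = log ∫ exp (λ n² (Re utr X - 1))`,
`φ 0 = 0`, `φ' λ = - n² m(λ)`, `m(λ) = tE G_λ (1 - Re utr X)`.  By `tilt_ibp` for `p = 1`,
`l1 = λ`, `l2 = 0`: `tE G_λ (utr X) = (λ/2) (1 - tE G_λ (utr X²))`, so
`1 - m = (λ/2) tE G_λ (1 - Re utr X²)`.  For a unitary matrix with eigenvalues `e^{iθ}`,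
`1 - cos 2θ = 2 sin² θ = 2 (1 - cos θ)(1 + cos θ) ≤ 4 (1 - cos θ)`; without eigenvalues:
`1 - Re utr X² = (1/2) n2 (X - X⁻¹)² = (1/2) n2 ((X - 1) + (1 - X⁻¹))² ≤ (1/2) (2 d2 X 1)²
= 2 (d2 X 1)² = 4 (1 - Re utr X)`.  So `1 - m ≤ 2 λ m`, `m ≥ 1 / (1 + 2λ)`,
`φ' ≤ - n² / (1 + 2 λ)`, `φ λ ≤ - (n²/2) log (1 + 2λ)`.
-/

open Matrix MeasureTheory ProbabilityTheory
namespace Pool.Agent.OGP

variable {ι : Type} [Fintype ι] [DecidableEq ι]

private lemma lam_pt [Nonempty ι] (A : UG ι) : 1 - (utr (A ^ 2)).re ≤ 4 * (1 - (utr A).re) := by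
  have h1 := d2_sq (1 : UG ι) (A ^ 2)
  have h2 := d2_sq (1 : UG ι) A
  rw [inv_one, one_mul] at h1 h2
  have h3 : d2 (1 : UG ι) (A ^ 2) ≤ 2 * d2 (1 : UG ι) A := by
    have h4 := d2_triangle (1 : UG ι) A (A ^ 2)
    have h5 : d2 A (A ^ 2) = d2 (1 : UG ι) A := by
      have := d2_mul_left A 1 A
      rwa [mul_one, ← pow_two] at this
    rw [h5] at h4
    linarith
  have h4 : d2 (1 : UG ι) (A ^ 2) ^ 2 ≤ (2 * d2 (1 : UG ι) A) ^ 2 :=
    pow_le_pow_left₀ (d2_nonneg _ _) h3 2
  rw [mul_pow, h1, h2] at h4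
  linarith

private lemma lam_tE [Nonempty ι] {lam : ℝ} (hl : 0 ≤ lam) :
    tE (Gf 1 (1 : UG ι) lam 0) (fun A => (utr A).re) ≤ 2 * lam / (1 + 2 * lam) := by
  have hG := continuous_Gf 1 (1 : UG ι) lam 0
  have hu : Continuous fun A : UG ι => (utr A).re := Complex.continuous_re.comp continuous_utr
  have hu2 : Continuous fun A : UG ι => utr (A ^ 2) := continuous_utr.comp (continuous_pow 2)
  have hu2r : Continuous fun A : UG ι => (utr (A ^ 2)).re := Complex.continuous_re.comp hu2
  have h1 := tilt_ibp (le_refl 1) (1 : UG ι) lam 0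
  simp only [pow_one, Finset.Ico_self, Finset.sum_empty, sub_zero, Complex.ofReal_zero, zero_mul,
    add_zero, Nat.cast_one, mul_one] at h1
  have h2 := congrArg Complex.re h1
  have h3 : ((1 / 2 : ℂ) * ((lam : ℂ) * (1 - tE (Gf 1 (1 : UG ι) lam 0) fun A => utr (A ^ 2)))).re =
      lam / 2 * (1 - (tE (Gf 1 (1 : UG ι) lam 0) fun A => utr (A ^ 2)).re) := by
    rw [← mul_assoc]
    have h4 : (1 / 2 : ℂ) * (lam : ℂ) = ((lam / 2 : ℝ) : ℂ) := by push_cast; ring
    rw [h4, Complex.re_ofReal_mul, Complex.sub_re, Complex.one_re]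
  have h3' : (tE (Gf 1 (1 : UG ι) lam 0) fun A => utr (A ^ 1)) =
      (tE (Gf 1 (1 : UG ι) lam 0) fun A => utr A) := by simp only [pow_one]
  rw [h3, re_tE hG continuous_utr, re_tE hG hu2] at h2
  have h5 : 1 - tE (Gf 1 (1 : UG ι) lam 0) (fun A => (utr (A ^ 2)).re) ≤
      4 * (1 - tE (Gf 1 (1 : UG ι) lam 0) (fun A => (utr A).re)) := by
    have h6 := tE_mono hG (Z := fun A : UG ι => 1 - (utr (A ^ 2)).re)
      (Z' := fun A : UG ι => 4 * (1 - (utr A).re))
      (continuous_const.sub hu2r)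
      (continuous_const.mul (continuous_const.sub hu)) lam_pt
    rw [tE_sub hG continuous_const hu2r, tE_const hG, tE_mul,
      tE_sub hG continuous_const hu, tE_const hG] at h6
    exact h6
  rw [le_div_iff₀ (by linarith)]
  set m := tE (Gf 1 (1 : UG ι) lam 0) (fun A => (utr A).re) with hm
  have h7 : lam / 2 * (1 - tE (Gf 1 (1 : UG ι) lam 0) (fun A => (utr (A ^ 2)).re)) ≤
      lam / 2 * (4 * (1 - m)) := mul_le_mul_of_nonneg_left h5 (by linarith)
  nlinarith

theorem lam_bound [Nonempty ι] {lam : ℝ} (hl : 0 ≤ lam) :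
    ∫ X, Real.exp (lam * (Fintype.card ι : ℝ) ^ 2 * ((utr X).re - 1)) ∂(haarU ι) ≤
      Real.exp (-((Fintype.card ι : ℝ) ^ 2 / 2 * Real.log (1 + 2 * lam))) := by
  set n2' : ℝ := (Fintype.card ι : ℝ) ^ 2 with hn
  have hn0 : 0 ≤ n2' := by positivity
  set X : UG ι → ℝ := fun A => n2' * ((utr A).re - 1) with hX
  have hXc : Continuous X := by
    rw [hX]
    exact continuous_const.mul ((Complex.continuous_re.comp continuous_utr).sub continuous_const)
  have hint : ∀ t : ℝ, Integrable (fun A => Real.exp (t * X A)) (haarU ι) := by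
    intro t
    exact (Real.continuous_exp.comp (continuous_const.mul hXc)).integrable_of_hasCompactSupport
      (HasCompactSupport.of_compactSpace _)
  have hset : integrableExpSet X (haarU ι) = Set.univ := by
    ext t
    simp only [Set.mem_univ, iff_true]
    exact hint t
  have hder : ∀ t : ℝ, HasDerivAt (mgf X (haarU ι))
      (∫ A, X A * Real.exp (t * X A) ∂(haarU ι)) t := by
    intro t
    refine hasDerivAt_mgf ?_
    rw [hset, interior_univ]
    exact Set.mem_univ _
  have hpos : ∀ t : ℝ, 0 < mgf X (haarU ι) t := by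
    intro t
    refine int_exp_pos (G := fun A => t * X A) (continuous_const.mul hXc)
  -- the differential inequality
  have hineq : ∀ t : ℝ, 0 ≤ t → ∫ A, X A * Real.exp (t * X A) ∂(haarU ι) ≤
      -(n2' / (1 + 2 * t)) * mgf X (haarU ι) t := by
    intro t ht
    have hG := continuous_Gf 1 (1 : UG ι) t 0
    have hGe : ∀ A : UG ι, Real.exp (Gf 1 (1 : UG ι) t 0 A) =
        Real.exp (t * X A) * Real.exp (t * n2') := by
      intro A
      rw [← Real.exp_add]
      congr 1
      unfold Gf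
      rw [hX]
      simp only [pow_one, zero_mul, add_zero]
      rw [← hn]
      ring
    have h1 : tE (Gf 1 (1 : UG ι) t 0) (fun A => X A) ≤ n2' * (2 * t / (1 + 2 * t) - 1) := by
      have h2 : tE (Gf 1 (1 : UG ι) t 0) (fun A => X A) =
          n2' * (tE (Gf 1 (1 : UG ι) t 0) (fun A => (utr A).re) - 1) := by
        rw [hX]
        simp only
        have hu : Continuous fun A : UG ι => (utr A).re :=
          Complex.continuous_re.comp continuous_utr
        rw [tE_mul, tE_sub hG hu continuous_const, tE_const hG]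
      rw [h2]
      have h3 := lam_tE (ι := ι) ht
      exact mul_le_mul_of_nonneg_left (by linarith) hn0
    have h4 : tE (Gf 1 (1 : UG ι) t 0) (fun A => X A) =
        (mgf X (haarU ι) t)⁻¹ * ∫ A, X A * Real.exp (t * X A) ∂(haarU ι) := by
      unfold tE
      simp only [hGe, smul_eq_mul]
      rw [integral_mul_const]
      have h5 : ∫ A, Real.exp (t * X A) * Real.exp (t * n2') * X A ∂(haarU ι) =
          (∫ A, X A * Real.exp (t * X A) ∂(haarU ι)) * Real.exp (t * n2') := by
        rw [← integral_mul_const]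
        refine integral_congr_ae (Filter.Eventually.of_forall fun A => ?_)
        simp only
        ring
      rw [h5]
      have h6 : (∫ A, Real.exp (t * X A) ∂(haarU ι)) = mgf X (haarU ι) t := rfl
      rw [h6]
      have h7 := (hpos t).ne'
      have h8 := (Real.exp_pos (t * n2')).ne'
      field_simp
    rw [h4, inv_mul_le_iff₀ (hpos t)] at h1
    refine h1.trans (le_of_eq ?_)
    have : (1 + 2 * t) ≠ 0 := by linarith
    field_simp
    ring
  -- the monotone function
  set K : ℝ → ℝ := fun t => mgf X (haarU ι) t * Real.exp (n2' / 2 * Real.log (1 + 2 * t)) with hK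
  have hKd : ∀ t : ℝ, 0 ≤ t → HasDerivAt K
      ((∫ A, X A * Real.exp (t * X A) ∂(haarU ι)) * Real.exp (n2' / 2 * Real.log (1 + 2 * t)) +
        mgf X (haarU ι) t * (Real.exp (n2' / 2 * Real.log (1 + 2 * t)) *
          (n2' / 2 * (2 / (1 + 2 * t))))) t := by
    intro t ht
    have h1 : HasDerivAt (fun t : ℝ => 1 + 2 * t) 2 t := by
      simpa using ((hasDerivAt_id t).const_mul 2).const_add 1
    have h2 := ((h1.log (by linarith)).const_mul (n2' / 2)).exp
    exact (hder t).mul h2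
  have hanti : AntitoneOn K (Set.Ici 0) := by
    refine antitoneOn_of_deriv_nonpos (convex_Ici 0) ?_ ?_ ?_
    · intro t ht
      exact (hKd t ht).continuousAt.continuousWithinAt
    · intro t ht
      rw [interior_Ici] at ht
      exact (hKd t (le_of_lt ht)).differentiableAt.differentiableWithinAt
    · intro t ht
      rw [interior_Ici] at ht
      have ht0 : 0 ≤ t := le_of_lt ht
      rw [(hKd t ht0).deriv]
      have h1 := hineq t ht0
      have h2 : 0 < Real.exp (n2' / 2 * Real.log (1 + 2 * t)) := Real.exp_pos _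
      have h3 : (1 + 2 * t) ≠ 0 := by linarith
      have h4 : (∫ A, X A * Real.exp (t * X A) ∂(haarU ι)) *
          Real.exp (n2' / 2 * Real.log (1 + 2 * t)) ≤
          -(n2' / (1 + 2 * t)) * mgf X (haarU ι) t *
            Real.exp (n2' / 2 * Real.log (1 + 2 * t)) := mul_le_mul_of_nonneg_right h1 h2.le
      have h5 : mgf X (haarU ι) t * (Real.exp (n2' / 2 * Real.log (1 + 2 * t)) *
          (n2' / 2 * (2 / (1 + 2 * t)))) = n2' / (1 + 2 * t) * mgf X (haarU ι) t *
            Real.exp (n2' / 2 * Real.log (1 + 2 * t)) := by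
        field_simp
      rw [h5]
      linarith
  have h1 := hanti (Set.mem_Ici.2 le_rfl) (Set.mem_Ici.2 hl) hl
  have h0 : K 0 = 1 := by
    rw [hK]
    simp
  rw [h0] at h1
  have h2 : ∫ X, Real.exp (lam * n2' * ((utr X).re - 1)) ∂(haarU ι) = mgf X (haarU ι) lam := by
    unfold mgf
    refine integral_congr_ae (Filter.Eventually.of_forall fun A => ?_)
    simp only [hX]
    congr 1
    ring
  rw [h2, Real.exp_neg]
  rw [hK] at h1
  simp only at h1
  rwa [← le_div_iff₀ (Real.exp_pos _), one_div] at h1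

end Pool.Agent.OGP
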