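import Pool.Agent.OGP.Final
import Pool.Agent.OGP.OA.Exist
import Pool.Agent.OGP.OA.LayT

/-!
# MP_31a6bd_an, Q2: the random embedding of the free group factor in the matrix ultraproduct is
almost surely not existential

`UG (Fin (n + 1))` is the unitary group `U(n + 1)`, `haarU` its normalised Haar measure.  `U n`,
`V n` are random unitary matrices such that for every `n` the pair `(U n, V n)` has the law Haar
times Haar (the joint law for different `n` is arbitrary; in particular all choices may be
independent).  For almost every sample `ω` and every non-principal ultrafilter `𝒰` on `ℕ`: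
* there is an embedding `π` of `L(F_2)` in the matrix ultraproduct `MU 𝒰` sending the two generators
  to the classes of `(U n ω)` and `(V n ω)` (this is known, Voiculescu), and
* no such `π` is existential.

Proof.  If `π` is existential, then there is a trace preserving `θ` from `MU 𝒰` to an ultrapower of
`L(F_2)` which sends the classes of `U, V` to the diagonal copies of the generators.  Almost surely
there are unitaries `W_n` almost commuting with the spectral projections of `U_n` for `k` equal arcs
with `Re tr ((V_n W_n)^p) ≥ (0.39 p log p / k)^{1/2}` (second moment method).  The image under `θ` of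
the class of `(W_n)`, approximated by an element `f` of the group algebra (Kaplansky), can be
evaluated at all random unitaries; evaluating `f` along an interpolation from `V` to an independent
matrix gives a continuous path of near optimisers, which contradicts the overlap gap property (first
moment method with sharp large deviation bounds for traces of words in Haar unitaries).
-/

open MeasureTheory Filter Topology

universe u v

namespace Pool.Agent.OGP.LayFinal

open Pool.Agent.OGP Pool.Agent.OGP.Lay

theorem result {Ω : Type v} [MeasurableSpace Ω] (P : Measure Ω) [IsProbabilityMeasure P]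
    (U V : ∀ n : ℕ, Ω → UG (Fin (n + 1))) (hU : ∀ n, Measurable (U n))
    (hV : ∀ n, Measurable (V n))
    (hlaw : ∀ n, P.map (fun ω => (U n ω, V n ω)) =
      (haarU (Fin (n + 1))).prod (haarU (Fin (n + 1)))) :
    ∀ᵐ ω ∂P, ∀ 𝒰 : Ultrafilter ℕ, (∀ n, 𝒰 ≠ pure n) →
      (∃ π : LF →⋆ₐ[ℂ] Lay.MU 𝒰, Lay.IsEmb π ∧
        π (el (FreeGroup.of 0)) = clU 𝒰 (fun n => U n ω) ∧
        π (el (FreeGroup.of 1)) = clU 𝒰 (fun n => V n ω)) ∧
      ∀ π : LF →⋆ₐ[ℂ] Lay.MU 𝒰, π (el (FreeGroup.of 0)) = clU 𝒰 (fun n => U n ω) →
        π (el (FreeGroup.of 1)) = clU 𝒰 (fun n => V n ω) → ¬ Lay.IsExistential.{u} π := by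
  filter_upwards [no_theta.{u} P U V hU hV hlaw, free_ae P U V hU hV hlaw] with ω h1 h2 𝒰 h𝒰
  have h3 : (𝒰 : Filter ℕ) ≤ atTop := by
    rcases 𝒰.le_cofinite_or_eq_pure with h | ⟨n, h⟩
    · rwa [Nat.cofinite_eq_atTop] at h
    · exact absurd h (h𝒰 n)
  obtain ⟨π, hπ, ha, hb⟩ := exists_emb 𝒰 h3 _ _ fun g hg => (h2 g hg).mono_left h3
  refine ⟨exists_new hπ ha hb, fun π ha hb h => ?_⟩
  obtain ⟨I, 𝒱, θ, htr, hθa, hθb⟩ := exists_theta ha hb h
  exact h1 𝒰 h3 I 𝒱 θ htr hθa hθb

end Pool.Agent.OGP.LayFinal
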