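import Pool.Agent.OGP.Two

/-!
# OGP LOWER: lower bound for the upper tail of `Re utr (V^p)` (Cramér)

`n = card ι`, `Λ λ = n⁻² log ∫ exp (n² λ Re utr V^p)`; `two_point` with `l2 = 0`:
`|Λ λ - (p/4) λ²| ≤ C' |λ| (|λ| + 1/n)²`.  Let `h = Re utr V^p`, `λ = (2t/p)(1 + ζ)`, and `ν` the
probability measure of density proportional to `exp (n² λ h)`.  Let `err(t) = t (t + 1/n)²`.
* `ν (h < t) ≤ E_ν exp (n² μ (t - h)) = exp (n² (Λ (λ - μ) - Λ λ + μ t))` with `μ = 2ζt/p ≥ 0`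
  (`λ - μ = 2t/p`): `(p/4)(μ² - 2λμ) + μ t = (p/4) μ² - μ ((p/2) λ - t) = (p/4) μ² - μ ζ t
  = - ζ² t²/p`; errors `≤ C'' err(t)` (`λ, λ - μ ≤ 4t`).
* `ν (h > (1 + 2ζ) t) ≤ exp (n² (Λ (λ + μ) - Λ λ - μ (1+2ζ) t))`, same `μ`:
  `(p/4)(μ² + 2λμ) - μ (1 + 2ζ) t = (p/4) μ² + μ (1+ζ) t - μ (1+2ζ) t = - ζ² t²/p`; errors
  `≤ C'' err(t)` (`λ + μ ≤ 8 t`).
* If `n² (ζ² t²/p - C err(t)) ≥ log 4`, both probabilities are `≤ 1/4`, so
  `ν (t ≤ h ≤ (1+2ζ) t) ≥ 1/2`, and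
  `P (h ≥ t) ≥ E_ν [1_{t ≤ h ≤ (1+2ζ)t} exp (-n² λ h)] exp (n² Λ λ)
   ≥ (1/2) exp (- n² (λ (1+2ζ) t - Λ λ))`, and
  `λ (1 + 2ζ) t - (p/4) λ² = (t²/p)(1+ζ)(2 + 4ζ - 1 - ζ) = (t²/p)(1 + ζ)(1 + 3ζ)
   = (t²/p)(1 + 4ζ + 3ζ²)`.
(`0 < ζ ≤ 1`, `t ≥ 0`.)  Finally `V ↦ V W` to pass to `Tp p V W`.
-/

open Matrix MeasureTheory
namespace Pool.Agent.OGP

section low
variable {ι : Type} [Fintype ι] [DecidableEq ι]

/-- The partition function of the moment. -/
noncomputable def lwZ (ι : Type) [Fintype ι] [DecidableEq ι] (p : ℕ) (l : ℝ) : ℝ :=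
  ∫ A : UG ι, Real.exp ((Fintype.card ι : ℝ) ^ 2 * (l * (utr (A ^ p)).re)) ∂(haarU ι)

lemma lw_cont (p : ℕ) : Continuous fun A : UG ι => (utr (A ^ p)).re :=
  Complex.continuous_re.comp (continuous_utr.comp (continuous_pow p))

lemma lw_contE (p : ℕ) (a l : ℝ) :
    Continuous fun A : UG ι => Real.exp (a * (l * (utr (A ^ p)).re)) :=
  (continuous_const.mul (continuous_const.mul (lw_cont p))).rexp

lemma lw_int (p : ℕ) (a l : ℝ) :
    Integrable (fun A : UG ι => Real.exp (a * (l * (utr (A ^ p)).re))) (haarU ι) :=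
  (lw_contE p a l).integrable_of_hasCompactSupport (HasCompactSupport.of_compactSpace _)

lemma lwZ_eq (p : ℕ) (l : ℝ) :
    lwZ ι p l = ∫ A, Real.exp (Gf p (1 : UG ι) l 0 A) ∂(haarU ι) := by
  unfold lwZ Gf
  simp

lemma lwZ_pos (p : ℕ) (l : ℝ) : 0 < lwZ ι p l := by
  rw [lwZ_eq]
  exact int_exp_pos (continuous_Gf p 1 l 0)

/-- The three regions. -/
lemma lw_split (p : ℕ) {a lam mu t z : ℝ} (ha : 0 ≤ a) (hlam : 0 ≤ lam) (hmu : 0 ≤ mu)
    (A : UG ι) :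
    Real.exp (a * (lam * (utr (A ^ p)).re)) ≤
      Real.exp (a * (mu * t)) * Real.exp (a * ((lam - mu) * (utr (A ^ p)).re)) +
      Real.exp (-(a * (mu * (z * t)))) * Real.exp (a * ((lam + mu) * (utr (A ^ p)).re)) +
      Real.exp (a * (lam * (z * t))) *
        Set.indicator {A : UG ι | t ≤ (utr (A ^ p)).re} 1 A := by
  set h : ℝ := (utr (A ^ p)).re with hh
  have e0 : 0 ≤ Real.exp (a * (lam * (z * t))) *
        Set.indicator {A : UG ι | t ≤ (utr (A ^ p)).re} 1 A := by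
    refine mul_nonneg (Real.exp_pos _).le (Set.indicator_nonneg (fun _ _ => ?_) _)
    exact zero_le_one
  rcases lt_or_ge h t with h1 | h1
  · have e1 : Real.exp (a * (lam * h)) ≤
        Real.exp (a * (mu * t)) * Real.exp (a * ((lam - mu) * h)) := by
      rw [← Real.exp_add]
      refine Real.exp_le_exp.2 ?_
      have : a * (mu * t) + a * ((lam - mu) * h) - a * (lam * h) = a * mu * (t - h) := by ring
      have h2 : 0 ≤ a * mu * (t - h) := mul_nonneg (mul_nonneg ha hmu) (by linarith)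
      linarith
    have e2 : 0 ≤ Real.exp (-(a * (mu * (z * t)))) * Real.exp (a * ((lam + mu) * h)) := by
      positivity
    linarith
  · rcases le_or_gt h (z * t) with h2 | h2
    · have e1 : Set.indicator {A : UG ι | t ≤ (utr (A ^ p)).re} (1 : UG ι → ℝ) A = 1 :=
        Set.indicator_of_mem (s := {A : UG ι | t ≤ (utr (A ^ p)).re}) h1 _
      rw [e1, mul_one]
      have e2 : Real.exp (a * (lam * h)) ≤ Real.exp (a * (lam * (z * t))) :=
        Real.exp_le_exp.2 (mul_le_mul_of_nonneg_left (mul_le_mul_of_nonneg_left h2 hlam) ha)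
      have e3 : 0 ≤ Real.exp (a * (mu * t)) * Real.exp (a * ((lam - mu) * h)) := by positivity
      have e4 : 0 ≤ Real.exp (-(a * (mu * (z * t)))) * Real.exp (a * ((lam + mu) * h)) := by
        positivity
      linarith
    · have e1 : Real.exp (a * (lam * h)) ≤
          Real.exp (-(a * (mu * (z * t)))) * Real.exp (a * ((lam + mu) * h)) := by
        rw [← Real.exp_add]
        refine Real.exp_le_exp.2 ?_
        have : -(a * (mu * (z * t))) + a * ((lam + mu) * h) - a * (lam * h) =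
          a * mu * (h - z * t) := by ring
        have h3 : 0 ≤ a * mu * (h - z * t) := mul_nonneg (mul_nonneg ha hmu) (by linarith)
        linarith
      have e3 : 0 ≤ Real.exp (a * (mu * t)) * Real.exp (a * ((lam - mu) * h)) := by positivity
      linarith

lemma lw_split_int (p : ℕ) {lam mu t z : ℝ} (hlam : 0 ≤ lam) (hmu : 0 ≤ mu) :
    lwZ ι p lam ≤
      Real.exp ((Fintype.card ι : ℝ) ^ 2 * (mu * t)) * lwZ ι p (lam - mu) +
      Real.exp (-((Fintype.card ι : ℝ) ^ 2 * (mu * (z * t)))) * lwZ ι p (lam + mu) +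
      Real.exp ((Fintype.card ι : ℝ) ^ 2 * (lam * (z * t))) *
        (haarU ι).real {A : UG ι | t ≤ (utr (A ^ p)).re} := by
  have hm : MeasurableSet {A : UG ι | t ≤ (utr (A ^ p)).re} :=
    (isClosed_le continuous_const (lw_cont p)).measurableSet
  have i1 : Integrable (Set.indicator {A : UG ι | t ≤ (utr (A ^ p)).re} (1 : UG ι → ℝ))
      (haarU ι) := (integrable_const (1 : ℝ)).indicator hm
  have j1 : Integrable (fun A : UG ι => Real.exp ((Fintype.card ι : ℝ) ^ 2 * (mu * t)) *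
      Real.exp ((Fintype.card ι : ℝ) ^ 2 * ((lam - mu) * (utr (A ^ p)).re))) (haarU ι) :=
    (lw_int p _ _).const_mul _
  have j2 : Integrable (fun A : UG ι => Real.exp (-((Fintype.card ι : ℝ) ^ 2 *
      (mu * (z * t)))) * Real.exp ((Fintype.card ι : ℝ) ^ 2 * ((lam + mu) *
        (utr (A ^ p)).re))) (haarU ι) :=
    (lw_int p _ _).const_mul _
  have j12 : Integrable (fun A : UG ι => Real.exp ((Fintype.card ι : ℝ) ^ 2 * (mu * t)) *
      Real.exp ((Fintype.card ι : ℝ) ^ 2 * ((lam - mu) * (utr (A ^ p)).re)) +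
      Real.exp (-((Fintype.card ι : ℝ) ^ 2 *
      (mu * (z * t)))) * Real.exp ((Fintype.card ι : ℝ) ^ 2 * ((lam + mu) *
        (utr (A ^ p)).re))) (haarU ι) := j1.add j2
  have j3 : Integrable (fun A : UG ι => Real.exp ((Fintype.card ι : ℝ) ^ 2 *
      (lam * (z * t))) * Set.indicator {A : UG ι | t ≤ (utr (A ^ p)).re} (1 : UG ι → ℝ) A)
      (haarU ι) := i1.const_mul _
  have j := integral_mono (lw_int p ((Fintype.card ι : ℝ) ^ 2) lam) (j12.add j3)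
    (fun A => lw_split p (t := t) (z := z) (by positivity) hlam hmu A)
  have e : ∫ A, ((fun A : UG ι => Real.exp ((Fintype.card ι : ℝ) ^ 2 * (mu * t)) *
      Real.exp ((Fintype.card ι : ℝ) ^ 2 * ((lam - mu) * (utr (A ^ p)).re)) +
      Real.exp (-((Fintype.card ι : ℝ) ^ 2 *
      (mu * (z * t)))) * Real.exp ((Fintype.card ι : ℝ) ^ 2 * ((lam + mu) *
        (utr (A ^ p)).re))) + (fun A : UG ι => Real.exp ((Fintype.card ι : ℝ) ^ 2 *
      (lam * (z * t))) * Set.indicator {A : UG ι | t ≤ (utr (A ^ p)).re} (1 : UG ι → ℝ) A)) A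
        ∂(haarU ι) =
      Real.exp ((Fintype.card ι : ℝ) ^ 2 * (mu * t)) * lwZ ι p (lam - mu) +
      Real.exp (-((Fintype.card ι : ℝ) ^ 2 * (mu * (z * t)))) * lwZ ι p (lam + mu) +
      Real.exp ((Fintype.card ι : ℝ) ^ 2 * (lam * (z * t))) *
        (haarU ι).real {A : UG ι | t ≤ (utr (A ^ p)).re} := by
    rw [integral_add' j12 j3, integral_add j1 j2, integral_const_mul, integral_const_mul,
      integral_const_mul, integral_indicator_one hm]
    rfl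
  rw [← e]
  exact j

end low

theorem lower_tail (p : ℕ) (hp : 1 ≤ p) : ∃ C : ℝ, 0 ≤ C ∧
    ∀ (ι : Type) [Fintype ι] [DecidableEq ι] [Nonempty ι] (W : UG ι) (ζ t : ℝ), 0 < ζ → ζ ≤ 1 →
      0 ≤ t →
      Real.log 4 ≤ (Fintype.card ι : ℝ) ^ 2 * (ζ ^ 2 * t ^ 2 / p -
        C * (t * (t + 1 / (Fintype.card ι : ℝ)) ^ 2)) →
      1 / 2 * Real.exp (-((Fintype.card ι : ℝ) ^ 2 * (t ^ 2 / p * (1 + 4 * ζ + 3 * ζ ^ 2) +
        C * (t * (t + 1 / (Fintype.card ι : ℝ)) ^ 2)))) ≤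
      (haarU ι).real {V | t ≤ (Tp p V W).re} := by
  obtain ⟨C', hC', h2⟩ := two_point p hp
  refine ⟨432 * C', by positivity, ?_⟩
  intro ι _ _ _ W ζ t hζ hζ1 ht hcond
  set n : ℝ := (Fintype.card ι : ℝ) with hn
  have n1 : 1 ≤ n := by
    rw [hn]
    exact_mod_cast Fintype.card_pos
  have n0 : 0 < n := by linarith
  have p1 : (1 : ℝ) ≤ p := by exact_mod_cast hp
  have p0 : (0 : ℝ) < p := by linarith
  have hW : (haarU ι).real {V | t ≤ (Tp p V W).re} =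
      (haarU ι).real {A : UG ι | t ≤ (utr (A ^ p)).re} := by
    unfold Measure.real
    congr 1
    exact measure_preimage_mul_right (haarU ι) W {A : UG ι | t ≤ (utr (A ^ p)).re}
  rw [hW]
  set P : ℝ := (haarU ι).real {A : UG ι | t ≤ (utr (A ^ p)).re} with hP
  set E : ℝ := t * (t + 1 / n) ^ 2 with hE
  have E0 : 0 ≤ E := by positivity
  -- the two point estimate
  have hL : ∀ l : ℝ, 0 ≤ l → l ≤ 6 * t →
      |Real.log (lwZ ι p l) - n ^ 2 * (p / 4 * l ^ 2)| ≤ 216 * C' * (n ^ 2 * E) := by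
    intro l hl0 hl1
    have h3 := h2 ι (1 : UG ι) l 0
    rw [← lwZ_eq] at h3
    have e1 : n ^ 2 * (p / 4 * (l ^ 2 + 0 ^ 2 + 2 * l * 0 * (utr (1 : UG ι) ^ p).re)) =
        n ^ 2 * (p / 4 * l ^ 2) := by ring
    rw [e1] at h3
    refine h3.trans ?_
    rw [abs_zero, add_zero, abs_of_nonneg hl0]
    have e2 : l * (l + 1 / n) ^ 2 ≤ 216 * E := by
      have e3 : l + 1 / n ≤ 6 * (t + 1 / n) := by
        have : 0 ≤ 1 / n := by positivity
        linarith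
      have e4 : (l + 1 / n) ^ 2 ≤ (6 * (t + 1 / n)) ^ 2 := pow_le_pow_left₀ (by positivity) e3 2
      calc l * (l + 1 / n) ^ 2 ≤ (6 * t) * (6 * (t + 1 / n)) ^ 2 :=
            mul_le_mul hl1 e4 (by positivity) (by positivity)
        _ = 216 * E := by rw [hE]; ring
    calc C' * (n ^ 2 * l * (l + 1 / n) ^ 2) = C' * n ^ 2 * (l * (l + 1 / n) ^ 2) := by ring
      _ ≤ C' * n ^ 2 * (216 * E) := mul_le_mul_of_nonneg_left e2 (by positivity)
      _ = 216 * C' * (n ^ 2 * E) := by ring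
  set lam : ℝ := 2 * t / p * (1 + ζ) with hlam
  set mu : ℝ := 2 * ζ * t / p with hmu
  have tp : t / p ≤ t := div_le_self ht p1
  have tp0 : 0 ≤ t / p := by positivity
  have elam : lam = 2 * (t / p) * (1 + ζ) := by rw [hlam]; ring
  have emu : mu = 2 * ζ * (t / p) := by rw [hmu]; ring
  have lam0 : 0 ≤ lam := by positivity
  have mu0 : 0 ≤ mu := by positivity
  have lam1 : lam ≤ 6 * t := by rw [elam]; nlinarith
  have lm0 : 0 ≤ lam - mu := by rw [elam, emu]; nlinarith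
  have lm1 : lam - mu ≤ 6 * t := by linarith
  have lp0 : 0 ≤ lam + mu := by linarith
  have lp1 : lam + mu ≤ 6 * t := by rw [elam, emu]; nlinarith
  have k1 := abs_le.1 (hL lam lam0 lam1)
  have k2 := abs_le.1 (hL (lam - mu) lm0 lm1)
  have k3 := abs_le.1 (hL (lam + mu) lp0 lp1)
  have Z1 := lwZ_pos (ι := ι) p lam
  have Z2 := lwZ_pos (ι := ι) p (lam - mu)
  have Z3 := lwZ_pos (ι := ι) p (lam + mu)
  have hsplit := lw_split_int (ι := ι) p (t := t) (z := 1 + 2 * ζ) lam0 mu0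
  rw [← hn, ← hP] at hsplit
  have q1 : Real.exp (n ^ 2 * (mu * t)) * lwZ ι p (lam - mu) ≤ 1 / 4 * lwZ ι p lam := by
    have e4 : (1 / 4 : ℝ) = Real.exp (-Real.log 4) := by
      rw [Real.exp_neg, Real.exp_log (by norm_num)]
      norm_num
    rw [e4, ← Real.exp_log Z2, ← Real.exp_log Z1, ← Real.exp_add, ← Real.exp_add]
    refine Real.exp_le_exp.2 ?_
    have e5 : n ^ 2 * (mu * t) + n ^ 2 * (p / 4 * (lam - mu) ^ 2) -
        n ^ 2 * (p / 4 * lam ^ 2) = -(n ^ 2 * (ζ ^ 2 * t ^ 2 / p)) := by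
      rw [hlam, hmu]
      field_simp
      ring
    have e6 : n ^ 2 * (ζ ^ 2 * t ^ 2 / p - 432 * C' * E) =
        n ^ 2 * (ζ ^ 2 * t ^ 2 / p) - 2 * (216 * C' * (n ^ 2 * E)) := by ring
    rw [e6] at hcond
    linarith [k1.1, k2.2]
  have q2 : Real.exp (-(n ^ 2 * (mu * ((1 + 2 * ζ) * t)))) * lwZ ι p (lam + mu) ≤
      1 / 4 * lwZ ι p lam := by
    have e4 : (1 / 4 : ℝ) = Real.exp (-Real.log 4) := by
      rw [Real.exp_neg, Real.exp_log (by norm_num)]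
      norm_num
    rw [e4, ← Real.exp_log Z3, ← Real.exp_log Z1, ← Real.exp_add, ← Real.exp_add]
    refine Real.exp_le_exp.2 ?_
    have e5 : -(n ^ 2 * (mu * ((1 + 2 * ζ) * t))) + n ^ 2 * (p / 4 * (lam + mu) ^ 2) -
        n ^ 2 * (p / 4 * lam ^ 2) = -(n ^ 2 * (ζ ^ 2 * t ^ 2 / p)) := by
      rw [hlam, hmu]
      field_simp
      ring
    have e6 : n ^ 2 * (ζ ^ 2 * t ^ 2 / p - 432 * C' * E) =
        n ^ 2 * (ζ ^ 2 * t ^ 2 / p) - 2 * (216 * C' * (n ^ 2 * E)) := by ring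
    rw [e6] at hcond
    linarith [k1.1, k3.2]
  have q3 : 1 / 2 * lwZ ι p lam ≤ Real.exp (n ^ 2 * (lam * ((1 + 2 * ζ) * t))) * P := by
    linarith
  have q4 : Real.exp (n ^ 2 * (p / 4 * lam ^ 2) - 216 * C' * (n ^ 2 * E)) ≤ lwZ ι p lam := by
    conv_rhs => rw [← Real.exp_log Z1]
    exact Real.exp_le_exp.2 (by linarith [k1.1])
  have q5 : 1 / 2 * Real.exp (n ^ 2 * (p / 4 * lam ^ 2) - 216 * C' * (n ^ 2 * E)) *
      Real.exp (-(n ^ 2 * (lam * ((1 + 2 * ζ) * t)))) ≤ P := by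
    have h7 : 1 / 2 * Real.exp (n ^ 2 * (p / 4 * lam ^ 2) - 216 * C' * (n ^ 2 * E)) ≤
        Real.exp (n ^ 2 * (lam * ((1 + 2 * ζ) * t))) * P := by linarith
    have h8 := mul_le_mul_of_nonneg_right h7
      (Real.exp_pos (-(n ^ 2 * (lam * ((1 + 2 * ζ) * t))))).le
    have h9 : Real.exp (n ^ 2 * (lam * ((1 + 2 * ζ) * t))) * P *
        Real.exp (-(n ^ 2 * (lam * ((1 + 2 * ζ) * t)))) = P := by
      rw [mul_comm, ← mul_assoc, ← Real.exp_add, neg_add_cancel, Real.exp_zero, one_mul]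
    linarith
  refine le_trans ?_ q5
  rw [mul_assoc (1 / 2 : ℝ), ← Real.exp_add]
  refine mul_le_mul_of_nonneg_left (Real.exp_le_exp.2 ?_) (by norm_num)
  have e7 : n ^ 2 * (p / 4 * lam ^ 2) - n ^ 2 * (lam * ((1 + 2 * ζ) * t)) =
      -(n ^ 2 * (t ^ 2 / p * (1 + 4 * ζ + 3 * ζ ^ 2))) := by
    rw [hlam]
    field_simp
    ring
  have e8 : 0 ≤ C' * (n ^ 2 * E) := by positivity
  have e9 : n ^ 2 * (t ^ 2 / p * (1 + 4 * ζ + 3 * ζ ^ 2) + 432 * C' * E) =
      n ^ 2 * (t ^ 2 / p * (1 + 4 * ζ + 3 * ζ ^ 2)) + 432 * (C' * (n ^ 2 * E)) := by ring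
  rw [e9]
  linarith

end Pool.Agent.OGP
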