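import Pool.Agent.OGP.Basic

/-!
# OGP: the correlating rotation (definition)
-/

open Matrix
namespace Pool.Agent.OGP

variable {ι : Type} [Fintype ι] [DecidableEq ι]

/-- A symmetry of trace zero. -/
structure TrSymm (S : Matrix ι ι ℂ) : Prop where
  herm : S.IsHermitian
  sq : S * S = 1
  tr : S.trace = 0

/-- The rotation `R exp (i β S) R⁻¹`. -/
noncomputable def Crot (β : ℝ) (S : Matrix ι ι ℂ) (R : UG ι) : UG ι :=
  R * eU ((β : ℂ) • S) * R⁻¹

end Pool.Agent.OGP
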