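import Pool.Agent.OGP.Evf
import Pool.Agent.OGP.Rot

/-!
# OGP MOM: evaluation of the group algebra, moments, Lipschitz dependence

`evM U V` is the algebra homomorphism with `evM U V (single g z) = z • evF U V g`.
* `mst` is the involution: `mst (f * g) = mst g * mst f`, additive, `mst 1 = 1`;
  `evM U V (mst f) = (evM U V f)ᴴ` (check on `single`).
* `msq f = ((mst f * f).coeff 1).re`, and the coefficient is real: `∑_g |f g|²`.
* `ntr (evM U V f) = f.coeff 1 + ∑_{g ≠ 1} f.coeff g * utr (evF U V g)`.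
* `moments_close`: for given `f`, `ε > 0` there are a finite set `Γ` of group elements `≠ 1` (the
  supports of `f` and of `mst f * f`, without `1`) and `δ > 0` such that, if
  `|utr (evF U V g)| ≤ δ` for `g ∈ Γ`, then `|ntr (evM U V f) - f.coeff 1| ≤ ε` and
  `|n2 (evM U V f)² - msq f| ≤ ε` (`n2_sq_eq_ntr`).
* `evF_lip`: `d2 (evF U V g) (evF U V' g) ≤ (length of g) d2 V V'`, by induction on the word
  (`d2_mul_le`, `d2_inv`); so `n2 (evM U V f - evM U V' f) ≤ L d2 V V'`, `L = ∑ |f g| length g`.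
-/

open Matrix MeasureTheory
namespace Pool.Agent.OGP

variable {ι : Type} [Fintype ι] [DecidableEq ι]

lemma evM_single (U V : UG ι) (g : FreeGroup (Fin 2)) (z : ℂ) :
    evM U V (MonoidAlgebra.single g z) = z • ((evF U V g : UG ι) : Matrix ι ι ℂ) := by
  unfold evM
  rw [MonoidAlgebra.lift_single]
  rfl

lemma evM_eq_sum (U V : UG ι) (f : CF) :
    evM U V f = ∑ g ∈ f.coeff.support, f.coeff g • ((evF U V g : UG ι) : Matrix ι ι ℂ) := by
  conv_lhs => rw [← MonoidAlgebra.sum_coeff_single f]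
  unfold Finsupp.sum
  rw [map_sum]
  exact Finset.sum_congr rfl fun g _ => evM_single U V g _

lemma evF_of_zero (U V : UG ι) : evF U V (FreeGroup.of 0) = U := by
  unfold evF
  rw [FreeGroup.lift_apply_of]
  rfl

lemma evF_of_one (U V : UG ι) : evF U V (FreeGroup.of 1) = V := by
  unfold evF
  rw [FreeGroup.lift_apply_of]
  rfl

lemma evM_gb (U V : UG ι) : evM U V gb = (V : Matrix ι ι ℂ) := by
  unfold gb
  rw [evM_single, evF_of_one, one_smul]

lemma evM_lau (U V : UG ι) (c : ℤ →₀ ℂ) : evM U V (lau c) = lauM c U := by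
  unfold lau lauM Finsupp.sum
  rw [map_sum]
  refine Finset.sum_congr rfl fun m _ => ?_
  rw [evM_single, map_zpow, evF_of_zero]

lemma mst_single (g : FreeGroup (Fin 2)) (z : ℂ) :
    mst (MonoidAlgebra.single g z) = MonoidAlgebra.single g⁻¹ (star z) := by
  unfold mst
  rw [MonoidAlgebra.coeff_single, Finsupp.sum_single_index]
  rw [star_zero, MonoidAlgebra.single_zero]

lemma mst_add (f g : CF) : mst (f + g) = mst f + mst g := by
  unfold mst
  rw [MonoidAlgebra.coeff_add, Finsupp.sum_add_index']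
  · intro a
    rw [star_zero, MonoidAlgebra.single_zero]
  · intro a b c
    rw [star_add, MonoidAlgebra.single_add]

lemma mst_zero : mst 0 = 0 := by
  unfold mst
  simp

/-- The involution as an additive homomorphism. -/
noncomputable def mstA : CF →+ CF where
  toFun := mst
  map_zero' := mst_zero
  map_add' := mst_add

lemma mst_sub (f g : CF) : mst (f - g) = mst f - mst g := map_sub mstA f g

lemma mst_one : mst 1 = 1 := by
  rw [MonoidAlgebra.one_def, mst_single, inv_one, star_one]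

lemma mst_mul (f g : CF) : mst (f * g) = mst g * mst f := by
  induction f using MonoidAlgebra.induction_linear with
  | zero => simp [mst_zero]
  | add f₁ f₂ h₁ h₂ => rw [add_mul, mst_add, h₁, h₂, mst_add, mul_add]
  | single a x =>
    induction g using MonoidAlgebra.induction_linear with
    | zero => simp [mst_zero]
    | add g₁ g₂ h₁ h₂ => rw [mul_add, mst_add, h₁, h₂, mst_add, add_mul]
    | single b y =>
      rw [MonoidAlgebra.single_mul_single, mst_single, mst_single, mst_single,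
        MonoidAlgebra.single_mul_single, _root_.mul_inv_rev, star_mul]

lemma evM_mst (U V : UG ι) (f : CF) : evM U V (mst f) = (evM U V f)ᴴ := by
  induction f using MonoidAlgebra.induction_linear with
  | zero => simp [mst_zero]
  | add f₁ f₂ h₁ h₂ => rw [mst_add, map_add, h₁, h₂, map_add, Matrix.conjTranspose_add]
  | single a x =>
    rw [mst_single, evM_single, evM_single, map_inv, UG_coe_inv, Matrix.conjTranspose_smul]

lemma mst_mul_coeff_one (f g : CF) :
    (mst f * g).coeff 1 = f.coeff.sum fun a z => star z * g.coeff a := by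
  induction f using MonoidAlgebra.induction_linear with
  | zero => simp [mst_zero]
  | add f₁ f₂ h₁ h₂ =>
    rw [mst_add, add_mul, MonoidAlgebra.coeff_add, Finsupp.add_apply, h₁, h₂,
      MonoidAlgebra.coeff_add, Finsupp.sum_add_index']
    · intro a
      simp
    · intro a b c
      rw [star_add, add_mul]
  | single a x =>
    rw [mst_single, MonoidAlgebra.coeff_single_mul_apply, MonoidAlgebra.coeff_single,
      Finsupp.sum_single_index]
    · simp
    · simp

lemma msq_eq (f : CF) : ((msq f : ℝ) : ℂ) = (mst f * f).coeff 1 := by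
  rw [mst_mul_coeff_one]
  unfold msq Finsupp.sum
  rw [Complex.ofReal_sum]
  refine Finset.sum_congr rfl fun g _ => ?_
  change ((‖f.coeff g‖ ^ 2 : ℝ) : ℂ) = (starRingEnd ℂ) (f.coeff g) * f.coeff g
  rw [Complex.conj_mul']
  push_cast
  rfl

lemma opn_lauM_le (c : ℤ →₀ ℂ) (U : UG ι) (X : Matrix ι ι ℂ) :
    n2 (X * lauM c U) ≤ n2 X * c.sum (fun _ z => ‖z‖) ∧
      n2 (lauM c U * X) ≤ n2 X * c.sum (fun _ z => ‖z‖) := by
  unfold lauM Finsupp.sum
  constructor
  · rw [Finset.mul_sum, Finset.mul_sum]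
    refine (n2_sum_le _ _).trans (Finset.sum_le_sum fun m _ => ?_)
    rw [Matrix.mul_smul, n2_smul, n2_mul_unitary, mul_comm]
  · rw [Finset.sum_mul, Finset.mul_sum]
    refine (n2_sum_le _ _).trans (Finset.sum_le_sum fun m _ => ?_)
    rw [Matrix.smul_mul, n2_smul, n2_unitary_mul, mul_comm]

private lemma ntr_evM_sub [Nonempty ι] (f : CF) (U V : UG ι) {δ : ℝ} (hδ : 0 ≤ δ)
    (h : ∀ g ∈ f.coeff.support, g ≠ 1 → ‖utr (evF U V g)‖ ≤ δ) :
    ‖ntr (evM U V f) - f.coeff 1‖ ≤ δ * ∑ g ∈ f.coeff.support, ‖f.coeff g‖ := by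
  have h1 : ntr (evM U V f) = ∑ g ∈ f.coeff.support, f.coeff g * utr (evF U V g) := by
    rw [evM_eq_sum, ntr_sum]
    exact Finset.sum_congr rfl fun g _ => by rw [ntr_smul]; rfl
  have h2 : f.coeff 1 = ∑ g ∈ f.coeff.support, f.coeff g * (if g = 1 then 1 else 0) := by
    simp only [mul_ite, mul_one, mul_zero]
    rw [Finset.sum_ite_eq']
    split_ifs with h3
    · rfl
    · exact Finsupp.notMem_support_iff.1 h3
  rw [h1]
  conv_lhs => rw [h2]
  rw [← Finset.sum_sub_distrib, Finset.mul_sum]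
  refine (norm_sum_le _ _).trans (Finset.sum_le_sum fun g hg => ?_)
  rw [← mul_sub, norm_mul, mul_comm]
  refine mul_le_mul_of_nonneg_right ?_ (norm_nonneg _)
  split_ifs with h3
  · rw [h3, map_one, utr_one, sub_self, norm_zero]
    exact hδ
  · rw [sub_zero]
    exact h g hg h3

theorem moments_close (f : CF) {ε : ℝ} (hε : 0 < ε) : ∃ (Γ : Finset (FreeGroup (Fin 2))) (δ : ℝ),
    0 < δ ∧ (∀ g ∈ Γ, g ≠ 1) ∧ ∀ (ι : Type) [Fintype ι] [DecidableEq ι] [Nonempty ι] (U V : UG ι),
      (∀ g ∈ Γ, ‖utr (evF U V g)‖ ≤ δ) →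
        ‖ntr (evM U V f) - f.coeff 1‖ ≤ ε ∧ |n2 (evM U V f) ^ 2 - msq f| ≤ ε := by
  set A : ℝ := ∑ g ∈ f.coeff.support, ‖f.coeff g‖ with hA
  set B : ℝ := ∑ g ∈ (mst f * f).coeff.support, ‖(mst f * f).coeff g‖ with hB
  have hA0 : 0 ≤ A := Finset.sum_nonneg fun g _ => norm_nonneg _
  have hB0 : 0 ≤ B := Finset.sum_nonneg fun g _ => norm_nonneg _
  have hd : 0 < ε / (A + B + 1) := by positivity
  refine ⟨(f.coeff.support ∪ (mst f * f).coeff.support).filter (fun g => g ≠ 1),
    ε / (A + B + 1), hd, fun g hg => (Finset.mem_filter.1 hg).2, ?_⟩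
  intro ι _ _ _ U V h
  constructor
  · refine (ntr_evM_sub f U V hd.le fun g hg hg1 => h g ?_).trans ?_
    · exact Finset.mem_filter.2 ⟨Finset.mem_union_left _ hg, hg1⟩
    · rw [div_mul_eq_mul_div, div_le_iff₀ (by positivity)]
      nlinarith
  · have h1 := ntr_evM_sub (mst f * f) U V hd.le fun g hg hg1 => h g
      (Finset.mem_filter.2 ⟨Finset.mem_union_right _ hg, hg1⟩)
    rw [← msq_eq, map_mul, evM_mst, ← n2_sq_eq_ntr, ← Complex.ofReal_sub, Complex.norm_real,
      Real.norm_eq_abs] at h1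
    refine h1.trans ?_
    rw [div_mul_eq_mul_div, div_le_iff₀ (by positivity)]
    nlinarith

lemma evF_lip (g : FreeGroup (Fin 2)) : ∃ L : ℝ, 0 ≤ L ∧
    ∀ (ι : Type) [Fintype ι] [DecidableEq ι] (U V V' : UG ι),
      d2 (evF U V g) (evF U V' g) ≤ L * d2 V V' := by
  induction g using FreeGroup.induction_on with
  | C1 =>
    refine ⟨0, le_refl _, fun ι _ _ U V V' => ?_⟩
    rw [map_one, map_one, d2_self, zero_mul]
  | of x =>
    refine ⟨1, zero_le_one, fun ι _ _ U V V' => ?_⟩
    fin_cases x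
    · change d2 (evF U V (FreeGroup.of 0)) (evF U V' (FreeGroup.of 0)) ≤ _
      rw [evF_of_zero, evF_of_zero, d2_self, one_mul]
      exact d2_nonneg _ _
    · change d2 (evF U V (FreeGroup.of 1)) (evF U V' (FreeGroup.of 1)) ≤ _
      rw [evF_of_one, evF_of_one, one_mul]
  | inv_of x ih =>
    obtain ⟨L, hL, h⟩ := ih
    refine ⟨L, hL, fun ι _ _ U V V' => ?_⟩
    rw [map_inv, map_inv, d2_inv]
    exact h ι U V V'
  | mul x y ihx ihy =>
    obtain ⟨L, hL, h⟩ := ihx
    obtain ⟨L', hL', h'⟩ := ihy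
    refine ⟨L + L', add_nonneg hL hL', fun ι _ _ U V V' => ?_⟩
    rw [map_mul, map_mul, add_mul]
    exact (d2_mul_le _ _ _ _).trans (add_le_add (h ι U V V') (h' ι U V V'))

theorem evM_lip (f : CF) : ∃ L : ℝ, 0 ≤ L ∧
    ∀ (ι : Type) [Fintype ι] [DecidableEq ι] [Nonempty ι] (U V V' : UG ι),
      n2 (evM U V f - evM U V' f) ≤ L * d2 V V' := by
  choose L hL h using evF_lip
  refine ⟨∑ g ∈ f.coeff.support, ‖f.coeff g‖ * L g,
    Finset.sum_nonneg fun g _ => mul_nonneg (norm_nonneg _) (hL g), ?_⟩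
  intro ι _ _ _ U V V'
  rw [evM_eq_sum, evM_eq_sum, ← Finset.sum_sub_distrib, Finset.sum_mul]
  refine (n2_sum_le _ _).trans (Finset.sum_le_sum fun g _ => ?_)
  rw [← smul_sub, n2_smul, mul_assoc]
  exact mul_le_mul_of_nonneg_left (h g ι U V V') (norm_nonneg _)

end Pool.Agent.OGP
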