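import Pool.Agent.OGP.Norms

/-!
# OGP TRANSF: replacing a matrix by a nearby unitary in the moment

`(V F)^p - (V W)^p = ∑_{j < p} (V F)^j (V (F - W)) (V W)^{p-1-j}` and, by cyclicity of the trace,
unitary invariance and Cauchy-Schwarz (`norm_ntr_mul_le`), the trace of each term is at most
`n2 ((V F)^j) n2 (F - W)`.
-/

open Matrix
namespace Pool.Agent.OGP

variable {ι : Type} [Fintype ι] [DecidableEq ι]

private lemma tr_aux (p : ℕ) (V W : UG ι) (F : Matrix ι ι ℂ) (G : UG ι) :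
    ‖ntr ((((V : Matrix ι ι ℂ) * F) ^ p - ((V : Matrix ι ι ℂ) * (W : Matrix ι ι ℂ)) ^ p) *
      (G : Matrix ι ι ℂ))‖ ≤
      n2 (F - (W : Matrix ι ι ℂ)) * ∑ j ∈ Finset.range p, n2 (((V : Matrix ι ι ℂ) * F) ^ j) := by
  induction p generalizing G with
  | zero => simp [ntr]
  | succ p ih =>
    have h1 : (((V : Matrix ι ι ℂ) * F) ^ (p + 1) -
        ((V : Matrix ι ι ℂ) * (W : Matrix ι ι ℂ)) ^ (p + 1)) * (G : Matrix ι ι ℂ) =
        ((V : Matrix ι ι ℂ) * F) ^ p * ((V : Matrix ι ι ℂ) * (F - (W : Matrix ι ι ℂ)) *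
          (G : Matrix ι ι ℂ)) +
        (((V : Matrix ι ι ℂ) * F) ^ p - ((V : Matrix ι ι ℂ) * (W : Matrix ι ι ℂ)) ^ p) *
          ((V * W * G : UG ι) : Matrix ι ι ℂ) := by
      rw [UG_coe_mul, UG_coe_mul, pow_succ, pow_succ]
      noncomm_ring
    rw [h1, ntr_add, Finset.sum_range_succ, mul_add, add_comm (n2 _ * _)]
    refine (norm_add_le _ _).trans (add_le_add ?_ (ih (V * W * G)))
    refine (norm_ntr_mul_le _ _).trans (le_of_eq ?_)
    rw [n2_mul_unitary, n2_unitary_mul, mul_comm]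

theorem moment_transfer (p : ℕ) (V W : UG ι) (F : Matrix ι ι ℂ) :
    ‖ntr (((V : Matrix ι ι ℂ) * F) ^ p) - Tp p V W‖ ≤
      n2 (F - (W : Matrix ι ι ℂ)) * ∑ j ∈ Finset.range p, n2 (((V : Matrix ι ι ℂ) * F) ^ j) := by
  have h := tr_aux p V W F 1
  rw [UG_coe_one, mul_one, ntr_sub] at h
  exact h

end Pool.Agent.OGP
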