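import Pool.Agent.OGP.Blockc
import Pool.Agent.OGP.Transf
import Pool.Agent.OGP.Mom

/-!
# OGP NEAR: from an approximately unitary, approximately commuting matrix to a block diagonal unitary

Deterministic.  Let `U V O : UG (JJ k N 0)` and `F` a matrix with
`n2 (Fᴴ F - 1) ≤ ε`, `n2 (F q_i(U) - q_i(U) F) ≤ 5 δ`, `n2 (q_i(U) - O P_i O⁻¹) ≤ δ`
(`q_i(U) = lauM (q i) U`, `P_i = pblk i`), `n2 ((V F)^j) ≤ B` for `j < p`, where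
`ε ≤ δ/(4 (1 + ‖q_i‖₁))` for all `i`, `‖c‖₁ = ∑ |c m|`.
Let `W` be the unitary of `exists_polar`, `n2 (F - W) ≤ ε`.  Then with `P_i' = O P_i O⁻¹`
`W P_i' - P_i' W = [W - F, q_i(U)] + [F, q_i(U)] + [W, P_i' - q_i(U)]`, of `n2` norm
`≤ 2 ε ‖q_i‖₁ + 5 δ + 2 δ ≤ 7.5 δ` (`opn_lauM_le`).  Conjugating by `O`, `exists_block` applies to
`O⁻¹ W O`: `d2 (O⁻¹ W O) (emb W₀) ≤ 3 √k 7.5 δ = 22.5 √k δ`, so
`n2 (O⁻¹ F O - emb W₀) ≤ 22.5 √k δ + ε ≤ 23 √k δ`.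
`moment_transfer` for `O⁻¹ V O`, `O⁻¹ F O`: `(O⁻¹ V O)(O⁻¹ F O) = O⁻¹ V F O`, so
`|ntr ((V F)^p) - Tp p (O⁻¹ V O) (emb W₀)| ≤ 23 √k δ p B`.
-/

open Matrix
namespace Pool.Agent.OGP

section
variable {ι : Type} [Fintype ι] [DecidableEq ι]

private lemma near_conj_n2 (O : UG ι) (X : Matrix ι ι ℂ) :
    n2 (((O⁻¹ : UG ι) : Matrix ι ι ℂ) * X * (O : Matrix ι ι ℂ)) = n2 X := by
  rw [n2_mul_unitary, n2_unitary_mul]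

private lemma near_conj_ntr (O : UG ι) (X : Matrix ι ι ℂ) :
    ntr (((O⁻¹ : UG ι) : Matrix ι ι ℂ) * X * (O : Matrix ι ι ℂ)) = ntr X := by
  rw [ntr_mul_comm, ← Matrix.mul_assoc, UG_coe_inv, UG_mul_conj, Matrix.one_mul]

private lemma near_conj_mul (O : UG ι) (X Y : Matrix ι ι ℂ) :
    (((O⁻¹ : UG ι) : Matrix ι ι ℂ) * X * (O : Matrix ι ι ℂ)) *
      (((O⁻¹ : UG ι) : Matrix ι ι ℂ) * Y * (O : Matrix ι ι ℂ)) =
      ((O⁻¹ : UG ι) : Matrix ι ι ℂ) * (X * Y) * (O : Matrix ι ι ℂ) := by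
  calc (((O⁻¹ : UG ι) : Matrix ι ι ℂ) * X * (O : Matrix ι ι ℂ)) *
      (((O⁻¹ : UG ι) : Matrix ι ι ℂ) * Y * (O : Matrix ι ι ℂ)) =
      ((O⁻¹ : UG ι) : Matrix ι ι ℂ) * X * ((O : Matrix ι ι ℂ) *
        ((O⁻¹ : UG ι) : Matrix ι ι ℂ)) * Y * (O : Matrix ι ι ℂ) := by
        simp only [Matrix.mul_assoc]
    _ = _ := by
        rw [UG_coe_inv, UG_mul_conj, Matrix.mul_one]
        simp only [Matrix.mul_assoc]

private lemma near_conj_pow (O : UG ι) (X : Matrix ι ι ℂ) (j : ℕ) :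
    (((O⁻¹ : UG ι) : Matrix ι ι ℂ) * X * (O : Matrix ι ι ℂ)) ^ j =
      ((O⁻¹ : UG ι) : Matrix ι ι ℂ) * X ^ j * (O : Matrix ι ι ℂ) := by
  induction j with
  | zero =>
    rw [pow_zero, pow_zero, Matrix.mul_one, UG_coe_inv, UG_conj_mul]
  | succ j ih => rw [pow_succ, ih, near_conj_mul, ← pow_succ]

private lemma near_comm (O W : UG ι) (P : Matrix ι ι ℂ) :
    n2 (((O⁻¹ * W * O : UG ι) : Matrix ι ι ℂ) * P -
      P * ((O⁻¹ * W * O : UG ι) : Matrix ι ι ℂ)) =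
      n2 ((W : Matrix ι ι ℂ) * ((O : Matrix ι ι ℂ) * P * ((O⁻¹ : UG ι) : Matrix ι ι ℂ)) -
        ((O : Matrix ι ι ℂ) * P * ((O⁻¹ : UG ι) : Matrix ι ι ℂ)) * (W : Matrix ι ι ℂ)) := by
  rw [← near_conj_n2 O ((W : Matrix ι ι ℂ) * ((O : Matrix ι ι ℂ) * P *
    ((O⁻¹ : UG ι) : Matrix ι ι ℂ)) - _), Matrix.mul_sub, Matrix.sub_mul]
  congr 2
  · rw [UG_coe_mul, UG_coe_mul, UG_coe_inv]
    calc (O : Matrix ι ι ℂ)ᴴ * (W : Matrix ι ι ℂ) * (O : Matrix ι ι ℂ) * P =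
        (O : Matrix ι ι ℂ)ᴴ * (W : Matrix ι ι ℂ) * (O : Matrix ι ι ℂ) * P *
          ((O : Matrix ι ι ℂ)ᴴ * (O : Matrix ι ι ℂ)) := by
          rw [UG_conj_mul, Matrix.mul_one]
      _ = _ := by simp only [Matrix.mul_assoc]
  · rw [UG_coe_mul, UG_coe_mul, UG_coe_inv]
    calc P * ((O : Matrix ι ι ℂ)ᴴ * (W : Matrix ι ι ℂ) * (O : Matrix ι ι ℂ)) =
        ((O : Matrix ι ι ℂ)ᴴ * (O : Matrix ι ι ℂ)) * (P * ((O : Matrix ι ι ℂ)ᴴ *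
          (W : Matrix ι ι ℂ) * (O : Matrix ι ι ℂ))) := by
          rw [UG_conj_mul, Matrix.one_mul]
      _ = _ := by simp only [Matrix.mul_assoc]

end

theorem near_block {p k N : ℕ} (hk : 1 ≤ k) (hN : 1 ≤ N) {q : Fin k → (ℤ →₀ ℂ)} {δ ε B : ℝ}
    (hδ : 0 < δ) (hB : 0 ≤ B) (hε : ∀ i, ε * (4 * (1 + (q i).sum fun _ z => ‖z‖)) ≤ δ)
    (U V O : UG (JJ k N 0)) (F : Matrix (JJ k N 0) (JJ k N 0) ℂ)
    (h1 : n2 (Fᴴ * F - 1) ≤ ε)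
    (h2 : ∀ i, n2 (F * lauM (q i) U - lauM (q i) U * F) ≤ 5 * δ)
    (h3 : ∀ i, n2 (lauM (q i) U - (O : Matrix (JJ k N 0) (JJ k N 0) ℂ) * pblk i *
      ((O⁻¹ : UG (JJ k N 0)) : Matrix (JJ k N 0) (JJ k N 0) ℂ)) ≤ δ)
    (h4 : ∀ j < p, n2 (((V : Matrix (JJ k N 0) (JJ k N 0) ℂ) * F) ^ j) ≤ B) :
    ∃ W₀ : KG k N,
      n2 (((O⁻¹ : UG (JJ k N 0)) : Matrix (JJ k N 0) (JJ k N 0) ℂ) * F *
        (O : Matrix (JJ k N 0) (JJ k N 0) ℂ) - (emb k N 0 W₀ : Matrix (JJ k N 0) (JJ k N 0) ℂ)) ≤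
          23 * Real.sqrt k * δ ∧
      ‖ntr (((V : Matrix (JJ k N 0) (JJ k N 0) ℂ) * F) ^ p) -
        Tp p (O⁻¹ * V * O) (emb k N 0 W₀)‖ ≤ 23 * Real.sqrt k * δ * (p * B) := by
  obtain ⟨W, hW⟩ := exists_polar F
  have hW' : n2 (F - (W : Matrix (JJ k N 0) (JJ k N 0) ℂ)) ≤ ε := hW.trans h1
  have hε0 : 0 ≤ ε := (n2_nonneg _).trans hW'
  have hk1 : 1 ≤ Real.sqrt k := by
    rw [show (1 : ℝ) = Real.sqrt 1 by simp]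
    exact Real.sqrt_le_sqrt (by exact_mod_cast hk)
  have hL0 : ∀ i, 0 ≤ (q i).sum fun _ z => ‖z‖ := fun i =>
    Finset.sum_nonneg fun _ _ => norm_nonneg _
  have hεδ : 4 * ε ≤ δ := by
    have h5 := hε ⟨0, hk⟩
    have h6 := hL0 ⟨0, hk⟩
    nlinarith
  -- the commutators
  have hcomm : ∀ i : Fin k, n2 (((O⁻¹ * W * O : UG (JJ k N 0)) : Matrix (JJ k N 0) (JJ k N 0) ℂ) * pblk i -
      pblk i * ((O⁻¹ * W * O : UG (JJ k N 0)) : Matrix (JJ k N 0) (JJ k N 0) ℂ)) ≤ 15 / 2 * δ := by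
    intro i
    rw [near_comm]
    set Q : Matrix (JJ k N 0) (JJ k N 0) ℂ := lauM (q i) U with hQ
    set P : Matrix (JJ k N 0) (JJ k N 0) ℂ := (O : Matrix (JJ k N 0) (JJ k N 0) ℂ) * pblk i * ((O⁻¹ : UG (JJ k N 0)) : Matrix (JJ k N 0) (JJ k N 0) ℂ) with hP
    set L : ℝ := (q i).sum fun _ z => ‖z‖ with hL
    have e1 : (W : Matrix (JJ k N 0) (JJ k N 0) ℂ) * P - P * (W : Matrix (JJ k N 0) (JJ k N 0) ℂ) =
        (((W : Matrix (JJ k N 0) (JJ k N 0) ℂ) - F) * Q + -(Q * ((W : Matrix (JJ k N 0) (JJ k N 0) ℂ) - F))) + (F * Q - Q * F) +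
          (-((W : Matrix (JJ k N 0) (JJ k N 0) ℂ) * (Q - P)) + (Q - P) * (W : Matrix (JJ k N 0) (JJ k N 0) ℂ)) := by
      simp only [Matrix.mul_sub, Matrix.sub_mul]
      abel
    rw [e1]
    have e2 : n2 (((W : Matrix (JJ k N 0) (JJ k N 0) ℂ) - F) * Q) ≤ ε * L := by
      have h5 := (opn_lauM_le (q i) U ((W : Matrix (JJ k N 0) (JJ k N 0) ℂ) - F)).1
      refine h5.trans (mul_le_mul_of_nonneg_right ?_ (hL0 i))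
      rw [n2_sub_comm]
      exact hW'
    have e3 : n2 (Q * ((W : Matrix (JJ k N 0) (JJ k N 0) ℂ) - F)) ≤ ε * L := by
      have h5 := (opn_lauM_le (q i) U ((W : Matrix (JJ k N 0) (JJ k N 0) ℂ) - F)).2
      refine h5.trans (mul_le_mul_of_nonneg_right ?_ (hL0 i))
      rw [n2_sub_comm]
      exact hW'
    have e4 : n2 ((W : Matrix (JJ k N 0) (JJ k N 0) ℂ) * (Q - P)) ≤ δ := by
      rw [n2_unitary_mul]
      exact h3 i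
    have e5 : n2 ((Q - P) * (W : Matrix (JJ k N 0) (JJ k N 0) ℂ)) ≤ δ := by
      rw [n2_mul_unitary]
      exact h3 i
    have e6 := h2 i
    have e7 := n2_add_le ((((W : Matrix (JJ k N 0) (JJ k N 0) ℂ) - F) * Q + -(Q * ((W : Matrix (JJ k N 0) (JJ k N 0) ℂ) - F))) + (F * Q - Q * F))
      (-((W : Matrix (JJ k N 0) (JJ k N 0) ℂ) * (Q - P)) + (Q - P) * (W : Matrix (JJ k N 0) (JJ k N 0) ℂ))
    have e8 := n2_add_le (((W : Matrix (JJ k N 0) (JJ k N 0) ℂ) - F) * Q + -(Q * ((W : Matrix (JJ k N 0) (JJ k N 0) ℂ) - F))) (F * Q - Q * F)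
    have e9 := n2_add_le (((W : Matrix (JJ k N 0) (JJ k N 0) ℂ) - F) * Q) (-(Q * ((W : Matrix (JJ k N 0) (JJ k N 0) ℂ) - F)))
    have e10 := n2_add_le (-((W : Matrix (JJ k N 0) (JJ k N 0) ℂ) * (Q - P))) ((Q - P) * (W : Matrix (JJ k N 0) (JJ k N 0) ℂ))
    rw [n2_neg] at e9 e10
    have e11 : ε * (4 * (1 + L)) ≤ δ := hε i
    have e12 : 0 ≤ L := hL0 i
    have e13 : n2 (F * Q - Q * F) ≤ 5 * δ := e6
    nlinarith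
  obtain ⟨W₀, hW₀⟩ := exists_block hk hN (O⁻¹ * W * O) hcomm
  refine ⟨W₀, ?_⟩
  have hA : n2 (((O⁻¹ : UG (JJ k N 0)) : Matrix (JJ k N 0) (JJ k N 0) ℂ) * F * (O : Matrix (JJ k N 0) (JJ k N 0) ℂ) - (emb k N 0 W₀ : Matrix (JJ k N 0) (JJ k N 0) ℂ)) ≤
      23 * Real.sqrt k * δ := by
    have e1 := n2_sub_le (((O⁻¹ : UG (JJ k N 0)) : Matrix (JJ k N 0) (JJ k N 0) ℂ) * F * (O : Matrix (JJ k N 0) (JJ k N 0) ℂ))
      ((O⁻¹ * W * O : UG (JJ k N 0)) : Matrix (JJ k N 0) (JJ k N 0) ℂ) (emb k N 0 W₀ : Matrix (JJ k N 0) (JJ k N 0) ℂ)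
    have e2 : n2 (((O⁻¹ : UG (JJ k N 0)) : Matrix (JJ k N 0) (JJ k N 0) ℂ) * F * (O : Matrix (JJ k N 0) (JJ k N 0) ℂ) -
        ((O⁻¹ * W * O : UG (JJ k N 0)) : Matrix (JJ k N 0) (JJ k N 0) ℂ)) ≤ ε := by
      have e3 : ((O⁻¹ : UG (JJ k N 0)) : Matrix (JJ k N 0) (JJ k N 0) ℂ) * F * (O : Matrix (JJ k N 0) (JJ k N 0) ℂ) -
          ((O⁻¹ * W * O : UG (JJ k N 0)) : Matrix (JJ k N 0) (JJ k N 0) ℂ) =
          ((O⁻¹ : UG (JJ k N 0)) : Matrix (JJ k N 0) (JJ k N 0) ℂ) * (F - (W : Matrix (JJ k N 0) (JJ k N 0) ℂ)) * (O : Matrix (JJ k N 0) (JJ k N 0) ℂ) := by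
        rw [UG_coe_mul, UG_coe_mul, Matrix.mul_sub, Matrix.sub_mul]
      rw [e3, near_conj_n2]
      exact hW'
    have e4 : n2 (((O⁻¹ * W * O : UG (JJ k N 0)) : Matrix (JJ k N 0) (JJ k N 0) ℂ) - (emb k N 0 W₀ : Matrix (JJ k N 0) (JJ k N 0) ℂ)) ≤
        3 * Real.sqrt k * (15 / 2 * δ) := hW₀
    nlinarith
  refine ⟨hA, ?_⟩
  have e1 := moment_transfer p (O⁻¹ * V * O) (emb k N 0 W₀)
    (((O⁻¹ : UG (JJ k N 0)) : Matrix (JJ k N 0) (JJ k N 0) ℂ) * F * (O : Matrix (JJ k N 0) (JJ k N 0) ℂ))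
  have e2 : ((O⁻¹ * V * O : UG (JJ k N 0)) : Matrix (JJ k N 0) (JJ k N 0) ℂ) *
      (((O⁻¹ : UG (JJ k N 0)) : Matrix (JJ k N 0) (JJ k N 0) ℂ) * F * (O : Matrix (JJ k N 0) (JJ k N 0) ℂ)) =
      ((O⁻¹ : UG (JJ k N 0)) : Matrix (JJ k N 0) (JJ k N 0) ℂ) * ((V : Matrix (JJ k N 0) (JJ k N 0) ℂ) * F) * (O : Matrix (JJ k N 0) (JJ k N 0) ℂ) := by
    rw [UG_coe_mul, UG_coe_mul, near_conj_mul]
  rw [e2] at e1
  simp only [near_conj_pow, near_conj_ntr, near_conj_n2] at e1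
  refine e1.trans ?_
  have e3 : ∑ j ∈ Finset.range p, n2 (((V : Matrix (JJ k N 0) (JJ k N 0) ℂ) * F) ^ j) ≤ p * B := by
    calc ∑ j ∈ Finset.range p, n2 (((V : Matrix (JJ k N 0) (JJ k N 0) ℂ) * F) ^ j) ≤ ∑ _j ∈ Finset.range p, B :=
          Finset.sum_le_sum fun j hj => h4 j (Finset.mem_range.1 hj)
      _ = p * B := by simp
  have e4 : 0 ≤ ∑ j ∈ Finset.range p, n2 (((V : Matrix (JJ k N 0) (JJ k N 0) ℂ) * F) ^ j) :=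
    Finset.sum_nonneg fun _ _ => n2_nonneg _
  exact mul_le_mul hA e3 e4 (by positivity)

end Pool.Agent.OGP
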