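import Pool.Agent.OGP.Tails
import Pool.Agent.OGP.Rot

/-!
# OGP PAIR: joint tail for the pair `(V, C V)`, `C = R exp (i β S) R⁻¹`

`S` a symmetry of trace zero; `exp (i β S) = cos β + i sin β S` (`S² = 1`).

`pair_mgf`.  For `λ ∈ [0, 1]`, `n = card ι`, `W, W'` fixed.  For fixed `R` put `A = V W`, Haar
distributed; `Tp p (C V) W' = utr ((C A W⁻¹ W')^p) = utr ((Q A)^p)`, `Q = W⁻¹ W' C`.  By `two_point`
(`l1 = l2 = λ`) the `V`-integral is at most
`exp (n² (p/2) λ² (1 + Re (utr Q)^p) + C' n² 2λ (2λ + 1/n)²)`.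
`utr Q = cos β utr (W⁻¹W') + i sin β x`, `x = ntr (W⁻¹ W' R S R⁻¹)`; since `|utr Q| ≤ 1`,
`|cos β utr (W⁻¹ W')| ≤ 1`: `Re (utr Q)^p ≤ (|cos β| |utr (W⁻¹W')|)^p + p |x|`.
The function `F R = |ntr (W⁻¹ W' R S R⁻¹)|` is phase invariant and `2`-Lipschitz for `d2`
(`S` is unitary: it is in `UG ι`), and `∫ F ≤ 16/n` by `free_word_abs` for the list
`[(true, S), (false, W⁻¹ W')]` (`utr S = 0`, `δ = 0`).  So by `conc` with `lam = n² (p²/2) λ²`:
`∫ exp (n² (p²/2) λ² F) ≤ exp (8 p² λ² n + (5/2) p⁴ λ⁴ n²)`.  Altogether (`λ ≤ 1`) the double integral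
is `≤ exp (n² ((p/2) λ² (1 + κ) + C (λ³ + λ/n)))`, `κ = (|cos β| |utr (W⁻¹ W')|)^p`.

`pair_tail`.  Chernoff with `λ = 2t/(p(1+κ)) ≤ 1`: exponent `n² (2 λ t - (p/2) λ² (1+κ)) =
n² 2 t²/(p(1+κ))`, errors with `λ ≤ 2t`.
-/

open Matrix MeasureTheory
namespace Pool.Agent.OGP

variable {ι : Type} [Fintype ι] [DecidableEq ι]

lemma pr_eU_symm {S : Matrix ι ι ℂ} (hS : TrSymm S) (β : ℝ) :
    ((eU ((β : ℂ) • S) : UG ι) : Matrix ι ι ℂ) =
      (Real.cos β : ℂ) • (1 : Matrix ι ι ℂ) + (Complex.I * Real.sin β) • S := by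
  have hH := hS.herm
  set U : UG ι := hH.eigenvectorUnitary with hU
  set s : ι → ℝ := hH.eigenvalues with hs
  have h1 : S = (U : Matrix ι ι ℂ) * Matrix.diagonal (fun i => (s i : ℂ)) *
      (U : Matrix ι ι ℂ)ᴴ := by
    have h := hH.spectral_theorem
    rw [Unitary.conjStarAlgAut_apply] at h
    exact h
  have h2 : ∀ i, s i = 1 ∨ s i = -1 := by
    intro i
    have h3 : Matrix.diagonal (fun i => (s i : ℂ)) * Matrix.diagonal (fun i => (s i : ℂ)) =
        (1 : Matrix ι ι ℂ) := by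
      have h4 : (U : Matrix ι ι ℂ)ᴴ * (S * S) * (U : Matrix ι ι ℂ) =
          Matrix.diagonal (fun i => (s i : ℂ)) * Matrix.diagonal (fun i => (s i : ℂ)) := by
        calc (U : Matrix ι ι ℂ)ᴴ * (S * S) * (U : Matrix ι ι ℂ)
            = (U : Matrix ι ι ℂ)ᴴ * (((U : Matrix ι ι ℂ) * Matrix.diagonal (fun i => (s i : ℂ)) *
              (U : Matrix ι ι ℂ)ᴴ) * ((U : Matrix ι ι ℂ) * Matrix.diagonal (fun i => (s i : ℂ)) *
              (U : Matrix ι ι ℂ)ᴴ)) * (U : Matrix ι ι ℂ) := by rw [← h1]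
          _ = ((U : Matrix ι ι ℂ)ᴴ * (U : Matrix ι ι ℂ)) * Matrix.diagonal (fun i => (s i : ℂ)) *
              ((U : Matrix ι ι ℂ)ᴴ * (U : Matrix ι ι ℂ)) * Matrix.diagonal (fun i => (s i : ℂ)) *
              ((U : Matrix ι ι ℂ)ᴴ * (U : Matrix ι ι ℂ)) := by simp only [Matrix.mul_assoc]
          _ = _ := by rw [UG_conj_mul]; simp only [Matrix.one_mul, Matrix.mul_one]
      rw [← h4, hS.sq, Matrix.mul_one, UG_conj_mul]
    rw [Matrix.diagonal_mul_diagonal] at h3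
    have h5 := congrFun (congrFun h3 i) i
    simp only [Matrix.diagonal_apply_eq, Matrix.one_apply_eq] at h5
    have h6 : s i * s i = 1 := by exact_mod_cast h5
    exact mul_self_eq_one_iff.1 h6
  have h3 : (β : ℂ) • S = (U : Matrix ι ι ℂ) * Matrix.diagonal (fun i => ((β * s i : ℝ) : ℂ)) *
      (U : Matrix ι ι ℂ)ᴴ := by
    have : Matrix.diagonal (fun i => ((β * s i : ℝ) : ℂ)) =
        (β : ℂ) • Matrix.diagonal (fun i => (s i : ℂ)) := by
      rw [← Matrix.diagonal_smul]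
      congr 1
      funext i
      simp
    rw [this, Matrix.mul_smul, Matrix.smul_mul, ← h1]
  have hD : (Matrix.diagonal (fun i => ((β * s i : ℝ) : ℂ))).IsHermitian := by
    unfold Matrix.IsHermitian
    rw [Matrix.diagonal_conjTranspose]
    congr 1
    funext i
    exact Complex.conj_ofReal _
  rw [h3, ← eU_conj U hD, UG_coe_mul, UG_coe_mul, UG_coe_inv, eU_diagonal]
  have h4 : Matrix.diagonal (fun i => Complex.exp (Complex.I * ((β * s i : ℝ) : ℂ))) =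
      (Real.cos β : ℂ) • (1 : Matrix ι ι ℂ) +
        (Complex.I * Real.sin β) • Matrix.diagonal (fun i => (s i : ℂ)) := by
    rw [← Matrix.diagonal_one, ← Matrix.diagonal_smul, ← Matrix.diagonal_smul,
      Matrix.diagonal_add]
    congr 1
    funext i
    change Complex.exp (Complex.I * ((β * s i : ℝ) : ℂ)) =
      (Real.cos β : ℂ) * 1 + (Complex.I * Real.sin β) * (s i : ℂ)
    rw [mul_comm Complex.I, Complex.exp_mul_I]
    rcases h2 i with h | h <;> rw [h] <;> simp <;> ring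
  rw [h4, Matrix.mul_add, Matrix.add_mul, Matrix.mul_smul, Matrix.smul_mul, Matrix.mul_one,
    UG_mul_conj, Matrix.mul_smul, Matrix.smul_mul, ← h1]

lemma pr_norm_pow_sub_pow_le {u v : ℂ} (hu : ‖u‖ ≤ 1) (hv : ‖v‖ ≤ 1) (p : ℕ) :
    ‖u ^ p - v ^ p‖ ≤ p * ‖u - v‖ := by
  induction p with
  | zero => simp
  | succ p ih =>
    have : u ^ (p + 1) - v ^ (p + 1) = u ^ p * (u - v) + (u ^ p - v ^ p) * v := by ring
    rw [this]
    refine (norm_add_le _ _).trans ?_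
    rw [norm_mul, norm_mul, norm_pow]
    have h1 : ‖u‖ ^ p * ‖u - v‖ ≤ ‖u - v‖ :=
      mul_le_of_le_one_left (norm_nonneg _) (pow_le_one₀ (norm_nonneg _) hu)
    have h2 : ‖u ^ p - v ^ p‖ * ‖v‖ ≤ p * ‖u - v‖ :=
      (mul_le_of_le_one_right (norm_nonneg _) hv).trans ih
    push_cast
    linarith

/-- A symmetry of trace zero as a unitary. -/
noncomputable def pr_symU {S : Matrix ι ι ℂ} (hS : TrSymm S) : UG ι :=
  ⟨S, by rw [Matrix.mem_unitaryGroup_iff, Matrix.star_eq_conjTranspose, hS.herm.eq, hS.sq]⟩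

lemma pr_utr_symU {S : Matrix ι ι ℂ} (hS : TrSymm S) : utr (pr_symU hS) = 0 := by
  change (Fintype.card ι : ℂ)⁻¹ * S.trace = 0
  rw [hS.tr, mul_zero]

lemma pr_utr_mul_Crot {S : Matrix ι ι ℂ} (hS : TrSymm S) (β : ℝ) (M R : UG ι) :
    utr (M * Crot β S R) = Real.cos β * utr M +
      Complex.I * Real.sin β * utr (M * (R * pr_symU hS * R⁻¹)) := by
  have h : ((M * Crot β S R : UG ι) : Matrix ι ι ℂ) = (Real.cos β : ℂ) • (M : Matrix ι ι ℂ) +
      (Complex.I * Real.sin β) • ((M * (R * pr_symU hS * R⁻¹) : UG ι) : Matrix ι ι ℂ) := by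
    unfold Crot
    simp only [UG_coe_mul, pr_eU_symm hS]
    change (M : Matrix ι ι ℂ) * ((R : Matrix ι ι ℂ) * _ * ((R⁻¹ : UG ι) : Matrix ι ι ℂ)) =
      _ + _ • ((M : Matrix ι ι ℂ) * ((R : Matrix ι ι ℂ) * S * ((R⁻¹ : UG ι) : Matrix ι ι ℂ)))
    rw [Matrix.mul_add, Matrix.add_mul, Matrix.mul_add, Matrix.mul_smul, Matrix.smul_mul,
      Matrix.mul_smul, Matrix.mul_one, UG_coe_inv, UG_mul_conj, Matrix.mul_one, Matrix.mul_smul,
      Matrix.smul_mul, Matrix.mul_smul]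
  unfold utr
  rw [h, ntr_add, ntr_smul, ntr_smul]

lemma pr_re_pow_Crot {S : Matrix ι ι ℂ} (hS : TrSymm S) (β : ℝ) (M R : UG ι) (p : ℕ) :
    (utr (M * Crot β S R) ^ p).re ≤ (|Real.cos β| * ‖utr M‖) ^ p +
      p * ‖utr (M * (R * pr_symU hS * R⁻¹))‖ := by
  have hc : |Real.cos β| ≤ 1 := Real.abs_cos_le_one β
  have hs : |Real.sin β| ≤ 1 := Real.abs_sin_le_one β
  have hM := norm_utr_le_one M
  have h1 : ‖((Real.cos β : ℂ) * utr M)‖ = |Real.cos β| * ‖utr M‖ := by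
    rw [norm_mul, Complex.norm_real, Real.norm_eq_abs]
  have h2 : ‖((Real.cos β : ℂ) * utr M)‖ ≤ 1 := by
    rw [h1]
    exact mul_le_one₀ hc (norm_nonneg _) hM
  have h3 := pr_norm_pow_sub_pow_le (norm_utr_le_one (M * Crot β S R)) h2 p
  have h4 : ‖utr (M * Crot β S R) - (Real.cos β : ℂ) * utr M‖ ≤
      ‖utr (M * (R * pr_symU hS * R⁻¹))‖ := by
    rw [pr_utr_mul_Crot hS, add_sub_cancel_left, norm_mul, norm_mul, Complex.norm_I, one_mul,
      Complex.norm_real, Real.norm_eq_abs]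
    exact mul_le_of_le_one_left (norm_nonneg _) hs
  have h5 : (utr (M * Crot β S R) ^ p).re ≤ ‖((Real.cos β : ℂ) * utr M) ^ p‖ +
      ‖utr (M * Crot β S R) ^ p - ((Real.cos β : ℂ) * utr M) ^ p‖ := by
    refine (Complex.re_le_norm _).trans ?_
    have := norm_add_le (((Real.cos β : ℂ) * utr M) ^ p)
      (utr (M * Crot β S R) ^ p - ((Real.cos β : ℂ) * utr M) ^ p)
    rwa [add_sub_cancel] at this
  rw [norm_pow, h1] at h5
  have h6 : (p : ℝ) * ‖utr (M * Crot β S R) - (Real.cos β : ℂ) * utr M‖ ≤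
      p * ‖utr (M * (R * pr_symU hS * R⁻¹))‖ := mul_le_mul_of_nonneg_left h4 (Nat.cast_nonneg _)
  linarith

/-- The mean of `|utr (M R S R⁻¹)|` is at most `16/n`. -/
lemma pr_int_conj_small [Nonempty ι] {S : Matrix ι ι ℂ} (hS : TrSymm S) (M : UG ι) :
    ∫ R, ‖utr (M * (R * pr_symU hS * R⁻¹))‖ ∂(haarU ι) ≤ 16 / (Fintype.card ι : ℝ) := by
  have h := free_word_abs (δ := 0) le_rfl [(true, pr_symU hS), (false, M)] (by simp) (by
    simp [pr_utr_symU hS])
  have e : ∀ R : UG ι, utr (wd R [(true, pr_symU hS), (false, M)]) =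
      utr (M * (R * pr_symU hS * R⁻¹)) := by
    intro R
    rw [utr_mul_comm M]
    congr 1
    simp [wd, mul_assoc]
  simp_rw [e] at h
  refine h.trans (le_of_eq ?_)
  simp
  ring

lemma pr_lip_conj {S : Matrix ι ι ℂ} (hS : TrSymm S) (M A B : UG ι) :
    |‖utr (M * (A * pr_symU hS * A⁻¹))‖ - ‖utr (M * (B * pr_symU hS * B⁻¹))‖| ≤ 2 * d2 A B := by
  refine (abs_norm_sub_norm_le _ _).trans ((norm_utr_sub_le _ _).trans ?_)
  rw [d2_mul_left]
  refine (d2_mul_le _ _ _ _).trans ?_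
  rw [d2_mul_right, d2_inv, two_mul]

lemma pr_phase_conj {S : Matrix ι ι ℂ} (hS : TrSymm S) (M : UG ι) :
    PhaseInv (fun R : UG ι => ‖utr (M * (R * pr_symU hS * R⁻¹))‖) := by
  intro θ A
  have : phU θ * A * pr_symU hS * (phU θ * A)⁻¹ = A * pr_symU hS * A⁻¹ := by
    rw [phU_comm]
    rw [_root_.mul_inv_rev, mul_assoc A, phU_comm, ← mul_assoc A]
    group
  change ‖utr (M * (phU θ * A * pr_symU hS * (phU θ * A)⁻¹))‖ = _
  rw [this]

lemma pr_cont_conj {S : Matrix ι ι ℂ} (hS : TrSymm S) (M : UG ι) :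
    Continuous (fun R : UG ι => ‖utr (M * (R * pr_symU hS * R⁻¹))‖) :=
  (continuous_utr.comp (continuous_const.mul
    ((continuous_id'.mul continuous_const).mul continuous_inv))).norm

/-- Exponential moment of `|utr (M R S R⁻¹)|`. -/
lemma pr_exp_conj_small [Nonempty ι] {S : Matrix ι ι ℂ} (hS : TrSymm S) (M : UG ι) {l : ℝ}
    (hl : 0 ≤ l) :
    ∫ R, Real.exp (l * ‖utr (M * (R * pr_symU hS * R⁻¹))‖) ∂(haarU ι) ≤
      Real.exp (16 * l / (Fintype.card ι : ℝ) + 10 * l ^ 2 / (Fintype.card ι : ℝ) ^ 2) := by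
  set F : UG ι → ℝ := fun R => ‖utr (M * (R * pr_symU hS * R⁻¹))‖ with hF
  have h1 := conc (F := F) (L := 2) (by norm_num) (fun A B => pr_lip_conj hS M A B)
    (pr_phase_conj hS M) l
  have h2 : ∀ R, Real.exp (l * F R) = Real.exp (l * ∫ B, F B ∂(haarU ι)) *
      Real.exp (l * (F R - ∫ B, F B ∂(haarU ι))) := by
    intro R
    rw [← Real.exp_add]
    congr 1
    ring
  change ∫ R, Real.exp (l * F R) ∂(haarU ι) ≤ _
  simp_rw [h2]
  rw [integral_const_mul, Real.exp_add]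
  refine mul_le_mul ?_ (h1.trans ?_) (integral_nonneg fun R => (Real.exp_pos _).le)
    (Real.exp_pos _).le
  · refine Real.exp_le_exp.2 ?_
    have := mul_le_mul_of_nonneg_left (pr_int_conj_small hS M) hl
    refine this.trans (le_of_eq ?_)
    ring
  · refine Real.exp_le_exp.2 (le_of_eq ?_)
    ring

lemma pr_utr_pow_comm (X Y : UG ι) (p : ℕ) : utr ((X * Y) ^ p) = utr ((Y * X) ^ p) := by
  have : X * Y = X * (Y * X) * X⁻¹ := by group
  rw [this, conj_pow, utr_conj]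

lemma pr_continuous_Crot (β : ℝ) (S : Matrix ι ι ℂ) : Continuous (fun R : UG ι => Crot β S R) := by
  unfold Crot
  exact (continuous_id'.mul continuous_const).mul continuous_inv

lemma pr_continuous_Tp (p : ℕ) : Continuous (fun x : UG ι × UG ι => Tp p x.1 x.2) := by
  unfold Tp
  exact continuous_utr.comp ((continuous_fst.mul continuous_snd).pow p)

lemma pr_inner_eq (p : ℕ) (C W W' : UG ι) (lam : ℝ) :
    ∫ V, Real.exp ((Fintype.card ι : ℝ) ^ 2 * (lam * (Tp p V W).re +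
        lam * (Tp p (C * V) W').re)) ∂(haarU ι) =
      ∫ A, Real.exp (Gf p (W⁻¹ * W' * C) lam lam A) ∂(haarU ι) := by
  rw [← integral_mul_right_eq_self (fun A => Real.exp (Gf p (W⁻¹ * W' * C) lam lam A)) W]
  refine integral_congr_ae (Filter.Eventually.of_forall fun V => ?_)
  have h : utr ((W⁻¹ * W' * C * (V * W)) ^ p) = Tp p (C * V) W' := by
    have e : W⁻¹ * W' * C * (V * W) = W⁻¹ * (W' * (C * V)) * (W⁻¹)⁻¹ := by group
    rw [e, conj_pow, utr_conj, pr_utr_pow_comm]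
    rfl
  change Real.exp _ = Real.exp (Gf p (W⁻¹ * W' * C) lam lam (V * W))
  unfold Gf
  rw [h]
  rfl

lemma pr_inner_le [Nonempty ι] {p : ℕ} {C' : ℝ} (hC' : 0 ≤ C')
    (h2 : ∀ (Q : UG ι) (l1 l2 : ℝ),
      |Real.log (∫ A, Real.exp (Gf p Q l1 l2 A) ∂(haarU ι)) -
        (Fintype.card ι : ℝ) ^ 2 * (p / 4 * (l1 ^ 2 + l2 ^ 2 + 2 * l1 * l2 * (utr Q ^ p).re))| ≤
      C' * ((Fintype.card ι : ℝ) ^ 2 * (|l1| + |l2|) *
        (|l1| + |l2| + 1 / (Fintype.card ι : ℝ)) ^ 2))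
    {S : Matrix ι ι ℂ} (hS : TrSymm S) (β : ℝ) (W W' R : UG ι) {lam : ℝ} (hl : 0 ≤ lam) :
    ∫ V, Real.exp ((Fintype.card ι : ℝ) ^ 2 * (lam * (Tp p V W).re +
        lam * (Tp p (Crot β S R * V) W').re)) ∂(haarU ι) ≤
      Real.exp ((Fintype.card ι : ℝ) ^ 2 * (p / 2 * lam ^ 2 *
        (1 + (|Real.cos β| * ‖utr (W⁻¹ * W')‖) ^ p) + 16 * C' * (lam ^ 3 +
          lam / (Fintype.card ι : ℝ)))) *
      Real.exp ((Fintype.card ι : ℝ) ^ 2 * (p ^ 2 / 2) * lam ^ 2 *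
        ‖utr (W⁻¹ * W' * (R * pr_symU hS * R⁻¹))‖) := by
  set n : ℝ := (Fintype.card ι : ℝ) with hn
  have n1 : 1 ≤ n := by
    rw [hn]
    exact_mod_cast Fintype.card_pos
  have n0 : 0 < n := by linarith
  rw [pr_inner_eq]
  have h3 := h2 (W⁻¹ * W' * Crot β S R) lam lam
  have hpos := int_exp_pos (continuous_Gf p (W⁻¹ * W' * Crot β S R) lam lam)
  rw [← Real.exp_add, ← Real.exp_log hpos]
  refine Real.exp_le_exp.2 ?_
  have h4 := (abs_le.1 h3).2
  have h5 := pr_re_pow_Crot hS β (W⁻¹ * W') R p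
  rw [abs_of_nonneg hl] at h4
  set κ := (|Real.cos β| * ‖utr (W⁻¹ * W')‖) ^ p with hκ
  set F := ‖utr (W⁻¹ * W' * (R * pr_symU hS * R⁻¹))‖ with hF
  set q := (utr (W⁻¹ * W' * Crot β S R) ^ p).re with hq
  have h6 : n ^ 2 * (p / 4 * (lam ^ 2 + lam ^ 2 + 2 * lam * lam * q)) ≤
      n ^ 2 * (p / 2 * lam ^ 2 * (1 + κ)) + n ^ 2 * (p ^ 2 / 2) * lam ^ 2 * F := by
    have e1 : n ^ 2 * (p / 4 * (lam ^ 2 + lam ^ 2 + 2 * lam * lam * q)) =
        n ^ 2 * (p / 2 * lam ^ 2) * (1 + q) := by ring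
    have e2 : n ^ 2 * (p / 2 * lam ^ 2 * (1 + κ)) + n ^ 2 * (p ^ 2 / 2) * lam ^ 2 * F =
        n ^ 2 * (p / 2 * lam ^ 2) * (1 + (κ + p * F)) := by ring
    rw [e1, e2]
    exact mul_le_mul_of_nonneg_left (by linarith) (by positivity)
  have h7 : C' * (n ^ 2 * (lam + lam) * (lam + lam + 1 / n) ^ 2) ≤
      n ^ 2 * (16 * C' * (lam ^ 3 + lam / n)) := by
    have e3 : (lam + lam + 1 / n) ^ 2 ≤ 8 * lam ^ 2 + 2 / n ^ 2 := by
      have : 8 * lam ^ 2 + 2 / n ^ 2 - (lam + lam + 1 / n) ^ 2 = (2 * lam - 1 / n) ^ 2 := by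
        field_simp
        ring
      nlinarith [sq_nonneg (2 * lam - 1 / n)]
    have e4 : 2 / n ^ 2 ≤ 2 / n := by
      refine div_le_div_of_nonneg_left (by norm_num) n0 ?_
      nlinarith
    calc C' * (n ^ 2 * (lam + lam) * (lam + lam + 1 / n) ^ 2)
        ≤ C' * (n ^ 2 * (lam + lam) * (8 * lam ^ 2 + 2 / n)) := by
          refine mul_le_mul_of_nonneg_left ?_ hC'
          exact mul_le_mul_of_nonneg_left (by linarith) (by positivity)
      _ = n ^ 2 * (C' * (16 * lam ^ 3 + 4 * (lam / n))) := by ring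
      _ ≤ n ^ 2 * (16 * C' * (lam ^ 3 + lam / n)) := by
          refine mul_le_mul_of_nonneg_left ?_ (by positivity)
          have : 0 ≤ C' * (lam / n) := by positivity
          nlinarith
  have e5 : n ^ 2 * (p / 2 * lam ^ 2 * (1 + κ) + 16 * C' * (lam ^ 3 + lam / n)) =
      n ^ 2 * (p / 2 * lam ^ 2 * (1 + κ)) + n ^ 2 * (16 * C' * (lam ^ 3 + lam / n)) := by ring
  rw [e5]
  linarith

lemma pr_cont_pair1 (p : ℕ) (W : UG ι) :
    Continuous (fun x : UG ι × UG ι => Tp p x.1 W) := by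
  unfold Tp
  exact continuous_utr.comp ((continuous_fst.mul continuous_const).pow p)

lemma pr_cont_pair2 (p : ℕ) (β : ℝ) (S : Matrix ι ι ℂ) (W' : UG ι) :
    Continuous (fun x : UG ι × UG ι => Tp p (Crot β S x.2 * x.1) W') := by
  have h : Continuous (fun x : UG ι × UG ι => Crot β S x.2) := by
    unfold Crot
    exact (continuous_snd.mul continuous_const).mul continuous_snd.inv
  unfold Tp
  exact continuous_utr.comp (((h.mul continuous_fst).mul continuous_const).pow p)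

lemma pr_cont_pair (p : ℕ) (β : ℝ) (S : Matrix ι ι ℂ) (W W' : UG ι) (a : ℝ) (lam : ℝ) :
    Continuous (fun x : UG ι × UG ι => Real.exp (a * (lam * (Tp p x.1 W).re +
        lam * (Tp p (Crot β S x.2 * x.1) W').re))) := by
  have h1 := pr_cont_pair1 p W
  have h2 := pr_cont_pair2 p β S W'
  exact (continuous_const.mul ((continuous_const.mul (Complex.continuous_re.comp h1)).add
    (continuous_const.mul (Complex.continuous_re.comp h2)))).rexp

theorem pair_mgf (p : ℕ) (hp : 1 ≤ p) : ∃ C : ℝ, 0 ≤ C ∧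
    ∀ (ι : Type) [Fintype ι] [DecidableEq ι] [Nonempty ι] (S : Matrix ι ι ℂ), TrSymm S →
      ∀ (β : ℝ) (W W' : UG ι) (lam : ℝ), 0 ≤ lam → lam ≤ 1 →
      ∫ x : UG ι × UG ι, Real.exp ((Fintype.card ι : ℝ) ^ 2 * (lam * (Tp p x.1 W).re +
        lam * (Tp p (Crot β S x.2 * x.1) W').re)) ∂((haarU ι).prod (haarU ι)) ≤
        Real.exp ((Fintype.card ι : ℝ) ^ 2 *
          (p / 2 * lam ^ 2 * (1 + (|Real.cos β| * ‖utr (W⁻¹ * W')‖) ^ p) +
            C * (lam ^ 3 + lam / (Fintype.card ι : ℝ)))) := by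
  obtain ⟨C', hC', h2⟩ := two_point p hp
  refine ⟨16 * C' + 8 * p ^ 4, by positivity, ?_⟩
  intro ι _ _ _ S hS β W W' lam hl hl1
  set n : ℝ := (Fintype.card ι : ℝ) with hn
  have n1 : 1 ≤ n := by
    rw [hn]
    exact_mod_cast Fintype.card_pos
  have n0 : 0 < n := by linarith
  have p1 : (1 : ℝ) ≤ p := by exact_mod_cast hp
  have hint : Integrable (fun x : UG ι × UG ι => Real.exp (n ^ 2 * (lam * (Tp p x.1 W).re +
        lam * (Tp p (Crot β S x.2 * x.1) W').re))) ((haarU ι).prod (haarU ι)) :=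
    (pr_cont_pair p β S W W' (n ^ 2) lam).integrable_of_hasCompactSupport
      (HasCompactSupport.of_compactSpace _)
  rw [integral_prod_symm _ hint]
  set A : ℝ := n ^ 2 * (p / 2 * lam ^ 2 *
        (1 + (|Real.cos β| * ‖utr (W⁻¹ * W')‖) ^ p) + 16 * C' * (lam ^ 3 + lam / n)) with hA
  set l : ℝ := n ^ 2 * (p ^ 2 / 2) * lam ^ 2 with hl'
  have hl0 : 0 ≤ l := by positivity
  have h3 : ∫ R, ∫ V, Real.exp (n ^ 2 * (lam * (Tp p V W).re +
        lam * (Tp p (Crot β S R * V) W').re)) ∂(haarU ι) ∂(haarU ι) ≤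
      ∫ R, Real.exp A * Real.exp (l * ‖utr (W⁻¹ * W' * (R * pr_symU hS * R⁻¹))‖) ∂(haarU ι) := by
    refine integral_mono hint.integral_prod_right (int_contR ?_)
      (fun R => pr_inner_le hC' (h2 ι) hS β W W' R hl)
    exact continuous_const.mul (continuous_const.mul (pr_cont_conj hS _)).rexp
  refine h3.trans ?_
  rw [integral_const_mul]
  refine (mul_le_mul_of_nonneg_left (pr_exp_conj_small hS (W⁻¹ * W') hl0)
    (Real.exp_pos _).le).trans ?_
  rw [← Real.exp_add]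
  refine Real.exp_le_exp.2 ?_
  have e1 : 16 * l / n ≤ n ^ 2 * (8 * p ^ 4 * (lam / n)) := by
    have e2 : 16 * l / n = n ^ 2 * (8 * p ^ 2 * (lam / n)) * lam := by
      rw [hl']
      ring
    rw [e2]
    have e3 : n ^ 2 * (8 * p ^ 2 * (lam / n)) * lam ≤ n ^ 2 * (8 * p ^ 2 * (lam / n)) :=
      mul_le_of_le_one_right (by positivity) hl1
    refine e3.trans (mul_le_mul_of_nonneg_left ?_ (by positivity))
    refine mul_le_mul_of_nonneg_right ?_ (by positivity)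
    have : (p : ℝ) ^ 2 ≤ p ^ 4 := pow_le_pow_right₀ p1 (by norm_num)
    linarith
  have e4 : 10 * l ^ 2 / n ^ 2 ≤ n ^ 2 * (8 * p ^ 4 * lam ^ 3) := by
    have e5 : 10 * l ^ 2 / n ^ 2 = n ^ 2 * (5 / 2 * p ^ 4 * lam ^ 3) * lam := by
      rw [hl']
      field_simp
      ring
    rw [e5]
    have e6 : n ^ 2 * (5 / 2 * p ^ 4 * lam ^ 3) * lam ≤ n ^ 2 * (5 / 2 * p ^ 4 * lam ^ 3) :=
      mul_le_of_le_one_right (by positivity) hl1
    refine e6.trans (mul_le_mul_of_nonneg_left ?_ (by positivity))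
    have : 0 ≤ (p : ℝ) ^ 4 * lam ^ 3 := by positivity
    nlinarith
  have e7 : n ^ 2 * (p / 2 * lam ^ 2 * (1 + (|Real.cos β| * ‖utr (W⁻¹ * W')‖) ^ p) +
      (16 * C' + 8 * p ^ 4) * (lam ^ 3 + lam / n)) = A + (n ^ 2 * (8 * p ^ 4 * (lam / n)) +
        n ^ 2 * (8 * p ^ 4 * lam ^ 3)) := by
    rw [hA]
    ring
  rw [e7]
  linarith

theorem pair_tail (p : ℕ) (hp : 1 ≤ p) : ∃ C : ℝ, 0 ≤ C ∧
    ∀ (ι : Type) [Fintype ι] [DecidableEq ι] [Nonempty ι] (S : Matrix ι ι ℂ), TrSymm S →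
      ∀ (β : ℝ) (W W' : UG ι) (t : ℝ), 0 ≤ t → t ≤ 1 / 2 →
      ((haarU ι).prod (haarU ι)).real
        {x | t ≤ (Tp p x.1 W).re ∧ t ≤ (Tp p (Crot β S x.2 * x.1) W').re} ≤
        Real.exp (-((Fintype.card ι : ℝ) ^ 2 *
          (2 * t ^ 2 / (p * (1 + (|Real.cos β| * ‖utr (W⁻¹ * W')‖) ^ p)) -
            C * (t ^ 3 + t / (Fintype.card ι : ℝ))))) := by
  obtain ⟨C, hC, h⟩ := pair_mgf p hp
  refine ⟨8 * C, by positivity, ?_⟩
  intro ι _ _ _ S hS β W W' t ht ht1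
  set n : ℝ := (Fintype.card ι : ℝ) with hn
  have n1 : 1 ≤ n := by
    rw [hn]
    exact_mod_cast Fintype.card_pos
  have n0 : 0 < n := by linarith
  have p1 : (1 : ℝ) ≤ p := by exact_mod_cast hp
  set κ : ℝ := (|Real.cos β| * ‖utr (W⁻¹ * W')‖) ^ p with hκ
  have κ0 : 0 ≤ κ := by positivity
  have d1 : 1 ≤ (p : ℝ) * (1 + κ) := by nlinarith
  have d0 : 0 < (p : ℝ) * (1 + κ) := by linarith
  set lam : ℝ := 2 * t / (p * (1 + κ)) with hlam
  have l0 : 0 ≤ lam := by positivity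
  have l2 : lam ≤ 2 * t := div_le_self (by positivity) d1
  have l1 : lam ≤ 1 := by linarith
  have h1 := h ι S hS β W W' lam l0 l1
  have hint : Integrable (fun x : UG ι × UG ι => Real.exp (n ^ 2 * (lam * (Tp p x.1 W).re +
        lam * (Tp p (Crot β S x.2 * x.1) W').re))) ((haarU ι).prod (haarU ι)) :=
    (pr_cont_pair p β S W W' (n ^ 2) lam).integrable_of_hasCompactSupport
      (HasCompactSupport.of_compactSpace _)
  set E : Set (UG ι × UG ι) :=
    {x | t ≤ (Tp p x.1 W).re ∧ t ≤ (Tp p (Crot β S x.2 * x.1) W').re} with hE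
  have c1 := pr_cont_pair1 p W
  have c2 := pr_cont_pair2 p β S W'
  have hEm : MeasurableSet E := by
    have e1 : IsClosed {x : UG ι × UG ι | t ≤ (Tp p x.1 W).re} :=
      isClosed_le continuous_const (Complex.continuous_re.comp c1)
    have e2 : IsClosed {x : UG ι × UG ι | t ≤ (Tp p (Crot β S x.2 * x.1) W').re} :=
      isClosed_le continuous_const (Complex.continuous_re.comp c2)
    exact (e1.inter e2).measurableSet
  have h3 : ((haarU ι).prod (haarU ι)).real E ≤ ∫ x, Real.exp (-(n ^ 2 * (2 * lam * t))) *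
      Real.exp (n ^ 2 * (lam * (Tp p x.1 W).re +
        lam * (Tp p (Crot β S x.2 * x.1) W').re)) ∂((haarU ι).prod (haarU ι)) := by
    rw [← integral_indicator_one hEm]
    refine integral_mono ?_ (hint.const_mul _) ?_
    · exact (integrable_const (1 : ℝ)).indicator hEm
    · intro x
      by_cases hx : x ∈ E
      · rw [Set.indicator_of_mem hx]
        change (1 : ℝ) ≤ _ * _
        rw [← Real.exp_add]
        refine Real.one_le_exp ?_
        have e3 : 0 ≤ n ^ 2 * (lam * ((Tp p x.1 W).re - t) +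
            lam * ((Tp p (Crot β S x.2 * x.1) W').re - t)) := by
          refine mul_nonneg (by positivity) (add_nonneg ?_ ?_)
          · exact mul_nonneg l0 (sub_nonneg.2 hx.1)
          · exact mul_nonneg l0 (sub_nonneg.2 hx.2)
        nlinarith
      · rw [Set.indicator_of_notMem hx]
        positivity
  refine h3.trans ?_
  rw [integral_const_mul]
  refine (mul_le_mul_of_nonneg_left h1 (Real.exp_pos _).le).trans ?_
  rw [← Real.exp_add]
  refine Real.exp_le_exp.2 ?_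
  have e4 : 2 * lam * t - p / 2 * lam ^ 2 * (1 + κ) = 2 * t ^ 2 / (p * (1 + κ)) := by
    rw [hlam]
    have : (1 + κ) ≠ 0 := by positivity
    have : (p : ℝ) ≠ 0 := by positivity
    field_simp
    ring
  have e5 : C * (lam ^ 3 + lam / n) ≤ 8 * C * (t ^ 3 + t / n) := by
    have e6 : lam ^ 3 ≤ (2 * t) ^ 3 := pow_le_pow_left₀ l0 l2 3
    have e7 : lam / n ≤ 2 * t / n := div_le_div_of_nonneg_right l2 n0.le
    have e8 : 0 ≤ t / n := by positivity
    have e9 : 2 * t / n = 2 * (t / n) := by ring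
    rw [e9] at e7
    have e10 : lam ^ 3 + lam / n ≤ 8 * (t ^ 3 + t / n) := by nlinarith
    nlinarith [mul_le_mul_of_nonneg_left e10 hC]
  rw [← e4]
  have e11 : 0 ≤ n ^ 2 := by positivity
  nlinarith [mul_le_mul_of_nonneg_left e5 e11]

end Pool.Agent.OGP
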