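import Pool.Agent.OGP.Flow
import Pool.Agent.OGP.Gue

/-!
# OGP PATH: locally Lipschitz functions and paths

`LocLip L F`: `F` is `(1 + η) L`-Lipschitz (for `dhs`) at small scales, for every `η > 0`.

* `LocLip.path`: let `γ` be `ℓ`-Lipschitz on `[0, 1]`.  For `η > 0` and `δ = δ(η)`, take `m` with
  `ℓ / m ≤ δ`; `|F (γ 1) - F (γ 0)| ≤ ∑_{j < m} |F (γ ((j+1)/m)) - F (γ (j/m))|
  ≤ ∑ (1 + η) L ℓ / m = (1 + η) L ℓ`.  Let `η → 0`.
* `LocLip.step`: path `γ s = A * (eU (s X) * u * eU (s X))`.  By `eU_add_smul`,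
  `γ t = A * (eU ((t-s) X) * u' * eU ((t-s) X))` with `u' = eU (s X) * u * eU (s X)`, so
  `dhs (γ s) (γ t) ≤ |t - s| hs (X u' + u' X)` by `hs_flow` (for `(t - s) X`), and
  `X u' + u' X = e^{isX} (X u + u X) e^{isX}` has the same `hs` as `X u + u X`.
* `LocLip.gauss`: path `γ s = A * eU (ε (gH (g' + s (g - g'))))`; `dhs (γ s) (γ t) ≤
  ε |s - t| hs (gH (g - g'))` by `hs_eU_sub`, and `hs_gH_sq_le`.
-/

open Matrix MeasureTheory
open Pool.Agent.Helper62.Disc
namespace Pool.Agent.OGP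

variable {ι : Type} [Fintype ι] [DecidableEq ι]

/-- `F` is `(1 + η) L`-Lipschitz for the Hilbert-Schmidt distance at small scales, for all `η`. -/
def LocLip (L : ℝ) (F : UG ι → ℝ) : Prop :=
  ∀ η : ℝ, 0 < η → ∃ δ : ℝ, 0 < δ ∧ ∀ A B : UG ι, dhs A B ≤ δ →
    |F A - F B| ≤ (1 + η) * L * dhs A B

lemma path_dhs_nonneg (A B : UG ι) : 0 ≤ dhs A B := hs_nonneg _

lemma path_dhs_mul_left (U A B : UG ι) : dhs (U * A) (U * B) = dhs A B := by
  unfold dhs
  rw [UG_coe_mul, UG_coe_mul, ← Matrix.mul_sub, hs_unitary_mul]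

lemma path_dhs_comm (A B : UG ι) : dhs A B = dhs B A := hs_sub_comm _ _

lemma path_continuous_dhs (A : UG ι) : Continuous fun B : UG ι => dhs B A := by
  unfold dhs
  exact continuous_hs.comp (continuous_subtype_val.sub continuous_const)

lemma LocLip.of_lip {L : ℝ} (hL : 0 ≤ L) {F : UG ι → ℝ}
    (hF : ∀ A B, |F A - F B| ≤ L * dhs A B) : LocLip L F := by
  intro η hη
  refine ⟨1, one_pos, fun A B _ => (hF A B).trans ?_⟩
  have h1 : 0 ≤ L * dhs A B := mul_nonneg hL (path_dhs_nonneg A B)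
  nlinarith [mul_nonneg hη.le h1]

lemma LocLip.continuous {L : ℝ} (hL : 0 ≤ L) {F : UG ι → ℝ} (hF : LocLip L F) :
    Continuous F := by
  obtain ⟨δ, hδ, h⟩ := hF 1 one_pos
  rw [continuous_iff_continuousAt]
  intro A
  unfold ContinuousAt
  rw [tendsto_iff_dist_tendsto_zero]
  have h0 : dhs A A = 0 := by
    unfold dhs
    rw [sub_self, hs_zero]
  have h1 : Filter.Tendsto (fun B : UG ι => dhs B A) (nhds A) (nhds 0) := by
    have h2 := (path_continuous_dhs A).tendsto A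
    rwa [h0] at h2
  have h3 : ∀ᶠ B in nhds A, dhs B A ≤ δ := by
    filter_upwards [h1.eventually (gt_mem_nhds hδ)] with B hB using hB.le
  refine squeeze_zero' (Filter.Eventually.of_forall fun B => dist_nonneg)
    (g := fun B => (1 + 1) * L * dhs B A) ?_ ?_
  · filter_upwards [h3] with B hB
    rw [Real.dist_eq]
    exact h B A hB
  · have h4 := h1.const_mul ((1 + 1) * L)
    rwa [mul_zero] at h4

lemma LocLip.path {L : ℝ} (hL : 0 ≤ L) {F : UG ι → ℝ} (hF : LocLip L F) {γ : ℝ → UG ι} {ℓ : ℝ}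
    (hℓ : 0 ≤ ℓ)
    (hγ : ∀ s t : ℝ, 0 ≤ s → s ≤ 1 → 0 ≤ t → t ≤ 1 → dhs (γ s) (γ t) ≤ ℓ * |s - t|) :
    |F (γ 1) - F (γ 0)| ≤ L * ℓ := by
  have key : ∀ η : ℝ, 0 < η → |F (γ 1) - F (γ 0)| ≤ (1 + η) * L * ℓ := by
    intro η hη
    obtain ⟨δ, hδ, h⟩ := hF η hη
    obtain ⟨m, hm⟩ := exists_nat_gt (ℓ / δ)
    have hm0 : (0 : ℝ) < m := lt_of_le_of_lt (by positivity) hm
    have hmδ : ℓ / m ≤ δ := by
      rw [div_lt_iff₀ hδ] at hm
      rw [div_le_iff₀ hm0]
      linarith [mul_comm (m : ℝ) δ]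
    have hstep : ∀ j : ℕ, j < m →
        |F (γ (((j + 1 : ℕ) : ℝ) / m)) - F (γ ((j : ℝ) / m))| ≤ (1 + η) * L * (ℓ / m) := by
      intro j hj
      have hj1 : ((j + 1 : ℕ) : ℝ) ≤ m := by exact_mod_cast hj
      have hj2 : (j : ℝ) ≤ m := by exact_mod_cast hj.le
      have h1 := hγ (((j + 1 : ℕ) : ℝ) / m) ((j : ℝ) / m) (by positivity)
        ((div_le_one hm0).2 hj1) (by positivity) ((div_le_one hm0).2 hj2)
      have h2 : ((j + 1 : ℕ) : ℝ) / m - (j : ℝ) / m = 1 / m := by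
        push_cast
        ring
      rw [h2, abs_of_nonneg (by positivity), mul_one_div] at h1
      refine (h _ _ (h1.trans hmδ)).trans ?_
      exact mul_le_mul_of_nonneg_left h1 (by positivity)
    have hsum : ∀ j : ℕ, j ≤ m →
        |F (γ ((j : ℝ) / m)) - F (γ 0)| ≤ j * ((1 + η) * L * (ℓ / m)) := by
      intro j
      induction j with
      | zero =>
        intro _
        simp
      | succ j ih =>
        intro hj
        have h1 := ih (by omega)
        have h2 := hstep j (by omega)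
        have h3 := abs_sub_le (F (γ (((j + 1 : ℕ) : ℝ) / m))) (F (γ ((j : ℝ) / m))) (F (γ 0))
        push_cast at h1 h2 h3 ⊢
        linarith
    have h1 := hsum m le_rfl
    rw [div_self hm0.ne'] at h1
    refine h1.trans (le_of_eq ?_)
    field_simp
  refine le_of_forall_pos_le_add fun ε hε => ?_
  have hLl : 0 ≤ L * ℓ := mul_nonneg hL hℓ
  refine (key (ε / (L * ℓ + 1)) (by positivity)).trans ?_
  have h1 : ε / (L * ℓ + 1) * (L * ℓ) ≤ ε := by
    rw [div_mul_eq_mul_div, div_le_iff₀ (by positivity)]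
    nlinarith
  nlinarith

lemma path_commute {X : Matrix ι ι ℂ} (hX : X.IsHermitian) (s : ℝ) :
    X * (eU ((s : ℂ) • X) : Matrix ι ι ℂ) = (eU ((s : ℂ) • X) : Matrix ι ι ℂ) * X := by
  rw [eU_coe (isHermitian_smul hX s)]
  have h1 : Commute X (Complex.I • (s : ℂ) • X) :=
    ((Commute.refl X).smul_right (s : ℂ)).smul_right Complex.I
  exact h1.exp_right.eq

lemma LocLip.step {L : ℝ} (hL : 0 ≤ L) {F : UG ι → ℝ} (hF : LocLip L F) (A u : UG ι)
    {X : Matrix ι ι ℂ} (hX : X.IsHermitian) :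
    |F (A * (eU X * u * eU X)) - F (A * u)| ≤
      L * hs (X * (u : Matrix ι ι ℂ) + (u : Matrix ι ι ℂ) * X) := by
  have key := hF.path hL (γ := fun s : ℝ => A * (eU ((s : ℂ) • X) * u * eU ((s : ℂ) • X)))
    (ℓ := hs (X * (u : Matrix ι ι ℂ) + (u : Matrix ι ι ℂ) * X)) (hs_nonneg _) ?_
  · simpa only [Complex.ofReal_one, one_smul, Complex.ofReal_zero, zero_smul, eU_zero, one_mul,
      mul_one] using key
  · intro s t _ _ _ _
    rw [path_dhs_mul_left]
    set E := (eU ((s : ℂ) • X) : UG ι) with hE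
    set u' := E * u * E with hu'
    have h1 : eU ((t : ℂ) • X) * u * eU ((t : ℂ) • X) =
        eU (((t - s : ℝ) : ℂ) • X) * u' * eU (((t - s : ℝ) : ℂ) • X) := by
      have h2 : eU ((t : ℂ) • X) = eU (((t - s : ℝ) : ℂ) • X) * E := by
        rw [hE, ← eU_add_smul hX]
        congr 3
        ring
      have h3 : eU ((t : ℂ) • X) = E * eU (((t - s : ℝ) : ℂ) • X) := by
        rw [hE, ← eU_add_smul hX]
        congr 3
        ring
      have h4 : eU ((t : ℂ) • X) * u * eU ((t : ℂ) • X) =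
          (eU (((t - s : ℝ) : ℂ) • X) * E) * u * (E * eU (((t - s : ℝ) : ℂ) • X)) := by
        rw [← h2, ← h3]
      rw [h4, hu']
      simp only [mul_assoc]
    rw [h1, path_dhs_comm]
    unfold dhs
    have hH := isHermitian_smul hX (t - s)
    rw [UG_coe_mul, UG_coe_mul]
    refine (hs_flow hH hH (u' : Matrix ι ι ℂ)).trans ?_
    have hc := path_commute hX s
    rw [← hE] at hc
    have h5 : (((t - s : ℝ) : ℂ) • X) * (u' : Matrix ι ι ℂ) +
        (u' : Matrix ι ι ℂ) * (((t - s : ℝ) : ℂ) • X) =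
        ((t - s : ℝ) : ℂ) • ((E : Matrix ι ι ℂ) * ((X * (u : Matrix ι ι ℂ) +
          (u : Matrix ι ι ℂ) * X) * (E : Matrix ι ι ℂ))) := by
      rw [Matrix.smul_mul, Matrix.mul_smul, ← smul_add]
      congr 1
      rw [hu', UG_coe_mul, UG_coe_mul]
      simp only [Matrix.mul_add, Matrix.add_mul, ← Matrix.mul_assoc]
      rw [hc]
      congr 1
      simp only [Matrix.mul_assoc]
      rw [hc]
    rw [h5, hs_smul, hs_unitary_mul, hs_mul_unitary, Complex.norm_real, Real.norm_eq_abs,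
      abs_sub_comm, mul_comm]

lemma LocLip.gauss {L : ℝ} (hL : 0 ≤ L) {F : UG ι → ℝ} (hF : LocLip L F) (A : UG ι) {ε : ℝ}
    (hε : 0 ≤ ε) :
    LipOn (ε ^ 2 * L ^ 2) (fun g => F (A * eU ((ε : ℂ) • gH g))) Set.univ := by
  intro g _ g' _
  have key := hF.path hL (γ := fun s : ℝ => A * eU ((ε : ℂ) • gH (g' + s • (g - g'))))
    (ℓ := ε * hs (gH (g - g'))) (mul_nonneg hε (hs_nonneg _)) ?_
  · simp only [one_smul, add_sub_cancel, zero_smul, add_zero] at key
    simp only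
    have h1 : (F (A * eU ((ε : ℂ) • gH g)) - F (A * eU ((ε : ℂ) • gH g'))) ^ 2 ≤
        (L * (ε * hs (gH (g - g')))) ^ 2 := by
      rw [← sq_abs]
      exact pow_le_pow_left₀ (abs_nonneg _) key 2
    refine h1.trans ?_
    have h2 := hs_gH_sq_le (g - g')
    simp only [Pi.sub_apply] at h2
    have h3 : (L * (ε * hs (gH (g - g')))) ^ 2 = ε ^ 2 * L ^ 2 * hs (gH (g - g')) ^ 2 := by ring
    rw [h3]
    exact mul_le_mul_of_nonneg_left h2 (by positivity)
  · intro s t _ _ _ _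
    rw [path_dhs_mul_left]
    unfold dhs
    refine (hs_eU_sub (isHermitian_smul (gH_isHermitian _) ε)
      (isHermitian_smul (gH_isHermitian _) ε)).trans ?_
    have h1 : (ε : ℂ) • gH (g' + s • (g - g')) - (ε : ℂ) • gH (g' + t • (g - g')) =
        ((ε * (s - t) : ℝ) : ℂ) • gH (g - g') := by
      rw [← smul_sub, gH_sub]
      have h2 : g' + s • (g - g') - (g' + t • (g - g')) = (s - t) • (g - g') := by
        rw [sub_smul]
        abel
      rw [h2, ← gH_smul, smul_smul]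
      congr 1
      push_cast
      ring
    rw [h1, hs_smul, Complex.norm_real, Real.norm_eq_abs, abs_mul, abs_of_nonneg hε]
    exact le_of_eq (by ring)

/-- A locally Lipschitz function is globally Lipschitz for `dhs` up to a constant: every two
unitaries are joined by the path `A * eU (s X)`, `B = A * eU X`, with `hs X ≤ π √n`. -/
lemma LocLip.diam {L : ℝ} (hL : 0 ≤ L) {F : UG ι → ℝ} (hF : LocLip L F) (A B : UG ι)
    {X : Matrix ι ι ℂ} (hX : X.IsHermitian) (hB : B = A * eU X) :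
    |F B - F A| ≤ L * hs X := by
  have key := hF.path hL (γ := fun s : ℝ => A * eU ((s : ℂ) • X))
    (ℓ := hs X) (hs_nonneg _) ?_
  · rw [hB]
    simpa only [Complex.ofReal_one, one_smul, Complex.ofReal_zero, zero_smul, eU_zero,
      mul_one] using key
  · intro s t _ _ _ _
    rw [path_dhs_mul_left]
    unfold dhs
    refine (hs_eU_sub (isHermitian_smul hX s) (isHermitian_smul hX t)).trans ?_
    rw [← sub_smul, ← Complex.ofReal_sub, hs_smul, Complex.norm_real, Real.norm_eq_abs, mul_comm]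

end Pool.Agent.OGP
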