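import Pool.Agent.OGP.Norms
import Pool.Agent.OGP.Opn

/-!
# OGP POLAR: the nearest unitary

For every matrix `F` there is a unitary `W` with `n2 (F - W) ≤ n2 (Fᴴ F - 1)`.
Proof.  If `F` is invertible, diagonalise `Fᴴ F = O diag(s²) O*` with `s_j > 0`
(`Matrix.IsHermitian.spectral_theorem`, `Matrix.posDef_conjTranspose_mul_self`-type facts), put
`P = O diag(s) O*`, `W = F P⁻¹`: `Wᴴ W = P⁻¹ Fᴴ F P⁻¹ = 1`, `F - W = W (P - 1)`, so
`hs (F - W)² = ∑ (s_j - 1)² ≤ ∑ (s_j² - 1)² = hs (Fᴴ F - 1)²` since `|s - 1| ≤ |s - 1| (s + 1)`.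
General `F`: `F + t 1` is invertible for all but finitely many real `t`; take `t_j → 0`, unitaries
`W_j` for `F + t_j`, and a limit point of `W_j` in the compact group; the norms are continuous.
-/

open Matrix
open scoped Topology ComplexOrder
namespace Pool.Agent.OGP

variable {ι : Type} [Fintype ι] [DecidableEq ι]

lemma polar_conj {F : Matrix ι ι ℂ} (U V : UG ι) (s : ι → ℝ)
    (h : F * (U : Matrix ι ι ℂ) = (V : Matrix ι ι ℂ) * Matrix.diagonal (fun x => (s x : ℂ)))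
    (hs0 : ∀ x, 0 ≤ s x) :
    ∃ W : UG ι, n2 (F - (W : Matrix ι ι ℂ)) ≤ n2 (Fᴴ * F - 1) := by
  set D : Matrix ι ι ℂ := Matrix.diagonal (fun x => (s x : ℂ)) with hD
  have hF : F = (V : Matrix ι ι ℂ) * D * ((U⁻¹ : UG ι) : Matrix ι ι ℂ) := by
    rw [← h, Matrix.mul_assoc, UG_coe_inv, UG_mul_conj, Matrix.mul_one]
  refine ⟨V * U⁻¹, ?_⟩
  have e1 : F - ((V * U⁻¹ : UG ι) : Matrix ι ι ℂ) =
      (V : Matrix ι ι ℂ) * (D - 1) * ((U⁻¹ : UG ι) : Matrix ι ι ℂ) := by
    rw [UG_coe_mul, hF, Matrix.mul_sub, Matrix.sub_mul, Matrix.mul_one]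
  have hDH : Dᴴ = D := by
    rw [hD, Matrix.diagonal_conjTranspose]
    congr 1
    funext x
    simp
  have e2 : Fᴴ * F - 1 =
      (U : Matrix ι ι ℂ) * (D * D - 1) * ((U⁻¹ : UG ι) : Matrix ι ι ℂ) := by
    have e3 : Fᴴ = (U : Matrix ι ι ℂ) * D * (V : Matrix ι ι ℂ)ᴴ := by
      rw [hF, Matrix.conjTranspose_mul, Matrix.conjTranspose_mul, hDH, UG_coe_inv,
        Matrix.conjTranspose_conjTranspose, Matrix.mul_assoc]
    have e4 : Fᴴ * F = (U : Matrix ι ι ℂ) * (D * D) * ((U⁻¹ : UG ι) : Matrix ι ι ℂ) := by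
      rw [e3]
      nth_rewrite 1 [hF]
      calc (U : Matrix ι ι ℂ) * D * (V : Matrix ι ι ℂ)ᴴ *
            ((V : Matrix ι ι ℂ) * D * ((U⁻¹ : UG ι) : Matrix ι ι ℂ)) =
          (U : Matrix ι ι ℂ) * D * ((V : Matrix ι ι ℂ)ᴴ *
            (V : Matrix ι ι ℂ)) * D * ((U⁻¹ : UG ι) : Matrix ι ι ℂ) := by
            simp only [Matrix.mul_assoc]
        _ = _ := by
            rw [UG_conj_mul, Matrix.mul_one]
            simp only [Matrix.mul_assoc]
    rw [e4, Matrix.mul_sub, Matrix.sub_mul, Matrix.mul_one, UG_coe_inv, UG_mul_conj]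
  rw [e1, e2, n2_mul_unitary, n2_mul_unitary, n2_unitary_mul, n2_unitary_mul]
  unfold n2
  apply Real.sqrt_le_sqrt
  apply mul_le_mul_of_nonneg_left _ (by positivity)
  refine Finset.sum_le_sum fun x _ => Finset.sum_le_sum fun y _ => ?_
  refine pow_le_pow_left₀ (norm_nonneg _) ?_ 2
  by_cases hxy : x = y
  · subst hxy
    have h1 : (D - 1) x x = ((s x - 1 : ℝ) : ℂ) := by
      simp [hD]
    have h2 : (D * D - 1) x x = ((s x * s x - 1 : ℝ) : ℂ) := by
      simp [hD]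
    rw [h1, h2, Complex.norm_real, Complex.norm_real, Real.norm_eq_abs, Real.norm_eq_abs,
      show s x * s x - 1 = (s x - 1) * (s x + 1) by ring, abs_mul]
    have h3 : 1 ≤ |s x + 1| := by
      rw [abs_of_nonneg (by linarith [hs0 x])]
      linarith [hs0 x]
    nlinarith [abs_nonneg (s x - 1)]
  · have h1 : (D - 1) x y = 0 := by
      simp [hD, hxy]
    rw [h1, norm_zero]
    exact norm_nonneg _

lemma polar_inv {F : Matrix ι ι ℂ} (hF : F.det ≠ 0) :
    ∃ W : UG ι, n2 (F - (W : Matrix ι ι ℂ)) ≤ n2 (Fᴴ * F - 1) := by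
  obtain ⟨U, L, hpos, hspec⟩ : ∃ (U : UG ι) (L : ι → ℝ), (∀ x, 0 < L x) ∧
      Fᴴ * F = (U : Matrix ι ι ℂ) * Matrix.diagonal (fun x => (L x : ℂ)) *
        (U : Matrix ι ι ℂ)ᴴ := by
    have hH : (Fᴴ * F).IsHermitian := Matrix.isHermitian_conjTranspose_mul_self F
    have hpsd : (Fᴴ * F).PosSemidef := Matrix.posSemidef_conjTranspose_mul_self F
    have hev0 : ∀ x, 0 ≤ hH.eigenvalues x := fun x => hpsd.eigenvalues_nonneg x
    have hdet : ∀ x, hH.eigenvalues x ≠ 0 := by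
      intro x hx
      have h1 : (Fᴴ * F).det = 0 := by
        rw [hH.det_eq_prod_eigenvalues]
        apply Finset.prod_eq_zero (Finset.mem_univ x)
        rw [hx]
        simp
      rw [Matrix.det_mul, Matrix.det_conjTranspose] at h1
      rcases mul_eq_zero.1 h1 with h2 | h2
      · exact hF (by simpa using h2)
      · exact hF h2
    refine ⟨hH.eigenvectorUnitary, hH.eigenvalues,
      fun x => lt_of_le_of_ne (hev0 x) (hdet x).symm, ?_⟩
    have h := hH.spectral_theorem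
    rw [Unitary.conjStarAlgAut_apply] at h
    exact h
  set s : ι → ℝ := fun x => Real.sqrt (L x) with hs
  have hspos : ∀ x, 0 < s x := fun x => Real.sqrt_pos.2 (hpos x)
  have hss : ∀ x, s x * s x = L x := fun x => Real.mul_self_sqrt (hpos x).le
  set E : Matrix ι ι ℂ := Matrix.diagonal (fun x => (((s x)⁻¹ : ℝ) : ℂ)) with hE
  set X : Matrix ι ι ℂ := F * (U : Matrix ι ι ℂ) * E with hX
  have hEH : Eᴴ = E := by
    rw [hE, Matrix.diagonal_conjTranspose]
    congr 1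
    funext x
    simp
  have hXm : Xᴴ * X = 1 := by
    have e1 : Xᴴ * X = E * ((U : Matrix ι ι ℂ)ᴴ * (Fᴴ * F) * (U : Matrix ι ι ℂ)) * E := by
      rw [hX, Matrix.conjTranspose_mul, Matrix.conjTranspose_mul, hEH]
      simp only [Matrix.mul_assoc]
    have e2 : (U : Matrix ι ι ℂ)ᴴ * (Fᴴ * F) * (U : Matrix ι ι ℂ) =
        Matrix.diagonal (fun x => (L x : ℂ)) := by
      rw [hspec]
      calc (U : Matrix ι ι ℂ)ᴴ * ((U : Matrix ι ι ℂ) *
            Matrix.diagonal (fun x => (L x : ℂ)) * (U : Matrix ι ι ℂ)ᴴ) *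
            (U : Matrix ι ι ℂ) =
          ((U : Matrix ι ι ℂ)ᴴ * (U : Matrix ι ι ℂ)) *
            Matrix.diagonal (fun x => (L x : ℂ)) * ((U : Matrix ι ι ℂ)ᴴ *
            (U : Matrix ι ι ℂ)) := by simp only [Matrix.mul_assoc]
        _ = _ := by rw [UG_conj_mul, Matrix.one_mul, Matrix.mul_one]
    rw [e1, e2, hE, Matrix.diagonal_mul_diagonal, Matrix.diagonal_mul_diagonal]
    rw [← Matrix.diagonal_one]
    congr 1
    funext x
    rw [← hss x]
    have h1 : (s x : ℂ) ≠ 0 := by exact_mod_cast (hspos x).ne'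
    push_cast
    field_simp
  have hmem : X ∈ Matrix.unitaryGroup ι ℂ := by
    rw [Matrix.mem_unitaryGroup_iff']
    exact hXm
  refine polar_conj U ⟨X, hmem⟩ s ?_ fun x => (hspos x).le
  show F * (U : Matrix ι ι ℂ) = X * _
  rw [hX, Matrix.mul_assoc (F * (U : Matrix ι ι ℂ)), hE, Matrix.diagonal_mul_diagonal]
  have e3 : (Matrix.diagonal fun x => (((s x)⁻¹ : ℝ) : ℂ) * (s x : ℂ)) = 1 := by
    rw [← Matrix.diagonal_one]
    congr 1
    funext x
    have h1 : (s x : ℂ) ≠ 0 := by exact_mod_cast (hspos x).ne'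
    push_cast
    field_simp
  rw [e3, Matrix.mul_one]

theorem exists_polar (F : Matrix ι ι ℂ) :
    ∃ W : UG ι, n2 (F - (W : Matrix ι ι ℂ)) ≤ n2 (Fᴴ * F - 1) := by
  set S : Set (Matrix ι ι ℂ × UG ι) :=
    {p | n2 (p.1 - (p.2 : Matrix ι ι ℂ)) ≤ n2 (p.1ᴴ * p.1 - 1)} with hS
  have hScl : IsClosed S := by
    refine isClosed_le ?_ ?_
    · exact continuous_n2.comp (continuous_fst.sub (continuous_subtype_val.comp continuous_snd))
    · exact continuous_n2.comp
        ((continuous_fst.matrix_conjTranspose.matrix_mul continuous_fst).sub continuous_const)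
  have hcl : IsClosed (Prod.fst '' S) := isClosedMap_fst_of_compactSpace _ hScl
  have hmem : ∀ A : Matrix ι ι ℂ, A ∈ Prod.fst '' S ↔
      ∃ W : UG ι, n2 (A - (W : Matrix ι ι ℂ)) ≤ n2 (Aᴴ * A - 1) := by
    intro A
    constructor
    · rintro ⟨⟨A', W⟩, h, rfl⟩
      exact ⟨W, h⟩
    · rintro ⟨W, h⟩
      exact ⟨(A, W), h, rfl⟩
  rw [← hmem]
  -- the perturbation
  have htend : Filter.Tendsto (fun t : ℂ => F + Matrix.scalar ι t) (𝓝[≠] 0) (𝓝 F) := by
    have hc : Continuous fun t : ℂ => F + Matrix.scalar ι t := by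
      refine continuous_const.add ?_
      show Continuous fun t : ℂ => Matrix.diagonal (fun _ : ι => t)
      exact Continuous.matrix_diagonal (by fun_prop)
    have h := hc.tendsto 0
    simp only [map_zero, add_zero] at h
    exact h.mono_left nhdsWithin_le_nhds
  refine hcl.mem_of_tendsto htend ?_
  have hfin : {t : ℂ | (-F).charpoly.eval t = 0}.Finite := by
    have h0 : (-F).charpoly ≠ 0 := (Matrix.charpoly_monic _).ne_zero
    refine ((-F).charpoly.roots.toFinset.finite_toSet).subset ?_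
    intro t ht
    simp only [Finset.mem_coe, Multiset.mem_toFinset]
    exact (Polynomial.mem_roots h0).2 ht
  have hev : ∀ᶠ t in 𝓝[≠] (0 : ℂ), t ∉ {t : ℂ | (-F).charpoly.eval t = 0} := by
    have h1 : IsClosed ({t : ℂ | (-F).charpoly.eval t = 0} \ {0}) :=
      (hfin.subset Set.sdiff_subset).isClosed
    have h2 : ({t : ℂ | (-F).charpoly.eval t = 0} \ {0})ᶜ ∈ 𝓝 (0 : ℂ) :=
      h1.isOpen_compl.mem_nhds (by simp)
    filter_upwards [nhdsWithin_le_nhds h2, self_mem_nhdsWithin] with t ht ht0 h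
    exact ht ⟨h, ht0⟩
  filter_upwards [hev] with t ht
  rw [hmem]
  apply polar_inv
  intro hdet
  apply ht
  show (-F).charpoly.eval t = 0
  rw [Matrix.eval_charpoly, sub_neg_eq_add, add_comm]
  exact hdet

end Pool.Agent.OGP
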