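import Mathlib

/-!
# OGP SEP: separated sets in a finite dimensional normed space

If `s` is a finite subset of the ball of radius `R` of a real normed space `E` of dimension `d` and
the points of `s` are at mutual distance at least `δ`, then the balls of radius `δ/2` around them are
disjoint and contained in the ball of radius `R + δ/2`; compare volumes
(`MeasureTheory.Measure.addHaar_ball`, see the proof of `Besicovitch.card_le_of_separated`):
`card s (δ/2)^d ≤ (R + δ/2)^d`.

`exists_net`: a maximal `δ`-separated subset of the closed ball of radius `R` is finite (cardinalities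
are bounded by the first statement) and a `δ`-net of the ball.
-/

open Module MeasureTheory Metric Set
open scoped ENNReal
namespace Pool.Agent.OGP

variable {E : Type*} [NormedAddCommGroup E] [NormedSpace ℝ E] [FiniteDimensional ℝ E]

theorem card_separated {R δ : ℝ} (hR : 0 ≤ R) (hδ : 0 < δ) (s : Finset E)
    (hs : ∀ x ∈ s, ‖x‖ ≤ R) (hsep : ∀ x ∈ s, ∀ y ∈ s, x ≠ y → δ ≤ ‖x - y‖) :
    (s.card : ℝ) ≤ (1 + 2 * R / δ) ^ finrank ℝ E := by
  borelize E
  let μ : Measure E := Measure.addHaar
  have hδ2 : 0 < δ / 2 := by positivity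
  have ρpos : 0 < R + δ / 2 := by positivity
  set A := ⋃ c ∈ s, ball (c : E) (δ / 2) with hA
  have D : Set.Pairwise (s : Set E) (Function.onFun Disjoint fun c => ball (c : E) (δ / 2)) := by
    rintro c hc d hd hcd
    apply ball_disjoint_ball
    rw [dist_eq_norm]
    have := hsep c hc d hd hcd
    linarith
  have A_subset : A ⊆ ball (0 : E) (R + δ / 2) := by
    refine iUnion₂_subset fun x hx => ?_
    apply ball_subset_ball'
    rw [dist_zero_right]
    have := hs x hx
    linarith
  have I :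
    (s.card : ℝ≥0∞) * ENNReal.ofReal ((δ / 2) ^ finrank ℝ E) * μ (ball 0 1) ≤
      ENNReal.ofReal ((R + δ / 2) ^ finrank ℝ E) * μ (ball 0 1) :=
    calc
      (s.card : ℝ≥0∞) * ENNReal.ofReal ((δ / 2) ^ finrank ℝ E) * μ (ball 0 1) = μ A := by
        rw [hA, measure_biUnion_finset D fun c _ => measurableSet_ball]
        simp only [μ.addHaar_ball_of_pos _ hδ2]
        simp only [Finset.sum_const, nsmul_eq_mul, mul_assoc]
      _ ≤ μ (ball (0 : E) (R + δ / 2)) := measure_mono A_subset
      _ = ENNReal.ofReal ((R + δ / 2) ^ finrank ℝ E) * μ (ball 0 1) := by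
        simp only [μ.addHaar_ball_of_pos _ ρpos]
  have J : (s.card : ℝ≥0∞) * ENNReal.ofReal ((δ / 2) ^ finrank ℝ E) ≤
      ENNReal.ofReal ((R + δ / 2) ^ finrank ℝ E) :=
    (ENNReal.mul_le_mul_iff_left (measure_ball_pos _ _ zero_lt_one).ne' measure_ball_lt_top.ne).1 I
  have K := ENNReal.toReal_le_of_le_ofReal (pow_nonneg ρpos.le _) J
  rw [ENNReal.toReal_mul, ENNReal.toReal_natCast, ENNReal.toReal_ofReal (by positivity)] at K
  have h1 : 1 + 2 * R / δ = (R + δ / 2) / (δ / 2) := by
    field_simp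
    ring
  rw [h1, div_pow, le_div_iff₀ (by positivity)]
  exact K

theorem exists_net {R δ : ℝ} (hR : 0 ≤ R) (hδ : 0 < δ) : ∃ s : Finset E,
    (∀ x ∈ s, ‖x‖ ≤ R) ∧ (∀ y : E, ‖y‖ ≤ R → ∃ x ∈ s, ‖y - x‖ < δ) ∧
      (s.card : ℝ) ≤ (1 + 2 * R / δ) ^ finrank ℝ E := by
  classical
  let P : ℕ → Prop := fun n => ∃ s : Finset E, s.card = n ∧ (∀ x ∈ s, ‖x‖ ≤ R) ∧
    (∀ x ∈ s, ∀ y ∈ s, x ≠ y → δ ≤ ‖x - y‖)
  obtain ⟨B, hB⟩ := exists_nat_ge ((1 + 2 * R / δ) ^ finrank ℝ E)
  have hP0 : P 0 := ⟨∅, rfl, by simp, by simp⟩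
  have hbd : ∀ n, P n → n ≤ B := by
    rintro n ⟨s, hn, h1, h2⟩
    have h3 := (card_separated hR hδ s h1 h2).trans hB
    rw [hn] at h3
    exact_mod_cast h3
  obtain ⟨s, hn, h1, h2⟩ := Nat.findGreatest_spec (P := P) (Nat.zero_le B) hP0
  refine ⟨s, h1, fun y hy => ?_, card_separated hR hδ s h1 h2⟩
  by_contra! hcon
  have hys : y ∉ s := by
    intro h
    have := hcon y h
    rw [sub_self, norm_zero] at this
    linarith
  have hP : P (Nat.findGreatest P B + 1) := by
    refine ⟨insert y s, by rw [Finset.card_insert_of_notMem hys, hn], ?_, ?_⟩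
    · intro x hx
      rcases Finset.mem_insert.1 hx with rfl | hx
      · exact hy
      · exact h1 x hx
    · intro x hx x' hx' hne
      rcases Finset.mem_insert.1 hx with hx1 | hx1
      · rcases Finset.mem_insert.1 hx' with hx2 | hx2
        · exact absurd (hx1.trans hx2.symm) hne
        · rw [hx1]; exact hcon x' hx2
      · rcases Finset.mem_insert.1 hx' with hx2 | hx2
        · rw [hx2, norm_sub_rev]; exact hcon x hx1
        · exact h2 x hx1 x' hx2 hne
  have h3 := Nat.le_findGreatest (hbd _ hP) hP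
  omega

end Pool.Agent.OGP
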