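import Pool.Agent.OGP.Path

/-!
# OGP STEP: the Gaussian random walk step

`PG ε F A = ∫ F (A * eU (ε gH g)) dγ(g)`.

* `PG_integral`: Fubini, and right invariance of the Haar measure for every fixed `g`.
* `PG_exp`: Gaussian concentration `mgf_le` (file `Helper62/Disc/Gauss.lean`) for
  `g ↦ F (A * eU (ε gH g))`, which satisfies `LipOn (ε² L²)` by `LocLip.gauss`:
  `∫ exp (lam (F (A u) - PG ε F A)) ≤ exp (5/4 lam² ε² L²)`.
* `PG_continuous`: dominated convergence (`F` is bounded, `UG ι` is compact) .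
* `PG_symm`: for Hermitian `X`, the law of `u = eU (ε gH g)` is invariant under conjugation by
  `v = eU X` (`gH_conj`, `eU_conj`), so
  `∫ F (A * (eU X * eU X * u)) = ∫ F (A * (eU X * u * eU X))`: replace `u` by `v⁻¹ u' v`...
  precisely `eU X * eU X * u = eU X * (eU X * u * (eU X)⁻¹) * eU X` and `eU X * u * (eU X)⁻¹` has
  the law of `u`.
-/

open Matrix MeasureTheory
open Pool.Agent.Helper62.Disc
namespace Pool.Agent.OGP

variable {ι : Type} [Fintype ι] [DecidableEq ι]

/-- One step of the Gaussian random walk. -/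
noncomputable def PG (ε : ℝ) (F : UG ι → ℝ) (A : UG ι) : ℝ :=
  ∫ g, F (A * eU ((ε : ℂ) • gH g)) ∂(gam (ι × ι × Bool))

private lemma cont_u (ε : ℝ) :
    Continuous fun g : ι × ι × Bool → ℝ => (eU ((ε : ℂ) • gH g) : UG ι) :=
  continuous_eU.comp (continuous_gH.const_smul (ε : ℂ))

private lemma bound_F {F : UG ι → ℝ} (hF : Continuous F) : ∃ C : ℝ, ∀ A, ‖F A‖ ≤ C := by
  obtain ⟨C, hC⟩ := isCompact_univ.exists_bound_of_continuousOn (f := F) hF.continuousOn
  exact ⟨C, fun A => hC A (Set.mem_univ A)⟩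

lemma PG_continuous (ε : ℝ) {F : UG ι → ℝ} (hF : Continuous F) : Continuous (PG ε F) := by
  obtain ⟨C, hC⟩ := bound_F hF
  have h1 : ∀ A : UG ι, Continuous fun g : ι × ι × Bool → ℝ => F (A * eU ((ε : ℂ) • gH g)) :=
    fun A => hF.comp (continuous_const.mul (cont_u ε))
  refine continuous_of_dominated (bound := fun _ => C) (fun A => (h1 A).aestronglyMeasurable)
    (fun A => Filter.Eventually.of_forall fun g => hC _) (integrable_const C)
    (Filter.Eventually.of_forall fun g => ?_)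
  exact hF.comp (continuous_id.mul continuous_const)

lemma PG_integrable (ε : ℝ) {F : UG ι → ℝ} (hF : Continuous F) (A : UG ι) :
    Integrable (fun g => F (A * eU ((ε : ℂ) • gH g))) (gam (ι × ι × Bool)) := by
  obtain ⟨C, hC⟩ := bound_F hF
  have h1 : Continuous fun g : ι × ι × Bool → ℝ => F (A * eU ((ε : ℂ) • gH g)) :=
    hF.comp (continuous_const.mul (cont_u ε))
  exact Integrable.of_bound h1.aestronglyMeasurable C (Filter.Eventually.of_forall fun g => hC _)

lemma PG_phase (ε : ℝ) {F : UG ι → ℝ} (hF : PhaseInv F) : PhaseInv (PG ε F) := by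
  intro θ A
  unfold PG
  congr 1
  funext g
  rw [mul_assoc]
  exact hF θ _

lemma PG_integral (ε : ℝ) {F : UG ι → ℝ} (hF : Continuous F) :
    ∫ A, PG ε F A ∂(haarU ι) = ∫ A, F A ∂(haarU ι) := by
  obtain ⟨C, hC⟩ := bound_F hF
  have hc : Continuous fun p : UG ι × (ι × ι × Bool → ℝ) => F (p.1 * eU ((ε : ℂ) • gH p.2)) :=
    hF.comp (continuous_fst.mul ((cont_u ε).comp continuous_snd))
  have hint : Integrable (Function.uncurry fun (A : UG ι) (g : ι × ι × Bool → ℝ) =>
      F (A * eU ((ε : ℂ) • gH g))) ((haarU ι).prod (gam (ι × ι × Bool))) :=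
    Integrable.of_bound hc.aestronglyMeasurable C (Filter.Eventually.of_forall fun p => hC _)
  unfold PG
  rw [integral_integral_swap hint]
  have h2 : ∀ g : ι × ι × Bool → ℝ, ∫ A, F (A * eU ((ε : ℂ) • gH g)) ∂(haarU ι)
      = ∫ A, F A ∂(haarU ι) := fun g =>
    integral_mul_right_eq_self (μ := haarU ι) F (eU ((ε : ℂ) • gH g))
  simp only [h2, integral_const, probReal_univ, one_smul]

lemma PG_mono (ε : ℝ) {F G : UG ι → ℝ} (hF : Continuous F) (hG : Continuous G)
    (h : ∀ A, F A ≤ G A) (A : UG ι) : PG ε F A ≤ PG ε G A :=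
  integral_mono (PG_integrable ε hF A) (PG_integrable ε hG A) fun _ => h _

lemma PG_const_mul (ε c : ℝ) (F : UG ι → ℝ) (A : UG ι) :
    PG ε (fun B => c * F B) A = c * PG ε F A := by
  unfold PG
  exact integral_const_mul _ _

lemma PG_exp {ε : ℝ} (hε : 0 ≤ ε) {L : ℝ} (hL : 0 ≤ L) {F : UG ι → ℝ} (hF : LocLip L F)
    (lam : ℝ) (A : UG ι) :
    PG ε (fun B => Real.exp (lam * F B)) A ≤
      Real.exp (lam * PG ε F A + 5 / 4 * lam ^ 2 * (ε ^ 2 * L ^ 2)) := by
  have h1 := mgf_le (L := ε ^ 2 * L ^ 2) (by positivity) (LocLip.gauss hL hF A hε) lam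
  have h2 : PG ε (fun B => Real.exp (lam * F B)) A = Real.exp (lam * PG ε F A) *
      ∫ g, Real.exp (lam * (F (A * eU ((ε : ℂ) • gH g)) - ∫ g', F (A * eU ((ε : ℂ) • gH g'))
        ∂(gam (ι × ι × Bool)))) ∂(gam (ι × ι × Bool)) := by
    rw [← integral_const_mul]
    refine integral_congr_ae (Filter.Eventually.of_forall fun g => ?_)
    show Real.exp (lam * F (A * eU ((ε : ℂ) • gH g))) = Real.exp (lam * PG ε F A) *
      Real.exp (lam * (F (A * eU ((ε : ℂ) • gH g)) - PG ε F A))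
    rw [← Real.exp_add]
    congr 1
    ring
  rw [h2, Real.exp_add]
  exact mul_le_mul_of_nonneg_left h1 (Real.exp_pos _).le

lemma PG_symm (ε : ℝ) {F : UG ι → ℝ} (hF : Continuous F) (A : UG ι) {X : Matrix ι ι ℂ}
    (hX : X.IsHermitian) :
    ∫ g, F (A * (eU X * eU X * eU ((ε : ℂ) • gH g))) ∂(gam (ι × ι × Bool)) =
      ∫ g, F (A * (eU X * eU ((ε : ℂ) • gH g) * eU X)) ∂(gam (ι × ι × Bool)) := by
  have _ := hX
  obtain ⟨T, _, hT, hTg⟩ := gH_conj (eU X)
  have hc : Continuous fun g : ι × ι × Bool → ℝ => F (A * (eU X * eU ((ε : ℂ) • gH g) * eU X)) :=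
    hF.comp (continuous_const.mul ((continuous_const.mul (cont_u ε)).mul continuous_const))
  have h1 : ∀ g, F (A * (eU X * eU X * eU ((ε : ℂ) • gH g)))
      = F (A * (eU X * eU ((ε : ℂ) • gH (T g)) * eU X)) := by
    intro g
    have h2 : eU ((ε : ℂ) • gH (T g)) = eU X * eU ((ε : ℂ) • gH g) * (eU X)⁻¹ := by
      rw [eU_conj (eU X) (isHermitian_smul (gH_isHermitian g) ε), hTg g, Matrix.mul_smul,
        Matrix.smul_mul]
    rw [h2]
    congr 2
    group
  simp only [h1]
  have h3 := integral_map (μ := gam (ι × ι × Bool)) (φ := T) hT.measurable.aemeasurable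
    (f := fun g => F (A * (eU X * eU ((ε : ℂ) • gH g) * eU X))) hc.aestronglyMeasurable
  rw [← h3, hT.map_eq]

end Pool.Agent.OGP
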