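import Pool.Agent.OGP.Ibp

/-!
# OGP WDER: derivatives of words, and the two Schwinger-Dyson relations

`wd V L = ∏ (V^{±1} X)` over the list `L` of pairs (sign, `X`).  For the position `j` put
`wl V L j = wd V (L.take j) * (V or 1)` (`V` if the sign is `true`) and
`wr V L j = (1 or V⁻¹) * X_j * wd V (L.drop (j+1))` (`V⁻¹` if the sign is `false`), so that
`wl V L j * wr V L j = wd V L`, and the derivative of `t ↦ wd (V e^{itK}) L` at `0` is
`∑_j ± wl V L j * (i K) * wr V L j` (`wd_deriv`; the sign is `+` for `true`: `V ↦ V e^{itK}`,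
`V⁻¹ ↦ e^{-itK} V⁻¹`).  Proof of `wd_deriv` by induction on the list (product rule, entrywise, from
`hasDerivAt_eU` at `t = 0`), or by the Leibniz rule.

`word_identity`.  Let `Φ V = X * wd V L * V` (as a matrix), `z V = utr (V * X * wd V L) = ntr (Φ V)`.
Apply `ibp` to `φ V = (Φ V)_{ab}`, with `D V Z = (X * (∑_j ± wl (iZ) wr) * V + Φ V * (i Z))_{ab}`, at
`Z = E_{ab}`, and sum over `a, b` with `sum_single_contr`:
`0 = ∫ i n² z + ∑_j ± i n² ∫ utr (X * wl V L j) utr (wr V L j * V)`.

`word_ineq`.  The same with `φ V = (Φ V)_{ab} * conj (z V)`.  For Hermitian `K` the derivative of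
`conj z` is `∑ ∓ i ntr (wr⁻¹ K wl⁻¹)` over the `L.length + 1` positions of the list
`(true, X) :: L` (`z V = utr (wd V ((true, X) :: L))`), which is complex linear in `K`; by
`sum_single_ntr`, `∑_{ab} Φ_{ab} ntr (wr⁻¹ E_{ab} wl⁻¹) = utr (Φ wl⁻¹ wr⁻¹)` has modulus `≤ 1`.  So
`0 = ∫ i n² |z|² + ∑_j ± i n² ∫ utr (X wl) utr (wr V) conj z + (L.length + 1 terms of modulus ≤ 1)`;
divide by `n²` and bound `|utr (wr V)| ≤ 1`.
-/

open Matrix MeasureTheory
namespace Pool.Agent.OGP

variable {ι : Type} [Fintype ι] [DecidableEq ι]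

/-- Left part of the word at position `j`. -/
def wl (V : UG ι) (L : List (Bool × UG ι)) (j : Fin L.length) : UG ι :=
  wd V (L.take j) * (if (L.get j).1 then V else 1)

/-- Right part of the word at position `j`. -/
def wr (V : UG ι) (L : List (Bool × UG ι)) (j : Fin L.length) : UG ι :=
  (if (L.get j).1 then 1 else V⁻¹) * (L.get j).2 * wd V (L.drop (j + 1))

/-- Sign of the position `j`. -/
def wsg (L : List (Bool × UG ι)) (j : Fin L.length) : ℂ := if (L.get j).1 then 1 else -1

lemma wd_nil (V : UG ι) : wd V [] = 1 := by simp [wd]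
lemma wd_cons (V : UG ι) (p : Bool × UG ι) (L : List (Bool × UG ι)) :
    wd V (p :: L) = (if p.1 then V else V⁻¹) * p.2 * wd V L := by simp [wd]
lemma wd_append (V : UG ι) (L L' : List (Bool × UG ι)) :
    wd V (L ++ L') = wd V L * wd V L' := by simp [wd]
lemma wd_inv_left (V : UG ι) (L : List (Bool × UG ι)) :
    wd V⁻¹ L = wd V (L.map fun p => (!p.1, p.2)) := by
  induction L with
  | nil => simp [wd_nil]
  | cons p L ih =>
    rw [List.map_cons, wd_cons, wd_cons, ih]
    cases p.1 <;> simp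
lemma continuous_wd (L : List (Bool × UG ι)) : Continuous fun V : UG ι => wd V L := by
  induction L with
  | nil => simp only [wd_nil]; exact continuous_const
  | cons p L ih =>
    simp only [wd_cons]
    refine Continuous.mul (Continuous.mul ?_ continuous_const) ih
    cases p.1
    · simpa using continuous_inv
    · simpa using continuous_id'
lemma wl_mul_wr (V : UG ι) (L : List (Bool × UG ι)) (j : Fin L.length) :
    wl V L j * wr V L j = wd V L := by
  have h : L = L.take j ++ L.get j :: L.drop (j + 1) := by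
    rw [List.get_eq_getElem, List.getElem_cons_drop, List.take_append_drop]
  have h2 : wd V L = wd V (L.take j ++ L.get j :: L.drop (j + 1)) := by rw [← h]
  rw [h2, wd_append, wd_cons]
  unfold wl wr
  cases (L.get j).1 <;> simp [mul_assoc]

lemma continuous_wl (L : List (Bool × UG ι)) (j : Fin L.length) :
    Continuous fun V : UG ι => wl V L j := by
  unfold wl
  refine (continuous_wd _).mul ?_
  cases (L.get j).1
  · simpa using continuous_const
  · simpa using continuous_id'

lemma continuous_wr (L : List (Bool × UG ι)) (j : Fin L.length) :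
    Continuous fun V : UG ι => wr V L j := by
  unfold wr
  refine (Continuous.mul ?_ continuous_const).mul (continuous_wd _)
  cases (L.get j).1
  · simpa using continuous_inv
  · simpa using continuous_const

/-- Entrywise derivative of a matrix valued function. -/
def MD (F : ℝ → Matrix ι ι ℂ) (F' : Matrix ι ι ℂ) (t : ℝ) : Prop :=
  ∀ a b, HasDerivAt (fun s => F s a b) (F' a b) t

omit [DecidableEq ι] in
lemma MD.mul {F G : ℝ → Matrix ι ι ℂ} {F' G' : Matrix ι ι ℂ} {t : ℝ} (hF : MD F F' t)
    (hG : MD G G' t) : MD (fun s => F s * G s) (F' * G t + F t * G') t := by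
  intro a b
  have h : HasDerivAt (fun s => ∑ c, F s a c * G s c b)
      (∑ c, (F' a c * G t c b + F t a c * G' c b)) t :=
    HasDerivAt.fun_sum fun c _ => (hF a c).mul (hG c b)
  simpa [Matrix.mul_apply, Matrix.add_apply, Finset.sum_add_distrib] using h

omit [Fintype ι] [DecidableEq ι] in
lemma MD.const (M : Matrix ι ι ℂ) (t : ℝ) : MD (fun _ => M) 0 t :=
  fun a b => hasDerivAt_const t (M a b)

omit [DecidableEq ι] in
lemma MD.ntr {F : ℝ → Matrix ι ι ℂ} {F' : Matrix ι ι ℂ} {t : ℝ} (hF : MD F F' t) :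
    HasDerivAt (fun s => ntr (F s)) (ntr F') t := by
  have h : HasDerivAt (fun s => ∑ c, F s c c) (∑ c, F' c c) t :=
    HasDerivAt.fun_sum fun c _ => hF c c
  exact h.const_mul _

lemma MD_eU {K : Matrix ι ι ℂ} (hK : K.IsHermitian) :
    MD (fun t : ℝ => ((eU ((t : ℂ) • K) : UG ι) : Matrix ι ι ℂ)) (Complex.I • K) 0 := by
  intro a b
  have h := hasDerivAt_eU hK 0 a b
  rw [Complex.ofReal_zero, zero_smul, eU_zero] at h
  simpa using h

lemma MD_eU_inv {K : Matrix ι ι ℂ} (hK : K.IsHermitian) :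
    MD (fun t : ℝ => (((eU ((t : ℂ) • K))⁻¹ : UG ι) : Matrix ι ι ℂ)) (-(Complex.I • K)) 0 := by
  intro a b
  have hK' : (-K).IsHermitian := by
    unfold Matrix.IsHermitian
    rw [Matrix.conjTranspose_neg, hK.eq]
  have h := MD_eU hK' a b
  rw [smul_neg] at h
  refine h.congr_of_eventuallyEq (Filter.Eventually.of_forall fun s => ?_)
  change (((eU ((s : ℂ) • K))⁻¹ : UG ι) : Matrix ι ι ℂ) a b =
    ((eU ((s : ℂ) • -K) : UG ι) : Matrix ι ι ℂ) a b
  rw [smul_neg, eU_neg]

lemma MD_V (V : UG ι) {K : Matrix ι ι ℂ} (hK : K.IsHermitian) :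
    MD (fun t : ℝ => ((V * eU ((t : ℂ) • K) : UG ι) : Matrix ι ι ℂ))
      ((V : Matrix ι ι ℂ) * (Complex.I • K)) 0 := by
  have h := (MD.const (V : Matrix ι ι ℂ) 0).mul (MD_eU hK)
  rw [zero_mul, zero_add] at h
  exact h

lemma MD_Vinv (V : UG ι) {K : Matrix ι ι ℂ} (hK : K.IsHermitian) :
    MD (fun t : ℝ => (((V * eU ((t : ℂ) • K))⁻¹ : UG ι) : Matrix ι ι ℂ))
      (-((Complex.I • K) * ((V⁻¹ : UG ι) : Matrix ι ι ℂ))) 0 := by
  have h := (MD_eU_inv hK).mul (MD.const ((V⁻¹ : UG ι) : Matrix ι ι ℂ) 0)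
  rw [mul_zero, add_zero, neg_mul] at h
  intro a b
  refine (h a b).congr_of_eventuallyEq (Filter.Eventually.of_forall fun s => ?_)
  change (((V * eU ((s : ℂ) • K))⁻¹ : UG ι) : Matrix ι ι ℂ) a b = _
  rw [_root_.mul_inv_rev]
  rfl

lemma wl_zero (V : UG ι) (p : Bool × UG ι) (L : List (Bool × UG ι)) :
    wl V (p :: L) (0 : Fin (L.length + 1)) = (if p.1 then V else 1) := by
  change wd V [] * (if p.1 then V else 1) = _
  rw [wd_nil, one_mul]

lemma wr_zero (V : UG ι) (p : Bool × UG ι) (L : List (Bool × UG ι)) :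
    wr V (p :: L) (0 : Fin (L.length + 1)) = (if p.1 then 1 else V⁻¹) * p.2 * wd V L := rfl

lemma wl_succ (V : UG ι) (p : Bool × UG ι) (L : List (Bool × UG ι)) (j : Fin L.length) :
    wl V (p :: L) (Fin.succ j : Fin (L.length + 1)) =
      (if p.1 then V else V⁻¹) * p.2 * wl V L j := by
  change wd V (p :: L.take j) * (if (L.get j).1 then V else 1) = _
  rw [wd_cons]
  unfold wl
  simp only [mul_assoc]

lemma wr_succ (V : UG ι) (p : Bool × UG ι) (L : List (Bool × UG ι)) (j : Fin L.length) :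
    wr V (p :: L) (Fin.succ j : Fin (L.length + 1)) = wr V L j := rfl

lemma wsg_succ (p : Bool × UG ι) (L : List (Bool × UG ι)) (j : Fin L.length) :
    wsg (p :: L) (Fin.succ j : Fin (L.length + 1)) = wsg L j := rfl

lemma MD_wd (V : UG ι) (L : List (Bool × UG ι)) {K : Matrix ι ι ℂ} (hK : K.IsHermitian) :
    MD (fun t : ℝ => ((wd (V * eU ((t : ℂ) • K)) L : UG ι) : Matrix ι ι ℂ))
      (∑ j : Fin L.length, wsg L j • ((wl V L j : Matrix ι ι ℂ) * (Complex.I • K) *
        (wr V L j : Matrix ι ι ℂ))) 0 := by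
  induction L with
  | nil =>
    simp only [wd_nil, List.length_nil, Finset.univ_eq_empty, Finset.sum_empty]
    exact MD.const _ _
  | cons p L ih =>
    have e0 : V * eU (((0 : ℝ) : ℂ) • K) = V := by
      rw [Complex.ofReal_zero, zero_smul, eU_zero, mul_one]
    have h1 : MD (fun t : ℝ => (((if p.1 then V * eU ((t : ℂ) • K) else
        (V * eU ((t : ℂ) • K))⁻¹) : UG ι) : Matrix ι ι ℂ))
        (wsg (p :: L) 0 • ((((if p.1 then V else 1) : UG ι) : Matrix ι ι ℂ) * (Complex.I • K) *
        (((if p.1 then 1 else V⁻¹) : UG ι) : Matrix ι ι ℂ))) 0 := by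
      unfold wsg
      obtain ⟨s, X⟩ := p
      cases s
      · simpa using MD_Vinv V hK
      · simpa using MD_V V hK
    have h2 := (h1.mul (MD.const (p.2 : Matrix ι ι ℂ) 0)).mul ih
    simp only [mul_zero, add_zero, e0] at h2
    have e1 : (fun t : ℝ => ((wd (V * eU ((t : ℂ) • K)) (p :: L) : UG ι) : Matrix ι ι ℂ)) =
        fun s : ℝ => (((if p.1 then V * eU ((s : ℂ) • K) else
        (V * eU ((s : ℂ) • K))⁻¹) : UG ι) : Matrix ι ι ℂ) * (p.2 : Matrix ι ι ℂ) *
          ((wd (V * eU ((s : ℂ) • K)) L : UG ι) : Matrix ι ι ℂ) := by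
      funext s
      rw [wd_cons]
      rfl
    rw [e1]
    convert h2 using 1
    refine (Fin.sum_univ_succ (n := L.length) _).trans ?_
    congr 1
    · rw [wl_zero, wr_zero]
      simp only [smul_mul_assoc, Submonoid.coe_mul, Matrix.mul_assoc]
    · rw [Finset.mul_sum]
      refine Finset.sum_congr rfl fun j _ => ?_
      rw [wl_succ, wr_succ, wsg_succ]
      simp only [Submonoid.coe_mul, Matrix.mul_assoc, Matrix.smul_mul, Matrix.mul_smul]

theorem wd_deriv (V : UG ι) (L : List (Bool × UG ι)) {K : Matrix ι ι ℂ} (hK : K.IsHermitian)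
    (a b : ι) :
    HasDerivAt (fun t : ℝ => ((wd (V * eU ((t : ℂ) • K)) L : UG ι) : Matrix ι ι ℂ) a b)
      ((∑ j : Fin L.length, wsg L j • ((wl V L j : Matrix ι ι ℂ) * (Complex.I • K) *
        (wr V L j : Matrix ι ι ℂ))) a b) 0 :=
  MD_wd V L hK a b

/-! ### The two relations -/

lemma wsg_star (L : List (Bool × UG ι)) (j : Fin L.length) : star (wsg L j) = wsg L j := by
  unfold wsg
  split_ifs <;> simp

lemma wsg_norm (L : List (Bool × UG ι)) (j : Fin L.length) : ‖wsg L j‖ = 1 := by
  unfold wsg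
  split_ifs <;> simp

/-- The derivative of `V ↦ X * wd V L * V`. -/
noncomputable def dPh (X : UG ι) (L : List (Bool × UG ι)) (V : UG ι) :
    Matrix ι ι ℂ →ₗ[ℂ] Matrix ι ι ℂ :=
  IsLinearMap.mk' (fun Z => (X : Matrix ι ι ℂ) * (∑ j : Fin L.length, wsg L j •
    ((wl V L j : Matrix ι ι ℂ) * (Complex.I • Z) * (wr V L j : Matrix ι ι ℂ))) *
      (V : Matrix ι ι ℂ) + ((X : Matrix ι ι ℂ) * (wd V L : Matrix ι ι ℂ)) *
        ((V : Matrix ι ι ℂ) * (Complex.I • Z)))
    { map_add := by
        intro Z Z'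
        simp only [smul_add, mul_add, add_mul, Finset.sum_add_distrib]
        abel
      map_smul := by
        intro c Z
        simp only [Matrix.mul_smul, Matrix.smul_mul, smul_add, Finset.smul_sum, smul_comm c,
          Finset.mul_sum, Finset.sum_mul] }

lemma dPh_apply (X : UG ι) (L : List (Bool × UG ι)) (V : UG ι) (Z : Matrix ι ι ℂ) :
    dPh X L V Z = (X : Matrix ι ι ℂ) * (∑ j : Fin L.length, wsg L j •
    ((wl V L j : Matrix ι ι ℂ) * (Complex.I • Z) * (wr V L j : Matrix ι ι ℂ))) *
      (V : Matrix ι ι ℂ) + ((X : Matrix ι ι ℂ) * (wd V L : Matrix ι ι ℂ)) *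
        ((V : Matrix ι ι ℂ) * (Complex.I • Z)) := rfl

lemma MD_Ph (X : UG ι) (L : List (Bool × UG ι)) (V : UG ι) {K : Matrix ι ι ℂ}
    (hK : K.IsHermitian) :
    MD (fun t : ℝ => ((X * wd (V * eU ((t : ℂ) • K)) L * (V * eU ((t : ℂ) • K)) : UG ι) :
      Matrix ι ι ℂ)) (dPh X L V K) 0 := by
  have e0 : V * eU (((0 : ℝ) : ℂ) • K) = V := by
    rw [Complex.ofReal_zero, zero_smul, eU_zero, mul_one]
  have h := ((MD.const (X : Matrix ι ι ℂ) 0).mul (MD_wd V L hK)).mul (MD_V V hK)
  simp only [zero_mul, zero_add, e0] at h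
  rw [dPh_apply]
  exact h

lemma continuous_dPh (X : UG ι) (L : List (Bool × UG ι)) (Z : Matrix ι ι ℂ) :
    Continuous fun V : UG ι => dPh X L V Z := by
  simp only [dPh_apply]
  have h1 := continuous_wd L
  have h2 := continuous_wl L
  have h3 := continuous_wr L
  refine Continuous.add ?_ ?_
  · refine Continuous.mul (Continuous.mul continuous_const ?_) continuous_subtype_val
    refine continuous_finsetSum _ fun j _ => Continuous.const_smul (g := fun V : UG ι =>
      (wl V L j : Matrix ι ι ℂ) * (Complex.I • Z) * (wr V L j : Matrix ι ι ℂ)) ?_ (wsg L j)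
    refine Continuous.mul (Continuous.mul ?_ continuous_const) ?_
    · exact continuous_subtype_val.comp (h2 j)
    · exact continuous_subtype_val.comp (h3 j)
  · exact (continuous_const.mul (continuous_subtype_val.comp h1)).mul
      (continuous_subtype_val.mul continuous_const)

omit [DecidableEq ι] in
lemma trace_eq_ntr [Nonempty ι] (M : Matrix ι ι ℂ) :
    M.trace = (Fintype.card ι : ℂ) * ntr M := by
  unfold ntr
  rw [← mul_assoc, mul_inv_cancel₀, one_mul]
  exact_mod_cast Fintype.card_ne_zero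

lemma sum_dPh [Nonempty ι] (X : UG ι) (L : List (Bool × UG ι)) (V : UG ι) :
    ∑ a, ∑ b, dPh X L V (Matrix.single a b (1 : ℂ)) a b =
      Complex.I * (Fintype.card ι : ℂ) ^ 2 * (∑ j : Fin L.length, wsg L j *
        (utr (X * wl V L j) * utr (wr V L j * V)) + utr (V * X * wd V L)) := by
  have h : ∀ a b, dPh X L V (Matrix.single a b (1 : ℂ)) a b =
      ∑ j : Fin L.length, Complex.I * wsg L j * ((((X * wl V L j : UG ι) : Matrix ι ι ℂ) *
        Matrix.single a b (1 : ℂ) * ((wr V L j * V : UG ι) : Matrix ι ι ℂ) :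
          Matrix ι ι ℂ) a b) + Complex.I * ((((X * wd V L * V : UG ι) : Matrix ι ι ℂ) *
            Matrix.single a b (1 : ℂ) * (1 : Matrix ι ι ℂ) : Matrix ι ι ℂ) a b) := by
    intro a b
    rw [dPh_apply, Matrix.add_apply, Finset.mul_sum, Finset.sum_mul, Matrix.sum_apply]
    congr 1
    · refine Finset.sum_congr rfl fun j _ => ?_
      simp only [Submonoid.coe_mul, Matrix.mul_assoc, Matrix.smul_mul, Matrix.mul_smul,
        Matrix.smul_apply, smul_eq_mul]
      ring
    · simp only [Submonoid.coe_mul, Matrix.mul_assoc, Matrix.mul_smul,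
        Matrix.smul_apply, smul_eq_mul, Matrix.mul_one]
  simp_rw [h, Finset.sum_add_distrib]
  have h1 : ∑ a, ∑ b, Complex.I * ((((X * wd V L * V : UG ι) : Matrix ι ι ℂ) *
            Matrix.single a b (1 : ℂ) * (1 : Matrix ι ι ℂ) : Matrix ι ι ℂ) a b) =
      Complex.I * (Fintype.card ι : ℂ) ^ 2 * utr (V * X * wd V L) := by
    simp_rw [← Finset.mul_sum]
    rw [sum_single_contr, trace_eq_ntr, Matrix.trace_one]
    have : ntr ((X * wd V L * V : UG ι) : Matrix ι ι ℂ) = utr (V * X * wd V L) := by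
      change utr (X * wd V L * V) = _
      rw [utr_mul_comm, mul_assoc]
    rw [this]
    ring
  have h2 : ∑ a, ∑ b, ∑ j : Fin L.length, Complex.I * wsg L j *
      ((((X * wl V L j : UG ι) : Matrix ι ι ℂ) * Matrix.single a b (1 : ℂ) *
        ((wr V L j * V : UG ι) : Matrix ι ι ℂ) : Matrix ι ι ℂ) a b) =
      Complex.I * (Fintype.card ι : ℂ) ^ 2 * ∑ j : Fin L.length, wsg L j *
        (utr (X * wl V L j) * utr (wr V L j * V)) := by
    have h3 : ∀ a, ∑ b, ∑ j : Fin L.length, Complex.I * wsg L j *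
      ((((X * wl V L j : UG ι) : Matrix ι ι ℂ) * Matrix.single a b (1 : ℂ) *
        ((wr V L j * V : UG ι) : Matrix ι ι ℂ) : Matrix ι ι ℂ) a b) =
        ∑ j : Fin L.length, ∑ b, Complex.I * wsg L j *
      ((((X * wl V L j : UG ι) : Matrix ι ι ℂ) * Matrix.single a b (1 : ℂ) *
        ((wr V L j * V : UG ι) : Matrix ι ι ℂ) : Matrix ι ι ℂ) a b) :=
      fun a => Finset.sum_comm
    rw [Finset.sum_congr rfl fun a _ => h3 a, Finset.sum_comm, Finset.mul_sum]
    refine Finset.sum_congr rfl fun j _ => ?_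
    simp_rw [← Finset.mul_sum]
    rw [sum_single_contr, trace_eq_ntr, trace_eq_ntr (ι := ι)]
    change _ * _ * ((Fintype.card ι : ℂ) * utr (X * wl V L j) *
      ((Fintype.card ι : ℂ) * utr (wr V L j * V))) = _
    ring
  rw [h1, h2]
  ring

lemma int_cont {f : UG ι → ℂ} (hf : Continuous f) : Integrable f (haarU ι) :=
  hf.integrable_of_hasCompactSupport (HasCompactSupport.of_compactSpace _)

lemma int_contR {f : UG ι → ℝ} (hf : Continuous f) : Integrable f (haarU ι) :=
  hf.integrable_of_hasCompactSupport (HasCompactSupport.of_compactSpace _)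

theorem word_identity [Nonempty ι] (X : UG ι) (L : List (Bool × UG ι)) :
    ∫ V, utr (V * X * wd V L) ∂(haarU ι) =
      -∑ j : Fin L.length, wsg L j * ∫ V, utr (X * wl V L j) * utr (wr V L j * V) ∂(haarU ι) := by
  have hcd : ∀ Z : Matrix ι ι ℂ, ∀ a b, Continuous fun V : UG ι => dPh X L V Z a b := by
    intro Z a b
    exact (continuous_apply_apply a b).comp (continuous_dPh X L Z)
  have h1 : ∀ a b, ∫ V, dPh X L V (Matrix.single a b (1 : ℂ)) a b ∂(haarU ι) = 0 := by
    intro a b
    refine ibp (fun V => ((X * wd V L * V : UG ι) : Matrix ι ι ℂ) a b)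
      (fun V => (Matrix.entryLinearMap ℂ ℂ a b) ∘ₗ (dPh X L V)) ?_ (fun Z => hcd Z a b)
      (fun V K hK => MD_Ph X L V hK a b) _
    have : Continuous fun V : UG ι => ((X * wd V L * V : UG ι) : Matrix ι ι ℂ) :=
      continuous_subtype_val.comp
        ((continuous_const.mul (continuous_wd L)).mul continuous_id')
    exact (continuous_apply_apply a b).comp this
  have h2 : ∑ a, ∑ b, ∫ V, dPh X L V (Matrix.single a b (1 : ℂ)) a b ∂(haarU ι) =
      ∫ V, ∑ a, ∑ b, dPh X L V (Matrix.single a b (1 : ℂ)) a b ∂(haarU ι) := by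
    rw [integral_finsetSum]
    · refine Finset.sum_congr rfl fun a _ => ?_
      rw [integral_finsetSum]
      intro b _
      exact int_cont (hcd _ a b)
    · intro a _
      exact integrable_finsetSum _ fun b _ => int_cont (hcd _ a b)
  simp_rw [h1, Finset.sum_const_zero] at h2
  simp_rw [sum_dPh] at h2
  rw [integral_const_mul] at h2
  have h3 : Complex.I * (Fintype.card ι : ℂ) ^ 2 ≠ 0 := by
    refine mul_ne_zero Complex.I_ne_zero (pow_ne_zero _ ?_)
    exact_mod_cast Fintype.card_ne_zero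
  have h4 := (mul_eq_zero.1 h2.symm).resolve_left h3
  have c1 : ∀ j : Fin L.length, Continuous fun V : UG ι =>
      utr (X * wl V L j) * utr (wr V L j * V) := fun j =>
    (continuous_utr.comp (continuous_const.mul (continuous_wl L j))).mul
      (continuous_utr.comp ((continuous_wr L j).mul continuous_id'))
  have c2 : Continuous fun V : UG ι => utr (V * X * wd V L) :=
    continuous_utr.comp ((continuous_id'.mul continuous_const).mul (continuous_wd L))
  rw [integral_add (integrable_finsetSum _ fun j _ => (int_cont (c1 j)).const_mul _)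
    (int_cont c2), integral_finsetSum _ fun j _ => (int_cont (c1 j)).const_mul _] at h4
  simp_rw [integral_const_mul] at h4
  exact eq_neg_of_add_eq_zero_right h4

/-- The derivative of the conjugate of the moment `utr (wd V L)`. -/
noncomputable def dCz (L : List (Bool × UG ι)) (V : UG ι) : Matrix ι ι ℂ →ₗ[ℂ] ℂ :=
  IsLinearMap.mk' (fun Z => ∑ j : Fin L.length, wsg L j *
      ntr (((wr V L j : Matrix ι ι ℂ)ᴴ) * (-(Complex.I • Z)) * ((wl V L j : Matrix ι ι ℂ)ᴴ)))
    { map_add := by
        intro Z Z'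
        simp only [smul_add, neg_add, mul_add, add_mul, ntr_add, Finset.sum_add_distrib]
      map_smul := by
        intro c Z
        rw [Finset.smul_sum]
        refine Finset.sum_congr rfl fun j _ => ?_
        rw [smul_comm, ← smul_neg, Matrix.mul_smul, Matrix.smul_mul, ntr_smul, smul_eq_mul]
        ring }

lemma dCz_apply (L : List (Bool × UG ι)) (V : UG ι) (Z : Matrix ι ι ℂ) :
    dCz L V Z = ∑ j : Fin L.length, wsg L j *
      ntr (((wr V L j : Matrix ι ι ℂ)ᴴ) * (-(Complex.I • Z)) * ((wl V L j : Matrix ι ι ℂ)ᴴ)) :=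
  rfl

lemma continuous_dCz (L : List (Bool × UG ι)) (Z : Matrix ι ι ℂ) :
    Continuous fun V : UG ι => dCz L V Z := by
  simp only [dCz_apply]
  refine continuous_finsetSum _ fun j _ => continuous_const.mul (continuous_ntr.comp ?_)
  refine Continuous.mul (Continuous.mul ?_ continuous_const) ?_
  · exact (continuous_subtype_val.comp (continuous_wr L j)).matrix_conjTranspose
  · exact (continuous_subtype_val.comp (continuous_wl L j)).matrix_conjTranspose

lemma deriv_cz (L : List (Bool × UG ι)) (V : UG ι) {K : Matrix ι ι ℂ} (hK : K.IsHermitian) :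
    HasDerivAt (fun t : ℝ => star (utr (wd (V * eU ((t : ℂ) • K)) L))) (dCz L V K) 0 := by
  have h := (MD_wd V L hK).ntr.star
  have e : star (ntr (∑ j : Fin L.length, wsg L j • ((wl V L j : Matrix ι ι ℂ) *
      (Complex.I • K) * (wr V L j : Matrix ι ι ℂ)))) = dCz L V K := by
    rw [dCz_apply, ntr_sum, star_sum]
    refine Finset.sum_congr rfl fun j _ => ?_
    rw [ntr_smul, star_mul', wsg_star, ← ntr_conjTranspose, Matrix.conjTranspose_mul,
      Matrix.conjTranspose_mul, Matrix.conjTranspose_smul, hK.eq, ← Matrix.mul_assoc]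
    congr 4
    rw [← neg_smul]
    simp
  rw [e] at h
  exact h

lemma sum_dCz (Φ : UG ι) (L : List (Bool × UG ι)) (V : UG ι) :
    ∑ a, ∑ b, (Φ : Matrix ι ι ℂ) a b * dCz L V (Matrix.single a b (1 : ℂ)) =
      -Complex.I * ∑ j : Fin L.length, wsg L j * utr (Φ * (wl V L j)⁻¹ * (wr V L j)⁻¹) := by
  have h : ∀ a b, (Φ : Matrix ι ι ℂ) a b * dCz L V (Matrix.single a b (1 : ℂ)) =
      ∑ j : Fin L.length, -Complex.I * wsg L j * ((Φ : Matrix ι ι ℂ) a b *
        ntr (((wr V L j : Matrix ι ι ℂ)ᴴ) * Matrix.single a b (1 : ℂ) *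
          ((wl V L j : Matrix ι ι ℂ)ᴴ))) := by
    intro a b
    rw [dCz_apply, Finset.mul_sum]
    refine Finset.sum_congr rfl fun j _ => ?_
    rw [← neg_smul, Matrix.mul_smul, Matrix.smul_mul, ntr_smul]
    ring
  simp_rw [h]
  have h3 : ∀ a, ∑ b, ∑ j : Fin L.length, -Complex.I * wsg L j * ((Φ : Matrix ι ι ℂ) a b *
        ntr (((wr V L j : Matrix ι ι ℂ)ᴴ) * Matrix.single a b (1 : ℂ) *
          ((wl V L j : Matrix ι ι ℂ)ᴴ))) =
      ∑ j : Fin L.length, ∑ b, -Complex.I * wsg L j * ((Φ : Matrix ι ι ℂ) a b *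
        ntr (((wr V L j : Matrix ι ι ℂ)ᴴ) * Matrix.single a b (1 : ℂ) *
          ((wl V L j : Matrix ι ι ℂ)ᴴ))) := fun a => Finset.sum_comm
  rw [Finset.sum_congr rfl fun a _ => h3 a, Finset.sum_comm, Finset.mul_sum]
  refine Finset.sum_congr rfl fun j _ => ?_
  simp_rw [← Finset.mul_sum]
  rw [sum_single_ntr, mul_assoc]
  rfl

theorem word_ineq [Nonempty ι] (X : UG ι) (L : List (Bool × UG ι)) :
    ∫ V, ‖utr (V * X * wd V L)‖ ^ 2 ∂(haarU ι) ≤
      ∑ j : Fin L.length, ∫ V, ‖utr (X * wl V L j)‖ * ‖utr (V * X * wd V L)‖ ∂(haarU ι) +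
        ((L.length : ℝ) + 1) / (Fintype.card ι : ℝ) ^ 2 := by
  set z : UG ι → ℂ := fun V => utr (V * X * wd V L) with hz
  have hz2 : ∀ V, utr (wd V ((true, X) :: L)) = z V := by
    intro V
    rw [wd_cons]
    rfl
  have cz : Continuous z :=
    continuous_utr.comp ((continuous_id'.mul continuous_const).mul (continuous_wd L))
  have cPh : Continuous fun V : UG ι => ((X * wd V L * V : UG ι) : Matrix ι ι ℂ) :=
    continuous_subtype_val.comp
      ((continuous_const.mul (continuous_wd L)).mul continuous_id')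
  have cPhe : ∀ a b, Continuous fun V : UG ι => ((X * wd V L * V : UG ι) : Matrix ι ι ℂ) a b :=
    fun a b => (continuous_apply_apply a b).comp cPh
  have hcd : ∀ Z : Matrix ι ι ℂ, ∀ a b, Continuous fun V : UG ι => dPh X L V Z a b := by
    intro Z a b
    exact (continuous_apply_apply a b).comp (continuous_dPh X L Z)
  have hcD : ∀ Z : Matrix ι ι ℂ, ∀ a b, Continuous fun V : UG ι =>
      dPh X L V Z a b * star (z V) +
        ((X * wd V L * V : UG ι) : Matrix ι ι ℂ) a b * dCz ((true, X) :: L) V Z := fun Z a b =>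
    ((hcd Z a b).mul cz.star).add ((cPhe a b).mul (continuous_dCz _ Z))
  have h1 : ∀ a b, ∫ V, (dPh X L V (Matrix.single a b (1 : ℂ)) a b * star (z V) +
      ((X * wd V L * V : UG ι) : Matrix ι ι ℂ) a b *
        dCz ((true, X) :: L) V (Matrix.single a b (1 : ℂ))) ∂(haarU ι) = 0 := by
    intro a b
    have e : ∀ V Z, (star (z V) • ((Matrix.entryLinearMap ℂ ℂ a b) ∘ₗ (dPh X L V)) +
        (((X * wd V L * V : UG ι) : Matrix ι ι ℂ) a b) • dCz ((true, X) :: L) V) Z =
        dPh X L V Z a b * star (z V) + ((X * wd V L * V : UG ι) : Matrix ι ι ℂ) a b *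
          dCz ((true, X) :: L) V Z := by
      intro V Z
      change star (z V) * dPh X L V Z a b + _ = _
      rw [mul_comm (star (z V))]
      rfl
    have h := ibp (fun V => ((X * wd V L * V : UG ι) : Matrix ι ι ℂ) a b * star (z V))
      (fun V => star (z V) • ((Matrix.entryLinearMap ℂ ℂ a b) ∘ₗ (dPh X L V)) +
        (((X * wd V L * V : UG ι) : Matrix ι ι ℂ) a b) • dCz ((true, X) :: L) V)
      ((cPhe a b).mul cz.star) (fun Z => by simp_rw [e]; exact hcD Z a b) ?_
      (Matrix.single a b (1 : ℂ))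
    · simp_rw [e] at h
      exact h
    · intro V K hK
      rw [e]
      have d1 := MD_Ph X L V hK a b
      have d2 := deriv_cz ((true, X) :: L) V hK
      have d3 := d1.mul d2
      have e0 : V * eU (((0 : ℝ) : ℂ) • K) = V := by
        rw [Complex.ofReal_zero, zero_smul, eU_zero, mul_one]
      simp only [hz2, e0] at d3
      exact d3
  have h2 : ∑ a, ∑ b, ∫ V, (dPh X L V (Matrix.single a b (1 : ℂ)) a b * star (z V) +
      ((X * wd V L * V : UG ι) : Matrix ι ι ℂ) a b *
        dCz ((true, X) :: L) V (Matrix.single a b (1 : ℂ))) ∂(haarU ι) =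
      ∫ V, ∑ a, ∑ b, (dPh X L V (Matrix.single a b (1 : ℂ)) a b * star (z V) +
      ((X * wd V L * V : UG ι) : Matrix ι ι ℂ) a b *
        dCz ((true, X) :: L) V (Matrix.single a b (1 : ℂ))) ∂(haarU ι) := by
    rw [integral_finsetSum]
    · refine Finset.sum_congr rfl fun a _ => ?_
      rw [integral_finsetSum]
      intro b _
      exact int_cont (hcD _ a b)
    · intro a _
      exact integrable_finsetSum _ fun b _ => int_cont (hcD _ a b)
  simp_rw [h1, Finset.sum_const_zero] at h2
  have h3 : ∀ V, ∑ a, ∑ b, (dPh X L V (Matrix.single a b (1 : ℂ)) a b * star (z V) +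
      ((X * wd V L * V : UG ι) : Matrix ι ι ℂ) a b *
        dCz ((true, X) :: L) V (Matrix.single a b (1 : ℂ))) =
      Complex.I * (Fintype.card ι : ℂ) ^ 2 * (∑ j : Fin L.length, wsg L j *
        (utr (X * wl V L j) * utr (wr V L j * V) * star (z V)) + z V * star (z V)) +
      -Complex.I * ∑ j : Fin ((true, X) :: L).length, wsg ((true, X) :: L) j *
        utr (X * wd V L * V * (wl V ((true, X) :: L) j)⁻¹ * (wr V ((true, X) :: L) j)⁻¹) := by
    intro V
    simp_rw [Finset.sum_add_distrib, ← Finset.sum_mul]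
    rw [sum_dPh, sum_dCz]
    congr 1
    rw [mul_assoc, add_mul, Finset.sum_mul]
    have e1 : ∀ j : Fin L.length, wsg L j * (utr (X * wl V L j) * utr (wr V L j * V)) *
        star (z V) = wsg L j * (utr (X * wl V L j) * utr (wr V L j * V) * star (z V)) :=
      fun j => by ring
    rw [Finset.sum_congr rfl fun j _ => e1 j]
  simp_rw [h3] at h2
  have n0 : (Fintype.card ι : ℂ) ≠ 0 := by exact_mod_cast Fintype.card_ne_zero
  have nR : (0 : ℝ) < (Fintype.card ι : ℝ) := by exact_mod_cast Fintype.card_pos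
  have c1 : ∀ j : Fin L.length, Continuous fun V : UG ι =>
      utr (X * wl V L j) * utr (wr V L j * V) * star (z V) := fun j =>
    ((continuous_utr.comp (continuous_const.mul (continuous_wl L j))).mul
      (continuous_utr.comp ((continuous_wr L j).mul continuous_id'))).mul cz.star
  have c2 : Continuous fun V : UG ι => z V * star (z V) := cz.mul cz.star
  have c3 : ∀ j : Fin ((true, X) :: L).length, Continuous fun V : UG ι =>
      utr (X * wd V L * V * (wl V ((true, X) :: L) j)⁻¹ * (wr V ((true, X) :: L) j)⁻¹) :=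
    fun j => continuous_utr.comp ((((continuous_const.mul (continuous_wd L)).mul
      continuous_id').mul (continuous_wl _ j).inv).mul (continuous_wr _ j).inv)
  have h4 : ∫ V, z V * star (z V) ∂(haarU ι) =
      -∑ j : Fin L.length, wsg L j * ∫ V, utr (X * wl V L j) * utr (wr V L j * V) *
        star (z V) ∂(haarU ι) + ((Fintype.card ι : ℂ) ^ 2)⁻¹ *
      ∑ j : Fin ((true, X) :: L).length, wsg ((true, X) :: L) j * ∫ V,
        utr (X * wd V L * V * (wl V ((true, X) :: L) j)⁻¹ * (wr V ((true, X) :: L) j)⁻¹)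
          ∂(haarU ι) := by
    rw [integral_add, integral_const_mul, integral_const_mul, integral_add,
      integral_finsetSum, integral_finsetSum] at h2
    · simp_rw [integral_const_mul] at h2
      have h5 : (Fintype.card ι : ℂ) ^ 2 * (∑ j : Fin L.length, wsg L j *
          ∫ V, utr (X * wl V L j) * utr (wr V L j * V) * star (z V) ∂(haarU ι) +
            ∫ V, z V * star (z V) ∂(haarU ι)) -
          ∑ j : Fin ((true, X) :: L).length, wsg ((true, X) :: L) j * ∫ V,
            utr (X * wd V L * V * (wl V ((true, X) :: L) j)⁻¹ *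
              (wr V ((true, X) :: L) j)⁻¹) ∂(haarU ι) = 0 := by
        refine mul_left_cancel₀ Complex.I_ne_zero ?_
        rw [mul_zero]
        linear_combination -h2
      field_simp
      linear_combination h5
    · intro j _
      exact (int_cont (c3 j)).const_mul _
    · intro j _
      exact (int_cont (c1 j)).const_mul _
    · exact integrable_finsetSum _ fun j _ => (int_cont (c1 j)).const_mul _
    · exact int_cont c2
    · exact ((integrable_finsetSum _ fun j _ => (int_cont (c1 j)).const_mul _).add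
        (int_cont c2)).const_mul _
    · exact (integrable_finsetSum _ fun j _ => (int_cont (c3 j)).const_mul _).const_mul _
  have h6 : ∫ V, z V * star (z V) ∂(haarU ι) = ((∫ V, ‖z V‖ ^ 2 ∂(haarU ι) : ℝ) : ℂ) := by
    rw [← integral_complex_ofReal]
    refine integral_congr_ae (Filter.Eventually.of_forall fun V => ?_)
    change z V * (starRingEnd ℂ) (z V) = _
    rw [Complex.mul_conj, Complex.normSq_eq_norm_sq]
  have h7 : ∫ V, ‖z V‖ ^ 2 ∂(haarU ι) = ‖∫ V, z V * star (z V) ∂(haarU ι)‖ := by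
    rw [h6, Complex.norm_real, Real.norm_of_nonneg]
    exact integral_nonneg fun V => by positivity
  rw [h7, h4]
  refine (norm_add_le _ _).trans (add_le_add ?_ ?_)
  · rw [norm_neg]
    refine (norm_sum_le _ _).trans (Finset.sum_le_sum fun j _ => ?_)
    rw [norm_mul, wsg_norm, one_mul]
    refine (norm_integral_le_integral_norm _).trans ?_
    refine integral_mono (int_contR (c1 j).norm) (int_contR ?_) fun V => ?_
    · exact (continuous_utr.comp (continuous_const.mul (continuous_wl L j))).norm.mul cz.norm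
    · change ‖utr (X * wl V L j) * utr (wr V L j * V) * star (z V)‖ ≤
        ‖utr (X * wl V L j)‖ * ‖z V‖
      rw [norm_mul, norm_mul, norm_star]
      refine mul_le_mul_of_nonneg_right ?_ (norm_nonneg _)
      exact mul_le_of_le_one_right (norm_nonneg _) (norm_utr_le_one _)
  · rw [norm_mul, norm_inv, norm_pow, Complex.norm_natCast, div_eq_inv_mul]
    refine mul_le_mul_of_nonneg_left ?_ (by positivity)
    refine (norm_sum_le _ _).trans ?_
    have h8 : ∀ j ∈ (Finset.univ : Finset (Fin ((true, X) :: L).length)),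
        ‖wsg ((true, X) :: L) j * ∫ V, utr (X * wd V L * V * (wl V ((true, X) :: L) j)⁻¹ *
          (wr V ((true, X) :: L) j)⁻¹) ∂(haarU ι)‖ ≤ 1 := by
      intro j _
      rw [norm_mul, wsg_norm, one_mul]
      refine (norm_integral_le_of_norm_le_const (C := 1)
        (Filter.Eventually.of_forall fun V => norm_utr_le_one _)).trans ?_
      simp
    refine (Finset.sum_le_card_nsmul _ _ _ h8).trans ?_
    simp

end Pool.Agent.OGP
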