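import Pool.Agent.OGP.Boot
import Pool.Agent.OGP.Ibp
import Pool.Agent.OGP.Wder

/-!
# OGP TIBP: the Schwinger-Dyson equation for the tilted measure

Let `G = Gf p Q l1 l2`, `n = card ι`.  Apply `ibp` to `φ A = (A^p)_{ab} e^{G A}`.  For Hermitian `K`,
with `D` the derivative in the direction `A (i K)`:
* `D (A^p) = ∑_{a=1}^{p} A^a (iK) A^{p-a}` (this is `wd_deriv` for the list
  `List.replicate p (true, 1)`, or a direct computation from `hasDerivAt_eU`);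
* `D utr (B^p) = p i ntr (B^p K)` for `B = A` and for `B = Q A` (cyclicity), so
  `D Re utr (B^p) = (p i / 2) (ntr (B^p K) - ntr ((B^p)⁻¹ K))` for Hermitian `K`, and this expression
  is complex linear in `K`.
Hence the derivative of `φ` at `Z` is
`[∑_{a=1}^{p} (A^a (iZ) A^{p-a})_{ab} + (A^p)_{ab} n² (p i/2) ∑_{i=1,2} l_i (ntr (B_i^p Z) -
ntr ((B_i^p)⁻¹ Z))] e^G`.  Take `Z = E_{ab}`, sum over `a, b` (`sum_single_contr`,
`sum_single_ntr`), divide by `i n²`: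
`0 = ∫ e^G { utr (A^p) + ∑_{a=1}^{p-1} utr (A^a) utr (A^{p-a})
   + (p/2) ∑_i l_i (utr (A^p B_i^p) - utr (A^p (B_i^p)⁻¹)) }`,
and `utr (A^p (A^p)⁻¹) = 1`, `utr (A^p A^p) = utr (A^{2p})`.
-/

open Matrix MeasureTheory
namespace Pool.Agent.OGP

variable {ι : Type} [Fintype ι] [DecidableEq ι]

/-- `∑_j B^(j+1) X B^(p-1-j)` -/
def tbP (B X : Matrix ι ι ℂ) (p : ℕ) : Matrix ι ι ℂ :=
  ∑ j ∈ Finset.range p, B ^ (j + 1) * X * B ^ (p - 1 - j)

theorem tbP_succ (B X : Matrix ι ι ℂ) (p : ℕ) :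
    tbP B X (p + 1) = tbP B X p * B + B ^ (p + 1) * X := by
  unfold tbP
  rw [Finset.sum_range_succ, Finset.sum_mul]
  refine congrArg₂ (· + ·) ?_ ?_
  · refine Finset.sum_congr rfl fun j hj => ?_
    have h1 := Finset.mem_range.1 hj
    have h2 : p + 1 - 1 - j = (p - 1 - j) + 1 := by omega
    rw [h2, pow_succ B (p - 1 - j), Matrix.mul_assoc (B ^ (j + 1) * X)]
  · have h2 : p + 1 - 1 - p = 0 := by omega
    rw [h2, pow_zero, Matrix.mul_one]

theorem tb_base (B : UG ι) {K : Matrix ι ι ℂ} (hK : K.IsHermitian) (a b : ι) :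
    HasDerivAt (fun t : ℝ => ((B * eU ((t : ℂ) • K) : UG ι) : Matrix ι ι ℂ) a b)
      (((B : Matrix ι ι ℂ) * (Complex.I • K)) a b) 0 := by
  have h1 : ∀ c : ι, HasDerivAt (fun t : ℝ => (B : Matrix ι ι ℂ) a c *
      ((eU ((t : ℂ) • K) : UG ι) : Matrix ι ι ℂ) c b)
      ((B : Matrix ι ι ℂ) a c * (Complex.I • K) c b) 0 := by
    intro c
    have h2 := (hasDerivAt_eU hK 0 c b).const_mul ((B : Matrix ι ι ℂ) a c)
    have h3 : ((0 : ℝ) : ℂ) • K = 0 := by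
      rw [Complex.ofReal_zero, zero_smul]
    rw [h3, eU_zero, UG_coe_one, Matrix.mul_one] at h2
    exact h2
  have h4 := HasDerivAt.fun_sum (u := Finset.univ) fun c _ => h1 c
  exact h4

theorem tb_pow (B : UG ι) {K : Matrix ι ι ℂ} (hK : K.IsHermitian) (p : ℕ) (a b : ι) :
    HasDerivAt (fun t : ℝ => (((B * eU ((t : ℂ) • K)) ^ p : UG ι) : Matrix ι ι ℂ) a b)
      ((tbP (B : Matrix ι ι ℂ) (Complex.I • K) p) a b) 0 := by
  induction p generalizing a b with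
  | zero =>
    have h1 : (fun t : ℝ => (((B * eU ((t : ℂ) • K)) ^ 0 : UG ι) : Matrix ι ι ℂ) a b) =
        fun _ => (1 : Matrix ι ι ℂ) a b := by
      funext t
      rw [pow_zero, UG_coe_one]
    rw [h1]
    have h2 : (tbP (B : Matrix ι ι ℂ) (Complex.I • K) 0) a b = 0 := by
      unfold tbP
      rw [Finset.sum_range_zero]
      rfl
    rw [h2]
    exact hasDerivAt_const _ _
  | succ p ih =>
    have h1 : ∀ c : ι, HasDerivAt (fun t : ℝ =>
        (((B * eU ((t : ℂ) • K)) ^ p : UG ι) : Matrix ι ι ℂ) a c *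
          ((B * eU ((t : ℂ) • K) : UG ι) : Matrix ι ι ℂ) c b)
        ((tbP (B : Matrix ι ι ℂ) (Complex.I • K) p) a c * (B : Matrix ι ι ℂ) c b +
          ((B : Matrix ι ι ℂ) ^ p) a c * ((B : Matrix ι ι ℂ) * (Complex.I • K)) c b) 0 := by
      intro c
      have h2 := (ih a c).mul (tb_base B hK c b)
      have h3 : ((0 : ℝ) : ℂ) • K = 0 := by
        rw [Complex.ofReal_zero, zero_smul]
      rw [h3, eU_zero, mul_one] at h2
      exact h2
    have h4 := HasDerivAt.fun_sum (u := Finset.univ) fun c _ => h1 c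
    rw [Finset.sum_add_distrib] at h4
    rw [tbP_succ]
    have h5 : (fun t : ℝ => (((B * eU ((t : ℂ) • K)) ^ (p + 1) : UG ι) : Matrix ι ι ℂ) a b) =
        fun t : ℝ => ∑ c, (((B * eU ((t : ℂ) • K)) ^ p : UG ι) : Matrix ι ι ℂ) a c *
          ((B * eU ((t : ℂ) • K) : UG ι) : Matrix ι ι ℂ) c b := by
      funext t
      rw [pow_succ, UG_coe_mul, Matrix.mul_apply]
    rw [h5]
    have h6 : (tbP (B : Matrix ι ι ℂ) (Complex.I • K) p * (B : Matrix ι ι ℂ) +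
        (B : Matrix ι ι ℂ) ^ (p + 1) * (Complex.I • K)) a b =
        (∑ c, (tbP (B : Matrix ι ι ℂ) (Complex.I • K) p) a c * (B : Matrix ι ι ℂ) c b) +
        ∑ c, ((B : Matrix ι ι ℂ) ^ p) a c * ((B : Matrix ι ι ℂ) * (Complex.I • K)) c b := by
      rw [Matrix.add_apply, Matrix.mul_apply, pow_succ, Matrix.mul_assoc, Matrix.mul_apply]
    rw [h6]
    exact h4

theorem tb_coe_pow (B : UG ι) (p : ℕ) :
    ((B ^ p : UG ι) : Matrix ι ι ℂ) = (B : Matrix ι ι ℂ) ^ p := rfl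

theorem tb_ntr (B X : Matrix ι ι ℂ) (p : ℕ) : ntr (tbP B X p) = p * ntr (B ^ p * X) := by
  unfold tbP
  rw [ntr_sum]
  have h1 : ∀ j ∈ Finset.range p, ntr (B ^ (j + 1) * X * B ^ (p - 1 - j)) = ntr (B ^ p * X) := by
    intro j hj
    have h2 := Finset.mem_range.1 hj
    rw [ntr_mul_comm, ← Matrix.mul_assoc, ← pow_add]
    congr 3
    omega
  rw [Finset.sum_congr rfl h1, Finset.sum_const, Finset.card_range, nsmul_eq_mul]

theorem tb_utr (B : UG ι) {K : Matrix ι ι ℂ} (hK : K.IsHermitian) (p : ℕ) :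
    HasDerivAt (fun t : ℝ => utr ((B * eU ((t : ℂ) • K)) ^ p))
      (p * Complex.I * ntr ((B : Matrix ι ι ℂ) ^ p * K)) 0 := by
  have h1 := (HasDerivAt.fun_sum (u := Finset.univ) fun (a : ι) _ =>
    tb_pow B hK p a a).const_mul ((Fintype.card ι : ℂ)⁻¹)
  have h2 : (Fintype.card ι : ℂ)⁻¹ * ∑ a, (tbP (B : Matrix ι ι ℂ) (Complex.I • K) p) a a =
      p * Complex.I * ntr ((B : Matrix ι ι ℂ) ^ p * K) := by
    change ntr (tbP (B : Matrix ι ι ℂ) (Complex.I • K) p) = _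
    rw [tb_ntr, Matrix.mul_smul, ntr_smul]
    ring
  rw [h2] at h1
  exact h1

/-- the derivative of `Re utr (B^p)`, as a complex linear function of `K` -/
noncomputable def tbR (p : ℕ) (B : UG ι) (Z : Matrix ι ι ℂ) : ℂ :=
  p * Complex.I / 2 * (ntr (((B ^ p : UG ι) : Matrix ι ι ℂ) * Z) -
    ntr ((((B ^ p)⁻¹ : UG ι) : Matrix ι ι ℂ) * Z))

theorem tbR_add (p : ℕ) (B : UG ι) (Z Z' : Matrix ι ι ℂ) :
    tbR p B (Z + Z') = tbR p B Z + tbR p B Z' := by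
  unfold tbR
  rw [Matrix.mul_add, Matrix.mul_add, ntr_add, ntr_add]
  ring

theorem tbR_smul (p : ℕ) (B : UG ι) (c : ℂ) (Z : Matrix ι ι ℂ) :
    tbR p B (c • Z) = c * tbR p B Z := by
  unfold tbR
  rw [Matrix.mul_smul, Matrix.mul_smul, ntr_smul, ntr_smul]
  ring

theorem tb_re (B : UG ι) {K : Matrix ι ι ℂ} (hK : K.IsHermitian) (p : ℕ) :
    ∃ g : ℝ, (g : ℂ) = tbR p B K ∧
      HasDerivAt (fun t : ℝ => (utr ((B * eU ((t : ℂ) • K)) ^ p)).re) g 0 := by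
  have h1 := tb_utr B hK p
  refine ⟨(p * Complex.I * ntr ((B : Matrix ι ι ℂ) ^ p * K)).re, ?_, ?_⟩
  · rw [Complex.re_eq_add_conj]
    have h2 : (starRingEnd ℂ) (ntr ((B : Matrix ι ι ℂ) ^ p * K)) =
        ntr ((((B ^ p)⁻¹ : UG ι) : Matrix ι ι ℂ) * K) := by
      have h3 := ntr_conjTranspose ((B : Matrix ι ι ℂ) ^ p * K)
      rw [Complex.star_def] at h3
      rw [← h3, Matrix.conjTranspose_mul, hK.eq, ntr_mul_comm, UG_coe_inv, tb_coe_pow]
    rw [map_mul, map_mul, h2, Complex.conj_I, Complex.conj_natCast]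
    unfold tbR
    rw [tb_coe_pow]
    ring
  · have h2 : (fun t : ℝ => (utr ((B * eU ((t : ℂ) • K)) ^ p)).re) =
        fun t : ℝ => Complex.reCLM (utr ((B * eU ((t : ℂ) • K)) ^ p)) := rfl
    rw [h2]
    exact Complex.reCLM.hasFDerivAt.comp_hasDerivAt 0 h1

/-- the derivative of the exponent -/
noncomputable def tbG (p : ℕ) (Q : UG ι) (l1 l2 : ℝ) (A : UG ι) (Z : Matrix ι ι ℂ) : ℂ :=
  (Fintype.card ι : ℂ) ^ 2 * ((l1 : ℂ) * tbR p A Z + (l2 : ℂ) * tbR p (Q * A) Z)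

theorem tb_G (p : ℕ) (Q : UG ι) (l1 l2 : ℝ) (A : UG ι) {K : Matrix ι ι ℂ} (hK : K.IsHermitian) :
    HasDerivAt (fun t : ℝ => ((Real.exp (Gf p Q l1 l2 (A * eU ((t : ℂ) • K))) : ℝ) : ℂ))
      (((Real.exp (Gf p Q l1 l2 A) : ℝ) : ℂ) * tbG p Q l1 l2 A K) 0 := by
  obtain ⟨g1, hg1, hd1⟩ := tb_re A hK p
  obtain ⟨g2, hg2, hd2⟩ := tb_re (Q * A) hK p
  have h1 : HasDerivAt (fun t : ℝ => Gf p Q l1 l2 (A * eU ((t : ℂ) • K)))
      ((Fintype.card ι : ℝ) ^ 2 * (l1 * g1 + l2 * g2)) 0 := by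
    unfold Gf
    refine ((hd1.const_mul l1).add ?_).const_mul _
    have h2 : (fun t : ℝ => l2 * (utr ((Q * (A * eU ((t : ℂ) • K))) ^ p)).re) =
        fun t : ℝ => l2 * (utr ((Q * A * eU ((t : ℂ) • K)) ^ p)).re := by
      funext t
      rw [mul_assoc]
    rw [h2]
    exact hd2.const_mul l2
  have h4 := h1.exp.ofReal_comp
  have h5 : eU (((0 : ℝ) : ℂ) • K) = (1 : UG ι) := by
    rw [Complex.ofReal_zero, zero_smul, eU_zero]
  rw [h5, mul_one] at h4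
  have h6 : ((Real.exp (Gf p Q l1 l2 A) *
      ((Fintype.card ι : ℝ) ^ 2 * (l1 * g1 + l2 * g2)) : ℝ) : ℂ) =
      ((Real.exp (Gf p Q l1 l2 A) : ℝ) : ℂ) * tbG p Q l1 l2 A K := by
    unfold tbG
    rw [← hg1, ← hg2]
    push_cast
    ring
  rw [h6] at h4
  exact h4

/-- the derivative of `A ↦ (A^p)_{ab} e^{G A}` -/
noncomputable def tbD (p : ℕ) (Q : UG ι) (l1 l2 : ℝ) (a b : ι) (A : UG ι) :
    Matrix ι ι ℂ →ₗ[ℂ] ℂ where
  toFun Z := ((Real.exp (Gf p Q l1 l2 A) : ℝ) : ℂ) *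
    ((tbP (A : Matrix ι ι ℂ) (Complex.I • Z) p) a b +
      ((A : Matrix ι ι ℂ) ^ p) a b * tbG p Q l1 l2 A Z)
  map_add' Z Z' := by
    have h1 : tbP (A : Matrix ι ι ℂ) (Complex.I • (Z + Z')) p =
        tbP (A : Matrix ι ι ℂ) (Complex.I • Z) p + tbP (A : Matrix ι ι ℂ) (Complex.I • Z') p := by
      unfold tbP
      rw [← Finset.sum_add_distrib]
      refine Finset.sum_congr rfl fun j _ => ?_
      rw [smul_add, Matrix.mul_add, Matrix.add_mul]
    have h2 : tbG p Q l1 l2 A (Z + Z') = tbG p Q l1 l2 A Z + tbG p Q l1 l2 A Z' := by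
      unfold tbG
      rw [tbR_add, tbR_add]
      ring
    rw [h1, h2, Matrix.add_apply]
    ring
  map_smul' c Z := by
    have h1 : tbP (A : Matrix ι ι ℂ) (Complex.I • (c • Z)) p =
        c • tbP (A : Matrix ι ι ℂ) (Complex.I • Z) p := by
      unfold tbP
      rw [Finset.smul_sum]
      refine Finset.sum_congr rfl fun j _ => ?_
      rw [smul_comm, Matrix.mul_smul, Matrix.smul_mul]
    have h2 : tbG p Q l1 l2 A (c • Z) = c * tbG p Q l1 l2 A Z := by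
      unfold tbG
      rw [tbR_smul, tbR_smul]
      ring
    rw [h1, h2, Matrix.smul_apply, RingHom.id_apply, smul_eq_mul, smul_eq_mul]
    ring

theorem tbD_apply (p : ℕ) (Q : UG ι) (l1 l2 : ℝ) (a b : ι) (A : UG ι) (Z : Matrix ι ι ℂ) :
    tbD p Q l1 l2 a b A Z = ((Real.exp (Gf p Q l1 l2 A) : ℝ) : ℂ) *
    ((tbP (A : Matrix ι ι ℂ) (Complex.I • Z) p) a b +
      ((A : Matrix ι ι ℂ) ^ p) a b * tbG p Q l1 l2 A Z) := rfl

theorem tb_cont_exp (p : ℕ) (Q : UG ι) (l1 l2 : ℝ) :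
    Continuous fun A : UG ι => ((Real.exp (Gf p Q l1 l2 A) : ℝ) : ℂ) :=
  Complex.continuous_ofReal.comp (Real.continuous_exp.comp (continuous_Gf p Q l1 l2))

theorem tb_cont_R (p : ℕ) (Q : UG ι) (Z : Matrix ι ι ℂ) :
    Continuous fun A : UG ι => tbR p (Q * A) Z := by
  unfold tbR
  have h1 : Continuous fun A : UG ι => (Q * A) ^ p := (continuous_const.mul continuous_id).pow p
  refine continuous_const.mul (Continuous.sub ?_ ?_)
  · exact continuous_ntr.comp ((continuous_subtype_val.comp h1).mul continuous_const)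
  · exact continuous_ntr.comp ((continuous_subtype_val.comp h1.inv).mul continuous_const)

theorem tb_cont_G (p : ℕ) (Q : UG ι) (l1 l2 : ℝ) (Z : Matrix ι ι ℂ) :
    Continuous fun A : UG ι => tbG p Q l1 l2 A Z := by
  unfold tbG
  have h1 := tb_cont_R p 1 Z
  simp only [one_mul] at h1
  exact continuous_const.mul ((continuous_const.mul h1).add
    (continuous_const.mul (tb_cont_R p Q Z)))

theorem tb_cont_D (p : ℕ) (Q : UG ι) (l1 l2 : ℝ) (a b : ι) (Z : Matrix ι ι ℂ) :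
    Continuous fun A : UG ι => tbD p Q l1 l2 a b A Z := by
  simp only [tbD_apply]
  refine (tb_cont_exp p Q l1 l2).mul (Continuous.add ?_ (Continuous.mul ?_
    (tb_cont_G p Q l1 l2 Z)))
  · have h1 : Continuous fun A : UG ι => tbP (A : Matrix ι ι ℂ) (Complex.I • Z) p := by
      unfold tbP
      exact continuous_finsetSum _ fun j _ => ((continuous_subtype_val.pow _).mul
        continuous_const).mul (continuous_subtype_val.pow _)
    exact h1.matrix_elem a b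
  · exact (continuous_subtype_val.pow p).matrix_elem a b

theorem tb_zero (p : ℕ) (Q : UG ι) (l1 l2 : ℝ) (a b : ι) (Z : Matrix ι ι ℂ) :
    ∫ A, tbD p Q l1 l2 a b A Z ∂(haarU ι) = 0 := by
  refine ibp (fun A : UG ι => (((A ^ p : UG ι) : Matrix ι ι ℂ) a b) *
    ((Real.exp (Gf p Q l1 l2 A) : ℝ) : ℂ)) (tbD p Q l1 l2 a b) ?_
    (fun Z => tb_cont_D p Q l1 l2 a b Z) ?_ Z
  · exact ((continuous_subtype_val.comp (continuous_pow p)).matrix_elem a b).mul
      (tb_cont_exp p Q l1 l2)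
  · intro A K hK
    have h1 := (tb_pow A hK p a b).mul (tb_G p Q l1 l2 A hK)
    have h5 : eU (((0 : ℝ) : ℂ) • K) = (1 : UG ι) := by
      rw [Complex.ofReal_zero, zero_smul, eU_zero]
    rw [h5, mul_one, tb_coe_pow] at h1
    have h2 : (tbP (A : Matrix ι ι ℂ) (Complex.I • K) p) a b *
        ((Real.exp (Gf p Q l1 l2 A) : ℝ) : ℂ) + ((A : Matrix ι ι ℂ) ^ p) a b *
        (((Real.exp (Gf p Q l1 l2 A) : ℝ) : ℂ) * tbG p Q l1 l2 A K) =
        tbD p Q l1 l2 a b A K := by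
      rw [tbD_apply]
      ring
    rw [h2] at h1
    exact h1

theorem tb_contr1 [Nonempty ι] (A : UG ι) (p : ℕ) :
    ∑ a, ∑ b, (tbP (A : Matrix ι ι ℂ) (Complex.I • Matrix.single a b (1 : ℂ)) p) a b =
      Complex.I * (Fintype.card ι : ℂ) ^ 2 *
        ∑ j ∈ Finset.range p, utr (A ^ (j + 1)) * utr (A ^ (p - 1 - j)) := by
  have hn : (Fintype.card ι : ℂ) ≠ 0 := by exact_mod_cast Fintype.card_ne_zero
  have h1 : ∀ a b : ι, (tbP (A : Matrix ι ι ℂ) (Complex.I • Matrix.single a b (1 : ℂ)) p) a b =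
      ∑ j ∈ Finset.range p, Complex.I * ((A : Matrix ι ι ℂ) ^ (j + 1) *
        Matrix.single a b (1 : ℂ) * (A : Matrix ι ι ℂ) ^ (p - 1 - j) : Matrix ι ι ℂ) a b := by
    intro a b
    unfold tbP
    rw [Matrix.sum_apply]
    refine Finset.sum_congr rfl fun j _ => ?_
    rw [Matrix.mul_smul, Matrix.smul_mul, Matrix.smul_apply, smul_eq_mul]
  simp only [h1]
  have h2 : ∑ a, ∑ b, ∑ j ∈ Finset.range p, Complex.I * ((A : Matrix ι ι ℂ) ^ (j + 1) *
        Matrix.single a b (1 : ℂ) * (A : Matrix ι ι ℂ) ^ (p - 1 - j) : Matrix ι ι ℂ) a b =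
      ∑ j ∈ Finset.range p, Complex.I * ∑ a, ∑ b, ((A : Matrix ι ι ℂ) ^ (j + 1) *
        Matrix.single a b (1 : ℂ) * (A : Matrix ι ι ℂ) ^ (p - 1 - j) : Matrix ι ι ℂ) a b := by
    simp only [Finset.mul_sum]
    refine (Finset.sum_congr rfl fun a _ => Finset.sum_comm).trans ?_
    exact Finset.sum_comm
  rw [h2, Finset.mul_sum]
  refine Finset.sum_congr rfl fun j _ => ?_
  rw [sum_single_contr]
  unfold utr ntr
  rw [tb_coe_pow, tb_coe_pow]
  field_simp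

theorem tb_contr2 (A B : UG ι) (p : ℕ) :
    ∑ a, ∑ b, ((A : Matrix ι ι ℂ) ^ p) a b * tbR p B (Matrix.single a b (1 : ℂ)) =
      p * Complex.I / 2 * (utr (A ^ p * B ^ p) - utr (A ^ p * (B ^ p)⁻¹)) := by
  have h1 : ∀ X : Matrix ι ι ℂ, ∑ a, ∑ b, ((A : Matrix ι ι ℂ) ^ p) a b *
      ntr (X * Matrix.single a b (1 : ℂ)) = ntr ((A : Matrix ι ι ℂ) ^ p * X) := by
    intro X
    have := sum_single_ntr ((A : Matrix ι ι ℂ) ^ p) X 1
    simpa using this
  have h2 : ∀ a b : ι, ((A : Matrix ι ι ℂ) ^ p) a b * tbR p B (Matrix.single a b (1 : ℂ)) =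
      p * Complex.I / 2 * (((A : Matrix ι ι ℂ) ^ p) a b *
        ntr (((B ^ p : UG ι) : Matrix ι ι ℂ) * Matrix.single a b (1 : ℂ)) -
        ((A : Matrix ι ι ℂ) ^ p) a b *
        ntr ((((B ^ p)⁻¹ : UG ι) : Matrix ι ι ℂ) * Matrix.single a b (1 : ℂ))) := by
    intro a b
    unfold tbR
    ring
  simp only [h2, ← Finset.mul_sum, Finset.sum_sub_distrib]
  rw [h1, h1]
  rfl

/-- the contracted integrand -/
noncomputable def tbZ (p : ℕ) (Q : UG ι) (l1 l2 : ℝ) (A : UG ι) : ℂ :=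
  (∑ j ∈ Finset.range p, utr (A ^ (j + 1)) * utr (A ^ (p - 1 - j))) +
    (p / 2 : ℂ) * ((l1 : ℂ) * (utr (A ^ (2 * p)) - 1) +
      (l2 : ℂ) * (utr (A ^ p * (Q * A) ^ p) - utr (A ^ p * ((Q * A) ^ p)⁻¹)))

theorem tb_sum [Nonempty ι] (p : ℕ) (Q : UG ι) (l1 l2 : ℝ) (A : UG ι) :
    ∑ a, ∑ b, tbD p Q l1 l2 a b A (Matrix.single a b (1 : ℂ)) =
      Complex.I * (Fintype.card ι : ℂ) ^ 2 *
        (((Real.exp (Gf p Q l1 l2 A) : ℝ) : ℂ) * tbZ p Q l1 l2 A) := by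
  have h1 : ∀ a b : ι, tbD p Q l1 l2 a b A (Matrix.single a b (1 : ℂ)) =
      ((Real.exp (Gf p Q l1 l2 A) : ℝ) : ℂ) *
      (tbP (A : Matrix ι ι ℂ) (Complex.I • Matrix.single a b (1 : ℂ)) p) a b +
      ((Real.exp (Gf p Q l1 l2 A) : ℝ) : ℂ) * (Fintype.card ι : ℂ) ^ 2 * (l1 : ℂ) *
        (((A : Matrix ι ι ℂ) ^ p) a b * tbR p A (Matrix.single a b (1 : ℂ))) +
      ((Real.exp (Gf p Q l1 l2 A) : ℝ) : ℂ) * (Fintype.card ι : ℂ) ^ 2 * (l2 : ℂ) *
        (((A : Matrix ι ι ℂ) ^ p) a b * tbR p (Q * A) (Matrix.single a b (1 : ℂ))) := by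
    intro a b
    rw [tbD_apply]
    unfold tbG
    ring
  simp only [h1, Finset.sum_add_distrib, ← Finset.mul_sum]
  rw [tb_contr1, tb_contr2, tb_contr2]
  have h2 : A ^ p * A ^ p = A ^ (2 * p) := by rw [← pow_add, two_mul]
  rw [h2, mul_inv_cancel, utr_one]
  unfold tbZ
  ring

theorem tb_cont_Z (p : ℕ) (Q : UG ι) (l1 l2 : ℝ) : Continuous (tbZ p Q l1 l2) := by
  unfold tbZ
  have hp : ∀ m : ℕ, Continuous fun A : UG ι => utr (A ^ m) := fun m =>
    continuous_utr.comp (continuous_pow m)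
  have hq : Continuous fun A : UG ι => (Q * A) ^ p := (continuous_const.mul continuous_id).pow p
  refine Continuous.add ?_ ?_
  · exact continuous_finsetSum _ fun j _ => (hp _).mul (hp _)
  · refine continuous_const.mul (Continuous.add ?_ ?_)
    · exact continuous_const.mul ((hp _).sub continuous_const)
    · exact continuous_const.mul ((continuous_utr.comp ((continuous_pow p).mul hq)).sub
        (continuous_utr.comp ((continuous_pow p).mul hq.inv)))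

theorem tb_int {E : Type*} [NormedAddCommGroup E]
    {f : UG ι → E} (hf : Continuous f) : Integrable f (haarU ι) :=
  hf.integrable_of_hasCompactSupport (HasCompactSupport.of_compactSpace f)

theorem tb_tE [Nonempty ι] (p : ℕ) (Q : UG ι) (l1 l2 : ℝ) :
    tE (Gf p Q l1 l2) (tbZ p Q l1 l2) = 0 := by
  have hn : (Fintype.card ι : ℂ) ≠ 0 := by exact_mod_cast Fintype.card_ne_zero
  have h1 : ∫ A, ∑ a, ∑ b, tbD p Q l1 l2 a b A (Matrix.single a b (1 : ℂ)) ∂(haarU ι) = 0 := by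
    rw [integral_finsetSum _ fun a _ => tb_int (continuous_finsetSum _ fun b _ =>
      tb_cont_D p Q l1 l2 a b _)]
    refine Finset.sum_eq_zero fun a _ => ?_
    rw [integral_finsetSum _ fun b _ => tb_int (tb_cont_D p Q l1 l2 a b _)]
    exact Finset.sum_eq_zero fun b _ => tb_zero p Q l1 l2 a b _
  simp only [tb_sum] at h1
  rw [integral_const_mul] at h1
  have h2 : ∫ A, ((Real.exp (Gf p Q l1 l2 A) : ℝ) : ℂ) * tbZ p Q l1 l2 A ∂(haarU ι) = 0 := by
    rcases mul_eq_zero.1 h1 with h3 | h3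
    · rcases mul_eq_zero.1 h3 with h4 | h4
      · exact absurd h4 Complex.I_ne_zero
      · exact absurd (pow_eq_zero_iff (two_ne_zero)|>.1 h4) hn
    · exact h3
  unfold tE
  have h3 : ∫ A, Real.exp (Gf p Q l1 l2 A) • tbZ p Q l1 l2 A ∂(haarU ι) = 0 := h2
  rw [h3, smul_zero]

theorem tilt_ibp [Nonempty ι] {p : ℕ} (hp : 1 ≤ p) (Q : UG ι) (l1 l2 : ℝ) :
    tE (Gf p Q l1 l2) (fun A => utr (A ^ p)) =
      (p / 2 : ℂ) * ((l1 : ℂ) * (1 - tE (Gf p Q l1 l2) (fun A => utr (A ^ (2 * p)))) +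
        (l2 : ℂ) * (tE (Gf p Q l1 l2) (fun A => utr (A ^ p * ((Q * A) ^ p)⁻¹)) -
          tE (Gf p Q l1 l2) (fun A => utr (A ^ p * (Q * A) ^ p)))) -
      ∑ a ∈ Finset.Ico 1 p, tE (Gf p Q l1 l2) (fun A => utr (A ^ a) * utr (A ^ (p - a))) := by
  have hG := continuous_Gf p Q l1 l2
  have hpc : ∀ m : ℕ, Continuous fun A : UG ι => utr (A ^ m) := fun m =>
    continuous_utr.comp (continuous_pow m)
  have hq : Continuous fun A : UG ι => (Q * A) ^ p := (continuous_const.mul continuous_id).pow p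
  have hc1 : ∀ a : ℕ, Continuous fun A : UG ι => utr (A ^ a) * utr (A ^ (p - a)) := fun a =>
    (hpc _).mul (hpc _)
  have hc2 : Continuous fun A : UG ι => utr (A ^ p * (Q * A) ^ p) :=
    continuous_utr.comp ((continuous_pow p).mul hq)
  have hc3 : Continuous fun A : UG ι => utr (A ^ p * ((Q * A) ^ p)⁻¹) :=
    continuous_utr.comp ((continuous_pow p).mul hq.inv)
  -- rewrite the sum
  have hsum : ∀ A : UG ι, ∑ j ∈ Finset.range p, utr (A ^ (j + 1)) * utr (A ^ (p - 1 - j)) =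
      (∑ a ∈ Finset.Ico 1 p, utr (A ^ a) * utr (A ^ (p - a))) + utr (A ^ p) := by
    intro A
    obtain ⟨q, rfl⟩ : ∃ q, p = q + 1 := ⟨p - 1, by omega⟩
    rw [Finset.sum_range_succ]
    have e1 : q + 1 - 1 - q = 0 := by omega
    rw [e1, pow_zero, utr_one, mul_one]
    congr 1
    rw [Finset.sum_Ico_eq_sum_range]
    refine Finset.sum_congr (by rw [Nat.add_sub_cancel]) fun j hj => ?_
    rw [add_comm j 1]
    congr 3
    omega
  have h0 := tb_tE p Q l1 l2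
  have k1 : Continuous (fun A : UG ι => ∑ a ∈ Finset.Ico 1 p, utr (A ^ a) * utr (A ^ (p - a))) :=
    continuous_finsetSum _ fun a _ => hc1 a
  have k12 : Continuous (fun A : UG ι => (∑ a ∈ Finset.Ico 1 p, utr (A ^ a) * utr (A ^ (p - a))) +
      utr (A ^ p)) := k1.add (hpc p)
  have k2 : Continuous (fun A : UG ι => (l1 : ℂ) * (utr (A ^ (2 * p)) - 1)) :=
    continuous_const.mul ((hpc _).sub continuous_const)
  have k3 : Continuous (fun A : UG ι => (l2 : ℂ) * (utr (A ^ p * (Q * A) ^ p) -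
      utr (A ^ p * ((Q * A) ^ p)⁻¹))) := continuous_const.mul (hc2.sub hc3)
  have k23 : Continuous (fun A : UG ι => (p / 2 : ℂ) * ((l1 : ℂ) * (utr (A ^ (2 * p)) - 1) +
      (l2 : ℂ) * (utr (A ^ p * (Q * A) ^ p) - utr (A ^ p * ((Q * A) ^ p)⁻¹)))) :=
    continuous_const.mul (k2.add k3)
  have e0 : tbZ p Q l1 l2 = fun A : UG ι =>
      ((∑ a ∈ Finset.Ico 1 p, utr (A ^ a) * utr (A ^ (p - a))) + utr (A ^ p)) +
      (p / 2 : ℂ) * ((l1 : ℂ) * (utr (A ^ (2 * p)) - 1) +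
      (l2 : ℂ) * (utr (A ^ p * (Q * A) ^ p) - utr (A ^ p * ((Q * A) ^ p)⁻¹))) := by
    funext A
    unfold tbZ
    rw [hsum A]
  have t1 := tE_addC hG k12 k23
  have t2 := tE_addC hG k1 (hpc p)
  have t3 := tE_mulC (G := Gf p Q l1 l2) (p / 2 : ℂ) (fun A : UG ι =>
    (l1 : ℂ) * (utr (A ^ (2 * p)) - 1) +
      (l2 : ℂ) * (utr (A ^ p * (Q * A) ^ p) - utr (A ^ p * ((Q * A) ^ p)⁻¹)))
  have t4 := tE_addC hG k2 k3
  have t5 := tE_mulC (G := Gf p Q l1 l2) (l1 : ℂ) (fun A : UG ι => utr (A ^ (2 * p)) - 1)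
  have t6 := tE_mulC (G := Gf p Q l1 l2) (l2 : ℂ) (fun A : UG ι =>
    utr (A ^ p * (Q * A) ^ p) - utr (A ^ p * ((Q * A) ^ p)⁻¹))
  have t7 := tE_subC hG (hpc (2 * p)) (continuous_const (y := (1 : ℂ)))
  have t8 := tE_subC hG hc2 hc3
  have t9 := tE_constC hG (1 : ℂ)
  have t10 := tE_sumC hG (Finset.Ico 1 p) (Z := fun a A => utr (A ^ a) * utr (A ^ (p - a))) hc1
  rw [e0, t1, t2, t3, t4, t5, t6, t7, t8, t9, t10] at h0
  linear_combination h0

end Pool.Agent.OGP
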