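import Pool.Agent.OGP.Tibp
import Pool.Agent.OGP.Bal

/-!
# OGP TMEAN: tilted means of the two moments

Let `G = Gf p Q l1 l2`, `s = |l1| + |l2|`, `n = card ι`, `w = s + 1/n`.

First statement.  Take real parts in `tilt_ibp`.  Errors:
* `|tE G utr (A^{2p})| ≤ tE G |utr (A^{2p})| ≤ 4^{2p}/n + C w ≤ C' w` (`norm_tE_le`, `tilt_phase`,
  `pow_small`; `|utr A^{2p}|` is `2p`-Lipschitz, phase invariant);
* `|tE G utr (A^p (QA)^p)| ≤ C' w`: the same with `pow_mul_pow_small` (`|utr (A^p (QA)^p)|` is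
  phase invariant and `2p`-Lipschitz: `d2_mul_le`, `d2_pow_le`, `d2_mul_left`);
* `|tE G utr (A^p ((QA)^p)⁻¹) - conj (utr Q)^p| ≤ C' w`: real and imaginary part of
  `utr (A^p ((QA)^p)⁻¹)` are phase invariant and `2p`-Lipschitz, apply `tilt_phase` to `± Re`,
  `± Im` and `bal_word`;
* `|tE G (utr (A^a) utr (A^{p-a}))| ≤ C' w²` (`tE_mul_le`, `tilt_sq`).
All errors of the first three kinds are multiplied by `|l1|` or `|l2|` `≤ w`.  Total `≤ C w²`.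
`Re (conj (utr Q)^p) = Re ((utr Q)^p)`.

Second statement: by invariance (`tE_translate`) with `B = Q A`:
`tE (Gf p Q l1 l2) (Re utr ((QA)^p)) = tE (Gf p Q⁻¹ l2 l1) (Re utr (B^p))`, because
`Gf p Q l1 l2 A = Gf p Q⁻¹ l2 l1 (Q A)`; apply the first statement, and
`utr Q⁻¹ = conj (utr Q)`.
-/

open Matrix MeasureTheory
namespace Pool.Agent.OGP

section tmean

variable {ι : Type} [Fintype ι] [DecidableEq ι]

lemma tmean_phU_pow (θ : ℝ) (A : UG ι) (p : ℕ) :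
    (phU θ * A) ^ p = phU (p * θ) * A ^ p := by
  induction p with
  | zero => simp [phU_zero]
  | succ p ih =>
    rw [pow_succ, ih, pow_succ]
    have e : phU (((p + 1 : ℕ) : ℝ) * θ) = (phU ((p : ℝ) * θ) * phU θ : UG ι) := by
      rw [← phU_add]
      congr 1
      push_cast
      ring
    rw [e]
    simp only [mul_assoc]
    congr 1
    rw [← mul_assoc, ← mul_assoc, phU_comm θ (A ^ p)]

lemma tmean_phU_mul (θ : ℝ) (Q A : UG ι) : Q * (phU θ * A) = phU θ * (Q * A) := by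
  rw [← mul_assoc, ← phU_comm, mul_assoc]

lemma tmean_cont_pow (p : ℕ) : Continuous fun A : UG ι => utr (A ^ p) :=
  continuous_utr.comp (continuous_pow p)

lemma tmean_cont_a (p : ℕ) (Q : UG ι) : Continuous fun A : UG ι => utr (A ^ p * (Q * A) ^ p) :=
  continuous_utr.comp ((continuous_pow p).mul ((continuous_const.mul continuous_id).pow p))

lemma tmean_cont_b (p : ℕ) (Q : UG ι) :
    Continuous fun A : UG ι => utr (A ^ p * ((Q * A) ^ p)⁻¹) :=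
  continuous_utr.comp ((continuous_pow p).mul ((continuous_const.mul continuous_id).pow p).inv)

lemma tmean_lip_a (p : ℕ) (Q A B : UG ι) :
    ‖utr (A ^ p * (Q * A) ^ p) - utr (B ^ p * (Q * B) ^ p)‖ ≤ (2 * p : ℝ) * d2 A B := by
  refine (norm_utr_sub_le _ _).trans ((d2_mul_le _ _ _ _).trans ?_)
  have h1 := d2_pow_le A B p
  have h2 := d2_pow_le (Q * A) (Q * B) p
  rw [d2_mul_left] at h2
  linarith

lemma tmean_lip_b (p : ℕ) (Q A B : UG ι) :
    ‖utr (A ^ p * ((Q * A) ^ p)⁻¹) - utr (B ^ p * ((Q * B) ^ p)⁻¹)‖ ≤ (2 * p : ℝ) * d2 A B := by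
  refine (norm_utr_sub_le _ _).trans ((d2_mul_le _ _ _ _).trans ?_)
  have h1 := d2_pow_le A B p
  have h2 := d2_pow_le (Q * A) (Q * B) p
  rw [d2_mul_left] at h2
  rw [d2_inv]
  linarith

lemma tmean_ph_a (p : ℕ) (Q : UG ι) : PhaseInv fun A : UG ι => ‖utr (A ^ p * (Q * A) ^ p)‖ := by
  intro θ A
  simp only
  rw [tmean_phU_mul, tmean_phU_pow, tmean_phU_pow]
  have e : phU ((p : ℝ) * θ) * A ^ p * (phU ((p : ℝ) * θ) * (Q * A) ^ p) =
      phU ((p : ℝ) * θ) * (phU ((p : ℝ) * θ) * (A ^ p * (Q * A) ^ p)) := by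
    rw [mul_assoc, tmean_phU_mul]
  rw [e, utr_phU_mul, utr_phU_mul, norm_mul, norm_mul, mul_comm Complex.I,
    Complex.norm_exp_ofReal_mul_I, one_mul, one_mul]

lemma tmean_ph_b (p : ℕ) (Q : UG ι) : PhaseInv fun A : UG ι => utr (A ^ p * ((Q * A) ^ p)⁻¹) := by
  intro θ A
  simp only
  rw [tmean_phU_mul, tmean_phU_pow, tmean_phU_pow]
  congr 1
  generalize hs : (phU ((p : ℝ) * θ) : UG ι) = s
  have hcomm : s * (A ^ p * ((Q * A) ^ p)⁻¹) = (A ^ p * ((Q * A) ^ p)⁻¹) * s := by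
    rw [← hs]
    exact phU_comm _ _
  rw [_root_.mul_inv_rev, mul_assoc s (A ^ p), ← mul_assoc (A ^ p) _ s⁻¹, ← mul_assoc s, hcomm,
    mul_inv_cancel_right]

/-- The constant of `tilt_phase` for `L = 2 p`. -/
noncomputable def tmK (p : ℕ) : ℝ := 2 * 4 ^ p + 10 * (p : ℝ) ^ 2 + 5 / 2 * (2 * (p : ℝ)) ^ 2

/-- The constant of `tilt_sq`. -/
noncomputable def tmD (p : ℕ) : ℝ :=
  40 * (p : ℝ) ^ 2 * (2 * 4 ^ p + 10 * (p : ℝ) ^ 2 + 16 ^ p + 1)

lemma tmK_nonneg (p : ℕ) : 0 ≤ tmK p := by unfold tmK; positivity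
lemma tmD_nonneg (p : ℕ) : 0 ≤ tmD p := by unfold tmD; positivity

lemma tmean_abs [Nonempty ι] {p : ℕ} (hp : 1 ≤ p) (Q : UG ι) (l1 l2 : ℝ) {Z : UG ι → ℝ}
    (hc : Continuous Z)
    (hZ : ∀ A B, |Z A - Z B| ≤ (2 * p : ℝ) * d2 A B) (hph : PhaseInv Z) :
    |tE (Gf p Q l1 l2) Z - ∫ A, Z A ∂(haarU ι)| ≤
      tmK p * (|l1| + |l2| + 1 / (Fintype.card ι : ℝ)) := by
  have h1 := tilt_phase hp Q l1 l2 (L := 2 * p) (by positivity) hZ hph
  have hZ' : ∀ A B, |(-1 : ℝ) * Z A - (-1 : ℝ) * Z B| ≤ (2 * p : ℝ) * d2 A B := by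
    intro A B
    rw [← mul_sub, abs_mul, abs_neg, abs_one, one_mul]
    exact hZ A B
  have h2 := tilt_phase hp Q l1 l2 (Z := fun A => (-1 : ℝ) * Z A) (L := 2 * p) (by positivity) hZ'
    (fun θ A => by simp only [hph θ A])
  rw [tE_mul, integral_const_mul] at h2
  have e : tmK p = 2 * 4 ^ p + 10 * (p : ℝ) ^ 2 + 5 / 2 * (2 * (p : ℝ)) ^ 2 := rfl
  rw [← e] at h1 h2
  rw [abs_le]
  constructor <;> linarith

lemma tmean_x1 [Nonempty ι] {p : ℕ} (hp : 1 ≤ p) (Q : UG ι) (l1 l2 : ℝ) :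
    ‖tE (Gf p Q l1 l2) (fun A => utr (A ^ (2 * p)))‖ ≤
      (16 ^ p + tmK p) * (|l1| + |l2| + 1 / (Fintype.card ι : ℝ)) := by
  have hG := continuous_Gf p Q l1 l2
  refine (norm_tE_le hG (tmean_cont_pow (2 * p))).trans ?_
  have h1 := tmean_abs hp Q l1 l2 (Z := fun A => ‖utr (A ^ (2 * p))‖)
    (tmean_cont_pow (2 * p)).norm (fun A B => by
      have := abs_pow_lip (2 * p) A B
      push_cast at this
      exact this) (abs_pow_phase (2 * p))
  have h2 := pow_small (1 : UG ι) (m := 2 * p) (by omega)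
  simp only [one_mul] at h2
  have h3 : (4 : ℝ) ^ (2 * p) = 16 ^ p := by
    rw [pow_mul]; norm_num
  rw [h3, div_eq_mul_one_div] at h2
  have h4 := (abs_le.1 h1).2
  have h5 : (16 : ℝ) ^ p * (1 / (Fintype.card ι : ℝ)) ≤
      16 ^ p * (|l1| + |l2| + 1 / (Fintype.card ι : ℝ)) :=
    mul_le_mul_of_nonneg_left (by linarith [abs_nonneg l1, abs_nonneg l2]) (by positivity)
  rw [add_mul]
  linarith

lemma tmean_x3 [Nonempty ι] {p : ℕ} (hp : 1 ≤ p) (Q : UG ι) (l1 l2 : ℝ) :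
    ‖tE (Gf p Q l1 l2) (fun A => utr (A ^ p * (Q * A) ^ p))‖ ≤
      (16 ^ p + tmK p) * (|l1| + |l2| + 1 / (Fintype.card ι : ℝ)) := by
  have hG := continuous_Gf p Q l1 l2
  refine (norm_tE_le hG (tmean_cont_a p Q)).trans ?_
  have h1 := tmean_abs hp Q l1 l2 (Z := fun A => ‖utr (A ^ p * (Q * A) ^ p)‖)
    (tmean_cont_a p Q).norm (fun A B => (abs_norm_sub_norm_le _ _).trans (tmean_lip_a p Q A B))
    (tmean_ph_a p Q)
  have h2 := pow_mul_pow_small Q hp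
  rw [div_eq_mul_one_div] at h2
  have h4 := (abs_le.1 h1).2
  have h5 : (16 : ℝ) ^ p * (1 / (Fintype.card ι : ℝ)) ≤
      16 ^ p * (|l1| + |l2| + 1 / (Fintype.card ι : ℝ)) :=
    mul_le_mul_of_nonneg_left (by linarith [abs_nonneg l1, abs_nonneg l2]) (by positivity)
  rw [add_mul]
  linarith

lemma tmean_x2 [Nonempty ι] {p : ℕ} (hp : 1 ≤ p) (Q : UG ι) (l1 l2 : ℝ) :
    ‖tE (Gf p Q l1 l2) (fun A => utr (A ^ p * ((Q * A) ^ p)⁻¹)) - star (utr Q) ^ p‖ ≤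
      (4 ^ p + 2 * tmK p) * (|l1| + |l2| + 1 / (Fintype.card ι : ℝ)) := by
  have hG := continuous_Gf p Q l1 l2
  set Z : UG ι → ℂ := fun A => utr (A ^ p * ((Q * A) ^ p)⁻¹) with hZdef
  have hZc : Continuous Z := tmean_cont_b p Q
  have hZi : Integrable Z (haarU ι) := hZc.integrable_of_hasCompactSupport
    (HasCompactSupport.of_compactSpace Z)
  have hlip : ∀ A B, ‖Z A - Z B‖ ≤ (2 * p : ℝ) * d2 A B := tmean_lip_b p Q
  have hph : PhaseInv Z := tmean_ph_b p Q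
  have h1 := tmean_abs hp Q l1 l2 (Z := fun A => (Z A).re) (Complex.continuous_re.comp hZc)
    (fun A B => by
      rw [← Complex.sub_re]
      exact (Complex.abs_re_le_norm _).trans (hlip A B)) (fun θ A => by simp only [hph θ A])
  have h2 := tmean_abs hp Q l1 l2 (Z := fun A => (Z A).im) (Complex.continuous_im.comp hZc)
    (fun A B => by
      rw [← Complex.sub_im]
      exact (Complex.abs_im_le_norm _).trans (hlip A B)) (fun θ A => by simp only [hph θ A])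
  have hre : (tE (Gf p Q l1 l2) Z).re = tE (Gf p Q l1 l2) (fun A => (Z A).re) := re_tE hG hZc
  have him : (tE (Gf p Q l1 l2) Z).im = tE (Gf p Q l1 l2) (fun A => (Z A).im) := by
    have h3 := re_tE hG (Z := fun A => (-Complex.I) * Z A) (continuous_const.mul hZc)
    rw [tE_mulC] at h3
    simpa using h3
  have hire : (∫ A, Z A ∂(haarU ι)).re = ∫ A, (Z A).re ∂(haarU ι) := (integral_re hZi).symm
  have hiim : (∫ A, Z A ∂(haarU ι)).im = ∫ A, (Z A).im ∂(haarU ι) := (integral_im hZi).symm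
  have h4 : ‖tE (Gf p Q l1 l2) Z - ∫ A, Z A ∂(haarU ι)‖ ≤
      2 * (tmK p * (|l1| + |l2| + 1 / (Fintype.card ι : ℝ))) := by
    refine (Complex.norm_le_abs_re_add_abs_im _).trans ?_
    rw [Complex.sub_re, Complex.sub_im, hre, him, hire, hiim]
    linarith
  have h5 := bal_word hp Q
  rw [div_eq_mul_one_div] at h5
  have h6 : (4 : ℝ) ^ p * (1 / (Fintype.card ι : ℝ)) ≤
      4 ^ p * (|l1| + |l2| + 1 / (Fintype.card ι : ℝ)) :=
    mul_le_mul_of_nonneg_left (by linarith [abs_nonneg l1, abs_nonneg l2]) (by positivity)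
  have h7 : tE (Gf p Q l1 l2) Z - star (utr Q) ^ p =
      (tE (Gf p Q l1 l2) Z - ∫ A, Z A ∂(haarU ι)) +
        ((∫ A, Z A ∂(haarU ι)) - star (utr Q) ^ p) := by ring
  rw [h7]
  refine (norm_add_le _ _).trans ?_
  rw [add_mul]
  linarith

lemma tmean_y [Nonempty ι] {p : ℕ} (hp : 1 ≤ p) (Q : UG ι) (l1 l2 : ℝ) {a : ℕ}
    (ha : a ∈ Finset.Ico 1 p) :
    ‖tE (Gf p Q l1 l2) (fun A => utr (A ^ a) * utr (A ^ (p - a)))‖ ≤
      tmD p * (|l1| + |l2| + 1 / (Fintype.card ι : ℝ)) ^ 2 := by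
  rw [Finset.mem_Ico] at ha
  have hG := continuous_Gf p Q l1 l2
  set w : ℝ := |l1| + |l2| + 1 / (Fintype.card ι : ℝ) with hw
  have hw0 : 0 ≤ w := by positivity
  refine (norm_tE_le hG ((tmean_cont_pow a).mul (tmean_cont_pow (p - a)))).trans ?_
  have hnm : (fun A : UG ι => ‖utr (A ^ a) * utr (A ^ (p - a))‖) =
      fun A => ‖utr (A ^ a)‖ * ‖utr (A ^ (p - a))‖ := by
    funext A
    exact _root_.norm_mul _ _
  change tE (Gf p Q l1 l2) (fun A : UG ι => ‖utr (A ^ a) * utr (A ^ (p - a))‖) ≤ _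
  rw [hnm]
  refine (tE_mul_le hG (tmean_cont_pow a).norm (tmean_cont_pow (p - a)).norm).trans ?_
  have hb : ∀ b : ℕ, 1 ≤ b → b ≤ p →
      Real.sqrt (tE (Gf p Q l1 l2) fun A => ‖utr (A ^ b)‖ ^ 2) ≤ Real.sqrt (tmD p * w ^ 2) := by
    intro b hb1 hbp
    refine Real.sqrt_le_sqrt ((tilt_sq hp Q l1 l2 hb1).trans ?_)
    refine mul_le_mul_of_nonneg_right ?_ (by positivity)
    unfold tmD
    have h1 : (b : ℝ) ≤ p := by exact_mod_cast hbp
    have h2 : (16 : ℝ) ^ b ≤ 16 ^ p := pow_le_pow_right₀ (by norm_num) hbp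
    have h3 : (b : ℝ) ^ 2 ≤ (p : ℝ) ^ 2 := pow_le_pow_left₀ (by positivity) h1 2
    refine mul_le_mul (by linarith) (by linarith) (by positivity) (by positivity)
  refine (mul_le_mul (hb a ha.1 ha.2.le) (hb (p - a) (by omega) (by omega)) (Real.sqrt_nonneg _)
    (Real.sqrt_nonneg _)).trans (le_of_eq ?_)
  exact Real.mul_self_sqrt (mul_nonneg (tmD_nonneg p) (by positivity))

/-- The constant of `tmean`. -/
noncomputable def tmC (p : ℕ) : ℝ :=
  p / 2 * ((16 ^ p + tmK p) + (4 ^ p + 2 * tmK p) + (16 ^ p + tmK p)) + p * tmD p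

lemma tmC_nonneg (p : ℕ) : 0 ≤ tmC p := by
  have := tmK_nonneg p
  have := tmD_nonneg p
  unfold tmC
  positivity

lemma tmean_re_star (z : ℂ) (p : ℕ) : ((star z) ^ p).re = (z ^ p).re := by
  rw [← star_pow, Complex.star_def, Complex.conj_re]

lemma tmean_one [Nonempty ι] {p : ℕ} (hp : 1 ≤ p) (Q : UG ι) (l1 l2 : ℝ) :
    |tE (Gf p Q l1 l2) (fun A => (utr (A ^ p)).re) -
        p / 2 * (l1 + l2 * (utr Q ^ p).re)| ≤
          tmC p * (|l1| + |l2| + 1 / (Fintype.card ι : ℝ)) ^ 2 := by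
  have hG := continuous_Gf p Q l1 l2
  set w : ℝ := |l1| + |l2| + 1 / (Fintype.card ι : ℝ) with hw
  have hw0 : 0 ≤ w := by positivity
  have hn0 : 0 ≤ 1 / (Fintype.card ι : ℝ) := by positivity
  have h1w : |l1| ≤ w := by have := abs_nonneg l2; linarith
  have h2w : |l2| ≤ w := by have := abs_nonneg l1; linarith
  have hK := tmK_nonneg p
  have hD := tmD_nonneg p
  have e1 := tilt_ibp hp Q l1 l2
  have b1 := tmean_x1 hp Q l1 l2
  have b2 := tmean_x2 hp Q l1 l2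
  have b3 := tmean_x3 hp Q l1 l2
  rw [← hw] at b1 b2 b3
  set T := tE (Gf p Q l1 l2) (fun A => utr (A ^ p)) with hT
  set X1 := tE (Gf p Q l1 l2) (fun A => utr (A ^ (2 * p))) with hX1
  set X2 := tE (Gf p Q l1 l2) (fun A => utr (A ^ p * ((Q * A) ^ p)⁻¹)) with hX2
  set X3 := tE (Gf p Q l1 l2) (fun A => utr (A ^ p * (Q * A) ^ p)) with hX3
  set c : ℂ := star (utr Q) ^ p with hc
  have hre : tE (Gf p Q l1 l2) (fun A => (utr (A ^ p)).re) = T.re :=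
    (re_tE hG (tmean_cont_pow p)).symm
  have hdiff : tE (Gf p Q l1 l2) (fun A => (utr (A ^ p)).re) -
      p / 2 * (l1 + l2 * (utr Q ^ p).re) = (T - (p / 2 : ℂ) * ((l1 : ℂ) + (l2 : ℂ) * c)).re := by
    have e2 : (p / 2 : ℂ) * ((l1 : ℂ) + (l2 : ℂ) * c) =
        ((p / 2 : ℝ) : ℂ) * ((l1 : ℂ) + (l2 : ℂ) * c) := by push_cast; ring
    rw [hre, Complex.sub_re, e2, Complex.re_ofReal_mul, Complex.add_re, Complex.ofReal_re,
      Complex.re_ofReal_mul, hc, tmean_re_star]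
  rw [hdiff]
  refine (Complex.abs_re_le_norm _).trans ?_
  have e3 : T - (p / 2 : ℂ) * ((l1 : ℂ) + (l2 : ℂ) * c) =
      (p / 2 : ℂ) * (-((l1 : ℂ) * X1) + (l2 : ℂ) * (X2 - c) - (l2 : ℂ) * X3) -
      ∑ a ∈ Finset.Ico 1 p, tE (Gf p Q l1 l2) (fun A => utr (A ^ a) * utr (A ^ (p - a))) := by
    rw [e1]
    ring
  rw [e3]
  have hsum : ‖∑ a ∈ Finset.Ico 1 p,
      tE (Gf p Q l1 l2) (fun A => utr (A ^ a) * utr (A ^ (p - a)))‖ ≤ p * (tmD p * w ^ 2) := by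
    refine (norm_sum_le_of_le _ (fun a ha => tmean_y hp Q l1 l2 ha)).trans ?_
    rw [Finset.sum_const, Nat.card_Ico, nsmul_eq_mul, ← hw]
    refine mul_le_mul_of_nonneg_right ?_ (by positivity)
    exact_mod_cast Nat.sub_le p 1
  have hp2 : ‖(p / 2 : ℂ)‖ = p / 2 := by
    rw [norm_div, Complex.norm_natCast]
    norm_num
  have hmain : ‖-((l1 : ℂ) * X1) + (l2 : ℂ) * (X2 - c) - (l2 : ℂ) * X3‖ ≤
      ((16 ^ p + tmK p) + (4 ^ p + 2 * tmK p) + (16 ^ p + tmK p)) * w ^ 2 := by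
    have n1 : ‖-((l1 : ℂ) * X1)‖ ≤ w * ((16 ^ p + tmK p) * w) := by
      rw [norm_neg, norm_mul, Complex.norm_real, Real.norm_eq_abs]
      exact mul_le_mul h1w b1 (norm_nonneg _) hw0
    have n2 : ‖(l2 : ℂ) * (X2 - c)‖ ≤ w * ((4 ^ p + 2 * tmK p) * w) := by
      rw [norm_mul, Complex.norm_real, Real.norm_eq_abs]
      exact mul_le_mul h2w b2 (norm_nonneg _) hw0
    have n3 : ‖(l2 : ℂ) * X3‖ ≤ w * ((16 ^ p + tmK p) * w) := by
      rw [norm_mul, Complex.norm_real, Real.norm_eq_abs]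
      exact mul_le_mul h2w b3 (norm_nonneg _) hw0
    calc ‖-((l1 : ℂ) * X1) + (l2 : ℂ) * (X2 - c) - (l2 : ℂ) * X3‖
        ≤ ‖-((l1 : ℂ) * X1)‖ + ‖(l2 : ℂ) * (X2 - c)‖ + ‖(l2 : ℂ) * X3‖ :=
          (norm_sub_le _ _).trans (add_le_add (norm_add_le _ _) le_rfl)
      _ ≤ w * ((16 ^ p + tmK p) * w) + w * ((4 ^ p + 2 * tmK p) * w) +
          w * ((16 ^ p + tmK p) * w) := add_le_add (add_le_add n1 n2) n3
      _ = _ := by ring
  refine (norm_sub_le _ _).trans ?_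
  rw [norm_mul, hp2]
  calc (p / 2 : ℝ) * ‖-((l1 : ℂ) * X1) + (l2 : ℂ) * (X2 - c) - (l2 : ℂ) * X3‖ +
        ‖∑ a ∈ Finset.Ico 1 p,
          tE (Gf p Q l1 l2) (fun A => utr (A ^ a) * utr (A ^ (p - a)))‖
      ≤ (p / 2 : ℝ) * (((16 ^ p + tmK p) + (4 ^ p + 2 * tmK p) + (16 ^ p + tmK p)) * w ^ 2) +
        p * (tmD p * w ^ 2) :=
        add_le_add (mul_le_mul_of_nonneg_left hmain (by positivity)) hsum
    _ = tmC p * w ^ 2 := by unfold tmC; ring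

end tmean

theorem tmean (p : ℕ) (hp : 1 ≤ p) : ∃ C : ℝ, 0 ≤ C ∧
    ∀ (ι : Type) [Fintype ι] [DecidableEq ι] [Nonempty ι] (Q : UG ι) (l1 l2 : ℝ),
      |tE (Gf p Q l1 l2) (fun A => (utr (A ^ p)).re) -
        p / 2 * (l1 + l2 * (utr Q ^ p).re)| ≤
          C * (|l1| + |l2| + 1 / (Fintype.card ι : ℝ)) ^ 2 ∧
      |tE (Gf p Q l1 l2) (fun A => (utr ((Q * A) ^ p)).re) -
        p / 2 * (l2 + l1 * (utr Q ^ p).re)| ≤
          C * (|l1| + |l2| + 1 / (Fintype.card ι : ℝ)) ^ 2 := by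
  refine ⟨tmC p, tmC_nonneg p, ?_⟩
  intro ι _ _ _ Q l1 l2
  refine ⟨tmean_one hp Q l1 l2, ?_⟩
  have h1 := tmean_one hp Q⁻¹ l2 l1
  have hGe : Gf p Q l1 l2 = fun A => Gf p Q⁻¹ l2 l1 (Q * A) := by
    funext A
    unfold Gf
    rw [inv_mul_cancel_left]
    ring
  have h2 := tE_translate Q (Gf p Q⁻¹ l2 l1) (fun A => (utr (A ^ p)).re)
  rw [← h2, ← hGe, utr_inv, tmean_re_star, add_comm |l2| |l1|] at h1
  exact h1

end Pool.Agent.OGP
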