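import Pool.Agent.OGP.Lvl

/-!
# OGP TRIG: one-sided trigonometric approximation of the indicator of an arc

`[s, t] ⊆ [0, 2π]`, `s < t`.  Let `f⁺` be the continuous `2π`-periodic function equal to `1` on
`[s, t] + 2πℤ`, to `0` at distance `≥ h` from it, linear in between, and `f⁻` the one equal to `0`
outside `(s, t) + 2πℤ`, to `1` at points of `(s, t)` at distance `≥ h` from the complement, linear in
between; `∫ (f⁺ - f⁻) ≤ 4h`.  (E.g. `f⁺ x = max 0 (1 - dist(x, A)/h)`, `A = [s,t] + 2πℤ`,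
`f⁻ x = min 1 (dist(x, Aᶜ ∪ ∂A)/h)`.)  Approximate `f^±` uniformly up to `ε/8` by trigonometric
polynomials (`span_fourier_closure_eq_top` or `fourierSubalgebra_closure_eq_top` on `AddCircle (2π)`),
take real parts (`(c m + conj (c (-m)))/2`), add `± ε/8`.  The coefficient `c 0` is the mean
`(1/2π) ∫_0^{2π}`, so `cp 0 - cm 0 ≤ (4h)/(2π) + ε/2 ≤ ε` for small `h`, and
`(t - s)/(2π)` lies between the two means up to `ε`.
-/

open Matrix MeasureTheory Set
namespace Pool.Agent.OGP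

private lemma tpv_add (c c' : ℤ →₀ ℂ) (x : ℝ) : tpv (c + c') x = tpv c x + tpv c' x := by
  unfold tpv
  exact Finsupp.sum_add_index' (fun _ => by rw [zero_mul]) (fun _ _ _ => by rw [add_mul])

private lemma tpv_smul (a : ℂ) (c : ℤ →₀ ℂ) (x : ℝ) : tpv (a • c) x = a * tpv c x := by
  unfold tpv
  rw [Finsupp.sum_smul_index (fun _ => by rw [zero_mul]), Finsupp.mul_sum]
  exact Finsupp.sum_congr fun _ _ => by ring

private lemma tpv_const (a : ℂ) (x : ℝ) : tpv (Finsupp.single 0 a) x = a := by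
  unfold tpv
  rw [Finsupp.sum_single_index (by rw [zero_mul])]
  simp

/-- the complex conjugate of a trigonometric polynomial -/
private noncomputable def cj (c : ℤ →₀ ℂ) : ℤ →₀ ℂ :=
  Finsupp.mapDomain (fun m : ℤ => -m) (Finsupp.mapRange (starRingEnd ℂ) (map_zero _) c)

private lemma tpv_cj (c : ℤ →₀ ℂ) (x : ℝ) : tpv (cj c) x = (starRingEnd ℂ) (tpv c x) := by
  unfold tpv cj
  rw [Finsupp.sum_mapDomain_index (fun _ => by rw [zero_mul]) (fun _ _ _ => by rw [add_mul]),
    Finsupp.sum_mapRange_index (fun _ => by rw [zero_mul]), map_finsuppSum]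
  refine Finsupp.sum_congr fun m _ => ?_
  rw [map_mul, ← Complex.exp_conj, map_mul, Complex.conj_I, Complex.conj_ofReal]
  congr 2
  push_cast
  ring

private lemma tpv_cont (c : ℤ →₀ ℂ) : Continuous (tpv c) := by
  unfold tpv Finsupp.sum
  fun_prop

private lemma int_tpv (c : ℤ →₀ ℂ) : ∫ x in (0 : ℝ)..(2 * Real.pi), tpv c x = 2 * Real.pi * c 0 := by
  unfold tpv Finsupp.sum
  rw [intervalIntegral.integral_finsetSum fun m _ => by
    apply Continuous.intervalIntegrable; fun_prop]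
  have h1 : ∀ m : ℤ, ∫ x in (0 : ℝ)..(2 * Real.pi), c m * Complex.exp (Complex.I * ((m * x : ℝ) : ℂ)) =
      if m = 0 then 2 * Real.pi * c 0 else 0 := by
    intro m
    by_cases hm : m = 0
    · subst hm
      simp
    · rw [if_neg hm, intervalIntegral.integral_const_mul]
      have hmc : (m : ℂ) ≠ 0 := by exact_mod_cast hm
      have h2 : ∀ x : ℝ, Complex.exp (Complex.I * ((m * x : ℝ) : ℂ)) =
          Complex.exp ((Complex.I * m) * (x : ℂ)) := by
        intro x
        congr 1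
        push_cast
        ring
      simp only [h2]
      rw [integral_exp_mul_complex (mul_ne_zero Complex.I_ne_zero hmc)]
      have h3 : Complex.exp (Complex.I * m * ((2 * Real.pi : ℝ) : ℂ)) = 1 := by
        have := Complex.exp_int_mul_two_pi_mul_I m
        rw [← this]
        congr 1
        push_cast
        ring
      rw [h3]
      simp
  simp only [h1]
  rw [Finset.sum_ite_eq']
  by_cases h0 : (0 : ℤ) ∈ c.support
  · rw [if_pos h0]
  · rw [if_neg h0, Finsupp.notMem_support_iff.1 h0, mul_zero]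

private instance factTwoPi : Fact (0 < 2 * Real.pi) := ⟨Real.two_pi_pos⟩

private lemma approx (F : AddCircle (2 * Real.pi) → ℝ) (hF : Continuous F) {η : ℝ} (hη : 0 < η) :
    ∃ c : ℤ →₀ ℂ, (∀ x : ℝ, (tpv c x).im = 0) ∧ (∀ x : ℝ, |(tpv c x).re - F x| ≤ η) ∧
      |(c 0).re - (2 * Real.pi)⁻¹ * ∫ b, F b| ≤ η := by
  have hpi := Real.two_pi_pos
  let f : C(AddCircle (2 * Real.pi), ℂ) := ⟨fun b => (F b : ℂ), Complex.continuous_ofReal.comp hF⟩
  have hf : f ∈ (Submodule.span ℂ (range (fourier (T := 2 * Real.pi)))).topologicalClosure := by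
    rw [span_fourier_closure_eq_top]
    exact Submodule.mem_top
  obtain ⟨P, hP, hfP⟩ := Metric.mem_closure_iff.1 hf η hη
  obtain ⟨c0, hc0⟩ := (Finsupp.mem_span_range_iff_exists_finsupp).1 hP
  have hP' : ∀ x : ℝ, P (x : AddCircle (2 * Real.pi)) = tpv c0 x := by
    intro x
    rw [← hc0]
    unfold tpv Finsupp.sum
    rw [ContinuousMap.coe_sum, Finset.sum_apply]
    refine Finset.sum_congr rfl fun m _ => ?_
    rw [ContinuousMap.coe_smul, Pi.smul_apply, fourier_coe_apply, smul_eq_mul]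
    congr 2
    have : (Real.pi : ℂ) ≠ 0 := by exact_mod_cast Real.pi_ne_zero
    push_cast
    field_simp
  have hd : ∀ x : ℝ, ‖(F x : ℂ) - tpv c0 x‖ ≤ η := by
    intro x
    have h1 := (ContinuousMap.dist_apply_le_dist (f := f) (g := P) (x : AddCircle (2 * Real.pi))).trans
      hfP.le
    rw [dist_eq_norm, hP'] at h1
    exact h1
  obtain ⟨c, hc⟩ : ∃ c : ℤ →₀ ℂ, c = (1 / 2 : ℂ) • (c0 + cj c0) := ⟨_, rfl⟩
  have hre : ∀ x : ℝ, tpv c x = (((tpv c0 x).re : ℝ) : ℂ) := by
    intro x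
    rw [hc, tpv_smul, tpv_add, tpv_cj, Complex.re_eq_add_conj]
    ring
  have hre2 : ∀ x : ℝ, |(tpv c x).re - F x| ≤ η := by
    intro x
    rw [hre x, Complex.ofReal_re]
    have h1 := (Complex.abs_re_le_norm ((F x : ℂ) - tpv c0 x)).trans (hd x)
    rw [Complex.sub_re, Complex.ofReal_re] at h1
    rwa [abs_sub_comm]
  refine ⟨c, fun x => by rw [hre x, Complex.ofReal_im], hre2, ?_⟩
  have h1 : ∫ b, F b = ∫ x in (0 : ℝ)..(2 * Real.pi), F x := by
    have := AddCircle.intervalIntegral_preimage (2 * Real.pi) 0 F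
    rw [zero_add] at this
    exact this.symm
  have hFc : Continuous fun x : ℝ => F (x : AddCircle (2 * Real.pi)) :=
    hF.comp (AddCircle.continuous_mk' _)
  have h2 : 2 * Real.pi * (c 0).re = ∫ x in (0 : ℝ)..(2 * Real.pi), (tpv c x).re := by
    have h3 := congrArg Complex.re (int_tpv c)
    have h4 : ∫ x in (0 : ℝ)..(2 * Real.pi), tpv c x =
        ((∫ x in (0 : ℝ)..(2 * Real.pi), (tpv c x).re : ℝ) : ℂ) := by
      rw [← intervalIntegral.integral_ofReal]
      refine intervalIntegral.integral_congr fun x _ => ?_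
      rw [hre x, Complex.ofReal_re]
    rw [h4, Complex.ofReal_re] at h3
    rw [h3]
    simp
  have h3 : |2 * Real.pi * (c 0).re - ∫ b, F b| ≤ 2 * Real.pi * η := by
    rw [h2, h1, ← intervalIntegral.integral_sub]
    · have h4 := intervalIntegral.norm_integral_le_of_norm_le_const (a := (0 : ℝ))
        (b := 2 * Real.pi) (f := fun x => (tpv c x).re - F x) (C := η)
        (fun x _ => by rw [Real.norm_eq_abs]; exact hre2 x)
      rw [sub_zero, abs_of_pos hpi, Real.norm_eq_abs] at h4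
      linarith
    · exact (Complex.continuous_re.comp (tpv_cont c)).intervalIntegrable _ _
    · exact hFc.intervalIntegrable _ _
  have h4 : (c 0).re - (2 * Real.pi)⁻¹ * ∫ b, F b =
      (2 * Real.pi)⁻¹ * (2 * Real.pi * (c 0).re - ∫ b, F b) := by
    field_simp
  rw [h4, abs_mul, abs_of_pos (inv_pos.2 hpi)]
  calc (2 * Real.pi)⁻¹ * |2 * Real.pi * (c 0).re - ∫ b, F b| ≤
      (2 * Real.pi)⁻¹ * (2 * Real.pi * η) :=
        mul_le_mul_of_nonneg_left h3 (inv_pos.2 hpi).le
    _ = η := by field_simp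

private lemma vol_real (c : AddCircle (2 * Real.pi)) {r : ℝ} (hr : 0 ≤ r) :
    (volume : Measure (AddCircle (2 * Real.pi))).real (Metric.closedBall c r) =
      min (2 * Real.pi) (2 * r) := by
  rw [Measure.real, AddCircle.volume_closedBall, ENNReal.toReal_ofReal]
  exact le_min Real.two_pi_pos.le (by linarith)

private lemma int_le (F : AddCircle (2 * Real.pi) → ℝ) (hF : Continuous F)
    (c : AddCircle (2 * Real.pi)) {r : ℝ} (hr : 0 ≤ r)
    (h : ∀ b, F b ≤ (Metric.closedBall c r).indicator 1 b) : ∫ b, F b ≤ 2 * r := by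
  have h1 : ∫ b, F b ≤ ∫ b, (Metric.closedBall c r).indicator (1 : AddCircle (2 * Real.pi) → ℝ) b :=
    integral_mono (hF.integrable_of_hasCompactSupport (HasCompactSupport.of_compactSpace _))
      ((integrable_const (1 : ℝ)).indicator Metric.isClosed_closedBall.measurableSet) h
  rw [integral_indicator_one Metric.isClosed_closedBall.measurableSet, vol_real c hr] at h1
  exact h1.trans (min_le_right _ _)

private lemma le_int (F : AddCircle (2 * Real.pi) → ℝ) (hF : Continuous F)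
    (c : AddCircle (2 * Real.pi)) {r : ℝ} (hr : 0 ≤ r)
    (h : ∀ b, (Metric.closedBall c r).indicator 1 b ≤ F b) :
    min (2 * Real.pi) (2 * r) ≤ ∫ b, F b := by
  have h1 : ∫ b, (Metric.closedBall c r).indicator (1 : AddCircle (2 * Real.pi) → ℝ) b ≤ ∫ b, F b :=
    integral_mono ((integrable_const (1 : ℝ)).indicator Metric.isClosed_closedBall.measurableSet)
      (hF.integrable_of_hasCompactSupport (HasCompactSupport.of_compactSpace _)) h
  rwa [integral_indicator_one Metric.isClosed_closedBall.measurableSet, vol_real c hr] at h1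

private lemma norm_coe_le_abs (y : ℝ) : ‖(y : AddCircle (2 * Real.pi))‖ ≤ |y| := by
  have hpi := Real.two_pi_pos
  rw [AddCircle.norm_eq' _ hpi]
  have h1 := round_le ((2 * Real.pi)⁻¹ * y) 0
  rw [Int.cast_zero, sub_zero, abs_mul, abs_of_pos (inv_pos.2 hpi)] at h1
  calc 2 * Real.pi * |(2 * Real.pi)⁻¹ * y - round ((2 * Real.pi)⁻¹ * y)| ≤
      2 * Real.pi * ((2 * Real.pi)⁻¹ * |y|) := mul_le_mul_of_nonneg_left h1 hpi.le
    _ = |y| := by field_simp

theorem trig_sandwich {s t : ℝ} (hs : 0 ≤ s) (hst : s < t) (ht : t ≤ 2 * Real.pi) {ε : ℝ}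
    (hε : 0 < ε) : ∃ cp cm : ℤ →₀ ℂ,
      (∀ x : ℝ, (tpv cp x).im = 0 ∧ (tpv cm x).im = 0) ∧
      (∀ x : ℝ, 0 ≤ (tpv cp x).re ∧ (tpv cp x).re ≤ 2 ∧ (tpv cm x).re ≤ 1) ∧
      (∀ (x : ℝ) (m : ℤ), s ≤ x + 2 * Real.pi * m → x + 2 * Real.pi * m ≤ t →
        1 ≤ (tpv cp x).re) ∧
      (∀ x : ℝ, (¬ ∃ m : ℤ, s < x + 2 * Real.pi * m ∧ x + 2 * Real.pi * m < t) →
        (tpv cm x).re ≤ 0) ∧
      |(cp 0).re - (t - s) / (2 * Real.pi)| ≤ ε ∧ |(cm 0).re - (t - s) / (2 * Real.pi)| ≤ ε := by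
  have hpi := Real.two_pi_pos
  have hpi2 : 2 ≤ 2 * Real.pi := by linarith [Real.pi_gt_three]
  -- parameters
  obtain ⟨ρ, hρ⟩ : ∃ ρ, ρ = (t - s) / 2 := ⟨_, rfl⟩
  obtain ⟨h, hh⟩ : ∃ h : ℝ, h = min (ε / 2) ρ := ⟨_, rfl⟩
  obtain ⟨η, hη⟩ : ∃ η : ℝ, η = min (1 / 2) (ε / 4) := ⟨_, rfl⟩
  have hρ0 : 0 < ρ := by rw [hρ]; linarith
  have hh0 : 0 < h := by rw [hh]; exact lt_min (by linarith) hρ0
  have hhε : h ≤ ε / 2 := by rw [hh]; exact min_le_left _ _
  have hhρ : h ≤ ρ := by rw [hh]; exact min_le_right _ _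
  have hη0 : 0 < η := by rw [hη]; exact lt_min (by norm_num) (by linarith)
  have hη1 : η ≤ 1 / 2 := by rw [hη]; exact min_le_left _ _
  have hη2 : η ≤ ε / 4 := by rw [hη]; exact min_le_right _ _
  obtain ⟨c, hc⟩ : ∃ c : ℝ, c = (s + t) / 2 := ⟨_, rfl⟩
  set cc : AddCircle (2 * Real.pi) := (c : AddCircle (2 * Real.pi)) with hcc
  -- the two functions
  set Fp : AddCircle (2 * Real.pi) → ℝ := fun b => max 0 (min 1 (1 - (‖b - cc‖ - ρ) / h)) with hFp
  set Fm : AddCircle (2 * Real.pi) → ℝ := fun b => max 0 (min 1 ((ρ - ‖b - cc‖) / h)) with hFm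
  have hFpc : Continuous Fp := by rw [hFp]; fun_prop
  have hFmc : Continuous Fm := by rw [hFm]; fun_prop
  have hFp0 : ∀ b, 0 ≤ Fp b := fun b => le_max_left _ _
  have hFp1 : ∀ b, Fp b ≤ 1 := fun b => max_le zero_le_one (min_le_left _ _)
  have hFm0 : ∀ b, 0 ≤ Fm b := fun b => le_max_left _ _
  have hFm1 : ∀ b, Fm b ≤ 1 := fun b => max_le zero_le_one (min_le_left _ _)
  have hFpin : ∀ b, ‖b - cc‖ ≤ ρ → Fp b = 1 := by
    intro b hb
    have h1 : (‖b - cc‖ - ρ) / h ≤ 0 := div_nonpos_of_nonpos_of_nonneg (by linarith) hh0.le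
    show max 0 (min 1 (1 - (‖b - cc‖ - ρ) / h)) = 1
    rw [min_eq_left (by linarith), max_eq_right zero_le_one]
  have hFpout : ∀ b, ρ + h < ‖b - cc‖ → Fp b = 0 := by
    intro b hb
    have h1 : 1 ≤ (‖b - cc‖ - ρ) / h := by rw [le_div_iff₀ hh0]; linarith
    show max 0 (min 1 (1 - (‖b - cc‖ - ρ) / h)) = 0
    exact max_eq_left ((min_le_right _ _).trans (by linarith))
  have hFmin : ∀ b, ‖b - cc‖ ≤ ρ - h → Fm b = 1 := by
    intro b hb
    have h1 : 1 ≤ (ρ - ‖b - cc‖) / h := by rw [le_div_iff₀ hh0]; linarith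
    show max 0 (min 1 ((ρ - ‖b - cc‖) / h)) = 1
    rw [min_eq_left h1, max_eq_right zero_le_one]
  have hFmout : ∀ b, ρ ≤ ‖b - cc‖ → Fm b = 0 := by
    intro b hb
    have h1 : (ρ - ‖b - cc‖) / h ≤ 0 := div_nonpos_of_nonpos_of_nonneg (by linarith) hh0.le
    show max 0 (min 1 ((ρ - ‖b - cc‖) / h)) = 0
    exact max_eq_left ((min_le_right _ _).trans h1)
  -- the integrals
  have hIp1 : ∫ b, Fp b ≤ 2 * (ρ + h) := by
    refine int_le Fp hFpc cc (by linarith) fun b => ?_
    by_cases hb : b ∈ Metric.closedBall cc (ρ + h)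
    · rw [indicator_of_mem hb]; exact hFp1 b
    · rw [indicator_of_notMem hb]
      rw [Metric.mem_closedBall, dist_eq_norm, not_le] at hb
      rw [hFpout b hb]
  have hIp2 : 2 * ρ ≤ ∫ b, Fp b := by
    refine le_trans ?_ (le_int Fp hFpc cc hρ0.le fun b => ?_)
    · exact le_min (by rw [hρ]; linarith) le_rfl
    · by_cases hb : b ∈ Metric.closedBall cc ρ
      · rw [indicator_of_mem hb]
        rw [Metric.mem_closedBall, dist_eq_norm] at hb
        rw [hFpin b hb]; rfl
      · rw [indicator_of_notMem hb]; exact hFp0 b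
  have hIm1 : ∫ b, Fm b ≤ 2 * ρ := by
    refine int_le Fm hFmc cc hρ0.le fun b => ?_
    by_cases hb : b ∈ Metric.closedBall cc ρ
    · rw [indicator_of_mem hb]; exact hFm1 b
    · rw [indicator_of_notMem hb]
      rw [Metric.mem_closedBall, dist_eq_norm, not_le] at hb
      rw [hFmout b hb.le]
  have hIm2 : 2 * (ρ - h) ≤ ∫ b, Fm b := by
    refine le_trans ?_ (le_int Fm hFmc cc (by linarith : 0 ≤ ρ - h) fun b => ?_)
    · exact le_min (by rw [hρ]; linarith) le_rfl
    · by_cases hb : b ∈ Metric.closedBall cc (ρ - h)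
      · rw [indicator_of_mem hb]
        rw [Metric.mem_closedBall, dist_eq_norm] at hb
        rw [hFmin b hb]; rfl
      · rw [indicator_of_notMem hb]; exact hFm0 b
  obtain ⟨P, hP1, hP2, hP3⟩ := approx Fp hFpc hη0
  obtain ⟨M, hM1, hM2, hM3⟩ := approx Fm hFmc hη0
  have hPv : ∀ x : ℝ, tpv (P + Finsupp.single 0 (η : ℂ)) x = tpv P x + (η : ℂ) := by
    intro x; rw [tpv_add, tpv_const]
  have hMv : ∀ x : ℝ, tpv (M + Finsupp.single 0 (-(η : ℂ))) x = tpv M x + -(η : ℂ) := by
    intro x; rw [tpv_add, tpv_const]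
  have hPr : ∀ x : ℝ, (tpv (P + Finsupp.single 0 (η : ℂ)) x).re = (tpv P x).re + η := by
    intro x; rw [hPv, Complex.add_re, Complex.ofReal_re]
  have hMr : ∀ x : ℝ, (tpv (M + Finsupp.single 0 (-(η : ℂ))) x).re = (tpv M x).re - η := by
    intro x; rw [hMv, Complex.add_re, Complex.neg_re, Complex.ofReal_re]; ring
  refine ⟨P + Finsupp.single 0 (η : ℂ), M + Finsupp.single 0 (-(η : ℂ)), ?_, ?_, ?_, ?_, ?_, ?_⟩
  · intro x
    rw [hPv, hMv, Complex.add_im, Complex.add_im, hP1 x, hM1 x]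
    simp
  · intro x
    rw [hPr, hMr]
    have h1 := abs_le.1 (hP2 x)
    have h2 := abs_le.1 (hM2 x)
    have h3 := hFp0 (x : AddCircle (2 * Real.pi))
    have h4 := hFp1 (x : AddCircle (2 * Real.pi))
    have h5 := hFm1 (x : AddCircle (2 * Real.pi))
    refine ⟨by linarith, by linarith, by linarith⟩
  · intro x m h1 h2
    rw [hPr]
    have h3 := abs_le.1 (hP2 x)
    have h4 : Fp (x : AddCircle (2 * Real.pi)) = 1 := by
      apply hFpin
      have h5 : (x : AddCircle (2 * Real.pi)) - cc =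
          ((x + 2 * Real.pi * m - c : ℝ) : AddCircle (2 * Real.pi)) := by
        have h6 : ((2 * Real.pi * m : ℝ) : AddCircle (2 * Real.pi)) = 0 := by
          have h7 := AddCircle.coe_eq_zero_iff (p := 2 * Real.pi) (x := 2 * Real.pi * m)
          rw [h7]
          exact ⟨m, by rw [zsmul_eq_mul]; ring⟩
        rw [hcc, AddCircle.coe_sub, AddCircle.coe_add, h6, add_zero]
      rw [h5]
      refine (norm_coe_le_abs _).trans ?_
      rw [abs_le, hρ, hc]
      constructor <;> linarith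
    rw [h4] at h3
    linarith
  · intro x hx
    rw [hMr]
    have h3 := abs_le.1 (hM2 x)
    have h4 : Fm (x : AddCircle (2 * Real.pi)) = 0 := by
      apply hFmout
      by_contra hcon
      rw [not_le] at hcon
      apply hx
      have h5 : (x : AddCircle (2 * Real.pi)) - cc = ((x - c : ℝ) : AddCircle (2 * Real.pi)) := by
        rw [hcc, AddCircle.coe_sub]
      rw [h5, AddCircle.norm_eq, abs_lt] at hcon
      refine ⟨-round ((2 * Real.pi)⁻¹ * (x - c)), ?_, ?_⟩
      · rw [hρ, hc] at hcon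
        rw [hc]
        push_cast
        linarith [hcon.1]
      · rw [hρ, hc] at hcon
        rw [hc]
        push_cast
        linarith [hcon.2]
    rw [h4] at h3
    linarith
  · have h1 : ((P + Finsupp.single 0 (η : ℂ) : ℤ →₀ ℂ) 0).re = (P 0).re + η := by
      rw [Finsupp.add_apply, Finsupp.single_eq_same, Complex.add_re, Complex.ofReal_re]
    rw [h1]
    have h2 := abs_le.1 hP3
    have h3 : (2 * Real.pi)⁻¹ * ∫ b, Fp b ≤ (t - s) / (2 * Real.pi) + ε / 2 := by
      rw [inv_mul_eq_div, div_add' _ _ _ hpi.ne', div_le_div_iff_of_pos_right hpi]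
      have : h * 2 ≤ ε / 2 * (2 * Real.pi) := by nlinarith
      rw [hρ] at hIp1
      linarith
    have h4 : (t - s) / (2 * Real.pi) ≤ (2 * Real.pi)⁻¹ * ∫ b, Fp b := by
      rw [inv_mul_eq_div, div_le_div_iff_of_pos_right hpi]
      rw [hρ] at hIp2
      linarith
    rw [abs_le]
    constructor <;> linarith [h2.1, h2.2]
  · have h1 : ((M + Finsupp.single 0 (-(η : ℂ)) : ℤ →₀ ℂ) 0).re = (M 0).re - η := by
      rw [Finsupp.add_apply, Finsupp.single_eq_same, Complex.add_re, Complex.neg_re,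
        Complex.ofReal_re]
      ring
    rw [h1]
    have h2 := abs_le.1 hM3
    have h3 : (2 * Real.pi)⁻¹ * ∫ b, Fm b ≤ (t - s) / (2 * Real.pi) := by
      rw [inv_mul_eq_div, div_le_div_iff_of_pos_right hpi]
      rw [hρ] at hIm1
      linarith
    have h4 : (t - s) / (2 * Real.pi) - ε / 2 ≤ (2 * Real.pi)⁻¹ * ∫ b, Fm b := by
      rw [inv_mul_eq_div, div_sub' hpi.ne', div_le_div_iff_of_pos_right hpi]
      have : h * 2 ≤ ε / 2 * (2 * Real.pi) := by nlinarith
      rw [hρ] at hIm2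
      linarith
    rw [abs_le]
    constructor <;> linarith [h2.1, h2.2]

end Pool.Agent.OGP
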