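import Pool.Agent.OGP.Tmean

/-!
# OGP TWO: the two point logarithmic moment generating function

Let `ψ t = log ∫ exp (t G)`, `G = Gf p Q l1 l2`, so `t G = Gf p Q (t l1) (t l2)`.  `ψ 0 = 0` and
`ψ' t = tE (t G) G = n² (l1 tE (t G) (Re utr A^p) + l2 tE (t G) (Re utr (QA)^p))` (differentiate
under the integral; everything is bounded).  By `tmean`,
`|ψ' t - n² (p/2) t (l1² + l2² + 2 l1 l2 Re (utr Q)^p)| ≤ n² s C (s + 1/n)²` for `t ∈ [0, 1]`.
Integrate over `[0, 1]`.
-/

open Matrix MeasureTheory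
namespace Pool.Agent.OGP

theorem two_bound {ι : Type} [Fintype ι] [DecidableEq ι] {E : Type*} [SeminormedAddGroup E]
    {f : UG ι → E} (hf : Continuous f) : ∃ M : ℝ, 0 ≤ M ∧ ∀ A, ‖f A‖ ≤ M := by
  obtain ⟨C, hC⟩ := isCompact_univ.exists_bound_of_continuousOn (f := f) hf.continuousOn
  exact ⟨max C 0, le_max_right _ _, fun A => (hC A (Set.mem_univ A)).trans (le_max_left _ _)⟩

theorem two_int {ι : Type} [Fintype ι] [DecidableEq ι] {E : Type*} [NormedAddCommGroup E]
    {f : UG ι → E} (hf : Continuous f) : Integrable f (haarU ι) :=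
  hf.integrable_of_hasCompactSupport (HasCompactSupport.of_compactSpace f)

/-- derivative of the partition function -/
theorem two_deriv {ι : Type} [Fintype ι] [DecidableEq ι] {G : UG ι → ℝ} (hG : Continuous G)
    (t : ℝ) : HasDerivAt (fun t : ℝ => ∫ A, Real.exp (t * G A) ∂(haarU ι))
      (∫ A, Real.exp (t * G A) * G A ∂(haarU ι)) t := by
  obtain ⟨M, hM0, hM⟩ := two_bound hG
  refine (hasDerivAt_integral_of_dominated_loc_of_deriv_le (μ := haarU ι)
    (F := fun t A => Real.exp (t * G A)) (F' := fun t A => Real.exp (t * G A) * G A) (x₀ := t)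
    (s := Metric.ball t 1) (bound := fun _ => Real.exp ((|t| + 1) * M) * M)
    (Metric.ball_mem_nhds t one_pos) ?_ ?_ ?_ ?_ ?_ ?_).2
  · exact Filter.Eventually.of_forall fun x =>
      (Real.continuous_exp.comp (continuous_const.mul hG)).aestronglyMeasurable
  · exact two_int (Real.continuous_exp.comp (continuous_const.mul hG))
  · exact ((Real.continuous_exp.comp (continuous_const.mul hG)).mul hG).aestronglyMeasurable
  · refine Filter.Eventually.of_forall fun A x hx => ?_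
    rw [norm_mul, Real.norm_of_nonneg (Real.exp_pos _).le]
    refine mul_le_mul (Real.exp_le_exp.2 ?_) (hM A) (norm_nonneg _) (Real.exp_pos _).le
    have h1 : |x| ≤ |t| + 1 := by
      have h2 := Metric.mem_ball.1 hx
      rw [Real.dist_eq] at h2
      have h3 := abs_add_le (x - t) t
      rw [sub_add_cancel] at h3
      linarith
    calc x * G A ≤ |x * G A| := le_abs_self _
      _ = |x| * ‖G A‖ := by rw [abs_mul, Real.norm_eq_abs]
      _ ≤ (|t| + 1) * M := mul_le_mul h1 (hM A) (norm_nonneg _) (by positivity)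
  · exact integrable_const _
  · refine Filter.Eventually.of_forall fun A x _ => ?_
    have h1 : HasDerivAt (fun x : ℝ => x * G A) (G A) x := by
      simpa using (hasDerivAt_id x).mul_const (G A)
    exact h1.exp

theorem two_point (p : ℕ) (hp : 1 ≤ p) : ∃ C : ℝ, 0 ≤ C ∧
    ∀ (ι : Type) [Fintype ι] [DecidableEq ι] [Nonempty ι] (Q : UG ι) (l1 l2 : ℝ),
      |Real.log (∫ A, Real.exp (Gf p Q l1 l2 A) ∂(haarU ι)) -
        (Fintype.card ι : ℝ) ^ 2 * (p / 4 * (l1 ^ 2 + l2 ^ 2 + 2 * l1 * l2 * (utr Q ^ p).re))| ≤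
      C * ((Fintype.card ι : ℝ) ^ 2 * (|l1| + |l2|) *
        (|l1| + |l2| + 1 / (Fintype.card ι : ℝ)) ^ 2) := by
  obtain ⟨C, hC, h⟩ := tmean p hp
  refine ⟨C, hC, fun ι _ _ _ Q l1 l2 => ?_⟩
  set n : ℝ := (Fintype.card ι : ℝ) with hn
  have hn0 : 0 < n := by
    rw [hn]
    exact_mod_cast Fintype.card_pos
  set r : ℝ := (utr Q ^ p).re with hr
  set s : ℝ := |l1| + |l2| with hs
  have hs0 : 0 ≤ s := by positivity
  have hG : Continuous (Gf p Q l1 l2) := continuous_Gf p Q l1 l2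
  have hscale : ∀ t : ℝ, (fun A : UG ι => t * Gf p Q l1 l2 A) = Gf p Q (t * l1) (t * l2) := by
    intro t
    funext A
    unfold Gf
    ring
  have hF0 : ∀ t : ℝ, 0 < ∫ A, Real.exp (t * Gf p Q l1 l2 A) ∂(haarU ι) := fun t =>
    int_exp_pos (G := fun A => t * Gf p Q l1 l2 A) (continuous_const.mul hG)
  -- the derivative of the logarithm
  have hψ : ∀ t : ℝ, HasDerivAt
      (fun t : ℝ => Real.log (∫ A, Real.exp (t * Gf p Q l1 l2 A) ∂(haarU ι)))
      (tE (Gf p Q (t * l1) (t * l2)) (Gf p Q l1 l2)) t := by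
    intro t
    have h1 := (two_deriv hG t).log (hF0 t).ne'
    have h2 : (∫ A, Real.exp (t * Gf p Q l1 l2 A) * Gf p Q l1 l2 A ∂(haarU ι)) /
        (∫ A, Real.exp (t * Gf p Q l1 l2 A) ∂(haarU ι)) =
        tE (Gf p Q (t * l1) (t * l2)) (Gf p Q l1 l2) := by
      rw [← hscale t]
      unfold tE
      rw [smul_eq_mul, div_eq_inv_mul]
      rfl
    rwa [h2] at h1
  have hcA : Continuous fun A : UG ι => (utr (A ^ p)).re :=
    Complex.continuous_re.comp (continuous_utr.comp (continuous_pow p))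
  have hcB : Continuous fun A : UG ι => (utr ((Q * A) ^ p)).re :=
    Complex.continuous_re.comp (continuous_utr.comp
      ((continuous_const.mul continuous_id).pow p))
  have htE : ∀ t : ℝ, tE (Gf p Q (t * l1) (t * l2)) (Gf p Q l1 l2) =
      n ^ 2 * (l1 * tE (Gf p Q (t * l1) (t * l2)) (fun A => (utr (A ^ p)).re) +
        l2 * tE (Gf p Q (t * l1) (t * l2)) (fun A => (utr ((Q * A) ^ p)).re)) := by
    intro t
    have hGt := continuous_Gf p Q (t * l1) (t * l2)
    have e1 : (Gf p Q l1 l2) = fun A : UG ι => n ^ 2 * ((fun A : UG ι => l1 * (utr (A ^ p)).re) A +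
        (fun A : UG ι => l2 * (utr ((Q * A) ^ p)).re) A) := rfl
    have hc1 : Continuous fun A : UG ι => l1 * (utr (A ^ p)).re := continuous_const.mul hcA
    have hc2 : Continuous fun A : UG ι => l2 * (utr ((Q * A) ^ p)).re := continuous_const.mul hcB
    rw [e1, tE_mul, tE_add hGt hc1 hc2, tE_mul, tE_mul]
  set K : ℝ := l1 ^ 2 + l2 ^ 2 + 2 * l1 * l2 * r with hK
  have hd : ∀ t ∈ Set.Icc (0 : ℝ) 1, HasDerivWithinAt
      (fun t : ℝ => Real.log (∫ A, Real.exp (t * Gf p Q l1 l2 A) ∂(haarU ι)) -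
        n ^ 2 * (p / 4 * K) * t ^ 2)
      (tE (Gf p Q (t * l1) (t * l2)) (Gf p Q l1 l2) - n ^ 2 * (p / 4 * K) * (2 * t))
      (Set.Icc 0 1) t := by
    intro t _
    refine ((hψ t).sub ?_).hasDerivWithinAt
    have h1 : HasDerivAt (fun t : ℝ => t ^ 2) (2 * t) t := by
      simpa using hasDerivAt_pow 2 t
    exact h1.const_mul _
  have hb : ∀ t ∈ Set.Ico (0 : ℝ) 1,
      ‖tE (Gf p Q (t * l1) (t * l2)) (Gf p Q l1 l2) - n ^ 2 * (p / 4 * K) * (2 * t)‖ ≤
        C * (n ^ 2 * s * (s + 1 / n) ^ 2) := by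
    intro t ht
    obtain ⟨h1, h2⟩ := h ι Q (t * l1) (t * l2)
    rw [← hn, ← hr] at h1 h2
    have hw : |t * l1| + |t * l2| + 1 / n ≤ s + 1 / n := by
      rw [abs_mul, abs_mul, abs_of_nonneg ht.1, hs]
      have h3 : t * |l1| ≤ |l1| := mul_le_of_le_one_left (abs_nonneg _) ht.2.le
      have h4 : t * |l2| ≤ |l2| := mul_le_of_le_one_left (abs_nonneg _) ht.2.le
      linarith
    have hw0 : 0 ≤ |t * l1| + |t * l2| + 1 / n := by positivity
    have hw2 : C * (|t * l1| + |t * l2| + 1 / n) ^ 2 ≤ C * (s + 1 / n) ^ 2 :=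
      mul_le_mul_of_nonneg_left (pow_le_pow_left₀ hw0 hw 2) hC
    set X := tE (Gf p Q (t * l1) (t * l2)) (fun A => (utr (A ^ p)).re) with hX
    set Y := tE (Gf p Q (t * l1) (t * l2)) (fun A => (utr ((Q * A) ^ p)).re) with hY
    rw [htE t, Real.norm_eq_abs]
    have e1 : n ^ 2 * (l1 * X + l2 * Y) - n ^ 2 * (p / 4 * K) * (2 * t) =
        n ^ 2 * (l1 * (X - p / 2 * (t * l1 + t * l2 * r)) +
          l2 * (Y - p / 2 * (t * l2 + t * l1 * r))) := by
      rw [hK]
      ring
    rw [e1, abs_mul, abs_of_pos (by positivity : 0 < n ^ 2)]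
    have h3 : |l1 * (X - p / 2 * (t * l1 + t * l2 * r)) +
        l2 * (Y - p / 2 * (t * l2 + t * l1 * r))| ≤ s * (C * (s + 1 / n) ^ 2) := by
      refine (abs_add_le _ _).trans ?_
      rw [abs_mul, abs_mul, hs, add_mul]
      exact add_le_add (mul_le_mul_of_nonneg_left (h1.trans hw2) (abs_nonneg _))
        (mul_le_mul_of_nonneg_left (h2.trans hw2) (abs_nonneg _))
    refine (mul_le_mul_of_nonneg_left h3 (by positivity)).trans (le_of_eq ?_)
    ring
  have key := norm_image_sub_le_of_norm_deriv_le_segment_01' hd hb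
  simp only [one_mul, zero_mul, Real.exp_zero, integral_const, probReal_univ, smul_eq_mul,
    mul_one, Real.log_one, one_pow, ne_eq, OfNat.ofNat_ne_zero, not_false_eq_true, zero_pow,
    mul_zero, sub_zero] at key
  rw [Real.norm_eq_abs] at key
  exact key

end Pool.Agent.OGP
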