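import Pool.Agent.OGP.Lam
import Pool.Agent.OGP.Kfacts

/-!
# OGP VOL: volume of the set of `W` with `|qK W|` close to `1`

Let `M = k N²`.  `W_1, ..., W_k` are independent under `haarK`.  For `b' > 0`, `λ = 1/(2 b')` and a
phase `θ`: by Chernoff, independence and the phase invariance of the Haar measures,
`P (Re (e^{iθ} qK W) ≥ 1 - b') ≤ e^{λ N² k b'} ∏_i ∫ exp (λ N² (Re utr (phU θ W_i) - 1))
≤ e^{M/2} (1 + 1/b')^{-M/2} ≤ (e b')^{M/2}` (`lam_bound`).
If `|qK W| ≥ 1 - b`, take `m = ⌈√(5/b)⌉`, so `5/m² ≤ b`; by `exists_grid_phase` some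
`Re (e^{iθ_j} qK W) ≥ (1 - b)(1 - 5/m²) ≥ 1 - 2b` with `θ_j = 2π j/m`.  Union bound over `m` phases:
`P ≤ m (2 e b)^{M/2}`, `m ≤ √5/√b + 1 ≤ 3/√b + 1`.  (If `b ≥ 1`, the right side is `≥ 1`.)
-/

open Matrix MeasureTheory
namespace Pool.Agent.OGP

/-- the exponential moment -/
private lemma moment {k N : ℕ} (hN : 1 ≤ N) (θ lam : ℝ) (hl : 0 ≤ lam) :
    ∫ W, Real.exp (lam * (N : ℝ) ^ 2 * k * ((Complex.exp (Complex.I * θ) * qK W).re - 1)) ∂(haarK k N) ≤
      Real.exp (-((N : ℝ) ^ 2 / 2 * Real.log (1 + 2 * lam))) ^ k := by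
  have hNe : Nonempty (Fin N) := ⟨⟨0, hN⟩⟩
  have h1 : ∀ W : KG k N,
      Real.exp (lam * (N : ℝ) ^ 2 * k * ((Complex.exp (Complex.I * θ) * qK W).re - 1)) =
        ∏ i, Real.exp (lam * (N : ℝ) ^ 2 * ((utr (phU θ * W i)).re - 1)) := by
    intro W
    rw [← Real.exp_sum]
    congr 1
    rw [← Finset.mul_sum, Finset.sum_sub_distrib, Finset.sum_const, Finset.card_univ,
      Fintype.card_fin, nsmul_eq_mul, mul_one]
    rcases Nat.eq_zero_or_pos k with h0 | h0
    · subst h0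
      simp
    · have hk0 : (k : ℝ) ≠ 0 := by
        have : (0 : ℝ) < k := by exact_mod_cast h0
        exact this.ne'
      have hkc : (k : ℂ) ≠ 0 := by exact_mod_cast hk0
      have h2 : (k : ℝ) * (Complex.exp (Complex.I * θ) * qK W).re =
          ∑ i, (utr (phU θ * W i)).re := by
        rw [← Complex.re_sum]
        have h3 : ∑ i, utr (phU θ * W i) = (k : ℂ) * (Complex.exp (Complex.I * θ) * qK W) := by
          simp only [utr_phU_mul, ← Finset.mul_sum]
          unfold qK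
          field_simp
        rw [h3]
        have h4 : (k : ℂ) = ((k : ℝ) : ℂ) := by simp
        rw [h4, Complex.re_ofReal_mul]
      rw [← h2]
      ring
  simp only [h1]
  unfold haarK
  rw [integral_fintype_prod_eq_prod (fun (_ : Fin k) (X : UG (Fin N)) =>
    Real.exp (lam * (N : ℝ) ^ 2 * ((utr (phU θ * X)).re - 1))), Finset.prod_const, Finset.card_univ,
    Fintype.card_fin]
  have h2 : ∫ X, Real.exp (lam * (N : ℝ) ^ 2 * ((utr (phU θ * X)).re - 1)) ∂(haarU (Fin N)) =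
      ∫ X, Real.exp (lam * (N : ℝ) ^ 2 * ((utr X).re - 1)) ∂(haarU (Fin N)) :=
    integral_mul_left_eq_self (fun X => Real.exp (lam * (N : ℝ) ^ 2 * ((utr X).re - 1))) (phU θ)
  rw [h2]
  apply pow_le_pow_left₀ (integral_nonneg fun _ => (Real.exp_pos _).le)
  have h3 := lam_bound (ι := Fin N) hl
  rwa [Fintype.card_fin] at h3

/-- the Chernoff bound -/
private lemma chernoff {k N : ℕ} (hN : 1 ≤ N) (θ : ℝ) {b : ℝ} (hb : 0 < b) :
    (haarK k N).real {W | 1 - b ≤ (Complex.exp (Complex.I * θ) * qK W).re} ≤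
      Real.exp ((k : ℝ) * (N : ℝ) ^ 2 / 2 * Real.log (Real.exp 1 * b)) := by
  set lam := 1 / (2 * b) with hlam
  have hl : 0 ≤ lam := by positivity
  set f : KG k N → ℝ := fun W =>
    Real.exp (lam * (N : ℝ) ^ 2 * k * ((Complex.exp (Complex.I * θ) * qK W).re - 1)) with hf
  have hfc : Continuous f := by
    rw [hf]
    exact Real.continuous_exp.comp (continuous_const.mul ((Complex.continuous_re.comp
      (continuous_const.mul (continuous_qK (k := k) (N := N)))).sub continuous_const))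
  have hint : Integrable f (haarK k N) :=
    hfc.integrable_of_hasCompactSupport (HasCompactSupport.of_compactSpace f)
  have h1 := mul_meas_ge_le_integral_of_nonneg (μ := haarK k N)
    (Filter.Eventually.of_forall fun W => (Real.exp_pos _).le : 0 ≤ᵐ[haarK k N] f) hint
    (Real.exp (-(lam * (N : ℝ) ^ 2 * k * b)))
  have h2 : {W | 1 - b ≤ (Complex.exp (Complex.I * θ) * qK W).re} ⊆
      {W : KG k N | Real.exp (-(lam * (N : ℝ) ^ 2 * k * b)) ≤ f W} := by
    intro W hW
    rw [Set.mem_ofPred_eq] at hW ⊢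
    rw [hf]
    apply Real.exp_le_exp.2
    have h3 : lam * (N : ℝ) ^ 2 * k * (-b) ≤
        lam * (N : ℝ) ^ 2 * k * ((Complex.exp (Complex.I * θ) * qK W).re - 1) :=
      mul_le_mul_of_nonneg_left (by linarith) (by positivity)
    linarith
  have h3 : (haarK k N).real {W | 1 - b ≤ (Complex.exp (Complex.I * θ) * qK W).re} ≤
      (haarK k N).real {W : KG k N | Real.exp (-(lam * (N : ℝ) ^ 2 * k * b)) ≤ f W} :=
    measureReal_mono h2 (measure_ne_top _ _)
  have h4 := (h1.trans (moment hN θ lam hl))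
  have h5 : Real.exp (lam * (N : ℝ) ^ 2 * k * b) * Real.exp (-(lam * (N : ℝ) ^ 2 * k * b)) = 1 := by
    rw [← Real.exp_add]
    simp
  have h6 : (haarK k N).real {W : KG k N | Real.exp (-(lam * (N : ℝ) ^ 2 * k * b)) ≤ f W} ≤
      Real.exp (lam * (N : ℝ) ^ 2 * k * b) *
        Real.exp (-((N : ℝ) ^ 2 / 2 * Real.log (1 + 2 * lam))) ^ k := by
    calc (haarK k N).real {W : KG k N | Real.exp (-(lam * (N : ℝ) ^ 2 * k * b)) ≤ f W}
        = Real.exp (lam * (N : ℝ) ^ 2 * k * b) * (Real.exp (-(lam * (N : ℝ) ^ 2 * k * b)) *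
          (haarK k N).real {W : KG k N | Real.exp (-(lam * (N : ℝ) ^ 2 * k * b)) ≤ f W}) := by
          rw [← mul_assoc, h5, one_mul]
      _ ≤ _ := mul_le_mul_of_nonneg_left h4 (Real.exp_pos _).le
  refine (h3.trans h6).trans ?_
  rw [← Real.exp_nat_mul, ← Real.exp_add]
  apply Real.exp_le_exp.2
  have h7 : Real.log (1 / b) ≤ Real.log (1 + 2 * lam) := by
    apply Real.log_le_log (by positivity)
    have : 2 * lam = 1 / b := by
      rw [hlam]
      field_simp
    linarith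
  rw [one_div, Real.log_inv] at h7
  rw [Real.log_mul (Real.exp_pos 1).ne' hb.ne', Real.log_exp]
  have h8 : lam * (N : ℝ) ^ 2 * k * b = (k : ℝ) * (N : ℝ) ^ 2 / 2 := by
    rw [hlam]
    field_simp
  rw [h8]
  have h9 : (0 : ℝ) ≤ (k : ℝ) * (N : ℝ) ^ 2 / 2 := by positivity
  nlinarith [mul_le_mul_of_nonneg_left h7 h9]

theorem vol_upper {k N : ℕ} (hk : 1 ≤ k) (hN : 1 ≤ N) {b : ℝ} (hb : 0 < b) :
    (haarK k N).real {W | 1 - b ≤ ‖qK W‖} ≤
      (3 / Real.sqrt b + 1) *
        Real.exp ((k : ℝ) * (N : ℝ) ^ 2 / 2 * Real.log (2 * Real.exp 1 * b)) := by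
  have hsb : 0 < Real.sqrt b := Real.sqrt_pos.2 hb
  have he : 1 < Real.exp 1 := by
    have := Real.add_one_lt_exp (x := (1 : ℝ)) (by norm_num)
    linarith
  rcases le_or_gt 1 b with hb1 | hb1
  · -- trivial case
    have h1 : (haarK k N).real {W | 1 - b ≤ ‖qK W‖} ≤ 1 := measureReal_le_one
    have h2 : 0 ≤ Real.log (2 * Real.exp 1 * b) := Real.log_nonneg (by nlinarith)
    have h3 : 1 ≤ Real.exp ((k : ℝ) * (N : ℝ) ^ 2 / 2 * Real.log (2 * Real.exp 1 * b)) :=
      Real.one_le_exp (by positivity)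
    have h4 : 0 ≤ 3 / Real.sqrt b := by positivity
    nlinarith
  · set m := ⌈Real.sqrt (5 / b)⌉₊ with hm
    have hm0 : 0 < m := Nat.ceil_pos.2 (Real.sqrt_pos.2 (by positivity))
    have hmR : (0 : ℝ) < m := by exact_mod_cast hm0
    have hmge : Real.sqrt (5 / b) ≤ m := Nat.le_ceil _
    have hm5 : 5 / (m : ℝ) ^ 2 ≤ b := by
      have h1 : 5 / b ≤ (m : ℝ) ^ 2 := by
        have h2 := pow_le_pow_left₀ (Real.sqrt_nonneg _) hmge 2
        rwa [Real.sq_sqrt (by positivity)] at h2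
      rw [div_le_iff₀ (by positivity)]
      rw [div_le_iff₀ hb] at h1
      linarith
    have hmle : (m : ℝ) ≤ 3 / Real.sqrt b + 1 := by
      have h1 := Nat.ceil_lt_add_one (Real.sqrt_nonneg (5 / b))
      have h2 : Real.sqrt (5 / b) ≤ 3 / Real.sqrt b := by
        rw [Real.sqrt_div (by norm_num)]
        apply div_le_div_of_nonneg_right _ hsb.le
        rw [Real.sqrt_le_left (by norm_num)]
        norm_num
      rw [← hm] at h1
      linarith
    have hsub : {W : KG k N | 1 - b ≤ ‖qK W‖} ⊆ ⋃ j ∈ Finset.range m,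
        {W : KG k N | 1 - 2 * b ≤
          (Complex.exp (Complex.I * ((2 * Real.pi * j / m : ℝ) : ℂ)) * qK W).re} := by
      intro W hW
      rw [Set.mem_ofPred_eq] at hW
      obtain ⟨j, hj, hj1, -⟩ := exists_grid_phase (qK W) hm0
      simp only [Set.mem_iUnion]
      refine ⟨j, Finset.mem_range.2 hj, ?_⟩
      rw [Set.mem_ofPred_eq]
      refine le_trans ?_ hj1
      have h1 : (1 - b) * (1 - b) ≤ ‖qK W‖ * (1 - 5 / (m : ℝ) ^ 2) :=
        mul_le_mul hW (by linarith) (by linarith) (norm_nonneg _)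
      nlinarith
    calc (haarK k N).real {W | 1 - b ≤ ‖qK W‖}
        ≤ (haarK k N).real (⋃ j ∈ Finset.range m, {W : KG k N | 1 - 2 * b ≤
          (Complex.exp (Complex.I * ((2 * Real.pi * j / m : ℝ) : ℂ)) * qK W).re}) :=
          measureReal_mono hsub (measure_ne_top _ _)
      _ ≤ ∑ j ∈ Finset.range m, (haarK k N).real {W : KG k N | 1 - 2 * b ≤
          (Complex.exp (Complex.I * ((2 * Real.pi * j / m : ℝ) : ℂ)) * qK W).re} :=
          measureReal_biUnion_finset_le _ _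
      _ ≤ ∑ _j ∈ Finset.range m,
          Real.exp ((k : ℝ) * (N : ℝ) ^ 2 / 2 * Real.log (Real.exp 1 * (2 * b))) :=
          Finset.sum_le_sum fun j _ => chernoff hN _ (by positivity)
      _ = m * Real.exp ((k : ℝ) * (N : ℝ) ^ 2 / 2 * Real.log (2 * Real.exp 1 * b)) := by
          rw [Finset.sum_const, Finset.card_range, nsmul_eq_mul]
          congr 4
          ring
      _ ≤ _ := mul_le_mul_of_nonneg_right hmle (Real.exp_pos _).le

end Pool.Agent.OGP
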